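import Pool.Agent.CDk.D.D0
import Pool.Agent.CDk.Defs
import Pool.Agent.CDk.FIN2
import Pool.Agent.CDk.FNa
import Pool.Agent.CDk.FV
import Pool.Agent.CDk.GAP

/-!
# EXC: what is known at the right end of a gap

Apply the theorem `gap` (GAP.lean) with `t0 := κ - Y`, to `u t = g * x (a + t)`, `v t = g * y (a + t)` exactly as in the theorem
`excursion` (FIN3.lean), now with the function `E` of `Dom` and with `D` bounding only `-(g x)`. Differences: `T ≥ 1.49` may be
smaller than `κ`; `κ - t0 = Y`. For `t ∈ (t0, T)` and the delay `θ ≤ κ`: if `θ ≤ t` the argument is inside the gap, otherwise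
`r = θ - t ∈ [0, κ - t] ⊆ [0, Y]`. For `t < t0`: `a t ≤ B + E (κ - t)`. The last claim: for `r ≤ T` the value is `≤ 0 = D` (gap of
sign `g`), for `r > T`: `r - T ≤ κ - T ≤ 1.56 ≤ Y`.
The quantity `q` of `gap` is `qG P N' D (T - κ)` with `N' = sinh(κ-Y)/sg * V + I2 D Y` (as `T - t0 = Y + (T - κ)`).
-/

open MeasureTheory Set Filter Topology

namespace Pool.Agent.CDk

theorem post_gap {P : Par} (h : P.Star) {κ : ℝ} (hκ1 : P.Y + P.s - 0.0001 ≤ κ) (hκ : κ < P.Y + P.s)
    {x y : ℝ → ℝ} {t0 : ℝ} (hx : Sol x y t0 κ) {a T g V : ℝ} {D : ℝ → ℝ} (hg : g = 1 ∨ g = -1)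
    (ha : t0 + κ ≤ a) (hT : 1.49 ≤ T) (hx0 : x a = 0) (hxT : x (a + T) = 0)
    (hpos : ∀ t ∈ Ioo 0 T, 0 < g * x (a + t)) (hD : Pf D) (hdom : Dom P κ x y a g V D) :
    (0 ≤ -(g * y (a + T))) ∧
    (-(g * y (a + T)) ≤ gv P (Real.sinh (κ - P.Y) / P.sg * V + I2 D P.Y) D (T - κ)) ∧
    (∀ r ∈ Icc 0 (P.Y + (T - κ)), g * x (a + T - r)
      ≤ fF P (Real.sinh (κ - P.Y) / P.sg * V + I2 D P.Y) D (T - κ) r) ∧
    (∀ t ∈ Icc 0 (κ - P.Y), g * x (a + t) ≤ Real.sinh (κ - P.Y) / P.sg * V) ∧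
    (∀ r ∈ Icc 0 κ, -(g * x (a + T - r)) ≤ D (r - T)) := by
  have hY := Par.Y_pos h
  have hs_lo := h.s_lo
  have hs_hi := h.s_hi
  have hT0 : 0 < T := by linarith only [hκ1, hκ, hT]
  have hκ0 : 0 ≤ κ := by linarith
  obtain ⟨hdD, E, hEm, hE0, hEb, hEV⟩ := hdom
  set τ0 := κ - P.Y with hτ0
  have hτ00 : 0 ≤ τ0 := by linarith
  have hτ1 : τ0 ≤ 1.4 := by linarith
  have hτκ : τ0 ≤ κ := by linarith
  have hτT : τ0 < T := by linarith
  -- the translated functions
  set u : ℝ → ℝ := fun t => g * x (a + t) with hu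
  set v : ℝ → ℝ := fun t => g * y (a + t) with hv
  have hut : ∀ t ∈ Icc 0 T, HasDerivWithinAt u (v t) (Icc 0 T) t := by
    intro t ht
    have h1 := hx.dx (a + t) (by linarith [ht.1])
    have h2 : HasDerivWithinAt (fun t => a + t) 1 (Icc 0 T) t := (hasDerivWithinAt_id t _).const_add a
    have h3 := HasDerivWithinAt.scomp (t' := Ici t0) t h1 h2 (fun s hs => mem_Ici.mpr (by linarith only [hs.1, hκ1, hκ, ha, hY, hs_lo, hs]))
    have h4 := h3.const_mul g
    simpa [hu, hv, Function.comp_def] using h4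
  have hvac : AbsolutelyContinuousOnInterval v 0 T :=
    ac_const_mul g (ac_shift (hx.ac (a + 0) (a + T) (by linarith only [hκ1, hκ, ha, hY, hs_lo]) (by linarith)))
  have hu0 : u 0 = 0 := by simp [hu, hx0]
  have huT : u T = 0 := by simp [hu, hxT]
  have hupos : ∀ t ∈ Icc 0 T, 0 ≤ u t := by
    intro t ht
    rcases ht.1.eq_or_lt with h1 | h1
    · rw [← h1, hu0]
    rcases ht.2.eq_or_lt with h2 | h2
    · rw [h2, huT]
    · exact (hpos t ⟨h1, h2⟩).le
  -- the acceleration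
  have hae := ae_shift a hx.eq
  have hchoose : ∀ t, ∃ b : ℝ, (∃ c θ, 0 ≤ c ∧ c ≤ 1 ∧ 0 ≤ θ ∧ θ ≤ κ ∧
      HasDerivAt y (c * x (a + t - θ)) (a + t)) → HasDerivAt v b t ∧ ∃ c θ, 0 ≤ c ∧ c ≤ 1 ∧ 0 ≤ θ ∧
        θ ≤ κ ∧ b = g * (c * x (a + t - θ)) := by
    intro t
    by_cases hc : ∃ c θ, 0 ≤ c ∧ c ≤ 1 ∧ 0 ≤ θ ∧ θ ≤ κ ∧ HasDerivAt y (c * x (a + t - θ)) (a + t)
    · obtain ⟨c, θ, c0, c1, θ0, θ1, hd⟩ := hc
      refine ⟨g * (c * x (a + t - θ)), fun _ => ⟨?_, c, θ, c0, c1, θ0, θ1, rfl⟩⟩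
      have h2 : HasDerivAt (fun t => a + t) 1 t := (hasDerivAt_id t).const_add a
      have h3 := HasDerivAt.scomp t hd h2
      have h4 := h3.const_mul g
      simpa [hv, Function.comp_def] using h4
    · exact ⟨0, fun h => absurd h hc⟩
  choose b hb using hchoose
  have hb1 : ∀ᵐ t, t ∈ Ioo 0 T → HasDerivAt v (b t) t ∧ ∃ c θ, 0 ≤ c ∧ c ≤ 1 ∧ 0 ≤ θ ∧
        θ ≤ κ ∧ b t = g * (c * x (a + t - θ)) := by
    filter_upwards [hae] with t ht htI
    exact hb t (ht (by linarith only [htI.1, hκ1, hκ, ha, hY, hs_lo, htI]))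
  have hlow : ∀ᵐ t, t ∈ Ioo τ0 T → -(D (κ - t)) ≤ b t := by
    filter_upwards [hb1] with t ht htI
    obtain ⟨-, c, θ, c0, c1, θ0, θ1, rfl'⟩ := ht ⟨by linarith [htI.1], htI.2⟩
    rw [rfl']
    have hDn : 0 ≤ D (κ - t) := hD.nonneg _
    rcases le_total θ t with h1 | h1
    · -- inside the gap
      have : 0 ≤ g * x (a + (t - θ)) := hupos (t - θ) ⟨by linarith, by linarith [htI.2]⟩
      have e1 : g * (c * x (a + t - θ)) = c * (g * x (a + (t - θ))) := by
        rw [show a + t - θ = a + (t - θ) by ring]; ring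
      rw [e1]
      have := mul_nonneg c0 this
      linarith only [hDn, this]
    · have h2 := hdD (θ - t) ⟨by linarith, by linarith [htI.1]⟩
      have h3 : D (θ - t) ≤ D (κ - t) := hD.mono (by linarith)
      have e1 : g * (c * x (a + t - θ)) = c * (g * x (a - (θ - t))) := by
        rw [show a + t - θ = a - (θ - t) by ring]; ring
      rw [e1]
      have h4 : -(D (κ - t)) ≤ g * x (a - (θ - t)) := by linarith
      nlinarith only [hκ1, hκ, c0, h2, h3, c1, hDn]
  have hupp : ∀ᵐ t, t ∈ Ioo 0 τ0 → ∀ B, 0 ≤ B → (∀ t' ∈ Icc 0 t, u t' ≤ B) →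
      b t ≤ B + E (κ - t) := by
    filter_upwards [hb1] with t ht htI B hB0 hB
    have htT : t < T := by linarith only [htI.2, hκ1, hκ, hT, hs_hi, htI]
    obtain ⟨-, c, θ, c0, c1, θ0, θ1, rfl'⟩ := ht ⟨htI.1, htT⟩
    rw [rfl']
    have hEn := hE0 (κ - t)
    rcases le_total θ t with h1 | h1
    · have h2 := hB (t - θ) ⟨by linarith, by linarith⟩
      have e1 : g * (c * x (a + t - θ)) = c * u (t - θ) := by
        simp only [hu]
        rw [show a + t - θ = a + (t - θ) by ring]; ring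
      rw [e1]
      have h3 := hupos (t - θ) ⟨by linarith, by linarith only [htT, θ0]⟩
      nlinarith only [hEn, hκ1, hκ, hB0, c1, c0, h2]
    · have h2 := hEb (θ - t) ⟨by linarith, by linarith [htI.1]⟩
      have h3 : E (θ - t) ≤ E (κ - t) := hEm (by linarith)
      have e1 : g * (c * x (a + t - θ)) = c * (g * x (a - (θ - t))) := by
        rw [show a + t - θ = a - (θ - t) by ring]; ring
      rw [e1]
      have h4 : g * x (a - (θ - t)) ≤ E (κ - t) := h2.trans h3
      nlinarith only [hB0, hκ1, hκ, c0, h2, h3, c1, hEn]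
  have G := gap (κ := κ) (T := T) (t0 := τ0) (E := E) (a := b) hD hEm
    hE0 hτ00 hτ1 hτκ hτT hut hvac
    (by filter_upwards [hb1] with t ht htI using (ht htI).1) hlow hupp hu0 huT hupos
  simp only at G
  obtain ⟨g1, g2, g3⟩ := G
  have hv0 : v 0 = g * y a := by simp [hv]
  have hvT : v T ≤ 0 := slope_nonpos hT0 (hut T ⟨hT0.le, le_rfl⟩) huT hupos
  set A := v 0 * Real.sinh τ0 + ∫ τ in (0:ℝ)..τ0, Real.sinh (τ0 - τ) * E (κ - τ) with hA
  set A' := Real.sinh τ0 / P.sg * V with hA'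
  have hAA : A ≤ A' := by
    rw [hA, hv0]
    exact hEV
  have hden : 0 < T - τ0 := by linarith only [hκ1, hκ, hT, hs_hi]
  have e1 : κ - τ0 = P.Y := by rw [hτ0]; ring
  have e2 : P.Y + (T - κ) = T - τ0 := by rw [hτ0]; ring
  have e3 : -(T - κ) = κ - T := by ring
  rw [e1] at g1 g2
  have hq : (A + I2 D P.Y - I2 D (κ - T)) / (T - τ0) ≤ qG P (A' + I2 D P.Y) D (T - κ) := by
    unfold qG
    rw [e2, e3]
    exact div_le_div_of_nonneg_right (by linarith only [hAA]) hden.le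
  refine ⟨?_, ?_, ?_, ?_, ?_⟩
  · show 0 ≤ -(v T)
    linarith only [hvT]
  · unfold gv
    rw [e3]
    show -(v T) ≤ _
    linarith only [g1, hq]
  · intro r hr
    rw [e2] at hr
    have h1 := g2 r hr
    have h2 := mul_le_mul_of_nonneg_left hq hr.1
    unfold fF
    rw [e3]
    have e4 : r - (T - κ) = r + κ - T := by ring
    have e5 : u (T - r) = g * x (a + T - r) := by
      simp only [hu]
      rw [show a + (T - r) = a + T - r by ring]
    rw [e4, ← e5]
    linarith only [h1, h2]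
  · intro t ht
    exact (g3 t ht).trans hAA
  · intro r hr
    rcases le_total r T with h1 | h1
    · have h2 := hupos (T - r) ⟨by linarith only [h1], by linarith only [hr.1, hr]⟩
      have e5 : u (T - r) = g * x (a + T - r) := by
        simp only [hu]
        rw [show a + (T - r) = a + T - r by ring]
      rw [e5] at h2
      have h3 := hD.nonneg (r - T)
      linarith only [h2, h3]
    · have h2 := hdD (r - T) ⟨by linarith only [h1], by linarith only [hr.2, hκ1, hκ, hT, hs_hi, hr]⟩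
      rw [show a - (r - T) = a + T - r by ring] at h2
      exact h2

end Pool.Agent.CDk
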