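import Pool.Agent.CDk.Defs
import Pool.Agent.CDk.FV
import Pool.Agent.CDk.GAP
import Pool.Agent.CDk.Ker

/-!
# Critical delay, part D: all oscillatory solutions (definitions)

`K = Y + s`. In part D the delay bound `κ` is in `[K - 0.0001, K)`, `t₀ = κ - Y`. A gap is an interval
`(a, a + T)` between two consecutive zeros, `e = T - κ` (may be negative).
-/

open MeasureTheory Set Filter Topology

namespace Pool.Agent.CDk

/-- quotient `q` of a gap with `e = T - κ` after the state `(N, D)` -/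
noncomputable def qG (P : Par) (N : ℝ) (D : ℝ → ℝ) (e : ℝ) : ℝ := (N - I2 D (-e)) / (P.Y + e)
/-- slope at the end of the gap -/
noncomputable def gv (P : Par) (N : ℝ) (D : ℝ → ℝ) (e : ℝ) : ℝ := qG P N D e - I1 D (-e)
/-- opening part of the new state -/
noncomputable def gV (P : Par) (N : ℝ) (D : ℝ → ℝ) (e : ℝ) : ℝ :=
  P.sg * gv P N D e + ∫ τ in (0:ℝ)..P.s, Real.sinh (P.s - τ) * D (-e - τ)
/-- solution of the boundary value problem of the gap, `r` = distance from the right end -/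
noncomputable def fF (P : Par) (N : ℝ) (D : ℝ → ℝ) (e r : ℝ) : ℝ :=
  r * qG P N D e - (I2 D (r - e) - I2 D (-e))
/-- the new profile (the nondecreasing hull of `fF`) -/
noncomputable def GD (P : Par) (N : ℝ) (D : ℝ → ℝ) (e r : ℝ) : ℝ :=
  ∫ v in (0:ℝ)..(max r 0), max (qG P N D e - I1 D (v - e)) 0

/-- virtual states with one more bound -/
structure VS2 (P : Par) (N δ : ℝ) (D : ℝ → ℝ) : Prop extends VS P N δ D where
  d22 : D 2.2 ≤ 0.805 * N

/-- the actual state at the zero `a`, before a gap of sign `g`, is at most `(V, D)`: `D` bounds the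
history of sign `-g`; the history of sign `g` (bounded by `E`) enters only through `V` -/
def Dom (P : Par) (κ : ℝ) (x y : ℝ → ℝ) (a g V : ℝ) (D : ℝ → ℝ) : Prop :=
  (∀ r ∈ Icc 0 P.Y, -(g * x (a - r)) ≤ D r) ∧
  ∃ E : ℝ → ℝ, Monotone E ∧ (∀ r, 0 ≤ E r) ∧ (∀ r ∈ Icc 0 κ, g * x (a - r) ≤ E r) ∧
    g * y a * Real.sinh (κ - P.Y) + ∫ τ in (0:ℝ)..(κ - P.Y), Real.sinh (κ - P.Y - τ) * E (κ - τ)
      ≤ Real.sinh (κ - P.Y) / P.sg * V

/-! ## zone N: gaps with `e = -a`, `0 ≤ a ≤ 0.45` (normalised, `i = I1 D / N`) -/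

namespace Par
variable (P : Par)

noncomputable def qN (a : ℝ) (i : ℝ → ℝ) : ℝ := (1 - ∫ y in (0:ℝ)..a, i y) / (P.Y - a)
noncomputable def gN (a : ℝ) (i : ℝ → ℝ) (v : ℝ) : ℝ := max (P.qN a i - i (v + a)) 0
noncomputable def VN (a : ℝ) (i : ℝ → ℝ) : ℝ :=
  P.sg * P.qN a i - ∫ y in (0:ℝ)..a, Real.cosh (P.s - a + y) * i y
noncomputable def UN (a : ℝ) (i : ℝ → ℝ) : ℝ := P.VN a i + ∫ v in (0:ℝ)..P.Y, P.mb v * P.gN a i v
noncomputable def NN (a : ℝ) (i : ℝ → ℝ) : ℝ :=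
  P.VN a i + ∫ v in (0:ℝ)..P.Y, (P.Y - v)^2/2 * P.gN a i v
noncomputable def IN (a : ℝ) (i : ℝ → ℝ) (r : ℝ) : ℝ := ∫ v in (0:ℝ)..r, (r - v) * P.gN a i v

/-- the kernel of the first variation of `IN r - ι(r) NN` on `[0, a]` (`c` is the crossing) -/
noncomputable def kA (a c r y : ℝ) : ℝ :=
  P.io r * (P.sg / (P.Y - a) + Real.cosh (P.s - a + y)) - (∫ v in (0:ℝ)..(c - a), P.ker r v) / (P.Y - a)
/-- weighted norm of the first variation of `IN r - ι(r) NN` -/
noncomputable def TN (a c r : ℝ) : ℝ :=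
  (∫ y in (0:ℝ)..a, |P.kA a c r y| * w y) + ∫ y in a..c, |P.ker r (y - a)| * w y
/-- weight of the crossing -/
noncomputable def WN (a c : ℝ) : ℝ := w c + (∫ y in (0:ℝ)..a, w y) / (P.Y - a)

end Par

end Pool.Agent.CDk
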