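import Pool.Agent.CDk.D.CLU
import Pool.Agent.CDk.D.D0
import Pool.Agent.CDk.Defs
import Pool.Agent.CDk.FIN2
import Pool.Agent.CDk.FNa

/-!
# IGN: a cluster of length at most 0.6 before a gap of the opposite sign is harmless

`cluster` with `τ = a - b`, `m = 0` gives on `[b, a]`: `|x| ≤ 0.045 M`, `|y a| ≤ 0.3 M`, `|x(a-r)| ≤ 0.3 M r`.
`D`-part: `r ≤ a - b` by `hs`; `r > a - b`: `r - (a-b) ∈ [0, Y]` and `D` is monotone. New `E'(r) = 0.045 M + E(r)`, and
`(cosh t0 - 1) ≤ 0.128 sinh t0 / sg` for `0 ≤ t0 = κ - Y ≤ s` (`(cosh t - 1)/sinh t` is increasing, `cosh s - 1 ≤ 0.128`).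
-/

open MeasureTheory Set Filter Topology

namespace Pool.Agent.CDk

private theorem ign_cosh {P : Par} (h : P.Star) {t : ℝ} (ht0 : 0 ≤ t) (ht : t ≤ P.s) :
    P.sg * (Real.cosh t - 1) ≤ 0.128 * Real.sinh t := by
  have hsg := Par.sg_bd h
  have h8 : P.sg = Real.sinh P.s := rfl
  have h1 : Real.sinh (P.s - t) ≤ Real.sinh P.s - Real.sinh t := by
    have h2 : Real.sinh P.s = Real.sinh (P.s - t) * Real.cosh t +
        Real.cosh (P.s - t) * Real.sinh t := by
      rw [← Real.sinh_add]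
      congr 1
      ring
    have h3 : 0 ≤ Real.sinh (P.s - t) := Real.sinh_nonneg_iff.2 (by linarith)
    have h4 : 0 ≤ Real.sinh t := Real.sinh_nonneg_iff.2 ht0
    have h5 := Real.one_le_cosh t
    have h6 := Real.one_le_cosh (P.s - t)
    nlinarith only [h2, hsg, h3, h5, h4, h6]
  have h2 : Real.sinh (P.s - t) = Real.sinh P.s * Real.cosh t - Real.cosh P.s * Real.sinh t :=
    Real.sinh_sub _ _
  have h3 : Real.cosh P.s ≤ 1.128 := by
    have h4 := Real.cosh_sq P.s
    have h5 := Real.one_le_cosh P.s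
    rw [← h8] at h4
    nlinarith only [h4, hsg, h5]
  have h4 : 0 ≤ Real.sinh t := Real.sinh_nonneg_iff.2 ht0
  rw [h8]
  nlinarith only [h1, h2, hsg, h3, h4]

private theorem ign_sinh {P : Par} {κ : ℝ} :
    ∫ τ in (0:ℝ)..(κ - P.Y), Real.sinh (κ - P.Y - τ) = Real.cosh (κ - P.Y) - 1 := by
  have h1 := intervalIntegral.integral_comp_sub_left (a := 0) (b := κ - P.Y)
    (fun u => Real.sinh u) (κ - P.Y)
  rw [sub_self, sub_zero] at h1
  rw [h1]
  have h2 := intervalIntegral.integral_eq_sub_of_hasDerivAt (a := 0) (b := κ - P.Y)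
    (f := Real.cosh) (f' := Real.sinh) (fun u _ => Real.hasDerivAt_cosh u)
    (Real.continuous_sinh.intervalIntegrable _ _)
  rw [h2, Real.cosh_zero]

theorem ign {P : Par} (h : P.Star) {κ : ℝ} (hκ1 : P.Y + P.s - 0.0001 ≤ κ) (hκ : κ < P.Y + P.s)
    {x y : ℝ → ℝ} {t0 : ℝ} (hx : Sol x y t0 κ) {b a g M V W : ℝ} {D : ℝ → ℝ} (hg : g = 1 ∨ g = -1)
    (hb : t0 + κ ≤ b) (hba : b < a) (hba1 : a - b ≤ 0.6) (hxb : x b = 0) (hxa : x a = 0)
    (hM : ∀ r ∈ Icc 0 κ, |x (b - r)| ≤ M) (hD : Monotone D)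
    (hDb : ∀ r ∈ Icc 0 P.Y, -(g * x (b - r)) ≤ D r)
    (hE : ∃ E : ℝ → ℝ, Monotone E ∧ (∀ r, 0 ≤ E r) ∧ (∀ r ∈ Icc 0 κ, g * x (b - r) ≤ E r) ∧
      ∫ τ in (0:ℝ)..(κ - P.Y), Real.sinh (κ - P.Y - τ) * E (κ - τ) ≤ Real.sinh (κ - P.Y) / P.sg * W)
    (hs : ∀ r ∈ Icc (0:ℝ) 0.6, 0.3 * M * r ≤ D r)
    (hV : P.sg * (0.3 * M) + W + 0.128 * (0.045 * M) ≤ V) : Dom P κ x y a g V D := by
  have hY := Par.Y_pos h
  have hs1 := h.s_lo
  have hs2 := h.s_hi
  have hsg := Par.sg_bd h
  have hκ0 : 0 ≤ κ := by linarith only [hκ1, hκ, hY, hs1]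
  have hM0 : 0 ≤ M := by
    have h1 := hM 0 ⟨le_rfl, hκ0⟩
    exact le_trans (abs_nonneg _) h1
  obtain ⟨hc1, hc2, hc3⟩ := cluster hx hκ0 (b := b) (a := a) (τ := a - b) (M := M) (m := 0) hb
    hba.le hxb hxa le_rfl (by linarith only [hba]) (by linarith only [hκ1, hκ, hba1])
    (by
      have h1 : (a - b)^2 ≤ 0.36 := by nlinarith only [hba1, hκ1, hκ, hba]
      rw [zero_mul]
      exact mul_nonneg hM0 (by linarith only [hκ1, hκ, h1]))
    (by linarith only [hM0])
    (fun z1 z2 h1 h2 h3 _ => by linarith only [h1, h3])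
    (fun r hr => by
      rw [zero_mul, sub_zero]
      exact hM r hr)
  have hab0 : 0 < a - b := by linarith only [hba]
  have hsq : (a - b)^2 ≤ 0.36 := by nlinarith only [hba1, hκ1, hκ, hba]
  have hc1' : ∀ t ∈ Icc b a, |x t| ≤ 0.045 * M := by
    intro t ht
    have h1 := hc1 t ht
    nlinarith only [h1, hκ1, hκ, hM0, hsq]
  have hc2' : |y a| ≤ 0.3 * M := by
    have h1 := hc2 hba
    nlinarith only [h1, hκ1, hκ, hba1, hM0]
  have hc3' : ∀ r ∈ Icc 0 (a - b), |x (a - r)| ≤ 0.3 * M * r := by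
    intro r hr
    have h1 := hc3 r hr
    have h2 : (M * (a - b) / 2 - 0 * (a - b)^2 / 3) * r ≤ 0.3 * M * r := by
      apply mul_le_mul_of_nonneg_right _ hr.1
      nlinarith only [hκ1, hκ, hba1, hM0]
    exact le_trans h1 h2
  have hgabs : ∀ z : ℝ, g * z ≤ |z| ∧ -(g * z) ≤ |z| := by
    intro z
    rcases hg with rfl | rfl
    · rw [one_mul]
      exact ⟨le_abs_self z, neg_le_abs z⟩
    · rw [neg_one_mul, neg_neg]
      exact ⟨neg_le_abs z, le_abs_self z⟩
  refine ⟨?_, ?_⟩
  · intro r hr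
    rcases le_or_gt r (a - b) with h1 | h1
    · have h2 := hc3' r ⟨hr.1, h1⟩
      have h3 := hs r ⟨hr.1, by linarith only [hba1, h1]⟩
      linarith only [(hgabs (x (a - r))).2, h2, h3, hgabs]
    · have h2 := hDb (r - (a - b)) ⟨by linarith only [h1], by linarith only [hr.2, hba, hr]⟩
      have h3 : b - (r - (a - b)) = a - r := by ring
      rw [h3] at h2
      exact le_trans h2 (hD (by linarith only [hba]))
  · obtain ⟨E, hE1, hE2, hE3, hE4⟩ := hE
    refine ⟨fun r => 0.045 * M + E r, fun r r' hrr => by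
      have := hE1 hrr
      simp only
      linarith only [this], fun r => by
      have := hE2 r
      positivity, ?_, ?_⟩
    · intro r hr
      simp only
      rcases le_or_gt r (a - b) with h1 | h1
      · have h2 := hc1' (a - r) ⟨by linarith only [h1], by linarith only [hr.1, hr]⟩
        linarith only [(hgabs (x (a - r))).1, hE2 r, h2, hgabs, hE2]
      · have h2 := hE3 (r - (a - b)) ⟨by linarith only [h1], by linarith only [hr.2, hba, hr]⟩
        have h3 : b - (r - (a - b)) = a - r := by ring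
        rw [h3] at h2
        have h4 : E (r - (a - b)) ≤ E r := hE1 (by linarith only [hba])
        have h5 : 0 ≤ 0.045 * M := by positivity
        linarith only [hM0, h2, h4]
    · have hEi : IntervalIntegrable (fun τ => Real.sinh (κ - P.Y - τ) * E (κ - τ)) volume 0
          (κ - P.Y) := by
        have h1 : IntervalIntegrable (fun τ => E (κ - τ)) volume 0 (κ - P.Y) := by
          apply AntitoneOn.intervalIntegrable
          intro u _ v _ huv
          exact hE1 (by linarith only [huv])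
        exact h1.continuousOn_mul (by fun_prop)
      have hci : IntervalIntegrable (fun τ => Real.sinh (κ - P.Y - τ) * (0.045 * M)) volume 0
          (κ - P.Y) := Continuous.intervalIntegrable (by fun_prop) _ _
      have h1 : ∫ τ in (0:ℝ)..(κ - P.Y), Real.sinh (κ - P.Y - τ) * (0.045 * M + E (κ - τ)) =
          (Real.cosh (κ - P.Y) - 1) * (0.045 * M) +
            ∫ τ in (0:ℝ)..(κ - P.Y), Real.sinh (κ - P.Y - τ) * E (κ - τ) := by
        rw [← ign_sinh, ← intervalIntegral.integral_mul_const,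
          ← intervalIntegral.integral_add hci hEi]
        refine intervalIntegral.integral_congr fun τ _ => ?_
        ring
      have ht0 : 0 ≤ κ - P.Y := by linarith only [hκ1, hκ, hs1]
      have hts : κ - P.Y ≤ P.s := by linarith only [hκ]
      have h2 := ign_cosh h ht0 hts
      have h3 : 0 ≤ Real.sinh (κ - P.Y) := Real.sinh_nonneg_iff.2 ht0
      have hsg0 : 0 < P.sg := by linarith only [hsg.1, hκ1, hκ, hsg]
      have h4 : (Real.cosh (κ - P.Y) - 1) * (0.045 * M) ≤
          Real.sinh (κ - P.Y) / P.sg * (0.128 * (0.045 * M)) := by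
        rw [div_mul_eq_mul_div, le_div_iff₀ hsg0]
        have h5 : 0 ≤ 0.045 * M := by positivity
        nlinarith only [hκ1, hκ, hM0, h2]
      have h5 : g * y a * Real.sinh (κ - P.Y) ≤
          Real.sinh (κ - P.Y) / P.sg * (P.sg * (0.3 * M)) := by
        have h6 : Real.sinh (κ - P.Y) / P.sg * (P.sg * (0.3 * M)) =
            (0.3 * M) * Real.sinh (κ - P.Y) := by
          field_simp
        rw [h6]
        apply mul_le_mul_of_nonneg_right _ h3
        exact le_trans (hgabs (y a)).1 hc2'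
      have h6 : Real.sinh (κ - P.Y) / P.sg *
          (P.sg * (0.3 * M) + W + 0.128 * (0.045 * M)) ≤ Real.sinh (κ - P.Y) / P.sg * V :=
        mul_le_mul_of_nonneg_left hV (div_nonneg h3 hsg0.le)
      rw [h1]
      have h7 : Real.sinh (κ - P.Y) / P.sg *
          (P.sg * (0.3 * M) + W + 0.128 * (0.045 * M)) =
          Real.sinh (κ - P.Y) / P.sg * (P.sg * (0.3 * M)) + Real.sinh (κ - P.Y) / P.sg * W +
            Real.sinh (κ - P.Y) / P.sg * (0.128 * (0.045 * M)) := by ring
      linarith only [hE4, h4, h5, h6]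

end Pool.Agent.CDk
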