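import Pool.Agent.CDk.D.D0
import Pool.Agent.CDk.D.EXC
import Pool.Agent.CDk.D.IGN
import Pool.Agent.CDk.Defs
import Pool.Agent.CDk.FIN2
import Pool.Agent.CDk.FNa
import Pool.Agent.CDk.FV
import Pool.Agent.CDk.GAP

/-!
# ASM1: the state after a gap
-/

open MeasureTheory Set Filter Topology

namespace Pool.Agent.CDk
variable {P : Par}

/-- comparison of the opening parts -/
theorem sinh_cmp {t0 s : ℝ} (h0 : 0 ≤ t0) (h1 : t0 ≤ s) (hs : 0 < s) {f : ℝ → ℝ} (hf : Continuous f)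
    (hf0 : ∀ τ, 0 ≤ f τ) : (∫ τ in (0:ℝ)..t0, Real.sinh (t0 - τ) * f τ)
      ≤ Real.sinh t0 / Real.sinh s * ∫ τ in (0:ℝ)..s, Real.sinh (s - τ) * f τ := by
  have hss : 0 < Real.sinh s := Real.sinh_pos_iff.mpr hs
  have hst : 0 ≤ Real.sinh t0 := Real.sinh_nonneg_iff.mpr h0
  have e1 : (∫ τ in (0:ℝ)..t0, Real.sinh (t0 - τ) * f τ)
      ≤ ∫ τ in (0:ℝ)..t0, Real.sinh t0 / Real.sinh s * (Real.sinh (s - τ) * f τ) := by
    apply intervalIntegral.integral_mono_on h0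
      (Continuous.intervalIntegrable (by fun_prop) _ _) (Continuous.intervalIntegrable (by fun_prop) _ _)
    intro τ hτ
    have h2 : Real.sinh (t0 - τ) * Real.sinh s ≤ Real.sinh t0 * Real.sinh (s - τ) := by
      have h3 : Real.sinh t0 * Real.sinh (s - τ) - Real.sinh (t0 - τ) * Real.sinh s
          = Real.sinh τ * Real.sinh (s - t0) := by
        rw [Real.sinh_sub, Real.sinh_sub, Real.sinh_sub]
        ring_nf
      have h4 : 0 ≤ Real.sinh τ * Real.sinh (s - t0) :=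
        mul_nonneg (Real.sinh_nonneg_iff.mpr hτ.1) (Real.sinh_nonneg_iff.mpr (by linarith))
      linarith
    have h5 : Real.sinh (t0 - τ) ≤ Real.sinh t0 / Real.sinh s * Real.sinh (s - τ) := by
      rw [div_mul_eq_mul_div, le_div_iff₀ hss]
      exact h2
    have := mul_le_mul_of_nonneg_right h5 (hf0 τ)
    linarith
  have e2 : (∫ τ in (0:ℝ)..t0, Real.sinh t0 / Real.sinh s * (Real.sinh (s - τ) * f τ))
      ≤ ∫ τ in (0:ℝ)..s, Real.sinh t0 / Real.sinh s * (Real.sinh (s - τ) * f τ) := by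
    apply intervalIntegral.integral_mono_interval le_rfl h0 h1
    · rw [Filter.EventuallyLE, ae_restrict_iff' measurableSet_Ioc]
      filter_upwards with τ hτ
      have : 0 ≤ Real.sinh (s - τ) := Real.sinh_nonneg_iff.mpr (by linarith [hτ.2])
      have := hf0 τ
      simp only [Pi.zero_apply]
      positivity
    · exact Continuous.intervalIntegrable (by fun_prop) _ _
  rw [← intervalIntegral.integral_const_mul]
  exact e1.trans e2

/-- the opening part from the history before the gap -/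
noncomputable def W0 (P : Par) (D : ℝ → ℝ) (e : ℝ) : ℝ := ∫ τ in (0:ℝ)..P.s, Real.sinh (P.s - τ) * D (-e - τ)

theorem W0_smul (c e : ℝ) (D : ℝ → ℝ) : W0 P (fun r => c * D r) e = c * W0 P D e := by
  unfold W0
  rw [← intervalIntegral.integral_const_mul]
  apply intervalIntegral.integral_congr
  intro τ _
  simp only
  ring

theorem W0_nonneg (h : P.Star) {D : ℝ → ℝ} (hD : Pf D) (e : ℝ) : 0 ≤ W0 P D e := by
  unfold W0
  have hs := h.s_lo
  apply intervalIntegral.integral_nonneg (by linarith)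
  intro τ hτ
  exact mul_nonneg (Real.sinh_nonneg_iff.mpr (by linarith [hτ.2])) (hD.nonneg _)

theorem W0_zero (h : P.Star) {D : ℝ → ℝ} (hD : Pf D) {e : ℝ} (he : 0 ≤ e) : W0 P D e = 0 := by
  unfold W0
  have hs := h.s_lo
  rw [intervalIntegral.integral_congr (g := fun _ => (0:ℝ))]
  · simp
  · intro τ hτ
    rw [uIcc_of_le (by linarith)] at hτ
    simp only
    rw [hD.zero _ (by linarith [hτ.1]), mul_zero]

theorem gV_eq {N e : ℝ} {D : ℝ → ℝ} : gV P N D e = P.sg * gv P N D e + W0 P D e := rfl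

/-- facts at the right end of a gap (`V`, `D` the state at the left end) -/
structure Post (P : Par) (κ : ℝ) (x y : ℝ → ℝ) (b T g N' V' : ℝ) (D : ℝ → ℝ) : Prop where
  y0 : 0 ≤ -(g * y b)
  y1 : -(g * y b) ≤ gv P N' D (T - κ)
  f1 : ∀ r ∈ Icc 0 (P.Y + (T - κ)), g * x (b - r) ≤ fF P N' D (T - κ) r
  f2 : ∀ r, P.Y + (T - κ) ≤ r → r ≤ T → g * x (b - r) ≤ V'
  f3 : ∀ r ∈ Icc 0 κ, -(g * x (b - r)) ≤ D (r - T)

theorem post_of_dom (h : P.Star) {κ : ℝ} (hκ1 : P.Y + P.s - 0.0001 ≤ κ) (hκ : κ < P.Y + P.s)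
    {x y : ℝ → ℝ} {t0 : ℝ} (hx : Sol x y t0 κ) {a T g V : ℝ} {D : ℝ → ℝ} (hg : g = 1 ∨ g = -1)
    (ha : t0 + κ ≤ a) (hT : 1.49 ≤ T) (hx0 : x a = 0) (hxT : x (a + T) = 0)
    (hpos : ∀ t ∈ Ioo 0 T, 0 < g * x (a + t)) (hD : Pf D) (hdom : Dom P κ x y a g V D) :
    Post P κ x y (a + T) T g (Real.sinh (κ - P.Y) / P.sg * V + I2 D P.Y) (Real.sinh (κ - P.Y) / P.sg * V) D := by
  obtain ⟨p1, p2, p3, p4, p5⟩ := post_gap h hκ1 hκ hx hg ha hT hx0 hxT hpos hD hdom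
  refine ⟨p1, p2, p3, fun r h1 h2 => ?_, p5⟩
  have := p4 (T - r) ⟨by linarith, by linarith⟩
  rwa [show a + (T - r) = a + T - r by ring] at this

/-- the `E` part of the next state -/
theorem Post.E (h : P.Star) {κ : ℝ} (hκ1 : P.Y + P.s - 0.0001 ≤ κ) (hκ : κ < P.Y + P.s)
    {x y : ℝ → ℝ} {b T g N' V' : ℝ} {D : ℝ → ℝ} (hD : Pf D) (hp : Post P κ x y b T g N' V' D) :
    ∃ E : ℝ → ℝ, Monotone E ∧ (∀ r, 0 ≤ E r) ∧ (∀ r ∈ Icc 0 κ, -g * x (b - r) ≤ E r) ∧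
      ∫ τ in (0:ℝ)..(κ - P.Y), Real.sinh (κ - P.Y - τ) * E (κ - τ)
        ≤ Real.sinh (κ - P.Y) / P.sg * W0 P D (T - κ) := by
  have hs := h.s_lo
  refine ⟨fun r => D (r - T), fun u v huv => hD.mono (by linarith), fun r => hD.nonneg _, fun r hr => ?_, ?_⟩
  · have := hp.f3 r hr
    linarith
  · have hc : Continuous (fun τ => D (κ - T - τ)) := hD.cont.comp (by fun_prop)
    have := sinh_cmp (t0 := κ - P.Y) (s := P.s) (by linarith) (by linarith) (by linarith) hc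
      (fun τ => hD.nonneg _)
    unfold W0 Par.sg
    have e1 : ∀ τ, D (-(T - κ) - τ) = D (κ - T - τ) := fun τ => by congr 1; ring
    simp only [e1]
    have e2 : ∀ τ, D (κ - τ - T) = D (κ - T - τ) := fun τ => by congr 1; ring
    simp only [e2]
    exact this

/-- the next state after a short cluster (possibly empty) and with opposite sign -/
theorem next_short (h : P.Star) {κ : ℝ} (hκ1 : P.Y + P.s - 0.0001 ≤ κ) (hκ : κ < P.Y + P.s)
    {x y : ℝ → ℝ} {t0 : ℝ} (hx : Sol x y t0 κ) {b a g M gv' V' W : ℝ} {D' : ℝ → ℝ} (hg : g = 1 ∨ g = -1)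
    (hb : t0 + κ ≤ b) (hba : b ≤ a) (hba1 : a - b ≤ 0.6) (hxb : x b = 0) (hxa : x a = 0)
    (hM : ∀ r ∈ Icc 0 κ, |x (b - r)| ≤ M) (hD : Monotone D')
    (hDb : ∀ r ∈ Icc 0 P.Y, -(g * x (b - r)) ≤ D' r)
    (hE : ∃ E : ℝ → ℝ, Monotone E ∧ (∀ r, 0 ≤ E r) ∧ (∀ r ∈ Icc 0 κ, g * x (b - r) ≤ E r) ∧
      ∫ τ in (0:ℝ)..(κ - P.Y), Real.sinh (κ - P.Y - τ) * E (κ - τ) ≤ Real.sinh (κ - P.Y) / P.sg * W)
    (hy : g * y b ≤ gv') (hV1 : P.sg * gv' + W ≤ V')
    (hs : ∀ r ∈ Icc (0:ℝ) 0.6, 0.3 * M * r ≤ D' r)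
    (hV : P.sg * (0.3 * M) + W + 0.128 * (0.045 * M) ≤ V') : Dom P κ x y a g V' D' := by
  rcases hba.eq_or_lt with h1 | h1
  · subst h1
    obtain ⟨E, e1, e2, e3, e4⟩ := hE
    refine ⟨hDb, E, e1, e2, e3, ?_⟩
    have hsg := Par.sg_bd h
    have hs0 : 0 ≤ Real.sinh (κ - P.Y) := Real.sinh_nonneg_iff.mpr (by linarith [h.s_lo])
    have f1 : g * y b * Real.sinh (κ - P.Y) ≤ gv' * Real.sinh (κ - P.Y) := mul_le_mul_of_nonneg_right hy hs0
    have f2 : Real.sinh (κ - P.Y) / P.sg * (P.sg * gv' + W) ≤ Real.sinh (κ - P.Y) / P.sg * V' :=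
      mul_le_mul_of_nonneg_left hV1 (div_nonneg hs0 (by linarith))
    have f3 : Real.sinh (κ - P.Y) / P.sg * (P.sg * gv' + W)
        = gv' * Real.sinh (κ - P.Y) + Real.sinh (κ - P.Y) / P.sg * W := by
      have : P.sg ≠ 0 := by linarith
      field_simp
    linarith
  · exact ign h hκ1 hκ hx hg hb h1 hba1 hxb hxa hM hD hDb hE hs hV

end Pool.Agent.CDk
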