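import Pool.Agent.CDk.D.D0
import Pool.Agent.CDk.Defs
import Pool.Agent.CDk.FV
import Pool.Agent.CDk.GAP

/-!
# The family of templates

Everything numerical that the dynamical part needs, as one structure. `3.04438 < κ < 3.044486`.
-/

open MeasureTheory Set Filter Topology

namespace Pool.Agent.CDk

/-- a template whose potential is negative -/
def Good (P : Par) (s : ℝ × (ℝ → ℝ)) : Prop :=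
  ∃ δ, 0 ≤ δ ∧ δ ≤ 0.03 ∧ VS2 P (s.1 + I2 s.2 P.Y) δ s.2 ∧ Phi P (s.1 + I2 s.2 P.Y) δ s.2 ≤ -0.0005

structure Fam (P : Par) where
  /-- bound of both signs -/
  Q : ℝ → ℝ
  M : ℝ
  vc : ℝ
  cc : ℝ
  /-- the templates `(V, D)` -/
  T : Set (ℝ × (ℝ → ℝ))
  /-- template after a gap of the same sign -/
  Sl : ℝ × (ℝ → ℝ)
  /-- template after a long cluster and a gap of opposite sign -/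
  Sc : ℝ × (ℝ → ℝ)
  hT : ∀ t ∈ T, 0 < t.1 ∧ Pf t.2
  hSl : Sl ∈ T
  hSc : Sc ∈ T
  gl : Good P Sl
  gc : Good P Sc
  hQ : Pf Q
  hM : 0.7 ≤ M
  hQM : ∀ r, Q r ≤ M
  hQlin : ∀ r, 1.54 ≤ r → r ≤ 3.0446 → Q r ≤ M - 0.1 * (3.0446 - r)
  hQsh : ∀ r, r ≤ 3.0446 → 1.0002 * Q (r - 1.49) ≤ Q r
  hQ45 : Q 0.45 ≤ 0.24
  hvc : M * 0.7473 - 0.0744 ≤ vc
  hcc : 0.2792 * M ≤ cc
  hQc : ∀ r, 0 ≤ r → r ≤ 3.0446 → 1.0002 * min (vc * r) cc ≤ Q r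
  hSlc : ∀ r, 0 ≤ r → r ≤ P.Y → 1.0002 * min (vc * r) cc ≤ Sl.2 r
  hSlQ : ∀ r, r ≤ P.Y → 1.0002 * Q (r - 1.49) ≤ Sl.2 r
  hSlV : ∀ L, 0 ≤ L → L ≤ 1.4945 → 1.0002 * (P.sg * (M * L / 2 - 0.1 * L^2 / 3)
    + 0.128 * max (L^2 / 8 * M) (Q (3.0446 - L))) ≤ Sl.1
  hScc : ∀ r, 0 ≤ r → r ≤ P.Y → 1.0002 * min (vc * r) cc ≤ Sc.2 r
  hScQ : ∀ r, r ≤ P.Y → 1.0002 * Q (r - 0.6) ≤ Sc.2 r
  hScV : ∀ L, 0.6 ≤ L → L ≤ 1.4945 → 1.0002 * (P.sg * (M * L / 2 - 0.1 * L^2 / 3)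
    + 0.128 * max (L^2 / 8 * M) (Q (3.0446 - L - 1.4943))) ≤ Sc.1
  /-- a gap with `e ≥ -0.45` from a virtual state with nonpositive potential -/
  hA : ∀ {N δ : ℝ} {D : ℝ → ℝ}, VS2 P N δ D → 0 ≤ δ → δ ≤ 0.03 → Phi P N δ D ≤ 0 → ∀ e, -0.45 ≤ e →
    ∃ t ∈ T, 1.0002 * gV P N D e ≤ t.1 ∧ ∀ r, 0 ≤ r → r ≤ 3.0446 →
      1.0002 * GD P N D e r ≤ t.2 r ∧ 1.0002 * GD P N D e r ≤ Q r
  /-- a gap with `e = -a`, `0.45 ≤ a ≤ 1.55`, from a template -/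
  hB : ∀ t ∈ T, ∀ a, 0.45 ≤ a → a ≤ 1.55 → ∃ s ∈ T, Good P s ∧
    1.0002 * gV P (t.1 + I2 t.2 P.Y) t.2 (-a) ≤ s.1 ∧
    (∀ r, 0 ≤ r → r ≤ P.Y - a → 1.0002 * fF P (t.1 + I2 t.2 P.Y) t.2 (-a) r ≤ s.2 r ∧
      1.0002 * fF P (t.1 + I2 t.2 P.Y) t.2 (-a) r ≤ Q r) ∧
    (∀ r, 0 ≤ r → r ≤ 0.6 → 1.0002 * (0.3 * M * r) ≤ s.2 r) ∧
    1.0002 * (P.sg * (0.3 * M) + (∫ τ in (0:ℝ)..P.s, Real.sinh (P.s - τ) * t.2 (a - τ))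
      + 0.128 * (0.045 * M)) ≤ s.1 ∧
    (∀ r, r ≤ P.Y → 1.0002 * Q (r - (3.0443 - a)) ≤ s.2 r)

end Pool.Agent.CDk
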