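import Pool.Agent.CDk.D.D0
import Pool.Agent.CDk.Defs
import Pool.Agent.CDk.FV
import Pool.Agent.CDk.GAP
import Pool.Agent.CDk.STR

/-!
# GDL: elementary facts about `fF` and `GD` (variant of STR.lean for any `e` with `Y + e > 0`)

`∫_0^r (qG - I1 D (v - e)) dv = fF r` (`I2_deriv`), the integrand is nonincreasing in `v`, `GD` integrates its
positive part. For `e ≥ 0`: `I1 D (-e) = I2 D (-e) = 0` and everything reduces to `Fq`, `FD` of STR.lean.
-/

open MeasureTheory Set Filter Topology

namespace Pool.Agent.CDk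
variable {P : Par} {N e : ℝ} {D : ℝ → ℝ}

private theorem gdl_int {q e : ℝ} {D : ℝ → ℝ} (hD : Pf D) (r : ℝ) :
    ∫ v in (0:ℝ)..r, (q - I1 D (v - e)) = r * q - (I2 D (r - e) - I2 D (-e)) := by
  have h1 : ∀ v ∈ uIcc 0 r, HasDerivAt (fun v => v * q - I2 D (v - e)) (q - I1 D (v - e)) v := by
    intro v _
    have e1 : HasDerivAt (fun v : ℝ => v * q) (1 * q) v := (hasDerivAt_id v).mul_const q
    have e2 : HasDerivAt (fun v => I2 D (v - e)) (I1 D (v - e)) v := by
      have := (I2_deriv hD (v - e)).comp v ((hasDerivAt_id v).sub_const e)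
      simpa [Function.comp_def] using this
    have e3 := e1.sub e2
    rw [one_mul] at e3
    exact e3
  have hc : Continuous fun v => q - I1 D (v - e) := by
    have := I1_cont hD
    fun_prop
  rw [intervalIntegral.integral_eq_sub_of_hasDerivAt h1 (hc.intervalIntegrable _ _), zero_mul,
    zero_sub, zero_sub]
  ring

private theorem gdl_hc {q e : ℝ} {D : ℝ → ℝ} (hD : Pf D) :
    Continuous fun v => max (q - I1 D (v - e)) 0 := by
  have := I1_cont hD
  fun_prop

private theorem gdl_anti {q e : ℝ} {D : ℝ → ℝ} (hD : Pf D) {a b : ℝ} (h : a ≤ b) :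
    max (q - I1 D (b - e)) 0 ≤ max (q - I1 D (a - e)) 0 := by
  have := I1_mono hD (show a - e ≤ b - e by linarith)
  exact max_le_max_right 0 (by linarith)

private theorem gdl_fF (hD : Pf D) (r : ℝ) :
    fF P N D e r = ∫ v in (0:ℝ)..r, (qG P N D e - I1 D (v - e)) := by
  rw [gdl_int hD]
  rfl

private theorem gdl_I1 (c : ℝ) (D : ℝ → ℝ) (y : ℝ) : I1 (fun r => c * D r) y = c * I1 D y := by
  unfold I1
  exact intervalIntegral.integral_const_mul c D

private theorem gdl_I2 (c : ℝ) (D : ℝ → ℝ) (y : ℝ) : I2 (fun r => c * D r) y = c * I2 D y := by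
  unfold I2
  have h1 : ∀ t, I1 (fun r => c * D r) t = c * I1 D t := gdl_I1 c D
  simp only [h1]
  exact intervalIntegral.integral_const_mul c (I1 D)

theorem GD_pf (hD : Pf D) : Pf (GD P N D e) := by
  have hc := gdl_hc (q := qG P N D e) (e := e) hD
  have hG : ∀ y, HasDerivAt (fun r => ∫ v in (0:ℝ)..r, max (qG P N D e - I1 D (v - e)) 0)
      (max (qG P N D e - I1 D (y - e)) 0) y := fun y =>
    intervalIntegral.integral_hasDerivAt_right (hc.intervalIntegrable _ _)
      hc.stronglyMeasurable.stronglyMeasurableAtFilter hc.continuousAt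
  have hGm : Monotone (fun r => ∫ v in (0:ℝ)..r, max (qG P N D e - I1 D (v - e)) 0) :=
    monotone_of_deriv_nonneg (fun y => (hG y).differentiableAt) fun y => by
      rw [(hG y).deriv]
      exact le_max_right _ _
  have hGc : Continuous (fun r => ∫ v in (0:ℝ)..r, max (qG P N D e - I1 D (v - e)) 0) :=
    continuous_iff_continuousAt.2 fun y => (hG y).continuousAt
  refine ⟨?_, ?_, ?_⟩
  · exact hGc.comp (continuous_id.max continuous_const)
  · intro a b hab
    exact hGm (max_le_max_right 0 hab)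
  · intro y hy
    unfold GD
    rw [max_eq_right hy]
    simp

theorem fF_le_GD (hD : Pf D) {r r' : ℝ} (h0 : 0 ≤ r') (h1 : r' ≤ r) :
    fF P N D e r' ≤ GD P N D e r := by
  have hc := gdl_hc (q := qG P N D e) (e := e) hD
  have hc' : Continuous fun v => qG P N D e - I1 D (v - e) := by
    have := I1_cont hD
    fun_prop
  have h2 : fF P N D e r' ≤ GD P N D e r' := by
    rw [gdl_fF hD]
    unfold GD
    rw [max_eq_left h0]
    exact intervalIntegral.integral_mono_on h0 (hc'.intervalIntegrable _ _)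
      (hc.intervalIntegrable _ _) (fun v _ => le_max_left _ _)
  exact h2.trans ((GD_pf hD).mono h1)

theorem GD_att (hD : Pf D) {r : ℝ} (hr : 0 ≤ r) : ∃ r', 0 ≤ r' ∧ r' ≤ r ∧
    GD P N D e r = fF P N D e r' ∧ (r' = 0 ∨ I1 D (r' - e) ≤ qG P N D e) := by
  have hc := gdl_hc (q := qG P N D e) (e := e) hD
  have hc' : Continuous fun v => qG P N D e - I1 D (v - e) := by
    have := I1_cont hD
    fun_prop
  have hG : GD P N D e r = ∫ v in (0:ℝ)..r, max (qG P N D e - I1 D (v - e)) 0 := by
    unfold GD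
    rw [max_eq_left hr]
  have hanti : ∀ a b, a ≤ b → qG P N D e - I1 D (b - e) ≤ qG P N D e - I1 D (a - e) := by
    intro a b hab
    have := I1_mono hD (show a - e ≤ b - e by linarith)
    linarith
  -- the splitting
  have hsplit : ∀ r', 0 ≤ r' → r' ≤ r → (r' = 0 ∨ 0 ≤ qG P N D e - I1 D (r' - e)) →
      (r' = r ∨ qG P N D e - I1 D (r' - e) ≤ 0) → GD P N D e r = fF P N D e r' := by
    intro r' h0 h1 h2 h3
    rw [hG, gdl_fF hD, ← intervalIntegral.integral_add_adjacent_intervals
      (hc.intervalIntegrable 0 r') (hc.intervalIntegrable r' r)]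
    have e1 : ∫ v in (0:ℝ)..r', max (qG P N D e - I1 D (v - e)) 0 =
        ∫ v in (0:ℝ)..r', (qG P N D e - I1 D (v - e)) := by
      rcases h2 with h2 | h2
      · rw [h2]
        simp
      · refine intervalIntegral.integral_congr fun v hv => ?_
        rw [uIcc_of_le h0] at hv
        exact max_eq_left (h2.trans (hanti _ _ hv.2))
    have e2 : ∫ v in r'..r, max (qG P N D e - I1 D (v - e)) 0 = 0 := by
      rcases h3 with h3 | h3
      · rw [h3]
        simp
      · rw [intervalIntegral.integral_congr (g := fun _ => (0:ℝ))]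
        · simp
        · intro v hv
          rw [uIcc_of_le h1] at hv
          exact max_eq_right ((hanti _ _ hv.1).trans h3)
    rw [e1, e2, add_zero]
  rcases lt_or_ge (qG P N D e - I1 D (0 - e)) 0 with h | h
  · exact ⟨0, le_rfl, hr, hsplit 0 le_rfl hr (Or.inl rfl) (Or.inr h.le), Or.inl rfl⟩
  · rcases le_or_gt 0 (qG P N D e - I1 D (r - e)) with h' | h'
    · exact ⟨r, hr, le_rfl, hsplit r hr le_rfl (Or.inr h') (Or.inl rfl), Or.inr (by linarith)⟩
    · obtain ⟨r', hr', h2⟩ := intermediate_value_Icc' hr hc'.continuousOn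
        (show (0:ℝ) ∈ Icc (qG P N D e - I1 D (r - e)) (qG P N D e - I1 D (0 - e)) from ⟨h'.le, h⟩)
      have h3 : qG P N D e - I1 D (r' - e) = 0 := h2
      exact ⟨r', hr'.1, hr'.2, hsplit r' hr'.1 hr'.2 (Or.inr h3.ge) (Or.inr h3.le),
        Or.inr (by linarith)⟩

/-- `GD` is concave on `[0, ∞)` -/
theorem GD_conc (hD : Pf D) {r R : ℝ} (h0 : 0 ≤ r) (h1 : r ≤ R) (hR : 0 < R) :
    r / R * GD P N D e R ≤ GD P N D e r := by
  have hc := gdl_hc (q := qG P N D e) (e := e) hD
  have hGR : GD P N D e R = (∫ v in (0:ℝ)..r, max (qG P N D e - I1 D (v - e)) 0) +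
      ∫ v in r..R, max (qG P N D e - I1 D (v - e)) 0 := by
    rw [intervalIntegral.integral_add_adjacent_intervals
      (hc.intervalIntegrable 0 r) (hc.intervalIntegrable r R)]
    unfold GD
    rw [max_eq_left hR.le]
  have hGr : GD P N D e r = ∫ v in (0:ℝ)..r, max (qG P N D e - I1 D (v - e)) 0 := by
    unfold GD
    rw [max_eq_left h0]
  have h2 : r * max (qG P N D e - I1 D (r - e)) 0 ≤
      ∫ v in (0:ℝ)..r, max (qG P N D e - I1 D (v - e)) 0 := by
    calc r * max (qG P N D e - I1 D (r - e)) 0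
        = ∫ v in (0:ℝ)..r, max (qG P N D e - I1 D (r - e)) 0 := by simp
      _ ≤ _ := intervalIntegral.integral_mono_on h0 (continuous_const.intervalIntegrable _ _)
        (hc.intervalIntegrable _ _) (fun v hv => gdl_anti hD hv.2)
  have h3 : (∫ v in r..R, max (qG P N D e - I1 D (v - e)) 0) ≤
      (R - r) * max (qG P N D e - I1 D (r - e)) 0 := by
    calc _ ≤ ∫ v in r..R, max (qG P N D e - I1 D (r - e)) 0 :=
          intervalIntegral.integral_mono_on h1 (hc.intervalIntegrable _ _)
            (continuous_const.intervalIntegrable _ _) (fun v hv => gdl_anti hD hv.1)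
      _ = _ := by simp
  rw [div_mul_eq_mul_div, div_le_iff₀ hR, hGR, hGr]
  have h4 := mul_le_mul_of_nonneg_left h3 h0
  have h5 := mul_le_mul_of_nonneg_left h2 (sub_nonneg.2 h1)
  nlinarith

theorem GD_slope (hD : Pf D) {r : ℝ} (h0 : 0 ≤ r) : GD P N D e r ≤ r * max (gv P N D e) 0 := by
  have hc := gdl_hc (q := qG P N D e) (e := e) hD
  unfold GD
  rw [max_eq_left h0]
  calc _ ≤ ∫ v in (0:ℝ)..r, max (gv P N D e) 0 := by
        refine intervalIntegral.integral_mono_on h0 (hc.intervalIntegrable _ _)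
          (continuous_const.intervalIntegrable _ _) (fun v hv => ?_)
        have := gdl_anti (q := qG P N D e) (e := e) hD hv.1
        rw [zero_sub] at this
        exact this
    _ = _ := by simp

theorem qG_smul (c : ℝ) : qG P (c * N) (fun r => c * D r) e = c * qG P N D e := by
  unfold qG
  rw [gdl_I2, ← mul_sub, mul_div_assoc]

theorem gv_smul (c : ℝ) : gv P (c * N) (fun r => c * D r) e = c * gv P N D e := by
  unfold gv
  rw [qG_smul, gdl_I1, mul_sub]

theorem gV_smul (c : ℝ) : gV P (c * N) (fun r => c * D r) e = c * gV P N D e := by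
  unfold gV
  rw [gv_smul, mul_add, ← intervalIntegral.integral_const_mul]
  congr 1
  · ring
  · refine intervalIntegral.integral_congr fun τ _ => ?_
    show Real.sinh (P.s - τ) * (c * D (-e - τ)) = c * (Real.sinh (P.s - τ) * D (-e - τ))
    ring

theorem fF_smul (c r : ℝ) : fF P (c * N) (fun r => c * D r) e r = c * fF P N D e r := by
  unfold fF
  rw [qG_smul, gdl_I2, gdl_I2]
  ring

theorem GD_smul {c : ℝ} (hc : 0 ≤ c) (r : ℝ) :
    GD P (c * N) (fun r => c * D r) e r = c * GD P N D e r := by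
  unfold GD
  rw [← intervalIntegral.integral_const_mul]
  refine intervalIntegral.integral_congr fun v _ => ?_
  show max (qG P (c * N) (fun r => c * D r) e - I1 (fun r => c * D r) (v - e)) 0 =
    c * max (qG P N D e - I1 D (v - e)) 0
  rw [qG_smul, gdl_I1, ← mul_sub, mul_max_of_nonneg _ _ hc, mul_zero]

/-- monotonicity in `N` -/
theorem fF_monoN (hY : 0 < P.Y + e) {N' r : ℝ} (hN : N ≤ N') (hr : 0 ≤ r) :
    fF P N D e r ≤ fF P N' D e r := by
  unfold fF qG
  have h1 : (N - I2 D (-e)) / (P.Y + e) ≤ (N' - I2 D (-e)) / (P.Y + e) :=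
    div_le_div_of_nonneg_right (by linarith) hY.le
  have h2 := mul_le_mul_of_nonneg_left h1 hr
  linarith

theorem gv_monoN (hY : 0 < P.Y + e) {N' : ℝ} (hN : N ≤ N') : gv P N D e ≤ gv P N' D e := by
  unfold gv qG
  have h1 : (N - I2 D (-e)) / (P.Y + e) ≤ (N' - I2 D (-e)) / (P.Y + e) :=
    div_le_div_of_nonneg_right (by linarith) hY.le
  linarith

theorem qG_pos_e (h : P.Star) (hD : Pf D) (he : 0 ≤ e) : qG P N D e = Fq P.Y e (N - I2 D P.Y) D ∧
    gv P N D e = Fq P.Y e (N - I2 D P.Y) D ∧ gV P N D e = P.sg * Fq P.Y e (N - I2 D P.Y) D ∧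
    GD P N D e = FD P.Y e (N - I2 D P.Y) D := by
  have h1 : qG P N D e = Fq P.Y e (N - I2 D P.Y) D := by
    unfold qG Fq
    rw [(I2_pf hD).zero _ (by linarith), sub_zero, sub_add_cancel]
  have h2 : gv P N D e = Fq P.Y e (N - I2 D P.Y) D := by
    unfold gv
    rw [h1, I1_zero hD (by linarith), sub_zero]
  have h0 : ∀ r : ℝ, r ≤ 0 → D r = 0 := hD.zero
  refine ⟨h1, h2, ?_, ?_⟩
  · unfold gV
    rw [h2]
    have h3 : ∫ τ in (0:ℝ)..P.s, Real.sinh (P.s - τ) * D (-e - τ) = 0 := by
      rw [intervalIntegral.integral_congr (g := fun _ => (0:ℝ))]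
      · simp
      · intro τ hτ
        rw [uIcc_of_le (by linarith [h.s_lo])] at hτ
        show Real.sinh (P.s - τ) * D (-e - τ) = 0
        rw [h0 _ (by linarith [hτ.1]), mul_zero]
    rw [h3, add_zero]
  · funext r
    unfold GD FD
    rw [h1]

end Pool.Agent.CDk

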