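import Pool.Agent.CDk.D.D0
import Pool.Agent.CDk.Defs
import Pool.Agent.CDk.FNa
import Pool.Agent.CDk.FNb
import Pool.Agent.CDk.FV
import Pool.Agent.CDk.GAP
import Pool.Agent.CDk.Ker

/-!
# NRM: the step with `e = -a`, `0 ≤ a ≤ 0.45`, in normalised form

`i = I1 D / N`. Compare `FD_eq`, `I1_FD`, `I2_FD` (FIN1.lean), `Nf_eq` (POT1.lean) and `Uf_eq` (FNb.lean; `tri_fubini`).
`∫_0^s sinh(s-τ) D(a-τ) dτ = sinh s * I1 D a - ∫_0^s cosh(s-t) I1 D (a-t) dt` (parts) and the last integral is
`∫_0^a cosh(s-a+y) I1 D y dy` as `a ≤ s` (`s > 0.5`), `I1 D = 0` on `(-∞, 0]`.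
-/

open MeasureTheory Set Filter Topology

namespace Pool.Agent.CDk
variable {P : Par} {N a : ℝ} {D : ℝ → ℝ}

private theorem nrm_gcont {i : ℝ → ℝ} (hi : Continuous i) : Continuous (P.gN a i) := by
  unfold Par.gN
  fun_prop

private theorem nrm_hd {φ : ℝ → ℝ} (hφ : Continuous φ) (r : ℝ) :
    HasDerivAt (fun r => ∫ v in (0:ℝ)..r, φ v) (φ r) r :=
  intervalIntegral.integral_hasDerivAt_right (Continuous.intervalIntegrable hφ _ _)
    (hφ.stronglyMeasurableAtFilter _ _) hφ.continuousAt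

private theorem nrm_lin {g : ℝ → ℝ} (hg : Continuous g) (r : ℝ) :
    ∫ v in (0:ℝ)..r, (r - v) * g v =
      r * (∫ v in (0:ℝ)..r, g v) - ∫ v in (0:ℝ)..r, v * g v := by
  rw [← intervalIntegral.integral_const_mul, ← intervalIntegral.integral_sub
    (Continuous.intervalIntegrable (by fun_prop) _ _)
    (Continuous.intervalIntegrable (by fun_prop) _ _)]
  refine intervalIntegral.integral_congr fun v _ => ?_
  ring

private theorem nrm_lin_deriv {g : ℝ → ℝ} (hg : Continuous g) (r : ℝ) :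
    HasDerivAt (fun r => ∫ v in (0:ℝ)..r, (r - v) * g v) (∫ v in (0:ℝ)..r, g v) r := by
  have hg2 : Continuous (fun v => v * g v) := by fun_prop
  rw [show (fun r => ∫ v in (0:ℝ)..r, (r - v) * g v) = _ from funext (nrm_lin hg)]
  have h5 := ((hasDerivAt_id' r).mul (nrm_hd hg r)).sub (nrm_hd hg2 r)
  refine h5.congr_deriv ?_
  ring

private theorem nrm_quad {g : ℝ → ℝ} (hg : Continuous g) (Y : ℝ) :
    ∫ t in (0:ℝ)..Y, ∫ v in (0:ℝ)..t, (t - v) * g v =
      ∫ v in (0:ℝ)..Y, (Y - v)^2/2 * g v := by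
  have h1 : ∀ r : ℝ, (∫ v in (0:ℝ)..r, (r - v)^2/2 * g v)
      = r^2/2 * (∫ v in (0:ℝ)..r, g v) - r * (∫ v in (0:ℝ)..r, v * g v)
        + ∫ v in (0:ℝ)..r, v^2/2 * g v := by
    intro r
    rw [← intervalIntegral.integral_const_mul, ← intervalIntegral.integral_const_mul,
      ← intervalIntegral.integral_sub (Continuous.intervalIntegrable (by fun_prop) _ _)
        (Continuous.intervalIntegrable (by fun_prop) _ _),
      ← intervalIntegral.integral_add (Continuous.intervalIntegrable (by fun_prop) _ _)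
        (Continuous.intervalIntegrable (by fun_prop) _ _)]
    refine intervalIntegral.integral_congr fun v _ => ?_
    ring
  have h2 : ∀ r : ℝ, HasDerivAt (fun r => ∫ v in (0:ℝ)..r, (r - v)^2/2 * g v)
      (∫ v in (0:ℝ)..r, (r - v) * g v) r := by
    intro r
    have e1 := nrm_hd hg r
    have e2 := nrm_hd (φ := fun v => v * g v) (by fun_prop) r
    have e3 := nrm_hd (φ := fun v => v^2/2 * g v) (by fun_prop) r
    have e4 : HasDerivAt (fun r : ℝ => r^2/2) r r := by
      have := (hasDerivAt_pow 2 r).div_const 2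
      refine this.congr_deriv ?_
      norm_num
    have e5 := ((e4.mul e1).sub ((hasDerivAt_id' r).mul e2)).add e3
    rw [show (fun r => ∫ v in (0:ℝ)..r, (r - v)^2/2 * g v) = _ from funext h1]
    refine e5.congr_deriv ?_
    rw [nrm_lin hg]
    ring
  have h3 := intervalIntegral.integral_eq_sub_of_hasDerivAt (a := 0) (b := Y)
    (fun r _ => h2 r) ?_
  · rw [h3]
    simp
  · apply Continuous.intervalIntegrable
    rw [continuous_iff_continuousAt]
    intro y
    exact (nrm_lin_deriv hg y).continuousAt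

private theorem nrm_I2 (hN : 0 < N) (a : ℝ) :
    N * ∫ y in (0:ℝ)..a, I1 D y / N = I2 D a := by
  rw [intervalIntegral.integral_div, mul_div_cancel₀ _ hN.ne']
  rfl

theorem qG_neg (h : P.Star) (hD : Pf D) (hN : 0 < N) (ha : 0 ≤ a) (ha1 : a ≤ 0.45) :
    qG P N D (-a) = N * P.qN a (fun y => I1 D y / N) := by
  unfold qG Par.qN
  rw [neg_neg, ← sub_eq_add_neg, mul_div_assoc', mul_sub, nrm_I2 hN, mul_one]

theorem gv_neg (h : P.Star) (hD : Pf D) (hN : 0 < N) (ha : 0 ≤ a) (ha1 : a ≤ 0.45) :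
    gv P N D (-a) = N * (P.qN a (fun y => I1 D y / N) - I1 D a / N) := by
  unfold gv
  rw [qG_neg h hD hN ha ha1, neg_neg, mul_sub, mul_div_cancel₀ _ hN.ne']

theorem gV_neg (h : P.Star) (hD : Pf D) (hN : 0 < N) (ha : 0 ≤ a) (ha1 : a ≤ 0.45) :
    gV P N D (-a) = N * P.VN a (fun y => I1 D y / N) := by
  have hs : a ≤ P.s := by linarith [h.s_lo]
  have hs0 : 0 ≤ P.s := le_trans ha hs
  have hI := I1_cont hD
  -- integration by parts
  have h1 : ∀ τ : ℝ, HasDerivAt (fun τ => Real.sinh (P.s - τ) * -(I1 D (a - τ)))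
      (Real.cosh (P.s - τ) * I1 D (a - τ) + Real.sinh (P.s - τ) * D (a - τ)) τ := by
    intro τ
    have e1 : HasDerivAt (fun τ : ℝ => P.s - τ) (-1) τ := by
      have := (hasDerivAt_id τ).const_sub P.s
      simpa using this
    have e2 : HasDerivAt (fun τ : ℝ => a - τ) (-1) τ := by
      have := (hasDerivAt_id τ).const_sub a
      simpa using this
    have e3 := e1.sinh
    have e4 := ((I1_deriv hD (a - τ)).comp τ e2).neg
    refine (e3.mul e4).congr_deriv ?_
    simp only [Function.comp, Pi.neg_apply]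
    ring
  have hc1 : Continuous fun τ => Real.cosh (P.s - τ) * I1 D (a - τ) := by fun_prop
  have hDc := hD.cont
  have hc2 : Continuous fun τ => Real.sinh (P.s - τ) * D (a - τ) := by fun_prop
  have h2 := intervalIntegral.integral_eq_sub_of_hasDerivAt (a := 0) (b := P.s)
    (fun τ _ => h1 τ) ((hc1.add hc2).intervalIntegrable _ _)
  rw [intervalIntegral.integral_add (hc1.intervalIntegrable _ _) (hc2.intervalIntegrable _ _),
    sub_self, Real.sinh_zero, zero_mul, sub_zero, sub_zero] at h2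
  have h3 : ∫ τ in (0:ℝ)..P.s, Real.cosh (P.s - τ) * I1 D (a - τ) =
      ∫ y in (0:ℝ)..a, Real.cosh (P.s - a + y) * I1 D y := by
    rw [← intervalIntegral.integral_add_adjacent_intervals (hc1.intervalIntegrable 0 a)
      (hc1.intervalIntegrable a P.s)]
    have h4 : ∫ τ in a..P.s, Real.cosh (P.s - τ) * I1 D (a - τ) = 0 := by
      rw [intervalIntegral.integral_congr (g := fun _ => (0:ℝ))]
      · simp
      · intro τ hτ
        rw [uIcc_of_le hs] at hτ
        beta_reduce
        rw [I1_zero hD (by linarith [hτ.1]), mul_zero]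
    rw [h4, add_zero]
    have h5 := intervalIntegral.integral_comp_sub_left (a := 0) (b := a)
      (fun y => Real.cosh (P.s - a + y) * I1 D y) a
    rw [sub_self, sub_zero] at h5
    rw [← h5]
    refine intervalIntegral.integral_congr fun τ _ => ?_
    show Real.cosh (P.s - τ) * I1 D (a - τ) = Real.cosh (P.s - a + (a - τ)) * I1 D (a - τ)
    congr 2
    ring
  have h6 : N * ∫ y in (0:ℝ)..a, Real.cosh (P.s - a + y) * (I1 D y / N) =
      ∫ y in (0:ℝ)..a, Real.cosh (P.s - a + y) * I1 D y := by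
    rw [← intervalIntegral.integral_const_mul]
    refine intervalIntegral.integral_congr fun y _ => ?_
    field_simp
  unfold gV Par.VN
  beta_reduce
  rw [gv_neg h hD hN ha ha1, mul_sub N (P.sg * P.qN a fun y => I1 D y / N), h6, ← h3, neg_neg]
  have h7 : N * (I1 D a / N) = I1 D a := by field_simp
  have h8 : P.sg = Real.sinh P.s := rfl
  rw [h8]
  linear_combination h2 - Real.sinh P.s * h7

theorem GD_neg (h : P.Star) (hD : Pf D) (hN : 0 < N) (ha : 0 ≤ a) (ha1 : a ≤ 0.45) {r : ℝ} (hr : 0 ≤ r) :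
    GD P N D (-a) r = N * ∫ v in (0:ℝ)..r, P.gN a (fun y => I1 D y / N) v := by
  unfold GD
  rw [max_eq_left hr, ← intervalIntegral.integral_const_mul]
  refine intervalIntegral.integral_congr fun v _ => ?_
  simp only [Par.gN]
  rw [qG_neg h hD hN ha ha1, sub_neg_eq_add, mul_max_of_nonneg _ _ hN.le, mul_zero, mul_sub,
    mul_div_cancel₀ _ hN.ne']

theorem I1_GD_neg (h : P.Star) (hD : Pf D) (hN : 0 < N) (ha : 0 ≤ a) (ha1 : a ≤ 0.45) {r : ℝ} (hr : 0 ≤ r) :
    I1 (GD P N D (-a)) r = N * P.IN a (fun y => I1 D y / N) r := by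
  have hi : Continuous (fun y => I1 D y / N) := (I1_cont hD).div_const _
  have hg : Continuous (P.gN a (fun y => I1 D y / N)) := nrm_gcont hi
  have h1 : I1 (GD P N D (-a)) r
      = ∫ t in (0:ℝ)..r, N * ∫ v in (0:ℝ)..t, P.gN a (fun y => I1 D y / N) v := by
    unfold I1
    refine intervalIntegral.integral_congr fun t ht => ?_
    rw [uIcc_of_le hr] at ht
    exact GD_neg h hD hN ha ha1 ht.1
  rw [h1, intervalIntegral.integral_const_mul]
  have hcont : Continuous (fun t => ∫ v in (0:ℝ)..t, P.gN a (fun y => I1 D y / N) v) :=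
    continuous_iff_continuousAt.2 fun y => (nrm_hd hg y).continuousAt
  have h2 := intervalIntegral.integral_eq_sub_of_hasDerivAt (a := 0) (b := r)
    (fun t _ => nrm_lin_deriv hg t) (Continuous.intervalIntegrable hcont _ _)
  beta_reduce at h2
  rw [h2, intervalIntegral.integral_same, sub_zero]
  rfl

theorem N_neg (h : P.Star) (hD : Pf D) (hN : 0 < N) (ha : 0 ≤ a) (ha1 : a ≤ 0.45) :
    gV P N D (-a) + I2 (GD P N D (-a)) P.Y = N * P.NN a (fun y => I1 D y / N) := by
  have hY := Par.Y_pos h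
  have hi : Continuous (fun y => I1 D y / N) := (I1_cont hD).div_const _
  have hg : Continuous (P.gN a (fun y => I1 D y / N)) := nrm_gcont hi
  have h1 : I2 (GD P N D (-a)) P.Y =
      N * ∫ t in (0:ℝ)..P.Y, ∫ v in (0:ℝ)..t, (t - v) * P.gN a (fun y => I1 D y / N) v := by
    unfold I2
    rw [← intervalIntegral.integral_const_mul]
    refine intervalIntegral.integral_congr fun t ht => ?_
    rw [uIcc_of_le (by linarith)] at ht
    exact I1_GD_neg h hD hN ha ha1 ht.1
  rw [h1, nrm_quad hg, gV_neg h hD hN ha ha1]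
  unfold Par.NN
  ring

/-- `UN = NN psi(next)` -/
theorem UN_eq (h : P.Star) {i : ℝ → ℝ} (hi : Continuous i) (ha : 0 ≤ a) (ha1 : a ≤ 0.45) :
    P.UN a i = P.NN a i - ∫ y in (0:ℝ)..(P.ρ - P.e0), P.mb (y + P.e0) * P.IN a i y := by
  have he0 := Par.e0_pos h
  have hu := h.data.hu
  have h1 := h.ρ_lo; have h4 := h.e_hi
  have hT : 0 ≤ P.ρ - P.e0 := by linarith
  have hTY : P.ρ - P.e0 ≤ P.Y := by unfold Par.Y; linarith
  have hg : Continuous (P.gN a i) := nrm_gcont hi
  have hf : Continuous fun y => P.mb (y + P.e0) :=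
    (Par.mb_cont h).comp (continuous_id.add continuous_const)
  have hmb := Par.mb_cont h
  have h5 := Par.tri_fubini (fun y => P.mb (y + P.e0)) (P.gN a i) hf hg (P.ρ - P.e0)
  unfold Par.UN Par.NN Par.IN
  rw [← h5]
  have hc1 : Continuous fun v => P.mb v * P.gN a i v := hmb.mul hg
  have hc2 : Continuous fun v => (P.Y - v) ^ 2 / 2 * P.gN a i v := by fun_prop
  rw [← intervalIntegral.integral_add_adjacent_intervals (hc1.intervalIntegrable 0 (P.ρ - P.e0))
      (hc1.intervalIntegrable (P.ρ - P.e0) P.Y),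
    ← intervalIntegral.integral_add_adjacent_intervals (hc2.intervalIntegrable 0 (P.ρ - P.e0))
      (hc2.intervalIntegrable (P.ρ - P.e0) P.Y)]
  have h6 : ∫ v in (P.ρ - P.e0)..P.Y, P.mb v * P.gN a i v =
      ∫ v in (P.ρ - P.e0)..P.Y, (P.Y - v) ^ 2 / 2 * P.gN a i v := by
    refine intervalIntegral.integral_congr fun v hv => ?_
    rw [uIcc_of_le hTY] at hv
    beta_reduce
    rw [Par.mb_out h hv.1, max_eq_left (by linarith [hv.2])]
  have h7 : ∫ v in (0:ℝ)..(P.ρ - P.e0), P.mb v * P.gN a i v =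
      (∫ v in (0:ℝ)..(P.ρ - P.e0), (P.Y - v) ^ 2 / 2 * P.gN a i v) -
      ∫ v in (0:ℝ)..(P.ρ - P.e0),
        P.gN a i v * (∫ y in v..(P.ρ - P.e0), (y - v) * P.mb (y + P.e0)) := by
    have h8 : ∫ v in (0:ℝ)..(P.ρ - P.e0),
        P.gN a i v * (∫ y in v..(P.ρ - P.e0), (y - v) * P.mb (y + P.e0)) =
        ∫ v in (0:ℝ)..(P.ρ - P.e0),
          ((P.Y - v) ^ 2 / 2 * P.gN a i v - P.mb v * P.gN a i v) := by
      refine intervalIntegral.integral_congr fun v hv => ?_
      rw [uIcc_of_le hT] at hv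
      beta_reduce
      rw [Par.mb_formula h hv.1 hv.2]
      ring
    rw [h8, intervalIntegral.integral_sub (hc2.intervalIntegrable _ _)
      (hc1.intervalIntegrable _ _)]
    ring
  rw [h6, h7]
  ring

/-- `IN r - ι(r) NN` as one integral (compare `If_ker`, POT1.lean) -/
theorem IN_ker (h : P.Star) {i : ℝ → ℝ} (hi : Continuous i) (ha : 0 ≤ a) (ha1 : a ≤ 0.45) {r : ℝ}
    (hr : 0 ≤ r) (hr1 : r ≤ 2.2) :
    P.IN a i r - P.io r * P.NN a i
      = (∫ v in (0:ℝ)..P.Y, P.ker r v * P.gN a i v) - P.io r * P.VN a i := by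
  have hY := Par.Y_pos h
  have hg : Continuous (P.gN a i) := nrm_gcont hi
  have h1 : P.IN a i r = ∫ v in (0:ℝ)..P.Y, max (r - v) 0 * P.gN a i v := by
    unfold Par.IN
    rw [← intervalIntegral.integral_add_adjacent_intervals (a := 0) (b := r) (c := P.Y)
      (Continuous.intervalIntegrable (by fun_prop) _ _)
      (Continuous.intervalIntegrable (by fun_prop) _ _)]
    have h2 : ∫ v in r..P.Y, max (r - v) 0 * P.gN a i v = 0 := by
      rw [intervalIntegral.integral_congr (g := fun _ => (0:ℝ))]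
      · simp
      · intro v hv
        rw [uIcc_of_le (by linarith)] at hv
        beta_reduce
        rw [max_eq_right (by linarith [hv.1]), zero_mul]
    rw [h2, add_zero]
    refine intervalIntegral.integral_congr fun v hv => ?_
    rw [uIcc_of_le hr] at hv
    beta_reduce
    rw [max_eq_left (by linarith [hv.2])]
  have h3 : (∫ v in (0:ℝ)..P.Y, P.ker r v * P.gN a i v)
      = (∫ v in (0:ℝ)..P.Y, max (r - v) 0 * P.gN a i v)
        - P.io r * ∫ v in (0:ℝ)..P.Y, (P.Y - v)^2/2 * P.gN a i v := by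
    rw [← intervalIntegral.integral_const_mul, ← intervalIntegral.integral_sub
      (Continuous.intervalIntegrable (by fun_prop) _ _)
      (Continuous.intervalIntegrable (by fun_prop) _ _)]
    refine intervalIntegral.integral_congr fun v _ => ?_
    simp only [Par.ker]
    ring
  rw [h3, h1]
  unfold Par.NN
  ring

end Pool.Agent.CDk
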