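import Mathlib

/-!
# POTNa: polynomial inequality of zone N
-/

open MeasureTheory Set Filter Topology

namespace Pool.Agent.CDk.Par

/-- quadratic form in a box -/
theorem boxN {X a δ p A n U : ℝ} {a0 a1 X0 X1 lam c2 nu mu : ℝ}
    (hδ : 0 ≤ δ) (hδ1 : δ ≤ 0.03) (ha0 : a0 ≤ a) (ha1 : a ≤ a1) (h00 : 0 ≤ a0) (hX0 : X0 ≤ X) (hX1 : X ≤ X1)
    (hX00 : 0 < X0) (hA0 : 0 ≤ A) (hA : A ≤ 0.0295 * X + lam * δ) (hn0 : 0 < n) (hn : 1 ≤ nu * n)
    (hU : U ≤ -(0.11 * X^2 + 0.012 * a^2) + δ * (1.55 * X + 0.85 * X^2) + c2 * δ^2) (hp : 0 ≤ p)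
    (hlam : 0 ≤ lam) (hnu : 0 ≤ nu)
    (hmu : (0 ≤ mu ∧ 0.0003 * p - 0.012 * a0^2 ≤ mu * X0^2) ∨ (mu ≤ 0 ∧ 0.0003 * p - 0.012 * a0^2 ≤ mu * X1^2))
    (hga : 0 < 50 * p - c2 - 50 * p * nu^2 * lam^2)
    (hdisc : (1.55 + 0.85 * X1 + 100 * p * nu^2 * 0.0295 * lam)^2
      ≤ 4 * (50 * p - c2 - 50 * p * nu^2 * lam^2) * (0.11 - 50 * p * nu^2 * 0.0295^2 - mu)) :
    U + 50 * p * (A / n)^2 - 50 * p * δ^2 + 0.0003 * p ≤ 0 := by
  have hX : 0 < X := by linarith only [hX0, hX00]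
  have h1 : A / n ≤ nu * (0.0295 * X + lam * δ) := by
    rw [div_le_iff₀ hn0]
    have h2 : 0 ≤ 0.0295 * X + lam * δ := by positivity
    nlinarith only [hA, hA0, hn]
  have h2 : 0 ≤ A / n := div_nonneg hA0 hn0.le
  have h3 : (A / n)^2 ≤ nu^2 * (0.0295 * X + lam * δ)^2 := by
    have := pow_le_pow_left₀ h2 h1 2
    rwa [mul_pow] at this
  have h4 : 50 * p * (A / n)^2 ≤ 50 * p * (nu^2 * (0.0295 * X + lam * δ)^2) :=
    mul_le_mul_of_nonneg_left h3 (by positivity)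
  have hk : 0.0003 * p - 0.012 * a^2 ≤ mu * X^2 := by
    have e1 : a0^2 ≤ a^2 := pow_le_pow_left₀ h00 ha0 2
    rcases hmu with ⟨m1, m2⟩ | ⟨m1, m2⟩
    · have e2 : mu * X0^2 ≤ mu * X^2 := mul_le_mul_of_nonneg_left (pow_le_pow_left₀ hX00.le hX0 2) m1
      linarith only [e1, m2, e2]
    · have e2 : mu * X1^2 ≤ mu * X^2 :=
        mul_le_mul_of_nonpos_left (pow_le_pow_left₀ hX.le hX1 2) m1
      linarith only [e1, m2, e2]
  have h5 : δ * (0.85 * X^2) ≤ δ * (0.85 * X1 * X) := by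
    apply mul_le_mul_of_nonneg_left _ hδ
    nlinarith only [hX0, hX1, hX00]
  set ga := 50 * p - c2 - 50 * p * nu^2 * lam^2 with hgadef
  set be := 1.55 + 0.85 * X1 + 100 * p * nu^2 * 0.0295 * lam with hbedef
  set al := 0.11 - 50 * p * nu^2 * 0.0295^2 - mu with haldef
  have h6 : U + 50 * p * (A / n)^2 - 50 * p * δ^2 + 0.0003 * p ≤ -(al * X^2) + be * X * δ - ga * δ^2 := by
    simp only [hgadef, hbedef, haldef]
    nlinarith only [hU, h4, hk, h5]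
  have h7 : 4 * ga * (-(al * X^2) + be * X * δ - ga * δ^2) ≤ 0 := by
    nlinarith only [sq_nonneg (2 * ga * δ - be * X), mul_nonneg (sub_nonneg.mpr hdisc) (sq_nonneg X), hdisc]
  have h8 : -(al * X^2) + be * X * δ - ga * δ^2 ≤ 0 := by
    by_contra hcon
    push Not at hcon
    have : 0 < 4 * ga * (-(al * X^2) + be * X * δ - ga * δ^2) := by positivity
    linarith only [h7, this]
  linarith only [h6, h8]

/-- all boxes -/
theorem boxes {X a δ ψ A n U : ℝ} (hδ : 0 ≤ δ) (hδ1 : δ ≤ 0.03) (ha : 0 ≤ a) (ha1 : a ≤ 0.45)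
    (hX0 : a + 0.121818 ≤ X) (hX1 : X ≤ a + 0.121819)
    (hA : A = 0.0295 * X + 0.17 * δ + 0.385 * (1.655 + 1.86 * a)^2 * δ^2)
    (hn : n = 1 - 0.13 * X^2 - δ * (1.23 + 2.84 * X))
    (hU : U ≤ -(0.11 * X^2 + 0.012 * a^2) + δ * (1.55 * X + 0.85 * X^2)
      + 1.72 * (1.655 + 1.86 * a)^2 * (0.4866 + 0.6 * a) * δ^2)
    (hψ : 0.7956 ≤ ψ) (hψ1 : ψ ≤ 0.8678) :
    A ≤ 0.03 * n ∧ U + 50 * ψ * (A / n)^2 - 50 * ψ * δ^2 + 0.0003 * ψ ≤ 0 := by
  have hX : 0 < X := by linarith only [ha, hX0]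
  have hA0 : 0 ≤ A := by rw [hA]; positivity
  -- general box
  have key : ∀ a0 a1 W1 lam c2 nu mu1 mu2 : ℝ, 0 ≤ a0 → a0 ≤ a → a ≤ a1 → 1.655 + 1.86 * a1 ≤ W1 →
      0.17 + 0.385 * W1^2 * 0.03 ≤ lam → 1.72 * W1^2 * (0.4866 + 0.6 * a1) ≤ c2 → 0 < nu →
      1 ≤ nu * (1 - 0.13 * (a1 + 0.121819)^2 - 0.03 * (1.23 + 2.84 * (a1 + 0.121819))) →
      0.0295 * (a1 + 0.121819) + lam * 0.03 ≤ 0.03 * (1 - 0.13 * (a1 + 0.121819)^2 - 0.03 * (1.23 + 2.84 * (a1 + 0.121819))) →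
      (∀ p mu, (p = 0.7956 ∧ mu = mu1) ∨ (p = 0.8678 ∧ mu = mu2) →
        ((0 ≤ mu ∧ 0.0003 * p - 0.012 * a0^2 ≤ mu * (a0 + 0.121818)^2) ∨
          (mu ≤ 0 ∧ 0.0003 * p - 0.012 * a0^2 ≤ mu * (a1 + 0.121819)^2)) ∧
        0 < 50 * p - c2 - 50 * p * nu^2 * lam^2 ∧
        (1.55 + 0.85 * (a1 + 0.121819) + 100 * p * nu^2 * 0.0295 * lam)^2
          ≤ 4 * (50 * p - c2 - 50 * p * nu^2 * lam^2) * (0.11 - 50 * p * nu^2 * 0.0295^2 - mu)) →
      A ≤ 0.03 * n ∧ U + 50 * ψ * (A / n)^2 - 50 * ψ * δ^2 + 0.0003 * ψ ≤ 0 := by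
    intro a0 a1 W1 lam c2 nu mu1 mu2 h0 h1 h2 h3 h4 h5 h6 h7 h8 h9
    have hX2 : X ≤ a1 + 0.121819 := by linarith only [hX1, h2]
    have ha10 : 0 ≤ a1 := by linarith only [ha, h2]
    have hnlo : 1 - 0.13 * (a1 + 0.121819)^2 - 0.03 * (1.23 + 2.84 * (a1 + 0.121819)) ≤ n := by
      rw [hn]
      have e1 : X^2 ≤ (a1 + 0.121819)^2 := pow_le_pow_left₀ hX.le hX2 2
      have e2 : δ * (1.23 + 2.84 * X) ≤ 0.03 * (1.23 + 2.84 * (a1 + 0.121819)) :=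
        mul_le_mul hδ1 (by linarith only [hX1, h2]) (by positivity) (by norm_num)
      linarith only [e1, e2]
    have hnlo0 : 0 < 1 - 0.13 * (a1 + 0.121819)^2 - 0.03 * (1.23 + 2.84 * (a1 + 0.121819)) := by
      by_contra hcon
      push Not at hcon
      nlinarith only [ha, h2, h4, h8, hcon]
    have hn0 : 0 < n := lt_of_lt_of_le hnlo0 hnlo
    have hnu : 1 ≤ nu * n := h7.trans (mul_le_mul_of_nonneg_left hnlo h6.le)
    have hW : (1.655 + 1.86 * a)^2 ≤ W1^2 := pow_le_pow_left₀ (by positivity) (by linarith only [h2, h3]) 2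
    have hlam : 0 ≤ lam := by
      have : 0 ≤ 0.17 + 0.385 * W1^2 * 0.03 := by positivity
      linarith only [h4, this]
    have hA1 : A ≤ 0.0295 * X + lam * δ := by
      rw [hA]
      have e1 : 0.385 * (1.655 + 1.86 * a)^2 * δ^2 ≤ 0.385 * W1^2 * (0.03 * δ) := by
        apply mul_le_mul (by linarith only [hW]) (by nlinarith only [hδ, hδ1]) (by positivity) (by positivity)
      have e2 : (0.17 + 0.385 * W1^2 * 0.03) * δ ≤ lam * δ := mul_le_mul_of_nonneg_right h4 hδ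
      nlinarith only [e1, e2]
    have hU1 : U ≤ -(0.11 * X^2 + 0.012 * a^2) + δ * (1.55 * X + 0.85 * X^2) + c2 * δ^2 := by
      have e1 : 1.72 * (1.655 + 1.86 * a)^2 * (0.4866 + 0.6 * a) ≤ c2 := by
        refine le_trans ?_ h5
        apply mul_le_mul (by linarith only [hW]) (by linarith only [h2]) (by positivity) (by positivity)
      have := mul_le_mul_of_nonneg_right e1 (sq_nonneg δ)
      linarith only [hU, this]
    have hG : ∀ p mu, (p = 0.7956 ∧ mu = mu1) ∨ (p = 0.8678 ∧ mu = mu2) →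
        U + 50 * p * (A / n)^2 - 50 * p * δ^2 + 0.0003 * p ≤ 0 := by
      intro p mu hpm
      have hp : 0 ≤ p := by rcases hpm with ⟨h, -⟩ | ⟨h, -⟩ <;> rw [h] <;> norm_num
      obtain ⟨m1, m2, m3⟩ := h9 p mu hpm
      exact boxN hδ hδ1 h1 h2 h0 (by linarith only [hX0, h1] : a0 + 0.121818 ≤ X) hX2 (by linarith only [h0]) hA0 hA1 hn0 hnu hU1 hp hlam
        h6.le m1 m2 m3
    refine ⟨?_, ?_⟩
    · calc A ≤ 0.0295 * X + lam * δ := hA1
        _ ≤ 0.0295 * (a1 + 0.121819) + lam * 0.03 := by nlinarith only [hδ1, hX1, h2, h4]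
        _ ≤ _ := h8
        _ ≤ 0.03 * n := by linarith only [hnlo]
    · have g1 := hG 0.7956 mu1 (Or.inl ⟨rfl, rfl⟩)
      have g2 := hG 0.8678 mu2 (Or.inr ⟨rfl, rfl⟩)
      set B := 50 * (A / n)^2 - 50 * δ^2 + 0.0003 with hB
      have f1 : U + 0.7956 * B ≤ 0 := by rw [hB]; linarith only [g1]
      have f2 : U + 0.8678 * B ≤ 0 := by rw [hB]; linarith only [g2]
      have f3 : U + ψ * B ≤ 0 := by
        rcases le_total 0 B with hb | hb
        · nlinarith only [hB, hψ, g2, hψ1, g1]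
        · nlinarith only [g1, hB, hψ, hb]
      rw [hB] at f3
      linarith only [f3]
  rcases le_total a 0.1 with h1 | h1
  · refine key 0 0.1 1.841 0.2092 3.187 1.0664 0.01609 0.01755 le_rfl ha h1
      (by norm_num) (by norm_num) (by norm_num) (by norm_num) (by norm_num) (by norm_num) ?_
    rintro p mu (⟨rfl, rfl⟩ | ⟨rfl, rfl⟩) <;> norm_num
  rcases le_total a 0.2 with h2 | h2
  · refine key 0.1 0.2 2.027 0.2175 4.287 1.0844 0.00242 0.00286 (by norm_num) h1 h2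
      (by norm_num) (by norm_num) (by norm_num) (by norm_num) (by norm_num) (by norm_num) ?_
    rintro p mu (⟨rfl, rfl⟩ | ⟨rfl, rfl⟩) <;> norm_num
  rcases le_total a 0.3 with h3 | h3
  · refine key 0.2 0.3 2.213 0.2266 5.616 1.1062 (-0.00135) (-0.00123) (by norm_num) h2 h3
      (by norm_num) (by norm_num) (by norm_num) (by norm_num) (by norm_num) (by norm_num) ?_
    rintro p mu (⟨rfl, rfl⟩ | ⟨rfl, rfl⟩) <;> norm_num
  rcases le_total a 0.375 with h4 | h4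
  · refine key 0.3 0.375 2.3525 0.234 6.774 1.1253 (-0.0034) (-0.00332) (by norm_num) h3 h4
      (by norm_num) (by norm_num) (by norm_num) (by norm_num) (by norm_num) (by norm_num) ?_
    rintro p mu (⟨rfl, rfl⟩ | ⟨rfl, rfl⟩) <;> norm_num
  · refine key 0.375 0.45 2.492 0.2418 8.082 1.147 (-0.00443) (-0.00436) (by norm_num) h4 ha1
      (by norm_num) (by norm_num) (by norm_num) (by norm_num) (by norm_num) (by norm_num) ?_
    rintro p mu (⟨rfl, rfl⟩ | ⟨rfl, rfl⟩) <;> norm_num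

end Pool.Agent.CDk.Par
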