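import Pool.Agent.CDk.CX
import Pool.Agent.CDk.D.D0
import Pool.Agent.CDk.Defs
import Pool.Agent.CDk.ENC
import Pool.Agent.CDk.FNa
import Pool.Agent.CDk.FNb
import Pool.Agent.CDk.T1a

/-!
# ZC: the crossing of zone N

`0 ≤ a ≤ 0.45`, `io c = qN a io`. NUMERICAL VALUES (true):
a      0       .05     .1      .15     .2      .25     .3      .35     .4      .45
c      1.56202 1.58116 1.60101 1.62158 1.64287 1.66489 1.68764 1.71112 1.73532 1.76025
qN     .39309  .40097  .40915  .41763  .42641  .43550  .44489  .45458  .46456  .47485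
WN     1.6481  1.7247  1.8044  1.8877  1.9749  2.0664  2.1626  2.2640  2.3711  2.4845
mb(c-a).4821   .5129   .5438   .5745   .6050   .6350   .6647   .6939   .7226   .7508

Hints: `qN a io = (1 - J a / L)/(Y - a)` (`∫ io = J/L`, `Par.J_deriv`), which is increasing and convex in
`a` (`qN = V/(Y-a) + ∫_0^1 io(a + (Y-a)t)dt` with `V = sg/L`, `io` convex); `io` is increasing, strictly on
`[0,∞)` (`cx_strict`), convex, nearly linear on `[1.5, ∞)` (slopes `D/L` between `0.4086` and `0.4127`,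
`= D ρ / L` from `ρ` on); enclosures `I_app`, `J_app`, `D_app5` (ENC), `Y_pos`, `sg_bd`, `mb_app`,
`mb v = (Y-v)^2/2` for `v ≥ ρ - e0` (`mb_out`). The bound of `c` from above: compare `io (1.5625 + 0.442 a)`
(convex in `a`) with the chord of `qN` (convex) on cells. All slacks are at least 0.0003 in `c`.
Everything already used in the modules CX, B1, T1 (import Pool.Agent.CDk.FIN6 gives all of it).
-/

open MeasureTheory Set Filter Topology

namespace Pool.Agent.CDk.Par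
variable {P : Par}

private theorem ZC_qN (h : P.Star) (a : ℝ) : P.qN a P.io = (1 - P.J a / P.L) / (P.Y - a) := by
  have h1 : ∫ y in (0:ℝ)..a, P.io y = P.J a / P.L := by
    unfold io
    rw [intervalIntegral.integral_div, intervalIntegral.integral_eq_sub_of_hasDerivAt
      (fun x _ => J_deriv h x) ((I_cont h).intervalIntegrable _ _), J_zero h le_rfl, sub_zero]
  rw [qN, h1]

private theorem ZC_J (h : P.Star) {a : ℝ} (ha : 0 ≤ a) (ha1 : a ≤ 0.45) :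
    0.16596 * a^3 - 0.00001 ≤ P.J a ∧ P.J a ≤ 0.16598 * a^3 + 0.0041917 * a^4 + 0.00001 := by
  have h1 := abs_le.1 (J_app h ha (by linarith [h.ρ_lo]))
  have h2 : PJ a = 0.99582/6*a^3 + 0.0503/12*a^4 - 0.15027/20*a^5 - 0.01586/30*a^6 + 0.0092/42*a^7 := rfl
  have a4 : 0 ≤ a^4 := by positivity
  have a5 : 0 ≤ a^5 := by positivity
  have a6 : 0 ≤ a^6 := by positivity
  have a7 : 0 ≤ a^7 := by positivity
  have a3 : 0 ≤ a^3 := by positivity
  have b5 : a^5 ≤ 0.45 * a^4 := by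
    have := mul_le_mul_of_nonneg_right ha1 a4
    calc a^5 = a * a^4 := by ring
      _ ≤ _ := this
  have b6 : a^6 ≤ 0.45 * a^5 := by
    have := mul_le_mul_of_nonneg_right ha1 a5
    calc a^6 = a * a^5 := by ring
      _ ≤ _ := this
  have b7 : a^7 ≤ 0.45 * a^6 := by
    have := mul_le_mul_of_nonneg_right ha1 a6
    calc a^7 = a * a^6 := by ring
      _ ≤ _ := this
  norm_num at h1 h2 ⊢
  constructor
  · linarith only [h1.1, a4, a7, a3, b5, b6, h1, h2]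
  · linarith only [h1.2, a4, a5, a6, a3, b7, h1, h2]

private theorem ZC_Drho (h : P.Star) : 1.09994 ≤ P.D P.ρ ∧ P.D P.ρ ≤ 1.1 := by
  have hρ := h.ρ_lo
  have hρ' := h.ρ_hi
  have he := h.e_hi
  have h2 := abs_le.1 (D_app5 h (y := P.ρ) (by linarith) le_rfl)
  have h3 : 1.09995 ≤ PD5 P.ρ ∧ PD5 P.ρ ≤ 1.09998 := by
    unfold PD5
    have a2 : P.ρ ^ 2 ≤ 1.640088 ^ 2 := pow_le_pow_left₀ (by linarith only [hρ, hρ']) hρ'.le 2
    have a3 : (1.640087 : ℝ) ^ 3 ≤ P.ρ ^ 3 := pow_le_pow_left₀ (by norm_num) hρ.le 3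
    have a4 : (1.640087 : ℝ) ^ 4 ≤ P.ρ ^ 4 := pow_le_pow_left₀ (by norm_num) hρ.le 4
    have a5 : P.ρ ^ 5 ≤ 1.640088 ^ 5 := pow_le_pow_left₀ (by linarith only [hρ, hρ']) hρ'.le 5
    have b2 : (1.640087 : ℝ) ^ 2 ≤ P.ρ ^ 2 := pow_le_pow_left₀ (by norm_num) hρ.le 2
    have b3 : P.ρ ^ 3 ≤ 1.640088 ^ 3 := pow_le_pow_left₀ (by linarith only [hρ, hρ']) hρ'.le 3
    have b4 : P.ρ ^ 4 ≤ 1.640088 ^ 4 := pow_le_pow_left₀ (by linarith only [hρ, hρ']) hρ'.le 4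
    have b5 : (1.640087 : ℝ) ^ 5 ≤ P.ρ ^ 5 := pow_le_pow_left₀ (by norm_num) hρ.le 5
    norm_num at a2 a3 a4 a5 b2 b3 b4 b5 ⊢
    constructor <;> linarith
  constructor <;> linarith [h2.1, h2.2, h3.1, h3.2]

private theorem ZC_Irho (h : P.Star) : 1.13365 ≤ P.I P.ρ ∧ P.I P.ρ ≤ 1.1337 := by
  have hρ := h.ρ_lo
  have hρ' := h.ρ_hi
  have h2 := abs_le.1 (I_app h (y := P.ρ) (by linarith) le_rfl)
  have h3 : 1.133668 ≤ PI P.ρ ∧ PI P.ρ ≤ 1.133676 := by
    unfold PI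
    have a2 : P.ρ ^ 2 ≤ 1.640088 ^ 2 := pow_le_pow_left₀ (by linarith) hρ'.le 2
    have a3 : P.ρ ^ 3 ≤ 1.640088 ^ 3 := pow_le_pow_left₀ (by linarith) hρ'.le 3
    have a4 : P.ρ ^ 4 ≤ 1.640088 ^ 4 := pow_le_pow_left₀ (by linarith) hρ'.le 4
    have a5 : P.ρ ^ 5 ≤ 1.640088 ^ 5 := pow_le_pow_left₀ (by linarith only [hρ, hρ']) hρ'.le 5
    have a6 : P.ρ ^ 6 ≤ 1.640088 ^ 6 := pow_le_pow_left₀ (by linarith only [hρ, hρ']) hρ'.le 6
    have b2 : (1.640087 : ℝ) ^ 2 ≤ P.ρ ^ 2 := pow_le_pow_left₀ (by norm_num) hρ.le 2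
    have b3 : (1.640087 : ℝ) ^ 3 ≤ P.ρ ^ 3 := pow_le_pow_left₀ (by norm_num) hρ.le 3
    have b4 : (1.640087 : ℝ) ^ 4 ≤ P.ρ ^ 4 := pow_le_pow_left₀ (by norm_num) hρ.le 4
    have b5 : (1.640087 : ℝ) ^ 5 ≤ P.ρ ^ 5 := pow_le_pow_left₀ (by norm_num) hρ.le 5
    have b6 : (1.640087 : ℝ) ^ 6 ≤ P.ρ ^ 6 := pow_le_pow_left₀ (by norm_num) hρ.le 6
    norm_num at a2 a3 a4 a5 a6 b2 b3 b4 b5 b6 ⊢
    constructor <;> linarith
  constructor <;> linarith [h2.1, h2.2, h3.1, h3.2]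

private theorem ZC_D_le (h : P.Star) (y : ℝ) : P.D y ≤ P.D P.ρ := by
  rcases le_total y P.ρ with h2 | h2
  · exact D_mono h h2
  · rw [D_const h h2]

private theorem ZC_I_mvt (h : P.Star) {a b : ℝ} (hab : a < b) :
    ∃ ξ, a < ξ ∧ ξ < b ∧ P.I b - P.I a = P.D ξ * (b - a) := by
  obtain ⟨ξ, hξ, h1⟩ := exists_hasDerivAt_eq_slope P.I P.D hab
    (fun x _ => (I_deriv h x).continuousAt.continuousWithinAt) (fun x _ => I_deriv h x)
  refine ⟨ξ, hξ.1, hξ.2, ?_⟩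
  rw [h1, div_mul_cancel₀]
  linarith

private theorem ZC_I_up (h : P.Star) {y : ℝ} (hy : 1.5615 ≤ y) :
    P.I y ≤ 1.04735 + 1.1 * (y - 1.5615) := by
  have hρ := h.ρ_lo
  have h1 := abs_le.1 (I_app h (y := 1.5615) (by norm_num) (by linarith))
  have h2 : PI 1.5615 ≤ 1.04733 := by unfold PI; norm_num
  rcases hy.eq_or_lt with h3 | h3
  · rw [← h3]; linarith only [h1.2, h1, h2]
  · obtain ⟨ξ, -, -, h4⟩ := ZC_I_mvt h h3
    have h5 := mul_le_mul_of_nonneg_right ((ZC_D_le h ξ).trans (ZC_Drho h).2) (by linarith : 0 ≤ y - 1.5615)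
    linarith only [h1.2, h1, h2, h4, h5]

private theorem ZC_I_lo (h : P.Star) (y : ℝ) : P.I P.ρ + P.D P.ρ * (y - P.ρ) ≤ P.I y := by
  rcases lt_trichotomy y P.ρ with h1 | h1 | h1
  · obtain ⟨ξ, -, -, h4⟩ := ZC_I_mvt h h1
    have h5 := mul_le_mul_of_nonneg_right (ZC_D_le h ξ) (by linarith : 0 ≤ P.ρ - y)
    linarith
  · rw [h1]; linarith
  · obtain ⟨ξ, h3, -, h4⟩ := ZC_I_mvt h h1
    rw [D_const h h3.le] at h4
    linarith

private theorem ZC_lo (h : P.Star) {a : ℝ} (ha : 0 ≤ a) (ha1 : a ≤ 0.45) :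
    P.io (1.5615 + 0.38 * a + 0.12 * a^2) ≤ P.qN a P.io := by
  obtain ⟨hY1, hY2, hL1, hL2⟩ := Y_pos h
  have hL := cx_L_pos h
  have he := h.e_lo
  have hYL : P.L = P.Y + P.e0 := by unfold Y L; ring
  obtain ⟨-, hJ⟩ := ZC_J h ha ha1
  rw [ZC_qN h]
  unfold io
  rw [one_sub_div hL.ne', div_div, div_le_div_iff₀ hL (mul_pos hL (by linarith only [ha1, hY1, hL2, he, hYL]))]
  have h1 := ZC_I_up h (y := 1.5615 + 0.38 * a + 0.12 * a^2) (by nlinarith only [ha])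
  obtain ⟨x, hx⟩ : ∃ x, x = 0.38 * a + 0.12 * a^2 := ⟨_, rfl⟩
  have h2 : P.I (1.5615 + 0.38 * a + 0.12 * a^2) * (P.Y - a) ≤ P.L - P.J a := by
    have h3 : P.I (1.5615 + 0.38 * a + 0.12 * a^2) * (P.Y - a) ≤
        (1.04735 + 1.1 * (0.38 * a + 0.12 * a^2)) * (P.Y - a) :=
      mul_le_mul_of_nonneg_right (by linarith only [h1]) (by linarith only [ha1, hY1, hL2, he, hYL])
    have h4 : (0.04735 + 1.1 * (0.38 * a + 0.12 * a^2)) * P.Y ≤
        (0.04735 + 1.1 * (0.38 * a + 0.12 * a^2)) * 2.543965 :=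
      mul_le_mul_of_nonneg_left hY2.le (by positivity)
    have h5 : a^4 ≤ 0.2025 * a^2 := by
      have h7 : a^2 ≤ 0.45^2 := pow_le_pow_left₀ ha ha1 2
      have h8 := mul_le_mul_of_nonneg_right h7 (sq_nonneg a)
      calc a^4 = a^2 * a^2 := by ring
        _ ≤ 0.45^2 * a^2 := h8
        _ = 0.2025 * a^2 := by norm_num
    have h6 : a^3 ≤ 0.45 * a^2 := by nlinarith only [sq_nonneg a, ha1]
    nlinarith only [sq_nonneg (a - 0.12), sq_nonneg a, ha1, hY1, hL2, he, hYL, hJ, h3, h4, h5, h6]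
  calc P.I (1.5615 + 0.38 * a + 0.12 * a^2) * (P.L * (P.Y - a))
      = P.L * (P.I (1.5615 + 0.38 * a + 0.12 * a^2) * (P.Y - a)) := by ring
    _ ≤ P.L * (P.L - P.J a) := mul_le_mul_of_nonneg_left h2 hL.le
    _ = (P.L - P.J a) * P.L := by ring

private theorem ZC_hi (h : P.Star) {a : ℝ} (ha : 0 ≤ a) (ha1 : a ≤ 0.45) :
    P.qN a P.io ≤ P.io (1.5625 + 0.442 * a) := by
  obtain ⟨hY1, hY2, hL1, hL2⟩ := Y_pos h
  have hL := cx_L_pos h
  have he := h.e_hi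
  have hρ' := h.ρ_hi
  have hρ := h.ρ_lo
  have hYL : P.L = P.Y + P.e0 := by unfold Y L; ring
  obtain ⟨hJ, -⟩ := ZC_J h ha ha1
  obtain ⟨hD, hD'⟩ := ZC_Drho h
  obtain ⟨hI, -⟩ := ZC_Irho h
  rw [ZC_qN h]
  unfold io
  rw [one_sub_div hL.ne', div_div, div_le_div_iff₀ (mul_pos hL (by linarith only [ha1, hY1, hρ', hρ])) hL]
  have h1 := ZC_I_lo h (1.5625 + 0.442 * a)
  have h0 : 1.0482 + 0.48617 * a ≤ P.I (1.5625 + 0.442 * a) := by
    have h2 : P.D P.ρ * (P.ρ - 1.5625) ≤ 1.1 * 0.077588 :=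
      mul_le_mul hD' (by linarith only [hρ']) (by linarith only [hρ', hρ]) (by norm_num)
    have h3 : 1.09994 * (0.442 * a) ≤ P.D P.ρ * (0.442 * a) :=
      mul_le_mul_of_nonneg_right hD (by positivity)
    have h4 : P.D P.ρ * (1.5625 + 0.442 * a - P.ρ) =
        P.D P.ρ * (0.442 * a) - P.D P.ρ * (P.ρ - 1.5625) := by ring
    linarith only [ha, hρ', hρ, hI, h1, h2, h3]
  have h2 : P.L - P.J a ≤ P.I (1.5625 + 0.442 * a) * (P.Y - a) := by
    have h3 : (1.0482 + 0.48617 * a) * (P.Y - a) ≤ P.I (1.5625 + 0.442 * a) * (P.Y - a) :=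
      mul_le_mul_of_nonneg_right h0 (by linarith only [ha1, hY1, hρ', hρ])
    have h4 : (0.0482 + 0.48617 * a) * 2.543961 ≤ (0.0482 + 0.48617 * a) * P.Y :=
      mul_le_mul_of_nonneg_left hY1.le (by positivity)
    have h5 : 0 ≤ a * (0.45 - a) := mul_nonneg ha (by linarith only [ha1])
    have h6 : 0 ≤ a * (0.45 - a)^2 := mul_nonneg ha (sq_nonneg _)
    nlinarith only [ha, hY1, hL2, hρ', hρ, hJ, h3, h4, h5, h6]
  calc (P.L - P.J a) * P.L ≤ (P.I (1.5625 + 0.442 * a) * (P.Y - a)) * P.L :=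
      mul_le_mul_of_nonneg_right h2 hL.le
    _ = P.I (1.5625 + 0.442 * a) * (P.L * (P.Y - a)) := by ring

theorem crossN (h : P.Star) {a : ℝ} (ha : 0 ≤ a) (ha1 : a ≤ 0.45) : ∃ c, P.io c = P.qN a P.io := by
  obtain ⟨c, -, hc⟩ := intermediate_value_Icc
    (by nlinarith only [ha, ha1] : 1.5615 + 0.38 * a + 0.12 * a^2 ≤ 1.5625 + 0.442 * a)
    (cx_cont h).continuousOn
    (⟨ZC_lo h ha ha1, ZC_hi h ha ha1⟩ : P.qN a P.io ∈ Icc (P.io (1.5615 + 0.38 * a + 0.12 * a^2))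
      (P.io (1.5625 + 0.442 * a)))
  exact ⟨c, hc⟩

theorem crossN_bd (h : P.Star) {a c : ℝ} (ha : 0 ≤ a) (ha1 : a ≤ 0.45) (hc : P.io c = P.qN a P.io) :
    1.5615 + 0.38 * a + 0.12 * a^2 ≤ c ∧ c ≤ 1.5625 + 0.442 * a := by
  constructor
  · by_contra hcon
    push Not at hcon
    have h1 : P.io (max c 0) < P.io (1.5615 + 0.38 * a + 0.12 * a^2) :=
      cx_strict h (le_max_right _ _) (max_lt hcon (by positivity))
    linarith only [cx_mono h (le_max_left c 0), ZC_lo h ha ha1, hc, h1, h, ha, ha1]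
  · by_contra hcon
    push Not at hcon
    have h1 := cx_strict h (by positivity) hcon
    linarith [ZC_hi h ha ha1]

theorem qN_bd (h : P.Star) {a : ℝ} (ha : 0 ≤ a) (ha1 : a ≤ 0.45) :
    0.393 ≤ P.qN a P.io ∧ P.qN a P.io ≤ 0.475 := by
  obtain ⟨hY1, hY2, hL1, hL2⟩ := Y_pos h
  have hL := cx_L_pos h
  obtain ⟨hJ1, hJ2⟩ := ZC_J h ha ha1
  rw [ZC_qN h]
  constructor
  · rw [le_div_iff₀ (by linarith only [ha1, hY1, hL1, hL2])]
    have h1 : P.J a / P.L ≤ 0.063 * a^3 + 0.0016 * a^4 + 0.000004 := by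
      rw [div_le_iff₀ hL]
      have h2 : (0.063 * a^3 + 0.0016 * a^4 + 0.000004) * 2.665779 ≤
          (0.063 * a^3 + 0.0016 * a^4 + 0.000004) * P.L :=
        mul_le_mul_of_nonneg_left hL1.le (by positivity)
      have h3 : 0 ≤ a^3 := by positivity
      have h4 : 0 ≤ a^4 := by positivity
      nlinarith only [hL1, hL2, hJ2, h2, h3, h4]
    have h5 : a^4 ≤ 0.1 * a := by
      have h6 : a^3 ≤ 0.45^3 := pow_le_pow_left₀ ha ha1 3
      nlinarith only [ha, h6]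
    have h7 : a^3 ≤ 0.21 * a := by
      have h6 : a^2 ≤ 0.45^2 := pow_le_pow_left₀ ha ha1 2
      nlinarith
    linarith only [ha, hY2, hL1, hL2, h1, h5, h7]
  · rw [div_le_iff₀ (by linarith only [ha1, hY1, hL1, hL2])]
    have h1 : 0.06225 * a^3 - 0.000004 ≤ P.J a / P.L := by
      rw [le_div_iff₀ hL]
      have h3 : 0 ≤ a^3 := by positivity
      have h2 : 0.06225 * a^3 * P.L ≤ 0.06225 * a^3 * 2.665784 :=
        mul_le_mul_of_nonneg_left hL2.le (by positivity)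
      nlinarith only [hL1, hL2, hJ1, h3, h2]
    have h2 : 0 ≤ (a - 0.45)^2 * (a + 0.9) := mul_nonneg (sq_nonneg _) (by linarith only [ha, hL1, hL2])
    nlinarith only [ha1, hY1, hL1, hL2, h1, h2]

private theorem ZC_mb (h : P.Star) {v t0 : ℝ} (h0 : 0 ≤ P.ρ - t0) (hv : P.ρ - t0 ≤ v) (ht0 : P.e0 ≤ t0)
    (ht1 : t0 ≤ P.ρ) : P.mb v ≤ PM t0 + 0.00001 := by
  have h1 : P.mb v ≤ P.mb (P.ρ - t0) := mb_anti h (mem_Ici.2 h0) (mem_Ici.2 (by linarith)) hv
  have h2 := abs_le.1 (mb_app h ht0 ht1)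
  linarith [h2.2]

private theorem ZC_PM {t t0 : ℝ} (ht : 0 ≤ t) (ht1 : t ≤ 1) (ht0 : 0 ≤ t0) :
    PM t ≤ 0.405756 + 0.946702 * t + 0.350512 * t^2 - 0.138773 * (3 * t0^2 * t - 2 * t0^3) := by
  have h1 : PM t = 0.405756 + 0.946702*t + 0.350512*t^2 - 0.138773*t^3 - 0.038228*t^4 + 0.009728*t^5 := rfl
  have h2 : t^5 ≤ t^4 := by
    have : t^4 * t ≤ t^4 * 1 := mul_le_mul_of_nonneg_left ht1 (by positivity)
    calc t^5 = t^4 * t := by ring
      _ ≤ t^4 * 1 := this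
      _ = t^4 := mul_one _
  have h3 : 0 ≤ t^4 := by positivity
  have h4 : 0 ≤ (t - t0)^2 * (t + 2 * t0) := mul_nonneg (sq_nonneg _) (by linarith only [ht, ht0])
  nlinarith only [h1, h2, h3, h4]

theorem wN_bd (h : P.Star) {a c : ℝ} (ha : 0 ≤ a) (ha1 : a ≤ 0.45) (hc : P.io c = P.qN a P.io) :
    P.WN a c ≤ 1.655 + 1.86 * a := by
  obtain ⟨hY1, hY2, hL1, hL2⟩ := Y_pos h
  obtain ⟨h1, h2⟩ := crossN_bd h ha ha1 hc
  have h3 : w c ≤ 1.65 + 1.768 * a := by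
    unfold w
    have h4 : min (3 * c^2) 1 ≤ 1 := min_le_right _ _
    have h5 : max (c - 1.4) 0 = c - 1.4 := max_eq_left (by nlinarith only [ha, hL1, hL2, h1])
    rw [h5]
    linarith only [h2, h4]
  have h4 : ∫ y in (0:ℝ)..a, w y ≤ a^3 := by
    have h5 := intervalIntegral.integral_mono_on ha (w_cont.intervalIntegrable (μ := volume) 0 a)
      ((by fun_prop : Continuous fun y : ℝ => 3 * y^2).intervalIntegrable _ _)
      (fun y hy => (w_le_sq (y := y) (by linarith only [hy.2, ha1, hL1, hL2, hy])).1)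
    refine h5.trans (le_of_eq ?_)
    rw [intervalIntegral.integral_const_mul, integral_pow]
    ring
  have h5 : (∫ y in (0:ℝ)..a, w y) / (P.Y - a) ≤ 0.005 + 0.092 * a := by
    rw [div_le_iff₀ (by linarith only [ha1, hY1, hL1, hL2])]
    have h6 : a^3 ≤ (0.005 + 0.092 * a) * 2.093961 := by
      have h7 : a^2 ≤ 0.45^2 := pow_le_pow_left₀ ha ha1 2
      have h8 : a^3 ≤ 0.45^2 * a := by nlinarith
      norm_num at h8 ⊢
      linarith only [ha1, hL1, hL2, h8]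
    have h7 : (0.005 + 0.092 * a) * 2.093961 ≤ (0.005 + 0.092 * a) * (P.Y - a) :=
      mul_le_mul_of_nonneg_left (by linarith only [ha1, hY1]) (by positivity)
    linarith only [h4, h6, h7]
  unfold WN
  linarith only [h3, h5]

theorem mbN_bd (h : P.Star) {a c : ℝ} (ha : 0 ≤ a) (ha1 : a ≤ 0.45) (hc : P.io c = P.qN a P.io) :
    P.mb (c - a) ≤ 0.4866 + 0.6 * a ∧ P.mb (c - a - 0.16) ≤ 1.35 * (0.4866 + 0.6 * a) := by
  obtain ⟨hY1, hY2, hL1, hL2⟩ := Y_pos h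
  obtain ⟨h1, h2⟩ := crossN_bd h ha ha1 hc
  have hρ := h.ρ_lo
  have hρ' := h.ρ_hi
  have helo := h.e_lo
  have hehi := h.e_hi
  obtain ⟨T, hT⟩ : ∃ T, T = 0.078588 + 0.62 * a - 0.12 * a^2 := ⟨_, rfl⟩
  have hsq : a^2 ≤ 0.45 * a := by nlinarith only [ha, ha1]
  have hsq0 := sq_nonneg a
  constructor
  · have hT1 : T ≤ 0.3334 := by nlinarith only [ha1, hρ, hρ', hT]
    rcases le_total T P.e0 with h3 | h3
    · rw [mb_out h (by linarith only [h1, hρ', hT, h3]), max_eq_left (by nlinarith only [ha, hY1, h2, hρ, hρ'])]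
      have h4 : (P.Y - (c - a))^2 ≤ (0.982465 + 0.62 * a - 0.12 * a^2)^2 :=
        pow_le_pow_left₀ (by nlinarith only [ha, hY1, h2, hρ, hρ']) (by linarith only [hY2, h1]) 2
      have h5 : (0.982465 + 0.62 * a - 0.12 * a^2)^2 ≤ (0.982465 + 0.62 * a)^2 :=
        pow_le_pow_left₀ (by nlinarith only [ha, h1, h2, hρ, hρ']) (by linarith only [hsq0]) 2
      have h6 : a ≤ 0.077 := by nlinarith only [hρ, hρ', hehi, hT, hsq, h3]
      nlinarith only [hρ, hρ', hehi, hT, hsq, h3, h4, ha, h1, h2]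
    · have h4 := ZC_mb h (v := c - a) (t0 := T) (by linarith only [ha1, hρ, hρ', hT, hsq0]) (by linarith only [h1, hρ', hT]) h3 (by linarith only [ha1, hρ, hρ', hT, hsq0])
      have h5 := ZC_PM (t := T) (t0 := 0.25) (by linarith only [hρ, hρ', helo, h3]) (by linarith only [ha1, hρ, hρ', hT, hsq0]) (by norm_num)
      have h6 : 0.405766 + 0.946702 * T + 0.350512 * T^2 - 0.138773 * (3 * 0.25^2 * T - 2 * 0.25^3) ≤
          0.4866 + 0.6 * a := by
        rw [hT]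
        have e3 : 0 ≤ a^3 := by positivity
        have e4 : a^4 ≤ 0.2025 * a^2 := by
          have h7 : a^2 ≤ 0.45^2 := pow_le_pow_left₀ ha ha1 2
          have h8 := mul_le_mul_of_nonneg_right h7 (sq_nonneg a)
          calc a^4 = a^2 * a^2 := by ring
            _ ≤ 0.45^2 * a^2 := h8
            _ = 0.2025 * a^2 := by norm_num
        nlinarith only [mul_nonneg (sq_nonneg (a - 0.33)) ha, sq_nonneg (a - 0.33), ha1, hρ, hρ', e4, ha]
      norm_num at h5 h6 ⊢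
      linarith only [h4, h5, h6]
  · have hT0 : 0 ≤ T := by nlinarith only [ha, h1, h2, hρ, hρ', hT]
    have hT1 : T ≤ 0.3334 := by nlinarith only [ha1, hρ, hρ', hT]
    have h4 := ZC_mb h (v := c - a - 0.16) (t0 := T + 0.16) (by linarith only [ha1, hρ, hρ', hT, hsq0]) (by linarith only [h1, hρ', hT]) (by nlinarith only [ha, h1, h2, hρ, hρ', hehi, hT])
      (by linarith only [ha1, hρ, hρ', hT, hsq0])
    have h5 := ZC_PM (t := T + 0.16) (t0 := 0) (by linarith only [ha, hρ, hρ', hT, hsq]) (by linarith only [ha1, hρ, hρ', hT, hsq0]) le_rfl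
    have h6 : 0.405766 + 0.946702 * (T + 0.16) + 0.350512 * (T + 0.16)^2 ≤
          1.35 * (0.4866 + 0.6 * a) := by
      have h7 : T ≤ 0.078588 + 0.62 * a := by linarith only [hT, hsq0]
      have h8 : (T + 0.16)^2 ≤ (0.238588 + 0.62 * a)^2 :=
        pow_le_pow_left₀ (by linarith only [ha, hρ, hρ', hT, hsq]) (by linarith only [hT, hsq0]) 2
      nlinarith only [ha, h1, h2, hρ, hρ', hT, h8]
    norm_num at h5 h6 ⊢
    linarith only [h4, h5, h6]

theorem io_slopeN (h : P.Star) {y : ℝ} : (1.4 ≤ y → 0.4 ≤ P.D y / P.L) ∧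
    (1.56 ≤ y → 0.4113 ≤ P.D y / P.L) ∧ P.D y / P.L ≤ 0.4127 := by
  obtain ⟨-, -, hL1, hL2⟩ := Y_pos h
  have hL := cx_L_pos h
  have hρ := h.ρ_lo
  have he := h.e_hi
  refine ⟨fun hy => ?_, fun hy => ?_, ?_⟩
  · rw [le_div_iff₀ hL]
    have h1 := D_mono h hy
    have h2 := abs_le.1 (D_app5 h (y := 1.4) (by linarith) (by linarith))
    have h3 : (1.06893 : ℝ) ≤ PD5 1.4 := by unfold PD5; norm_num
    linarith only [h2.1, hL1, hL2, h1, h2, h3]
  · rw [le_div_iff₀ hL]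
    have h1 := D_mono h hy
    have h2 := abs_le.1 (D_app5 h (y := 1.56) (by linarith) (by linarith))
    have h3 : (1.09646 : ℝ) ≤ PD5 1.56 := by unfold PD5; norm_num
    linarith only [h2.1, hL1, hL2, h1, h2, h3]
  · rcases le_total 1.24 y with h2 | h2
    · exact (io_slope h h2).2
    · have h3 := (io_slope h (y := 1.24) le_rfl).2
      refine le_trans ?_ h3
      exact div_le_div_of_nonneg_right (D_mono h h2) hL.le

end Pool.Agent.CDk.Par
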