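import Pool.Agent.CDk.D.ZP

/-!
# ZL: the lists of coefficients and the checkers of zone N
-/

open MeasureTheory Set Filter Topology

namespace Pool.Agent.CDk.Par
open Pool.Agent.CDk.ZP

def lD : List ℚ := [0, 0.99582, 0.0503, -0.15027, -0.01586, 0.0092]
def lI : List ℚ := [0, 0, 0.99582/2, 0.0503/3, -0.15027/4, -0.01586/5, 0.0092/6]
def lJ : List ℚ := [0, 0, 0, 0.99582/6, 0.0503/12, -0.15027/20, -0.01586/30, 0.0092/42]
def lK : List ℚ :=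
  [0, 0, 0, 0, 0.99582/24, 0.0503/60, -0.15027/120, -0.01586/210, 0.0092/336]
def l4 : List ℚ :=
  [0, 0, 0, 0, 0, 0.99582/120, 0.0503/360, -0.15027/840, -0.01586/1680, 0.0092/3024]

def r0l : List (List ℚ) := [[1.6400875, 1]]

def lq : List ℚ := [0.393085, 0.154611, 0.060197]
def lN : List ℚ := [1.000868, -0.013223, -0.17456, -0.004628, 0.022093]
def lG0 : List ℚ := [0.39459, -0.151631, -0.031708, 0.027182]
def lG1 : List ℚ := [0.225295, -0.206043, 0.074086, -0.006441]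
def lc : List ℚ := [1.562, 0.411, 0.06]

def bA : List (List ℚ) := [[2.665779*0.0295*0.121818, 2.665779*0.0295]]
def bB : List (List ℚ) := [[2.665779*(0.0295*0.121818 + 0.0051), 2.665779*0.0295]]

/-- right side minus the `TN` part -/
def rhsB (w0 w1 t0 t1 : ℚ) (pI : List (List ℚ)) : List (List ℚ) :=
  add2 (mul2 bB [[w0], [w1]]) (neg2 (add2 [[0.03*2.665784*t0], [0.03*2.665784*t1]]
    (mul2 [[0, 0, 0, 0.03*2.69]] pI)))

/-- `|g| ≤ q` for `g` approximated by `p` up to `e` -/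
def okq (p : List (List ℚ)) (e : ℚ) (q : List (List ℚ)) (a1 a2 r1 r2 : ℚ) : Bool :=
  pos2 (add2 (add2 q (neg2 p)) [[-e]]) 8 a1 a2 r1 r2 &&
  pos2 (add2 (add2 q (neg2 (neg2 p))) [[-e]]) 8 a1 a2 r1 r2

def okR (p : List (List ℚ)) (e : ℚ) (pI : List (List ℚ)) (w0 w1 t0 t1 a1 a2 r1 r2 : ℚ) : Bool :=
  okq p e (mul2 bA [[w0], [w1]]) a1 a2 r1 r2 && okq p e (rhsB w0 w1 t0 t1 pI) a1 a2 r1 r2

def tt1 (R1 R2 s1 s2 : ℚ) : ℚ := (s2 - s1)/(R2 - R1)
def tt0 (R1 R2 s1 s2 ω : ℚ) : ℚ := s1 - tt1 R1 R2 s1 s2 * R1 + 0.254 * ω * (R2 - R1)^2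

def pH1 : List (List ℚ) :=
  add2 (add2 (mul2 (mul2 [[2.6657815]] [lq]) (mul2 (mul2 [[], [1]] [[], [1]]) [[1/2]]))
        (neg2 (add2 (add2 (comp2 lK [[0, 1], [1]]) (neg2 [lK])) (neg2 (mul2 [[], [1]] [lJ])))))
        (neg2 (mul2 (comp2 lI [[], [1]]) [lN]))
def pH2 : List (List ℚ) :=
  add2 (mul2 [[2.6657815]] (add2 (mul2 [[], [1]] [lG0]) (neg2 [lG1])))
        (neg2 (mul2 (comp2 lI [[], [1]]) [lN]))
def pH3 : List (List ℚ) :=
  add2 (mul2 [[2.6657815]] (add2 (mul2 [[], [1]] [lG0]) (neg2 [lG1])))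
        (neg2 (mul2 [[-0.670366], [1.099962]] [lN]))
def pI12 : List (List ℚ) := add2 (comp2 lI [[], [1]]) [[0.00002]]
def pI3 : List (List ℚ) := [[-0.670326], [1.099962]]

end Pool.Agent.CDk.Par
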