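import Mathlib

/-!
# ZP: polynomials in two variables with rational coefficients, checked by the kernel

Helper file of the modules ZHs, ZHm, ZHl. A polynomial in `x, y` is the list (powers of `y`) of its
coefficients, which are lists (powers of `x`). `Ap x y f p e` says `|f - p(x, y)| ≤ e`.
-/

namespace Pool.Agent.CDk.ZP

noncomputable def ev : List ℚ → ℝ → ℝ
  | [], _ => 0
  | a :: l, t => a + t * ev l t

def padd : List ℚ → List ℚ → List ℚ
  | [], m => m
  | l, [] => l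
  | a :: l, b :: m => (a + b) :: padd l m

def psm (c : ℚ) (l : List ℚ) : List ℚ := l.map (fun x => c * x)

def pmul : List ℚ → List ℚ → List ℚ
  | [], _ => []
  | a :: l, m => padd (psm a m) (0 :: pmul l m)

def pshift (c : ℚ) : List ℚ → List ℚ
  | [] => []
  | a :: l => padd [a] (padd (psm c (pshift c l)) (0 :: pshift c l))

def pbd (r : ℚ) : List ℚ → ℚ
  | [] => 0
  | a :: l => |a| + r * pbd r l

theorem ev_padd (l m : List ℚ) (t : ℝ) : ev (padd l m) t = ev l t + ev m t := by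
  induction l generalizing m with
  | nil => simp [padd, ev]
  | cons a l ih =>
    cases m with
    | nil => simp [padd, ev]
    | cons b m => simp only [padd, ev, ih]; push_cast; ring

theorem ev_psm (c : ℚ) (l : List ℚ) (t : ℝ) : ev (psm c l) t = c * ev l t := by
  induction l with
  | nil => simp [psm, ev]
  | cons a l ih =>
    have : psm c (a :: l) = (c * a) :: psm c l := rfl
    rw [this, ev, ev, ih]; push_cast; ring

theorem ev_pmul (l m : List ℚ) (t : ℝ) : ev (pmul l m) t = ev l t * ev m t := by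
  induction l with
  | nil => simp [pmul, ev]
  | cons a l ih => rw [pmul, ev_padd, ev_psm, ev, ev, ih]; push_cast; ring

theorem ev_pshift (c : ℚ) (l : List ℚ) (s : ℝ) : ev (pshift c l) s = ev l (c + s) := by
  induction l with
  | nil => rfl
  | cons a l ih =>
    rw [pshift, ev_padd, ev_padd, ev_psm, ev, ev, ev, ev, ih]; push_cast; ring

theorem pbd_nonneg {r : ℚ} (hr : 0 ≤ r) (l : List ℚ) : 0 ≤ pbd r l := by
  induction l with
  | nil => simp [pbd]
  | cons a l ih => rw [pbd]; positivity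

theorem ev_pbd {r : ℚ} (l : List ℚ) {s : ℝ} (hs : |s| ≤ r) : |ev l s| ≤ pbd r l := by
  have hr0 : (0:ℝ) ≤ r := le_trans (abs_nonneg _) hs
  have hr : 0 ≤ r := by exact_mod_cast hr0
  induction l with
  | nil => simp [ev, pbd]
  | cons a l ih =>
    rw [ev, pbd]
    push_cast
    refine (abs_add_le _ _).trans ?_
    rw [abs_mul]
    exact add_le_add le_rfl (mul_le_mul hs ih (abs_nonneg _) hr0)

/-! ## two variables -/

noncomputable def ev2 : List (List ℚ) → ℝ → ℝ → ℝ
  | [], _, _ => 0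
  | p :: l, x, y => ev p x + y * ev2 l x y

def add2 : List (List ℚ) → List (List ℚ) → List (List ℚ)
  | [], m => m
  | l, [] => l
  | a :: l, b :: m => padd a b :: add2 l m

def sm2 (p : List ℚ) (l : List (List ℚ)) : List (List ℚ) := l.map (pmul p)

def neg2 (l : List (List ℚ)) : List (List ℚ) := sm2 [-1] l

def mul2 : List (List ℚ) → List (List ℚ) → List (List ℚ)
  | [], _ => []
  | a :: l, m => add2 (sm2 a m) ([] :: mul2 l m)

def shx (c : ℚ) (l : List (List ℚ)) : List (List ℚ) := l.map (pshift c)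

def shy (d : ℚ) : List (List ℚ) → List (List ℚ)
  | [] => []
  | a :: l => add2 [a] (add2 (sm2 [d] (shy d l)) ([] :: shy d l))

def bd2 (hx hy : ℚ) : List (List ℚ) → ℚ
  | [] => 0
  | p :: l => pbd hx p + hy * bd2 hx hy l

def low2 (hx hy : ℚ) : List (List ℚ) → ℚ
  | [] => 0
  | [] :: l => -(hy * bd2 hx hy l)
  | (a :: p) :: l => a - hx * pbd hx p - hy * bd2 hx hy l

def comp2 : List ℚ → List (List ℚ) → List (List ℚ)
  | [], _ => []
  | a :: l, m => add2 [[a]] (mul2 m (comp2 l m))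

theorem ev2_add2 (l m : List (List ℚ)) (x y : ℝ) :
    ev2 (add2 l m) x y = ev2 l x y + ev2 m x y := by
  induction l generalizing m with
  | nil => simp [add2, ev2]
  | cons a l ih =>
    cases m with
    | nil => simp [add2, ev2]
    | cons b m => simp only [add2, ev2, ih, ev_padd]; ring

theorem ev2_sm2 (p : List ℚ) (l : List (List ℚ)) (x y : ℝ) :
    ev2 (sm2 p l) x y = ev p x * ev2 l x y := by
  induction l with
  | nil => simp [sm2, ev2]
  | cons a l ih =>
    have : sm2 p (a :: l) = pmul p a :: sm2 p l := rfl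
    rw [this, ev2, ev2, ih, ev_pmul]; ring

theorem ev2_neg2 (l : List (List ℚ)) (x y : ℝ) : ev2 (neg2 l) x y = -ev2 l x y := by
  rw [neg2, ev2_sm2, ev, ev]; push_cast; ring

theorem ev2_mul2 (l m : List (List ℚ)) (x y : ℝ) :
    ev2 (mul2 l m) x y = ev2 l x y * ev2 m x y := by
  induction l with
  | nil => simp [mul2, ev2]
  | cons a l ih => rw [mul2, ev2_add2, ev2_sm2, ev2, ev2, ih, ev]; ring

theorem ev2_shx (c : ℚ) (l : List (List ℚ)) (x y : ℝ) : ev2 (shx c l) x y = ev2 l (c + x) y := by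
  induction l with
  | nil => rfl
  | cons a l ih =>
    have : shx c (a :: l) = pshift c a :: shx c l := rfl
    rw [this, ev2, ev2, ih, ev_pshift]

theorem ev2_shy (d : ℚ) (l : List (List ℚ)) (x y : ℝ) : ev2 (shy d l) x y = ev2 l x (d + y) := by
  induction l with
  | nil => rfl
  | cons a l ih =>
    rw [shy, ev2_add2, ev2_add2, ev2_sm2, ev2, ev2, ev2, ev2, ih, ev, ev, ev]; push_cast; ring

theorem ev2_comp2 (l : List ℚ) (m : List (List ℚ)) (x y : ℝ) :
    ev2 (comp2 l m) x y = ev l (ev2 m x y) := by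
  induction l with
  | nil => rfl
  | cons a l ih =>
    rw [comp2, ev2_add2, ev2_mul2, ih, ev, ev2, ev2, ev, ev]; ring

theorem ev2_bd2 {hx hy : ℚ} (l : List (List ℚ)) {x y : ℝ} (h1 : |x| ≤ hx) (h2 : |y| ≤ hy) :
    |ev2 l x y| ≤ bd2 hx hy l := by
  have hr0 : (0:ℝ) ≤ hy := le_trans (abs_nonneg _) h2
  induction l with
  | nil => simp [ev2, bd2]
  | cons a l ih =>
    rw [ev2, bd2]
    push_cast
    refine (abs_add_le _ _).trans ?_
    rw [abs_mul]
    exact add_le_add (ev_pbd a h1) (mul_le_mul h2 ih (abs_nonneg _) hr0)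

theorem low2_le {hx hy : ℚ} (l : List (List ℚ)) {x y : ℝ} (h1 : |x| ≤ hx) (h2 : |y| ≤ hy) :
    (low2 hx hy l : ℝ) ≤ ev2 l x y := by
  have hr0 : (0:ℝ) ≤ hy := le_trans (abs_nonneg _) h2
  have hx0 : (0:ℝ) ≤ hx := le_trans (abs_nonneg _) h1
  have key : ∀ l, -((hy : ℝ) * bd2 hx hy l) ≤ y * ev2 l x y := by
    intro l
    have h3 : |y * ev2 l x y| ≤ hy * bd2 hx hy l := by
      rw [abs_mul]
      exact mul_le_mul h2 (ev2_bd2 l h1 h2) (abs_nonneg _) hr0
    exact (abs_le.1 h3).1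
  match l with
  | [] => simp [low2, ev2]
  | [] :: l =>
    rw [low2, ev2, ev]
    push_cast
    linarith [key l]
  | (a :: p) :: l =>
    rw [low2, ev2, ev]
    push_cast
    have h3 : |x * ev p x| ≤ hx * pbd hx p := by
      rw [abs_mul]
      exact mul_le_mul h1 (ev_pbd p h1) (abs_nonneg _) hx0
    linarith [key l, (abs_le.1 h3).1]

/-- one cell -/
def cell2 (p : List (List ℚ)) (a b c d : ℚ) : Bool :=
  decide (0 ≤ low2 ((b - a) / 2) ((d - c) / 2) (shy ((c + d) / 2) (shx ((a + b) / 2) p)))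

/-- `p ≥ 0` on `[a, b] × [c, d]` by bisection -/
def pos2 (p : List (List ℚ)) : ℕ → ℚ → ℚ → ℚ → ℚ → Bool
  | 0, a, b, c, d => cell2 p a b c d
  | n + 1, a, b, c, d => cell2 p a b c d ||
      (if d - c ≤ b - a then pos2 p n a ((a + b) / 2) c d && pos2 p n ((a + b) / 2) b c d
        else pos2 p n a b c ((c + d) / 2) && pos2 p n a b ((c + d) / 2) d)

theorem cell2_sound {p : List (List ℚ)} {a b c d : ℚ} (h : cell2 p a b c d = true) {x y : ℝ}
    (h1 : (a:ℝ) ≤ x) (h2 : x ≤ b) (h3 : (c:ℝ) ≤ y) (h4 : y ≤ d) : 0 ≤ ev2 p x y := by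
  have h5 := of_decide_eq_true h
  have h6 := low2_le (hx := (b - a) / 2) (hy := (d - c) / 2)
    (shy ((c + d) / 2) (shx ((a + b) / 2) p)) (x := x - (a + b) / 2) (y := y - (c + d) / 2)
    (by push_cast; rw [abs_le]; constructor <;> linarith)
    (by push_cast; rw [abs_le]; constructor <;> linarith)
  rw [ev2_shy, ev2_shx] at h6
  have h7 : (((a + b) / 2 : ℚ) : ℝ) + (x - (a + b) / 2) = x := by push_cast; ring
  have h8 : (((c + d) / 2 : ℚ) : ℝ) + (y - (c + d) / 2) = y := by push_cast; ring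
  rw [h7, h8] at h6
  refine le_trans ?_ h6
  exact_mod_cast h5

theorem pos2_sound {p : List (List ℚ)} : ∀ (n : ℕ) (a b c d : ℚ), pos2 p n a b c d = true →
    ∀ x y : ℝ, (a:ℝ) ≤ x → x ≤ b → (c:ℝ) ≤ y → y ≤ d → 0 ≤ ev2 p x y := by
  intro n
  induction n with
  | zero =>
    intro a b c d h x y h1 h2 h3 h4
    exact cell2_sound h h1 h2 h3 h4
  | succ n ih =>
    intro a b c d h x y h1 h2 h3 h4
    rw [pos2, Bool.or_eq_true] at h
    rcases h with h | h
    · exact cell2_sound h h1 h2 h3 h4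
    · split_ifs at h with h5
      · rw [Bool.and_eq_true] at h
        rcases le_total x (((a + b) / 2 : ℚ) : ℝ) with h6 | h6
        · exact ih _ _ _ _ h.1 x y h1 h6 h3 h4
        · exact ih _ _ _ _ h.2 x y h6 h2 h3 h4
      · rw [Bool.and_eq_true] at h
        rcases le_total y (((c + d) / 2 : ℚ) : ℝ) with h6 | h6
        · exact ih _ _ _ _ h.1 x y h1 h2 h3 h6
        · exact ih _ _ _ _ h.2 x y h1 h2 h6 h4

/-! ## approximations -/

/-- `|f - p(x, y)| ≤ e` -/
def Ap (x y f : ℝ) (p : List (List ℚ)) (e : ℚ) : Prop := |f - ev2 p x y| ≤ e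

theorem Ap.add {x y f g : ℝ} {p q : List (List ℚ)} {d e : ℚ} (h1 : Ap x y f p d)
    (h2 : Ap x y g q e) : Ap x y (f + g) (add2 p q) (d + e) := by
  unfold Ap at *
  rw [ev2_add2]
  push_cast
  have h3 : f + g - (ev2 p x y + ev2 q x y) = (f - ev2 p x y) + (g - ev2 q x y) := by ring
  rw [h3]
  exact (abs_add_le _ _).trans (add_le_add h1 h2)

theorem Ap.neg {x y f : ℝ} {p : List (List ℚ)} {d : ℚ} (h1 : Ap x y f p d) :
    Ap x y (-f) (neg2 p) d := by
  unfold Ap at *
  rw [ev2_neg2]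
  have h3 : -f - -ev2 p x y = -(f - ev2 p x y) := by ring
  rw [h3, abs_neg]
  exact h1

theorem Ap.sub {x y f g : ℝ} {p q : List (List ℚ)} {d e : ℚ} (h1 : Ap x y f p d)
    (h2 : Ap x y g q e) : Ap x y (f - g) (add2 p (neg2 q)) (d + e) := by
  rw [sub_eq_add_neg]
  exact h1.add h2.neg

theorem Ap.mul {x y f g : ℝ} {p q : List (List ℚ)} {d e : ℚ} (X Y : ℚ) (hx : |x| ≤ X)
    (hy : |y| ≤ Y) (h1 : Ap x y f p d) (h2 : Ap x y g q e) :
    Ap x y (f * g) (mul2 p q) (d * (bd2 X Y q + e) + bd2 X Y p * e) := by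
  unfold Ap at *
  rw [ev2_mul2]
  push_cast
  have h3 : f * g - ev2 p x y * ev2 q x y =
      (f - ev2 p x y) * g + ev2 p x y * (g - ev2 q x y) := by ring
  rw [h3]
  have hb1 := ev2_bd2 p hx hy
  have hb2 := ev2_bd2 q hx hy
  have hg : |g| ≤ bd2 X Y q + e := by
    have h4 : g = ev2 q x y + (g - ev2 q x y) := by ring
    rw [h4]
    exact (abs_add_le _ _).trans (add_le_add hb2 h2)
  refine (abs_add_le _ _).trans (add_le_add ?_ ?_)
  · rw [abs_mul]
    exact mul_le_mul h1 hg (abs_nonneg _) (le_trans (abs_nonneg _) h1)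
  · rw [abs_mul]
    exact mul_le_mul hb1 h2 (abs_nonneg _) (le_trans (abs_nonneg _) hb1)

theorem Ap.const (x y : ℝ) (q : ℚ) : Ap x y q [[q]] 0 := by
  unfold Ap
  simp [ev2, ev]

theorem Ap.varx (x y : ℝ) : Ap x y x [[0, 1]] 0 := by
  unfold Ap
  simp [ev2, ev]

theorem Ap.vary (x y : ℝ) : Ap x y y [[], [1]] 0 := by
  unfold Ap
  simp [ev2, ev]

theorem Ap.num {x y f : ℝ} (q e : ℚ) (h : |f - q| ≤ e) : Ap x y f [[q]] e := by
  unfold Ap
  simpa [ev2, ev] using h

theorem Ap.comp {x y f g : ℝ} {l : List ℚ} {m : List (List ℚ)} {e : ℚ} (hg : g = ev2 m x y)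
    (h : |f - ev l g| ≤ e) : Ap x y f (comp2 l m) e := by
  unfold Ap
  rw [ev2_comp2, ← hg]
  exact h

/-- the conclusion -/
theorem Ap.le {x y f : ℝ} {p : List (List ℚ)} {e : ℚ} (h : Ap x y f p e) {q : List (List ℚ)}
    (n : ℕ) (a b c d : ℚ) (hc : pos2 (add2 (add2 q (neg2 p)) [[-e]]) n a b c d = true)
    (h1 : (a:ℝ) ≤ x) (h2 : x ≤ b) (h3 : (c:ℝ) ≤ y) (h4 : y ≤ d) : f ≤ ev2 q x y := by
  have h5 := pos2_sound n a b c d hc x y h1 h2 h3 h4
  rw [ev2_add2, ev2_add2, ev2_neg2, ev2, ev2, ev, ev] at h5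
  push_cast at h5
  have h6 := (abs_le.1 h).2
  linarith

end Pool.Agent.CDk.ZP
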