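import Pool.Agent.CDk.CX
import Pool.Agent.CDk.D.ZL
import Pool.Agent.CDk.D.ZP
import Pool.Agent.CDk.Defs
import Pool.Agent.CDk.ENC
import Pool.Agent.CDk.FNa
import Pool.Agent.CDk.FNb
import Pool.Agent.CDk.T1a

/-!
# ZHa: numerical enclosures for zone N (helper file of ZHs, ZHm, ZHl)
-/

open MeasureTheory Set Filter Topology

namespace Pool.Agent.CDk.Par
open Pool.Agent.CDk.ZP
variable {P : Par}

theorem ev_lD (y : ℝ) : ev lD y = PD y := by
  simp only [ev, lD, PD]; push_cast; ring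
theorem ev_lI (y : ℝ) : ev lI y = PI y := by
  simp only [ev, lI, PI]; push_cast; ring
theorem ev_lJ (y : ℝ) : ev lJ y = PJ y := by
  simp only [ev, lJ, PJ]; push_cast; ring
theorem ev_lK (y : ℝ) : ev lK y = PK y := by
  simp only [ev, lK, PK]; push_cast; ring

/-- `∫ K` -/
noncomputable def K4 (P : Par) (y : ℝ) : ℝ := ∫ t in (0:ℝ)..y, P.K t

theorem K4_deriv (h : P.Star) (y : ℝ) : HasDerivAt P.K4 (P.K y) y :=
  intervalIntegral.integral_hasDerivAt_right ((K_cont h).intervalIntegrable _ _)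
    (K_cont h).stronglyMeasurable.stronglyMeasurableAtFilter (K_cont h).continuousAt

theorem K4_zero (P : Par) : P.K4 0 = 0 := by
  unfold K4
  rw [intervalIntegral.integral_same]

/-- the formulas beyond `ρ` -/
theorem zh_ext (h : P.Star) {y : ℝ} (hy : P.ρ ≤ y) :
    P.I y = P.I P.ρ + P.D P.ρ * (y - P.ρ) ∧
    P.J y = P.J P.ρ + P.I P.ρ * (y - P.ρ) + P.D P.ρ * (y - P.ρ)^2/2 ∧
    P.K y = P.K P.ρ + P.J P.ρ * (y - P.ρ) + P.I P.ρ * (y - P.ρ)^2/2 + P.D P.ρ * (y - P.ρ)^3/6 := by
  have h1 : max (y - P.ρ) 0 = y - P.ρ := max_eq_left (by linarith)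
  have h2 : min y P.ρ = P.ρ := min_eq_right hy
  unfold I J K D
  rw [h1, h2, min_self, sub_self, max_self]
  refine ⟨by ring, by ring, by ring⟩

theorem Ap_congr {x y f g : ℝ} {p : List (List ℚ)} {e : ℚ} (h : Ap x y f p e) (hg : g = f) :
    Ap x y g p e := by
  rw [hg]
  exact h

theorem zh_x (h : P.Star) : |P.ρ - 1.6400875| ≤ 0.0000005 := by
  have h1 := h.ρ_lo
  have h2 := h.ρ_hi
  rw [abs_le]
  constructor <;> linarith

/-- approximations at `ρ`, in the variables `x = y - 1.6400875`, `δ = ρ - 1.6400875` -/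
theorem zh_rho (h : P.Star) (x : ℝ) :
    Ap x (P.ρ - 1.6400875) P.ρ [[1.6400875], [1]] 0 ∧
    Ap x (P.ρ - 1.6400875) (P.I P.ρ) (comp2 lI [[1.6400875], [1]]) 0.000015 ∧
    Ap x (P.ρ - 1.6400875) (P.J P.ρ) (comp2 lJ [[1.6400875], [1]]) 0.00001 ∧
    Ap x (P.ρ - 1.6400875) (P.K P.ρ) (comp2 lK [[1.6400875], [1]]) 0.00001 ∧
    Ap x (P.ρ - 1.6400875) (P.D P.ρ) (comp2 lD [[1.6400875], [1]]) 0.00015 := by
  have h0 : P.ρ = ev2 [[1.6400875], [1]] x (P.ρ - 1.6400875) := by
    simp only [ev2, ev]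
    push_cast
    ring
  have hρ : 0 ≤ P.ρ := by linarith [h.ρ_lo]
  refine ⟨?_, Ap.comp h0 ?_, Ap.comp h0 ?_, Ap.comp h0 ?_, Ap.comp h0 ?_⟩
  · unfold Ap
    rw [← h0]
    simp
  · rw [ev_lI]
    have := I_app h hρ le_rfl
    push_cast
    norm_num at this ⊢
    exact this
  · rw [ev_lJ]
    have := J_app h hρ le_rfl
    push_cast
    norm_num at this ⊢
    exact this
  · rw [ev_lK]
    have := K_app h hρ le_rfl
    push_cast
    norm_num at this ⊢
    exact this
  · rw [ev_lD]
    have := D_app h hρ le_rfl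
    push_cast
    norm_num at this ⊢
    exact this

theorem zh_two {x y f : ℝ} {p : List (List ℚ)} {e : ℚ} (h : Ap x y f p e) {q : List (List ℚ)}
    {ε : ℚ} (n : ℕ) (a b c d : ℚ)
    (hc : (pos2 (add2 (add2 (add2 q (neg2 p)) [[-e]]) [[ε]]) n a b c d &&
      pos2 (add2 (add2 (add2 p (neg2 q)) [[-e]]) [[ε]]) n a b c d) = true)
    (h1 : (a:ℝ) ≤ x) (h2 : x ≤ b) (h3 : (c:ℝ) ≤ y) (h4 : y ≤ d) : |f - ev2 q x y| ≤ ε := by
  rw [Bool.and_eq_true] at hc
  have h5 := pos2_sound n a b c d hc.1 x y h1 h2 h3 h4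
  have h6 := pos2_sound n a b c d hc.2 x y h1 h2 h3 h4
  rw [ev2_add2, ev2_add2, ev2_add2, ev2_neg2, ev2, ev2, ev, ev, ev2, ev2, ev, ev] at h5 h6
  push_cast at h5 h6
  have h7 := abs_le.1 h
  rw [abs_le]
  constructor <;> linarith [h7.1, h7.2]

theorem zh_y0 (y d : ℝ) : y = ev2 r0l (y - 1.6400875) d := by
  simp only [ev2, ev, r0l]
  push_cast
  ring

/-- the enclosures beyond `ρ` -/
theorem zh_up (h : P.Star) {y : ℝ} (h1 : P.ρ ≤ y) (h2 : y ≤ 1.85) :
    |P.K y - PK y| ≤ 0.00002 ∧ (y ≤ 1.765 → |P.J y - PJ y| ≤ 0.00003) ∧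
    (y ≤ 1.65 → |P.I y - PI y| ≤ 0.00002) := by
  obtain ⟨e1, e2, e3⟩ := zh_ext h h1
  obtain ⟨a0, aI, aJ, aK, aD⟩ := zh_rho h (y - 1.6400875)
  have hd := zh_x h
  have hρ := h.ρ_lo
  have hx : |y - 1.6400875| ≤ ((21/100 : ℚ) : ℝ) := by
    rw [abs_le]
    push_cast
    constructor <;> linarith
  have hy : |P.ρ - 1.6400875| ≤ ((1/1000000 : ℚ) : ℝ) := by
    push_cast
    refine hd.trans (by norm_num)
  have b0 : Ap (y - 1.6400875) (P.ρ - 1.6400875) (y - P.ρ) [[0, 1], [-1]] 0 := by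
    unfold Ap
    simp only [ev2, ev]
    push_cast
    have : y - P.ρ - (0 + (y - 1.6400875) * (1 + (y - 1.6400875) * 0) +
      (P.ρ - 1.6400875) * (-1 + (y - 1.6400875) * 0 + (P.ρ - 1.6400875) * 0)) = 0 := by ring
    rw [this, abs_zero]
  have b1 : Ap (y - 1.6400875) (P.ρ - 1.6400875) (1/2) [[1/2]] 0 :=
    Ap.num _ _ (by push_cast; norm_num)
  have b2 : Ap (y - 1.6400875) (P.ρ - 1.6400875) (1/6) [[1/6]] 0 :=
    Ap.num _ _ (by push_cast; norm_num)
  have c0 := hd
  rw [abs_le] at c0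
  refine ⟨?_, fun h3 => ?_, fun h3 => ?_⟩
  · have k1 := Ap_congr ((((aK.add (aJ.mul _ _ hx hy b0)).add (((aI.mul _ _ hx hy b0).mul _ _ hx hy
      b0).mul _ _ hx hy b1))).add ((((aD.mul _ _ hx hy b0).mul _ _ hx hy b0).mul _ _ hx hy b0).mul
      _ _ hx hy b2)) (g := P.K y) (by rw [e3]; ring)
    have k2 := zh_two k1 (q := comp2 lK r0l) (ε := 0.00002) 4 (-0.000001) 0.21 (-0.000001) 0.000001
      (by decide +kernel) (by push_cast; norm_num; linarith only [h1, hρ]) (by push_cast; linarith only [h2])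
      (by push_cast; norm_num; linarith only [hρ]) (by push_cast; norm_num; linarith only [c0])
    rw [ev2_comp2, ← zh_y0, ev_lK] at k2
    refine k2.trans (by norm_num)
  · have k1 := Ap_congr ((aJ.add (aI.mul _ _ hx hy b0)).add (((aD.mul _ _ hx hy b0).mul _ _ hx hy
      b0).mul _ _ hx hy b1)) (g := P.J y) (by rw [e2]; ring)
    have k2 := zh_two k1 (q := comp2 lJ r0l) (ε := 0.00003) 4 (-0.000001) 0.125 (-0.000001) 0.000001
      (by decide +kernel) (by push_cast; norm_num; linarith only [h1, hρ]) (by push_cast; linarith only [h3])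
      (by push_cast; norm_num; linarith only [hρ]) (by push_cast; norm_num; linarith only [c0])
    rw [ev2_comp2, ← zh_y0, ev_lJ] at k2
    refine k2.trans (by norm_num)
  · have hx' : |y - 1.6400875| ≤ ((1/100 : ℚ) : ℝ) := by
      rw [abs_le]
      push_cast
      constructor <;> linarith
    have k1 := Ap_congr (aI.add (aD.mul _ _ hx' hy b0)) (g := P.I y) (by rw [e1])
    have k2 := zh_two k1 (q := comp2 lI r0l) (ε := 0.00002) 4 (-0.000001) 0.01 (-0.000001) 0.000001
      (by decide +kernel) (by push_cast; norm_num; linarith only [h1, hρ]) (by push_cast; linarith only [h3])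
      (by push_cast; norm_num; linarith only [hρ]) (by push_cast; norm_num; linarith only [c0])
    rw [ev2_comp2, ← zh_y0, ev_lI] at k2
    refine k2.trans (by norm_num)

theorem zh_K (h : P.Star) {y : ℝ} (h0 : 0 ≤ y) (h1 : y ≤ 1.85) : |P.K y - PK y| ≤ 0.00002 := by
  rcases le_total y P.ρ with h2 | h2
  · exact (K_app h h0 h2).trans (by norm_num)
  · exact (zh_up h h2 h1).1

theorem zh_J (h : P.Star) {y : ℝ} (h0 : 0 ≤ y) (h1 : y ≤ 1.765) : |P.J y - PJ y| ≤ 0.00003 := by
  rcases le_total y P.ρ with h2 | h2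
  · exact (J_app h h0 h2).trans (by norm_num)
  · exact (zh_up h h2 (by linarith)).2.1 h1

theorem zh_I (h : P.Star) {y : ℝ} (h0 : 0 ≤ y) (h1 : y ≤ 1.65) : |P.I y - PI y| ≤ 0.00002 := by
  rcases le_total y P.ρ with h2 | h2
  · exact (I_app h h0 h2).trans (by norm_num)
  · exact (zh_up h h2 (by linarith)).2.2 h1

/-! ## `K4` -/

theorem zh_l4_deriv (y : ℝ) : HasDerivAt (fun t => ev l4 t) (PK y) y := by
  have h1 : (fun t : ℝ => ev l4 t) = fun t => 0.99582/120*t^5 + 0.0503/360*t^6 +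
      (-0.15027/840)*t^7 + (-0.01586/1680)*t^8 + 0.0092/3024*t^9 := by
    funext t
    simp only [ev, l4]
    push_cast
    ring
  rw [h1]
  have h2 := ((((((hasDerivAt_pow 5 y).const_mul (0.99582/120 : ℝ)).add
    ((hasDerivAt_pow 6 y).const_mul (0.0503/360 : ℝ))).add
    ((hasDerivAt_pow 7 y).const_mul (-0.15027/840 : ℝ))).add
    ((hasDerivAt_pow 8 y).const_mul (-0.01586/1680 : ℝ))).add
    ((hasDerivAt_pow 9 y).const_mul (0.0092/3024 : ℝ)))
  refine h2.congr_deriv ?_
  unfold PK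
  push_cast
  ring

theorem zh_K4_gen (h : P.Star) {y ε : ℝ} (h0 : 0 ≤ y)
    (hb : ∀ t ∈ Icc 0 y, |P.K t - PK t| ≤ ε) : |P.K4 y - ev l4 y| ≤ ε * y := by
  have hc : Continuous fun t => P.K t - PK t := by
    have h1 := K_cont h
    have h2 : Continuous PK := by unfold PK; fun_prop
    exact h1.sub h2
  have h1 := intervalIntegral.integral_eq_sub_of_hasDerivAt (a := 0) (b := y)
    (f := fun t => P.K4 t - ev l4 t) (f' := fun t => P.K t - PK t)
    (fun t _ => (K4_deriv h t).sub (zh_l4_deriv t)) (hc.intervalIntegrable _ _)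
  have h2 : ev l4 0 = 0 := by simp [ev, l4]
  rw [h2, K4_zero, sub_zero, sub_zero] at h1
  rw [← h1]
  have h3 := intervalIntegral.norm_integral_le_of_norm_le_const (a := 0) (b := y) (C := ε)
    (f := fun t => P.K t - PK t) (fun t ht => by
      rw [uIoc_of_le h0] at ht
      exact hb t ⟨ht.1.le, ht.2⟩)
  rw [sub_zero, abs_of_nonneg h0] at h3
  exact h3

theorem zh_K4 (h : P.Star) {y : ℝ} (h0 : 0 ≤ y) (h1 : y ≤ 1.765) :
    |P.K4 y - ev l4 y| ≤ 0.000036 ∧ (y ≤ 0.45 → |P.K4 y - ev l4 y| ≤ 0.0000045) := by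
  refine ⟨?_, fun h2 => ?_⟩
  · refine (zh_K4_gen h h0 (ε := 0.00002) fun t ht => zh_K h ht.1 (by linarith [ht.2])).trans ?_
    linarith
  · refine (zh_K4_gen h h0 (ε := 0.00001) fun t ht => K_app h ht.1 ?_).trans ?_
    · have := h.ρ_lo
      linarith [ht.2]
    · linarith

/-! ## the integrals -/

theorem zh_intN (h : P.Star) (q a b : ℝ) :
    ∫ v in (0:ℝ)..(b - a), (P.Y - v)^2/2 * (q - P.io (v + a)) =
      q * (P.Y^3 - (P.Y - (b - a))^3)/6 - (1/P.L) * ((P.Y - (b - a))^2/2 * P.J b +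
        (P.Y - (b - a)) * P.K b + P.K4 b - P.Y^2/2 * P.J a - P.Y * P.K a - P.K4 a) := by
  have hL := cx_L_pos h
  have hd : ∀ v, HasDerivAt (fun v => -(q * (P.Y - v)^3/6) - (1/P.L) * ((P.Y - v)^2/2 * P.J (v + a) +
      (P.Y - v) * P.K (v + a) + P.K4 (v + a))) ((P.Y - v)^2/2 * (q - P.io (v + a))) v := by
    intro v
    have h1 : HasDerivAt (fun v => P.Y - v) (-1) v := by
      have := (hasDerivAt_id v).const_sub P.Y
      simpa using this
    have hJ : HasDerivAt (fun v => P.J (v + a)) (P.I (v + a)) v :=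
      (J_deriv h (v + a)).comp_add_const v a
    have hK : HasDerivAt (fun v => P.K (v + a)) (P.J (v + a)) v :=
      (K_deriv h (v + a)).comp_add_const v a
    have h4 : HasDerivAt (fun v => P.K4 (v + a)) (P.K (v + a)) v :=
      (K4_deriv h (v + a)).comp_add_const v a
    have h5 := ((((h1.pow 3).const_mul q).div_const 6).neg).sub
      ((((((h1.pow 2).div_const 2).mul hJ).add (h1.mul hK)).add h4).const_mul (1/P.L))
    refine h5.congr_deriv ?_
    unfold io
    simp only [Pi.pow_apply]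
    field_simp
    push_cast
    ring
  have hc : Continuous fun v => (P.Y - v)^2/2 * (q - P.io (v + a)) := by
    have := cx_cont h
    fun_prop
  rw [intervalIntegral.integral_eq_sub_of_hasDerivAt (fun v _ => hd v) (hc.intervalIntegrable _ _)]
  have e1 : b - a + a = b := by ring
  rw [e1, zero_add]
  ring

theorem zh_int0 (h : P.Star) (q a b : ℝ) :
    ∫ v in (0:ℝ)..(b - a), (q - P.io (v + a)) = q * (b - a) - (P.J b - P.J a)/P.L := by
  have hL := cx_L_pos h
  have hd : ∀ v, HasDerivAt (fun v => q * v - P.J (v + a)/P.L) (q - P.io (v + a)) v := by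
    intro v
    have hJ : HasDerivAt (fun v => P.J (v + a)) (P.I (v + a)) v :=
      (J_deriv h (v + a)).comp_add_const v a
    have h5 := ((hasDerivAt_id v).const_mul q).sub (hJ.div_const P.L)
    refine h5.congr_deriv ?_
    unfold io
    ring
  have hc : Continuous fun v => (q - P.io (v + a)) := by
    have := cx_cont h
    fun_prop
  rw [intervalIntegral.integral_eq_sub_of_hasDerivAt (fun v _ => hd v) (hc.intervalIntegrable _ _)]
  have e1 : b - a + a = b := by ring
  rw [e1, zero_add]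
  ring

theorem zh_int1 (h : P.Star) (q a b : ℝ) :
    ∫ v in (0:ℝ)..(b - a), v * (q - P.io (v + a)) =
      q * (b - a)^2/2 - ((b - a) * P.J b - P.K b + P.K a)/P.L := by
  have hL := cx_L_pos h
  have hd : ∀ v, HasDerivAt (fun v => q * v^2/2 - (v * P.J (v + a) - P.K (v + a))/P.L)
      (v * (q - P.io (v + a))) v := by
    intro v
    have hJ : HasDerivAt (fun v => P.J (v + a)) (P.I (v + a)) v :=
      (J_deriv h (v + a)).comp_add_const v a
    have hK : HasDerivAt (fun v => P.K (v + a)) (P.J (v + a)) v :=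
      (K_deriv h (v + a)).comp_add_const v a
    have h5 := (((hasDerivAt_pow 2 v).const_mul q).div_const 2).sub
      ((((hasDerivAt_id v).mul hJ).sub hK).div_const P.L)
    refine h5.congr_deriv ?_
    unfold io
    simp only [id]
    field_simp
    push_cast
    ring
  have hc : Continuous fun v => v * (q - P.io (v + a)) := by
    have := cx_cont h
    fun_prop
  rw [intervalIntegral.integral_eq_sub_of_hasDerivAt (fun v _ => hd v) (hc.intervalIntegrable _ _)]
  have e1 : b - a + a = b := by ring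
  rw [e1, zero_add]
  ring

theorem zh_intr (h : P.Star) (q a r : ℝ) :
    ∫ v in (0:ℝ)..r, (r - v) * (q - P.io (v + a)) =
      q * r^2/2 - (P.K (a + r) - P.K a - r * P.J a)/P.L := by
  have hL := cx_L_pos h
  have hd : ∀ v, HasDerivAt (fun v => -(q * (r - v)^2/2) - ((r - v) * P.J (v + a) + P.K (v + a))/P.L)
      ((r - v) * (q - P.io (v + a))) v := by
    intro v
    have h1 : HasDerivAt (fun v => r - v) (-1) v := by
      have := (hasDerivAt_id v).const_sub r
      simpa using this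
    have hJ : HasDerivAt (fun v => P.J (v + a)) (P.I (v + a)) v :=
      (J_deriv h (v + a)).comp_add_const v a
    have hK : HasDerivAt (fun v => P.K (v + a)) (P.J (v + a)) v :=
      (K_deriv h (v + a)).comp_add_const v a
    have h5 := ((((h1.pow 2).const_mul q).div_const 2).neg).sub
      (((h1.mul hJ).add hK).div_const P.L)
    refine h5.congr_deriv ?_
    unfold io
    field_simp
    push_cast
    ring
  have hc : Continuous fun v => (r - v) * (q - P.io (v + a)) := by
    have := cx_cont h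
    fun_prop
  rw [intervalIntegral.integral_eq_sub_of_hasDerivAt (fun v _ => hd v) (hc.intervalIntegrable _ _)]
  rw [zero_add, add_comm r a]
  ring

/-! ## slopes of `ι`, the crossing -/

theorem zh_D_le (h : P.Star) (y : ℝ) : P.D y ≤ 1.1 := by
  have hρ := h.ρ_lo
  have hρ' := h.ρ_hi
  have h3 := abs_le.1 (D_app5 h (y := 1.640087) (by linarith [h.e_hi]) hρ.le)
  have h4 : PD5 1.640087 ≤ 1.09998 := by unfold PD5; norm_num
  have h5 : P.D P.ρ - P.D 1.640087 ≤ P.ρ - 1.640087 := D_lip h hρ.le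
  have h6 : P.D y ≤ P.D P.ρ := by
    rcases le_total y P.ρ with h10 | h10
    · exact D_mono h h10
    · rw [D_const h h10]
  linarith only [h3.2, hρ, hρ', h3, h4, h5, h6]

theorem zh_lip (h : P.Star) {x y : ℝ} (hxy : x ≤ y) :
    0 ≤ P.io y - P.io x ∧ P.io y - P.io x ≤ 0.4127 * (y - x) := by
  have hL := cx_L_pos h
  obtain ⟨hY1, hY2, hL1, hL2⟩ := Y_pos h
  refine ⟨by linarith [cx_mono h hxy], ?_⟩
  rcases hxy.eq_or_lt with rfl | hlt
  · simp
  · obtain ⟨ξ, h6, h7⟩ := exists_hasDerivAt_eq_slope P.I P.D hlt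
      (fun x _ => (I_deriv h x).continuousAt.continuousWithinAt) (fun x _ => I_deriv h x)
    rw [eq_div_iff (by linarith)] at h7
    have h8 := zh_D_le h ξ
    have e1 : P.io y - P.io x = (P.I y - P.I x) / P.L := by unfold io; ring
    rw [e1, div_le_iff₀ hL, ← h7]
    have h9 : P.D ξ * (y - x) ≤ 1.1 * (y - x) := mul_le_mul_of_nonneg_right h8 (by linarith)
    nlinarith only [hlt, h9, hxy, hL1]

/-- the value of the quotient -/
noncomputable def zq (P : Par) (a : ℝ) : ℝ := (1 - P.J a / P.L) / (P.Y - a)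

theorem zh_m (h : P.Star) {a : ℝ} (ha1 : a ≤ 0.45) : P.L * (P.Y - a) * P.zq a = P.L - P.J a := by
  have hL := cx_L_pos h
  obtain ⟨hY1, hY2, hL1, hL2⟩ := Y_pos h
  have h1 : P.Y - a ≠ 0 := by
    intro h2
    linarith
  unfold zq
  field_simp

theorem zh_gpos (h : P.Star) {a c q v : ℝ} (hc : P.io c = q) (hv : v ≤ c - a) :
    max (q - P.io (v + a)) 0 = q - P.io (v + a) := by
  apply max_eq_left
  have := cx_mono h (show v + a ≤ c by linarith)
  linarith

theorem zh_gzero (h : P.Star) {a c q v : ℝ} (hc : P.io c = q) (hv : c - a ≤ v) :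
    max (q - P.io (v + a)) 0 = 0 := by
  apply max_eq_right
  have := cx_mono h (show c ≤ v + a by linarith)
  linarith

theorem zh_gcont (h : P.Star) (q a : ℝ) : Continuous fun v => max (q - P.io (v + a)) 0 := by
  have := cx_cont h
  fun_prop

theorem zh_gint (h : P.Star) {a c q Z : ℝ} (hc : P.io c = q) {φ : ℝ → ℝ} (hφ : Continuous φ)
    (h0 : 0 ≤ c - a) (hZ : c - a ≤ Z) :
    ∫ v in (0:ℝ)..Z, φ v * max (q - P.io (v + a)) 0 =
      ∫ v in (0:ℝ)..(c - a), φ v * (q - P.io (v + a)) := by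
  have hcc : Continuous fun v => φ v * max (q - P.io (v + a)) 0 := hφ.mul (zh_gcont h q a)
  rw [← intervalIntegral.integral_add_adjacent_intervals (hcc.intervalIntegrable 0 (c - a))
    (hcc.intervalIntegrable (c - a) Z)]
  have h1 : ∫ v in (c - a)..Z, φ v * max (q - P.io (v + a)) 0 = 0 := by
    rw [intervalIntegral.integral_congr (g := fun _ => (0:ℝ))]
    · simp
    · intro v hv
      rw [uIcc_of_le hZ] at hv
      show φ v * max (q - P.io (v + a)) 0 = 0
      rw [zh_gzero h hc hv.1, mul_zero]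
  rw [h1, add_zero]
  refine intervalIntegral.integral_congr fun v hv => ?_
  rw [uIcc_of_le h0] at hv
  show φ v * max (q - P.io (v + a)) 0 = φ v * (q - P.io (v + a))
  rw [zh_gpos h hc hv.2]

theorem zh_cut (h : P.Star) {a c q R0 M : ℝ} (hc : P.io c = q) {φ : ℝ → ℝ} (hφ : Continuous φ)
    (hM : ∀ v ∈ uIcc R0 (c - a), |φ v| ≤ M) :
    |(∫ v in (0:ℝ)..(c - a), φ v * (q - P.io (v + a))) - ∫ v in (0:ℝ)..R0, φ v * (q - P.io (v + a))|
      ≤ M * 0.4127 * (c - a - R0)^2 := by
  have hcc : Continuous fun v => φ v * (q - P.io (v + a)) := by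
    have := cx_cont h
    fun_prop
  rw [intervalIntegral.integral_interval_sub_left (hcc.intervalIntegrable _ _)
    (hcc.intervalIntegrable _ _)]
  have hM0 : 0 ≤ M := le_trans (abs_nonneg _) (hM R0 left_mem_uIcc)
  have h1 := intervalIntegral.norm_integral_le_of_norm_le_const (a := R0) (b := c - a)
    (C := M * (0.4127 * |c - a - R0|)) (f := fun v => φ v * (q - P.io (v + a))) (fun v hv => by
      have hv' : v ∈ uIcc R0 (c - a) := uIoc_subset_uIcc hv
      rw [Real.norm_eq_abs, abs_mul]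
      refine mul_le_mul (hM v hv') ?_ (abs_nonneg _) hM0
      have h2 : |v + a - c| ≤ |c - a - R0| := by
        rcases le_total R0 (c - a) with h3 | h3
        · rw [uIcc_of_le h3] at hv'
          rw [abs_of_nonneg (by linarith : 0 ≤ c - a - R0), abs_le]
          constructor <;> linarith [hv'.1, hv'.2]
        · rw [uIcc_of_ge h3] at hv'
          rw [abs_of_nonpos (by linarith : c - a - R0 ≤ 0), abs_le]
          constructor <;> linarith [hv'.1, hv'.2]
      have h4 : |q - P.io (v + a)| ≤ 0.4127 * |v + a - c| := by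
        rw [← hc]
        rcases le_total c (v + a) with h5 | h5
        · obtain ⟨h6, h7⟩ := zh_lip h h5
          rw [abs_of_nonpos (by linarith), abs_of_nonneg (by linarith : 0 ≤ v + a - c)]
          linarith
        · obtain ⟨h6, h7⟩ := zh_lip h h5
          rw [abs_of_nonneg (by linarith), abs_of_nonpos (by linarith : v + a - c ≤ 0)]
          linarith
      linarith)
  rw [Real.norm_eq_abs] at h1
  refine h1.trans (le_of_eq ?_)
  rw [← sq_abs (c - a - R0)]
  ring

/-! ## the cosh integral -/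

theorem zh_cosh_bd {t : ℝ} (h0 : 0 ≤ t) (h1 : t ≤ 0.45) :
    |Real.cosh t - 1 - t^2/2| ≤ 0.0434 * t^4 ∧ |Real.sinh t - t| ≤ 0.1686 * t^3 := by
  have ht : |t| ≤ 1 := by rw [abs_of_nonneg h0]; linarith
  have h2 := Real.exp_bound ht (show 0 < 6 by norm_num)
  have h3 := Real.exp_bound (x := -t) (by rwa [abs_neg]) (show 0 < 6 by norm_num)
  rw [abs_neg] at h3
  simp only [Finset.sum_range_succ, Finset.sum_range_zero, Nat.factorial] at h2 h3
  rw [abs_of_nonneg h0] at h2 h3
  norm_num at h2 h3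
  rw [abs_le] at h2 h3
  have h5 : t^6 ≤ 0.2025 * t^4 := by
    have : t^2 ≤ 0.2025 := by nlinarith only [h1, h0]
    have h6 : 0 ≤ t^4 := by positivity
    nlinarith only [this, h6]
  have h7 : t^6 ≤ 0.091125 * t^3 := by
    have : t^3 ≤ 0.091125 := by
      have h8 : t^3 ≤ 0.45^3 := pow_le_pow_left₀ h0 h1 3
      norm_num at h8 ⊢
      exact h8
    have h6 : 0 ≤ t^3 := by positivity
    nlinarith only [h5, h1, h6]
  have h8 : t^5 ≤ 0.2025 * t^3 := by
    have : t^2 ≤ 0.2025 := by nlinarith only [h1, h0]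
    have h6 : 0 ≤ t^3 := by positivity
    nlinarith
  have h9 : 0 ≤ t^4 := by positivity
  have h10 : 0 ≤ t^3 := by positivity
  have h11 : 0 ≤ t^5 := by positivity
  rw [Real.cosh_eq, Real.sinh_eq]
  constructor
  · rw [abs_le]
    constructor
    · nlinarith only [h2.1, h3.1, h2, h3, h5]
    · nlinarith only [h2.2, h3.2, h2, h3, h5]
  · rw [abs_le]
    constructor
    · nlinarith only [h2.1, h3.2, h2, h3, h7, h11]
    · nlinarith only [h2.2, h3.1, h2, h3, h7, h8]

theorem zh_C (h : P.Star) : 1.127896 ≤ Real.cosh P.s ∧ Real.cosh P.s ≤ 1.1279 := by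
  obtain ⟨h1, h2⟩ := sg_bd h
  have h3 := Real.cosh_sq P.s
  have h4 := Real.one_le_cosh P.s
  have h5 : P.sg = Real.sinh P.s := rfl
  rw [← h5] at h3
  constructor
  · nlinarith only [h3, h1, h2, h4]
  · nlinarith only [h3, h1, h2, h4]

theorem zh_VN (h : P.Star) {a : ℝ} (ha : 0 ≤ a) (ha1 : a ≤ 0.45) :
    |P.L * (∫ y in (0:ℝ)..a, Real.cosh (P.s - a + y) * P.io y) -
      (Real.cosh P.s * P.J a - P.sg * P.K a + Real.cosh P.s * P.K4 a)| ≤ 0.000032 := by
  have hL := cx_L_pos h
  obtain ⟨hC1, hC2⟩ := zh_C h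
  obtain ⟨hS1, hS2⟩ := sg_bd h
  have h5 : P.sg = Real.sinh P.s := rfl
  obtain ⟨C, hC⟩ : ∃ C, C = Real.cosh P.s := ⟨_, rfl⟩
  obtain ⟨S, hS⟩ : ∃ S, S = P.sg := ⟨_, rfl⟩
  rw [← hC] at hC1 hC2
  rw [← hS] at hS1 hS2
  have hI := I_cont h
  have hc1 : Continuous fun y => Real.cosh (P.s - a + y) * P.I y := by fun_prop
  have hc2 : Continuous fun y => (C * (1 + (a - y)^2/2) - S * (a - y)) * P.I y := by fun_prop
  have h1 : P.L * (∫ y in (0:ℝ)..a, Real.cosh (P.s - a + y) * P.io y) =
      ∫ y in (0:ℝ)..a, Real.cosh (P.s - a + y) * P.I y := by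
    rw [← intervalIntegral.integral_const_mul]
    refine intervalIntegral.integral_congr fun y _ => ?_
    show P.L * (Real.cosh (P.s - a + y) * P.io y) = Real.cosh (P.s - a + y) * P.I y
    unfold io
    field_simp
  have hd : ∀ y, HasDerivAt (fun y => (C * (1 + (a - y)^2/2) - S * (a - y)) * P.J y +
      (C * (a - y) - S) * P.K y + C * P.K4 y)
      ((C * (1 + (a - y)^2/2) - S * (a - y)) * P.I y) y := by
    intro y
    have e1 : HasDerivAt (fun y => a - y) (-1) y := by
      have := (hasDerivAt_id y).const_sub a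
      simpa using this
    have e2 := (((((e1.pow 2).div_const 2).const_add 1).const_mul C).sub (e1.const_mul S)).mul
      (J_deriv h y)
    have e3 := ((e1.const_mul C).sub_const S).mul (K_deriv h y)
    have e4 := (K4_deriv h y).const_mul C
    refine ((e2.add e3).add e4).congr_deriv ?_
    simp only [Pi.pow_apply, Pi.add_apply, Pi.sub_apply]
    push_cast
    ring
  have h2 := intervalIntegral.integral_eq_sub_of_hasDerivAt (a := 0) (b := a) (fun y _ => hd y)
    (hc2.intervalIntegrable _ _)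
  rw [J_zero h le_rfl, K_zero h le_rfl, K4_zero, sub_self] at h2
  have h3 : Real.cosh P.s * P.J a - P.sg * P.K a + Real.cosh P.s * P.K4 a =
      ∫ y in (0:ℝ)..a, (C * (1 + (a - y)^2/2) - S * (a - y)) * P.I y := by
    rw [h2, ← hC, ← hS]
    ring
  rw [h1, h3, ← intervalIntegral.integral_sub (hc1.intervalIntegrable _ _)
    (hc2.intervalIntegrable _ _)]
  have h4 := intervalIntegral.norm_integral_le_of_norm_le_const (a := 0) (b := a)
    (C := 0.00007) (f := fun y => Real.cosh (P.s - a + y) * P.I y -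
      (C * (1 + (a - y)^2/2) - S * (a - y)) * P.I y) (fun y hy => by
      rw [uIoc_of_le ha] at hy
      obtain ⟨k1, k2⟩ := zh_cosh_bd (t := a - y) (by linarith [hy.2]) (by linarith only [hy.1, ha1, hy])
      have k3 : Real.cosh (P.s - a + y) = C * Real.cosh (a - y) - S * Real.sinh (a - y) := by
        rw [hC, hS, h5, ← Real.cosh_sub]
        congr 1
        ring
      have k4 : P.I y ≤ y^2/2 := t1_I_sq h hy.1.le
      have k5 := I_nonneg h y
      rw [Real.norm_eq_abs, k3]
      have k6 : (C * Real.cosh (a - y) - S * Real.sinh (a - y)) * P.I y -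
          (C * (1 + (a - y)^2/2) - S * (a - y)) * P.I y =
          (C * (Real.cosh (a - y) - 1 - (a - y)^2/2) - S * (Real.sinh (a - y) - (a - y))) *
            P.I y := by ring
      rw [k6, abs_mul, abs_of_nonneg k5]
      obtain ⟨t, ht⟩ : ∃ t, t = a - y := ⟨_, rfl⟩
      rw [← ht] at k1 k2 ⊢
      have ht0 : 0 ≤ t := by rw [ht]; linarith only [hy.2, hy]
      have hy0 : 0 ≤ y := hy.1.le
      have hty : t + y ≤ 0.45 := by rw [ht]; linarith only [ha1]
      have k7 : |C * (Real.cosh t - 1 - t^2/2) - S * (Real.sinh t - t)| ≤ 0.11 * t^3 := by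
        have j1 : |C * (Real.cosh t - 1 - t^2/2)| ≤ 1.1279 * (0.0434 * t^4) := by
          rw [abs_mul, abs_of_nonneg (by linarith only [hC1, hS2, hS1] : 0 ≤ C)]
          exact mul_le_mul hC2 k1 (abs_nonneg _) (by norm_num)
        have j2 : |S * (Real.sinh t - t)| ≤ 0.521684 * (0.1686 * t^3) := by
          rw [abs_mul, abs_of_nonneg (by linarith only [hS2, hS1] : 0 ≤ S)]
          exact mul_le_mul hS2.le k2 (abs_nonneg _) (by norm_num)
        refine (abs_sub _ _).trans ?_
        have j3 : t^4 ≤ 0.45 * t^3 := by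
          have : 0 ≤ t^3 := by positivity
          nlinarith only [ha1, this, hS2, hS1, ht, hy0]
        have : 0 ≤ t^3 := by positivity
        linarith only [j1, j2, j3, this]
      have k8 : |C * (Real.cosh t - 1 - t^2/2) - S * (Real.sinh t - t)| * P.I y ≤
          (0.11 * t^3) * (y^2/2) := mul_le_mul k7 k4 k5 (by positivity)
      refine k8.trans ?_
      have m1 : t * y ≤ 0.050625 := by nlinarith only [sq_nonneg (t - y), ha1, ha, ht, hS2, hS1]
      have m2 : 0 ≤ t * y := by positivity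
      have m3 : (t * y)^2 ≤ 0.0025629 := by nlinarith only [m1, hS2, hS1, m2]
      have m4 : t ≤ 0.45 := by linarith only [ha1, ht, hy0]
      have m5 : (t * y)^2 * t ≤ 0.0025629 * 0.45 := mul_le_mul m3 m4 ht0 (by norm_num)
      have m6 : (0.11 * t^3) * (y^2/2) = 0.055 * ((t * y)^2 * t) := by ring
      rw [m6]
      linarith only [hS2, hS1, m5])
  rw [Real.norm_eq_abs, sub_zero, abs_of_nonneg ha] at h4
  refine h4.trans ?_
  linarith only [ha1, hS2, hS1]

end Pool.Agent.CDk.Par
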