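import Pool.Agent.CDk.CX
import Pool.Agent.CDk.D.ZHa
import Pool.Agent.CDk.D.ZP
import Pool.Agent.CDk.Defs
import Pool.Agent.CDk.ENC
import Pool.Agent.CDk.FNa

/-!
# ZHb: the enclosures of `q`, `NN`, `G0`, `G1` in zone N (helper file of ZHs, ZHm, ZHl)
-/

open MeasureTheory Set Filter Topology

namespace Pool.Agent.CDk.Par
open Pool.Agent.CDk.ZP
variable {P : Par}

theorem Ap_weak {x y f g : ℝ} {p : List (List ℚ)} {e δ : ℚ} (h : Ap x y g p e)
    (h1 : |f - g| ≤ δ) : Ap x y f p (e + δ) := by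
  unfold Ap at *
  push_cast
  have h2 : f - ev2 p x y = (g - ev2 p x y) + (f - g) := by ring
  rw [h2]
  exact (abs_add_le _ _).trans (add_le_add h h1)

theorem Ap_row {x y f : ℝ} {p : List ℚ} {e : ℚ} (h1 : |f - ev p x| ≤ e) : Ap x y f [p] e := by
  unfold Ap
  simpa [ev2] using h1

/-- the common data at `a` -/
theorem zh_atoms (h : P.Star) {a : ℝ} (ha : 0 ≤ a) (ha1 : a ≤ 0.45) (r : ℝ) :
    Ap a r P.Y [[2.543963]] 0.000002 ∧ Ap a r P.L [[2.6657815]] 0.0000025 ∧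
    Ap a r P.sg [[0.521682]] 0.000002 ∧ Ap a r (Real.cosh P.s) [[1.127898]] 0.000002 ∧
    Ap a r (P.J a) [lJ] 0.00001 ∧ Ap a r (P.K a) [lK] 0.00001 ∧
    Ap a r (P.K4 a) [l4] 0.0000045 := by
  obtain ⟨hY1, hY2, hL1, hL2⟩ := Y_pos h
  obtain ⟨hS1, hS2⟩ := sg_bd h
  obtain ⟨hC1, hC2⟩ := zh_C h
  have hρ := h.ρ_lo
  refine ⟨Ap.num _ _ ?_, Ap.num _ _ ?_, Ap.num _ _ ?_, Ap.num _ _ ?_, Ap_row ?_, Ap_row ?_,
    Ap_row ?_⟩
  · rw [abs_le]; push_cast; constructor <;> linarith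
  · rw [abs_le]; push_cast; constructor <;> linarith
  · rw [abs_le]; push_cast; constructor <;> linarith
  · rw [abs_le]; push_cast; constructor <;> linarith
  · rw [ev_lJ]
    refine (J_app h ha (by linarith only [ha1, hS1, hS2, hρ])).trans ?_
    norm_num
  · rw [ev_lK]
    refine (K_app h ha (by linarith only [ha1, hS1, hS2, hρ])).trans ?_
    norm_num
  · refine ((zh_K4 h ha (by linarith only [ha1, hS1, hS2])).2 ha1).trans ?_
    norm_num

/-- the data at the cut `c0 = 1.562 + 0.411 a + 0.06 a^2` -/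
theorem zh_atomc (h : P.Star) {a : ℝ} (ha : 0 ≤ a) (ha1 : a ≤ 0.45) (r : ℝ) :
    Ap a r (ev lc a) [lc] 0 ∧ Ap a r (P.J (ev lc a)) (comp2 lJ [lc]) 0.00003 ∧
    Ap a r (P.K (ev lc a)) (comp2 lK [lc]) 0.00002 ∧
    Ap a r (P.K4 (ev lc a)) (comp2 l4 [lc]) 0.000036 := by
  have h0 : ev lc a = ev2 [lc] a r := by simp [ev2]
  have h1 : ev lc a = 1.562 + 0.411 * a + 0.06 * a^2 := by
    simp only [ev, lc]
    push_cast
    ring
  have h2 : 0 ≤ ev lc a := by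
    rw [h1]
    positivity
  have h3 : ev lc a ≤ 1.765 := by
    rw [h1]
    nlinarith only [ha1, ha]
  refine ⟨?_, Ap.comp h0 ?_, Ap.comp h0 ?_, Ap.comp h0 ?_⟩
  · unfold Ap
    rw [← h0]
    simp
  · rw [ev_lJ]
    refine (zh_J h h2 h3).trans ?_
    norm_num
  · rw [ev_lK]
    refine (zh_K h h2 (by linarith only [h3])).trans ?_
    norm_num
  · refine (zh_K4 h h2 h3).1.trans ?_
    norm_num

theorem zh_div (h : P.Star) {a f g ε δ : ℝ} (ha1 : a ≤ 0.45)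
    (h1 : |P.L * (P.Y - a) * f - P.L * (P.Y - a) * g| ≤ ε) (h2 : ε ≤ 5.58 * δ) : |f - g| ≤ δ := by
  obtain ⟨hY1, hY2, hL1, hL2⟩ := Y_pos h
  have h3 : 5.58 ≤ P.L * (P.Y - a) := by nlinarith only [ha1, hY1, hL1, hL2]
  rw [← mul_sub, abs_mul, abs_of_nonneg (by linarith only [hL1, hL2, h3] : 0 ≤ P.L * (P.Y - a))] at h1
  have h4 := abs_nonneg (f - g)
  nlinarith only [h1, h2, hL1, hL2, h3, h4]

theorem zh_q (h : P.Star) {a : ℝ} (ha : 0 ≤ a) (ha1 : a ≤ 0.45) :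
    |P.zq a - ev lq a| ≤ 0.000008 := by
  obtain ⟨aY, aL, aS, aC, aJ, aK, a4⟩ := zh_atoms h ha ha1 0
  have hx : |a| ≤ ((45/100 : ℚ) : ℝ) := by
    rw [abs_of_nonneg ha]
    push_cast
    linarith only [ha1]
  have hy : |(0:ℝ)| ≤ ((0 : ℚ) : ℝ) := by simp
  have ap : Ap a 0 (ev lq a) [lq] 0 := Ap_row (by simp)
  have k1 := Ap_congr ((aL.sub aJ).sub (((aL.mul _ _ hx hy (aY.sub (Ap.varx a 0))).mul _ _ hx hy ap)))
    (g := P.L * (P.Y - a) * P.zq a - P.L * (P.Y - a) * ev lq a) (by rw [zh_m h ha1])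
  have k2 := zh_two k1 (q := [[0]]) (ε := 0.0000446) 5 0 0.45 0 0
    (by decide +kernel) (by push_cast; linarith) (by push_cast; linarith only [ha1]) (by simp) (by simp)
  refine zh_div h ha1 (ε := 0.0000446) ?_ (by norm_num)
  have k3 : ev2 [[0]] a 0 = 0 := by simp [ev2, ev]
  rw [k3, sub_zero] at k2
  refine k2.trans ?_
  norm_num

/-- the bounds of the crossing -/
def CB (a c : ℝ) : Prop := 1.5615 + 0.38 * a + 0.12 * a^2 ≤ c ∧ c ≤ 1.5625 + 0.442 * a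

theorem zh_CB {a c : ℝ} (ha : 0 ≤ a) (ha1 : a ≤ 0.45) (hc : CB a c) :
    1.3068 ≤ c - a ∧ c - a ≤ 1.5625 ∧ |c - a - (ev lc a - a)| ≤ 0.0046 ∧
    1.3068 ≤ ev lc a - a ∧ ev lc a - a ≤ 1.5625 := by
  have h1 : ev lc a = 1.562 + 0.411 * a + 0.06 * a^2 := by
    simp only [ev, lc]
    push_cast
    ring
  obtain ⟨h2, h3⟩ := hc
  rw [h1]
  refine ⟨by nlinarith only [ha1, h2], by nlinarith only [ha, h3], ?_, by nlinarith only [ha1, ha], by nlinarith only [ha, h2, h3]⟩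
  rw [abs_le]
  constructor
  · nlinarith only [sq_nonneg (a - 0.2583), ha1, h2]
  · nlinarith only [sq_nonneg (a - 0.2583), ha1, h3]

/-- the cut with the numbers -/
theorem zh_cut2 (h : P.Star) {a c M : ℝ} (ha : 0 ≤ a) (ha1 : a ≤ 0.45) (hc : P.io c = P.zq a)
    (hcb : CB a c) {φ : ℝ → ℝ} (hφ : Continuous φ)
    (hM : ∀ v, 1.3068 ≤ v → v ≤ 1.5625 → |φ v| ≤ M) (hM0 : 0 ≤ M) :
    |(∫ v in (0:ℝ)..P.Y, φ v * max (P.zq a - P.io (v + a)) 0) -
      ∫ v in (0:ℝ)..(ev lc a - a), φ v * (P.zq a - P.io (v + a))| ≤ M * 0.0000088 := by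
  obtain ⟨hY1, hY2, hL1, hL2⟩ := Y_pos h
  obtain ⟨c1, c2, c3, c4, c5⟩ := zh_CB ha ha1 hcb
  rw [zh_gint h hc hφ (by linarith only [hL1, hL2, c1]) (by linarith only [hY1, hL1, hL2, c2])]
  refine (zh_cut h hc hφ (R0 := ev lc a - a) (M := M) fun v hv => ?_).trans ?_
  · rcases le_total (ev lc a - a) (c - a) with h1 | h1
    · rw [uIcc_of_le h1] at hv
      exact hM v (by linarith only [hv.1, c4, hv]) (by linarith only [hv.2, c2, hv])
    · rw [uIcc_of_ge h1] at hv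
      exact hM v (by linarith only [hv.1, c1, hv]) (by linarith only [hv.2, c5, hv])
  · have h2 : (c - a - (ev lc a - a))^2 ≤ 0.0046^2 := by
      rw [← sq_abs]
      exact pow_le_pow_left₀ (abs_nonneg _) c3 2
    have h3 : M * 0.4127 * (c - a - (ev lc a - a))^2 ≤ M * 0.4127 * 0.0046^2 :=
      mul_le_mul_of_nonneg_left h2 (by positivity)
    refine h3.trans ?_
    rw [mul_assoc]
    exact mul_le_mul_of_nonneg_left (by norm_num) hM0

theorem zh_G0 (h : P.Star) {a c : ℝ} (ha : 0 ≤ a) (ha1 : a ≤ 0.45) (hc : P.io c = P.zq a)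
    (hcb : CB a c) :
    |(∫ v in (0:ℝ)..P.Y, 1 * max (P.zq a - P.io (v + a)) 0) - ev lG0 a| ≤ 0.000042 := by
  obtain ⟨aY, aL, aS, aC, aJ, aK, a4⟩ := zh_atoms h ha ha1 0
  obtain ⟨ac, acJ, acK, ac4⟩ := zh_atomc h ha ha1 0
  have hx : |a| ≤ ((45/100 : ℚ) : ℝ) := by
    rw [abs_of_nonneg ha]
    push_cast
    linarith only [ha1]
  have hy : |(0:ℝ)| ≤ ((0 : ℚ) : ℝ) := by simp
  have hL := cx_L_pos h
  have h1 := zh_cut2 h ha ha1 hc hcb (φ := fun _ => 1) (M := 1) continuous_const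
    (fun v _ _ => by norm_num) (by norm_num)
  beta_reduce at h1
  have h2 := zh_int0 h (P.zq a) a (ev lc a)
  have h3 : ∫ v in (0:ℝ)..(ev lc a - a), 1 * (P.zq a - P.io (v + a)) =
      P.zq a * (ev lc a - a) - (P.J (ev lc a) - P.J a)/P.L := by
    rw [← h2]
    refine intervalIntegral.integral_congr fun v _ => ?_
    show 1 * (P.zq a - P.io (v + a)) = P.zq a - P.io (v + a)
    ring
  rw [h3] at h1
  have ap : Ap a 0 (ev lG0 a) [lG0] 0 := Ap_row (by simp)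
  have ax := Ap.varx a 0
  have e1 := zh_m h ha1
  have k1 := Ap_congr ((((aL.sub aJ).mul _ _ hx hy (ac.sub ax)).sub
    ((aY.sub ax).mul _ _ hx hy (acJ.sub aJ))).sub
    (((aL.mul _ _ hx hy (aY.sub ax)).mul _ _ hx hy ap)))
    (g := P.L * (P.Y - a) * (P.zq a * (ev lc a - a) - (P.J (ev lc a) - P.J a)/P.L) -
      P.L * (P.Y - a) * ev lG0 a) (by
      rw [← e1]
      field_simp)
  have k2 := zh_two k1 (q := [[0]]) (ε := 0.000181) 5 0 0.45 0 0
    (by decide +kernel) (by push_cast; linarith) (by push_cast; linarith) (by simp) (by simp)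
  have k3 : ev2 [[0]] a 0 = 0 := by simp [ev2, ev]
  rw [k3, sub_zero] at k2
  have k4 := zh_div h ha1 (ε := 0.000181) (δ := 0.0000332) (k2.trans (by norm_num)) (by norm_num)
  have k5 := abs_le.1 h1
  have k6 := abs_le.1 k4
  rw [abs_le]
  constructor <;> linarith [k5.1, k5.2, k6.1, k6.2]

theorem zh_G1 (h : P.Star) {a c : ℝ} (ha : 0 ≤ a) (ha1 : a ≤ 0.45) (hc : P.io c = P.zq a)
    (hcb : CB a c) :
    |(∫ v in (0:ℝ)..P.Y, v * max (P.zq a - P.io (v + a)) 0) - ev lG1 a| ≤ 0.00007 := by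
  obtain ⟨aY, aL, aS, aC, aJ, aK, a4⟩ := zh_atoms h ha ha1 0
  obtain ⟨ac, acJ, acK, ac4⟩ := zh_atomc h ha ha1 0
  have hx : |a| ≤ ((45/100 : ℚ) : ℝ) := by
    rw [abs_of_nonneg ha]
    push_cast
    linarith only [ha1]
  have hy : |(0:ℝ)| ≤ ((0 : ℚ) : ℝ) := by simp
  have hL := cx_L_pos h
  have h1 := zh_cut2 h ha ha1 hc hcb (φ := fun v => v) (M := 1.5625) continuous_id
    (fun v h1 h2 => by rw [abs_of_nonneg (by linarith only [h1])]; exact h2) (by norm_num)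
  beta_reduce at h1
  rw [zh_int1 h] at h1
  have ap : Ap a 0 (ev lG1 a) [lG1] 0 := Ap_row (by simp)
  have a2 : Ap a 0 (1/2) [[1/2]] 0 := Ap.num _ _ (by push_cast; norm_num)
  have ax := Ap.varx a 0
  have e1 := zh_m h ha1
  have k1 := Ap_congr ((((((aL.sub aJ).mul _ _ hx hy (ac.sub ax)).mul _ _ hx hy (ac.sub ax)).mul
    _ _ hx hy a2).sub ((aY.sub ax).mul _ _ hx hy ((((ac.sub ax).mul _ _ hx hy acJ).sub acK).add
    aK))).sub (((aL.mul _ _ hx hy (aY.sub ax)).mul _ _ hx hy ap)))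
    (g := P.L * (P.Y - a) * (P.zq a * (ev lc a - a)^2/2 -
      ((ev lc a - a) * P.J (ev lc a) - P.K (ev lc a) + P.K a)/P.L) -
      P.L * (P.Y - a) * ev lG1 a) (by
      rw [← e1]
      field_simp)
  have k2 := zh_two k1 (q := [[0]]) (ε := 0.000306) 5 0 0.45 0 0
    (by decide +kernel) (by push_cast; linarith) (by push_cast; linarith) (by simp) (by simp)
  have k3 : ev2 [[0]] a 0 = 0 := by simp [ev2, ev]
  rw [k3, sub_zero] at k2
  have k4 := zh_div h ha1 (ε := 0.000306) (δ := 0.000055) (k2.trans (by norm_num)) (by norm_num)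
  have k5 := abs_le.1 h1
  have k6 := abs_le.1 k4
  rw [abs_le]
  constructor <;> linarith [k5.1, k5.2, k6.1, k6.2]

theorem zh_NN (h : P.Star) {a c : ℝ} (ha : 0 ≤ a) (ha1 : a ≤ 0.45) (hc : P.io c = P.zq a)
    (hcb : CB a c) :
    |(P.sg * P.zq a - (∫ y in (0:ℝ)..a, Real.cosh (P.s - a + y) * P.io y)) +
      (∫ v in (0:ℝ)..P.Y, (P.Y - v)^2/2 * max (P.zq a - P.io (v + a)) 0) - ev lN a| ≤ 0.00011 := by
  obtain ⟨aY, aL, aS, aC, aJ, aK, a4⟩ := zh_atoms h ha ha1 0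
  obtain ⟨ac, acJ, acK, ac4⟩ := zh_atomc h ha ha1 0
  have hx : |a| ≤ ((45/100 : ℚ) : ℝ) := by
    rw [abs_of_nonneg ha]
    push_cast
    linarith only [ha1]
  have hy : |(0:ℝ)| ≤ ((0 : ℚ) : ℝ) := by simp
  have hL := cx_L_pos h
  obtain ⟨hY1, hY2, hL1, hL2⟩ := Y_pos h
  have h1 := zh_cut2 h ha ha1 hc hcb (φ := fun v => (P.Y - v)^2/2) (M := 0.7654) (by fun_prop)
    (fun v h1 h2 => by
      rw [abs_of_nonneg (by positivity)]
      have h3 : 0 ≤ P.Y - v := by linarith only [hY1, hL1, hL2, h2]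
      have h4 : P.Y - v ≤ 1.237165 := by linarith only [hY2, h1]
      nlinarith only [h1, hY1, hY2, hL1, hL2, h2]) (by norm_num)
  beta_reduce at h1
  rw [zh_intN h] at h1
  have hV := zh_VN h ha ha1
  have ap : Ap a 0 (ev lN a) [lN] 0 := Ap_row (by simp)
  have a2 : Ap a 0 (1/2) [[1/2]] 0 := Ap.num _ _ (by push_cast; norm_num)
  have a6 : Ap a 0 (1/6) [[1/6]] 0 := Ap.num _ _ (by push_cast; norm_num)
  have a1 : Ap a 0 1 [[1]] 0 := Ap.num _ _ (by push_cast; norm_num)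
  have ax := Ap.varx a 0
  have aYx := aY.sub ax
  have az := aY.sub (ac.sub ax)
  have az2 := az.mul _ _ hx hy az
  have az3 := az2.mul _ _ hx hy az
  have aY2 := aY.mul _ _ hx hy aY
  have aY3 := aY2.mul _ _ hx hy aY
  have aT := aS.add ((aY3.sub az3).mul _ _ hx hy a6)
  have acJ' := (aYx.mul _ _ hx hy ((aY2.mul _ _ hx hy a2).sub aC)).sub aT
  have acK' := aYx.mul _ _ hx hy (aY.add aS)
  have ac4' := aYx.mul _ _ hx hy (a1.sub aC)
  have k0 := ((((aT.mul _ _ hx hy aL).add (acJ'.mul _ _ hx hy aJ)).add (acK'.mul _ _ hx hy aK)).add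
    (ac4'.mul _ _ hx hy a4)).sub (aYx.mul _ _ hx hy ((((az2.mul _ _ hx hy a2).mul _ _ hx hy
    acJ).add (az.mul _ _ hx hy acK)).add ac4))
  have k1 := Ap_weak (δ := 0.0000815) (f := P.L * (P.Y - a) * ((P.sg * P.zq a -
      (∫ y in (0:ℝ)..a, Real.cosh (P.s - a + y) * P.io y)) +
      (P.zq a * (P.Y^3 - (P.Y - (ev lc a - a))^3)/6 - (1/P.L) * ((P.Y - (ev lc a - a))^2/2 *
        P.J (ev lc a) + (P.Y - (ev lc a - a)) * P.K (ev lc a) + P.K4 (ev lc a) -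
        P.Y^2/2 * P.J a - P.Y * P.K a - P.K4 a))) -
      P.L * (P.Y - a) * ev lN a) (k0.sub ((aL.mul _ _ hx hy (aY.sub ax)).mul _ _ hx hy ap)) (by
      have e1 := zh_m h ha1
      obtain ⟨VI, hVI⟩ : ∃ VI, VI = ∫ y in (0:ℝ)..a, Real.cosh (P.s - a + y) * P.io y := ⟨_, rfl⟩
      rw [← hVI] at hV ⊢
      have e2 : P.L * (P.Y - a) * ((P.sg * P.zq a - VI) +
        (P.zq a * (P.Y^3 - (P.Y - (ev lc a - a))^3)/6 - (1/P.L) * ((P.Y - (ev lc a - a))^2/2 *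
        P.J (ev lc a) + (P.Y - (ev lc a - a)) * P.K (ev lc a) + P.K4 (ev lc a) -
        P.Y^2/2 * P.J a - P.Y * P.K a - P.K4 a))) =
        P.sg * (P.L * (P.Y - a) * P.zq a) - (P.Y - a) * (P.L * VI) +
        (P.L * (P.Y - a) * P.zq a) * ((P.Y^3 - (P.Y - (ev lc a - a))^3)/6) -
        (P.Y - a) * ((P.Y - (ev lc a - a))^2/2 * P.J (ev lc a) + (P.Y - (ev lc a - a)) *
        P.K (ev lc a) + P.K4 (ev lc a) - P.Y^2/2 * P.J a - P.Y * P.K a - P.K4 a) := by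
        field_simp
        ring
      rw [e2, e1]
      have e3 : ∀ A B : ℝ, A - B = -((P.Y - a) * (P.L * VI - (Real.cosh P.s * P.J a -
          P.sg * P.K a + Real.cosh P.s * P.K4 a))) → |A - B| ≤ ((0.0000815 : ℚ) : ℝ) := by
        intro A B hAB
        rw [hAB, abs_neg, abs_mul, abs_of_nonneg (by linarith only [ha1, hY1, hL1, hL2] : 0 ≤ P.Y - a)]
        have e4 : (P.Y - a) * |P.L * VI - (Real.cosh P.s * P.J a -
          P.sg * P.K a + Real.cosh P.s * P.K4 a)| ≤ 2.543965 * 0.000032 :=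
          mul_le_mul (by linarith only [ha, hY2]) hV (abs_nonneg _) (by norm_num)
        refine e4.trans ?_
        norm_num
      apply e3
      ring)
  have k2 := zh_two k1 (q := [[0]]) (ε := 0.000556) 5 0 0.45 0 0
    (by decide +kernel) (by push_cast; linarith) (by push_cast; linarith) (by simp) (by simp)
  have k3 : ev2 [[0]] a 0 = 0 := by simp [ev2, ev]
  rw [k3, sub_zero] at k2
  have k4 := zh_div h ha1 (ε := 0.000556) (δ := 0.0001) (k2.trans (by norm_num)) (by norm_num)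
  have k5 := abs_le.1 h1
  have k6 := abs_le.1 k4
  rw [abs_le]
  constructor <;> linarith [k5.1, k5.2, k6.1, k6.2]

end Pool.Agent.CDk.Par
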