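import Pool.Agent.CDk.CX
import Pool.Agent.CDk.D.ZHa
import Pool.Agent.CDk.D.ZHb
import Pool.Agent.CDk.D.ZP
import Pool.Agent.CDk.Defs
import Pool.Agent.CDk.ENC
import Pool.Agent.CDk.FNa
import Pool.Agent.CDk.T1a

/-!
# ZHc: `L (IN - io r NN)` as a polynomial in `(a, r)` (helper file of ZHs, ZHm, ZHl)
-/

open MeasureTheory Set Filter Topology

namespace Pool.Agent.CDk.Par
open Pool.Agent.CDk.ZP
variable {P : Par}

theorem zh_tp2 (x : ℝ) : HasDerivAt (fun x : ℝ => (max x 0)^2) (2 * max x 0) x := by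
  have h1 := (tp_hasDerivAt 1 le_rfl x).const_mul 2
  have h2 : (fun x : ℝ => (2:ℝ) * ((max x 0) ^ (1 + 1) / ((1 + 1).factorial : ℝ))) =
      fun x => (max x 0)^2 := by
    funext y
    norm_num [Nat.factorial]
    ring
  rw [h2] at h1
  refine h1.congr_deriv ?_
  norm_num [Nat.factorial]

theorem zh_tp3 (x : ℝ) : HasDerivAt (fun x : ℝ => (max x 0)^3) (3 * (max x 0)^2) x := by
  have h1 := (tp_hasDerivAt 2 (by norm_num) x).const_mul 6
  have h2 : (fun x : ℝ => (6:ℝ) * ((max x 0) ^ (2 + 1) / ((2 + 1).factorial : ℝ))) =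
      fun x => (max x 0)^3 := by
    funext y
    norm_num [Nat.factorial]
    ring
  rw [h2] at h1
  refine h1.congr_deriv ?_
  norm_num [Nat.factorial]
  ring

theorem zh_gslope (h : P.Star) {a c q v : ℝ} (hc : P.io c = q) :
    0 ≤ max (q - P.io (v + a)) 0 - (q - P.io (v + a)) ∧
    max (q - P.io (v + a)) 0 - (q - P.io (v + a)) ≤ 0.4127 * max (v - (c - a)) 0 ∧
    max (q - P.io (v + a)) 0 ≤ 0.4127 * max (c - a - v) 0 := by
  rcases le_total v (c - a) with h1 | h1
  · obtain ⟨h2, h3⟩ := zh_lip h (show v + a ≤ c by linarith)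
    rw [zh_gpos h hc h1, max_eq_right (by linarith only [h1] : v - (c - a) ≤ 0),
      max_eq_left (by linarith : 0 ≤ c - a - v)]
    refine ⟨by linarith only [], by linarith, by rw [← hc]; linarith only [h3]⟩
  · obtain ⟨h2, h3⟩ := zh_lip h (show c ≤ v + a by linarith)
    rw [zh_gzero h hc h1, max_eq_left (by linarith : 0 ≤ v - (c - a)),
      max_eq_right (by linarith : c - a - v ≤ 0)]
    refine ⟨by rw [← hc]; linarith only [h2], by rw [← hc]; linarith only [h3], by linarith⟩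

theorem zh_th1 (h : P.Star) {a c q r : ℝ} (hc : P.io c = q) (h0 : 0 ≤ c - a) (hr : 0 ≤ r) :
    0 ≤ (∫ v in (0:ℝ)..r, (r - v) * max (q - P.io (v + a)) 0) -
      ∫ v in (0:ℝ)..r, (r - v) * (q - P.io (v + a)) ∧
    (∫ v in (0:ℝ)..r, (r - v) * max (q - P.io (v + a)) 0) -
      (∫ v in (0:ℝ)..r, (r - v) * (q - P.io (v + a))) ≤ 0.4127 * (max (r - (c - a)) 0)^3/6 := by
  have hg := zh_gcont h q a
  have hio := cx_cont h
  have hc1 : Continuous fun v => (r - v) * max (q - P.io (v + a)) 0 := by fun_prop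
  have hc2 : Continuous fun v => (r - v) * (q - P.io (v + a)) := by fun_prop
  have hc3 : Continuous fun v => (r - v) * (0.4127 * max (v - (c - a)) 0) := by fun_prop
  rw [← intervalIntegral.integral_sub (hc1.intervalIntegrable _ _) (hc2.intervalIntegrable _ _)]
  constructor
  · apply intervalIntegral.integral_nonneg hr
    intro v hv
    rw [← mul_sub]
    exact mul_nonneg (by linarith [hv.2]) (zh_gslope h hc).1
  · have h1 : ∫ v in (0:ℝ)..r, ((r - v) * max (q - P.io (v + a)) 0 - (r - v) * (q - P.io (v + a))) ≤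
        ∫ v in (0:ℝ)..r, (r - v) * (0.4127 * max (v - (c - a)) 0) := by
      apply intervalIntegral.integral_mono_on hr ((hc1.sub hc2).intervalIntegrable _ _)
        (hc3.intervalIntegrable _ _)
      intro v hv
      show (r - v) * max (q - P.io (v + a)) 0 - (r - v) * (q - P.io (v + a)) ≤
        (r - v) * (0.4127 * max (v - (c - a)) 0)
      rw [← mul_sub]
      exact mul_le_mul_of_nonneg_left (zh_gslope h hc).2.1 (by linarith [hv.2])
    refine h1.trans (le_of_eq ?_)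
    have hd : ∀ v, HasDerivAt (fun v => 0.4127 * ((r - v) * (max (v - (c - a)) 0)^2/2 +
        (max (v - (c - a)) 0)^3/6)) ((r - v) * (0.4127 * max (v - (c - a)) 0)) v := by
      intro v
      have e1 : HasDerivAt (fun v => r - v) (-1) v := by
        have := (hasDerivAt_id v).const_sub r
        simpa using this
      have e2 : HasDerivAt (fun v => (max (v - (c - a)) 0)^2) (2 * max (v - (c - a)) 0) v :=
        (zh_tp2 (v - (c - a))).comp_sub_const v (c - a)
      have e3 : HasDerivAt (fun v => (max (v - (c - a)) 0)^3) (3 * (max (v - (c - a)) 0)^2) v :=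
        (zh_tp3 (v - (c - a))).comp_sub_const v (c - a)
      refine ((((e1.mul e2).div_const 2).add (e3.div_const 6)).const_mul 0.4127).congr_deriv ?_
      ring
    rw [intervalIntegral.integral_eq_sub_of_hasDerivAt (fun v _ => hd v)
      (hc3.intervalIntegrable _ _), max_eq_right (by linarith : 0 - (c - a) ≤ 0)]
    ring

theorem zh_th2 (h : P.Star) {a c q r : ℝ} (hc : P.io c = q) (hcY : c - a ≤ P.Y)
    (hrY : r ≤ P.Y) :
    0 ≤ (∫ v in (0:ℝ)..r, (r - v) * max (q - P.io (v + a)) 0) -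
      (r * (∫ v in (0:ℝ)..P.Y, 1 * max (q - P.io (v + a)) 0) -
        ∫ v in (0:ℝ)..P.Y, v * max (q - P.io (v + a)) 0) ∧
    (∫ v in (0:ℝ)..r, (r - v) * max (q - P.io (v + a)) 0) -
      (r * (∫ v in (0:ℝ)..P.Y, 1 * max (q - P.io (v + a)) 0) -
        ∫ v in (0:ℝ)..P.Y, v * max (q - P.io (v + a)) 0) ≤ 0.4127 * (max (c - a - r) 0)^3/6 := by
  have hg := zh_gcont h q a
  have hc1 : Continuous fun v => (r - v) * max (q - P.io (v + a)) 0 := by fun_prop
  have hc2 : Continuous fun v => (v - r) * max (q - P.io (v + a)) 0 := by fun_prop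
  have hc3 : Continuous fun v => (v - r) * (0.4127 * max (c - a - v) 0) := by fun_prop
  have hc4 : Continuous fun v => 1 * max (q - P.io (v + a)) 0 := by fun_prop
  have hc5 : Continuous fun v => v * max (q - P.io (v + a)) 0 := by fun_prop
  have hc6 : Continuous fun v => r * (1 * max (q - P.io (v + a)) 0) := by fun_prop
  have e0 : (∫ v in (0:ℝ)..r, (r - v) * max (q - P.io (v + a)) 0) -
      (r * (∫ v in (0:ℝ)..P.Y, 1 * max (q - P.io (v + a)) 0) -
        ∫ v in (0:ℝ)..P.Y, v * max (q - P.io (v + a)) 0) =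
      ∫ v in r..P.Y, (v - r) * max (q - P.io (v + a)) 0 := by
    rw [← intervalIntegral.integral_const_mul, ← intervalIntegral.integral_sub
      (hc6.intervalIntegrable _ _) (hc5.intervalIntegrable _ _)]
    have e1 : ∫ v in (0:ℝ)..P.Y, (r * (1 * max (q - P.io (v + a)) 0) -
        v * max (q - P.io (v + a)) 0) = ∫ v in (0:ℝ)..P.Y, (r - v) * max (q - P.io (v + a)) 0 :=
      intervalIntegral.integral_congr fun v _ => by
        show r * (1 * max (q - P.io (v + a)) 0) - v * max (q - P.io (v + a)) 0 =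
          (r - v) * max (q - P.io (v + a)) 0
        ring
    rw [e1, ← intervalIntegral.integral_add_adjacent_intervals (hc1.intervalIntegrable 0 r)
      (hc1.intervalIntegrable r P.Y)]
    have e2 : ∫ v in r..P.Y, (v - r) * max (q - P.io (v + a)) 0 =
        -∫ v in r..P.Y, (r - v) * max (q - P.io (v + a)) 0 := by
      rw [← intervalIntegral.integral_neg]
      refine intervalIntegral.integral_congr fun v _ => ?_
      show (v - r) * max (q - P.io (v + a)) 0 = -((r - v) * max (q - P.io (v + a)) 0)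
      ring
    rw [e2]
    ring
  rw [e0]
  constructor
  · apply intervalIntegral.integral_nonneg hrY
    intro v hv
    exact mul_nonneg (by linarith [hv.1]) (le_max_right _ _)
  · have h1 : ∫ v in r..P.Y, (v - r) * max (q - P.io (v + a)) 0 ≤
        ∫ v in r..P.Y, (v - r) * (0.4127 * max (c - a - v) 0) := by
      apply intervalIntegral.integral_mono_on hrY (hc2.intervalIntegrable _ _)
        (hc3.intervalIntegrable _ _)
      intro v hv
      exact mul_le_mul_of_nonneg_left (zh_gslope h hc).2.2 (by linarith [hv.1])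
    refine h1.trans (le_of_eq ?_)
    have hd : ∀ v, HasDerivAt (fun v => -(0.4127 * ((v - r) * (max (c - a - v) 0)^2/2 +
        (max (c - a - v) 0)^3/6))) ((v - r) * (0.4127 * max (c - a - v) 0)) v := by
      intro v
      have e1 : HasDerivAt (fun v => v - r) 1 v := (hasDerivAt_id v).sub_const r
      have e2 : HasDerivAt (fun v => (max (c - a - v) 0)^2) (-(2 * max (c - a - v) 0)) v :=
        (zh_tp2 (c - a - v)).comp_const_sub (c - a) v
      have e3 : HasDerivAt (fun v => (max (c - a - v) 0)^3) (-(3 * (max (c - a - v) 0)^2)) v :=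
        (zh_tp3 (c - a - v)).comp_const_sub (c - a) v
      refine (((((e1.mul e2).div_const 2).add (e3.div_const 6)).const_mul
        0.4127).neg).congr_deriv ?_
      ring
    rw [intervalIntegral.integral_eq_sub_of_hasDerivAt (fun v _ => hd v)
      (hc3.intervalIntegrable _ _), max_eq_right (by linarith : c - a - P.Y ≤ 0)]
    ring

theorem Ap_mono {x y f : ℝ} {p : List (List ℚ)} {e e' : ℚ} (h : Ap x y f p e) (he : e ≤ e') :
    Ap x y f p e' := by
  unfold Ap at *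
  have : (e : ℝ) ≤ e' := by exact_mod_cast he
  linarith

/-- `IN a io r`, `NN a io` and `H` -/
noncomputable def zIN (P : Par) (a r : ℝ) : ℝ :=
  ∫ v in (0:ℝ)..r, (r - v) * max (P.zq a - P.io (v + a)) 0
noncomputable def zNN (P : Par) (a : ℝ) : ℝ :=
  (P.sg * P.zq a - (∫ y in (0:ℝ)..a, Real.cosh (P.s - a + y) * P.io y)) +
      (∫ v in (0:ℝ)..P.Y, (P.Y - v)^2/2 * max (P.zq a - P.io (v + a)) 0)
noncomputable def zH (P : Par) (a r : ℝ) : ℝ := P.zIN a r - P.io r * P.zNN a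

/-- the polynomial of `L H` for `r ≤ 1.4` -/
theorem zh_LH1 (h : P.Star) {a c r : ℝ} (ha : 0 ≤ a) (ha1 : a ≤ 0.45) (hc : P.io c = P.zq a)
    (hcb : CB a c) (hr : 0 ≤ r) (hr1 : r ≤ 1.4) :
    ∃ f, 0 ≤ P.L * P.zH a r - f ∧ P.L * P.zH a r - f ≤ 0.00015 ∧ (r ≤ 1.3 → P.L * P.zH a r = f) ∧
      Ap a r f (add2 (add2 (mul2 (mul2 [[2.6657815]] [lq]) (mul2 (mul2 [[], [1]] [[], [1]]) [[1/2]]))
        (neg2 (add2 (add2 (comp2 lK [[0, 1], [1]]) (neg2 [lK])) (neg2 (mul2 [[], [1]] [lJ])))))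
        (neg2 (mul2 (comp2 lI [[], [1]]) [lN]))) 0.000214 := by
  obtain ⟨aY, aL, aS, aC, aJ, aK, a4⟩ := zh_atoms h ha ha1 r
  obtain ⟨c1, c2, c3, c4, c5⟩ := zh_CB ha ha1 hcb
  have hL := cx_L_pos h
  obtain ⟨hY1, hY2, hL1, hL2⟩ := Y_pos h
  have hx : |a| ≤ ((45/100 : ℚ) : ℝ) := by
    rw [abs_of_nonneg ha]
    push_cast
    linarith only [ha1]
  have hy : |r| ≤ ((14/10 : ℚ) : ℝ) := by
    rw [abs_of_nonneg hr]
    push_cast
    linarith only [hr1]
  obtain ⟨t1, t2⟩ := zh_th1 h (r := r) hc (by linarith only [c1, hL1, hL2] : 0 ≤ c - a) hr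
  rw [zh_intr h] at t1 t2
  have aq : Ap a r (P.zq a) [lq] 0.000008 :=
    Ap_row ((zh_q h ha ha1).trans (by norm_num))
  have aN : Ap a r (P.zNN a) [lN] 0.00011 :=
    Ap_row ((zh_NN h ha ha1 hc hcb).trans (by norm_num))
  have ar := Ap.vary a r
  have aI : Ap a r (P.I r) (comp2 lI [[], [1]]) 0.000015 := by
    refine Ap.comp (g := r) (by simp [ev2, ev]) ?_
    rw [ev_lI]
    refine (I_app h hr (by linarith only [h.ρ_lo, hr1, hL1, hL2, h])).trans ?_
    norm_num
  have aKr : Ap a r (P.K (a + r)) (comp2 lK [[0, 1], [1]]) 0.00002 := by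
    refine Ap.comp (g := a + r) (by simp [ev2, ev]) ?_
    rw [ev_lK]
    refine (zh_K h (by linarith only [ha, hr]) (by linarith only [ha1, hr1])).trans ?_
    norm_num
  have a2 : Ap a r (1/2) [[1/2]] 0 := Ap.num _ _ (by push_cast; norm_num)
  have k0 := (((aL.mul _ _ hx hy aq).mul _ _ hx hy ((ar.mul _ _ hx hy ar).mul _ _ hx hy a2)).sub
    ((aKr.sub aK).sub (ar.mul _ _ hx hy aJ))).sub (aI.mul _ _ hx hy aN)
  have e1 : P.L * P.zH a r - (P.L * P.zq a * (r * r * (1/2)) - (P.K (a + r) - P.K a - r * P.J a) -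
      P.I r * P.zNN a) = P.L * (P.zIN a r -
      (P.zq a * r^2/2 - (P.K (a + r) - P.K a - r * P.J a)/P.L)) := by
    unfold zH io
    field_simp
    ring
  have t1' : 0 ≤ P.zIN a r - (P.zq a * r^2/2 - (P.K (a + r) - P.K a - r * P.J a)/P.L) := t1
  have t2' : P.zIN a r - (P.zq a * r^2/2 - (P.K (a + r) - P.K a - r * P.J a)/P.L) ≤
    0.4127 * (max (r - (c - a)) 0)^3/6 := t2
  refine ⟨_, ?_, ?_, ?_, Ap_mono k0 (by decide +kernel)⟩
  · rw [e1]
    exact mul_nonneg hL.le t1'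
  · rw [e1]
    have h1 : max (r - (c - a)) 0 ≤ 0.0932 := max_le (by linarith only [hr1, c1]) (by norm_num)
    have h2 : (max (r - (c - a)) 0)^3 ≤ 0.0932^3 := pow_le_pow_left₀ (le_max_right _ _) h1 3
    have h3 : P.zIN a r - (P.zq a * r^2/2 - (P.K (a + r) - P.K a - r * P.J a)/P.L) ≤
        0.4127 * 0.0932^3/6 := t2'.trans (by linarith only [h2])
    have h4 := mul_le_mul hL2.le h3 t1' (by norm_num)
    refine h4.trans ?_
    norm_num
  · intro h1
    have h2 : max (r - (c - a)) 0 = 0 := max_eq_right (by linarith only [hr1, c1, h1])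
    rw [h2] at t2'
    have h3 : P.zIN a r - (P.zq a * r^2/2 - (P.K (a + r) - P.K a - r * P.J a)/P.L) = 0 := by
      norm_num at t2'
      linarith only [t1', t2']
    rw [h3, mul_zero] at e1
    linarith only [e1]

/-- the polynomial of `L H` for `1.4 ≤ r ≤ 1.65` -/
theorem zh_LH2 (h : P.Star) {a c r : ℝ} (ha : 0 ≤ a) (ha1 : a ≤ 0.45) (hc : P.io c = P.zq a)
    (hcb : CB a c) (hr : 1.4 ≤ r) (hr1 : r ≤ 1.65) :
    ∃ f, 0 ≤ P.L * P.zH a r - f ∧ P.L * P.zH a r - f ≤ 0.0008 ∧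
      Ap a r f (add2 (mul2 [[2.6657815]] (add2 (mul2 [[], [1]] [lG0]) (neg2 [lG1])))
        (neg2 (mul2 (comp2 lI [[], [1]]) [lN]))) 0.000591 := by
  obtain ⟨aY, aL, aS, aC, aJ, aK, a4⟩ := zh_atoms h ha ha1 r
  obtain ⟨c1, c2, c3, c4, c5⟩ := zh_CB ha ha1 hcb
  have hL := cx_L_pos h
  obtain ⟨hY1, hY2, hL1, hL2⟩ := Y_pos h
  have hx : |a| ≤ ((45/100 : ℚ) : ℝ) := by
    rw [abs_of_nonneg ha]
    push_cast
    linarith only [ha1]
  have hy : |r| ≤ ((165/100 : ℚ) : ℝ) := by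
    rw [abs_of_nonneg (by linarith only [hr, hL1, hL2])]
    push_cast
    linarith only [hr1]
  obtain ⟨t1, t2⟩ := zh_th2 h (r := r) hc (by linarith only [c2, hY1, hL1, hL2] : c - a ≤ P.Y) (by linarith only [hr1, hY1, hL1, hL2])
  have aN : Ap a r (P.zNN a) [lN] 0.00011 :=
    Ap_row ((zh_NN h ha ha1 hc hcb).trans (by norm_num))
  have aG0 : Ap a r (∫ v in (0:ℝ)..P.Y, 1 * max (P.zq a - P.io (v + a)) 0) [lG0] 0.000042 :=
    Ap_row ((zh_G0 h ha ha1 hc hcb).trans (by norm_num))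
  have aG1 : Ap a r (∫ v in (0:ℝ)..P.Y, v * max (P.zq a - P.io (v + a)) 0) [lG1] 0.00007 :=
    Ap_row ((zh_G1 h ha ha1 hc hcb).trans (by norm_num))
  have ar := Ap.vary a r
  have aI : Ap a r (P.I r) (comp2 lI [[], [1]]) 0.00002 := by
    refine Ap.comp (g := r) (by simp [ev2, ev]) ?_
    rw [ev_lI]
    refine (zh_I h (by linarith only [hr, hL1, hL2]) hr1).trans ?_
    norm_num
  have k0 := (aL.mul _ _ hx hy ((ar.mul _ _ hx hy aG0).sub aG1)).sub (aI.mul _ _ hx hy aN)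
  have e1 : P.L * P.zH a r - (P.L * (r * (∫ v in (0:ℝ)..P.Y, 1 * max (P.zq a - P.io (v + a)) 0) -
      ∫ v in (0:ℝ)..P.Y, v * max (P.zq a - P.io (v + a)) 0) -
      P.I r * P.zNN a) = P.L * (P.zIN a r -
      (r * (∫ v in (0:ℝ)..P.Y, 1 * max (P.zq a - P.io (v + a)) 0) -
      ∫ v in (0:ℝ)..P.Y, v * max (P.zq a - P.io (v + a)) 0)) := by
    unfold zH io
    field_simp
    ring
  have t1' : 0 ≤ P.zIN a r - (r * (∫ v in (0:ℝ)..P.Y, 1 * max (P.zq a - P.io (v + a)) 0) -
      ∫ v in (0:ℝ)..P.Y, v * max (P.zq a - P.io (v + a)) 0) := t1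
  refine ⟨_, ?_, ?_, Ap_mono k0 (by decide +kernel)⟩
  · rw [e1]
    exact mul_nonneg hL.le t1'
  · rw [e1]
    have h1 : max (c - a - r) 0 ≤ 0.1625 := max_le (by linarith only [hr, c2]) (by norm_num)
    have h2 : (max (c - a - r) 0)^3 ≤ 0.1625^3 := pow_le_pow_left₀ (le_max_right _ _) h1 3
    have h3 : P.zIN a r - (r * (∫ v in (0:ℝ)..P.Y, 1 * max (P.zq a - P.io (v + a)) 0) -
      ∫ v in (0:ℝ)..P.Y, v * max (P.zq a - P.io (v + a)) 0) ≤ 0.4127 * 0.1625^3/6 :=
      le_trans t2 (by linarith only [h2])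
    have h4 := mul_le_mul hL2.le h3 t1' (by norm_num)
    refine h4.trans ?_
    norm_num

/-- the polynomial of `L H` for `1.65 ≤ r ≤ 2.2` -/
theorem zh_LH3 (h : P.Star) {a c r : ℝ} (ha : 0 ≤ a) (ha1 : a ≤ 0.45) (hc : P.io c = P.zq a)
    (hcb : CB a c) (hr : 1.65 ≤ r) (hr1 : r ≤ 2.2) :
    Ap a r (P.L * P.zH a r) (add2 (mul2 [[2.6657815]] (add2 (mul2 [[], [1]] [lG0]) (neg2 [lG1])))
        (neg2 (mul2 [[-0.670366], [1.099962]] [lN]))) 0.000819 ∧
    Ap a r (P.I r) [[-0.670366], [1.099962]] 0.00004 := by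
  obtain ⟨aY, aL, aS, aC, aJ, aK, a4⟩ := zh_atoms h ha ha1 r
  obtain ⟨c1, c2, c3, c4, c5⟩ := zh_CB ha ha1 hcb
  have hL := cx_L_pos h
  have hρ := h.ρ_lo
  have hρ' := h.ρ_hi
  obtain ⟨hY1, hY2, hL1, hL2⟩ := Y_pos h
  have hx : |a| ≤ ((45/100 : ℚ) : ℝ) := by
    rw [abs_of_nonneg ha]
    push_cast
    linarith only [ha1]
  have hy : |r| ≤ ((22/10 : ℚ) : ℝ) := by
    rw [abs_of_nonneg (by linarith only [hr, hρ, hρ'])]
    push_cast
    linarith only [hr1]
  obtain ⟨t1, t2⟩ := zh_th2 h (r := r) hc (by linarith only [c2, hρ, hρ', hY1] : c - a ≤ P.Y) (by linarith only [hr1, hρ, hρ', hY1])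
  have aN : Ap a r (P.zNN a) [lN] 0.00011 :=
    Ap_row ((zh_NN h ha ha1 hc hcb).trans (by norm_num))
  have aG0 : Ap a r (∫ v in (0:ℝ)..P.Y, 1 * max (P.zq a - P.io (v + a)) 0) [lG0] 0.000042 :=
    Ap_row ((zh_G0 h ha ha1 hc hcb).trans (by norm_num))
  have aG1 : Ap a r (∫ v in (0:ℝ)..P.Y, v * max (P.zq a - P.io (v + a)) 0) [lG1] 0.00007 :=
    Ap_row ((zh_G1 h ha ha1 hc hcb).trans (by norm_num))
  have ar := Ap.vary a r
  have aI : Ap a r (P.I r) [[-0.670366], [1.099962]] 0.00004 := by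
    unfold Ap
    simp only [ev2, ev]
    rw [(zh_ext h (by linarith only [hr, hρ, hρ'] : P.ρ ≤ r)).1]
    have h1 := abs_le.1 (I_app h (y := 1.640087) (by norm_num) hρ.le)
    have h2 : |PI 1.640087 - 1.133668| ≤ 0.000005 := by
      unfold PI
      rw [abs_le]
      constructor <;> norm_num
    rw [abs_le] at h2
    have h3 := abs_le.1 (D_app5 h (y := 1.640087) (by linarith only [h.e_hi, hρ, hρ', h]) hρ.le)
    have h4 : |PD5 1.640087 - 1.09996| ≤ 0.000009 := by
      rw [abs_le]; unfold PD5; constructor <;> norm_num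
    rw [abs_le] at h4
    have h5 : P.D P.ρ - P.D 1.640087 ≤ P.ρ - 1.640087 := D_lip h hρ.le
    have h6 : P.D 1.640087 ≤ P.D P.ρ := D_mono h hρ.le
    have h7 : P.I P.ρ - P.I 1.640087 ≤ 0.000002 ∧ 0 ≤ P.I P.ρ - P.I 1.640087 := by
      have := (zh_lip h hρ.le)
      have e2 : P.io P.ρ - P.io 1.640087 = (P.I P.ρ - P.I 1.640087)/P.L := by unfold io; ring
      rw [e2] at this
      constructor
      · have h8 := this.2
        rw [div_le_iff₀ hL] at h8
        nlinarith only [hρ, hρ', hL2, h8, hL]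
      · have h8 := this.1
        have h9 := mul_nonneg h8 hL.le
        rwa [div_mul_cancel₀ _ hL.ne'] at h9
    have h8 : |P.D P.ρ - 1.09996| ≤ 0.00002 := by
      rw [abs_le]
      constructor <;> linarith [h3.1, h3.2, h4.1, h4.2]
    rw [abs_le] at h8
    have h10 : P.D P.ρ * (r - P.ρ) ≤ 1.09998 * (r - P.ρ) :=
      mul_le_mul_of_nonneg_right (by linarith only [h8.2, hρ', h3, h4, h5]) (by linarith only [hr, hρ, hρ'])
    have h11 : 1.09994 * (r - P.ρ) ≤ P.D P.ρ * (r - P.ρ) :=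
      mul_le_mul_of_nonneg_right (by linarith only [h8.1, hρ, hρ', h3, h4, h6]) (by linarith only [hr, hρ, hρ'])
    rw [abs_le]
    push_cast
    constructor
    · norm_num
      linarith only [h1.1, h2.1, h7.2, hr1, hρ, hρ', h1, h2, h7, h11]
    · norm_num
      linarith only [h1.2, h2.2, h7.1, hr1, hρ, hρ', h1, h2, h7, h10]
  refine ⟨?_, aI⟩
  have k0 := (aL.mul _ _ hx hy ((ar.mul _ _ hx hy aG0).sub aG1)).sub (aI.mul _ _ hx hy aN)
  refine Ap_mono (Ap_congr k0 ?_) (by decide +kernel)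
  have h1 : max (c - a - r) 0 = 0 := max_eq_right (by linarith only [hr, c2, hρ, hρ'])
  rw [h1] at t2
  norm_num at t2
  have h3 : P.zIN a r = (r * (∫ v in (0:ℝ)..P.Y, 1 * max (P.zq a - P.io (v + a)) 0) -
      ∫ v in (0:ℝ)..P.Y, v * max (P.zq a - P.io (v + a)) 0) := by
    unfold zIN
    norm_num at t1 ⊢
    linarith only [t1, t2]
  have e4 : P.L * P.zH a r = P.L * P.zIN a r - P.I r * P.zNN a := by
    unfold zH
    have e5 : P.io r = P.I r / P.L := rfl
    rw [e5]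
    field_simp
  rw [e4, h3]

end Pool.Agent.CDk.Par
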