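import Pool.Agent.CDk.CX
import Pool.Agent.CDk.D.ZHa
import Pool.Agent.CDk.Defs
import Pool.Agent.CDk.FNa
import Pool.Agent.CDk.Ker
import Pool.Agent.CDk.T1a
import Pool.Agent.CDk.T1n

/-!
# ZHd: the integral of `|ker r| w(· + a)` by sums over cells (helper file of ZHm, ZHl)
-/

open MeasureTheory Set Filter Topology

namespace Pool.Agent.CDk.ZHc

/-- upper bound on one cell -/
def cell (r k1 k2 α v : ℕ) : ℕ :=
  max (2 * 10 ^ 12 * (r - v) - k1 * (2543961 - (v + 5000)) ^ 2)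
    (k2 * (2543965 - v) ^ 2 - 2 * 10 ^ 12 * (r - (v + 5000))) * T1c.W (v + 5000 + α)

/-- sum over `n` cells from `v` -/
def cells (r k1 k2 α : ℕ) : ℕ → ℕ → ℕ
  | 0, _ => 0
  | n + 1, v => cell r k1 k2 α v + cells r k1 k2 α n (v + 5000)

end Pool.Agent.CDk.ZHc

namespace Pool.Agent.CDk.Par
open Pool.Agent.CDk.ZP
variable {P : Par}

/-- the integral with fixed ends -/
noncomputable def Sg (P : Par) (a b r : ℝ) : ℝ := ∫ t in (0:ℝ)..b, |P.ker r t| * w (t + a)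

theorem Sg_cont (P : Par) (a r : ℝ) : Continuous fun t => |P.ker r t| * w (t + a) :=
  (ker_cont P r).abs.mul (w_cont.comp (continuous_id.add continuous_const))

theorem cellg_bd (h : P.Star) {r k1 k2 α v : ℕ} {t : ℝ} (hk1 : (k1 : ℝ) ≤ P.io (r / 10 ^ 6) * 10 ^ 6)
    (hk2 : P.io (r / 10 ^ 6) * 10 ^ 6 ≤ k2) (hv : v + 5000 ≤ 2543961)
    (h1 : (v : ℝ) / 10 ^ 6 ≤ t) (h2 : t ≤ ((v + 5000 : ℕ) : ℝ) / 10 ^ 6) :
    |P.ker (r / 10 ^ 6) t| * w (t + α / 10 ^ 6) ≤ (ZHc.cell r k1 k2 α v : ℝ) / (2 * 10 ^ 30) := by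
  obtain ⟨hY1, hY2, -, -⟩ := Y_pos h
  rw [div_le_iff₀ (by positivity)] at h1
  rw [le_div_iff₀ (by positivity)] at h2
  set R : ℝ := (r : ℝ) / 10 ^ 6 with hR
  have hRr : R * 10 ^ 6 = r := by rw [hR]; ring
  have hio : 0 ≤ P.io R := t1_io_nonneg h (by rw [hR]; positivity)
  have hvv : ((v + 5000 : ℕ) : ℝ) = v + 5000 := by push_cast; ring
  have hv' : (v : ℝ) + 5000 ≤ 2543961 := by rw [← hvv]; exact_mod_cast hv
  rw [hvv] at h2
  obtain ⟨dm, hdm⟩ : ∃ d, d + (v + 5000) = 2543961 := ⟨2543961 - (v + 5000), by omega⟩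
  obtain ⟨dp, hdp⟩ : ∃ d, d + v = 2543965 := ⟨2543965 - v, by omega⟩
  obtain ⟨ap, hap⟩ : ∃ d, d = r - v := ⟨_, rfl⟩
  obtain ⟨am, ham⟩ : ∃ d, d = r - (v + 5000) := ⟨_, rfl⟩
  obtain ⟨m, hm⟩ : ∃ d, d = v + 5000 + α := ⟨v + 5000 + α, rfl⟩
  have hdm' : (dm : ℝ) + (v + 5000) = 2543961 := by exact_mod_cast hdm
  have hdp' : (dp : ℝ) + v = 2543965 := by exact_mod_cast hdp
  have hm' : (m : ℝ) = v + 5000 + α := by rw [hm]; push_cast; ring
  have a1 : max (R - t) 0 * 10 ^ 6 ≤ (ap : ℝ) := by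
    have h3 : (r : ℝ) ≤ (ap : ℝ) + v := by
      have : r ≤ ap + v := by omega
      exact_mod_cast this
    have h4 : (0 : ℝ) ≤ (ap : ℝ) := Nat.cast_nonneg _
    rcases le_total (R - t) 0 with h5 | h5
    · rw [max_eq_right h5]; linarith only []
    · rw [max_eq_left h5]; linarith only [h1, hR, h3]
  have a2 : (am : ℝ) ≤ max (R - t) 0 * 10 ^ 6 := by
    rcases le_total r (v + 5000) with h5 | h5
    · have h6 : am = 0 := by omega
      rw [h6]
      have : 0 ≤ max (R - t) 0 := le_max_right _ _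
      simp
    · have h6 : (am : ℝ) + (v + 5000) = r := by
        have h7 : am + (v + 5000) = r := by rw [ham]; exact Nat.sub_add_cancel h5
        have h8 : ((am + (v + 5000) : ℕ) : ℝ) = (r : ℝ) := by rw [h7]
        rw [Nat.cast_add, hvv] at h8
        exact h8
      have : R - t ≤ max (R - t) 0 := le_max_left _ _
      linarith only [h2, hR, h6, this]
  have hee : (α : ℝ) / 10 ^ 6 * 10 ^ 6 = α := by ring
  have hv0 : (0:ℝ) ≤ v := Nat.cast_nonneg _
  have ht0 : 0 ≤ t := by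
    by_contra hcon
    push Not at hcon
    have : t * 10 ^ 6 < 0 := mul_neg_of_neg_of_pos hcon (by positivity)
    linarith only [h1, hcon]
  have hw : w (t + α / 10 ^ 6) * 10 ^ 12 ≤ ((T1c.W m : ℕ) : ℝ) := by
    have hα : (0:ℝ) ≤ (α : ℝ) / 10 ^ 6 := div_nonneg (Nat.cast_nonneg _) (by norm_num)
    refine W_cast (add_nonneg ht0 hα) ?_
    rw [add_mul, hee]
    linarith only [h2, hm']
  have hfin := cell_core (ker := P.ker R t) (mx := max (R - t) 0) (yt := P.Y - t) (io := P.io R)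
    (dm := dm) (dp := dp)
    hio (by linarith only [h2, hY1, hv']) (w_nonneg (t + α / 10 ^ 6)) rfl a1 a2 (by linarith only [h2, hY1, hdm']) (by linarith only [h1, hY2, hdp']) hk1 hk2 hw
  have e1 : ZHc.cell r k1 k2 α v =
      max (2 * 10 ^ 12 * ap - k1 * dm ^ 2) (k2 * dp ^ 2 - 2 * 10 ^ 12 * am) * T1c.W m := by
    have f1 : 2543961 - (v + 5000) = dm := by omega
    have f2 : 2543965 - v = dp := by omega
    have f3 : v + 5000 + α = m := hm.symm
    unfold ZHc.cell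
    rw [f1, f2, f3, hap, ham]
  rw [e1]
  exact hfin

theorem cellsg_bd (h : P.Star) {r k1 k2 α : ℕ} (hk1 : (k1 : ℝ) ≤ P.io (r / 10 ^ 6) * 10 ^ 6)
    (hk2 : P.io (r / 10 ^ 6) * 10 ^ 6 ≤ k2) : ∀ (n v : ℕ), v + 5000 * n ≤ 2543961 →
    ∫ t in ((v : ℝ) / 10 ^ 6)..(((v + 5000 * n : ℕ) : ℝ) / 10 ^ 6),
      |P.ker (r / 10 ^ 6) t| * w (t + α / 10 ^ 6) ≤
      (ZHc.cells r k1 k2 α n v : ℝ) * (5000 / (2 * 10 ^ 36)) := by
  intro n
  induction n with
  | zero =>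
    intro v _
    simp [ZHc.cells]
  | succ n ih =>
    intro v hv
    have hc := Sg_cont P (α / 10 ^ 6) (r / 10 ^ 6)
    have h1 := ih (v + 5000) (by omega)
    have h2 : v + 5000 + 5000 * n = v + 5000 * (n + 1) := by ring
    rw [h2] at h1
    rw [← intervalIntegral.integral_add_adjacent_intervals
      (hc.intervalIntegrable ((v : ℝ) / 10 ^ 6) (((v + 5000 : ℕ) : ℝ) / 10 ^ 6))
      (hc.intervalIntegrable _ _)]
    have h3 : ∫ t in ((v : ℝ) / 10 ^ 6)..(((v + 5000 : ℕ) : ℝ) / 10 ^ 6),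
        |P.ker (r / 10 ^ 6) t| * w (t + α / 10 ^ 6) ≤
        (ZHc.cell r k1 k2 α v : ℝ) * (5000 / (2 * 10 ^ 36)) := by
      have hle : (v : ℝ) / 10 ^ 6 ≤ ((v + 5000 : ℕ) : ℝ) / 10 ^ 6 := by
        push_cast
        linarith only []
      have h4 := intervalIntegral.integral_mono_on hle (hc.intervalIntegrable _ _)
        (continuous_const.intervalIntegrable (μ := volume) _ _)
        (g := fun _ => (ZHc.cell r k1 k2 α v : ℝ) / (2 * 10 ^ 30))
        (fun t ht => cellg_bd h hk1 hk2 (by linarith only [Nat.zero_le n, hv]) ht.1 ht.2)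
      refine h4.trans (le_of_eq ?_)
      rw [intervalIntegral.integral_const, smul_eq_mul]
      push_cast
      ring
    have h5 : (ZHc.cells r k1 k2 α (n + 1) v : ℝ) =
        (ZHc.cell r k1 k2 α v : ℝ) + (ZHc.cells r k1 k2 α n (v + 5000) : ℝ) := by
      show ((ZHc.cell r k1 k2 α v + ZHc.cells r k1 k2 α n (v + 5000) : ℕ) : ℝ) = _
      push_cast
      ring
    rw [h5, add_mul]
    exact add_le_add h3 h1

/-- one evaluation -/
theorem Sgval (h : P.Star) (r k1 k2 α n N : ℕ) {R A B s : ℝ} (hR : (r : ℝ) / 10 ^ 6 = R)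
    (hA : (α : ℝ) / 10 ^ 6 = A) (hB : ((5000 * n : ℕ) : ℝ) / 10 ^ 6 = B)
    (hk : (k1 : ℝ) ≤ P.io R * 10 ^ 6 ∧ P.io R * 10 ^ 6 ≤ k2) (hn : 5000 * n ≤ 2543961)
    (hN : ZHc.cells r k1 k2 α n 0 ≤ N * 10 ^ 29) (hs : (N : ℝ) * 0.00025 ≤ s) :
    P.Sg A B R ≤ s := by
  have h1 := cellsg_bd h (r := r) (k1 := k1) (k2 := k2) (α := α)
    (by rw [hR]; exact hk.1) (by rw [hR]; exact hk.2) n 0 (by omega)
  have h2 : (ZHc.cells r k1 k2 α n 0 : ℝ) ≤ N * 10 ^ 29 := by exact_mod_cast hN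
  rw [hR, hA, Nat.zero_add, Nat.cast_zero, zero_div, hB] at h1
  unfold Sg
  refine (h1.trans ?_).trans hs
  have h3 : (ZHc.cells r k1 k2 α n 0 : ℝ) * (5000 / (2 * 10 ^ 36)) ≤
      (N * 10 ^ 29) * (5000 / (2 * 10 ^ 36)) := mul_le_mul_of_nonneg_right h2 (by positivity)
  refine h3.trans (le_of_eq ?_)
  ring

/-- the chord in `r` -/
theorem Sg_chord (h : P.Star) {a b r1 r2 l ω : ℝ} (ha : 0 ≤ a) (hb0 : 0 ≤ b)
    (hω : w (b + a) ≤ ω) (hbY : b ≤ P.Y) (hr0 : 0 ≤ r1) (hr : r1 ≤ r2) (hl0 : 0 ≤ l) (hl1 : l ≤ 1) :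
    P.Sg a b (l * r1 + (1 - l) * r2) ≤ l * P.Sg a b r1 + (1 - l) * P.Sg a b r2 +
      0.254 * ω * (r2 - r1) ^ 2 := by
  obtain ⟨hY1, hY2, hL1, hL2⟩ := Y_pos h
  have hL := cx_L_pos h
  have hω0 : 0 ≤ ω := (w_nonneg _).trans hω
  set κ : ℝ := l * (1 - l) * (r2 - r1) ^ 2 / (2 * P.L) with hκ
  have hll : 0 ≤ l * (1 - l) := mul_nonneg hl0 (by linarith only [hl1])
  have hll4 : l * (1 - l) ≤ 1 / 4 := by nlinarith only [sq_nonneg (l - 1 / 2)]
  have hκ0 : 0 ≤ κ := by rw [hκ]; positivity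
  -- pointwise
  have hpt : ∀ t ∈ Icc 0 b, |P.ker (l * r1 + (1 - l) * r2) t| * w (t + a) ≤
      l * (|P.ker r1 t| * w (t + a)) + (1 - l) * (|P.ker r2 t| * w (t + a)) +
      ω * ((l * max (r1 - t) 0 + (1 - l) * max (r2 - t) 0 -
        max (l * r1 + (1 - l) * r2 - t) 0) + κ * ((P.Y - t) ^ 2 / 2)) := by
    intro t ht
    have h1 := ker_chord h (r1 := r1) (r2 := r2) (t := t) hl0 hl1
    rw [← hκ] at h1
    have h2 : w (t + a) ≤ ω := (w_mono (by linarith only [ht.1, ha, ht]) (by linarith only [ht.2, ht])).trans hω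
    have b1 := pos_chord (r1 - t) (r2 - t) l hl0 hl1
    have b2 : l * (r1 - t) + (1 - l) * (r2 - t) = l * r1 + (1 - l) * r2 - t := by ring
    rw [b2] at b1
    have h5 : 0 ≤ (l * max (r1 - t) 0 + (1 - l) * max (r2 - t) 0 -
        max (l * r1 + (1 - l) * r2 - t) 0) + κ * ((P.Y - t) ^ 2 / 2) := by
      have : 0 ≤ κ * ((P.Y - t) ^ 2 / 2) := by positivity
      linarith only [b1, this]
    have h6 := mul_le_mul_of_nonneg_right h1 (w_nonneg (t + a))
    have h7 := mul_le_mul_of_nonneg_right h2 h5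
    nlinarith only [h6, h7]
  have k1 := Sg_cont P a r1
  have k2 := Sg_cont P a r2
  have k3 := Sg_cont P a (l * r1 + (1 - l) * r2)
  have k4 : Continuous fun t : ℝ => l * max (r1 - t) 0 := by fun_prop
  have k5 : Continuous fun t : ℝ => (1 - l) * max (r2 - t) 0 := by fun_prop
  have k6 : Continuous fun t : ℝ => max (l * r1 + (1 - l) * r2 - t) 0 := by fun_prop
  have k7 : Continuous fun t : ℝ => κ * ((P.Y - t) ^ 2 / 2) := by fun_prop
  have i1 : Continuous fun t => l * (|P.ker r1 t| * w (t + a)) := continuous_const.mul k1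
  have i2 : Continuous fun t => (1 - l) * (|P.ker r2 t| * w (t + a)) := continuous_const.mul k2
  have i3 : Continuous fun t : ℝ => ω * ((l * max (r1 - t) 0 + (1 - l) * max (r2 - t) 0 -
        max (l * r1 + (1 - l) * r2 - t) 0) + κ * ((P.Y - t) ^ 2 / 2)) := by fun_prop
  have h1 := intervalIntegral.integral_mono_on hb0 (k3.intervalIntegrable (μ := volume) _ _)
    (((i1.add i2).add i3).intervalIntegrable _ _) hpt
  unfold Sg
  refine h1.trans ?_
  have h2 : ∫ t in (0:ℝ)..b, (l * (|P.ker r1 t| * w (t + a)) + (1 - l) * (|P.ker r2 t| * w (t + a)) +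
      ω * ((l * max (r1 - t) 0 + (1 - l) * max (r2 - t) 0 -
        max (l * r1 + (1 - l) * r2 - t) 0) + κ * ((P.Y - t) ^ 2 / 2))) =
      l * (∫ t in (0:ℝ)..b, |P.ker r1 t| * w (t + a)) +
        (1 - l) * (∫ t in (0:ℝ)..b, |P.ker r2 t| * w (t + a)) +
      ω * ((l * (∫ t in (0:ℝ)..b, max (r1 - t) 0) + (1 - l) * (∫ t in (0:ℝ)..b, max (r2 - t) 0) -
        (∫ t in (0:ℝ)..b, max (l * r1 + (1 - l) * r2 - t) 0)) +
          κ * (∫ t in (0:ℝ)..b, (P.Y - t) ^ 2 / 2)) := by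
    have i12 : Continuous fun t => l * (|P.ker r1 t| * w (t + a)) +
        (1 - l) * (|P.ker r2 t| * w (t + a)) := i1.add i2
    have k45 : Continuous fun t : ℝ => l * max (r1 - t) 0 + (1 - l) * max (r2 - t) 0 := k4.add k5
    have k456 : Continuous fun t : ℝ => l * max (r1 - t) 0 + (1 - l) * max (r2 - t) 0 -
        max (l * r1 + (1 - l) * r2 - t) 0 := k45.sub k6
    rw [intervalIntegral.integral_add (i12.intervalIntegrable _ _) (i3.intervalIntegrable _ _),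
      intervalIntegral.integral_add (i1.intervalIntegrable _ _) (i2.intervalIntegrable _ _),
      intervalIntegral.integral_const_mul, intervalIntegral.integral_const_mul,
      intervalIntegral.integral_const_mul,
      intervalIntegral.integral_add (k456.intervalIntegrable _ _) (k7.intervalIntegrable _ _),
      intervalIntegral.integral_sub (k45.intervalIntegrable _ _) (k6.intervalIntegrable _ _),
      intervalIntegral.integral_add (k4.intervalIntegrable _ _) (k5.intervalIntegrable _ _),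
      intervalIntegral.integral_const_mul, intervalIntegral.integral_const_mul,
      intervalIntegral.integral_const_mul]
  refine (le_of_eq h2).trans ?_
  rw [pos_int, pos_int, pos_int, sq_int]
  -- the values
  have hrr : 0 ≤ l * r1 + (1 - l) * r2 := by nlinarith only [hr0, hr, hl1]
  rw [max_eq_left (by linarith only [hr0] : 0 ≤ r1 - 0), max_eq_left (by linarith only [hr0, hr] : 0 ≤ r2 - 0),
    max_eq_left (by linarith : 0 ≤ l * r1 + (1 - l) * r2 - 0)]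
  have hΦ : (max (l * r1 + (1 - l) * r2 - b) 0) ^ 2 ≤
      l * (max (r1 - b) 0) ^ 2 + (1 - l) * (max (r2 - b) 0) ^ 2 := by
    have b1 := pos_chord (r1 - b) (r2 - b) l hl0 hl1
    have b2 : l * (r1 - b) + (1 - l) * (r2 - b) = l * r1 + (1 - l) * r2 - b := by ring
    rw [b2] at b1
    have b3 : (max (l * r1 + (1 - l) * r2 - b) 0) ^ 2 ≤
        (l * max (r1 - b) 0 + (1 - l) * max (r2 - b) 0) ^ 2 :=
      pow_le_pow_left₀ (le_max_right _ _) b1 2
    have b4 : (l * max (r1 - b) 0 + (1 - l) * max (r2 - b) 0) ^ 2 =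
        l * (max (r1 - b) 0) ^ 2 + (1 - l) * (max (r2 - b) 0) ^ 2 -
        l * (1 - l) * (max (r1 - b) 0 - max (r2 - b) 0) ^ 2 := by ring
    have b5 := mul_nonneg hll (sq_nonneg (max (r1 - b) 0 - max (r2 - b) 0))
    linarith only [b3, b5]
  have hY3 : (P.Y - 0) ^ 3 / 6 - (P.Y - b) ^ 3 / 6 ≤ 2.745 := by
    have a1 : (P.Y - 0) ^ 3 ≤ 2.543965 ^ 3 := pow_le_pow_left₀ (by linarith only [hb0, hbY]) (by linarith only [hY2]) 3
    have a2 : 0 ≤ (P.Y - b) ^ 3 := pow_nonneg (by linarith only [hbY]) 3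
    norm_num at a1 ⊢
    linarith only [hL1, hL2, a2, a1]
  have hκ2 : κ * 2.745 ≤ 0.129 * (r2 - r1) ^ 2 := by
    rw [hκ]
    rw [div_mul_eq_mul_div, div_le_iff₀ (by positivity)]
    have h9 : l * (1 - l) * (r2 - r1) ^ 2 ≤ 1 / 4 * (r2 - r1) ^ 2 :=
      mul_le_mul_of_nonneg_right hll4 (sq_nonneg _)
    have h10 : 0.129 * (r2 - r1) ^ 2 * (2 * 2.665779) ≤ 0.129 * (r2 - r1) ^ 2 * (2 * P.L) :=
      mul_le_mul_of_nonneg_left (by linarith only [hL1]) (by positivity)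
    have h11 := sq_nonneg (r2 - r1)
    linarith only [h9, h10, h11]
  have h8 : κ * ((P.Y - 0) ^ 3 / 6 - (P.Y - b) ^ 3 / 6) ≤ κ * 2.745 :=
    mul_le_mul_of_nonneg_left hY3 hκ0
  have h9 : l * (r1 - 0) ^ 2 / 2 + (1 - l) * (r2 - 0) ^ 2 / 2 -
      (l * r1 + (1 - l) * r2 - 0) ^ 2 / 2 = l * (1 - l) * (r2 - r1) ^ 2 / 2 := by ring
  have h10 : l * (1 - l) * (r2 - r1) ^ 2 ≤ 1 / 4 * (r2 - r1) ^ 2 :=
    mul_le_mul_of_nonneg_right hll4 (sq_nonneg _)
  have h11 := sq_nonneg (r2 - r1)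
  set A : ℝ := ∫ t in (0:ℝ)..b, |P.ker r1 t| * w (t + a)
  set B : ℝ := ∫ t in (0:ℝ)..b, |P.ker r2 t| * w (t + a)
  set D1 : ℝ := (max (r1 - b) 0) ^ 2
  set D2 : ℝ := (max (r2 - b) 0) ^ 2
  set D3 : ℝ := (max (l * r1 + (1 - l) * r2 - b) 0) ^ 2
  have h12 : l * ((r1 - 0) ^ 2 / 2 - D1 / 2) + (1 - l) * ((r2 - 0) ^ 2 / 2 - D2 / 2) -
      ((l * r1 + (1 - l) * r2 - 0) ^ 2 / 2 - D3 / 2) =
      l * (1 - l) * (r2 - r1) ^ 2 / 2 - (l * D1 + (1 - l) * D2 - D3) / 2 := by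
    rw [← h9]
    ring
  rw [h12]
  have h13 : l * (1 - l) * (r2 - r1) ^ 2 / 2 - (l * D1 + (1 - l) * D2 - D3) / 2 +
      κ * ((P.Y - 0) ^ 3 / 6 - (P.Y - b) ^ 3 / 6) ≤ 0.254 * (r2 - r1)^2 := by linarith only [hκ2, h8, h10, hΦ]
  have h14 := mul_le_mul_of_nonneg_left h13 hω0
  linarith only [h14]

/-- beyond `ρ` the kernel is affine in `r` -/
theorem Sg_conv (h : P.Star) {a b r1 r2 l : ℝ} (hb0 : 0 ≤ b)
    (hb : b ≤ r1) (hr1 : P.ρ ≤ r1) (hr : r1 ≤ r2) (hl0 : 0 ≤ l) (hl1 : l ≤ 1) :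
    P.Sg a b (l * r1 + (1 - l) * r2) ≤ l * P.Sg a b r1 + (1 - l) * P.Sg a b r2 := by
  have hL := cx_L_pos h
  have hrr : r1 ≤ l * r1 + (1 - l) * r2 := by nlinarith only [hr, hl1]
  have e1 : P.io (l * r1 + (1 - l) * r2) = l * P.io r1 + (1 - l) * P.io r2 := by
    unfold io
    rw [(zh_ext h (hr1.trans hrr)).1, (zh_ext h hr1).1, (zh_ext h (hr1.trans hr)).1]
    field_simp
    ring
  have k1 := Sg_cont P a r1
  have k2 := Sg_cont P a r2
  have k3 := Sg_cont P a (l * r1 + (1 - l) * r2)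
  have i1 : Continuous fun t => l * (|P.ker r1 t| * w (t + a)) := continuous_const.mul k1
  have i2 : Continuous fun t => (1 - l) * (|P.ker r2 t| * w (t + a)) := continuous_const.mul k2
  unfold Sg
  rw [← intervalIntegral.integral_const_mul, ← intervalIntegral.integral_const_mul,
    ← intervalIntegral.integral_add (i1.intervalIntegrable _ _) (i2.intervalIntegrable _ _)]
  apply intervalIntegral.integral_mono_on hb0 (k3.intervalIntegrable _ _)
    ((i1.add i2).intervalIntegrable _ _)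
  intro t ht
  have h1 : P.ker (l * r1 + (1 - l) * r2) t = l * P.ker r1 t + (1 - l) * P.ker r2 t := by
    unfold ker
    rw [e1, max_eq_left (by linarith [ht.2]), max_eq_left (by linarith [ht.2]),
      max_eq_left (by linarith [ht.2])]
    ring
  have h2 : |P.ker (l * r1 + (1 - l) * r2) t| ≤ l * |P.ker r1 t| + (1 - l) * |P.ker r2 t| := by
    rw [h1]
    refine (abs_add_le _ _).trans (le_of_eq ?_)
    rw [abs_mul, abs_mul, abs_of_nonneg hl0, abs_of_nonneg (by linarith : 0 ≤ 1 - l)]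
  have h3 := mul_le_mul_of_nonneg_right h2 (w_nonneg (t + a))
  show |P.ker (l * r1 + (1 - l) * r2) t| * w (t + a) ≤
    l * (|P.ker r1 t| * w (t + a)) + (1 - l) * (|P.ker r2 t| * w (t + a))
  linarith only [h3]

end Pool.Agent.CDk.Par
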