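import Pool.Agent.CDk.CX
import Pool.Agent.CDk.D.ZHa
import Pool.Agent.CDk.D.ZHb
import Pool.Agent.CDk.D.ZHc
import Pool.Agent.CDk.D.ZHd
import Pool.Agent.CDk.D.ZP
import Pool.Agent.CDk.Defs
import Pool.Agent.CDk.ENC
import Pool.Agent.CDk.FIN4
import Pool.Agent.CDk.FNa
import Pool.Agent.CDk.Ker
import Pool.Agent.CDk.T1a

/-!
# ZHe: the bound of `TN` and the check on one rectangle (helper file of ZHs, ZHm, ZHl)
-/

open MeasureTheory Set Filter Topology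

namespace Pool.Agent.CDk.Par
open Pool.Agent.CDk.ZP
variable {P : Par}

noncomputable def zkA (P : Par) (a c r y : ℝ) : ℝ :=
  P.io r * (P.sg / (P.Y - a) + Real.cosh (P.s - a + y)) - (∫ v in (0:ℝ)..(c - a), P.ker r v) / (P.Y - a)
noncomputable def zTN (P : Par) (a c r : ℝ) : ℝ :=
  (∫ y in (0:ℝ)..a, |P.zkA a c r y| * w y) + ∫ y in a..c, |P.ker r (y - a)| * w y

theorem zh_I_sq (h : P.Star) {r : ℝ} (hr : 0 ≤ r) (hr1 : r ≤ P.Y) : 0.2 * r^2 ≤ P.I r := by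
  have h1 := intervalIntegral.integral_eq_sub_of_hasDerivAt (a := 0) (b := r)
    (fun t _ => I_deriv h t) ((D_cont h).intervalIntegrable _ _)
  rw [I_zero h le_rfl, sub_zero] at h1
  have hc : Continuous fun t : ℝ => 0.4 * t := by fun_prop
  have h2 := intervalIntegral.integral_mono_on hr (hc.intervalIntegrable (μ := volume) _ _)
    ((D_cont h).intervalIntegrable _ _) (fun t ht => D_lower h ht.1 (ht.2.trans hr1))
  rw [h1, intervalIntegral.integral_const_mul, integral_id] at h2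
  linarith

theorem zh_ker_int (h : P.Star) {r R : ℝ} (hr : 0 ≤ r) (hR : 0 ≤ R) (hRY : R ≤ P.Y) :
    ∫ v in (0:ℝ)..R, P.ker r v ≤ r^2/2 ∧ -(2.7441 * P.io r) ≤ ∫ v in (0:ℝ)..R, P.ker r v := by
  obtain ⟨hY1, hY2, hL1, hL2⟩ := Y_pos h
  have hio := t1_io_nonneg h hr
  have hc1 : Continuous fun v : ℝ => max (r - v) 0 := by fun_prop
  have hc2 : Continuous fun v : ℝ => P.io r * ((P.Y - v)^2/2) := by fun_prop
  have h1 : ∫ v in (0:ℝ)..R, P.ker r v = (r^2/2 - (max (r - R) 0)^2/2) -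
      P.io r * (P.Y^3/6 - (P.Y - R)^3/6) := by
    have h2 : ∫ v in (0:ℝ)..R, P.ker r v =
        ∫ v in (0:ℝ)..R, (max (r - v) 0 - P.io r * ((P.Y - v)^2/2)) :=
      intervalIntegral.integral_congr fun v _ => by
        show P.ker r v = max (r - v) 0 - P.io r * ((P.Y - v)^2/2)
        unfold ker
        ring
    rw [h2, intervalIntegral.integral_sub (hc1.intervalIntegrable _ _)
      (hc2.intervalIntegrable _ _), pos_int, intervalIntegral.integral_const_mul, sq_int, sub_zero,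
      sub_zero, max_eq_left hr]
  have h3 : 0 ≤ (P.Y - R)^3 := pow_nonneg (by linarith only [hRY]) 3
  have h4 : P.Y^3 ≤ 16.4641 := by
    have : P.Y^3 ≤ 2.543965^3 := pow_le_pow_left₀ (by linarith only [hR, hRY]) hY2.le 3
    refine this.trans (by norm_num)
  have h5 : (P.Y - R)^3 ≤ P.Y^3 := pow_le_pow_left₀ (by linarith) (by linarith only [hR]) 3
  have h6 : 0 ≤ P.io r * (P.Y^3/6 - (P.Y - R)^3/6) := mul_nonneg hio (by linarith only [h5])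
  have h7 : P.io r * (P.Y^3/6 - (P.Y - R)^3/6) ≤ P.io r * 2.7441 :=
    mul_le_mul_of_nonneg_left (by linarith only [hL1, hL2, h3, h4]) hio
  have h8 : 0 ≤ max (r - R) 0 := le_max_right _ _
  have h9 : max (r - R) 0 ≤ r := max_le (by linarith only [hR]) hr
  have h10 : (max (r - R) 0)^2 ≤ r^2 := pow_le_pow_left₀ h8 h9 2
  have h11 : 0 ≤ (max (r - R) 0)^2 := sq_nonneg _
  rw [h1]
  constructor <;> linarith

theorem zh_kA (h : P.Star) {a c r y : ℝ} (ha : 0 ≤ a) (ha1 : a ≤ 0.45) (hr : 0 ≤ r) (hr1 : r ≤ 2.2)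
    (hR : 0 ≤ c - a) (hRY : c - a ≤ P.Y) (hy : 0 ≤ y) (hya : y ≤ a) :
    |P.zkA a c r y| ≤ 2.69 * P.io r := by
  obtain ⟨hY1, hY2, hL1, hL2⟩ := Y_pos h
  obtain ⟨hC1, hC2⟩ := zh_C h
  obtain ⟨hS1, hS2⟩ := sg_bd h
  have hL := cx_L_pos h
  have hs := h.s_lo
  have hio := t1_io_nonneg h hr
  obtain ⟨k1, k2⟩ := zh_ker_int h hr hR hRY
  have hcosh : Real.cosh (P.s - a + y) ≤ 1.1279 := by
    refine le_trans ?_ hC2
    rw [Real.cosh_le_cosh, abs_of_nonneg (by linarith only [ha1, hy, hS1, hS2, hs]), abs_of_nonneg (by linarith only [hS1, hS2, hs])]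
    linarith only [hya]
  have hcosh1 := Real.one_le_cosh (P.s - a + y)
  have hYa : 2.093961 ≤ P.Y - a := by linarith only [ha1, hY1]
  have hYa0 : 0 < P.Y - a := by linarith only [ha1, hY1, hS1, hS2]
  have h1 : P.sg / (P.Y - a) ≤ 0.24914 := by
    rw [div_le_iff₀ hYa0]
    nlinarith only [ha1, hY1, hS1, hS2]
  have h2 : 0 ≤ P.sg / (P.Y - a) := div_nonneg (by linarith only [hS1, hS2]) hYa0.le
  have h3 : (∫ v in (0:ℝ)..(c - a), P.ker r v) / (P.Y - a) ≤ 0.2388 * r^2 := by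
    rw [div_le_iff₀ hYa0]
    have h4 : 0.2388 * r^2 * 2.093961 ≤ 0.2388 * r^2 * (P.Y - a) :=
      mul_le_mul_of_nonneg_left hYa (by positivity)
    have h5 := sq_nonneg r
    linarith only [k1, h4, h5]
  have h4 : -(1.31051 * P.io r) ≤ (∫ v in (0:ℝ)..(c - a), P.ker r v) / (P.Y - a) := by
    rw [le_div_iff₀ hYa0]
    have h5 : 1.31051 * P.io r * 2.093961 ≤ 1.31051 * P.io r * (P.Y - a) :=
      mul_le_mul_of_nonneg_left hYa (by positivity)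
    linarith only [hio, k2, h5]
  have h5 : 0.2 * r^2 ≤ P.io r * 2.665784 := by
    have h6 := zh_I_sq h hr (by linarith only [hr1, hY1, hS1, hS2])
    have h7 : P.io r * P.L = P.I r := by unfold io; field_simp
    have h8 : P.io r * P.L ≤ P.io r * 2.665784 := mul_le_mul_of_nonneg_left hL2.le hio
    linarith only [h6, h7, h8]
  have h6 : P.io r * (P.sg / (P.Y - a) + Real.cosh (P.s - a + y)) ≤ P.io r * 1.37704 :=
    mul_le_mul_of_nonneg_left (by linarith only [hcosh, h1]) hio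
  have h7 : P.io r * 1 ≤ P.io r * (P.sg / (P.Y - a) + Real.cosh (P.s - a + y)) :=
    mul_le_mul_of_nonneg_left (by linarith only [hcosh1, h2]) hio
  unfold zkA
  rw [abs_le]
  constructor
  · linarith only [hio, h3, h5, h7]
  · linarith only [hio, h4, h6]

theorem zh_TN1 (h : P.Star) {a c r : ℝ} (ha : 0 ≤ a) (ha1 : a ≤ 0.45) (hr : 0 ≤ r) (hr1 : r ≤ 2.2)
    (hR : 0 ≤ c - a) (hRY : c - a ≤ P.Y) :
    ∫ y in (0:ℝ)..a, |P.zkA a c r y| * w y ≤ 2.69 * P.io r * a^3 := by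
  have hio := t1_io_nonneg h hr
  have hc1 : Continuous fun y => |P.zkA a c r y| * w y := by
    have := w_cont
    unfold zkA
    fun_prop
  have hc2 : Continuous fun y : ℝ => 2.69 * P.io r * (3 * y^2) := by fun_prop
  have h1 := intervalIntegral.integral_mono_on ha (hc1.intervalIntegrable (μ := volume) _ _)
    (hc2.intervalIntegrable _ _) (fun y hy => mul_le_mul
      (zh_kA h ha ha1 hr hr1 hR hRY hy.1 hy.2) (w_le_sq (by linarith [hy.2])).1 (w_nonneg y)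
      (by positivity))
  refine h1.trans (le_of_eq ?_)
  rw [intervalIntegral.integral_const_mul, intervalIntegral.integral_const_mul, integral_pow]
  push_cast
  ring

theorem zh_TN2 (h : P.Star) {a c r a2 b : ℝ} (ha : 0 ≤ a) (ha2 : a ≤ a2) (hac : a ≤ c)
    (hb : c - a ≤ b) :
    ∫ y in a..c, |P.ker r (y - a)| * w y ≤ P.Sg a2 b r := by
  have h1 := intervalIntegral.integral_comp_add_right (a := 0) (b := c - a)
    (fun y => |P.ker r (y - a)| * w y) a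
  rw [zero_add, sub_add_cancel] at h1
  rw [← h1]
  have hk := ker_cont P r
  have hw := w_cont
  have hc1 : Continuous fun t => |P.ker r (t + a - a)| * w (t + a) := by fun_prop
  have hc2 := Sg_cont P a2 r
  unfold Sg
  rw [← intervalIntegral.integral_add_adjacent_intervals (hc2.intervalIntegrable 0 (c - a))
    (hc2.intervalIntegrable (c - a) b)]
  have h2 : ∫ t in (0:ℝ)..(c - a), |P.ker r (t + a - a)| * w (t + a) ≤
      ∫ t in (0:ℝ)..(c - a), |P.ker r t| * w (t + a2) := by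
    apply intervalIntegral.integral_mono_on (by linarith) (hc1.intervalIntegrable _ _)
      (hc2.intervalIntegrable _ _)
    intro t ht
    rw [add_sub_cancel_right]
    exact mul_le_mul_of_nonneg_left (w_mono (by linarith [ht.1]) (by linarith)) (abs_nonneg _)
  have h3 : 0 ≤ ∫ t in (c - a)..b, |P.ker r t| * w (t + a2) :=
    intervalIntegral.integral_nonneg hb fun t _ => mul_nonneg (abs_nonneg _) (w_nonneg _)
  linarith

/-- the end of every estimate -/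
theorem zh_fin (h : P.Star) {a r F T W Iu TN : ℝ} (ha : 0 ≤ a)
    (hF : |P.L * P.zH a r| ≤ F) (hTN : TN ≤ 2.69 * P.io r * a^3 + T) (hT : 0 ≤ T)
    (hI : P.I r ≤ Iu) (hW : W ≤ w r) (hW0 : 0 ≤ W)
    (hA : F ≤ 2.665779 * (0.0295 * (a + 0.121818)) * W)
    (hB : F + 0.03 * (2.665784 * T + 2.69 * a^3 * Iu) ≤
      2.665779 * (0.0295 * (a + 0.121818) + 0.0051) * W) :
    |P.zH a r| ≤ 0.0295 * (a + P.e0) * w r ∧
    |P.zH a r| + 0.03 * TN ≤ (0.0295 * (a + P.e0) + 0.0051) * w r := by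
  obtain ⟨hY1, hY2, hL1, hL2⟩ := Y_pos h
  have hL := cx_L_pos h
  have he := h.e_lo
  have hwr : 0 ≤ w r := hW0.trans hW
  have h1 : |P.L * P.zH a r| = P.L * |P.zH a r| := by
    rw [abs_mul, abs_of_pos hL]
  rw [h1] at hF
  have h2 : 2.665779 * (0.0295 * (a + 0.121818)) * W ≤ P.L * (0.0295 * (a + P.e0) * w r) := by
    have e1 : 0.0295 * (a + 0.121818) * W ≤ 0.0295 * (a + P.e0) * w r :=
      mul_le_mul (by linarith only [he]) hW hW0 (by linarith only [ha, hL1, hL2, he])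
    have e2 : 0 ≤ 0.0295 * (a + 0.121818) * W := by positivity
    calc 2.665779 * (0.0295 * (a + 0.121818)) * W = 2.665779 * (0.0295 * (a + 0.121818) * W) := by ring
      _ ≤ P.L * (0.0295 * (a + P.e0) * w r) := mul_le_mul hL1.le e1 e2 hL.le
  have h3 : 2.665779 * (0.0295 * (a + 0.121818) + 0.0051) * W ≤
      P.L * ((0.0295 * (a + P.e0) + 0.0051) * w r) := by
    have e1 : (0.0295 * (a + 0.121818) + 0.0051) * W ≤ (0.0295 * (a + P.e0) + 0.0051) * w r :=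
      mul_le_mul (by linarith only [he]) hW hW0 (by linarith only [ha, hL1, hL2, he])
    have e2 : 0 ≤ (0.0295 * (a + 0.121818) + 0.0051) * W := by positivity
    calc 2.665779 * (0.0295 * (a + 0.121818) + 0.0051) * W =
        2.665779 * ((0.0295 * (a + 0.121818) + 0.0051) * W) := by ring
      _ ≤ P.L * ((0.0295 * (a + P.e0) + 0.0051) * w r) := mul_le_mul hL1.le e1 e2 hL.le
  constructor
  · exact le_of_mul_le_mul_left (by linarith only [hF, hA, h2]) hL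
  · refine le_of_mul_le_mul_left ?_ hL
    have e1 : P.L * (2.69 * P.io r * a^3) ≤ 2.69 * a^3 * Iu := by
      have e2 : P.L * (2.69 * P.io r * a^3) = 2.69 * a^3 * P.I r := by
        unfold io
        field_simp
      rw [e2]
      exact mul_le_mul_of_nonneg_left hI (by positivity)
    have e3 : P.L * T ≤ 2.665784 * T := mul_le_mul_of_nonneg_right hL2.le hT
    have e4 : P.L * TN ≤ P.L * (2.69 * P.io r * a^3 + T) := mul_le_mul_of_nonneg_left hTN hL.le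
    have e5 : P.L * (2.69 * P.io r * a^3 + T) = P.L * (2.69 * P.io r * a^3) + P.L * T := by ring
    linarith only [hF, hB, h3, e1, e3, e4]

/-! ## one rectangle -/

theorem okq_sound {a r g : ℝ} {p q : List (List ℚ)} {e a1 a2 r1 r2 : ℚ} (h : Ap a r g p e)
    (hc : okq p e q a1 a2 r1 r2 = true) (h1 : (a1:ℝ) ≤ a) (h2 : a ≤ a2) (h3 : (r1:ℝ) ≤ r)
    (h4 : r ≤ r2) : |g| ≤ ev2 q a r := by
  unfold okq at hc
  rw [Bool.and_eq_true] at hc
  have k1 := h.le 8 a1 a2 r1 r2 hc.1 h1 h2 h3 h4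
  have k2 := h.neg.le 8 a1 a2 r1 r2 hc.2 h1 h2 h3 h4
  rw [abs_le]
  constructor <;> linarith

theorem ev_bA (w0 w1 : ℚ) (a r : ℝ) : ev2 (mul2 bA [[w0], [w1]]) a r =
    2.665779 * (0.0295 * (a + 0.121818)) * (w0 + w1 * r) := by
  rw [ev2_mul2]
  simp only [bA, ev2, ev]
  push_cast
  ring

theorem ev_rhsB (w0 w1 t0 t1 : ℚ) (pI : List (List ℚ)) (a r : ℝ) :
    ev2 (rhsB w0 w1 t0 t1 pI) a r =
    2.665779 * (0.0295 * (a + 0.121818) + 0.0051) * (w0 + w1 * r) -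
      0.03 * (2.665784 * (t0 + t1 * r) + 2.69 * a^3 * ev2 pI a r) := by
  unfold rhsB
  rw [ev2_add2, ev2_mul2, ev2_neg2, ev2_add2, ev2_mul2]
  simp only [bB, ev2, ev]
  push_cast
  ring

theorem zh_rect (h : P.Star) {a c r b : ℝ} {A1 A2 R1 R2 t0 t1 w0 w1 e : ℚ} {p pI : List (List ℚ)}
    (ha : 0 ≤ a) (ha1 : a ≤ 0.45) (hcb : CB a c) (hr : 0 ≤ r) (hr1 : r ≤ 2.2)
    (hA1 : (A1:ℝ) ≤ a) (hA2 : a ≤ A2) (hR1 : (R1:ℝ) ≤ r) (hR2 : r ≤ R2)
    (hb : 1.5625 - 0.558 * (A1:ℝ) ≤ b) (hLH : Ap a r (P.L * P.zH a r) p e)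
    (hI : P.I r ≤ ev2 pI a r) (hW : w0 + w1 * r ≤ w r) (hW0 : (0:ℝ) ≤ w0 + w1 * r)
    (hT : P.Sg A2 b r ≤ t0 + t1 * r)
    (hck : okR p e pI w0 w1 t0 t1 A1 A2 R1 R2 = true) :
    |P.zH a r| ≤ 0.0295 * (a + P.e0) * w r ∧
    |P.zH a r| + 0.03 * P.zTN a c r ≤ (0.0295 * (a + P.e0) + 0.0051) * w r := by
  obtain ⟨hY1, hY2, hL1, hL2⟩ := Y_pos h
  obtain ⟨c1, c2, c3, c4, c5⟩ := zh_CB ha ha1 hcb
  unfold okR at hck
  rw [Bool.and_eq_true] at hck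
  have k1 := okq_sound hLH hck.1 hA1 hA2 hR1 hR2
  have k2 := okq_sound hLH hck.2 hA1 hA2 hR1 hR2
  rw [ev_bA] at k1
  rw [ev_rhsB] at k2
  have hcb2 : c - a ≤ b := by
    have := hcb.2
    linarith only [hA1, hb, this]
  have hS := zh_TN2 h (r := r) ha hA2 (by linarith only [hL1, hL2, c1] : a ≤ c) hcb2
  have hS0 : 0 ≤ P.Sg A2 b r := by
    refine le_trans ?_ hS
    exact intervalIntegral.integral_nonneg (by linarith only [hL1, hL2, c1]) fun t _ =>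
      mul_nonneg (abs_nonneg _) (w_nonneg _)
  have hTN : P.zTN a c r ≤ 2.69 * P.io r * a^3 + (t0 + t1 * r) := by
    unfold zTN
    have := zh_TN1 h ha ha1 hr hr1 (by linarith only [hL1, hL2, c1] : 0 ≤ c - a) (by linarith only [hY1, hL1, hL2, c2])
    linarith only [hT, hS, this]
  exact zh_fin h ha (F := |P.L * P.zH a r|) (T := t0 + t1 * r) (W := w0 + w1 * r)
    (Iu := ev2 pI a r) le_rfl hTN (hS0.trans hT) hI hW hW0 k1 (by linarith only [k2])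

theorem zh_chord (h : P.Star) {r b : ℝ} {A2 R1 R2 s1 s2 ω : ℚ} (hA0 : 0 ≤ A2)
    (hb0 : 0 ≤ b) (hbY : b ≤ 2.54) (hω : b + A2 ≤ 1.4 + ((ω:ℝ) - 1)/4) (hω1 : 1 ≤ ω)
    (hR0 : 0 ≤ R1) (hR : R1 < R2) (hR1 : (R1:ℝ) ≤ r) (hR2 : r ≤ R2)
    (hS1 : P.Sg A2 b R1 ≤ s1) (hS2 : P.Sg A2 b R2 ≤ s2) :
    P.Sg A2 b r ≤ (tt0 R1 R2 s1 s2 ω : ℚ) + (tt1 R1 R2 s1 s2 : ℚ) * r := by
  obtain ⟨hY1, hY2, hL1, hL2⟩ := Y_pos h
  have hA0' : (0:ℝ) ≤ A2 := by exact_mod_cast hA0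
  have hR' : (R1:ℝ) < R2 := by exact_mod_cast hR
  have hR0' : (0:ℝ) ≤ R1 := by exact_mod_cast hR0
  have hω1' : (1:ℝ) ≤ ω := by exact_mod_cast hω1
  have hd : 0 < (R2:ℝ) - R1 := by linarith only [hR']
  have hw : w (b + A2) ≤ ω := by
    unfold w
    have h1 : min (3 * (b + A2)^2) 1 ≤ 1 := min_le_right _ _
    have h2 : max (b + A2 - 1.4) 0 ≤ ((ω:ℝ) - 1)/4 := max_le (by linarith only [hω]) (by linarith)
    linarith
  obtain ⟨l, hl⟩ : ∃ l, l = (R2 - r) / (R2 - R1) := ⟨_, rfl⟩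
  have hl' : l * (R2 - R1) = R2 - r := by rw [hl]; field_simp
  have hl0 : 0 ≤ l := by rw [hl]; exact div_nonneg (by linarith) hd.le
  have hl1 : l ≤ 1 := by rw [hl, div_le_one hd]; linarith
  have hr : l * R1 + (1 - l) * R2 = r := by linarith only [hl']
  have h3 := Sg_chord h (a := A2) (b := b) hA0' hb0 hw (by linarith) hR0' hR'.le hl0 hl1
  rw [hr] at h3
  have h4 : l * P.Sg A2 b R1 ≤ l * s1 := mul_le_mul_of_nonneg_left hS1 hl0
  have h5 : (1 - l) * P.Sg A2 b R2 ≤ (1 - l) * s2 := mul_le_mul_of_nonneg_left hS2 (by linarith only [hl1])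
  have h6 : ((tt0 R1 R2 s1 s2 ω : ℚ) : ℝ) + (tt1 R1 R2 s1 s2 : ℚ) * r =
      l * s1 + (1 - l) * s2 + 0.254 * ω * (R2 - R1)^2 := by
    unfold tt0 tt1
    push_cast
    have h7 : (1 - l) * ((R2:ℝ) - R1) = r - R1 := by linarith only [hl']
    have h8 : ((s2:ℝ) - s1)/(R2 - R1) * (r - R1) = (1 - l) * (s2 - s1) := by
      rw [← h7]
      field_simp
    linarith only [h8]
  rw [h6]
  linarith only [h3, h4, h5]

theorem zh_chord3 (h : P.Star) {r b : ℝ} {A2 R1 R2 s1 s2 : ℚ}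
    (hb0 : 0 ≤ b) (hb : b ≤ 1.65) (hR0 : 1.65 ≤ R1) (hR : R1 < R2) (hR1 : (R1:ℝ) ≤ r) (hR2 : r ≤ R2)
    (hS1 : P.Sg A2 b R1 ≤ s1) (hS2 : P.Sg A2 b R2 ≤ s2) :
    P.Sg A2 b r ≤ (tt0 R1 R2 s1 s2 0 : ℚ) + (tt1 R1 R2 s1 s2 : ℚ) * r := by
  have hR' : (R1:ℝ) < R2 := by exact_mod_cast hR
  have hR0' : (1.65:ℝ) ≤ R1 := by
    have : ((1.65:ℚ):ℝ) ≤ R1 := by exact_mod_cast hR0
    norm_num at this ⊢
    exact this
  have hρ := h.ρ_hi
  have hd : 0 < (R2:ℝ) - R1 := by linarith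
  obtain ⟨l, hl⟩ : ∃ l, l = (R2 - r) / (R2 - R1) := ⟨_, rfl⟩
  have hl' : l * (R2 - R1) = R2 - r := by rw [hl]; field_simp
  have hl0 : 0 ≤ l := by rw [hl]; exact div_nonneg (by linarith) hd.le
  have hl1 : l ≤ 1 := by rw [hl, div_le_one hd]; linarith
  have hr : l * R1 + (1 - l) * R2 = r := by linarith only [hl']
  have h3 := Sg_conv h (a := A2) (b := b) hb0 (by linarith : b ≤ R1) (by linarith) hR'.le hl0 hl1
  rw [hr] at h3
  have h4 : l * P.Sg A2 b R1 ≤ l * s1 := mul_le_mul_of_nonneg_left hS1 hl0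
  have h5 : (1 - l) * P.Sg A2 b R2 ≤ (1 - l) * s2 := mul_le_mul_of_nonneg_left hS2 (by linarith)
  have h6 : ((tt0 R1 R2 s1 s2 0 : ℚ) : ℝ) + (tt1 R1 R2 s1 s2 : ℚ) * r =
      l * s1 + (1 - l) * s2 := by
    unfold tt0 tt1
    push_cast
    have h7 : (1 - l) * ((R2:ℝ) - R1) = r - R1 := by linarith only [hl']
    have h8 : ((s2:ℝ) - s1)/(R2 - R1) * (r - R1) = (1 - l) * (s2 - s1) := by
      rw [← h7]
      field_simp
    linarith only [h8]
  rw [h6]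
  linarith

/-! ## the polynomials of the three regions -/

theorem zh_r1 (h : P.Star) {a c r b : ℝ} (A1 A2 R1 R2 s1 s2 ω : ℚ) (ha : 0 ≤ a) (ha1 : a ≤ 0.45)
    (hc : P.io c = P.zq a) (hcb : CB a c) (hr : 0.58 ≤ r) (hr1 : r ≤ 1.4)
    (hA1 : (A1:ℝ) ≤ a) (hA2 : a ≤ A2) (hR1 : (R1:ℝ) ≤ r) (hR2 : r ≤ R2) (hR0 : 0 ≤ R1) (hR : R1 < R2)
    (hb : 1.5625 - 0.558 * (A1:ℝ) ≤ b) (hb0 : 0 ≤ b) (hbY : b ≤ 2.54)
    (hω : b + A2 ≤ 1.4 + ((ω:ℝ) - 1)/4) (hω1 : 1 ≤ ω) (hA0 : 0 ≤ A2)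
    (hS1 : P.Sg A2 b R1 ≤ s1) (hS2 : P.Sg A2 b R2 ≤ s2)
    (hck : okR pH1 0.000364 pI12 1 0 (tt0 R1 R2 s1 s2 ω) (tt1 R1 R2 s1 s2) A1 A2 R1 R2 = true) :
    |P.zH a r| ≤ 0.0295 * (a + P.e0) * w r ∧
    |P.zH a r| + 0.03 * P.zTN a c r ≤ (0.0295 * (a + P.e0) + 0.0051) * w r := by
  obtain ⟨f, f1, f2, -, f3⟩ := zh_LH1 h ha ha1 hc hcb (by linarith only [hr]) hr1
  have k1 : Ap a r (P.L * P.zH a r) pH1 0.000364 := by
    refine Ap_mono (Ap_weak (δ := 0.00015) f3 ?_) (by norm_num)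
    rw [abs_of_nonneg f1]
    refine f2.trans (by norm_num)
  have hI : P.I r ≤ ev2 pI12 a r := by
    unfold pI12
    rw [ev2_add2, ev2_comp2]
    have e1 : ev2 [[], [1]] a r = r := by simp [ev2, ev]
    rw [e1, ev_lI]
    have e2 : ev2 [[0.00002]] a r = 0.00002 := by
      simp only [ev2, ev]
      push_cast
      ring
    rw [e2]
    have := (abs_le.1 (I_app h (y := r) (by linarith only [hr]) (by linarith only [h.ρ_lo, hr1, h]))).2
    linarith only [this]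
  exact zh_rect h ha ha1 hcb (by linarith only [hr]) (by linarith only [hr1]) hA1 hA2 hR1 hR2 hb k1 hI
    (by push_cast; linarith only [w_ge_one (r := r) (by linarith), hr]) (by push_cast; linarith only [])
    (zh_chord h hA0 hb0 hbY hω hω1 hR0 hR hR1 hR2 hS1 hS2) hck

theorem zh_r2 (h : P.Star) {a c r b : ℝ} (A1 A2 R1 R2 s1 s2 ω : ℚ) (ha : 0 ≤ a) (ha1 : a ≤ 0.45)
    (hc : P.io c = P.zq a) (hcb : CB a c) (hr : 1.4 ≤ r) (hr1 : r ≤ 1.65)
    (hA1 : (A1:ℝ) ≤ a) (hA2 : a ≤ A2) (hR1 : (R1:ℝ) ≤ r) (hR2 : r ≤ R2) (hR0 : 0 ≤ R1) (hR : R1 < R2)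
    (hb : 1.5625 - 0.558 * (A1:ℝ) ≤ b) (hb0 : 0 ≤ b) (hbY : b ≤ 2.54)
    (hω : b + A2 ≤ 1.4 + ((ω:ℝ) - 1)/4) (hω1 : 1 ≤ ω) (hA0 : 0 ≤ A2)
    (hS1 : P.Sg A2 b R1 ≤ s1) (hS2 : P.Sg A2 b R2 ≤ s2)
    (hck : okR pH2 0.001391 pI12 (-4.6) 4 (tt0 R1 R2 s1 s2 ω) (tt1 R1 R2 s1 s2) A1 A2 R1 R2
      = true) :
    |P.zH a r| ≤ 0.0295 * (a + P.e0) * w r ∧
    |P.zH a r| + 0.03 * P.zTN a c r ≤ (0.0295 * (a + P.e0) + 0.0051) * w r := by
  obtain ⟨f, f1, f2, f3⟩ := zh_LH2 h ha ha1 hc hcb hr hr1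
  have k1 : Ap a r (P.L * P.zH a r) pH2 0.001391 := by
    refine Ap_mono (Ap_weak (δ := 0.0008) f3 ?_) (by norm_num)
    rw [abs_of_nonneg f1]
    refine f2.trans (by norm_num)
  have hI : P.I r ≤ ev2 pI12 a r := by
    unfold pI12
    rw [ev2_add2, ev2_comp2]
    have e1 : ev2 [[], [1]] a r = r := by simp [ev2, ev]
    rw [e1, ev_lI]
    have e2 : ev2 [[0.00002]] a r = 0.00002 := by
      simp only [ev2, ev]
      push_cast
      ring
    rw [e2]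
    have := (abs_le.1 (zh_I h (y := r) (by linarith only [hr]) hr1)).2
    linarith only [this]
  exact zh_rect h ha ha1 hcb (by linarith only [hr]) (by linarith only [hr1]) hA1 hA2 hR1 hR2 hb k1 hI
    (by push_cast; linarith only [w_ge_lin (r := r) (by linarith), hr]) (by push_cast; linarith only [hr])
    (zh_chord h hA0 hb0 hbY hω hω1 hR0 hR hR1 hR2 hS1 hS2) hck

theorem zh_r3 (h : P.Star) {a c r b : ℝ} (A1 A2 R1 R2 s1 s2 : ℚ) (ha : 0 ≤ a) (ha1 : a ≤ 0.45)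
    (hc : P.io c = P.zq a) (hcb : CB a c) (hr : 1.65 ≤ r) (hr1 : r ≤ 2.2)
    (hA1 : (A1:ℝ) ≤ a) (hA2 : a ≤ A2) (hR1 : (R1:ℝ) ≤ r) (hR2 : r ≤ R2) (hR0 : 1.65 ≤ R1)
    (hR : R1 < R2) (hb : 1.5625 - 0.558 * (A1:ℝ) ≤ b) (hb0 : 0 ≤ b) (hbY : b ≤ 1.65)
    (hS1 : P.Sg A2 b R1 ≤ s1) (hS2 : P.Sg A2 b R2 ≤ s2)
    (hck : okR pH3 0.000819 pI3 (-4.6) 4 (tt0 R1 R2 s1 s2 0) (tt1 R1 R2 s1 s2) A1 A2 R1 R2
      = true) :
    |P.zH a r| ≤ 0.0295 * (a + P.e0) * w r ∧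
    |P.zH a r| + 0.03 * P.zTN a c r ≤ (0.0295 * (a + P.e0) + 0.0051) * w r := by
  obtain ⟨f3, f4⟩ := zh_LH3 h ha ha1 hc hcb hr hr1
  have hI : P.I r ≤ ev2 pI3 a r := by
    have h1 := (abs_le.1 f4).2
    simp only [pI3, ev2, ev] at h1 ⊢
    push_cast at h1 ⊢
    norm_num at h1 ⊢
    linarith only [h1]
  exact zh_rect h ha ha1 hcb (by linarith only [hr]) (by linarith only [hr1]) hA1 hA2 hR1 hR2 hb f3 hI
    (by push_cast; linarith only [w_ge_lin (r := r) (by linarith), hr]) (by push_cast; linarith)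
    (zh_chord3 h hb0 hbY hR0 hR hR1 hR2 hS1 hS2) hck

end Pool.Agent.CDk.Par
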