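import Pool.Agent.CDk.D.ZL

/-!
# ZKa: kernel checks of zone N (rows of ZHf)
-/

open MeasureTheory Set Filter Topology

namespace Pool.Agent.CDk.Par
open Pool.Agent.CDk.ZP

theorem zk_0_0 : okR pH1 0.000364 pI12 1 0 (tt0 (570000/1000000) (750000/1000000) (365/4000) (523/4000) (46/25))
    (tt1 (570000/1000000) (750000/1000000) (365/4000) (523/4000)) (0/1000000) (45000/1000000) (570000/1000000) (750000/1000000) = true := by decide +kernel

theorem zk_0_1 : okR pH1 0.000364 pI12 1 0 (tt0 (750000/1000000) (900000/1000000) (523/4000) (633/4000) (46/25))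
    (tt1 (750000/1000000) (900000/1000000) (523/4000) (633/4000)) (0/1000000) (45000/1000000) (750000/1000000) (900000/1000000) = true := by decide +kernel

theorem zk_0_2 : okR pH1 0.000364 pI12 1 0 (tt0 (900000/1000000) (1050000/1000000) (633/4000) (711/4000) (46/25))
    (tt1 (900000/1000000) (1050000/1000000) (633/4000) (711/4000)) (0/1000000) (45000/1000000) (900000/1000000) (1050000/1000000) = true := by decide +kernel

theorem zk_0_3 : okR pH1 0.000364 pI12 1 0 (tt0 (1050000/1000000) (1200000/1000000) (711/4000) (753/4000) (46/25))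
    (tt1 (1050000/1000000) (1200000/1000000) (711/4000) (753/4000)) (0/1000000) (45000/1000000) (1050000/1000000) (1200000/1000000) = true := by decide +kernel

theorem zk_0_4 : okR pH1 0.000364 pI12 1 0 (tt0 (1200000/1000000) (1400000/1000000) (753/4000) (770/4000) (46/25))
    (tt1 (1200000/1000000) (1400000/1000000) (753/4000) (770/4000)) (0/1000000) (45000/1000000) (1200000/1000000) (1400000/1000000) = true := by decide +kernel

theorem zk_0_5 : okR pH2 0.001391 pI12 (-4.6) 4 (tt0 (1400000/1000000) (1500000/1000000) (770/4000) (770/4000) (46/25))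
    (tt1 (1400000/1000000) (1500000/1000000) (770/4000) (770/4000)) (0/1000000) (45000/1000000) (1400000/1000000) (1500000/1000000) = true := by decide +kernel

theorem zk_0_6 : okR pH2 0.001391 pI12 (-4.6) 4 (tt0 (1500000/1000000) (1650000/1000000) (770/4000) (785/4000) (46/25))
    (tt1 (1500000/1000000) (1650000/1000000) (770/4000) (785/4000)) (0/1000000) (45000/1000000) (1500000/1000000) (1650000/1000000) = true := by decide +kernel

theorem zk_0_7 : okR pH3 0.000819 pI3 (-4.6) 4 (tt0 (1650000/1000000) (2200000/1000000) (785/4000) (1976/4000) 0)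
    (tt1 (1650000/1000000) (2200000/1000000) (785/4000) (1976/4000)) (0/1000000) (45000/1000000) (1650000/1000000) (2200000/1000000) = true := by decide +kernel

theorem zk_1_0 : okR pH1 0.000364 pI12 1 0 (tt0 (570000/1000000) (750000/1000000) (399/4000) (575/4000) (2/1))
    (tt1 (570000/1000000) (750000/1000000) (399/4000) (575/4000)) (45000/1000000) (110000/1000000) (570000/1000000) (750000/1000000) = true := by decide +kernel

theorem zk_1_1 : okR pH1 0.000364 pI12 1 0 (tt0 (750000/1000000) (900000/1000000) (575/4000) (698/4000) (2/1))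
    (tt1 (750000/1000000) (900000/1000000) (575/4000) (698/4000)) (45000/1000000) (110000/1000000) (750000/1000000) (900000/1000000) = true := by decide +kernel

theorem zk_1_2 : okR pH1 0.000364 pI12 1 0 (tt0 (900000/1000000) (1050000/1000000) (698/4000) (786/4000) (2/1))
    (tt1 (900000/1000000) (1050000/1000000) (698/4000) (786/4000)) (45000/1000000) (110000/1000000) (900000/1000000) (1050000/1000000) = true := by decide +kernel

theorem zk_1_3 : okR pH1 0.000364 pI12 1 0 (tt0 (1050000/1000000) (1200000/1000000) (786/4000) (835/4000) (2/1))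
    (tt1 (1050000/1000000) (1200000/1000000) (786/4000) (835/4000)) (45000/1000000) (110000/1000000) (1050000/1000000) (1200000/1000000) = true := by decide +kernel

theorem zk_1_4 : okR pH1 0.000364 pI12 1 0 (tt0 (1200000/1000000) (1400000/1000000) (835/4000) (854/4000) (2/1))
    (tt1 (1200000/1000000) (1400000/1000000) (835/4000) (854/4000)) (45000/1000000) (110000/1000000) (1200000/1000000) (1400000/1000000) = true := by decide +kernel

end Pool.Agent.CDk.Par
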