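import Pool.Agent.CDk.D.ZL

/-!
# ZKb: kernel checks of zone N (rows of ZHf)
-/

open MeasureTheory Set Filter Topology

namespace Pool.Agent.CDk.Par
open Pool.Agent.CDk.ZP

theorem zk_1_5 : okR pH2 0.001391 pI12 (-4.6) 4 (tt0 (1400000/1000000) (1500000/1000000) (854/4000) (843/4000) (2/1))
    (tt1 (1400000/1000000) (1500000/1000000) (854/4000) (843/4000)) (45000/1000000) (110000/1000000) (1400000/1000000) (1500000/1000000) = true := by decide +kernel

theorem zk_1_6 : okR pH2 0.001391 pI12 (-4.6) 4 (tt0 (1500000/1000000) (1650000/1000000) (843/4000) (844/4000) (2/1))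
    (tt1 (1500000/1000000) (1650000/1000000) (843/4000) (844/4000)) (45000/1000000) (110000/1000000) (1500000/1000000) (1650000/1000000) = true := by decide +kernel

theorem zk_1_7 : okR pH3 0.000819 pI3 (-4.6) 4 (tt0 (1650000/1000000) (2200000/1000000) (844/4000) (2065/4000) 0)
    (tt1 (1650000/1000000) (2200000/1000000) (844/4000) (2065/4000)) (45000/1000000) (110000/1000000) (1650000/1000000) (2200000/1000000) = true := by decide +kernel

theorem zk_2_0 : okR pH1 0.000364 pI12 1 0 (tt0 (570000/1000000) (750000/1000000) (461/4000) (664/4000) (111/50))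
    (tt1 (570000/1000000) (750000/1000000) (461/4000) (664/4000)) (110000/1000000) (200000/1000000) (570000/1000000) (750000/1000000) = true := by decide +kernel

theorem zk_2_1 : okR pH1 0.000364 pI12 1 0 (tt0 (750000/1000000) (900000/1000000) (664/4000) (805/4000) (111/50))
    (tt1 (750000/1000000) (900000/1000000) (664/4000) (805/4000)) (110000/1000000) (200000/1000000) (750000/1000000) (900000/1000000) = true := by decide +kernel

theorem zk_2_2 : okR pH1 0.000364 pI12 1 0 (tt0 (900000/1000000) (1050000/1000000) (805/4000) (905/4000) (111/50))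
    (tt1 (900000/1000000) (1050000/1000000) (805/4000) (905/4000)) (110000/1000000) (200000/1000000) (900000/1000000) (1050000/1000000) = true := by decide +kernel

theorem zk_2_3 : okR pH1 0.000364 pI12 1 0 (tt0 (1050000/1000000) (1200000/1000000) (905/4000) (963/4000) (111/50))
    (tt1 (1050000/1000000) (1200000/1000000) (905/4000) (963/4000)) (110000/1000000) (200000/1000000) (1050000/1000000) (1200000/1000000) = true := by decide +kernel

theorem zk_2_4 : okR pH1 0.000364 pI12 1 0 (tt0 (1200000/1000000) (1400000/1000000) (963/4000) (972/4000) (111/50))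
    (tt1 (1200000/1000000) (1400000/1000000) (963/4000) (972/4000)) (110000/1000000) (200000/1000000) (1200000/1000000) (1400000/1000000) = true := by decide +kernel

theorem zk_2_5 : okR pH2 0.001391 pI12 (-4.6) 4 (tt0 (1400000/1000000) (1500000/1000000) (972/4000) (934/4000) (111/50))
    (tt1 (1400000/1000000) (1500000/1000000) (972/4000) (934/4000)) (110000/1000000) (200000/1000000) (1400000/1000000) (1500000/1000000) = true := by decide +kernel

theorem zk_2_6 : okR pH2 0.001391 pI12 (-4.6) 4 (tt0 (1500000/1000000) (1650000/1000000) (934/4000) (922/4000) (111/50))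
    (tt1 (1500000/1000000) (1650000/1000000) (934/4000) (922/4000)) (110000/1000000) (200000/1000000) (1500000/1000000) (1650000/1000000) = true := by decide +kernel

theorem zk_2_7 : okR pH3 0.000819 pI3 (-4.6) 4 (tt0 (1650000/1000000) (2200000/1000000) (922/4000) (2191/4000) 0)
    (tt1 (1650000/1000000) (2200000/1000000) (922/4000) (2191/4000)) (110000/1000000) (200000/1000000) (1650000/1000000) (2200000/1000000) = true := by decide +kernel

theorem zk_3_0 : okR pH1 0.000364 pI12 1 0 (tt0 (570000/1000000) (750000/1000000) (560/4000) (797/4000) (5/2))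
    (tt1 (570000/1000000) (750000/1000000) (560/4000) (797/4000)) (200000/1000000) (320000/1000000) (570000/1000000) (750000/1000000) = true := by decide +kernel

theorem zk_3_1 : okR pH1 0.000364 pI12 1 0 (tt0 (750000/1000000) (900000/1000000) (797/4000) (959/4000) (5/2))
    (tt1 (750000/1000000) (900000/1000000) (797/4000) (959/4000)) (200000/1000000) (320000/1000000) (750000/1000000) (900000/1000000) = true := by decide +kernel

end Pool.Agent.CDk.Par
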