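import Pool.Agent.CDk.D.ZHa
import Pool.Agent.CDk.D.ZHb
import Pool.Agent.CDk.D.ZHc
import Pool.Agent.CDk.D.ZHd
import Pool.Agent.CDk.D.ZHe
import Pool.Agent.CDk.D.ZKa
import Pool.Agent.CDk.D.ZKb
import Pool.Agent.CDk.D.ZKc
import Pool.Agent.CDk.Defs
import Pool.Agent.CDk.ENC
import Pool.Agent.CDk.T1a

/-!
# ZHf: the tables of zone N (helper file of ZHm, ZHl), generated
-/

open MeasureTheory Set Filter Topology

namespace Pool.Agent.CDk.Par
open Pool.Agent.CDk.ZP
variable {P : Par}

theorem zh_grid (h : P.Star) :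
    (((60303 : ℕ) : ℝ) ≤ P.io ((570000/1000000 : ℚ) : ℝ) * 10 ^ 6 ∧
      P.io ((570000/1000000 : ℚ) : ℝ) * 10 ^ 6 ≤ ((60316 : ℕ) : ℝ)) ∧
    (((103071 : ℕ) : ℝ) ≤ P.io ((750000/1000000 : ℚ) : ℝ) * 10 ^ 6 ∧
      P.io ((750000/1000000 : ℚ) : ℝ) * 10 ^ 6 ≤ ((103083 : ℕ) : ℝ)) ∧
    (((146226 : ℕ) : ℝ) ≤ P.io ((900000/1000000 : ℚ) : ℝ) * 10 ^ 6 ∧
      P.io ((900000/1000000 : ℚ) : ℝ) * 10 ^ 6 ≤ ((146239 : ℕ) : ℝ)) ∧
    (((195320 : ℕ) : ℝ) ≤ P.io ((1050000/1000000 : ℚ) : ℝ) * 10 ^ 6 ∧
      P.io ((1050000/1000000 : ℚ) : ℝ) * 10 ^ 6 ≤ ((195333 : ℕ) : ℝ)) ∧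
    (((249357 : ℕ) : ℝ) ≤ P.io ((1200000/1000000 : ℚ) : ℝ) * 10 ^ 6 ∧
      P.io ((1200000/1000000 : ℚ) : ℝ) * 10 ^ 6 ≤ ((249370 : ℕ) : ℝ)) ∧
    (((327131 : ℕ) : ℝ) ≤ P.io ((1400000/1000000 : ℚ) : ℝ) * 10 ^ 6 ∧
      P.io ((1400000/1000000 : ℚ) : ℝ) * 10 ^ 6 ≤ ((327144 : ℕ) : ℝ)) ∧
    (((367645 : ℕ) : ℝ) ≤ P.io ((1500000/1000000 : ℚ) : ℝ) * 10 ^ 6 ∧
      P.io ((1500000/1000000 : ℚ) : ℝ) * 10 ^ 6 ≤ ((367658 : ℕ) : ℝ)) ∧
    (((429352 : ℕ) : ℝ) ≤ P.io ((1650000/1000000 : ℚ) : ℝ) * 10 ^ 6 ∧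
      P.io ((1650000/1000000 : ℚ) : ℝ) * 10 ^ 6 ≤ ((429365 : ℕ) : ℝ)) ∧
    (((656289 : ℕ) : ℝ) ≤ P.io ((2200000/1000000 : ℚ) : ℝ) * 10 ^ 6 ∧
      P.io ((2200000/1000000 : ℚ) : ℝ) * 10 ^ 6 ≤ ((656311 : ℕ) : ℝ)) := by
  refine ⟨?_, ?_, ?_, ?_, ?_, ?_, ?_, ?_, ?_⟩
  · rw [show ((570000/1000000 : ℚ) : ℝ) = 0.57 by norm_num]
    exact io_enc h (by norm_num) (by norm_num) (by unfold PI; push_cast; norm_num) (by unfold PI; push_cast; norm_num)
      (by positivity) (by positivity)
  · rw [show ((750000/1000000 : ℚ) : ℝ) = 0.75 by norm_num]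
    exact io_enc h (by norm_num) (by norm_num) (by unfold PI; push_cast; norm_num) (by unfold PI; push_cast; norm_num)
      (by positivity) (by positivity)
  · rw [show ((900000/1000000 : ℚ) : ℝ) = 0.9 by norm_num]
    exact io_enc h (by norm_num) (by norm_num) (by unfold PI; push_cast; norm_num) (by unfold PI; push_cast; norm_num)
      (by positivity) (by positivity)
  · rw [show ((1050000/1000000 : ℚ) : ℝ) = 1.05 by norm_num]
    exact io_enc h (by norm_num) (by norm_num) (by unfold PI; push_cast; norm_num) (by unfold PI; push_cast; norm_num)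
      (by positivity) (by positivity)
  · rw [show ((1200000/1000000 : ℚ) : ℝ) = 1.2 by norm_num]
    exact io_enc h (by norm_num) (by norm_num) (by unfold PI; push_cast; norm_num) (by unfold PI; push_cast; norm_num)
      (by positivity) (by positivity)
  · rw [show ((1400000/1000000 : ℚ) : ℝ) = 1.4 by norm_num]
    exact io_enc h (by norm_num) (by norm_num) (by unfold PI; push_cast; norm_num) (by unfold PI; push_cast; norm_num)
      (by positivity) (by positivity)
  · rw [show ((1500000/1000000 : ℚ) : ℝ) = 1.5 by norm_num]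
    exact io_enc h (by norm_num) (by norm_num) (by unfold PI; push_cast; norm_num) (by unfold PI; push_cast; norm_num)
      (by positivity) (by positivity)
  · rw [show ((1650000/1000000 : ℚ) : ℝ) = 1.65 by norm_num]
    exact io_enc2 h (by norm_num) (by unfold PI; push_cast; norm_num) (by unfold PI; push_cast; norm_num)
      (by positivity) (by positivity)
  · rw [show ((2200000/1000000 : ℚ) : ℝ) = 2.2 by norm_num]
    exact io_enc2 h (by norm_num) (by unfold PI; push_cast; norm_num) (by unfold PI; push_cast; norm_num)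
      (by positivity) (by positivity)

theorem zh_S0 (h : P.Star) :
    P.Sg ((45000/1000000 : ℚ) : ℝ) 1.565 ((570000/1000000 : ℚ) : ℝ) ≤ ((365/4000 : ℚ) : ℝ) ∧
    P.Sg ((45000/1000000 : ℚ) : ℝ) 1.565 ((750000/1000000 : ℚ) : ℝ) ≤ ((523/4000 : ℚ) : ℝ) ∧
    P.Sg ((45000/1000000 : ℚ) : ℝ) 1.565 ((900000/1000000 : ℚ) : ℝ) ≤ ((633/4000 : ℚ) : ℝ) ∧
    P.Sg ((45000/1000000 : ℚ) : ℝ) 1.565 ((1050000/1000000 : ℚ) : ℝ) ≤ ((711/4000 : ℚ) : ℝ) ∧
    P.Sg ((45000/1000000 : ℚ) : ℝ) 1.565 ((1200000/1000000 : ℚ) : ℝ) ≤ ((753/4000 : ℚ) : ℝ) ∧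
    P.Sg ((45000/1000000 : ℚ) : ℝ) 1.565 ((1400000/1000000 : ℚ) : ℝ) ≤ ((770/4000 : ℚ) : ℝ) ∧
    P.Sg ((45000/1000000 : ℚ) : ℝ) 1.565 ((1500000/1000000 : ℚ) : ℝ) ≤ ((770/4000 : ℚ) : ℝ) ∧
    P.Sg ((45000/1000000 : ℚ) : ℝ) 1.565 ((1650000/1000000 : ℚ) : ℝ) ≤ ((785/4000 : ℚ) : ℝ) ∧
    P.Sg ((45000/1000000 : ℚ) : ℝ) 1.565 ((2200000/1000000 : ℚ) : ℝ) ≤ ((1976/4000 : ℚ) : ℝ) := by
  obtain ⟨g0, g1, g2, g3, g4, g5, g6, g7, g8⟩ := zh_grid h
  have e : ∀ m : ℕ, ((m/1000000 : ℚ) : ℝ) = (m:ℝ)/10^6 := fun m => by push_cast; norm_num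
  refine ⟨?_, ?_, ?_, ?_, ?_, ?_, ?_, ?_, ?_⟩
  · exact Sgval h 570000 60303 60316 45000 313 365 (by push_cast; norm_num) (by push_cast; norm_num)
      (by push_cast; norm_num) g0 (by norm_num)
      (by decide +kernel) (by push_cast; norm_num)
  · exact Sgval h 750000 103071 103083 45000 313 523 (by push_cast; norm_num) (by push_cast; norm_num)
      (by push_cast; norm_num) g1 (by norm_num)
      (by decide +kernel) (by push_cast; norm_num)
  · exact Sgval h 900000 146226 146239 45000 313 633 (by push_cast; norm_num) (by push_cast; norm_num)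
      (by push_cast; norm_num) g2 (by norm_num)
      (by decide +kernel) (by push_cast; norm_num)
  · exact Sgval h 1050000 195320 195333 45000 313 711 (by push_cast; norm_num) (by push_cast; norm_num)
      (by push_cast; norm_num) g3 (by norm_num)
      (by decide +kernel) (by push_cast; norm_num)
  · exact Sgval h 1200000 249357 249370 45000 313 753 (by push_cast; norm_num) (by push_cast; norm_num)
      (by push_cast; norm_num) g4 (by norm_num)
      (by decide +kernel) (by push_cast; norm_num)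
  · exact Sgval h 1400000 327131 327144 45000 313 770 (by push_cast; norm_num) (by push_cast; norm_num)
      (by push_cast; norm_num) g5 (by norm_num)
      (by decide +kernel) (by push_cast; norm_num)
  · exact Sgval h 1500000 367645 367658 45000 313 770 (by push_cast; norm_num) (by push_cast; norm_num)
      (by push_cast; norm_num) g6 (by norm_num)
      (by decide +kernel) (by push_cast; norm_num)
  · exact Sgval h 1650000 429352 429365 45000 313 785 (by push_cast; norm_num) (by push_cast; norm_num)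
      (by push_cast; norm_num) g7 (by norm_num)
      (by decide +kernel) (by push_cast; norm_num)
  · exact Sgval h 2200000 656289 656311 45000 313 1976 (by push_cast; norm_num) (by push_cast; norm_num)
      (by push_cast; norm_num) g8 (by norm_num)
      (by decide +kernel) (by push_cast; norm_num)

theorem zh_row0 (h : P.Star) {a c r : ℝ} (ha : 0 ≤ a) (ha1 : a ≤ 0.45)
    (hc : P.io c = P.zq a) (hcb : CB a c) (hA1 : ((0/1000000 : ℚ) : ℝ) ≤ a) (hA2 : a ≤ ((45000/1000000 : ℚ) : ℝ))
    (hr : 0.58 ≤ r) (hr1 : r ≤ 2.2) :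
    |P.zH a r| ≤ 0.0295 * (a + P.e0) * w r ∧
    |P.zH a r| + 0.03 * P.zTN a c r ≤ (0.0295 * (a + P.e0) + 0.0051) * w r := by
  obtain ⟨s0, s1, s2, s3, s4, s5, s6, s7, s8⟩ := zh_S0 h
  rcases le_total r ((750000/1000000 : ℚ) : ℝ) with i0 | i0
  · exact zh_r1 h (0/1000000) (45000/1000000) (570000/1000000) (750000/1000000) (365/4000) (523/4000) (46/25) ha ha1 hc hcb
      hr (by push_cast at i0; norm_num at i0 ⊢; linarith only [i0]) hA1 hA2 (by push_cast; norm_num; linarith only [hr]) i0 (by norm_num) (by norm_num) (by push_cast; norm_num)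
      (by norm_num) (by norm_num) (by push_cast; norm_num) (by norm_num) (by norm_num) s0 s1 zk_0_0
  rcases le_total r ((900000/1000000 : ℚ) : ℝ) with i1 | i1
  · exact zh_r1 h (0/1000000) (45000/1000000) (750000/1000000) (900000/1000000) (523/4000) (633/4000) (46/25) ha ha1 hc hcb
      hr (by push_cast at i1; norm_num at i1 ⊢; linarith only [i1]) hA1 hA2 i0 i1 (by norm_num) (by norm_num) (by push_cast; norm_num)
      (by norm_num) (by norm_num) (by push_cast; norm_num) (by norm_num) (by norm_num) s1 s2 zk_0_1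
  rcases le_total r ((1050000/1000000 : ℚ) : ℝ) with i2 | i2
  · exact zh_r1 h (0/1000000) (45000/1000000) (900000/1000000) (1050000/1000000) (633/4000) (711/4000) (46/25) ha ha1 hc hcb
      hr (by push_cast at i2; norm_num at i2 ⊢; linarith only [i2]) hA1 hA2 i1 i2 (by norm_num) (by norm_num) (by push_cast; norm_num)
      (by norm_num) (by norm_num) (by push_cast; norm_num) (by norm_num) (by norm_num) s2 s3 zk_0_2
  rcases le_total r ((1200000/1000000 : ℚ) : ℝ) with i3 | i3
  · exact zh_r1 h (0/1000000) (45000/1000000) (1050000/1000000) (1200000/1000000) (711/4000) (753/4000) (46/25) ha ha1 hc hcb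
      hr (by push_cast at i3; norm_num at i3 ⊢; linarith only [i3]) hA1 hA2 i2 i3 (by norm_num) (by norm_num) (by push_cast; norm_num)
      (by norm_num) (by norm_num) (by push_cast; norm_num) (by norm_num) (by norm_num) s3 s4 zk_0_3
  rcases le_total r ((1400000/1000000 : ℚ) : ℝ) with i4 | i4
  · exact zh_r1 h (0/1000000) (45000/1000000) (1200000/1000000) (1400000/1000000) (753/4000) (770/4000) (46/25) ha ha1 hc hcb
      hr (by push_cast at i4; norm_num at i4 ⊢; linarith only [i4]) hA1 hA2 i3 i4 (by norm_num) (by norm_num) (by push_cast; norm_num)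
      (by norm_num) (by norm_num) (by push_cast; norm_num) (by norm_num) (by norm_num) s4 s5 zk_0_4
  rcases le_total r ((1500000/1000000 : ℚ) : ℝ) with i5 | i5
  · exact zh_r2 h (0/1000000) (45000/1000000) (1400000/1000000) (1500000/1000000) (770/4000) (770/4000) (46/25) ha ha1 hc hcb
      (by push_cast at i4; norm_num at i4 ⊢; linarith only [i4]) (by push_cast at i5; norm_num at i5 ⊢; linarith only [i5]) hA1 hA2 i4 i5 (by norm_num) (by norm_num) (by push_cast; norm_num)
      (by norm_num) (by norm_num) (by push_cast; norm_num) (by norm_num) (by norm_num) s5 s6 zk_0_5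
  rcases le_total r ((1650000/1000000 : ℚ) : ℝ) with i6 | i6
  · exact zh_r2 h (0/1000000) (45000/1000000) (1500000/1000000) (1650000/1000000) (770/4000) (785/4000) (46/25) ha ha1 hc hcb
      (by push_cast at i5; norm_num at i5 ⊢; linarith only [i5]) (by push_cast at i6; norm_num at i6 ⊢; linarith only [i6]) hA1 hA2 i5 i6 (by norm_num) (by norm_num) (by push_cast; norm_num)
      (by norm_num) (by norm_num) (by push_cast; norm_num) (by norm_num) (by norm_num) s6 s7 zk_0_6
  · exact zh_r3 h (0/1000000) (45000/1000000) (1650000/1000000) (2200000/1000000) (785/4000) (1976/4000) ha ha1 hc hcb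
      (by push_cast at i6; norm_num at i6 ⊢; linarith only [i6]) hr1 hA1 hA2 i6 (by push_cast; norm_num; linarith only [hr1]) (by norm_num) (by norm_num) (by push_cast; norm_num)
      (by norm_num) (by norm_num) s7 s8 zk_0_7

theorem zh_S1 (h : P.Star) :
    P.Sg ((110000/1000000 : ℚ) : ℝ) 1.54 ((570000/1000000 : ℚ) : ℝ) ≤ ((399/4000 : ℚ) : ℝ) ∧
    P.Sg ((110000/1000000 : ℚ) : ℝ) 1.54 ((750000/1000000 : ℚ) : ℝ) ≤ ((575/4000 : ℚ) : ℝ) ∧
    P.Sg ((110000/1000000 : ℚ) : ℝ) 1.54 ((900000/1000000 : ℚ) : ℝ) ≤ ((698/4000 : ℚ) : ℝ) ∧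
    P.Sg ((110000/1000000 : ℚ) : ℝ) 1.54 ((1050000/1000000 : ℚ) : ℝ) ≤ ((786/4000 : ℚ) : ℝ) ∧
    P.Sg ((110000/1000000 : ℚ) : ℝ) 1.54 ((1200000/1000000 : ℚ) : ℝ) ≤ ((835/4000 : ℚ) : ℝ) ∧
    P.Sg ((110000/1000000 : ℚ) : ℝ) 1.54 ((1400000/1000000 : ℚ) : ℝ) ≤ ((854/4000 : ℚ) : ℝ) ∧
    P.Sg ((110000/1000000 : ℚ) : ℝ) 1.54 ((1500000/1000000 : ℚ) : ℝ) ≤ ((843/4000 : ℚ) : ℝ) ∧
    P.Sg ((110000/1000000 : ℚ) : ℝ) 1.54 ((1650000/1000000 : ℚ) : ℝ) ≤ ((844/4000 : ℚ) : ℝ) ∧
    P.Sg ((110000/1000000 : ℚ) : ℝ) 1.54 ((2200000/1000000 : ℚ) : ℝ) ≤ ((2065/4000 : ℚ) : ℝ) := by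
  obtain ⟨g0, g1, g2, g3, g4, g5, g6, g7, g8⟩ := zh_grid h
  have e : ∀ m : ℕ, ((m/1000000 : ℚ) : ℝ) = (m:ℝ)/10^6 := fun m => by push_cast; norm_num
  refine ⟨?_, ?_, ?_, ?_, ?_, ?_, ?_, ?_, ?_⟩
  · exact Sgval h 570000 60303 60316 110000 308 399 (by push_cast; norm_num) (by push_cast; norm_num)
      (by push_cast; norm_num) g0 (by norm_num)
      (by decide +kernel) (by push_cast; norm_num)
  · exact Sgval h 750000 103071 103083 110000 308 575 (by push_cast; norm_num) (by push_cast; norm_num)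
      (by push_cast; norm_num) g1 (by norm_num)
      (by decide +kernel) (by push_cast; norm_num)
  · exact Sgval h 900000 146226 146239 110000 308 698 (by push_cast; norm_num) (by push_cast; norm_num)
      (by push_cast; norm_num) g2 (by norm_num)
      (by decide +kernel) (by push_cast; norm_num)
  · exact Sgval h 1050000 195320 195333 110000 308 786 (by push_cast; norm_num) (by push_cast; norm_num)
      (by push_cast; norm_num) g3 (by norm_num)
      (by decide +kernel) (by push_cast; norm_num)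
  · exact Sgval h 1200000 249357 249370 110000 308 835 (by push_cast; norm_num) (by push_cast; norm_num)
      (by push_cast; norm_num) g4 (by norm_num)
      (by decide +kernel) (by push_cast; norm_num)
  · exact Sgval h 1400000 327131 327144 110000 308 854 (by push_cast; norm_num) (by push_cast; norm_num)
      (by push_cast; norm_num) g5 (by norm_num)
      (by decide +kernel) (by push_cast; norm_num)
  · exact Sgval h 1500000 367645 367658 110000 308 843 (by push_cast; norm_num) (by push_cast; norm_num)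
      (by push_cast; norm_num) g6 (by norm_num)
      (by decide +kernel) (by push_cast; norm_num)
  · exact Sgval h 1650000 429352 429365 110000 308 844 (by push_cast; norm_num) (by push_cast; norm_num)
      (by push_cast; norm_num) g7 (by norm_num)
      (by decide +kernel) (by push_cast; norm_num)
  · exact Sgval h 2200000 656289 656311 110000 308 2065 (by push_cast; norm_num) (by push_cast; norm_num)
      (by push_cast; norm_num) g8 (by norm_num)
      (by decide +kernel) (by push_cast; norm_num)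

theorem zh_row1 (h : P.Star) {a c r : ℝ} (ha : 0 ≤ a) (ha1 : a ≤ 0.45)
    (hc : P.io c = P.zq a) (hcb : CB a c) (hA1 : ((45000/1000000 : ℚ) : ℝ) ≤ a) (hA2 : a ≤ ((110000/1000000 : ℚ) : ℝ))
    (hr : 0.58 ≤ r) (hr1 : r ≤ 2.2) :
    |P.zH a r| ≤ 0.0295 * (a + P.e0) * w r ∧
    |P.zH a r| + 0.03 * P.zTN a c r ≤ (0.0295 * (a + P.e0) + 0.0051) * w r := by
  obtain ⟨s0, s1, s2, s3, s4, s5, s6, s7, s8⟩ := zh_S1 h
  rcases le_total r ((750000/1000000 : ℚ) : ℝ) with i0 | i0
  · exact zh_r1 h (45000/1000000) (110000/1000000) (570000/1000000) (750000/1000000) (399/4000) (575/4000) (2/1) ha ha1 hc hcb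
      hr (by push_cast at i0; norm_num at i0 ⊢; linarith only [i0]) hA1 hA2 (by push_cast; norm_num; linarith only [hr]) i0 (by norm_num) (by norm_num) (by push_cast; norm_num)
      (by norm_num) (by norm_num) (by push_cast; norm_num) (by norm_num) (by norm_num) s0 s1 zk_1_0
  rcases le_total r ((900000/1000000 : ℚ) : ℝ) with i1 | i1
  · exact zh_r1 h (45000/1000000) (110000/1000000) (750000/1000000) (900000/1000000) (575/4000) (698/4000) (2/1) ha ha1 hc hcb
      hr (by push_cast at i1; norm_num at i1 ⊢; linarith only [i1]) hA1 hA2 i0 i1 (by norm_num) (by norm_num) (by push_cast; norm_num)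
      (by norm_num) (by norm_num) (by push_cast; norm_num) (by norm_num) (by norm_num) s1 s2 zk_1_1
  rcases le_total r ((1050000/1000000 : ℚ) : ℝ) with i2 | i2
  · exact zh_r1 h (45000/1000000) (110000/1000000) (900000/1000000) (1050000/1000000) (698/4000) (786/4000) (2/1) ha ha1 hc hcb
      hr (by push_cast at i2; norm_num at i2 ⊢; linarith only [i2]) hA1 hA2 i1 i2 (by norm_num) (by norm_num) (by push_cast; norm_num)
      (by norm_num) (by norm_num) (by push_cast; norm_num) (by norm_num) (by norm_num) s2 s3 zk_1_2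
  rcases le_total r ((1200000/1000000 : ℚ) : ℝ) with i3 | i3
  · exact zh_r1 h (45000/1000000) (110000/1000000) (1050000/1000000) (1200000/1000000) (786/4000) (835/4000) (2/1) ha ha1 hc hcb
      hr (by push_cast at i3; norm_num at i3 ⊢; linarith only [i3]) hA1 hA2 i2 i3 (by norm_num) (by norm_num) (by push_cast; norm_num)
      (by norm_num) (by norm_num) (by push_cast; norm_num) (by norm_num) (by norm_num) s3 s4 zk_1_3
  rcases le_total r ((1400000/1000000 : ℚ) : ℝ) with i4 | i4
  · exact zh_r1 h (45000/1000000) (110000/1000000) (1200000/1000000) (1400000/1000000) (835/4000) (854/4000) (2/1) ha ha1 hc hcb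
      hr (by push_cast at i4; norm_num at i4 ⊢; linarith only [i4]) hA1 hA2 i3 i4 (by norm_num) (by norm_num) (by push_cast; norm_num)
      (by norm_num) (by norm_num) (by push_cast; norm_num) (by norm_num) (by norm_num) s4 s5 zk_1_4
  rcases le_total r ((1500000/1000000 : ℚ) : ℝ) with i5 | i5
  · exact zh_r2 h (45000/1000000) (110000/1000000) (1400000/1000000) (1500000/1000000) (854/4000) (843/4000) (2/1) ha ha1 hc hcb
      (by push_cast at i4; norm_num at i4 ⊢; linarith only [i4]) (by push_cast at i5; norm_num at i5 ⊢; linarith only [i5]) hA1 hA2 i4 i5 (by norm_num) (by norm_num) (by push_cast; norm_num)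
      (by norm_num) (by norm_num) (by push_cast; norm_num) (by norm_num) (by norm_num) s5 s6 zk_1_5
  rcases le_total r ((1650000/1000000 : ℚ) : ℝ) with i6 | i6
  · exact zh_r2 h (45000/1000000) (110000/1000000) (1500000/1000000) (1650000/1000000) (843/4000) (844/4000) (2/1) ha ha1 hc hcb
      (by push_cast at i5; norm_num at i5 ⊢; linarith only [i5]) (by push_cast at i6; norm_num at i6 ⊢; linarith only [i6]) hA1 hA2 i5 i6 (by norm_num) (by norm_num) (by push_cast; norm_num)
      (by norm_num) (by norm_num) (by push_cast; norm_num) (by norm_num) (by norm_num) s6 s7 zk_1_6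
  · exact zh_r3 h (45000/1000000) (110000/1000000) (1650000/1000000) (2200000/1000000) (844/4000) (2065/4000) ha ha1 hc hcb
      (by push_cast at i6; norm_num at i6 ⊢; linarith only [i6]) hr1 hA1 hA2 i6 (by push_cast; norm_num; linarith only [hr1]) (by norm_num) (by norm_num) (by push_cast; norm_num)
      (by norm_num) (by norm_num) s7 s8 zk_1_7

theorem zh_S2 (h : P.Star) :
    P.Sg ((200000/1000000 : ℚ) : ℝ) 1.505 ((570000/1000000 : ℚ) : ℝ) ≤ ((461/4000 : ℚ) : ℝ) ∧
    P.Sg ((200000/1000000 : ℚ) : ℝ) 1.505 ((750000/1000000 : ℚ) : ℝ) ≤ ((664/4000 : ℚ) : ℝ) ∧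
    P.Sg ((200000/1000000 : ℚ) : ℝ) 1.505 ((900000/1000000 : ℚ) : ℝ) ≤ ((805/4000 : ℚ) : ℝ) ∧
    P.Sg ((200000/1000000 : ℚ) : ℝ) 1.505 ((1050000/1000000 : ℚ) : ℝ) ≤ ((905/4000 : ℚ) : ℝ) ∧
    P.Sg ((200000/1000000 : ℚ) : ℝ) 1.505 ((1200000/1000000 : ℚ) : ℝ) ≤ ((963/4000 : ℚ) : ℝ) ∧
    P.Sg ((200000/1000000 : ℚ) : ℝ) 1.505 ((1400000/1000000 : ℚ) : ℝ) ≤ ((972/4000 : ℚ) : ℝ) ∧
    P.Sg ((200000/1000000 : ℚ) : ℝ) 1.505 ((1500000/1000000 : ℚ) : ℝ) ≤ ((934/4000 : ℚ) : ℝ) ∧
    P.Sg ((200000/1000000 : ℚ) : ℝ) 1.505 ((1650000/1000000 : ℚ) : ℝ) ≤ ((922/4000 : ℚ) : ℝ) ∧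
    P.Sg ((200000/1000000 : ℚ) : ℝ) 1.505 ((2200000/1000000 : ℚ) : ℝ) ≤ ((2191/4000 : ℚ) : ℝ) := by
  obtain ⟨g0, g1, g2, g3, g4, g5, g6, g7, g8⟩ := zh_grid h
  have e : ∀ m : ℕ, ((m/1000000 : ℚ) : ℝ) = (m:ℝ)/10^6 := fun m => by push_cast; norm_num
  refine ⟨?_, ?_, ?_, ?_, ?_, ?_, ?_, ?_, ?_⟩
  · exact Sgval h 570000 60303 60316 200000 301 461 (by push_cast; norm_num) (by push_cast; norm_num)
      (by push_cast; norm_num) g0 (by norm_num)
      (by decide +kernel) (by push_cast; norm_num)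
  · exact Sgval h 750000 103071 103083 200000 301 664 (by push_cast; norm_num) (by push_cast; norm_num)
      (by push_cast; norm_num) g1 (by norm_num)
      (by decide +kernel) (by push_cast; norm_num)
  · exact Sgval h 900000 146226 146239 200000 301 805 (by push_cast; norm_num) (by push_cast; norm_num)
      (by push_cast; norm_num) g2 (by norm_num)
      (by decide +kernel) (by push_cast; norm_num)
  · exact Sgval h 1050000 195320 195333 200000 301 905 (by push_cast; norm_num) (by push_cast; norm_num)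
      (by push_cast; norm_num) g3 (by norm_num)
      (by decide +kernel) (by push_cast; norm_num)
  · exact Sgval h 1200000 249357 249370 200000 301 963 (by push_cast; norm_num) (by push_cast; norm_num)
      (by push_cast; norm_num) g4 (by norm_num)
      (by decide +kernel) (by push_cast; norm_num)
  · exact Sgval h 1400000 327131 327144 200000 301 972 (by push_cast; norm_num) (by push_cast; norm_num)
      (by push_cast; norm_num) g5 (by norm_num)
      (by decide +kernel) (by push_cast; norm_num)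
  · exact Sgval h 1500000 367645 367658 200000 301 934 (by push_cast; norm_num) (by push_cast; norm_num)
      (by push_cast; norm_num) g6 (by norm_num)
      (by decide +kernel) (by push_cast; norm_num)
  · exact Sgval h 1650000 429352 429365 200000 301 922 (by push_cast; norm_num) (by push_cast; norm_num)
      (by push_cast; norm_num) g7 (by norm_num)
      (by decide +kernel) (by push_cast; norm_num)
  · exact Sgval h 2200000 656289 656311 200000 301 2191 (by push_cast; norm_num) (by push_cast; norm_num)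
      (by push_cast; norm_num) g8 (by norm_num)
      (by decide +kernel) (by push_cast; norm_num)

theorem zh_row2 (h : P.Star) {a c r : ℝ} (ha : 0 ≤ a) (ha1 : a ≤ 0.45)
    (hc : P.io c = P.zq a) (hcb : CB a c) (hA1 : ((110000/1000000 : ℚ) : ℝ) ≤ a) (hA2 : a ≤ ((200000/1000000 : ℚ) : ℝ))
    (hr : 0.58 ≤ r) (hr1 : r ≤ 2.2) :
    |P.zH a r| ≤ 0.0295 * (a + P.e0) * w r ∧
    |P.zH a r| + 0.03 * P.zTN a c r ≤ (0.0295 * (a + P.e0) + 0.0051) * w r := by
  obtain ⟨s0, s1, s2, s3, s4, s5, s6, s7, s8⟩ := zh_S2 h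
  rcases le_total r ((750000/1000000 : ℚ) : ℝ) with i0 | i0
  · exact zh_r1 h (110000/1000000) (200000/1000000) (570000/1000000) (750000/1000000) (461/4000) (664/4000) (111/50) ha ha1 hc hcb
      hr (by push_cast at i0; norm_num at i0 ⊢; linarith only [i0]) hA1 hA2 (by push_cast; norm_num; linarith only [hr]) i0 (by norm_num) (by norm_num) (by push_cast; norm_num)
      (by norm_num) (by norm_num) (by push_cast; norm_num) (by norm_num) (by norm_num) s0 s1 zk_2_0
  rcases le_total r ((900000/1000000 : ℚ) : ℝ) with i1 | i1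
  · exact zh_r1 h (110000/1000000) (200000/1000000) (750000/1000000) (900000/1000000) (664/4000) (805/4000) (111/50) ha ha1 hc hcb
      hr (by push_cast at i1; norm_num at i1 ⊢; linarith only [i1]) hA1 hA2 i0 i1 (by norm_num) (by norm_num) (by push_cast; norm_num)
      (by norm_num) (by norm_num) (by push_cast; norm_num) (by norm_num) (by norm_num) s1 s2 zk_2_1
  rcases le_total r ((1050000/1000000 : ℚ) : ℝ) with i2 | i2
  · exact zh_r1 h (110000/1000000) (200000/1000000) (900000/1000000) (1050000/1000000) (805/4000) (905/4000) (111/50) ha ha1 hc hcb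
      hr (by push_cast at i2; norm_num at i2 ⊢; linarith only [i2]) hA1 hA2 i1 i2 (by norm_num) (by norm_num) (by push_cast; norm_num)
      (by norm_num) (by norm_num) (by push_cast; norm_num) (by norm_num) (by norm_num) s2 s3 zk_2_2
  rcases le_total r ((1200000/1000000 : ℚ) : ℝ) with i3 | i3
  · exact zh_r1 h (110000/1000000) (200000/1000000) (1050000/1000000) (1200000/1000000) (905/4000) (963/4000) (111/50) ha ha1 hc hcb
      hr (by push_cast at i3; norm_num at i3 ⊢; linarith only [i3]) hA1 hA2 i2 i3 (by norm_num) (by norm_num) (by push_cast; norm_num)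
      (by norm_num) (by norm_num) (by push_cast; norm_num) (by norm_num) (by norm_num) s3 s4 zk_2_3
  rcases le_total r ((1400000/1000000 : ℚ) : ℝ) with i4 | i4
  · exact zh_r1 h (110000/1000000) (200000/1000000) (1200000/1000000) (1400000/1000000) (963/4000) (972/4000) (111/50) ha ha1 hc hcb
      hr (by push_cast at i4; norm_num at i4 ⊢; linarith only [i4]) hA1 hA2 i3 i4 (by norm_num) (by norm_num) (by push_cast; norm_num)
      (by norm_num) (by norm_num) (by push_cast; norm_num) (by norm_num) (by norm_num) s4 s5 zk_2_4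
  rcases le_total r ((1500000/1000000 : ℚ) : ℝ) with i5 | i5
  · exact zh_r2 h (110000/1000000) (200000/1000000) (1400000/1000000) (1500000/1000000) (972/4000) (934/4000) (111/50) ha ha1 hc hcb
      (by push_cast at i4; norm_num at i4 ⊢; linarith only [i4]) (by push_cast at i5; norm_num at i5 ⊢; linarith only [i5]) hA1 hA2 i4 i5 (by norm_num) (by norm_num) (by push_cast; norm_num)
      (by norm_num) (by norm_num) (by push_cast; norm_num) (by norm_num) (by norm_num) s5 s6 zk_2_5
  rcases le_total r ((1650000/1000000 : ℚ) : ℝ) with i6 | i6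
  · exact zh_r2 h (110000/1000000) (200000/1000000) (1500000/1000000) (1650000/1000000) (934/4000) (922/4000) (111/50) ha ha1 hc hcb
      (by push_cast at i5; norm_num at i5 ⊢; linarith only [i5]) (by push_cast at i6; norm_num at i6 ⊢; linarith only [i6]) hA1 hA2 i5 i6 (by norm_num) (by norm_num) (by push_cast; norm_num)
      (by norm_num) (by norm_num) (by push_cast; norm_num) (by norm_num) (by norm_num) s6 s7 zk_2_6
  · exact zh_r3 h (110000/1000000) (200000/1000000) (1650000/1000000) (2200000/1000000) (922/4000) (2191/4000) ha ha1 hc hcb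
      (by push_cast at i6; norm_num at i6 ⊢; linarith only [i6]) hr1 hA1 hA2 i6 (by push_cast; norm_num; linarith only [hr1]) (by norm_num) (by norm_num) (by push_cast; norm_num)
      (by norm_num) (by norm_num) s7 s8 zk_2_7

theorem zh_S3 (h : P.Star) :
    P.Sg ((320000/1000000 : ℚ) : ℝ) 1.455 ((570000/1000000 : ℚ) : ℝ) ≤ ((560/4000 : ℚ) : ℝ) ∧
    P.Sg ((320000/1000000 : ℚ) : ℝ) 1.455 ((750000/1000000 : ℚ) : ℝ) ≤ ((797/4000 : ℚ) : ℝ) ∧
    P.Sg ((320000/1000000 : ℚ) : ℝ) 1.455 ((900000/1000000 : ℚ) : ℝ) ≤ ((959/4000 : ℚ) : ℝ) ∧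
    P.Sg ((320000/1000000 : ℚ) : ℝ) 1.455 ((1050000/1000000 : ℚ) : ℝ) ≤ ((1076/4000 : ℚ) : ℝ) ∧
    P.Sg ((320000/1000000 : ℚ) : ℝ) 1.455 ((1200000/1000000 : ℚ) : ℝ) ≤ ((1142/4000 : ℚ) : ℝ) ∧
    P.Sg ((320000/1000000 : ℚ) : ℝ) 1.455 ((1400000/1000000 : ℚ) : ℝ) ≤ ((1101/4000 : ℚ) : ℝ) ∧
    P.Sg ((320000/1000000 : ℚ) : ℝ) 1.455 ((1500000/1000000 : ℚ) : ℝ) ≤ ((1018/4000 : ℚ) : ℝ) ∧
    P.Sg ((320000/1000000 : ℚ) : ℝ) 1.455 ((1650000/1000000 : ℚ) : ℝ) ≤ ((1020/4000 : ℚ) : ℝ) ∧
    P.Sg ((320000/1000000 : ℚ) : ℝ) 1.455 ((2200000/1000000 : ℚ) : ℝ) ≤ ((2354/4000 : ℚ) : ℝ) := by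
  obtain ⟨g0, g1, g2, g3, g4, g5, g6, g7, g8⟩ := zh_grid h
  have e : ∀ m : ℕ, ((m/1000000 : ℚ) : ℝ) = (m:ℝ)/10^6 := fun m => by push_cast; norm_num
  refine ⟨?_, ?_, ?_, ?_, ?_, ?_, ?_, ?_, ?_⟩
  · exact Sgval h 570000 60303 60316 320000 291 560 (by push_cast; norm_num) (by push_cast; norm_num)
      (by push_cast; norm_num) g0 (by norm_num)
      (by decide +kernel) (by push_cast; norm_num)
  · exact Sgval h 750000 103071 103083 320000 291 797 (by push_cast; norm_num) (by push_cast; norm_num)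
      (by push_cast; norm_num) g1 (by norm_num)
      (by decide +kernel) (by push_cast; norm_num)
  · exact Sgval h 900000 146226 146239 320000 291 959 (by push_cast; norm_num) (by push_cast; norm_num)
      (by push_cast; norm_num) g2 (by norm_num)
      (by decide +kernel) (by push_cast; norm_num)
  · exact Sgval h 1050000 195320 195333 320000 291 1076 (by push_cast; norm_num) (by push_cast; norm_num)
      (by push_cast; norm_num) g3 (by norm_num)
      (by decide +kernel) (by push_cast; norm_num)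
  · exact Sgval h 1200000 249357 249370 320000 291 1142 (by push_cast; norm_num) (by push_cast; norm_num)
      (by push_cast; norm_num) g4 (by norm_num)
      (by decide +kernel) (by push_cast; norm_num)
  · exact Sgval h 1400000 327131 327144 320000 291 1101 (by push_cast; norm_num) (by push_cast; norm_num)
      (by push_cast; norm_num) g5 (by norm_num)
      (by decide +kernel) (by push_cast; norm_num)
  · exact Sgval h 1500000 367645 367658 320000 291 1018 (by push_cast; norm_num) (by push_cast; norm_num)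
      (by push_cast; norm_num) g6 (by norm_num)
      (by decide +kernel) (by push_cast; norm_num)
  · exact Sgval h 1650000 429352 429365 320000 291 1020 (by push_cast; norm_num) (by push_cast; norm_num)
      (by push_cast; norm_num) g7 (by norm_num)
      (by decide +kernel) (by push_cast; norm_num)
  · exact Sgval h 2200000 656289 656311 320000 291 2354 (by push_cast; norm_num) (by push_cast; norm_num)
      (by push_cast; norm_num) g8 (by norm_num)
      (by decide +kernel) (by push_cast; norm_num)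

theorem zh_row3 (h : P.Star) {a c r : ℝ} (ha : 0 ≤ a) (ha1 : a ≤ 0.45)
    (hc : P.io c = P.zq a) (hcb : CB a c) (hA1 : ((200000/1000000 : ℚ) : ℝ) ≤ a) (hA2 : a ≤ ((320000/1000000 : ℚ) : ℝ))
    (hr : 0.58 ≤ r) (hr1 : r ≤ 2.2) :
    |P.zH a r| ≤ 0.0295 * (a + P.e0) * w r ∧
    |P.zH a r| + 0.03 * P.zTN a c r ≤ (0.0295 * (a + P.e0) + 0.0051) * w r := by
  obtain ⟨s0, s1, s2, s3, s4, s5, s6, s7, s8⟩ := zh_S3 h
  rcases le_total r ((750000/1000000 : ℚ) : ℝ) with i0 | i0
  · exact zh_r1 h (200000/1000000) (320000/1000000) (570000/1000000) (750000/1000000) (560/4000) (797/4000) (5/2) ha ha1 hc hcb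
      hr (by push_cast at i0; norm_num at i0 ⊢; linarith only [i0]) hA1 hA2 (by push_cast; norm_num; linarith only [hr]) i0 (by norm_num) (by norm_num) (by push_cast; norm_num)
      (by norm_num) (by norm_num) (by push_cast; norm_num) (by norm_num) (by norm_num) s0 s1 zk_3_0
  rcases le_total r ((900000/1000000 : ℚ) : ℝ) with i1 | i1
  · exact zh_r1 h (200000/1000000) (320000/1000000) (750000/1000000) (900000/1000000) (797/4000) (959/4000) (5/2) ha ha1 hc hcb
      hr (by push_cast at i1; norm_num at i1 ⊢; linarith only [i1]) hA1 hA2 i0 i1 (by norm_num) (by norm_num) (by push_cast; norm_num)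
      (by norm_num) (by norm_num) (by push_cast; norm_num) (by norm_num) (by norm_num) s1 s2 zk_3_1
  rcases le_total r ((1050000/1000000 : ℚ) : ℝ) with i2 | i2
  · exact zh_r1 h (200000/1000000) (320000/1000000) (900000/1000000) (1050000/1000000) (959/4000) (1076/4000) (5/2) ha ha1 hc hcb
      hr (by push_cast at i2; norm_num at i2 ⊢; linarith only [i2]) hA1 hA2 i1 i2 (by norm_num) (by norm_num) (by push_cast; norm_num)
      (by norm_num) (by norm_num) (by push_cast; norm_num) (by norm_num) (by norm_num) s2 s3 zk_3_2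
  rcases le_total r ((1200000/1000000 : ℚ) : ℝ) with i3 | i3
  · exact zh_r1 h (200000/1000000) (320000/1000000) (1050000/1000000) (1200000/1000000) (1076/4000) (1142/4000) (5/2) ha ha1 hc hcb
      hr (by push_cast at i3; norm_num at i3 ⊢; linarith only [i3]) hA1 hA2 i2 i3 (by norm_num) (by norm_num) (by push_cast; norm_num)
      (by norm_num) (by norm_num) (by push_cast; norm_num) (by norm_num) (by norm_num) s3 s4 zk_3_3
  rcases le_total r ((1400000/1000000 : ℚ) : ℝ) with i4 | i4
  · exact zh_r1 h (200000/1000000) (320000/1000000) (1200000/1000000) (1400000/1000000) (1142/4000) (1101/4000) (5/2) ha ha1 hc hcb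
      hr (by push_cast at i4; norm_num at i4 ⊢; linarith only [i4]) hA1 hA2 i3 i4 (by norm_num) (by norm_num) (by push_cast; norm_num)
      (by norm_num) (by norm_num) (by push_cast; norm_num) (by norm_num) (by norm_num) s4 s5 zk_3_4
  rcases le_total r ((1500000/1000000 : ℚ) : ℝ) with i5 | i5
  · exact zh_r2 h (200000/1000000) (320000/1000000) (1400000/1000000) (1500000/1000000) (1101/4000) (1018/4000) (5/2) ha ha1 hc hcb
      (by push_cast at i4; norm_num at i4 ⊢; linarith only [i4]) (by push_cast at i5; norm_num at i5 ⊢; linarith only [i5]) hA1 hA2 i4 i5 (by norm_num) (by norm_num) (by push_cast; norm_num)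
      (by norm_num) (by norm_num) (by push_cast; norm_num) (by norm_num) (by norm_num) s5 s6 zk_3_5
  rcases le_total r ((1650000/1000000 : ℚ) : ℝ) with i6 | i6
  · exact zh_r2 h (200000/1000000) (320000/1000000) (1500000/1000000) (1650000/1000000) (1018/4000) (1020/4000) (5/2) ha ha1 hc hcb
      (by push_cast at i5; norm_num at i5 ⊢; linarith only [i5]) (by push_cast at i6; norm_num at i6 ⊢; linarith only [i6]) hA1 hA2 i5 i6 (by norm_num) (by norm_num) (by push_cast; norm_num)
      (by norm_num) (by norm_num) (by push_cast; norm_num) (by norm_num) (by norm_num) s6 s7 zk_3_6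
  · exact zh_r3 h (200000/1000000) (320000/1000000) (1650000/1000000) (2200000/1000000) (1020/4000) (2354/4000) ha ha1 hc hcb
      (by push_cast at i6; norm_num at i6 ⊢; linarith only [i6]) hr1 hA1 hA2 i6 (by push_cast; norm_num; linarith only [hr1]) (by norm_num) (by norm_num) (by push_cast; norm_num)
      (by norm_num) (by norm_num) s7 s8 zk_3_7

theorem zh_S4 (h : P.Star) :
    P.Sg ((450000/1000000 : ℚ) : ℝ) 1.385 ((570000/1000000 : ℚ) : ℝ) ≤ ((660/4000 : ℚ) : ℝ) ∧
    P.Sg ((450000/1000000 : ℚ) : ℝ) 1.385 ((750000/1000000 : ℚ) : ℝ) ≤ ((924/4000 : ℚ) : ℝ) ∧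
    P.Sg ((450000/1000000 : ℚ) : ℝ) 1.385 ((900000/1000000 : ℚ) : ℝ) ≤ ((1104/4000 : ℚ) : ℝ) ∧
    P.Sg ((450000/1000000 : ℚ) : ℝ) 1.385 ((1050000/1000000 : ℚ) : ℝ) ≤ ((1234/4000 : ℚ) : ℝ) ∧
    P.Sg ((450000/1000000 : ℚ) : ℝ) 1.385 ((1200000/1000000 : ℚ) : ℝ) ≤ ((1278/4000 : ℚ) : ℝ) ∧
    P.Sg ((450000/1000000 : ℚ) : ℝ) 1.385 ((1400000/1000000 : ℚ) : ℝ) ≤ ((1135/4000 : ℚ) : ℝ) ∧
    P.Sg ((450000/1000000 : ℚ) : ℝ) 1.385 ((1500000/1000000 : ℚ) : ℝ) ≤ ((1045/4000 : ℚ) : ℝ) ∧
    P.Sg ((450000/1000000 : ℚ) : ℝ) 1.385 ((1650000/1000000 : ℚ) : ℝ) ≤ ((1120/4000 : ℚ) : ℝ) ∧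
    P.Sg ((450000/1000000 : ℚ) : ℝ) 1.385 ((2200000/1000000 : ℚ) : ℝ) ≤ ((2467/4000 : ℚ) : ℝ) := by
  obtain ⟨g0, g1, g2, g3, g4, g5, g6, g7, g8⟩ := zh_grid h
  have e : ∀ m : ℕ, ((m/1000000 : ℚ) : ℝ) = (m:ℝ)/10^6 := fun m => by push_cast; norm_num
  refine ⟨?_, ?_, ?_, ?_, ?_, ?_, ?_, ?_, ?_⟩
  · exact Sgval h 570000 60303 60316 450000 277 660 (by push_cast; norm_num) (by push_cast; norm_num)
      (by push_cast; norm_num) g0 (by norm_num)
      (by decide +kernel) (by push_cast; norm_num)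
  · exact Sgval h 750000 103071 103083 450000 277 924 (by push_cast; norm_num) (by push_cast; norm_num)
      (by push_cast; norm_num) g1 (by norm_num)
      (by decide +kernel) (by push_cast; norm_num)
  · exact Sgval h 900000 146226 146239 450000 277 1104 (by push_cast; norm_num) (by push_cast; norm_num)
      (by push_cast; norm_num) g2 (by norm_num)
      (by decide +kernel) (by push_cast; norm_num)
  · exact Sgval h 1050000 195320 195333 450000 277 1234 (by push_cast; norm_num) (by push_cast; norm_num)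
      (by push_cast; norm_num) g3 (by norm_num)
      (by decide +kernel) (by push_cast; norm_num)
  · exact Sgval h 1200000 249357 249370 450000 277 1278 (by push_cast; norm_num) (by push_cast; norm_num)
      (by push_cast; norm_num) g4 (by norm_num)
      (by decide +kernel) (by push_cast; norm_num)
  · exact Sgval h 1400000 327131 327144 450000 277 1135 (by push_cast; norm_num) (by push_cast; norm_num)
      (by push_cast; norm_num) g5 (by norm_num)
      (by decide +kernel) (by push_cast; norm_num)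
  · exact Sgval h 1500000 367645 367658 450000 277 1045 (by push_cast; norm_num) (by push_cast; norm_num)
      (by push_cast; norm_num) g6 (by norm_num)
      (by decide +kernel) (by push_cast; norm_num)
  · exact Sgval h 1650000 429352 429365 450000 277 1120 (by push_cast; norm_num) (by push_cast; norm_num)
      (by push_cast; norm_num) g7 (by norm_num)
      (by decide +kernel) (by push_cast; norm_num)
  · exact Sgval h 2200000 656289 656311 450000 277 2467 (by push_cast; norm_num) (by push_cast; norm_num)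
      (by push_cast; norm_num) g8 (by norm_num)
      (by decide +kernel) (by push_cast; norm_num)

theorem zh_row4 (h : P.Star) {a c r : ℝ} (ha : 0 ≤ a) (ha1 : a ≤ 0.45)
    (hc : P.io c = P.zq a) (hcb : CB a c) (hA1 : ((320000/1000000 : ℚ) : ℝ) ≤ a) (hA2 : a ≤ ((450000/1000000 : ℚ) : ℝ))
    (hr : 0.58 ≤ r) (hr1 : r ≤ 2.2) :
    |P.zH a r| ≤ 0.0295 * (a + P.e0) * w r ∧
    |P.zH a r| + 0.03 * P.zTN a c r ≤ (0.0295 * (a + P.e0) + 0.0051) * w r := by
  obtain ⟨s0, s1, s2, s3, s4, s5, s6, s7, s8⟩ := zh_S4 h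
  rcases le_total r ((750000/1000000 : ℚ) : ℝ) with i0 | i0
  · exact zh_r1 h (320000/1000000) (450000/1000000) (570000/1000000) (750000/1000000) (660/4000) (924/4000) (137/50) ha ha1 hc hcb
      hr (by push_cast at i0; norm_num at i0 ⊢; linarith only [i0]) hA1 hA2 (by push_cast; norm_num; linarith only [hr]) i0 (by norm_num) (by norm_num) (by push_cast; norm_num)
      (by norm_num) (by norm_num) (by push_cast; norm_num) (by norm_num) (by norm_num) s0 s1 zk_4_0
  rcases le_total r ((900000/1000000 : ℚ) : ℝ) with i1 | i1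
  · exact zh_r1 h (320000/1000000) (450000/1000000) (750000/1000000) (900000/1000000) (924/4000) (1104/4000) (137/50) ha ha1 hc hcb
      hr (by push_cast at i1; norm_num at i1 ⊢; linarith only [i1]) hA1 hA2 i0 i1 (by norm_num) (by norm_num) (by push_cast; norm_num)
      (by norm_num) (by norm_num) (by push_cast; norm_num) (by norm_num) (by norm_num) s1 s2 zk_4_1
  rcases le_total r ((1050000/1000000 : ℚ) : ℝ) with i2 | i2
  · exact zh_r1 h (320000/1000000) (450000/1000000) (900000/1000000) (1050000/1000000) (1104/4000) (1234/4000) (137/50) ha ha1 hc hcb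
      hr (by push_cast at i2; norm_num at i2 ⊢; linarith only [i2]) hA1 hA2 i1 i2 (by norm_num) (by norm_num) (by push_cast; norm_num)
      (by norm_num) (by norm_num) (by push_cast; norm_num) (by norm_num) (by norm_num) s2 s3 zk_4_2
  rcases le_total r ((1200000/1000000 : ℚ) : ℝ) with i3 | i3
  · exact zh_r1 h (320000/1000000) (450000/1000000) (1050000/1000000) (1200000/1000000) (1234/4000) (1278/4000) (137/50) ha ha1 hc hcb
      hr (by push_cast at i3; norm_num at i3 ⊢; linarith only [i3]) hA1 hA2 i2 i3 (by norm_num) (by norm_num) (by push_cast; norm_num)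
      (by norm_num) (by norm_num) (by push_cast; norm_num) (by norm_num) (by norm_num) s3 s4 zk_4_3
  rcases le_total r ((1400000/1000000 : ℚ) : ℝ) with i4 | i4
  · exact zh_r1 h (320000/1000000) (450000/1000000) (1200000/1000000) (1400000/1000000) (1278/4000) (1135/4000) (137/50) ha ha1 hc hcb
      hr (by push_cast at i4; norm_num at i4 ⊢; linarith only [i4]) hA1 hA2 i3 i4 (by norm_num) (by norm_num) (by push_cast; norm_num)
      (by norm_num) (by norm_num) (by push_cast; norm_num) (by norm_num) (by norm_num) s4 s5 zk_4_4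
  rcases le_total r ((1500000/1000000 : ℚ) : ℝ) with i5 | i5
  · exact zh_r2 h (320000/1000000) (450000/1000000) (1400000/1000000) (1500000/1000000) (1135/4000) (1045/4000) (137/50) ha ha1 hc hcb
      (by push_cast at i4; norm_num at i4 ⊢; linarith only [i4]) (by push_cast at i5; norm_num at i5 ⊢; linarith only [i5]) hA1 hA2 i4 i5 (by norm_num) (by norm_num) (by push_cast; norm_num)
      (by norm_num) (by norm_num) (by push_cast; norm_num) (by norm_num) (by norm_num) s5 s6 zk_4_5
  rcases le_total r ((1650000/1000000 : ℚ) : ℝ) with i6 | i6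
  · exact zh_r2 h (320000/1000000) (450000/1000000) (1500000/1000000) (1650000/1000000) (1045/4000) (1120/4000) (137/50) ha ha1 hc hcb
      (by push_cast at i5; norm_num at i5 ⊢; linarith only [i5]) (by push_cast at i6; norm_num at i6 ⊢; linarith only [i6]) hA1 hA2 i5 i6 (by norm_num) (by norm_num) (by push_cast; norm_num)
      (by norm_num) (by norm_num) (by push_cast; norm_num) (by norm_num) (by norm_num) s6 s7 zk_4_6
  · exact zh_r3 h (320000/1000000) (450000/1000000) (1650000/1000000) (2200000/1000000) (1120/4000) (2467/4000) ha ha1 hc hcb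
      (by push_cast at i6; norm_num at i6 ⊢; linarith only [i6]) hr1 hA1 hA2 i6 (by push_cast; norm_num; linarith only [hr1]) (by norm_num) (by norm_num) (by push_cast; norm_num)
      (by norm_num) (by norm_num) s7 s8 zk_4_7

theorem zh_main (h : P.Star) {a c r : ℝ} (ha : 0 ≤ a) (ha1 : a ≤ 0.45)
    (hc : P.io c = P.zq a) (hcb : CB a c) (hr : 0.58 ≤ r) (hr1 : r ≤ 2.2) :
    |P.zH a r| ≤ 0.0295 * (a + P.e0) * w r ∧
    |P.zH a r| + 0.03 * P.zTN a c r ≤ (0.0295 * (a + P.e0) + 0.0051) * w r := by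
  rcases le_total a ((45000/1000000 : ℚ) : ℝ) with j0 | j0
  · exact zh_row0 h ha ha1 hc hcb (by push_cast; norm_num; linarith only [ha]) j0 hr hr1
  rcases le_total a ((110000/1000000 : ℚ) : ℝ) with j1 | j1
  · exact zh_row1 h ha ha1 hc hcb j0 j1 hr hr1
  rcases le_total a ((200000/1000000 : ℚ) : ℝ) with j2 | j2
  · exact zh_row2 h ha ha1 hc hcb j1 j2 hr hr1
  rcases le_total a ((320000/1000000 : ℚ) : ℝ) with j3 | j3
  · exact zh_row3 h ha ha1 hc hcb j2 j3 hr hr1
  · exact zh_row4 h ha ha1 hc hcb j3 (by push_cast; norm_num; linarith only [ha1]) hr hr1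

end Pool.Agent.CDk.Par
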