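import Pool.Agent.CDk.CX
import Pool.Agent.CDk.D.D0
import Pool.Agent.CDk.D.ZHa
import Pool.Agent.CDk.D.ZHc
import Pool.Agent.CDk.D.ZHe
import Pool.Agent.CDk.Defs
import Pool.Agent.CDk.FNa

/-!
# ZHi: the quantities of zone N in the notation of ZHc, ZHe (helper file of ZHs, ZHm, ZHl)
-/

open MeasureTheory Set Filter Topology

namespace Pool.Agent.CDk.Par
variable {P : Par}

theorem zh_bridge (h : P.Star) (a c r : ℝ) : P.qN a P.io = P.zq a ∧
    P.IN a P.io r = P.zIN a r ∧ P.NN a P.io = P.zNN a ∧ P.TN a c r = P.zTN a c r := by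
  have hq : P.qN a P.io = P.zq a := by
    unfold qN zq
    have h1 := intervalIntegral.integral_eq_sub_of_hasDerivAt (a := 0) (b := a)
      (f := fun y => P.J y / P.L) (f' := P.io) (fun y _ => (J_deriv h y).div_const P.L)
      ((cx_cont h).intervalIntegrable _ _)
    rw [h1, J_zero h le_rfl, zero_div, sub_zero]
  refine ⟨hq, ?_, ?_, rfl⟩
  · unfold IN gN zIN
    rw [hq]
  · unfold NN VN gN zNN
    rw [hq]

end Pool.Agent.CDk.Par
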