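import Pool.Agent.CDk.D.D0
import Pool.Agent.CDk.D.ZC
import Pool.Agent.CDk.D.ZHa
import Pool.Agent.CDk.D.ZHb
import Pool.Agent.CDk.D.ZHc
import Pool.Agent.CDk.D.ZHe
import Pool.Agent.CDk.D.ZHf
import Pool.Agent.CDk.D.ZHi
import Pool.Agent.CDk.Defs

/-!
# ZHl: the tube estimate in zone N for `1.65 ≤ r ≤ 2.2`

For `r ≥ ρ` (`> c - a`) all of `IN a io r`, `io r`, `w r`, and for `v ≤ c - a` also `ker r v`, are AFFINE in `r`, and `kA`
too; so `|H|/…` is convex in `r` and it is enough to prove the claims at `r = 1.65` (they hold there with a lot of room) and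
at `r = 2.2`:
        a=0             a=.15            a=.3             a=.4             a=.45
r=1.65 -.00197/.088    -.00535/.103     -.00938/.124     -.01220/.144     -.01361/.155      (H/w, TN/w, w = 2)
r=2.2  -.00335/.110    -.00770/.116     -.01205/.125     -.01482/.135     -.01613/.141      (H/w, TN/w, w = 4.2)
bounds: 0.0295 (a+e0) = .00359, .00802, .01244, .01539, .01687 ; plus .0051: .00869, .01312, .01754, .02049, .02197
At r = 2.2 the slack of the first claim is at least .00024 (a = 0: .00024; a = .15: .00032; a = .25: .0004), times 4.2.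
Stage B gives `a = 0`: `H_bd` with `x = -e0`. Suggestion: grid in `a` (step .05) with chord estimates (pointwise in `v`:
`gN a io v` is between chord plus/minus `0.4 (Δa)^2/8`, except near the crossing, see ZHm), or the derivative in `a`.
-/

open MeasureTheory Set Filter Topology

namespace Pool.Agent.CDk.Par
variable {P : Par}

theorem HTl (h : P.Star) {a c r : ℝ} (ha : 0 ≤ a) (ha1 : a ≤ 0.45) (hc : P.io c = P.qN a P.io)
    (hr : 1.65 ≤ r) (hr1 : r ≤ 2.2) :
    |P.IN a P.io r - P.io r * P.NN a P.io| ≤ 0.0295 * (a + P.e0) * w r ∧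
    |P.IN a P.io r - P.io r * P.NN a P.io| + 0.03 * P.TN a c r ≤ (0.0295 * (a + P.e0) + 0.0051) * w r := by
  obtain ⟨hq, hIN, hNN, hTN⟩ := zh_bridge h a c r
  have hcb : CB a c := crossN_bd h ha ha1 hc
  rw [hq] at hc
  rw [hIN, hNN, hTN]
  exact zh_main h ha ha1 hc hcb (by linarith) hr1

end Pool.Agent.CDk.Par
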