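import Pool.Agent.CDk.D.D0
import Pool.Agent.CDk.D.ZC
import Pool.Agent.CDk.D.ZHa
import Pool.Agent.CDk.D.ZHb
import Pool.Agent.CDk.D.ZHc
import Pool.Agent.CDk.D.ZHe
import Pool.Agent.CDk.D.ZHf
import Pool.Agent.CDk.D.ZHi
import Pool.Agent.CDk.Defs

/-!
# ZHm: the tube estimate in zone N for `0.58 ≤ r ≤ 1.65`

`H = IN a io r - io r NN a io`. Values of `H/w r`, `TN/w r` (`w r = 1` up to 1.4, then `1 + 4 (r - 1.4)`):
        a=0              a=.15            a=.3             a=.4             a=.45
r=.65   .00216 / .101    .00438 / .121    .00608 / .154    .00694 / .178    .00730 / .190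
r=.75   .00247 / .120    .00493 / .145    .00670 / .183    .00756 / .210    .00790 / .224
r=.85   .00266 / .136    .00518 / .166    .00687 / .207    .00759 / .238    .00784 / .254
r=.95   .00269 / .150    .00506 / .182    .00644 / .227    .00689 / .261    .00700 / .278
r=1.05  .00252 / .160    .00451 / .194    .00533 / .242    .00535 / .278    .00523 / .296
r=1.15  .00213 / .166    .00344 / .202    .00343 / .251    .00285 / .287    .00242 / .305
r=1.25  .00149 / .168    .00181 / .205    .00068 / .253   -.00070 / .285   -.00153 / .300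
r=1.35  .00057 / .169   -.00042 / .205   -.00300 / .246   -.00536 / .270   -.00668 / .281
r=1.45 -.00053 / .140   -.00275 / .166   -.00636 / .193   -.00925 / .212   -.01076 / .223
r=1.55 -.00135 / .105   -.00426 / .122   -.00814 / .143   -.01099 / .160   -.01243 / .171
r=1.65 -.00197 / .088   -.00535 / .103   -.00938 / .124   -.01220 / .144   -.01361 / .155
bounds: 0.0295 (a+e0) = .00359, .00802, .01244, .01539, .01687 ; plus .0051: .00869, .01312, .01754, .02049, .02197
The slack of the second claim is at least .0013 (at a = 0, r = 1.05), mostly .003 and more.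

Suggestion: grid in `a` (step .05 or less) and `r` (step .1 or .05). In `a`: pointwise in `v`, `gN a io v` lies between its
chord plus/minus `0.4 (Δa)^2/8`, except for the kink at the crossing, where the chord can exceed it by at most
`0.42 * width` on an interval of length `width ≤ 0.6 Δa`; in `r`: `H'' = gN - NN D'/L` is at most 0.4 in absolute value,
`TN` is at most its chord in `r` plus `1.5 (Δr)^2/8` (`|ker r v|` is convex in `((r-v)_+, io r)`), and similarly in `a`.
At the nodes: `IN a io r = q r^2/2 - (K(a+r) - K(a) - r J(a))/L` for `r ≤ c - a`, affine in `r` beyond. See T1 (`cells`,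
`Sf_chord`) and H1 for the corresponding estimates of stage B, in particular kernel-checked sums over cells for `TN`.
Stage B gives the case `a = 0` (`H_bd` with `x = -e0`: `|H| ≤ 0.0285 e0 w`, and `T1_bd`: `TN 0 ≤ 0.2 w`). An alternative is
to bound the derivative of `H` in `a` as in `dH_bd`.
-/

open MeasureTheory Set Filter Topology

namespace Pool.Agent.CDk.Par
variable {P : Par}

theorem HTm (h : P.Star) {a c r : ℝ} (ha : 0 ≤ a) (ha1 : a ≤ 0.45) (hc : P.io c = P.qN a P.io)
    (hr : 0.58 ≤ r) (hr1 : r ≤ 1.65) :
    |P.IN a P.io r - P.io r * P.NN a P.io| ≤ 0.0295 * (a + P.e0) * w r ∧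
    |P.IN a P.io r - P.io r * P.NN a P.io| + 0.03 * P.TN a c r ≤ (0.0295 * (a + P.e0) + 0.0051) * w r := by
  obtain ⟨hq, hIN, hNN, hTN⟩ := zh_bridge h a c r
  have hcb : CB a c := crossN_bd h ha ha1 hc
  rw [hq] at hc
  rw [hIN, hNN, hTN]
  exact zh_main h ha ha1 hc hcb hr (by linarith)

end Pool.Agent.CDk.Par
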