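import Pool.Agent.CDk.D.ZHa
import Pool.Agent.CDk.D.ZHb
import Pool.Agent.CDk.D.ZP
import Pool.Agent.CDk.Defs
import Pool.Agent.CDk.ENC
import Pool.Agent.CDk.FNa
import Pool.Agent.CDk.T1a

/-!
# ZHg: the tube estimate of zone N for `0 < r ≤ 0.58` (helper file of ZHs)
-/

open MeasureTheory Set Filter Topology

namespace Pool.Agent.CDk.Par
open Pool.Agent.CDk.ZP
variable {P : Par}

theorem ev_zero {p : List ℚ} (h : (p.all fun x => x == 0) = true) (t : ℝ) : ev p t = 0 := by
  induction p with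
  | nil => rfl
  | cons a l ih =>
    rw [List.all_cons, Bool.and_eq_true] at h
    have h1 : a = 0 := by simpa using h.1
    rw [ev, ih h.2, h1]
    simp

theorem ev2_drop2 {p q : List ℚ} {l : List (List ℚ)} (h1 : (p.all fun x => x == 0) = true)
    (h2 : (q.all fun x => x == 0) = true) (x y : ℝ) :
    ev2 (p :: q :: l) x y = y^2 * ev2 l x y := by
  rw [ev2, ev2, ev_zero h1, ev_zero h2]
  ring

theorem ev2_drop (p : List (List ℚ)) (h : (match p with
    | a :: b :: _ => (a.all fun x => x == 0) && (b.all fun x => x == 0)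
    | _ => false) = true) (x y : ℝ) : ev2 p x y = y^2 * ev2 (p.drop 2) x y := by
  match p with
  | [] => simp at h
  | [_] => simp at h
  | a :: b :: l =>
    simp only [Bool.and_eq_true] at h
    rw [ev2_drop2 h.1 h.2]
    rfl

def pX : List (List ℚ) :=
  add2 (add2 (comp2 lK [[0, 1], [1]]) (neg2 [lK])) (neg2 (mul2 [[], [1]] [lJ]))
def pIr : List (List ℚ) := comp2 lI [[], [1]]

theorem zh_pX (a r : ℝ) : PK (a + r) - PK a - r * PJ a = r^2 * ev2 (pX.drop 2) a r := by
  rw [← ev2_drop pX (by decide +kernel)]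
  unfold pX
  rw [ev2_add2, ev2_add2, ev2_comp2, ev2_neg2, ev2_neg2, ev2_mul2]
  have e1 : ev2 [[0, 1], [1]] a r = a + r := by simp [ev2, ev]
  have e2 : ev2 [[], [1]] a r = r := by simp [ev2, ev]
  have e3 : ev2 [lK] a r = PK a := by rw [← ev_lK]; simp [ev2]
  have e4 : ev2 [lJ] a r = PJ a := by rw [← ev_lJ]; simp [ev2]
  rw [e1, e2, e3, e4, ev_lK]
  ring

theorem zh_pI (a r : ℝ) : PI r = r^2 * ev2 (pIr.drop 2) a r := by
  rw [← ev2_drop pIr (by decide +kernel)]
  unfold pIr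
  rw [ev2_comp2]
  have e2 : ev2 [[], [1]] a r = r := by simp [ev2, ev]
  rw [e2, ev_lI]

theorem zh_PJd (y : ℝ) : HasDerivAt PJ (PI y) y := by
  have h2 := ((((((hasDerivAt_pow 3 y).const_mul (0.99582/6 : ℝ)).add
    ((hasDerivAt_pow 4 y).const_mul (0.0503/12 : ℝ))).add
    ((hasDerivAt_pow 5 y).const_mul (-0.15027/20 : ℝ))).add
    ((hasDerivAt_pow 6 y).const_mul (-0.01586/30 : ℝ))).add
    ((hasDerivAt_pow 7 y).const_mul (0.0092/42 : ℝ)))
  have h3 : PJ = fun t => 0.99582/6*t^3 + 0.0503/12*t^4 + (-0.15027/20)*t^5 +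
      (-0.01586/30)*t^6 + 0.0092/42*t^7 := by
    funext t
    unfold PJ
    ring
  rw [h3]
  refine h2.congr_deriv ?_
  unfold PI
  push_cast
  ring

theorem zh_PKd (y : ℝ) : HasDerivAt PK (PJ y) y := by
  have h2 := ((((((hasDerivAt_pow 4 y).const_mul (0.99582/24 : ℝ)).add
    ((hasDerivAt_pow 5 y).const_mul (0.0503/60 : ℝ))).add
    ((hasDerivAt_pow 6 y).const_mul (-0.15027/120 : ℝ))).add
    ((hasDerivAt_pow 7 y).const_mul (-0.01586/210 : ℝ))).add
    ((hasDerivAt_pow 8 y).const_mul (0.0092/336 : ℝ)))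
  have h3 : PK = fun t => 0.99582/24*t^4 + 0.0503/60*t^5 + (-0.15027/120)*t^6 +
      (-0.01586/210)*t^7 + 0.0092/336*t^8 := by
    funext t
    unfold PK
    ring
  rw [h3]
  refine h2.congr_deriv ?_
  unfold PJ
  push_cast
  ring

theorem zh_PIc : Continuous PI := by
  unfold PI
  fun_prop

theorem zh_Xerr (h : P.Star) {a r : ℝ} (ha : 0 ≤ a) (ha1 : a ≤ 0.45) (hr : 0 ≤ r) (hr1 : r ≤ 0.58) :
    |(P.K (a + r) - P.K a - r * P.J a) - (PK (a + r) - PK a - r * PJ a)| ≤ 0.0000075 * r^2 := by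
  have hI := I_cont h
  have hPI := zh_PIc
  have hρ := h.ρ_lo
  have hd : ∀ v, HasDerivAt (fun v => ((r - v) * (P.J (v + a) - PJ (v + a)) +
      (P.K (v + a) - PK (v + a)))) ((r - v) * (P.I (v + a) - PI (v + a))) v := by
    intro v
    have h1 : HasDerivAt (fun v => r - v) (-1) v := by
      have := (hasDerivAt_id v).const_sub r
      simpa using this
    have hJ : HasDerivAt (fun v => P.J (v + a)) (P.I (v + a)) v :=
      (J_deriv h (v + a)).comp_add_const v a
    have hK : HasDerivAt (fun v => P.K (v + a)) (P.J (v + a)) v :=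
      (K_deriv h (v + a)).comp_add_const v a
    have hJ' : HasDerivAt (fun v => PJ (v + a)) (PI (v + a)) v :=
      (zh_PJd (v + a)).comp_add_const v a
    have hK' : HasDerivAt (fun v => PK (v + a)) (PJ (v + a)) v :=
      (zh_PKd (v + a)).comp_add_const v a
    refine ((h1.mul (hJ.sub hJ')).add (hK.sub hK')).congr_deriv ?_
    simp only [Pi.sub_apply]
    ring
  have hc : Continuous fun v => (r - v) * (P.I (v + a) - PI (v + a)) := by fun_prop
  have h1 := intervalIntegral.integral_eq_sub_of_hasDerivAt (a := 0) (b := r) (fun v _ => hd v)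
    (hc.intervalIntegrable _ _)
  have h2 : (P.K (a + r) - P.K a - r * P.J a) - (PK (a + r) - PK a - r * PJ a) =
      ∫ v in (0:ℝ)..r, (r - v) * (P.I (v + a) - PI (v + a)) := by
    rw [h1, zero_add, add_comm r a]
    ring
  rw [h2]
  have hc2 : Continuous fun v : ℝ => (r - v) * 0.000015 := by fun_prop
  have h3 := intervalIntegral.norm_integral_le_of_norm_le (μ := volume) hr
    (f := fun v => (r - v) * (P.I (v + a) - PI (v + a))) (g := fun v => (r - v) * 0.000015)
    (Eventually.of_forall fun v hv => by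
      rw [Real.norm_eq_abs, abs_mul, abs_of_nonneg (by linarith only [hv.2, hv] : 0 ≤ r - v)]
      exact mul_le_mul_of_nonneg_left (I_app h (by linarith only [hv.1, ha, hv]) (by linarith only [hv.2, ha1, hr1, hρ, hv]))
        (by linarith [hv.2])) (hc2.intervalIntegrable _ _)
  rw [Real.norm_eq_abs] at h3
  refine h3.trans (le_of_eq ?_)
  have hd2 : ∀ v, HasDerivAt (fun v : ℝ => -((r - v)^2/2) * 0.000015) ((r - v) * 0.000015) v := by
    intro v
    have h1 : HasDerivAt (fun v => r - v) (-1) v := by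
      have := (hasDerivAt_id v).const_sub r
      simpa using this
    refine ((((h1.pow 2).div_const 2).neg).mul_const 0.000015).congr_deriv ?_
    push_cast
    ring
  rw [intervalIntegral.integral_eq_sub_of_hasDerivAt (fun v _ => hd2 v)
    (hc2.intervalIntegrable _ _)]
  ring

/-! ## `∫ (Y - v)^2/2 w(v + a)` -/

theorem zh_ypoly (Z x : ℝ) : HasDerivAt (fun y => 1.5 * (Z^2 * y^3/3 - Z * y^4/2 + y^5/5))
    ((Z - x)^2/2 * (3 * x^2)) x := by
  have h1 := (((((hasDerivAt_pow 3 x).const_mul (Z^2)).div_const 3).sub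
    (((hasDerivAt_pow 4 x).const_mul Z).div_const 2)).add
    ((hasDerivAt_pow 5 x).div_const 5)).const_mul 1.5
  refine h1.congr_deriv ?_
  push_cast
  ring

theorem zh_M (h : P.Star) {a c : ℝ} (ha : 0 ≤ a) (ha1 : a ≤ 0.45) (hcb : CB a c) :
    ∫ y in a..c, (P.Y + a - y)^2/2 * w y ≤ 1.7 + 2.6 * a := by
  obtain ⟨hY1, hY2, hL1, hL2⟩ := Y_pos h
  have hw := w_cont
  obtain ⟨Z, hZ⟩ : ∃ Z, Z = P.Y + a := ⟨_, rfl⟩
  rw [← hZ]
  have hc : Continuous fun y => (Z - y)^2/2 * w y := by fun_prop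
  have hc1 : 1.4 ≤ c := by
    have := hcb.1
    nlinarith only [ha, hL1, hL2, this]
  have hc2 := hcb.2
  rw [← intervalIntegral.integral_add_adjacent_intervals (hc.intervalIntegrable a 0.6)
    (hc.intervalIntegrable 0.6 c), ← intervalIntegral.integral_add_adjacent_intervals
    (hc.intervalIntegrable 0.6 1.4) (hc.intervalIntegrable 1.4 c)]
  have p1 : Continuous fun y => (Z - y)^2/2 * (3 * y^2) := by fun_prop
  have p2 : Continuous fun y => (Z - y)^2/2 := by fun_prop
  have p3 : Continuous fun y : ℝ => (Z - 1.4)^2/2 * (1 + 4 * (y - 1.4)) := by fun_prop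
  have i1 : ∫ y in a..0.6, (Z - y)^2/2 * w y ≤
      1.5 * (Z^2 * 0.6^3/3 - Z * 0.6^4/2 + 0.6^5/5) - 1.5 * (Z^2 * a^3/3 - Z * a^4/2 + a^5/5) := by
    rw [← intervalIntegral.integral_eq_sub_of_hasDerivAt (fun y _ => zh_ypoly Z y)
      (p1.intervalIntegrable _ _)]
    apply intervalIntegral.integral_mono_on (by linarith only [ha1, hL1, hL2]) (hc.intervalIntegrable _ _)
      (p1.intervalIntegrable _ _)
    intro y hy
    exact mul_le_mul_of_nonneg_left (w_le_sq (by linarith [hy.2])).1 (by positivity)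
  have i2 : ∫ y in (0.6:ℝ)..1.4, (Z - y)^2/2 * w y ≤ (Z - 0.6)^3/6 - (Z - 1.4)^3/6 := by
    rw [← sq_int]
    apply intervalIntegral.integral_mono_on (by norm_num) (hc.intervalIntegrable _ _)
      (p2.intervalIntegrable _ _)
    intro y hy
    have h1 := mul_le_mul_of_nonneg_left (w_le_sq hy.2).2
      (show 0 ≤ (Z - y)^2/2 by positivity)
    linarith only [h1]
  have i3 : ∫ y in (1.4:ℝ)..c, (Z - y)^2/2 * w y ≤
      (Z - 1.4)^2/2 * ((c - 1.4) + 2 * (c - 1.4)^2) := by
    have h1 : ∫ y in (1.4:ℝ)..c, (Z - y)^2/2 * w y ≤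
        ∫ y in (1.4:ℝ)..c, (Z - 1.4)^2/2 * (1 + 4 * (y - 1.4)) := by
      apply intervalIntegral.integral_mono_on hc1 (hc.intervalIntegrable _ _)
        (p3.intervalIntegrable _ _)
      intro y hy
      have h2 : (Z - y)^2/2 ≤ (Z - 1.4)^2/2 := by
        have h3 : 0 ≤ Z - y := by
          rw [hZ]
          linarith only [hy.2, ha, hY1, hL1, hL2, hc2, hy]
        have h4 : Z - y ≤ Z - 1.4 := by linarith only [hy.1, hy]
        have := pow_le_pow_left₀ h3 h4 2
        linarith only [this]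
      have h3 : w y ≤ 1 + 4 * (y - 1.4) := by
        unfold w
        have h4 : min (3 * y^2) 1 ≤ 1 := min_le_right _ _
        rw [max_eq_left (by linarith only [hy.1, hy])]
        linarith only [h4]
      exact mul_le_mul h2 h3 (w_nonneg y) (by positivity)
    refine h1.trans (le_of_eq ?_)
    have hd : ∀ y, HasDerivAt (fun y : ℝ => (Z - 1.4)^2/2 * ((y - 1.4) + 2 * (y - 1.4)^2))
        ((Z - 1.4)^2/2 * (1 + 4 * (y - 1.4))) y := by
      intro y
      have e1 : HasDerivAt (fun y : ℝ => y - 1.4) 1 y := (hasDerivAt_id y).sub_const 1.4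
      refine ((e1.add ((e1.pow 2).const_mul 2)).const_mul ((Z - 1.4)^2/2)).congr_deriv ?_
      push_cast
      ring
    rw [intervalIntegral.integral_eq_sub_of_hasDerivAt (fun y _ => hd y)
      (p3.intervalIntegrable _ _)]
    ring
  -- the polynomial
  have i4 : (Z - 1.4)^2/2 * ((c - 1.4) + 2 * (c - 1.4)^2) ≤
      (Z - 1.4)^2/2 * ((0.1625 + 0.442 * a) + 2 * (0.1625 + 0.442 * a)^2) := by
    apply mul_le_mul_of_nonneg_left _ (by positivity)
    have h5 : c - 1.4 ≤ 0.1625 + 0.442 * a := by linarith only [hc2]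
    have h6 : (c - 1.4)^2 ≤ (0.1625 + 0.442 * a)^2 := pow_le_pow_left₀ (by linarith only [hc1]) h5 2
    linarith only [hc2, h6]
  have hx : |a| ≤ ((45/100 : ℚ) : ℝ) := by
    rw [abs_of_nonneg ha]
    push_cast
    linarith only [ha1]
  have hy : |(0:ℝ)| ≤ ((0 : ℚ) : ℝ) := by simp
  have ax := Ap.varx a 0
  have aZ : Ap a 0 Z (add2 [[2.543963]] [[0, 1]]) (0.000002 + 0) := by
    rw [hZ]
    exact (zh_atoms h ha ha1 0).1.add ax
  have num : ∀ q : ℚ, Ap a 0 (q:ℝ) [[q]] 0 := fun q => Ap.const a 0 q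
  have a2 := ax.mul _ _ hx hy ax
  have a3 := a2.mul _ _ hx hy ax
  have a4 := a3.mul _ _ hx hy ax
  have a5 := a4.mul _ _ hx hy ax
  have z2 := aZ.mul _ _ hx hy aZ
  have d1 := aZ.sub (num 0.6)
  have d2 := aZ.sub (num 1.4)
  have d12 := (d1.mul _ _ hx hy d1).mul _ _ hx hy d1
  have d22 := d2.mul _ _ hx hy d2
  have d23 := d22.mul _ _ hx hy d2
  have ce := (num 0.1625).add ((num 0.442).mul _ _ hx hy ax)
  have ce2 := ce.mul _ _ hx hy ce
  have k1 := (((z2.mul _ _ hx hy ((num 0.108).sub ((num 0.5).mul _ _ hx hy a3))).sub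
    (aZ.mul _ _ hx hy ((num 0.0972).sub ((num 0.75).mul _ _ hx hy a4)))).add
    ((num 0.023328).sub ((num 0.3).mul _ _ hx hy a5))).add
    ((((d12.sub d23).mul _ _ hx hy (num (1/6)))).add
    ((d22.mul _ _ hx hy (num (1/2))).mul _ _ hx hy (ce.add ((num 2).mul _ _ hx hy ce2))))
  have k2 := k1.le (q := [[1.7, 2.6]]) 6 0 0.45 0 0 (by decide +kernel) (by push_cast; linarith only [ha])
    (by push_cast; linarith only [ha1]) (by simp) (by simp)
  simp only [ev2, ev] at k2
  push_cast at k2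
  norm_num at k2 i1 i2 i3 i4 ⊢
  nlinarith only [k2, i1, i2, i3, i4]

end Pool.Agent.CDk.Par
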