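import Pool.Agent.CDk.CX
import Pool.Agent.CDk.D.ZHa
import Pool.Agent.CDk.D.ZHb
import Pool.Agent.CDk.D.ZHc
import Pool.Agent.CDk.D.ZHe
import Pool.Agent.CDk.D.ZHg
import Pool.Agent.CDk.D.ZP
import Pool.Agent.CDk.Defs
import Pool.Agent.CDk.ENC
import Pool.Agent.CDk.FNa
import Pool.Agent.CDk.Ker
import Pool.Agent.CDk.T1a

/-!
# ZHh: the tube estimate of zone N for `0 < r ≤ 0.58`, conclusion (helper file of ZHs)
-/

open MeasureTheory Set Filter Topology

namespace Pool.Agent.CDk.Par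
open Pool.Agent.CDk.ZP
variable {P : Par}

/-- `TN` for small `r` -/
theorem zh_TNs (h : P.Star) {a c r : ℝ} (ha : 0 ≤ a) (ha1 : a ≤ 0.45) (hcb : CB a c)
    (hr : 0 ≤ r) (hr1 : r ≤ 0.58) :
    ∫ y in a..c, |P.ker r (y - a)| * w y ≤ (r^4/4 + a * r^3 + 1.5 * a^2 * r^2) +
      P.io r * (1.7 + 2.6 * a) := by
  obtain ⟨hY1, hY2, hL1, hL2⟩ := Y_pos h
  obtain ⟨c1, c2, c3, c4, c5⟩ := zh_CB ha ha1 hcb
  have hio := t1_io_nonneg h hr
  have hw := w_cont
  have hk := ker_cont P r
  have hM := zh_M h ha ha1 hcb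
  have hc0 : Continuous fun y => |P.ker r (y - a)| * w y := by fun_prop
  have hc1 : Continuous fun y : ℝ => max (a + r - y) 0 * (3 * y^2) := by fun_prop
  have hc2 : Continuous fun y => (P.Y + a - y)^2/2 * w y := by fun_prop
  have hc3 : Continuous fun y => P.io r * ((P.Y + a - y)^2/2 * w y) := by fun_prop
  have h1 : ∫ y in a..c, |P.ker r (y - a)| * w y ≤
      ∫ y in a..c, (max (a + r - y) 0 * (3 * y^2) + P.io r * ((P.Y + a - y)^2/2 * w y)) := by
    apply intervalIntegral.integral_mono_on (by linarith only [hL1, hL2, c1]) (hc0.intervalIntegrable _ _)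
      ((hc1.add hc3).intervalIntegrable _ _)
    intro y hy
    show |P.ker r (y - a)| * w y ≤
      max (a + r - y) 0 * (3 * y^2) + P.io r * ((P.Y + a - y)^2/2 * w y)
    have e1 : P.ker r (y - a) = max (a + r - y) 0 - P.io r * ((P.Y + a - y)^2/2) := by
      unfold ker
      have e2 : r - (y - a) = a + r - y := by ring
      rw [e2]
      ring
    have h2 : |P.ker r (y - a)| ≤ max (a + r - y) 0 + P.io r * ((P.Y + a - y)^2/2) := by
      have h3 : 0 ≤ max (a + r - y) 0 := le_max_right _ _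
      have h4 : 0 ≤ P.io r * ((P.Y + a - y)^2/2) := by positivity
      rw [e1, abs_le]
      constructor <;> linarith
    have h3 := mul_le_mul_of_nonneg_right h2 (w_nonneg y)
    have h4 : max (a + r - y) 0 * w y ≤ max (a + r - y) 0 * (3 * y^2) := by
      rcases le_total y 1.4 with h5 | h5
      · exact mul_le_mul_of_nonneg_left (w_le_sq h5).1 (le_max_right _ _)
      · rw [max_eq_right (by linarith only [ha1, hr1, hL1, hL2, h5] : a + r - y ≤ 0)]
        simp
    linarith only [h3, h4]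
  rw [intervalIntegral.integral_add (hc1.intervalIntegrable _ _) (hc3.intervalIntegrable _ _),
    intervalIntegral.integral_const_mul] at h1
  have h5 : ∫ y in a..c, max (a + r - y) 0 * (3 * y^2) = r^4/4 + a * r^3 + 1.5 * a^2 * r^2 := by
    rw [← intervalIntegral.integral_add_adjacent_intervals (hc1.intervalIntegrable a (a + r))
      (hc1.intervalIntegrable (a + r) c)]
    have h6 : ∫ y in (a + r)..c, max (a + r - y) 0 * (3 * y^2) = 0 := by
      rw [intervalIntegral.integral_congr (g := fun _ => (0:ℝ))]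
      · simp
      · intro y hy
        rw [uIcc_of_le (by linarith only [hr1, hL1, hL2, c1])] at hy
        show max (a + r - y) 0 * (3 * y^2) = 0
        rw [max_eq_right (by linarith only [hy.1, hy]), zero_mul]
    have h7 : ∫ y in a..(a + r), max (a + r - y) 0 * (3 * y^2) =
        ∫ y in a..(a + r), (a + r - y) * (3 * y^2) := by
      refine intervalIntegral.integral_congr fun y hy => ?_
      rw [uIcc_of_le (by linarith only [hr])] at hy
      show max (a + r - y) 0 * (3 * y^2) = (a + r - y) * (3 * y^2)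
      rw [max_eq_left (by linarith only [hy.2, hy])]
    have hd : ∀ y : ℝ, HasDerivAt (fun y : ℝ => (a + r) * y^3 - 3/4 * y^4)
        ((a + r - y) * (3 * y^2)) y := by
      intro y
      refine (((hasDerivAt_pow 3 y).const_mul (a + r)).sub
        ((hasDerivAt_pow 4 y).const_mul (3/4))).congr_deriv ?_
      push_cast
      ring
    rw [h6, h7, intervalIntegral.integral_eq_sub_of_hasDerivAt (fun y _ => hd y)
      ((by fun_prop : Continuous fun y : ℝ => (a + r - y) * (3 * y^2)).intervalIntegrable _ _)]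
    ring
  rw [h5] at h1
  have h8 := mul_le_mul_of_nonneg_left hM hio
  linarith only [h1, h8]

def rA (w3 : ℚ) : List (List ℚ) := [[2.665779*0.0295*0.121818*w3, 2.665779*0.0295*w3]]
def rB (w3 : ℚ) : List (List ℚ) :=
  add2 [[2.665779*(0.0295*0.121818 + 0.0051)*w3, 2.665779*0.0295*w3]]
    (neg2 [[0.03*0.851, 0.03*1.301, 0.03*2.665784*1.5, 0.03*1.345], [0, 0.03*2.665784],
      [0.03*2.665784/4]])

/-- the conclusion from an approximation of `L H / r^2` -/
theorem zh_s (h : P.Star) {a c r : ℝ} {p : List (List ℚ)} {e w3 r1 r2 : ℚ} (ha : 0 ≤ a)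
    (ha1 : a ≤ 0.45) (hcb : CB a c) (hr : 0 < r) (hr1 : r ≤ 0.58)
    (hG : Ap a r (P.L * P.zH a r / r^2) p e) (hw3 : w3 * r^2 ≤ w r) (hw0 : 0 ≤ w3)
    (h1 : (r1:ℝ) ≤ r) (h2 : r ≤ r2)
    (hA : okq p e (rA w3) 0 0.45 r1 r2 = true) (hB : okq p e (rB w3) 0 0.45 r1 r2 = true) :
    |P.zH a r| ≤ 0.0295 * (a + P.e0) * w r ∧
    |P.zH a r| + 0.03 * P.zTN a c r ≤ (0.0295 * (a + P.e0) + 0.0051) * w r := by
  obtain ⟨hY1, hY2, hL1, hL2⟩ := Y_pos h
  obtain ⟨c1, c2, c3, c4, c5⟩ := zh_CB ha ha1 hcb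
  have hL := cx_L_pos h
  have hio := t1_io_nonneg h hr.le
  have hr2 : 0 < r^2 := by positivity
  have q0 : ((0:ℚ):ℝ) ≤ a := by push_cast; exact ha
  have q1 : a ≤ ((0.45:ℚ):ℝ) := by push_cast; linarith only [ha1]
  have k1 := okq_sound hG hA q0 q1 h1 h2
  have k2 := okq_sound hG hB q0 q1 h1 h2
  have e1 : ev2 (rA w3) a r = 2.665779 * (0.0295 * (a + 0.121818)) * w3 := by
    simp only [rA, ev2, ev]
    push_cast
    ring
  have e2 : ev2 (rB w3) a r = 2.665779 * (0.0295 * (a + 0.121818) + 0.0051) * w3 -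
      0.03 * ((0.851 + 1.301 * a) + 1.345 * a^3 + 2.665784 * (r^2/4 + a * r + 1.5 * a^2)) := by
    unfold rB
    rw [ev2_add2, ev2_neg2]
    simp only [ev2, ev]
    push_cast
    ring
  rw [e1] at k1
  rw [e2] at k2
  have hG2 : |P.L * P.zH a r| = |P.L * P.zH a r / r^2| * r^2 := by
    rw [abs_div, abs_of_pos hr2]
    field_simp
  have hT1 := zh_TN1 h (r := r) ha ha1 hr.le (by linarith only [hr1, hL1, hL2]) (by linarith only [hL1, hL2, c1] : 0 ≤ c - a) (by linarith only [hY1, hL1, hL2, c2])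
  have hT2 := zh_TNs h ha ha1 hcb hr.le hr1
  have hLio : P.L * P.io r ≤ r^2/2 := by
    have : P.L * P.io r = P.I r := by unfold io; field_simp
    rw [this]
    exact t1_I_sq h hr.le
  have hw30 : (0:ℝ) ≤ w3 := by exact_mod_cast hw0
  refine zh_fin h ha (F := |P.L * P.zH a r|) (Iu := r^2/2)
    (T := (r^4/4 + a * r^3 + 1.5 * a^2 * r^2) + P.io r * (1.7 + 2.6 * a)) (W := w3 * r^2) le_rfl
    ?_ ?_ (t1_I_sq h hr.le) hw3 (by positivity) ?_ ?_
  · unfold zTN
    linarith only [hT1, hT2]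
  · positivity
  · rw [hG2]
    have := mul_le_mul_of_nonneg_right k1 hr2.le
    linarith only [this]
  · rw [hG2]
    have k3 := mul_le_mul_of_nonneg_right k2 hr2.le
    have e3 : 2.665784 * (P.io r * (1.7 + 2.6 * a)) ≤ (r^2/2) * (1.7 + 2.6 * a) * 1.0000019 := by
      have h3 : 2.665784 * P.io r ≤ 1.0000019 * (P.L * P.io r) := by
        have : 2.665784 ≤ 1.0000019 * P.L := by linarith only [hL1, hL2]
        calc 2.665784 * P.io r ≤ (1.0000019 * P.L) * P.io r := mul_le_mul_of_nonneg_right this hio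
          _ = 1.0000019 * (P.L * P.io r) := by ring
      have h4 : 2.665784 * P.io r ≤ 1.0000019 * (r^2/2) := by linarith only [hLio, h3]
      have h5 := mul_le_mul_of_nonneg_right h4 (by positivity : 0 ≤ 1.7 + 2.6 * a)
      linarith only [h5]
    have e4 : (r^2/2) * (1.7 + 2.6 * a) * 1.0000019 ≤ r^2 * (0.851 + 1.301 * a) := by
      have h6 : 0 ≤ r^2 * a := by positivity
      nlinarith only [hr2, h6]
    have e5 : 2.665784 * ((r^4/4 + a * r^3 + 1.5 * a^2 * r^2) + P.io r * (1.7 + 2.6 * a)) +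
        2.69 * a^3 * (r^2/2) ≤ ((0.851 + 1.301 * a) + 1.345 * a^3 +
        2.665784 * (r^2/4 + a * r + 1.5 * a^2)) * r^2 := by
      have e6 : 2.665784 * ((r^4/4 + a * r^3 + 1.5 * a^2 * r^2) + P.io r * (1.7 + 2.6 * a)) +
        2.69 * a^3 * (r^2/2) = 2.665784 * (P.io r * (1.7 + 2.6 * a)) +
        2.665784 * (r^2/4 + a * r + 1.5 * a^2) * r^2 + 1.345 * a^3 * r^2 := by ring
      rw [e6]
      linarith only [e3, e4]
    have e7 : (2.665779 * (0.0295 * (a + 0.121818) + 0.0051) * w3 -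
      0.03 * ((0.851 + 1.301 * a) + 1.345 * a^3 + 2.665784 * (r^2/4 + a * r + 1.5 * a^2))) * r^2 =
      2.665779 * (0.0295 * (a + 0.121818) + 0.0051) * (w3 * r^2) -
      0.03 * (((0.851 + 1.301 * a) + 1.345 * a^3 + 2.665784 * (r^2/4 + a * r + 1.5 * a^2)) * r^2) := by
      ring
    rw [e7] at k3
    linarith only [k3, e3, e4]

def pG0 : List (List ℚ) :=
  add2 (add2 (mul2 (mul2 [[2.6657815]] [lq]) [[1/2]]) (neg2 (pX.drop 2))) (neg2 (mul2 [[1/2]] [lN]))
def pG1 : List (List ℚ) :=
  add2 (add2 (mul2 (mul2 [[2.6657815]] [lq]) [[1/2]]) (neg2 (pX.drop 2)))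
    (neg2 (mul2 (pIr.drop 2) [lN]))

theorem zh_small (h : P.Star) {a c r : ℝ} (ha : 0 ≤ a) (ha1 : a ≤ 0.45) (hc : P.io c = P.zq a)
    (hcb : CB a c) (hr : 0 < r) (hr1 : r ≤ 0.58) :
    |P.zH a r| ≤ 0.0295 * (a + P.e0) * w r ∧
    |P.zH a r| + 0.03 * P.zTN a c r ≤ (0.0295 * (a + P.e0) + 0.0051) * w r := by
  obtain ⟨hY1, hY2, hL1, hL2⟩ := Y_pos h
  obtain ⟨c1, c2, c3, c4, c5⟩ := zh_CB ha ha1 hcb
  obtain ⟨aY, aL, aS, aC, aJ, aK, a4⟩ := zh_atoms h ha ha1 r
  have hL := cx_L_pos h
  have hr2 : 0 < r^2 := by positivity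
  have hx : |a| ≤ ((45/100 : ℚ) : ℝ) := by
    rw [abs_of_nonneg ha]
    push_cast
    linarith only [ha1]
  have hy : |r| ≤ ((58/100 : ℚ) : ℝ) := by
    rw [abs_of_pos hr]
    push_cast
    linarith only [hr1]
  have aq : Ap a r (P.zq a) [lq] 0.000008 :=
    Ap_row ((zh_q h ha ha1).trans (by norm_num))
  have aN : Ap a r (P.zNN a) [lN] 0.00011 :=
    Ap_row ((zh_NN h ha ha1 hc hcb).trans (by norm_num))
  have a2 : Ap a r (1/2) [[1/2]] 0 := Ap.num _ _ (by push_cast; norm_num)
  have aX : Ap a r ((P.K (a + r) - P.K a - r * P.J a)/r^2) (pX.drop 2) 0.0000075 := by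
    have h1 := zh_Xerr h ha ha1 hr.le hr1
    rw [zh_pX] at h1
    unfold Ap
    have e1 : (P.K (a + r) - P.K a - r * P.J a)/r^2 - ev2 (pX.drop 2) a r =
        ((P.K (a + r) - P.K a - r * P.J a) - r^2 * ev2 (pX.drop 2) a r)/r^2 := by
      field_simp
    rw [e1, abs_div, abs_of_pos hr2, div_le_iff₀ hr2]
    refine h1.trans ?_
    push_cast
    norm_num
  -- `L H`
  obtain ⟨t1, t2⟩ := zh_th1 h (r := r) hc (by linarith only [hL1, hL2, c1] : 0 ≤ c - a) hr.le
  rw [zh_intr h] at t1 t2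
  have h2 : max (r - (c - a)) 0 = 0 := max_eq_right (by linarith only [hr1, hL1, hL2, c1])
  rw [h2] at t2
  have h3 : P.zIN a r = P.zq a * r^2/2 - (P.K (a + r) - P.K a - r * P.J a)/P.L := by
    unfold zIN
    norm_num at t2
    linarith only [t1, t2]
  have e1 : P.L * P.zH a r / r^2 = P.L * P.zq a * (1/2) - (P.K (a + r) - P.K a - r * P.J a)/r^2 -
      (P.I r/r^2) * P.zNN a := by
    unfold zH
    rw [h3]
    unfold io
    field_simp
  have k0 := ((aL.mul _ _ hx hy aq).mul _ _ hx hy a2).sub aX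
  have he := h.e_lo
  have he' := h.e_hi
  rcases le_total r P.e0 with h4 | h4
  · have e2 : P.I r/r^2 = 1/2 := by
      have h5 := intervalIntegral.integral_eq_sub_of_hasDerivAt (a := 0) (b := r)
        (fun t _ => I_deriv h t) ((D_cont h).intervalIntegrable _ _)
      rw [I_zero h le_rfl, sub_zero] at h5
      have h6 : ∫ t in (0:ℝ)..r, P.D t = ∫ t in (0:ℝ)..r, t := by
        refine intervalIntegral.integral_congr fun t ht => ?_
        rw [uIcc_of_le hr.le] at ht
        exact D_small h ht.1 (ht.2.trans h4)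
      rw [h6, integral_id] at h5
      rw [← h5]
      field_simp
      ring
    rw [e2] at e1
    have k1 := Ap_congr (k0.sub (a2.mul _ _ hx hy aN)) e1
    exact zh_s h (w3 := 3) (r1 := 0) (r2 := 0.122) ha ha1 hcb hr hr1
      (Ap_mono k1 (e' := 0.0001) (by decide +kernel)) (by
        unfold w
        rw [min_eq_left (by nlinarith only [hr, he', h4, hr1]), max_eq_right (by linarith only [hr, he', h4])]
        push_cast
        linarith only []) (by norm_num) (by push_cast; exact hr.le) (by push_cast; linarith only [hr, he', h4])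
      (by decide +kernel) (by decide +kernel)
  · have aI : Ap a r (P.I r/r^2) (pIr.drop 2) 0.00102 := by
      have h5 := I_app h hr.le (by linarith only [h.ρ_lo, hr1, he, he', h])
      rw [zh_pI a r] at h5
      unfold Ap
      have e3 : P.I r/r^2 - ev2 (pIr.drop 2) a r = (P.I r - r^2 * ev2 (pIr.drop 2) a r)/r^2 := by
        field_simp
      rw [e3, abs_div, abs_of_pos hr2, div_le_iff₀ hr2]
      refine h5.trans ?_
      push_cast
      nlinarith only [he, h4, hr]
    have k1 := Ap_congr (k0.sub (aI.mul _ _ hx hy aN)) e1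
    have k2 := Ap_mono k1 (e' := 0.00115) (by decide +kernel)
    rcases le_total r 0.57 with h6 | h6
    · exact zh_s h (w3 := 3) (r1 := 0.1218) (r2 := 0.57) ha ha1 hcb hr hr1 k2 (by
        unfold w
        rw [min_eq_left (by nlinarith only [he, he', h6, hr, hr1]), max_eq_right (by linarith only [he, he', h6])]
        push_cast
        linarith only []) (by norm_num) (by push_cast; linarith only [hr, he, h4]) (by push_cast; linarith only [h6])
        (by decide +kernel) (by decide +kernel)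
    · exact zh_s h (w3 := 2.97) (r1 := 0.57) (r2 := 0.58) ha ha1 hcb hr hr1 k2 (by
        unfold w
        rw [max_eq_right (by linarith only [hr1, he, he'])]
        push_cast
        have : 2.97 * r^2 ≤ min (3 * r^2) 1 := le_min (by nlinarith only [hr2]) (by nlinarith only [hr1, he, he', hr])
        linarith only [this]) (by norm_num) (by push_cast; linarith only [h6]) (by push_cast; linarith only [hr1])
        (by decide +kernel) (by decide +kernel)

end Pool.Agent.CDk.Par
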