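import Pool.Agent.CDk.D.D0
import Pool.Agent.CDk.D.ZC
import Pool.Agent.CDk.D.ZHa
import Pool.Agent.CDk.D.ZHb
import Pool.Agent.CDk.D.ZHc
import Pool.Agent.CDk.D.ZHe
import Pool.Agent.CDk.D.ZHh
import Pool.Agent.CDk.D.ZHi
import Pool.Agent.CDk.Defs

/-!
# ZHs: the tube estimate in zone N for `0 < r ≤ 0.58`

`H = IN a io r - io r NN a io`. Values of `H/w r`, `TN/w r` (`w r = 3 r^2` for `r ≤ 0.57735`):
        a=0              a=.15            a=.3             a=.4             a=.45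
r=.01   .00294 / .098    .00666 / .131    .00993 / .191    .01184 / .236    .01273 / .268
r=.2    .00274 / .099    .00587 / .132    .00854 / .180    .01008 / .218    .01078 / .240
r=.4    .00230 / .095    .00481 / .121    .00688 / .155    .00803 / .184    .00854 / .199
r=.57   .00190 / .086    .00389 / .104    .00546 / .132    .00629 / .154    .00664 / .165
bounds: 0.0295 (a+e0) = .00359, .00802, .01244, .01539, .01687 ; plus .0051: .00869, .01312, .01754, .02049, .02197
(`H/w + 0.03 TN/w` is at most .02077 at a = .45, slack .0012.)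

Suggestion: `H = ∫_0^r (r - v) G(v) dv` with `G(v) = q - io(v+a) - NN a io * D'(v)/L` where `D' = Z_0` on
`[0, ρ]` (`D'(v)= 1` for `v ≤ e0`, `Zs e0 15 0 v`), so it is enough that `|G(v)|` and `|G(v)| + 0.03 T'(v)`
are at most 6 times the bounds for `0 ≤ v ≤ 0.58` (and for `0.57735 ≤ r ≤ 0.58` there is a lot of room),
`T'(v) = w(v+a) + ∫_0^a w |g*(v) kN(y) - 1/(Y-a)| dy + g*(v) ∫_a^c w (Y-y+a)^2/2 dy`, `g* = D'/L`,
`kN(y) = (sg + ∫_0^{c-a} (Y-v)^2/2)/(Y-a) + cosh(s-a+y)`. Or work with `io r` directly. You need two-sided bounds of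
`NN a io` to about 5e-4 (values in the module ZN).
-/

open MeasureTheory Set Filter Topology

namespace Pool.Agent.CDk.Par
variable {P : Par}

theorem HTs (h : P.Star) {a c r : ℝ} (ha : 0 ≤ a) (ha1 : a ≤ 0.45) (hc : P.io c = P.qN a P.io)
    (hr : 0 < r) (hr1 : r ≤ 0.58) :
    |P.IN a P.io r - P.io r * P.NN a P.io| ≤ 0.0295 * (a + P.e0) * w r ∧
    |P.IN a P.io r - P.io r * P.NN a P.io| + 0.03 * P.TN a c r ≤ (0.0295 * (a + P.e0) + 0.0051) * w r := by
  obtain ⟨hq, hIN, hNN, hTN⟩ := zh_bridge h a c r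
  have hcb : CB a c := crossN_bd h ha ha1 hc
  rw [hq] at hc
  rw [hIN, hNN, hTN]
  exact zh_small h ha ha1 hc hcb hr hr1

end Pool.Agent.CDk.Par
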