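import Pool.Agent.CDk.CX
import Pool.Agent.CDk.Defs
import Pool.Agent.CDk.ENC
import Pool.Agent.CDk.FNa
import Pool.Agent.CDk.Ker
import Pool.Agent.CDk.T1a

/-!
# ZK: bounds of `ker r v = (r - v)_+ - io r (Y - v)^2/2` for zone N

True suprema over `0 < r ≤ 2.2`, `v0 ≤ v ≤ Y` of `|ker r v|/w r`: `v0 = 1.28`: 0.22352 (at `r = v = 1.28`);
`v0 = 1.12`: 0.22521 (at `r = v = 1.205`). For `r ≤ v`: `|ker| = io r (Y-v)^2/2`, and `io r / w r` is at
most `io v` for `w = 1` (`0.5774 ≤ r ≤ 1.4`), small for small `r`, and for `r ≥ 1.4` use the slope of `w`.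
See the module T1 (`t1_ker`, `t1_io_w`, `ker_bd`) for a cruder version.
-/

open MeasureTheory Set Filter Topology

namespace Pool.Agent.CDk.Par
variable {P : Par}

private theorem ZK_upper {r v v0 i Y : ℝ} (hi : 0 ≤ i) (hv : v0 ≤ v) (hs : i * (Y - v0) ≤ 1) :
    max (r - v) 0 - i * (Y - v)^2/2 ≤ max (r - v0 - i * (Y - v0)^2/2) 0 := by
  rcases le_total r v with h1 | h1
  · rw [max_eq_right (by linarith : r - v ≤ 0)]
    have h2 : 0 ≤ i * (Y - v)^2 := mul_nonneg hi (sq_nonneg _)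
    exact le_trans (by linarith only [h2]) (le_max_right _ _)
  · rw [max_eq_left (by linarith : 0 ≤ r - v)]
    refine le_trans ?_ (le_max_left _ _)
    have h2 : i * (Y - v0) * (v - v0) ≤ 1 * (v - v0) := mul_le_mul_of_nonneg_right hs (by linarith)
    have h3 : 0 ≤ i * (v - v0)^2 := mul_nonneg hi (sq_nonneg _)
    nlinarith only [h2, h3]

private theorem ZK_lower {r v v0 i Y : ℝ} (hi : 0 ≤ i) (hv : v0 ≤ v) (hv1 : v ≤ Y)
    (hs : i * (Y - v0) ≤ 1) :
    i * (Y - v)^2/2 - max (r - v) 0 ≤ i * (Y - max r v0)^2/2 := by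
  rcases le_total r v with h1 | h1
  · rw [max_eq_right (by linarith : r - v ≤ 0)]
    have h2 : (Y - v)^2 ≤ (Y - max r v0)^2 :=
      pow_le_pow_left₀ (by linarith) (by have := max_le h1 hv; linarith) 2
    have h3 := mul_le_mul_of_nonneg_left h2 hi
    linarith only [h3]
  · rw [max_eq_left (by linarith : 0 ≤ r - v), max_eq_left (hv.trans h1)]
    have h2 : i * (Y - v0) * (r - v) ≤ 1 * (r - v) := mul_le_mul_of_nonneg_right hs (by linarith)
    have h3 : 0 ≤ i * ((v - v0) * (r - v)) := mul_nonneg hi (mul_nonneg (by linarith) (by linarith))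
    have h4 : 0 ≤ i * (r - v)^2 := mul_nonneg hi (sq_nonneg _)
    nlinarith only [h2, h3, h4]

private theorem ZK_io_le (h : P.Star) {y x b c : ℝ} (hy0 : 0 ≤ y) (hy1 : y ≤ 1.64) (hb : PI y + 0.000015 ≤ b)
    (hc : b ≤ c * 2.665779) (hc0 : 0 ≤ c) (hx : x ≤ y) : P.io x ≤ c := by
  obtain ⟨-, -, hL1, hL2⟩ := Y_pos h
  have hL := cx_L_pos h
  have hρ := h.ρ_lo
  refine (cx_mono h hx).trans ?_
  unfold io
  rw [div_le_iff₀ hL]
  have h2 := abs_le.1 (I_app h hy0 (by linarith only [hy1, hL1, hL2, hρ]))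
  have h3 : c * 2.665779 ≤ c * P.L := mul_le_mul_of_nonneg_left hL1.le hc0
  linarith only [h2.2, hb, hc, h2, h3]

private theorem ZK_slope (h : P.Star) {y x b c : ℝ} (hy0 : 0 ≤ y) (hy1 : y ≤ 1.64) (hb : PD y + 0.00015 ≤ b)
    (hc : b ≤ c * 2.665779) (hc0 : 0 ≤ c) (hx : x ≤ y) : P.D x / P.L ≤ c := by
  obtain ⟨-, -, hL1, hL2⟩ := Y_pos h
  have hL := cx_L_pos h
  have hρ := h.ρ_lo
  rw [div_le_iff₀ hL]
  have h2 := abs_le.1 (D_app h hy0 (by linarith only [hy1, hL1, hL2, hρ]))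
  have h3 : c * 2.665779 ≤ c * P.L := mul_le_mul_of_nonneg_left hL1.le hc0
  linarith only [h2.2, D_mono h hx, hb, hc, h2, h3, h, hx]

/-- `io r` from a value on the left and a slope -/
private theorem ZK_io_line (h : P.Star) {a r i0 s b : ℝ} (hi : P.io a ≤ i0) (hs : ∀ x ≤ b, P.D x / P.L ≤ s)
    (ha : a ≤ r) (hr : r ≤ b) : P.io r ≤ i0 + s * (r - a) := by
  rcases ha.eq_or_lt with h1 | h1
  · rw [← h1]; linarith
  · obtain ⟨ξ, -, h4, h5⟩ := cx_mvt h h1
    have h6 := mul_le_mul_of_nonneg_right (hs ξ (by linarith)) (by linarith : 0 ≤ r - a)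
    linarith only [hi, h5, h6]

private theorem ZK_io128 (h : P.Star) {x : ℝ} (hx : x ≤ 1.28) : P.io x ≤ 0.27983 :=
  ZK_io_le h (y := 1.28) (b := 0.745955) (by norm_num) (by norm_num) (by unfold PI; norm_num)
    (by norm_num) (by norm_num) hx

/-- the maximum of `io r (Y - r)^2/2`, `r ≥ 1.28` -/
private theorem ZK_k1 (h : P.Star) {r : ℝ} (hr : 1.28 ≤ r) (hr1 : r ≤ 2.2) :
    P.io r * (P.Y - r)^2/2 ≤ 0.2237 := by
  obtain ⟨hY1, hY2, hL1, hL2⟩ := Y_pos h
  have h1 : P.io r ≤ 0.27983 + 0.4127 * (r - 1.28) := by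
    refine ZK_io_line h (ZK_io128 h le_rfl) (b := r) (fun x hx => ?_) hr le_rfl
    rcases le_total 1.24 x with h2 | h2
    · exact (io_slope h h2).2
    · have h3 := (io_slope h (y := 1.24) le_rfl).2
      refine le_trans ?_ h3
      exact div_le_div_of_nonneg_right (D_mono h h2) (cx_L_pos h).le
  have h2 : (P.Y - r)^2 ≤ (2.543965 - r)^2 := pow_le_pow_left₀ (by linarith only [hr1, hY1, hL1, hL2]) (by linarith only [hY2]) 2
  have h3 : P.io r * (P.Y - r)^2 ≤ (0.27983 + 0.4127 * (r - 1.28)) * (2.543965 - r)^2 :=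
    mul_le_mul h1 h2 (sq_nonneg _) (by linarith only [hr, hL1, hL2])
  have h4 : (0.27983 + 0.4127 * (r - 1.28)) * (2.543965 - r)^2 ≤ 0.4474 := by
    obtain ⟨x, hx⟩ : ∃ x, x = r - 1.28 := ⟨_, rfl⟩
    have hx0 : 0 ≤ x := by linarith only [hr, hx]
    have hx1 : x ≤ 0.92 := by linarith only [hr1, hx]
    have e1 : r = x + 1.28 := by linarith only [hx]
    rw [e1]
    nlinarith only [mul_nonneg hx0 (sub_nonneg.2 hx1), mul_nonneg hx0 (mul_nonneg hx0 (sub_nonneg.2 hx1)), hr, hL1, hL2, hx, hx0, hx1]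
  linarith only [h3, h4]

/-- the maximum of `io r (Y - r)^2/2`, `r ≥ 1.12` -/
private theorem ZK_k2 (h : P.Star) {r : ℝ} (hr : 1.12 ≤ r) (hr1 : r ≤ 2.2) :
    P.io r * (P.Y - r)^2/2 ≤ 0.2259 := by
  obtain ⟨hY1, hY2, hL1, hL2⟩ := Y_pos h
  rcases le_total 1.28 r with hr2 | hr2
  · linarith only [ZK_k1 h hr2 hr1, hL1, hL2, h, hr2, hr1]
  have h2 : (P.Y - r)^2 ≤ (2.543965 - r)^2 := pow_le_pow_left₀ (by linarith only [hr1, hY1, hL1, hL2]) (by linarith only [hY2]) 2
  rcases le_total r 1.2 with hr3 | hr3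
  · have h1 : P.io r ≤ 0.22001 + 0.37436 * (r - 1.12) := by
      refine ZK_io_line h (ZK_io_le h (y := 1.12) (b := 0.586475) (by norm_num) (by norm_num)
        (by unfold PI; norm_num) (by norm_num) (by norm_num) le_rfl) (b := 1.2) (fun x hx => ?_) hr hr3
      exact ZK_slope h (y := 1.2) (b := 0.99791) (by norm_num) (by norm_num)
        (by unfold PD; norm_num) (by norm_num) (by norm_num) hx
    have h3 : P.io r * (P.Y - r)^2 ≤ (0.22001 + 0.37436 * (r - 1.12)) * (2.543965 - r)^2 :=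
      mul_le_mul h1 h2 (sq_nonneg _) (by linarith only [hr, hL1, hL2])
    have h4 : (0.22001 + 0.37436 * (r - 1.12)) * (2.543965 - r)^2 ≤ 0.4518 := by
      obtain ⟨x, hx⟩ : ∃ x, x = r - 1.12 := ⟨_, rfl⟩
      have hx0 : 0 ≤ x := by linarith only [hr, hx]
      have hx1 : x ≤ 0.08 := by linarith only [hr3, hx]
      have e1 : r = x + 1.12 := by linarith only [hx]
      rw [e1]
      nlinarith only [mul_nonneg hx0 (sub_nonneg.2 hx1), mul_nonneg hx0 (mul_nonneg hx0 (sub_nonneg.2 hx1)), hx, hx0, hx1, hr3, hr, hL1, hL2]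
    linarith only [h3, h4]
  · have h1 : P.io r ≤ 0.24938 + 0.38682 * (r - 1.2) := by
      refine ZK_io_line h (ZK_io_le h (y := 1.2) (b := 0.664765) (by norm_num) (by norm_num)
        (by unfold PI; norm_num) (by norm_num) (by norm_num) le_rfl) (b := 1.28) (fun x hx => ?_) hr3 hr2
      exact ZK_slope h (y := 1.28) (b := 1.03111) (by norm_num) (by norm_num)
        (by unfold PD; norm_num) (by norm_num) (by norm_num) hx
    have h3 : P.io r * (P.Y - r)^2 ≤ (0.24938 + 0.38682 * (r - 1.2)) * (2.543965 - r)^2 :=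
      mul_le_mul h1 h2 (sq_nonneg _) (by linarith only [hL1, hL2, hr3])
    have h4 : (0.24938 + 0.38682 * (r - 1.2)) * (2.543965 - r)^2 ≤ 0.4518 := by
      obtain ⟨x, hx⟩ : ∃ x, x = r - 1.2 := ⟨_, rfl⟩
      have hx0 : 0 ≤ x := by linarith only [hr3, hx]
      have hx1 : x ≤ 0.08 := by linarith only [hr2, hx]
      have e1 : r = x + 1.2 := by linarith only [hx]
      rw [e1]
      nlinarith only [mul_nonneg hx0 (sub_nonneg.2 hx1), mul_nonneg hx0 (mul_nonneg hx0 (sub_nonneg.2 hx1)), hx, hx0, hx1, hr, hL1, hL2, hr2, hr3]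
    linarith only [h3, h4]

/-- the lower side -/
private theorem ZK_main (h : P.Star) {r v0 κ : ℝ} (hr : 0 < r) (hr1 : r ≤ 2.2) (hv : 1.12 ≤ v0)
    (hκ : 0.2 ≤ κ) (h1 : P.io v0 * (P.Y - v0)^2/2 ≤ κ)
    (h2 : ∀ r, v0 ≤ r → r ≤ 2.2 → P.io r * (P.Y - r)^2/2 ≤ κ) (hvY : v0 ≤ P.Y) :
    P.io r * (P.Y - max r v0)^2/2 ≤ κ * w r := by
  obtain ⟨hY1, hY2, hL1, hL2⟩ := Y_pos h
  have hL := cx_L_pos h
  have hw := t1_w_pos hr
  rcases le_total (3 * r ^ 2) 1 with h3 | h3
  · have h4 : 3 * r ^ 2 ≤ w r := by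
      unfold w
      rw [min_eq_left h3]
      have := le_max_right (r - 1.4) 0
      linarith only [this]
    have h5 : P.io r ≤ r ^ 2 / 2 / 2.665779 := by
      unfold io
      exact div_le_div₀ (by positivity) (t1_I_sq h hr.le) (by norm_num) hL1.le
    have h6 : (P.Y - max r v0)^2 ≤ 1.424^2 := by
      refine pow_le_pow_left₀ ?_ ?_ 2
      · have := max_le (by linarith only [hr1, hY1, hL1, hL2] : r ≤ P.Y) hvY
        linarith only [this]
      · have := le_max_right r v0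
        linarith only [hv, hY2, hL1, hL2, this]
    have h7 : P.io r * (P.Y - max r v0)^2 ≤ (r ^ 2 / 2 / 2.665779) * 1.424^2 :=
      mul_le_mul h5 h6 (sq_nonneg _) (by positivity)
    have h8 : 0.2 * (3 * r ^ 2) ≤ κ * w r := mul_le_mul hκ h4 (by positivity) (by linarith only [hκ, hL1, hL2])
    have h9 : (r ^ 2 / 2 / 2.665779) * 1.424^2 ≤ 0.39 * r ^ 2 := by
      have := sq_nonneg r
      rw [div_div, div_mul_eq_mul_div, div_le_iff₀ (by norm_num)]
      nlinarith only []
    nlinarith only [sq_nonneg r, h7, h8, h9]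
  · have h4 : 1 ≤ w r := by
      unfold w
      rw [min_eq_right h3]
      have := le_max_right (r - 1.4) 0
      linarith only [this]
    have h5 : κ * 1 ≤ κ * w r := mul_le_mul_of_nonneg_left h4 (by linarith only [hκ, hL1, hL2])
    rcases le_total r v0 with h6 | h6
    · rw [max_eq_right h6]
      have h7 := mul_le_mul_of_nonneg_right (cx_mono h h6) (sq_nonneg (P.Y - v0))
      linarith only [h1, h5, h7]
    · rw [max_eq_left h6]
      linarith only [h2 r h6 hr1, h5, h2, h6, hr1]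

private theorem ZK_io22 (h : P.Star) {r : ℝ} (hr1 : r ≤ 2.2) : P.io r ≤ 0.66 := by
  have h1 : P.io r ≤ P.io 2.2 := cx_mono h hr1
  have h2 : P.io 2.2 ≤ 0.27983 + 0.4127 * (2.2 - 1.28) := by
    refine ZK_io_line h (ZK_io128 h le_rfl) (b := 2.2) (fun x hx => ?_) (by norm_num) le_rfl
    rcases le_total 1.24 x with h2 | h2
    · exact (io_slope h h2).2
    · have h3 := (io_slope h (y := 1.24) le_rfl).2
      refine le_trans ?_ h3
      exact div_le_div_of_nonneg_right (D_mono h h2) (cx_L_pos h).le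
  linarith only [h1, h2]

theorem kerN_bd1 (h : P.Star) {r v : ℝ} (hr : 0 < r) (hr1 : r ≤ 2.2) (hv : 1.28 ≤ v) (hv1 : v ≤ P.Y) :
    |P.ker r v| ≤ 0.2238 * w r := by
  obtain ⟨hY1, hY2, hL1, hL2⟩ := Y_pos h
  have hw := t1_w_pos hr
  have hio := t1_io_nonneg h hr.le
  have hs : P.io r * (P.Y - 1.28) ≤ 1 := by
    have := mul_le_mul (ZK_io22 h hr1) (by linarith only [hY2, hL1, hL2] : P.Y - 1.28 ≤ 1.264) (by linarith only [hv, hv1]) (by norm_num)
    linarith only [hL1, hL2, this]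
  have h1 := ZK_upper (r := r) hio hv hs
  have h2 := ZK_lower (r := r) hio hv hv1 hs
  have h3 := ZK_main h hr hr1 (v0 := 1.28) (κ := 0.2238) (by norm_num) (by norm_num)
    (by linarith only [ZK_k1 h (r := 1.28) le_rfl (by norm_num), hL1, hL2, h])
    (fun r h4 h5 => by linarith only [ZK_k1 h h4 h5, hL1, hL2, h, h4, h5]) (by linarith only [hv, hv1])
  have h4 : max (r - 1.28 - P.io r * (P.Y - 1.28)^2/2) 0 ≤ 0.2238 * w r := by
    refine max_le ?_ (by positivity)
    have h5 : 0 ≤ P.io r * (P.Y - 1.28)^2 := mul_nonneg hio (sq_nonneg _)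
    rcases le_total r 1.28 with h6 | h6
    · nlinarith only [hw, h5, h6]
    · have h7 : 1 + 4 * max (r - 1.4) 0 = w r := by
        unfold w
        rw [min_eq_right (by nlinarith only [h6, hr])]
      have h8 := le_max_left (r - 1.4) 0
      have h9 := le_max_right (r - 1.4) 0
      rcases le_total r 1.4 with h10 | h10
      · nlinarith only [hr1, h5, h7, h8]
      · nlinarith only [hr1, hL1, hL2, h5, h7, h8]
  unfold ker
  rw [abs_le]
  constructor
  · linarith only [h2, h3]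
  · linarith only [h1, h4]

theorem kerN_bd2 (h : P.Star) {r v : ℝ} (hr : 0 < r) (hr1 : r ≤ 2.2) (hv : 1.12 ≤ v) (hv1 : v ≤ P.Y) :
    |P.ker r v| ≤ 0.2265 * w r := by
  obtain ⟨hY1, hY2, hL1, hL2⟩ := Y_pos h
  have hw := t1_w_pos hr
  have hio := t1_io_nonneg h hr.le
  have hs : P.io r * (P.Y - 1.12) ≤ 1 := by
    have := mul_le_mul (ZK_io22 h hr1) (by linarith only [hY2, hL1, hL2] : P.Y - 1.12 ≤ 1.424) (by linarith only [hv, hv1]) (by norm_num)
    linarith only [hL1, hL2, this]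
  have h1 := ZK_upper (r := r) hio hv hs
  have h2 := ZK_lower (r := r) hio hv hv1 hs
  have h3 := ZK_main h hr hr1 (v0 := 1.12) (κ := 0.2265) (by norm_num) (by norm_num)
    (by linarith only [ZK_k2 h (r := 1.12) le_rfl (by norm_num), hL1, hL2, h])
    (fun r h4 h5 => by linarith only [ZK_k2 h h4 h5, hL1, hL2, h, h4, h5]) (by linarith only [hv, hv1])
  have h4 : max (r - 1.12 - P.io r * (P.Y - 1.12)^2/2) 0 ≤ 0.2265 * w r := by
    refine max_le ?_ (by positivity)
    have h5 : 0 ≤ P.io r * (P.Y - 1.12)^2 := mul_nonneg hio (sq_nonneg _)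
    rcases le_total r 1.12 with h6 | h6
    · nlinarith only [hw, h5, h6]
    · have h7 : 1 + 4 * max (r - 1.4) 0 = w r := by
        unfold w
        rw [min_eq_right (by nlinarith only [h6, hr])]
      have h8 := le_max_left (r - 1.4) 0
      have h9 := le_max_right (r - 1.4) 0
      have h12 : 1.423961^2 ≤ (P.Y - 1.12)^2 := pow_le_pow_left₀ (by norm_num) (by linarith only [hY1]) 2
      have h13 : P.io r * 1.423961^2 ≤ P.io r * (P.Y - 1.12)^2 := mul_le_mul_of_nonneg_left h12 hio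
      have hL := cx_L_pos h
      rcases le_total r 1.4 with h10 | h10
      · have h11 : 0.2 ≤ P.io r := by
          refine le_trans ?_ (cx_mono h h6)
          unfold io
          rw [le_div_iff₀ hL]
          have h14 := abs_le.1 (I_app h (y := 1.12) (by norm_num) (by linarith only [h.ρ_lo, hL1, hL2, h]))
          have h15 : (0.58 : ℝ) ≤ PI 1.12 := by unfold PI; norm_num
          linarith only [h14.1, hL1, hL2, h14, h15]
        nlinarith only [hr1, h7, h8, h13, h11]
      · have h11 : 0.32 + 0.35 * (r - 1.4) ≤ P.io r := by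
          have h16 : 0.32 ≤ P.io 1.4 := by
            unfold io
            rw [le_div_iff₀ hL]
            have h14 := abs_le.1 (I_app h (y := 1.4) (by norm_num) (by linarith only [h.ρ_lo, hL1, hL2, h]))
            have h15 : (0.87 : ℝ) ≤ PI 1.4 := by unfold PI; norm_num
            linarith only [h14.1, hL1, hL2, h14, h15]
          rcases h10.eq_or_lt with h17 | h17
          · rw [← h17]; linarith only [h16]
          · obtain ⟨ξ, h18, -, h19⟩ := cx_mvt h h17
            have h20 := mul_le_mul_of_nonneg_right (io_slope2 h (y := ξ) (by linarith only [hL1, hL2, h18]))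
              (by linarith only [h17] : 0 ≤ r - 1.4)
            linarith only [h16, h19, h20]
        nlinarith only [hL1, hL2, h7, h8, h9, h13, h11]
  unfold ker
  rw [abs_le]
  constructor
  · linarith only [h2, h3]
  · linarith only [h1, h4]

end Pool.Agent.CDk.Par
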