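import Pool.Agent.CDk.CX
import Pool.Agent.CDk.D.D0
import Pool.Agent.CDk.Defs
import Pool.Agent.CDk.ENC
import Pool.Agent.CDk.FNa
import Pool.Agent.CDk.FNb
import Pool.Agent.CDk.U1a

/-!
# PT: rational polynomials (lists of coefficients) with a kernel checker, and approximations

Used by the numerical modules ZU0, ZU1, ZN. `ev l t` is the value of the polynomial `l` at `t`;
`cv n m p z y` is an antiderivative (in `y`, for `z = x - y`) of `ev m (x - y) * ev p y`.
-/

open MeasureTheory Set Filter Topology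

namespace Pool.Agent.CDk.PT

noncomputable def ev : List ℚ → ℝ → ℝ
  | [], _ => 0
  | a :: l, t => a + t * ev l t

def padd : List ℚ → List ℚ → List ℚ
  | [], m => m
  | l, [] => l
  | a :: l, b :: m => (a + b) :: padd l m

def psm (c : ℚ) (l : List ℚ) : List ℚ := l.map (fun x => c * x)

def pmul : List ℚ → List ℚ → List ℚ
  | [], _ => []
  | a :: l, m => padd (psm a m) (0 :: pmul l m)

def pcomp : List ℚ → List ℚ → List ℚ
  | [], _ => []
  | a :: l, m => padd [a] (pmul m (pcomp l m))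

def gint : ℕ → List ℚ → List ℚ
  | _, [] => []
  | n, a :: l => (a / (n + 1)) :: gint (n + 1) l

def pint (l : List ℚ) : List ℚ := 0 :: gint 0 l

def gder : ℕ → List ℚ → List ℚ
  | _, [] => []
  | n, a :: l => ((n + 1) * a) :: gder (n + 1) l

def pder : List ℚ → List ℚ
  | [] => []
  | _ :: l => gder 0 l

def pbd (r : ℚ) : List ℚ → ℚ
  | [] => 0
  | a :: l => |a| + r * pbd r l

def pos1 (ε r : ℚ) : List ℚ → Bool
  | [] => decide (ε ≤ 0)
  | a :: l => decide (ε + r * pbd r l ≤ a)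

def chk (l : List ℚ) (ε : ℚ) : ℕ → ℚ → ℚ → Bool
  | 0, lo, hi => pos1 ε ((hi - lo) / 2) (pcomp l [(lo + hi) / 2, 1])
  | n + 1, lo, hi => pos1 ε ((hi - lo) / 2) (pcomp l [(lo + hi) / 2, 1]) ||
      (chk l ε n lo ((lo + hi) / 2) && chk l ε n ((lo + hi) / 2) hi)

def conv : ℕ → List ℚ → List ℚ → List ℚ → List ℚ → List ℚ
  | 0, _, _, _, _ => []
  | n + 1, m, p, X, Y =>
    padd (pmul (pcomp m X) (pcomp (pint p) Y)) (conv n (pder m) (pint p) X Y)

noncomputable def cv : ℕ → List ℚ → List ℚ → ℝ → ℝ → ℝ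
  | 0, _, _, _, _ => 0
  | n + 1, m, p, z, y => ev m z * ev (pint p) y + cv n (pder m) (pint p) z y

theorem ev_padd (l m : List ℚ) (t : ℝ) : ev (padd l m) t = ev l t + ev m t := by
  induction l generalizing m with
  | nil => simp [padd, ev]
  | cons a l ih =>
    cases m with
    | nil => simp [padd, ev]
    | cons b m => simp only [padd, ev, ih]; push_cast; ring

theorem ev_psm (c : ℚ) (l : List ℚ) (t : ℝ) : ev (psm c l) t = c * ev l t := by
  induction l with
  | nil => simp [psm, ev]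
  | cons a l ih =>
    have : psm c (a :: l) = (c * a) :: psm c l := rfl
    rw [this, ev, ev, ih]; push_cast; ring

theorem ev_pmul (l m : List ℚ) (t : ℝ) : ev (pmul l m) t = ev l t * ev m t := by
  induction l with
  | nil => simp [pmul, ev]
  | cons a l ih =>
    rw [pmul, ev_padd, ev_psm, ev, ev, ih]; push_cast; ring

theorem ev_pcomp (l m : List ℚ) (t : ℝ) : ev (pcomp l m) t = ev l (ev m t) := by
  induction l with
  | nil => simp [pcomp, ev]
  | cons a l ih =>
    rw [pcomp, ev_padd, ev_pmul, ih, ev, ev, ev]; ring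

theorem ev_lin (b c : ℚ) (t : ℝ) : ev [b, c] t = b + c * t := by
  simp only [ev]; ring

theorem ev_const (b : ℚ) (t : ℝ) : ev [b] t = b := by
  simp only [ev]; ring

theorem gint_deriv (l : List ℚ) : ∀ (n : ℕ) (t : ℝ),
    HasDerivAt (fun t => t ^ (n + 1) * ev (gint n l) t) (t ^ n * ev l t) t := by
  induction l with
  | nil =>
    intro n t
    simp only [gint, ev, mul_zero]
    exact hasDerivAt_const t 0
  | cons a l ih =>
    intro n t
    have h1 := ih (n + 1) t
    have h2 : HasDerivAt (fun t : ℝ => ((a / ((n:ℚ) + 1) : ℚ) : ℝ) * t ^ (n + 1))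
        (((a / ((n:ℚ) + 1) : ℚ) : ℝ) * (((n + 1 : ℕ) : ℝ) * t ^ n)) t :=
      (hasDerivAt_pow (n + 1) t).const_mul _
    have h3 := h2.add h1
    have hn : ((n:ℝ) + 1) ≠ 0 := by positivity
    have e1 : (fun t : ℝ => t ^ (n + 1) * ev (gint n (a :: l)) t) =
        (fun t : ℝ => ((a / ((n:ℚ) + 1) : ℚ) : ℝ) * t ^ (n + 1)) +
          (fun t : ℝ => t ^ (n + 1 + 1) * ev (gint (n + 1) l) t) := by
      funext x
      simp only [gint, ev, Pi.add_apply]
      ring
    rw [e1]
    have e2 : t ^ n * ev (a :: l) t = ((a / ((n:ℚ) + 1) : ℚ) : ℝ) * (((n + 1 : ℕ) : ℝ) * t ^ n) +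
        t ^ (n + 1) * ev l t := by
      simp only [ev]
      push_cast
      field_simp
      ring
    rw [e2]
    exact h3

theorem ev_pint_deriv (l : List ℚ) (t : ℝ) : HasDerivAt (ev (pint l)) (ev l t) t := by
  have h := gint_deriv l 0 t
  have e1 : ev (pint l) = fun t => t ^ (0 + 1) * ev (gint 0 l) t := by
    funext x
    simp only [pint, ev]
    push_cast
    ring
  rw [e1]
  have e2 : ev l t = t ^ 0 * ev l t := by ring
  rw [e2]
  exact h

theorem gder_deriv (l : List ℚ) : ∀ (n : ℕ) (t : ℝ),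
    HasDerivAt (fun t => t ^ (n + 1) * ev l t) (t ^ n * ev (gder n l) t) t := by
  induction l with
  | nil =>
    intro n t
    simp only [gder, ev, mul_zero]
    exact hasDerivAt_const t 0
  | cons a l ih =>
    intro n t
    have h1 := ih (n + 1) t
    have h2 : HasDerivAt (fun t : ℝ => (a:ℝ) * t ^ (n + 1))
        ((a:ℝ) * (((n + 1 : ℕ) : ℝ) * t ^ n)) t :=
      (hasDerivAt_pow (n + 1) t).const_mul _
    have h3 := h2.add h1
    have e1 : (fun t : ℝ => t ^ (n + 1) * ev (a :: l) t) =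
        (fun t : ℝ => (a:ℝ) * t ^ (n + 1)) + (fun t : ℝ => t ^ (n + 1 + 1) * ev l t) := by
      funext x
      simp only [ev, Pi.add_apply]
      ring
    rw [e1]
    have e2 : t ^ n * ev (gder n (a :: l)) t = (a:ℝ) * (((n + 1 : ℕ) : ℝ) * t ^ n) +
        t ^ (n + 1) * ev (gder (n + 1) l) t := by
      simp only [gder, ev]
      push_cast
      ring
    rw [e2]
    exact h3

theorem ev_deriv (l : List ℚ) (t : ℝ) : HasDerivAt (ev l) (ev (pder l) t) t := by
  cases l with
  | nil =>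
    have : ev [] = fun _ : ℝ => (0:ℝ) := by funext x; simp [ev]
    rw [this]
    simpa [pder, ev] using hasDerivAt_const t (0:ℝ)
  | cons a l =>
    have h := (gder_deriv l 0 t).const_add (a:ℝ)
    have e1 : ev (a :: l) = fun t => (a:ℝ) + t ^ (0 + 1) * ev l t := by
      funext x
      simp only [ev]
      ring
    rw [e1]
    have e2 : ev (pder (a :: l)) t = t ^ 0 * ev (gder 0 l) t := by
      simp only [pder]; ring
    rw [e2]
    exact h

theorem ev_cont (l : List ℚ) : Continuous (ev l) :=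
  continuous_iff_continuousAt.2 fun t => (ev_deriv l t).continuousAt

theorem ev_integral (l : List ℚ) (a b : ℝ) :
    ∫ y in a..b, ev l y = ev (pint l) b - ev (pint l) a := by
  refine intervalIntegral.integral_eq_sub_of_hasDerivAt (fun y _ => ev_pint_deriv l y) ?_
  exact (ev_cont l).intervalIntegrable _ _

theorem cv_deriv (x : ℝ) : ∀ (n : ℕ) (m p : List ℚ) (y : ℝ),
    HasDerivAt (fun y => cv n m p (x - y) y)
      (ev m (x - y) * ev p y - ev (pder^[n] m) (x - y) * ev (pint^[n] p) y) y := by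
  intro n
  induction n with
  | zero =>
    intro m p y
    simp only [cv, Function.iterate_zero, id, sub_self]
    exact hasDerivAt_const y 0
  | succ n ih =>
    intro m p y
    have h1 := ih (pder m) (pint p) y
    have h0 : HasDerivAt (fun y : ℝ => x - y) (-1) y := by
      simpa using (hasDerivAt_id y).const_sub x
    have h2 : HasDerivAt (fun y => ev m (x - y)) (ev (pder m) (x - y) * (-1)) y :=
      (ev_deriv m (x - y)).comp y h0
    have h3 := (h2.mul (ev_pint_deriv p y)).add h1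
    have e1 : (fun y => cv (n + 1) m p (x - y) y) =
        ((fun y => ev m (x - y)) * ev (pint p)) + fun y => cv n (pder m) (pint p) (x - y) y := by
      funext z
      simp only [cv, Pi.add_apply, Pi.mul_apply]
    rw [e1]
    have e2 : ev m (x - y) * ev p y - ev (pder^[n+1] m) (x - y) * ev (pint^[n+1] p) y =
        ev (pder m) (x - y) * (-1) * ev (pint p) y + ev m (x - y) * ev p y +
        (ev (pder m) (x - y) * ev (pint p) y -
          ev (pder^[n] (pder m)) (x - y) * ev (pint^[n] (pint p)) y) := by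
      rw [Function.iterate_succ_apply, Function.iterate_succ_apply]
      ring
    rw [e2]
    exact h3

theorem cv_int {n : ℕ} {m : List ℚ} (hm : pder^[n] m = []) (p : List ℚ) (x a b : ℝ) :
    ∫ y in a..b, ev m (x - y) * ev p y = cv n m p (x - b) b - cv n m p (x - a) a := by
  have h1 : ∀ y, HasDerivAt (fun y => cv n m p (x - y) y) (ev m (x - y) * ev p y) y := by
    intro y
    have := cv_deriv x n m p y
    rw [hm] at this
    simpa [ev] using this
  refine intervalIntegral.integral_eq_sub_of_hasDerivAt (f := fun y => cv n m p (x - y) y)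
    (fun y _ => h1 y) ?_
  refine Continuous.intervalIntegrable ?_ _ _
  exact ((ev_cont m).comp (continuous_const.sub continuous_id)).mul (ev_cont p)

theorem ev_conv : ∀ (n : ℕ) (m p X Y : List ℚ) (t : ℝ),
    ev (conv n m p X Y) t = cv n m p (ev X t) (ev Y t) := by
  intro n
  induction n with
  | zero => intro m p X Y t; simp [conv, cv, ev]
  | succ n ih =>
    intro m p X Y t
    rw [conv, cv, ev_padd, ev_pmul, ev_pcomp, ev_pcomp, ih]

theorem ev_pbd (r : ℚ) (l : List ℚ) {s : ℝ} (hs : |s| ≤ r) : |ev l s| ≤ pbd r l := by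
  induction l with
  | nil => simp [ev, pbd]
  | cons a l ih =>
    rw [ev, pbd]
    push_cast
    refine (abs_add_le _ _).trans ?_
    rw [abs_mul]
    have h0 : (0:ℝ) ≤ r := (abs_nonneg s).trans hs
    have h1 : |s| * |ev l s| ≤ r * pbd r l := mul_le_mul hs ih (abs_nonneg _) h0
    linarith

theorem pos1_sound {ε r : ℚ} {l : List ℚ} (h : pos1 ε r l = true) {s : ℝ} (hs : |s| ≤ r) :
    (ε:ℝ) ≤ ev l s := by
  cases l with
  | nil =>
    have h1 : ε ≤ 0 := of_decide_eq_true h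
    rw [ev]
    exact_mod_cast h1
  | cons a l =>
    have h1 : ε + r * pbd r l ≤ a := of_decide_eq_true h
    have h2 : (ε:ℝ) + r * pbd r l ≤ a := by exact_mod_cast h1
    have h3 := ev_pbd r l hs
    have h0 : (0:ℝ) ≤ r := (abs_nonneg s).trans hs
    have h4 : |s * ev l s| ≤ r * pbd r l := by
      rw [abs_mul]
      exact mul_le_mul hs h3 (abs_nonneg _) h0
    rw [ev]
    linarith [(abs_le.1 h4).1]

theorem leaf_sound {l : List ℚ} {ε lo hi : ℚ}
    (h : pos1 ε ((hi - lo) / 2) (pcomp l [(lo + hi) / 2, 1]) = true) {t : ℝ} (h0 : (lo:ℝ) ≤ t)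
    (h1 : t ≤ hi) : (ε:ℝ) ≤ ev l t := by
  have h2 := pos1_sound h (s := t - (lo + hi) / 2)
    (by push_cast; rw [abs_le]; constructor <;> linarith)
  rw [ev_pcomp, ev_lin] at h2
  have h3 : (((lo + hi) / 2 : ℚ) : ℝ) + ((1:ℚ):ℝ) * (t - (lo + hi) / 2) = t := by push_cast; ring
  rwa [h3] at h2

theorem chk_sound {l : List ℚ} {ε : ℚ} : ∀ (n : ℕ) (lo hi : ℚ), chk l ε n lo hi = true →
    ∀ t : ℝ, (lo:ℝ) ≤ t → t ≤ hi → (ε:ℝ) ≤ ev l t := by
  intro n
  induction n with
  | zero =>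
    intro lo hi h t h0 h1
    exact leaf_sound h h0 h1
  | succ n ih =>
    intro lo hi h t h0 h1
    rw [chk, Bool.or_eq_true, Bool.and_eq_true] at h
    rcases h with h | ⟨ha, hb⟩
    · exact leaf_sound h h0 h1
    · rcases le_total t (((lo + hi) / 2 : ℚ) : ℝ) with h2 | h2
      · exact ih _ _ ha t h0 h2
      · exact ih _ _ hb t h2 h1

/-! ### Approximations of the profiles -/

def lD : List ℚ := [0, 0.99582, 0.0503, -0.15027, -0.01586, 0.0092]
def lI : List ℚ := [0, 0, 0.99582/2, 0.0503/3, -0.15027/4, -0.01586/5, 0.0092/6]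
def lJ : List ℚ := [0, 0, 0, 0.99582/6, 0.0503/12, -0.15027/20, -0.01586/30, 0.0092/42]
def lM : List ℚ := [0.405756, 0.946702, 0.350512, -0.138773, -0.038228, 0.009728]

theorem ev_lD (y : ℝ) : ev lD y = Par.PD y := by
  simp only [ev, lD, Par.PD]; push_cast; ring
theorem ev_lI (y : ℝ) : ev lI y = Par.PI y := by
  simp only [ev, lI, Par.PI]; push_cast; ring
theorem ev_lJ (y : ℝ) : ev lJ y = Par.PJ y := by
  simp only [ev, lJ, Par.PJ]; push_cast; ring
theorem ev_lM (y : ℝ) : ev lM y = Par.PM y := by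
  simp only [ev, lM, Par.PM]; push_cast; ring

variable {P : Par}

theorem int_io (h : P.Star) (a : ℝ) : ∫ y in (0:ℝ)..a, P.io y = P.J a / P.L := by
  have h1 : ∀ y ∈ uIcc (0:ℝ) a, HasDerivAt (fun y => P.J y / P.L) (P.io y) y := by
    intro y _
    exact (Par.J_deriv h y).div_const _
  rw [intervalIntegral.integral_eq_sub_of_hasDerivAt h1 ((Par.cx_cont h).intervalIntegrable _ _),
    Par.J_zero h le_rfl, zero_div, sub_zero]

theorem PI_nonneg {y : ℝ} (h0 : 0 ≤ y) (h1 : y ≤ 1.77) : 0 ≤ ev lI y := by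
  have e : ev lI y = y ^ 2 * ev [0.99582/2, 0.0503/3, -0.15027/4, -0.01586/5, 0.0092/6] y := by
    simp only [ev, lI]; push_cast; ring
  rw [e]
  refine mul_nonneg (sq_nonneg y) ?_
  have h2 : chk [0.99582/2, 0.0503/3, -0.15027/4, -0.01586/5, 0.0092/6] 0 3 0 (177/100) = true := by
    decide +kernel
  have h3 := chk_sound 3 0 (177/100) h2 y (by push_cast; exact h0) (by push_cast; linarith only [h1])
  simpa using h3

private theorem chk_PD : chk (padd [1.10002] (psm (-1) lD)) 0 6 (1640087/1000000) (177/100) = true := by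
  decide +kernel

private theorem PD_le {z : ℝ} (h0 : 1.640087 ≤ z) (h1 : z ≤ 1.77) : Par.PD z ≤ 1.10002 := by
  have h3 := chk_sound _ _ _ chk_PD z (by push_cast; linarith) (by push_cast; linarith)
  rw [ev_padd, ev_psm, ev_lD, ev_const] at h3
  push_cast at h3
  linarith

private theorem PI_deriv (y : ℝ) : HasDerivAt Par.PI (Par.PD y) y := by
  have h1 := ev_pint_deriv lD y
  have e1 : ev (pint lD) = Par.PI := by
    funext x
    simp only [pint, gint, lD, ev, Par.PI]
    push_cast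
    ring
  rw [e1, ev_lD] at h1
  exact h1

theorem D_rho_ge (h : P.Star) : 1.09994 ≤ P.D P.ρ := by
  have hρ := h.ρ_lo
  have hρ' := h.ρ_hi
  have he := h.e_hi
  have h2 := abs_le.1 (Par.D_app5 h (y := P.ρ) (by linarith) le_rfl)
  have h3 : 1.09996 ≤ Par.PD5 P.ρ := by
    unfold Par.PD5
    have a2 : (1.640087 : ℝ) ^ 2 ≤ P.ρ ^ 2 := pow_le_pow_left₀ (by norm_num) hρ.le 2
    have a3 : P.ρ ^ 3 ≤ 1.640088 ^ 3 := pow_le_pow_left₀ (by linarith only [hρ, hρ']) hρ'.le 3
    have a4 : P.ρ ^ 4 ≤ 1.640088 ^ 4 := pow_le_pow_left₀ (by linarith only [hρ, hρ']) hρ'.le 4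
    have a5 : (1.640087 : ℝ) ^ 5 ≤ P.ρ ^ 5 := pow_le_pow_left₀ (by norm_num) hρ.le 5
    norm_num at a2 a3 a4 a5 ⊢
    linarith only [hρ, hρ', a2, a3, a4, a5]
  linarith only [h2.1, hρ, hρ', h2, h3]

theorem I_ge (h : P.Star) {y : ℝ} (h0 : 0 ≤ y) (h1 : y ≤ 1.77) : ev lI y - 0.0000255 ≤ P.I y := by
  have hρ := h.ρ_lo
  rw [ev_lI]
  rcases le_total y P.ρ with h2 | h2
  · have := abs_le.1 (Par.I_app h h0 h2)
    linarith only [this.1, this]
  · have h3 := abs_le.1 (Par.I_app h (y := P.ρ) (by linarith) le_rfl)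
    have h4 : P.I y = P.I P.ρ + P.D P.ρ * (y - P.ρ) := by
      unfold Par.I Par.D
      rw [min_eq_right h2, min_self, max_eq_left (by linarith), sub_self, max_self, mul_zero,
        add_zero]
    have h5 := D_rho_ge h
    have h6 : AntitoneOn (fun z => Par.PI z - 1.10002 * z) (Icc P.ρ 1.77) := by
      apply antitoneOn_of_deriv_nonpos (convex_Icc _ _)
      · intro z _
        exact ((PI_deriv z).sub ((hasDerivAt_id z).const_mul 1.10002)).continuousAt.continuousWithinAt
      · intro z _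
        exact ((PI_deriv z).sub ((hasDerivAt_id z).const_mul 1.10002)).differentiableAt.differentiableWithinAt
      · intro z hz
        rw [interior_Icc] at hz
        have h7 := ((PI_deriv z).sub ((hasDerivAt_id z).const_mul 1.10002)).deriv
        have h8 : deriv (fun z => Par.PI z - 1.10002 * z) z = Par.PD z - 1.10002 * 1 := h7
        rw [h8]
        have := PD_le (z := z) (by linarith only [hz.1, hρ, hz]) hz.2.le
        linarith only [this]
    have h7 := h6 (⟨le_rfl, by linarith⟩ : P.ρ ∈ Icc P.ρ 1.77) (⟨h2, h1⟩ : y ∈ Icc P.ρ 1.77) h2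
    simp only at h7
    have h8 : 1.09994 * (y - P.ρ) ≤ P.D P.ρ * (y - P.ρ) :=
      mul_le_mul_of_nonneg_right h5 (by linarith)
    rw [h4]
    linarith only [h3.1, h1, hρ, h3, h7, h8]

private theorem div_bd {P : Par} (h : P.Star) {x ε : ℝ} (hx : 0 ≤ x) (hε : 0 ≤ ε) :
    x / 2.665784 - ε / 2.665779 ≤ (x - ε) / P.L := by
  obtain ⟨-, -, hL1, hL2⟩ := Par.Y_pos h
  have hL : 0 < P.L := by linarith
  rw [sub_div]
  have h1 : x / 2.665784 ≤ x / P.L := div_le_div_of_nonneg_left hx hL hL2.le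
  have h2 : ε / P.L ≤ ε / 2.665779 := div_le_div_of_nonneg_left hε (by norm_num) hL1.le
  linarith

theorem io_ge (h : P.Star) {y : ℝ} (h0 : 0 ≤ y) (h1 : y ≤ 1.77) :
    ev lI y / 2.665784 - 0.0000096 ≤ P.io y := by
  have hL := Par.cx_L_pos h
  have h2 := I_ge h h0 h1
  have h3 := div_bd h (PI_nonneg h0 h1) (show (0:ℝ) ≤ 0.0000255 by norm_num)
  have h4 : (ev lI y - 0.0000255) / P.L ≤ P.I y / P.L := div_le_div_of_nonneg_right h2 hL.le
  have h5 : (0.0000255 : ℝ) / 2.665779 ≤ 0.0000096 := by norm_num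
  unfold Par.io
  linarith

theorem io_ge1 (h : P.Star) {y : ℝ} (h0 : 0 ≤ y) (h1 : y ≤ P.ρ) :
    ev lI y / 2.665784 - 0.0000057 ≤ P.io y := by
  have hL := Par.cx_L_pos h
  have hρ := h.ρ_hi
  have h2 := (abs_le.1 (Par.I_app h h0 h1)).1
  rw [← ev_lI] at h2
  have h3 := div_bd h (PI_nonneg h0 (by linarith)) (show (0:ℝ) ≤ 0.000015 by norm_num)
  have h4 : (ev lI y - 0.000015) / P.L ≤ P.I y / P.L := div_le_div_of_nonneg_right (by linarith) hL.le
  have h5 : (0.000015 : ℝ) / 2.665779 ≤ 0.0000057 := by norm_num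
  unfold Par.io
  linarith

theorem io_le1 (h : P.Star) {y : ℝ} (h0 : 0 ≤ y) (h1 : y ≤ P.ρ) :
    P.io y ≤ ev lI y / 2.665779 + 0.0000057 := by
  obtain ⟨-, -, hL1, hL2⟩ := Par.Y_pos h
  have hL := Par.cx_L_pos h
  have hρ := h.ρ_hi
  have h2 := (abs_le.1 (Par.I_app h h0 h1)).2
  rw [← ev_lI] at h2
  have h3 := PI_nonneg h0 (by linarith : y ≤ 1.77)
  unfold Par.io
  have h4 : P.I y / P.L ≤ (ev lI y + 0.000015) / P.L := div_le_div_of_nonneg_right (by linarith) hL.le
  have h5 : (ev lI y + 0.000015) / P.L ≤ (ev lI y + 0.000015) / 2.665779 :=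
    div_le_div_of_nonneg_left (by linarith) (by norm_num) hL1.le
  have h7 : (ev lI y + 0.000015) / 2.665779 = ev lI y / 2.665779 + 0.000015 / 2.665779 := add_div _ _ _
  have h6 : (0.000015 : ℝ) / 2.665779 ≤ 0.0000057 := by norm_num
  linarith only [hL1, hL2, h4, h5, h7]

/-- the approximation of the adjoint profile on `[0, 1.51828]` -/
theorem mb_apx (h : P.Star) {v : ℝ} (h0 : 0 ≤ v) (h1 : v ≤ 1.51828) :
    |P.mb v - ev lM (1.6400875 - v)| ≤ 0.000016 := by
  have hρ := h.ρ_lo; have hρ' := h.ρ_hi; have he := h.e_lo; have he' := h.e_hi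
  rw [ev_lM]
  rcases le_total v (P.ρ - P.e0) with h2 | h2
  · have k1 := Par.mb_app h (t := P.ρ - v) (by linarith) (by linarith)
    rw [sub_sub_cancel] at k1
    have k2 := U1n.PM_lip (x := P.ρ - v) (y := 1.6400875 - v) (by linarith) (by linarith)
      (by linarith) (by linarith only [h0, hρ, hρ'])
    have k3 : |P.ρ - v - (1.6400875 - v)| ≤ 0.0000005 := by
      rw [abs_le]; constructor <;> linarith
    have k4 := abs_add_le (P.mb v - Par.PM (P.ρ - v)) (Par.PM (P.ρ - v) - Par.PM (1.6400875 - v))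
    rw [show P.mb v - Par.PM (P.ρ - v) + (Par.PM (P.ρ - v) - Par.PM (1.6400875 - v)) =
      P.mb v - Par.PM (1.6400875 - v) by ring] at k4
    linarith only [hρ, hρ', k1, k2, k3, k4]
  · have hY := Par.Y_pos h
    rw [Par.mb_out h h2, max_eq_left (by linarith only [hY.1, h1, hρ, hρ', hY])]
    have hu := h.u_lo; have hu' := h.u_hi
    set t := 1.6400875 - v with ht
    have t0 : 0.1218 ≤ t := by linarith only [h1, hρ, hρ', ht]
    have t1 : t ≤ 0.12182 := by linarith only [hρ, hρ', he', h2, ht]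
    have e1 : P.Y - v = t + (P.Y - 1.6400875) := by rw [ht]; ring
    have e2 : 0.9038735 ≤ P.Y - 1.6400875 := by linarith only [hY.1, hY]
    have e3 : P.Y - 1.6400875 ≤ 0.9038775 := by linarith only [hY.2.1, hY]
    rw [e1]
    unfold Par.PM
    set x := P.Y - 1.6400875
    have q1 : (t + 0.9038735) ^ 2 ≤ (t + x) ^ 2 := pow_le_pow_left₀ (by linarith only [h1, hρ, hρ', ht]) (by linarith only [hY, ht]) 2
    have q2 : (t + x) ^ 2 ≤ (t + 0.9038775) ^ 2 := pow_le_pow_left₀ (by linarith only [h1, hρ, hρ', hY]) (by linarith only [hY, ht]) 2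
    rw [add_sq t] at q1
    rw [add_sq t 0.9038775] at q2
    have a2 : (0.1218 : ℝ) ^ 2 ≤ t ^ 2 := pow_le_pow_left₀ (by norm_num) t0 2
    have a3 : (0.1218 : ℝ) ^ 3 ≤ t ^ 3 := pow_le_pow_left₀ (by norm_num) t0 3
    have a4 : (0.1218 : ℝ) ^ 4 ≤ t ^ 4 := pow_le_pow_left₀ (by norm_num) t0 4
    have a5 : (0.1218 : ℝ) ^ 5 ≤ t ^ 5 := pow_le_pow_left₀ (by norm_num) t0 5
    have b2 : t ^ 2 ≤ 0.12182 ^ 2 := pow_le_pow_left₀ (by linarith only [h1, hρ, hρ', ht]) t1 2
    have b3 : t ^ 3 ≤ 0.12182 ^ 3 := pow_le_pow_left₀ (by linarith only [h1, hρ, hρ', ht]) t1 3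
    have b4 : t ^ 4 ≤ 0.12182 ^ 4 := pow_le_pow_left₀ (by linarith only [h1, hρ, hρ', ht]) t1 4
    have b5 : t ^ 5 ≤ 0.12182 ^ 5 := pow_le_pow_left₀ (by linarith only [h1, hρ, hρ', ht]) t1 5
    norm_num at q1 q2 a2 a3 a4 a5 b2 b3 b4 b5 ⊢
    rw [abs_le]
    constructor <;> linarith

theorem io_lip (h : P.Star) (x y : ℝ) : |P.io x - P.io y| ≤ 0.4127 * |x - y| := by
  have hL := Par.cx_L_pos h
  have key : ∀ a b : ℝ, a < b → |P.io b - P.io a| ≤ 0.4127 * |b - a| := by
    intro a b hab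
    obtain ⟨ξ, -, -, h3⟩ := Par.cx_mvt h hab
    have h4 : P.io b - P.io a = P.D ξ / P.L * (b - a) := by linarith
    have h5 : P.D ξ / P.L ≤ 0.4127 := by
      have h6 : P.D ξ ≤ P.D (max ξ 1.24) := Par.D_mono h (le_max_left _ _)
      have h7 := (Par.io_slope h (y := max ξ 1.24) (le_max_right _ _)).2
      exact (div_le_div_of_nonneg_right h6 hL.le).trans h7
    have h6 : 0 ≤ P.D ξ / P.L := div_nonneg (Par.cx_D_nonneg h ξ) hL.le
    rw [h4, abs_mul, abs_of_nonneg h6]
    exact mul_le_mul_of_nonneg_right h5 (abs_nonneg _)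
  rcases lt_trichotomy x y with h1 | h1 | h1
  · rw [abs_sub_comm, abs_sub_comm x y]
    exact key x y h1
  · rw [h1]; simp
  · exact key y x h1

/-- the integral of `φ gN` is an integral up to the crossing -/
theorem gN_int (h : P.Star) {φ : ℝ → ℝ} (hφ : Continuous φ) {a c : ℝ}
    (hc : P.io c = P.qN a P.io) (hc1 : a ≤ c) (hc2 : c ≤ P.Y + a) :
    ∫ v in (0:ℝ)..P.Y, φ v * P.gN a P.io v = ∫ y in a..c, φ (y - a) * (P.qN a P.io - P.io y) := by
  have hio := Par.cx_cont h
  have hg : Continuous (P.gN a P.io) := by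
    unfold Par.gN
    exact (continuous_const.sub (hio.comp (continuous_id.add continuous_const))).max continuous_const
  have hF : Continuous fun v => φ v * P.gN a P.io v := hφ.mul hg
  rw [← intervalIntegral.integral_add_adjacent_intervals (hF.intervalIntegrable 0 (c - a))
    (hF.intervalIntegrable (c - a) P.Y)]
  have e1 : ∫ v in (0:ℝ)..(c - a), φ v * P.gN a P.io v
      = ∫ v in (0:ℝ)..(c - a), φ v * (P.qN a P.io - P.io (v + a)) := by
    apply intervalIntegral.integral_congr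
    intro v hv
    rw [uIcc_of_le (by linarith)] at hv
    have : P.io (v + a) ≤ P.io c := Par.cx_mono h (by linarith [hv.2])
    simp only [Par.gN]
    rw [max_eq_left (by linarith)]
  have e2 : ∫ v in (c - a)..P.Y, φ v * P.gN a P.io v = 0 := by
    have : ∫ v in (c - a)..P.Y, φ v * P.gN a P.io v = ∫ v in (c - a)..P.Y, (0:ℝ) := by
      apply intervalIntegral.integral_congr
      intro v hv
      rw [uIcc_of_le (by linarith)] at hv
      have : P.io c ≤ P.io (v + a) := Par.cx_mono h (by linarith [hv.1])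
      simp only [Par.gN]
      rw [max_eq_right (by linarith), mul_zero]
    rw [this]; simp
  rw [e1, e2, add_zero]
  have e3 := intervalIntegral.integral_comp_sub_right (a := a) (b := c)
    (fun v => φ v * (P.qN a P.io - P.io (v + a))) a
  simp only [sub_add_cancel, sub_self] at e3
  exact e3.symm

/-- lower and upper bound of `cosh` -/
theorem cosh_ge {z : ℝ} (h0 : 0 ≤ z) (h1 : z ≤ 1) : 1 + z ^ 2 / 2 + z ^ 4 / 24 ≤ Real.cosh z := by
  have h2 := abs_le.1 (Par.sinh_poly (z / 2) (by rw [abs_of_nonneg (by linarith)]; linarith))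
  have h3 : |z / 2| ^ 10 * (11 / 36288000) ≤ (z / 2) ^ 9 / 362880 := by
    rw [abs_of_nonneg (by linarith : 0 ≤ z / 2)]
    have h4 : (z / 2) ^ 10 = (z / 2) ^ 9 * (z / 2) := by ring
    have h5 : 0 ≤ (z / 2) ^ 9 := by positivity
    rw [h4]
    nlinarith only [mul_le_mul_of_nonneg_left (by linarith : z / 2 ≤ 1) h5, h5, h1]
  have h4 : z / 2 + (z / 2) ^ 3 / 6 ≤ Real.sinh (z / 2) := by
    have p5 : 0 ≤ (z / 2) ^ 5 := by positivity
    have p7 : 0 ≤ (z / 2) ^ 7 := by positivity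
    linarith only [h2.1, h2, h3, p5, p7]
  have h5 : Real.cosh z = 1 + 2 * Real.sinh (z / 2) ^ 2 := by
    have h6 := Real.cosh_two_mul (z / 2)
    have h7 := Real.cosh_sq (z / 2)
    rw [show 2 * (z / 2) = z by ring] at h6
    rw [h6, h7]; ring
  have h6 : (z / 2 + (z / 2) ^ 3 / 6) ^ 2 ≤ Real.sinh (z / 2) ^ 2 :=
    pow_le_pow_left₀ (by positivity) h4 2
  have h7 : 0 ≤ z ^ 6 := by positivity
  rw [h5]
  nlinarith only [h6, h7]

theorem cosh_le {z : ℝ} (h0 : 0 ≤ z) (h1 : z ≤ 0.51) :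
    Real.cosh z ≤ 1.0001 + z ^ 2 / 2 + z ^ 4 / 24 := by
  have h2 := abs_le.1 (Par.sinh_poly (z / 2) (by rw [abs_of_nonneg (by linarith)]; linarith))
  have h3 : |z / 2| ^ 10 * (11 / 36288000) ≤ (z / 2) ^ 5 * 0.00001 := by
    rw [abs_of_nonneg (by linarith only [h0] : 0 ≤ z / 2)]
    have h4 : (z / 2) ^ 10 = (z / 2) ^ 5 * (z / 2) ^ 5 := by ring
    have h5 : 0 ≤ (z / 2) ^ 5 := by positivity
    have h6 : (z / 2) ^ 5 ≤ 1 := pow_le_one₀ (by linarith only [h0]) (by linarith only [h1])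
    rw [h4]
    nlinarith only [mul_le_mul_of_nonneg_left h6 h5, h5, h6]
  have h4 : Real.sinh (z / 2) ≤ z / 2 + (z / 2) ^ 3 / 6 + (z / 2) ^ 5 * 0.01 := by
    have p5 : 0 ≤ (z / 2) ^ 5 := by positivity
    have p7 : (z / 2) ^ 7 ≤ (z / 2) ^ 5 * 0.066 := by
      have : (z / 2) ^ 2 ≤ 0.256 ^ 2 := pow_le_pow_left₀ (by linarith only [h0]) (by linarith only [h1]) 2
      have e : (z / 2) ^ 7 = (z / 2) ^ 5 * (z / 2) ^ 2 := by ring
      rw [e]
      exact mul_le_mul_of_nonneg_left (this.trans (by norm_num)) p5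
    have p9 : (z / 2) ^ 9 ≤ (z / 2) ^ 5 * 0.066 := by
      have : (z / 2) ^ 4 ≤ 0.256 ^ 4 := pow_le_pow_left₀ (by linarith only [h0]) (by linarith only [h1]) 4
      have e : (z / 2) ^ 9 = (z / 2) ^ 5 * (z / 2) ^ 4 := by ring
      rw [e]
      exact mul_le_mul_of_nonneg_left (this.trans (by norm_num)) p5
    linarith only [h2.2, h2, h3, p7, p9]
  have h5 : Real.cosh z = 1 + 2 * Real.sinh (z / 2) ^ 2 := by
    have h6 := Real.cosh_two_mul (z / 2)
    have h7 := Real.cosh_sq (z / 2)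
    rw [show 2 * (z / 2) = z by ring] at h6
    rw [h6, h7]; ring
  have h8 : 0 ≤ Real.sinh (z / 2) := Real.sinh_nonneg_iff.2 (by linarith only [h0])
  have h6 : Real.sinh (z / 2) ^ 2 ≤ (z / 2 + (z / 2) ^ 3 / 6 + (z / 2) ^ 5 * 0.01) ^ 2 :=
    pow_le_pow_left₀ h8 h4 2
  have e : 2 * (z / 2 + (z / 2) ^ 3 / 6 + (z / 2) ^ 5 * 0.01) ^ 2 = z ^ 2 / 2 + z ^ 4 / 24 +
      z ^ 6 * (1/1152 + 0.01/16 + 0.01 * z ^ 2/384 + 0.0001 * z ^ 4 / 512) := by ring
  have h9 : z ^ 6 ≤ 0.51 ^ 6 := pow_le_pow_left₀ h0 h1 6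
  have h10 : z ^ 2 ≤ 1 := pow_le_one₀ h0 (by linarith only [h1])
  have h11 : z ^ 4 ≤ 1 := pow_le_one₀ h0 (by linarith only [h1])
  have h12 : z ^ 6 * (1/1152 + 0.01/16 + 0.01 * z ^ 2/384 + 0.0001 * z ^ 4 / 512) ≤
      0.51 ^ 6 * (1/1152 + 0.01/16 + 0.01 * 1/384 + 0.0001 * 1 / 512) := by
    refine mul_le_mul h9 ?_ (by positivity) (by norm_num)
    linarith only [h10, h11]
  norm_num at h12
  rw [h5]
  linarith only [h6, h12]

private theorem lM_chk0 : chk lM 0 4 0 (165/100) = true := by decide +kernel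
private theorem lM_chk1 : chk (padd [2.25] (psm (-1) lM)) 0 6 0 (165/100) = true := by decide +kernel

theorem lM_nonneg {t : ℝ} (h0 : 0 ≤ t) (h1 : t ≤ 1.65) : 0 ≤ ev lM t := by
  have := chk_sound _ _ _ lM_chk0 t (by push_cast; exact h0) (by push_cast; linarith)
  simpa using this

theorem lM_le {t : ℝ} (h0 : 0 ≤ t) (h1 : t ≤ 1.65) : ev lM t ≤ 2.25 := by
  have := chk_sound _ _ _ lM_chk1 t (by push_cast; exact h0) (by push_cast; linarith)
  rw [ev_padd, ev_psm, ev_const] at this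
  push_cast at this
  linarith

private theorem mb2_chk1 : chk (padd [0.0004] (padd lM (psm (-1/2)
    (pmul [0.9038775, 1] [0.9038775, 1])))) 0 6 (77/1000) (1219/10000) = true := by decide +kernel
private theorem mb2_chk2 : chk (padd [0.0004] (padd (psm (-1) lM) (psm (1/2)
    (pmul [0.9038735, 1] [0.9038735, 1])))) 0 6 (77/1000) (1219/10000) = true := by decide +kernel

/-- the same near the end -/
theorem mb_apx2 (h : P.Star) {v : ℝ} (h0 : 1.51827 ≤ v) (h1 : v ≤ 1.563) :
    |P.mb v - ev lM (1.6400875 - v)| ≤ 0.0004 := by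
  have hρ := h.ρ_lo; have hρ' := h.ρ_hi; have he := h.e_lo; have he' := h.e_hi
  have hY := Par.Y_pos h
  rw [Par.mb_out h (by linarith only [h0, hρ', he]), max_eq_left (by linarith only [hY.1, h1, hρ, hρ', hY])]
  set t := 1.6400875 - v with ht
  have t0 : 0.077 ≤ t := by linarith only [h1, hρ, hρ', ht]
  have t1 : t ≤ 0.1219 := by linarith only [h0, hρ, hρ', ht]
  have g1 : P.Y - v = t + (P.Y - 1.6400875) := by rw [ht]; ring
  rw [g1]
  set x := P.Y - 1.6400875
  have x0 : 0.9038735 ≤ x := by linarith only [hY.1, hY, ht]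
  have x1 : x ≤ 0.9038775 := by linarith only [hY.2.1, hY, ht]
  have q1 : (t + 0.9038735) ^ 2 ≤ (t + x) ^ 2 := pow_le_pow_left₀ (by linarith only [h1, hρ, hρ', ht]) (by linarith only [hY, ht]) 2
  have q2 : (t + x) ^ 2 ≤ (t + 0.9038775) ^ 2 := pow_le_pow_left₀ (by linarith only [h1, hρ, hρ', hY]) (by linarith only [hY, ht]) 2
  have k1 := chk_sound _ _ _ mb2_chk1 t (by push_cast; linarith only [h1, hρ, hρ', ht]) (by push_cast; linarith only [h0, hρ, hρ', ht])
  have k2 := chk_sound _ _ _ mb2_chk2 t (by push_cast; linarith only [h1, hρ, hρ', ht]) (by push_cast; linarith only [h0, hρ, hρ', ht])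
  rw [ev_padd, ev_padd, ev_psm, ev_pmul, ev_const, ev_lin] at k1
  rw [ev_padd, ev_padd, ev_psm, ev_psm, ev_pmul, ev_const, ev_lin] at k2
  push_cast at k1 k2
  have r1 : (0.9038775 + 1 * t) * (0.9038775 + 1 * t) = (t + 0.9038775) ^ 2 := by ring
  have r2 : (0.9038735 + 1 * t) * (0.9038735 + 1 * t) = (t + 0.9038735) ^ 2 := by ring
  rw [r1] at k1
  rw [r2] at k2
  rw [abs_le]
  constructor <;> linarith

end Pool.Agent.CDk.PT
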