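import Pool.Agent.CDk.CX
import Pool.Agent.CDk.D.D0
import Pool.Agent.CDk.D.PT
import Pool.Agent.CDk.Defs
import Pool.Agent.CDk.ENC
import Pool.Agent.CDk.FNa

/-!
# ZN: bounds of `NN` and `VN`

For `i = io`: a 0 .05 .1 .15 .2 .25 .3 .35 .4 .45
NN a io      1.00087 .99977 .99780 .99495 .99124 .98667 .98124 .97499 .96792 .96005
1-.13(a+e0)^2 .9981 .9962 .9936 .9904 .9865 .9820 .9769 .9711 .9646 .9575
weighted norm of the first variation (with the fixed cut `c - a`):
             1.5681 1.6820 1.8025 1.9294 2.0626 2.2018 2.3468 2.4975 2.6538 2.8154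
1.23+2.84(a+e0) 1.5760 1.7180 1.8600 2.0020 2.1440 2.2860 2.4280 2.5700 2.7120 2.8540
Proof of `NN_lo`: `NN a i ≥ VN a i + ∫_0^{c'-a} (Y-v)^2/2 (qN a i - i(v+a)) dv` with `c' = 1.559 + 0.4405 a` (drop
the positive part), which is linear in `i`; two polynomial inequalities in `a`.
-/

open MeasureTheory Set Filter Topology

namespace Pool.Agent.CDk.Par
variable {P : Par}

open Pool.Agent.CDk.PT

/-! ### facts on `w` -/

private theorem zn_wc : Continuous w := by
  unfold w; fun_prop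

private theorem zn_w0 (y : ℝ) : 0 ≤ w y := by
  unfold w
  have := le_max_right (y - 1.4) 0
  have h2 : 0 ≤ min (3 * y ^ 2) 1 := le_min (by positivity) (by norm_num)
  linarith only [this, h2]

private theorem zn_w1 {y : ℝ} (hy : y ≤ 1.4) : w y ≤ 3 * y ^ 2 ∧ w y ≤ 1 := by
  unfold w
  rw [max_eq_right (by linarith only [hy])]
  constructor
  · linarith only [min_le_left (3 * y ^ 2) 1]
  · linarith [min_le_right (3 * y ^ 2) 1]

private theorem zn_w2 {y : ℝ} (hy : 1.4 ≤ y) : w y ≤ 1 + 4 * (y - 1.4) := by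
  unfold w
  rw [max_eq_left (by linarith only [hy])]
  linarith [min_le_right (3 * y ^ 2) 1]

/-! ### upper bounds of `io` -/

private def zg : List ℚ := padd (padd [0.0004] lI) (psm (-1) (padd [0.000015 - 1.1002 * 1.640087, 1.1002]
  (pcomp lI [1.640088])))

private theorem zg_chk : chk zg 0 8 (1640087/1000000) (1758/1000) = true := by decide +kernel

private theorem zn_PI_mono {x y : ℝ} (hx : 0 ≤ x) (hxy : x ≤ y) (hy : y ≤ 1.65) : ev lI x ≤ ev lI y := by
  have h1 : MonotoneOn (ev lI) (Icc 0 1.65) := by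
    apply monotoneOn_of_deriv_nonneg (convex_Icc _ _) (ev_cont lI).continuousOn
    · intro z _
      exact (ev_deriv lI z).differentiableAt.differentiableWithinAt
    · intro z hz
      rw [interior_Icc] at hz
      rw [(ev_deriv lI z).deriv]
      have e : ev (pder lI) z = z * ev [0.99582, 0.0503, -0.15027, -0.01586, 0.0092] z := by
        simp only [ev, lI, pder, gder]; push_cast; ring
      rw [e]
      refine mul_nonneg hz.1.le ?_
      have h2 : chk [0.99582, 0.0503, -0.15027, -0.01586, 0.0092] 0 4 0 (165/100) = true := by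
        decide +kernel
      have h3 := chk_sound _ _ _ h2 z (by push_cast; exact hz.1.le) (by push_cast; linarith only [hz.2, hz])
      simpa using h3
  exact h1 ⟨hx, hxy.trans hy⟩ ⟨hx.trans hxy, hy⟩ hxy

private theorem zn_io_le (h : P.Star) {y : ℝ} (h0 : 0 ≤ y) (h1 : y ≤ 1.758) :
    P.io y ≤ ev (padd [0.0004] lI) y * (1 / 2.665779) := by
  obtain ⟨hY1, hY2, hL1, hL2⟩ := Y_pos h
  have hL := cx_L_pos h
  have hρ := h.ρ_lo; have hρ' := h.ρ_hi
  have hI0 := PI_nonneg h0 (by linarith only [h1, hρ, hρ'] : y ≤ 1.77)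
  have key : P.I y ≤ ev (padd [0.0004] lI) y := by
    rw [ev_padd, ev_const]
    push_cast
    rcases le_total y P.ρ with h2 | h2
    · have := (abs_le.1 (I_app h h0 h2)).2
      rw [← ev_lI] at this
      linarith only [hρ, hρ', this]
    · have h3 := (abs_le.1 (I_app h (y := P.ρ) (by linarith only [hρ, hρ']) le_rfl)).2
      rw [← ev_lI] at h3
      have h4 : P.I y = P.I P.ρ + P.D P.ρ * (y - P.ρ) := by
        unfold I D
        rw [min_eq_right h2, min_self, max_eq_left (by linarith only [h2]), sub_self, max_self, mul_zero,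
          add_zero]
      have h5 : P.D P.ρ ≤ 1.1002 := by
        have h6 := (io_slope h (y := P.ρ) (by linarith only [hρ, hρ'])).2
        rw [div_le_iff₀ hL] at h6
        linarith only [hL2, hρ, hρ', h6]
      have h6 : P.D P.ρ * (y - P.ρ) ≤ 1.1002 * (y - 1.640087) :=
        mul_le_mul h5 (by linarith only [hρ]) (by linarith only [h2]) (by norm_num)
      have h7 := zn_PI_mono (x := P.ρ) (y := 1.640088) (by linarith only [hρ, hρ']) hρ'.le (by norm_num)
      have h8 := chk_sound _ _ _ zg_chk y (by push_cast; linarith only [hρ, h2]) (by push_cast; linarith only [h1])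
      have e8 : ev zg y = 0.0004 + ev lI y - (0.000015 + 1.1002 * (y - 1.640087) + ev lI 1.640088) := by
        rw [zg, ev_padd, ev_padd, ev_psm, ev_padd, ev_pcomp, ev_lin, ev_const, ev_const]
        push_cast
        ring
      rw [e8] at h8
      push_cast at h8
      rw [h4]
      linarith only [h3, h6, h7, h8]
  unfold io
  rw [div_eq_mul_one_div]
  have h9 : 0 ≤ ev (padd [0.0004] lI) y := by
    rw [ev_padd, ev_const]; push_cast; linarith only [hρ, hρ', hI0]
  exact mul_le_mul key (one_div_le_one_div_of_le (by norm_num) hL1.le)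
    (one_div_nonneg.2 hL.le) h9

private theorem zn_io_le1 (h : P.Star) {y : ℝ} (h0 : 0 ≤ y) (h1 : y ≤ P.ρ) :
    P.io y ≤ ev (padd [0.0000152] lI) y * (1 / 2.665779) := by
  have h2 := io_le1 h h0 h1
  rw [ev_padd, ev_const]
  push_cast
  have h3 : (0.0000152 + ev lI y) * (1 / 2.665779) = ev lI y / 2.665779 + 0.0000152 / 2.665779 := by
    ring
  have h4 : (0.0000057 : ℝ) ≤ 0.0000152 / 2.665779 := by norm_num
  rw [h3]
  linarith only [h2]

private theorem zn_io0 (h : P.Star) {y : ℝ} (h0 : 0 ≤ y) : 0 ≤ P.io y := by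
  have := cx_mono h h0
  rwa [cx_zero h le_rfl] at this

/-! ### polynomials -/

private def zc : List ℚ := [1.559, 0.4405]
private def zS : List ℚ := [0, 0, 1/2]
private def zh : List ℚ := pcomp [1.0001, 0, 1/2, 0, 1/24] [0.500521, -1]
private def zX (b : ℚ) : List ℚ := padd [b, 1] (psm (-1) zc)
private def zG (b : ℚ) : List ℚ := padd (conv 3 zS [1] (zX b) zc) (psm (-1) (conv 3 zS [1] [b] [0, 1]))
private def zA1 : List ℚ := psm (1/2.665779) (padd (conv 6 zh (padd [0.0000152] lI) [] [0, 1])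
  (psm (-1) (conv 6 zh (padd [0.0000152] lI) [0, 1] [])))
private def zA2 : List ℚ := psm (1/2.665779) (padd (conv 3 zS (padd [0.0004] lI) (zX 2.543965) zc)
  (psm (-1) (conv 3 zS (padd [0.0004] lI) [2.543965] [0, 1])))
private def zT : List ℚ := padd (padd [1] (psm (-0.13) (pmul [0.121818, 1] [0.121818, 1]))) (padd zA1 zA2)
private def zQ : List ℚ := padd [1] (psm (-1/2.665779) (padd [0.00001] lJ))
private def zP1 : List ℚ := padd (pmul zQ (padd [0.52168] (zG 2.543961))) (psm (-1) (pmul [2.543965, -1] zT))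
private def zB1 : List ℚ := padd (conv 3 zS [0, 0, 3] [2.543965 - 0.5774, 1] [0.5774])
  (psm (-1) (conv 3 zS [0, 0, 3] [2.543965] [0, 1]))
private def zB2 : List ℚ := padd (conv 3 zS [1] [2.543965 - 1.4, 1] [1.4])
  (psm (-1) (conv 3 zS [1] [2.543965 - 0.5774, 1] [0.5774]))
private def zB3 : List ℚ := padd (conv 3 zS [-4.6, 4] (zX 2.543965) zc)
  (psm (-1) (conv 3 zS [-4.6, 4] [2.543965 - 1.4, 1] [1.4]))
private def zC : List ℚ := padd (conv 6 zh [0, 0, 3] [] [0, 1]) (psm (-1) (conv 6 zh [0, 0, 3] [0, 1] []))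
private def zR : List ℚ := padd (padd [1.23] (psm 2.84 [0.121818, 1]))
  (psm (-1) (padd (padd (padd zB1 zB2) zB3) zC))
private def zP2 : List ℚ := padd (pmul [2.543961, -1] zR)
  (psm (-1) (pmul [0, 0, 0, 1] (padd [0.521684] (zG 2.543965))))

private theorem zT_chk : chk zT 0 1 0 (45/100) = true := by decide +kernel
private theorem zQ_chk : chk zQ 0 1 0 (45/100) = true := by decide +kernel
private theorem zP1_chk : chk zP1 0 1 0 (45/100) = true := by decide +kernel
private theorem zR_chk : chk zR 0 1 0 (45/100) = true := by decide +kernel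
private theorem zP2_chk : chk zP2 0 1 0 (45/100) = true := by decide +kernel
private theorem zG_chk : chk (padd [-2] (zG 2.543961)) 0 4 0 (45/100) = true := by decide +kernel

private theorem zn_zc (a : ℝ) : ev zc a = 1.559 + 0.4405 * a := by
  rw [zc, ev_lin]; push_cast; norm_num

private theorem zn_zS (x : ℝ) : ev zS x = x ^ 2 / 2 := by
  simp only [zS, ev]; push_cast; ring

private theorem zn_iS (p : List ℚ) (b : ℚ) (a : ℝ) :
    ∫ y in a..(1.559 + 0.4405 * a), ev zS ((b:ℝ) + a - y) * ev p y =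
      ev (padd (conv 3 zS p (zX b) zc) (psm (-1) (conv 3 zS p [b] [0, 1]))) a := by
  rw [cv_int (n := 3) (m := zS) (by rfl), ev_padd, ev_psm, ev_conv, ev_conv, zX, ev_padd, ev_psm, zn_zc,
    ev_lin, ev_const, ev_lin]
  push_cast
  ring_nf

private theorem zn_iH (p : List ℚ) (a : ℝ) :
    ∫ y in (0:ℝ)..a, ev zh (a - y) * ev p y =
      ev (padd (conv 6 zh p [] [0, 1]) (psm (-1) (conv 6 zh p [0, 1] []))) a := by
  rw [cv_int (n := 6) (m := zh) (by rfl), ev_padd, ev_psm, ev_conv, ev_conv, ev_lin]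
  push_cast
  simp only [ev, zero_add, one_mul, sub_self, sub_zero]
  ring

private theorem zn_cosh (h : P.Star) {a y : ℝ} (ha1 : a ≤ 0.45) (hy : 0 ≤ y) (hya : y ≤ a) :
    Real.cosh (P.s - a + y) ≤ ev zh (a - y) ∧ ev zh (a - y) ≤ 1.13 := by
  have hs := h.s_lo; have hs' := h.s_hi
  have hz0 : 0 ≤ 0.500521 - (a - y) := by linarith only [ha1, hy]
  have hz1 : 0.500521 - (a - y) ≤ 0.500521 := by linarith only [hya]
  have k1 : ev zh (a - y) = 1.0001 + (0.500521 - (a - y)) ^ 2 / 2 + (0.500521 - (a - y)) ^ 4 / 24 := by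
    rw [zh, ev_pcomp, ev_lin]
    simp only [ev]
    push_cast
    ring
  constructor
  · rw [k1]
    refine le_trans ?_ (cosh_le hz0 (by linarith only [hya]))
    rw [Real.cosh_le_cosh, abs_of_nonneg (by linarith only [ha1, hy, hs]), abs_of_nonneg hz0]
    linarith only [hs']
  · rw [k1]
    have p2 : (0.500521 - (a - y)) ^ 2 ≤ 0.500521 ^ 2 := pow_le_pow_left₀ hz0 hz1 2
    have p4 : (0.500521 - (a - y)) ^ 4 ≤ 0.500521 ^ 4 := pow_le_pow_left₀ hz0 hz1 4
    norm_num at p2 p4 ⊢
    linarith only [p2, p4]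

/-! ### `∫_0^a` -/

private theorem zn_w_int {a : ℝ} (ha : 0 ≤ a) (ha1 : a ≤ 0.45) : ∫ y in (0:ℝ)..a, w y ≤ a ^ 3 := by
  have e1 : ∫ y in (0:ℝ)..a, w y ≤ ∫ y in (0:ℝ)..a, ev [0, 0, 3] y := by
    refine intervalIntegral.integral_mono_on ha (zn_wc.intervalIntegrable _ _)
      ((ev_cont _).intervalIntegrable _ _) ?_
    intro y hy
    have k2 : ev [0, 0, 3] y = 3 * y ^ 2 := by simp only [ev]; push_cast; ring
    rw [k2]
    exact (zn_w1 (y := y) (by linarith [hy.2])).1
  rw [ev_integral] at e1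
  simp only [pint, gint, ev] at e1
  push_cast at e1
  linarith only [e1]

private theorem zn_i0 {δ : ℝ} {i : ℝ → ℝ} (hi : P.Tube δ i) (y : ℝ) : 0 ≤ i y := by
  rcases le_total y 0 with h1 | h1
  · rw [hi.zero y h1]
  · have := hi.mono h1
    rwa [hi.zero 0 le_rfl] at this

private theorem zn_iint (h : P.Star) {δ a : ℝ} {i : ℝ → ℝ} (hδ : 0 ≤ δ) (hi : P.Tube δ i)
    (ha : 0 ≤ a) (ha1 : a ≤ 0.45) :
    0 ≤ ∫ y in (0:ℝ)..a, i y ∧ ∫ y in (0:ℝ)..a, i y ≤ (1 - ev zQ a) + δ * a ^ 3 := by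
  obtain ⟨hY1, hY2, hL1, hL2⟩ := Y_pos h
  have hL := cx_L_pos h
  have hρ := h.ρ_lo
  have hio := cx_cont h
  constructor
  · exact intervalIntegral.integral_nonneg ha fun y _ => zn_i0 hi y
  · have e1 : ∫ y in (0:ℝ)..a, i y ≤ ∫ y in (0:ℝ)..a, (P.io y + δ * w y) := by
      refine intervalIntegral.integral_mono_on ha (hi.cont.intervalIntegrable _ _)
        ((hio.add (continuous_const.mul zn_wc)).intervalIntegrable _ _) ?_
      intro y hy
      have := (abs_le.1 (hi.close y hy.1 (by linarith only [hy.2, ha1, hL1, hL2, hy]))).2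
      linarith only [this]
    have i2 : IntervalIntegrable (fun y => δ * w y) volume 0 a :=
      (continuous_const.mul zn_wc).intervalIntegrable _ _
    rw [intervalIntegral.integral_add (hio.intervalIntegrable _ _) i2,
      intervalIntegral.integral_const_mul, int_io h] at e1
    have e2 := mul_le_mul_of_nonneg_left (zn_w_int ha ha1) hδ
    have k2 := (abs_le.1 (J_app h (y := a) ha (by linarith only [ha1, hL1, hL2, hρ]))).2
    rw [← ev_lJ] at k2
    have hQ := chk_sound _ _ _ zQ_chk a (by push_cast; exact ha) (by push_cast; linarith only [ha1])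
    have eQ : ev zQ a = 1 - (0.00001 + ev lJ a) / 2.665779 := by
      rw [zQ, ev_padd, ev_psm, ev_padd, ev_const, ev_const]
      push_cast
      ring
    have hJ0 : 0 ≤ P.J a := by
      have h1 := int_io h a
      have h2 : 0 ≤ ∫ y in (0:ℝ)..a, P.io y :=
        intervalIntegral.integral_nonneg ha fun y hy => zn_io0 h hy.1
      rw [h1] at h2
      by_contra h3
      push Not at h3
      have := div_neg_of_neg_of_pos h3 hL
      linarith only [h2, this]
    have k3 : P.J a / P.L ≤ (0.00001 + ev lJ a) / 2.665779 := by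
      calc P.J a / P.L ≤ (0.00001 + ev lJ a) / P.L :=
            div_le_div_of_nonneg_right (by linarith only [k2]) hL.le
        _ ≤ _ := div_le_div_of_nonneg_left (by linarith only [k2, hJ0]) (by norm_num) hL1.le
    rw [eQ]
    linarith only [e1, e2, k3]

private theorem zn_ci (h : P.Star) {δ a : ℝ} {i : ℝ → ℝ} (hδ : 0 ≤ δ) (hi : P.Tube δ i)
    (ha : 0 ≤ a) (ha1 : a ≤ 0.45) :
    ∫ y in (0:ℝ)..a, Real.cosh (P.s - a + y) * i y ≤ ev zA1 a + δ * ev zC a := by
  have hρ := h.ρ_lo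
  have hF : Continuous fun y => Real.cosh (P.s - a + y) * i y :=
    (Real.continuous_cosh.comp (continuous_const.add continuous_id)).mul hi.cont
  have hB : ∀ l : List ℚ, Continuous fun y => ev zh (a - y) * ev l y := fun l =>
    ((ev_cont zh).comp (continuous_const.sub continuous_id)).mul (ev_cont l)
  have i1 : IntervalIntegrable (fun y => (1 / 2.665779) *
      (ev zh (a - y) * ev (padd [0.0000152] lI) y)) volume 0 a :=
    (continuous_const.mul (hB _)).intervalIntegrable _ _
  have i2 : IntervalIntegrable (fun y => δ * (ev zh (a - y) * ev [0, 0, 3] y)) volume 0 a :=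
    (continuous_const.mul (hB _)).intervalIntegrable _ _
  have e1 : ∫ y in (0:ℝ)..a, Real.cosh (P.s - a + y) * i y ≤
      ∫ y in (0:ℝ)..a, ((1 / 2.665779) * (ev zh (a - y) * ev (padd [0.0000152] lI) y)
        + δ * (ev zh (a - y) * ev [0, 0, 3] y)) := by
    refine intervalIntegral.integral_mono_on ha (hF.intervalIntegrable _ _) (i1.add i2) ?_
    intro y hy
    obtain ⟨k1, k2⟩ := zn_cosh h ha1 hy.1 hy.2
    have k3 := (abs_le.1 (hi.close y hy.1 (by linarith only [hy.2, ha1, hy]))).2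
    have k4 := zn_io_le1 h hy.1 (by linarith only [hy.2, ha1, hρ, hy])
    have k5 := (zn_w1 (y := y) (by linarith only [hy.2, ha1, hy])).1
    have k6 : ev [0, 0, 3] y = 3 * y ^ 2 := by simp only [ev]; push_cast; ring
    have k7 := mul_le_mul_of_nonneg_left k5 hδ
    have k8 : i y ≤ ev (padd [0.0000152] lI) y * (1 / 2.665779) + δ * (3 * y ^ 2) := by linarith only [k3, k4, k7]
    have k9 : Real.cosh (P.s - a + y) * i y ≤
        ev zh (a - y) * (ev (padd [0.0000152] lI) y * (1 / 2.665779) + δ * (3 * y ^ 2)) :=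
      mul_le_mul k1 k8 (zn_i0 hi y) ((Real.cosh_pos _).le.trans k1)
    rw [k6]
    refine k9.trans (le_of_eq ?_)
    ring
  rw [intervalIntegral.integral_add i1 i2, intervalIntegral.integral_const_mul,
    intervalIntegral.integral_const_mul, zn_iH, zn_iH] at e1
  have e2 : ev zA1 a = 1 / 2.665779 * ev (padd (conv 6 zh (padd [0.0000152] lI) [] [0, 1])
      (psm (-1) (conv 6 zh (padd [0.0000152] lI) [0, 1] []))) a := by
    rw [zA1, ev_psm]; push_cast; rfl
  rw [e2, zC]
  exact e1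

private theorem zn_q (h : P.Star) {δ a : ℝ} {i : ℝ → ℝ} (hδ : 0 ≤ δ) (hi : P.Tube δ i)
    (ha : 0 ≤ a) (ha1 : a ≤ 0.45) :
    ev zQ a - δ * a ^ 3 ≤ (P.Y - a) * P.qN a i ∧ (P.Y - a) * P.qN a i ≤ 1 := by
  obtain ⟨hY1, hY2, hL1, hL2⟩ := Y_pos h
  obtain ⟨k1, k2⟩ := zn_iint h hδ hi ha ha1
  have hYa : P.Y - a ≠ 0 := by
    have : 0 < P.Y - a := by linarith only [ha1, hY1, hL1, hL2]
    exact this.ne'
  have k3 : (P.Y - a) * P.qN a i = 1 - ∫ y in (0:ℝ)..a, i y := by
    unfold qN
    field_simp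
  rw [k3]
  constructor <;> linarith

theorem VN_lo (h : P.Star) {δ a : ℝ} {i : ℝ → ℝ} (hδ : 0 ≤ δ) (hδ1 : δ ≤ 0.03) (hi : P.Tube δ i)
    (ha : 0 ≤ a) (ha1 : a ≤ 0.45) : 0.15 ≤ P.VN a i := by
  obtain ⟨hY1, hY2, hL1, hL2⟩ := Y_pos h
  obtain ⟨hsg0, hsg1⟩ := sg_bd h
  obtain ⟨k1, k2⟩ := zn_q h hδ hi ha ha1
  obtain ⟨k3, k4⟩ := zn_iint h hδ hi ha ha1
  have hρ := h.ρ_lo
  have hQ : 0.993 ≤ ev zQ a := by
    have h2 : chk (padd [-0.993] zQ) 0 3 0 (45/100) = true := by decide +kernel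
    have h3 := chk_sound _ _ _ h2 a (by push_cast; exact ha) (by push_cast; linarith only [ha1])
    rw [ev_padd, ev_const] at h3
    push_cast at h3
    linarith only [h3]
  have ha3 : a ^ 3 ≤ 0.0912 := by
    have := pow_le_pow_left₀ ha ha1 3
    norm_num at this ⊢
    linarith only [hsg0, hsg1, this]
  have ha30 : 0 ≤ a ^ 3 := by positivity
  have hda : δ * a ^ 3 ≤ 0.0028 := by
    have := mul_le_mul hδ1 ha3 ha30 (by norm_num)
    linarith only [hsg0, hsg1, this]
  have hF : Continuous fun y => Real.cosh (P.s - a + y) * i y :=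
    (Real.continuous_cosh.comp (continuous_const.add continuous_id)).mul hi.cont
  have e1 : ∫ y in (0:ℝ)..a, Real.cosh (P.s - a + y) * i y ≤ 1.13 * ∫ y in (0:ℝ)..a, i y := by
    rw [← intervalIntegral.integral_const_mul]
    refine intervalIntegral.integral_mono_on ha (hF.intervalIntegrable _ _)
      ((continuous_const.mul hi.cont).intervalIntegrable _ _) ?_
    intro y hy
    obtain ⟨j1, j2⟩ := zn_cosh h ha1 hy.1 hy.2
    exact mul_le_mul_of_nonneg_right (j1.trans j2) (zn_i0 hi y)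
  have hq : 0.388 ≤ P.qN a i := by
    have h1 : 0.99 ≤ (P.Y - a) * P.qN a i := by linarith only [hsg0, hsg1, k1, hQ, hda]
    have h2 : 0 ≤ P.qN a i := by
      by_contra h3
      push Not at h3
      have : (P.Y - a) * P.qN a i < 0 := mul_neg_of_pos_of_neg (by linarith only [ha1, hY1, hsg0, hsg1]) h3
      linarith only [hsg0, hsg1, k1, hQ, hda, this]
    have h3 : (P.Y - a) * P.qN a i ≤ 2.543965 * P.qN a i := mul_le_mul_of_nonneg_right (by linarith only [ha, hY2]) h2
    linarith only [hsg0, hsg1, k1, hQ, hda, h3]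
  have e2 : 0.52168 * 0.388 ≤ P.sg * P.qN a i := mul_le_mul hsg0.le hq (by norm_num) (by linarith only [hsg0, hsg1])
  unfold VN
  norm_num at e2 ⊢
  linarith only [hsg0, hsg1, k4, hQ, hda, e1, e2]

theorem NN_lo (h : P.Star) {δ a : ℝ} {i : ℝ → ℝ} (hδ : 0 ≤ δ) (hδ1 : δ ≤ 0.03) (hi : P.Tube δ i)
    (ha : 0 ≤ a) (ha1 : a ≤ 0.45) :
    1 - 0.13 * (a + P.e0)^2 - δ * (1.23 + 2.84 * (a + P.e0)) ≤ P.NN a i := by
  have he := h.e_lo; have he' := h.e_hi; have hρ := h.ρ_lo
  obtain ⟨hY1, hY2, hL1, hL2⟩ := Y_pos h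
  obtain ⟨hsg0, hsg1⟩ := sg_bd h
  obtain ⟨q1, q2⟩ := zn_q h hδ hi ha ha1
  have hci := zn_ci h hδ hi ha ha1
  set q := P.qN a i with hq
  set c' := 1.559 + 0.4405 * a with hcd
  have hic := hi.cont
  have hg : Continuous (P.gN a i) := by
    unfold gN
    exact (continuous_const.sub (hic.comp (continuous_id.add continuous_const))).max continuous_const
  have hS : Continuous fun v => (P.Y - v)^2/2 * P.gN a i v := by fun_prop
  have hT : Continuous fun v => (P.Y - v)^2/2 * (q - i (v + a)) := by fun_prop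
  have hU : Continuous fun y => (P.Y + a - y)^2/2 * (q - i y) := by fun_prop
  have hK : ∀ (b : ℝ) (l : List ℚ), Continuous fun y => ev zS (b + a - y) * ev l y := fun b l =>
    ((ev_cont zS).comp (continuous_const.sub continuous_id)).mul (ev_cont l)
  -- drop the positive part
  have e1 : ∫ y in a..c', (P.Y + a - y)^2/2 * (q - i y) ≤ ∫ v in (0:ℝ)..P.Y, (P.Y - v)^2/2 * P.gN a i v := by
    have s1 : ∫ y in a..c', (P.Y + a - y)^2/2 * (q - i y) =
        ∫ v in (0:ℝ)..(c' - a), (P.Y - v)^2/2 * (q - i (v + a)) := by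
      have := intervalIntegral.integral_comp_sub_right (a := a) (b := c')
        (fun v => (P.Y - v)^2/2 * (q - i (v + a))) a
      simp only [sub_add_cancel, sub_self] at this
      rw [← this]
      congr 1
      funext y
      rw [show P.Y - (y - a) = P.Y + a - y by ring]
    have s2 : ∫ v in (0:ℝ)..(c' - a), (P.Y - v)^2/2 * (q - i (v + a)) ≤
        ∫ v in (0:ℝ)..(c' - a), (P.Y - v)^2/2 * P.gN a i v := by
      refine intervalIntegral.integral_mono_on (by linarith only [ha1, hsg0, hsg1, hcd]) (hT.intervalIntegrable _ _)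
        (hS.intervalIntegrable _ _) ?_
      intro v _
      exact mul_le_mul_of_nonneg_left (le_max_left _ _) (by positivity)
    have s3 := intervalIntegral.integral_add_adjacent_intervals (hS.intervalIntegrable 0 (c' - a))
      (hS.intervalIntegrable (c' - a) P.Y) (μ := volume)
    have s4 := intervalIntegral.integral_nonneg (μ := volume) (a := c' - a) (b := P.Y) (by linarith only [ha, hY1, hsg0, hsg1, hcd])
      (f := fun v => (P.Y - v)^2/2 * P.gN a i v)
      (fun v _ => mul_nonneg (by positivity) (le_max_right _ _))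
    linarith only [s1, s2, s3, s4]
  -- split
  have f1 : Continuous fun y : ℝ => (P.Y + a - y)^2/2 := by fun_prop
  have f2 : Continuous fun y : ℝ => (P.Y + a - y)^2/2 * i y := f1.mul hic
  have e2 : ∫ y in a..c', (P.Y + a - y)^2/2 * (q - i y) =
      q * (∫ y in a..c', (P.Y + a - y)^2/2) - ∫ y in a..c', (P.Y + a - y)^2/2 * i y := by
    have f3 : Continuous fun y : ℝ => q * ((P.Y + a - y)^2/2) := continuous_const.mul f1
    rw [← intervalIntegral.integral_const_mul, ← intervalIntegral.integral_sub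
      (f3.intervalIntegrable _ _) (f2.intervalIntegrable _ _)]
    congr 1
    funext y
    ring
  have hac : a ≤ c' := by linarith only [ha1, hsg0, hsg1, hcd]
  have hb : ∀ y, a ≤ y → y ≤ c' → ev zS ((2.543961 : ℚ) + a - y) ≤ (P.Y + a - y)^2/2 ∧
      (P.Y + a - y)^2/2 ≤ ev zS ((2.543965 : ℚ) + a - y) := by
    intro y h0 h1
    rw [zn_zS, zn_zS]
    push_cast
    have r1 : (2.543961 + a - y) ^ 2 ≤ (P.Y + a - y) ^ 2 :=
      pow_le_pow_left₀ (by linarith only [ha, hsg0, hsg1, hcd, h1]) (by linarith only [hY1]) 2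
    have r2 : (P.Y + a - y) ^ 2 ≤ (2.543965 + a - y) ^ 2 :=
      pow_le_pow_left₀ (by linarith only [ha, hY1, hsg0, hsg1, hcd, h1]) (by linarith only [hY2]) 2
    constructor <;> linarith
  have e3 : ev (zG 2.543961) a ≤ ∫ y in a..c', (P.Y + a - y)^2/2 := by
    rw [zG, ← zn_iS [1] 2.543961 a]
    refine intervalIntegral.integral_mono_on hac ((hK _ _).intervalIntegrable _ _)
      (f1.intervalIntegrable _ _) ?_
    intro y hy
    rw [ev_const]
    push_cast
    have := (hb y hy.1 hy.2).1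
    push_cast at this
    linarith only [this]
  have e4 : ∫ y in a..c', (P.Y + a - y)^2/2 ≤ ev (zG 2.543965) a := by
    rw [zG, ← zn_iS [1] 2.543965 a]
    refine intervalIntegral.integral_mono_on hac (f1.intervalIntegrable _ _)
      ((hK _ _).intervalIntegrable _ _) ?_
    intro y hy
    rw [ev_const]
    push_cast
    have := (hb y hy.1 hy.2).2
    push_cast at this
    linarith only [this]
  have e5 : ∫ y in a..c', (P.Y + a - y)^2/2 * i y ≤
      (∫ y in a..c', (P.Y + a - y)^2/2 * P.io y) + δ * ∫ y in a..c', (P.Y + a - y)^2/2 * w y := by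
    have g1 : Continuous fun y : ℝ => (P.Y + a - y)^2/2 * P.io y := f1.mul (cx_cont h)
    have g2 : Continuous fun y : ℝ => δ * ((P.Y + a - y)^2/2 * w y) :=
      continuous_const.mul (f1.mul zn_wc)
    rw [← intervalIntegral.integral_const_mul, ← intervalIntegral.integral_add
      (g1.intervalIntegrable _ _) (g2.intervalIntegrable _ _)]
    refine intervalIntegral.integral_mono_on hac (f2.intervalIntegrable _ _)
      ((g1.add g2).intervalIntegrable _ _) ?_
    intro y hy
    have k3 := (abs_le.1 (hi.close y (by linarith only [hy.1, ha, hy]) (by linarith only [hy.2, ha1, hsg0, hsg1, hcd, hy]))).2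
    have k4 : (P.Y + a - y)^2/2 * i y ≤ (P.Y + a - y)^2/2 * (P.io y + δ * w y) :=
      mul_le_mul_of_nonneg_left (by linarith only [k3]) (by positivity)
    refine k4.trans (le_of_eq ?_)
    ring
  have e6 : ∫ y in a..c', (P.Y + a - y)^2/2 * P.io y ≤ ev zA2 a := by
    have g1 : Continuous fun y : ℝ => (P.Y + a - y)^2/2 * P.io y := f1.mul (cx_cont h)
    have g2 : IntervalIntegrable (fun y => (1 / 2.665779) * (ev zS ((2.543965 : ℚ) + a - y) *
      ev (padd [0.0004] lI) y)) volume a c' := (continuous_const.mul (hK _ _)).intervalIntegrable _ _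
    have g3 : ∫ y in a..c', (P.Y + a - y)^2/2 * P.io y ≤ ∫ y in a..c', (1 / 2.665779) *
        (ev zS ((2.543965 : ℚ) + a - y) * ev (padd [0.0004] lI) y) := by
      refine intervalIntegral.integral_mono_on hac (g1.intervalIntegrable _ _) g2 ?_
      intro y hy
      have k1 := (hb y hy.1 hy.2).2
      have k2 := zn_io_le h (y := y) (by linarith only [hy.1, ha, hy]) (by linarith only [hy.2, ha1, hsg0, hsg1, hcd, hy])
      have k3 := zn_io0 h (y := y) (by linarith only [hy.1, ha, hy])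
      have k4 : (P.Y + a - y)^2/2 * P.io y ≤ ev zS ((2.543965 : ℚ) + a - y) *
          (ev (padd [0.0004] lI) y * (1 / 2.665779)) :=
        mul_le_mul k1 k2 k3 (le_trans (by positivity) k1)
      refine k4.trans (le_of_eq ?_)
      ring
    rw [intervalIntegral.integral_const_mul, zn_iS] at g3
    have g4 : ev zA2 a = 1 / 2.665779 * ev (padd (conv 3 zS (padd [0.0004] lI) (zX 2.543965) zc)
        (psm (-1) (conv 3 zS (padd [0.0004] lI) [2.543965] [0, 1]))) a := by
      rw [zA2, ev_psm]; push_cast; rfl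
    rw [g4]
    exact g3
  have e7 : ∫ y in a..c', (P.Y + a - y)^2/2 * w y ≤ ev zB1 a + ev zB2 a + ev zB3 a := by
    have g1 : Continuous fun y : ℝ => (P.Y + a - y)^2/2 * w y := f1.mul zn_wc
    have s1 : ∫ y in a..c', (P.Y + a - y)^2/2 * w y = (∫ y in a..0.5774, (P.Y + a - y)^2/2 * w y) +
        (∫ y in (0.5774:ℝ)..1.4, (P.Y + a - y)^2/2 * w y) +
        ∫ y in (1.4:ℝ)..c', (P.Y + a - y)^2/2 * w y := by
      rw [intervalIntegral.integral_add_adjacent_intervals (g1.intervalIntegrable _ _)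
        (g1.intervalIntegrable _ _), intervalIntegral.integral_add_adjacent_intervals
        (g1.intervalIntegrable _ _) (g1.intervalIntegrable _ _)]
    have s2 : ∫ y in a..0.5774, (P.Y + a - y)^2/2 * w y ≤
        ∫ y in a..0.5774, ev zS ((2.543965 : ℚ) + a - y) * ev [0, 0, 3] y := by
      refine intervalIntegral.integral_mono_on (by linarith only [ha1, hsg0, hsg1]) (g1.intervalIntegrable _ _)
        ((hK _ _).intervalIntegrable _ _) ?_
      intro y hy
      have k1 := (hb y hy.1 (by linarith only [hy.2, ha, hsg0, hsg1, hcd, hy])).2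
      have k2 := (zn_w1 (y := y) (by linarith only [hy.2, hsg0, hsg1, hy])).1
      have k4 : ev [0, 0, 3] y = 3 * y ^ 2 := by simp only [ev]; push_cast; ring
      rw [k4]
      exact mul_le_mul k1 k2 (zn_w0 y) (le_trans (by positivity) k1)
    have s3 : ∫ y in (0.5774:ℝ)..1.4, (P.Y + a - y)^2/2 * w y ≤
        ∫ y in (0.5774:ℝ)..1.4, ev zS ((2.543965 : ℚ) + a - y) * ev [1] y := by
      refine intervalIntegral.integral_mono_on (by norm_num) (g1.intervalIntegrable _ _)
        ((hK _ _).intervalIntegrable _ _) ?_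
      intro y hy
      have k1 := (hb y (by linarith only [hy.1, ha1, hsg0, hsg1, hy]) (by linarith only [hy.2, ha, hsg0, hsg1, hcd, hy])).2
      have k2 := (zn_w1 (y := y) hy.2).2
      rw [ev_const]
      push_cast at k1 ⊢
      exact mul_le_mul k1 k2 (zn_w0 y) (le_trans (by positivity) k1)
    have s4 : ∫ y in (1.4:ℝ)..c', (P.Y + a - y)^2/2 * w y ≤
        ∫ y in (1.4:ℝ)..c', ev zS ((2.543965 : ℚ) + a - y) * ev [-4.6, 4] y := by
      refine intervalIntegral.integral_mono_on (by linarith only [ha, hsg0, hsg1, hcd]) (g1.intervalIntegrable _ _)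
        ((hK _ _).intervalIntegrable _ _) ?_
      intro y hy
      have k1 := (hb y (by linarith only [hy.1, ha1, hsg0, hsg1, hy]) hy.2).2
      have k2 := zn_w2 (y := y) hy.1
      have k4 : ev [-4.6, 4] y = 1 + 4 * (y - 1.4) := by simp only [ev]; push_cast; ring
      rw [k4]
      exact mul_le_mul k1 k2 (zn_w0 y) (le_trans (by positivity) k1)
    have s5 : ∫ y in a..0.5774, ev zS ((2.543965 : ℚ) + a - y) * ev [0, 0, 3] y = ev zB1 a := by
      rw [cv_int (n := 3) (m := zS) (by rfl), zB1, ev_padd, ev_psm, ev_conv, ev_conv, ev_lin, ev_lin,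
        ev_const, ev_const]
      push_cast
      ring_nf
    have s6 : ∫ y in (0.5774:ℝ)..1.4, ev zS ((2.543965 : ℚ) + a - y) * ev [1] y = ev zB2 a := by
      rw [cv_int (n := 3) (m := zS) (by rfl), zB2, ev_padd, ev_psm, ev_conv, ev_conv, ev_lin, ev_lin,
        ev_const, ev_const]
      push_cast
      ring_nf
    have s7 : ∫ y in (1.4:ℝ)..c', ev zS ((2.543965 : ℚ) + a - y) * ev [-4.6, 4] y = ev zB3 a := by
      rw [cv_int (n := 3) (m := zS) (by rfl), zB3, zX, ev_padd, ev_psm, ev_conv, ev_conv, ev_padd,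
        ev_psm, zn_zc, ev_lin, ev_lin, ev_const, hcd]
      push_cast
      ring_nf
    linarith only [s1, s2, s3, s4, s5, s6, s7]
  -- collect
  have hG := chk_sound _ _ _ zG_chk a (by push_cast; exact ha) (by push_cast; linarith only [ha1])
  have hP1 := chk_sound _ _ _ zP1_chk a (by push_cast; exact ha) (by push_cast; linarith only [ha1])
  have hP2 := chk_sound _ _ _ zP2_chk a (by push_cast; exact ha) (by push_cast; linarith only [ha1])
  have hT0 := chk_sound _ _ _ zT_chk a (by push_cast; exact ha) (by push_cast; linarith only [ha1])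
  have hR0 := chk_sound _ _ _ zR_chk a (by push_cast; exact ha) (by push_cast; linarith only [ha1])
  have hQ0 := chk_sound _ _ _ zQ_chk a (by push_cast; exact ha) (by push_cast; linarith only [ha1])
  have eT : ev zT a = 1 - 0.13 * (a + 0.121818) ^ 2 + (ev zA1 a + ev zA2 a) := by
    rw [zT, ev_padd, ev_padd, ev_psm, ev_pmul, ev_padd, ev_lin, ev_const]
    push_cast
    ring
  have eR : ev zR a = 1.23 + 2.84 * (a + 0.121818) - (ev zB1 a + ev zB2 a + ev zB3 a + ev zC a) := by
    rw [zR, ev_padd, ev_padd, ev_psm, ev_psm, ev_padd, ev_padd, ev_padd, ev_lin, ev_const]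
    push_cast
    ring
  have eP1 : ev zP1 a = ev zQ a * (0.52168 + ev (zG 2.543961) a) - (2.543965 - a) * ev zT a := by
    rw [zP1, ev_padd, ev_psm, ev_pmul, ev_pmul, ev_padd, ev_lin, ev_const]
    push_cast
    ring
  have eP2 : ev zP2 a = (2.543961 - a) * ev zR a - a ^ 3 * (0.521684 + ev (zG 2.543965) a) := by
    rw [zP2, ev_padd, ev_psm, ev_pmul, ev_pmul, ev_padd, ev_lin, ev_const]
    simp only [ev]
    push_cast
    ring
  rw [ev_padd, ev_const] at hG
  rw [eP1] at hP1
  rw [eP2] at hP2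
  push_cast at hG hP1 hP2 hT0 hR0 hQ0
  set G := ∫ y in a..c', (P.Y + a - y)^2/2 with hGd
  have hG2 : 2 ≤ G := by linarith only [hG, e3]
  have hYa : 0 < P.Y - a := by linarith only [ha1, hY1, hsg0, hsg1]
  have hNN : q * (P.sg + G) - (ev zA1 a + δ * ev zC a) - (ev zA2 a + δ * (ev zB1 a + ev zB2 a + ev zB3 a))
      ≤ P.NN a i := by
    have h1 := mul_le_mul_of_nonneg_left e7 hδ
    have h2 : P.NN a i = P.sg * q - (∫ y in (0:ℝ)..a, Real.cosh (P.s - a + y) * i y) +
        ∫ v in (0:ℝ)..P.Y, (P.Y - v)^2/2 * P.gN a i v := rfl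
    rw [h2]
    linarith only [hci, e1, e5, e6, e2, h1]
  have k1 : ev zT a ≤ ev zQ a * (P.sg + G) / (P.Y - a) := by
    rw [le_div_iff₀ hYa]
    have h1 : ev zT a * (P.Y - a) ≤ ev zT a * (2.543965 - a) := mul_le_mul_of_nonneg_left (by linarith only [hY2]) hT0
    have h2 : ev zQ a * (0.52168 + ev (zG 2.543961) a) ≤ ev zQ a * (P.sg + G) :=
      mul_le_mul_of_nonneg_left (by linarith only [hsg0, e3]) hQ0
    linarith only [hP1, h1, h2]
  have k2 : a ^ 3 * (P.sg + G) / (P.Y - a) ≤ ev zR a := by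
    rw [div_le_iff₀ hYa]
    have h1 : ev zR a * (2.543961 - a) ≤ ev zR a * (P.Y - a) := mul_le_mul_of_nonneg_left (by linarith only [hY1]) hR0
    have h2 : a ^ 3 * (P.sg + G) ≤ a ^ 3 * (0.521684 + ev (zG 2.543965) a) :=
      mul_le_mul_of_nonneg_left (by linarith only [hsg1, e4]) (by positivity)
    linarith only [hP2, h1, h2]
  have k3 : (ev zQ a - δ * a ^ 3) / (P.Y - a) ≤ q := by
    rw [div_le_iff₀ hYa]; linarith only [q1]
  have k4 : (ev zQ a - δ * a ^ 3) / (P.Y - a) * (P.sg + G) ≤ q * (P.sg + G) :=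
    mul_le_mul_of_nonneg_right k3 (by linarith only [hsg0, hsg1, hG, e3])
  have k5 : (ev zQ a - δ * a ^ 3) / (P.Y - a) * (P.sg + G) = ev zQ a * (P.sg + G) / (P.Y - a)
      - δ * (a ^ 3 * (P.sg + G) / (P.Y - a)) := by
    ring
  have k6 := mul_le_mul_of_nonneg_left k2 hδ
  have k7 : (a + 0.121818) ^ 2 ≤ (a + P.e0) ^ 2 := pow_le_pow_left₀ (by linarith only [ha, hsg0, hsg1]) (by linarith only [he]) 2
  have k8 : δ * (2.84 * (a + 0.121818)) ≤ δ * (2.84 * (a + P.e0)) :=
    mul_le_mul_of_nonneg_left (by linarith only [he]) hδ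
  rw [eT] at k1
  rw [eR] at k6
  linarith only [k1, k4, k5, k6, k7, k8, hNN]

/-! ### the upper bound -/

private def zE (b : ℚ) : List ℚ := pmul [b, 1] (pmul [b, 1] [b, 1])
private def zP3 : List ℚ := padd (pmul [2.543961, -1] (padd [1.3] (padd
  (psm (0.148/6) (padd (zE 1.543961) (psm (-1) (zE 1.143961)))) (psm (0.297/6) (zE 1.143961)))))
  (psm (-1) [0.521684 + 2.543965^3/6])

private theorem zP3_chk : chk zP3 0 2 0 (45/100) = true := by decide +kernel

private theorem zn_cube (b : ℚ) (a : ℝ) : ev (zE b) a = (a + b) ^ 3 := by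
  rw [zE, ev_pmul, ev_pmul, ev_lin]; push_cast; ring

/-- `∫_x^y (Y-v)^2/2 dv` -/
private theorem zn_cint (Y x y : ℝ) : ∫ v in x..y, (Y - v)^2/2 = ((Y - x)^3 - (Y - y)^3) / 6 := by
  have h1 : ∀ v ∈ uIcc x y, HasDerivAt (fun v => -((Y - v)^3 / 6)) ((Y - v)^2/2) v := by
    intro v _
    have h2 := ((((hasDerivAt_id v).const_sub Y).pow 3).div_const 6).neg
    refine h2.congr_deriv ?_
    simp only [id]
    norm_num
    ring
  rw [intervalIntegral.integral_eq_sub_of_hasDerivAt h1
    ((by fun_prop : Continuous fun v : ℝ => (Y - v)^2/2).intervalIntegrable _ _)]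
  ring

private theorem zn_piece {Y x y κ q : ℝ} {g : ℝ → ℝ} (hxy : x ≤ y) (hg : Continuous g)
    (hb : ∀ v ∈ Icc x y, g v ≤ q - κ) :
    ∫ v in x..y, (Y - v)^2/2 * g v ≤ (q - κ) * (((Y - x)^3 - (Y - y)^3) / 6) := by
  rw [← zn_cint, ← intervalIntegral.integral_const_mul]
  have f1 : Continuous fun v : ℝ => (Y - v)^2/2 := by fun_prop
  refine intervalIntegral.integral_mono_on hxy ((f1.mul hg).intervalIntegrable _ _)
    ((continuous_const.mul f1).intervalIntegrable _ _) ?_
  intro v hv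
  rw [mul_comm]
  exact mul_le_mul_of_nonneg_right (hb v hv) (by positivity)

theorem NN_hi (h : P.Star) {δ a : ℝ} {i : ℝ → ℝ} (hδ : 0 ≤ δ) (hδ1 : δ ≤ 0.03) (hi : P.Tube δ i)
    (ha : 0 ≤ a) (ha1 : a ≤ 0.45) : P.NN a i ≤ 1.3 := by
  have hρ := h.ρ_lo
  obtain ⟨hY1, hY2, hL1, hL2⟩ := Y_pos h
  obtain ⟨hsg0, hsg1⟩ := sg_bd h
  obtain ⟨q1, q2⟩ := zn_q h hδ hi ha ha1
  obtain ⟨k3, k4⟩ := zn_iint h hδ hi ha ha1
  have hQ : 0.993 ≤ ev zQ a := by
    have h2 : chk (padd [-0.993] zQ) 0 3 0 (45/100) = true := by decide +kernel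
    have h3 := chk_sound _ _ _ h2 a (by push_cast; exact ha) (by push_cast; linarith only [ha1])
    rw [ev_padd, ev_const] at h3
    push_cast at h3
    linarith only [h3]
  have ha3 : a ^ 3 ≤ 0.0912 := by
    have := pow_le_pow_left₀ ha ha1 3
    norm_num at this ⊢
    linarith only [hsg0, hsg1, this]
  have ha30 : 0 ≤ a ^ 3 := by positivity
  have hda : δ * a ^ 3 ≤ 0.0028 := by
    have := mul_le_mul hδ1 ha3 ha30 (by norm_num)
    linarith only [hsg0, hsg1, this]
  set q := P.qN a i with hq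
  have hq0 : 0.388 ≤ q := by
    have h1 : 0.99 ≤ (P.Y - a) * q := by linarith only [hsg0, hsg1, hQ, hda, q1]
    have h2 : 0 ≤ q := by
      by_contra h3
      push Not at h3
      have : (P.Y - a) * q < 0 := mul_neg_of_pos_of_neg (by linarith only [ha1, hY1, hsg0, hsg1]) h3
      linarith only [hsg0, hsg1, hQ, hda, q1, this]
    have h3 : (P.Y - a) * q ≤ 2.543965 * q := mul_le_mul_of_nonneg_right (by linarith only [ha, hY2]) h2
    linarith only [hsg0, hsg1, hQ, hda, q1, h3]
  have hic := hi.cont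
  have hg : Continuous (P.gN a i) := by
    unfold gN
    exact (continuous_const.sub (hic.comp (continuous_id.add continuous_const))).max continuous_const
  have hS : Continuous fun v => (P.Y - v)^2/2 * P.gN a i v := by fun_prop
  have hi1 : 0.148 ≤ i 1 := by
    have h1 := (abs_le.1 (hi.close 1 (by norm_num) (by norm_num))).1
    have h2 := (zn_w1 (y := 1) (by norm_num)).2
    have h3 := mul_le_mul hδ1 h2 (zn_w0 1) (by norm_num)
    have h4 := io_ge1 h (y := 1) (by norm_num) (by linarith only [hρ, hsg0, hsg1])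
    have h5 : 0.1783 ≤ ev lI 1 / 2.665784 := by
      rw [ev_lI]; unfold PI; norm_num
    linarith only [hsg0, hsg1, h1, h3, h4, h5]
  have hi2 : 0.297 ≤ i 1.4 := by
    have h1 := (abs_le.1 (hi.close 1.4 (by norm_num) (by norm_num))).1
    have h2 := (zn_w1 (y := 1.4) (by norm_num)).2
    have h3 := mul_le_mul hδ1 h2 (zn_w0 1.4) (by norm_num)
    have h4 := io_ge1 h (y := 1.4) (by norm_num) (by linarith only [hρ, hsg0, hsg1])
    have h5 : 0.3271 ≤ ev lI 1.4 / 2.665784 := by
      rw [ev_lI]; unfold PI; norm_num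
    linarith only [hsg0, hsg1, h1, h3, h4, h5]
  have hcoshi : 0 ≤ ∫ y in (0:ℝ)..a, Real.cosh (P.s - a + y) * i y :=
    intervalIntegral.integral_nonneg ha fun y _ => mul_nonneg (Real.cosh_pos _).le (zn_i0 hi y)
  have s1 : ∫ v in (0:ℝ)..P.Y, (P.Y - v)^2/2 * P.gN a i v =
      (∫ v in (0:ℝ)..(1 - a), (P.Y - v)^2/2 * P.gN a i v) +
      (∫ v in (1 - a)..(1.4 - a), (P.Y - v)^2/2 * P.gN a i v) +
      ∫ v in (1.4 - a)..P.Y, (P.Y - v)^2/2 * P.gN a i v := by
    rw [intervalIntegral.integral_add_adjacent_intervals (hS.intervalIntegrable _ _)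
      (hS.intervalIntegrable _ _), intervalIntegral.integral_add_adjacent_intervals
      (hS.intervalIntegrable _ _) (hS.intervalIntegrable _ _)]
  have s2 := zn_piece (Y := P.Y) (x := 0) (y := 1 - a) (κ := 0) (q := q) (by linarith only [ha1, hsg0, hsg1]) hg (by
    intro v _
    have := zn_i0 hi (v + a)
    exact max_le (by linarith only [this]) (by linarith only [hsg0, hsg1, hq0]))
  have s3 := zn_piece (Y := P.Y) (x := 1 - a) (y := 1.4 - a) (κ := 0.148) (q := q) (by linarith only [hsg0, hsg1]) hg (by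
    intro v hv
    have := hi.mono (show (1:ℝ) ≤ v + a by linarith only [hv.1, hv])
    exact max_le (by linarith only [hi1, this]) (by linarith only [hsg0, hsg1, hq0]))
  have s4 := zn_piece (Y := P.Y) (x := 1.4 - a) (y := P.Y) (κ := 0.297) (q := q) (by linarith only [ha, hY1, hsg0, hsg1]) hg (by
    intro v hv
    have := hi.mono (show (1.4:ℝ) ≤ v + a by linarith only [hv.1, hv])
    exact max_le (by linarith only [hi2, this]) (by linarith only [hsg0, hsg1, hq0]))
  have hYa : 0 < P.Y - a := by linarith only [ha1, hY1, hsg0, hsg1]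
  have hP3 := chk_sound _ _ _ zP3_chk a (by push_cast; exact ha) (by push_cast; linarith only [ha1])
  have eP3 : ev zP3 a = (2.543961 - a) * (1.3 + (0.148 / 6 * ((a + 1.543961) ^ 3 - (a + 1.143961) ^ 3)
      + 0.297 / 6 * (a + 1.143961) ^ 3)) - (0.521684 + 2.543965^3/6) := by
    rw [zP3, ev_padd, ev_psm, ev_pmul, ev_padd, ev_padd, ev_psm, ev_psm, ev_padd, ev_psm, zn_cube,
      zn_cube, ev_lin, ev_const, ev_const]
    push_cast
    ring
  rw [eP3] at hP3
  push_cast at hP3
  have t1 : (P.Y - (1 - a)) ^ 3 - (P.Y - (1.4 - a)) ^ 3 ≥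
      (a + 1.543961) ^ 3 - (a + 1.143961) ^ 3 := by
    have e : ∀ x : ℝ, (x + 0.4) ^ 3 - x ^ 3 = 1.2 * x ^ 2 + 0.48 * x + 0.064 := fun x => by ring
    have e1 := e (a + 1.143961)
    have e2 := e (P.Y - (1.4 - a))
    rw [show a + 1.143961 + 0.4 = a + 1.543961 by ring] at e1
    rw [show P.Y - (1.4 - a) + 0.4 = P.Y - (1 - a) by ring] at e2
    rw [e1, e2]
    have : (a + 1.143961) ^ 2 ≤ (P.Y - (1.4 - a)) ^ 2 :=
      pow_le_pow_left₀ (by linarith only [ha, hsg0, hsg1]) (by linarith only [hY1]) 2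
    linarith only [hY1, this]
  have t2 : (a + 1.143961) ^ 3 ≤ (P.Y - (1.4 - a)) ^ 3 :=
    pow_le_pow_left₀ (by linarith only [ha, hsg0, hsg1]) (by linarith only [hY1]) 3
  have t3 : P.Y ^ 3 ≤ 2.543965 ^ 3 := pow_le_pow_left₀ (by linarith only [hY1, hsg0, hsg1]) hY2.le 3
  set R := 0.148 / 6 * ((a + 1.543961) ^ 3 - (a + 1.143961) ^ 3) + 0.297 / 6 * (a + 1.143961) ^ 3
    with hR
  have hR0 : 0 ≤ R := by
    have : (a + 1.143961) ^ 3 ≤ (a + 1.543961) ^ 3 := pow_le_pow_left₀ (by linarith only [ha, hsg0, hsg1]) (by linarith only [hsg0, hsg1]) 3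
    have h2 : 0 ≤ (a + 1.143961) ^ 3 := by positivity
    rw [hR]
    linarith only [ha, hsg0, hsg1, ha3, h2]
  have u1 : P.NN a i ≤ q * (0.521684 + 2.543965^3/6) - R := by
    have h2 : P.NN a i = P.sg * q - (∫ y in (0:ℝ)..a, Real.cosh (P.s - a + y) * i y) +
        ∫ v in (0:ℝ)..P.Y, (P.Y - v)^2/2 * P.gN a i v := rfl
    have h3 : P.sg * q ≤ 0.521684 * q := mul_le_mul_of_nonneg_right hsg1.le (by linarith only [hsg0, hsg1, hq0])
    have h4 : (∫ v in (0:ℝ)..P.Y, (P.Y - v)^2/2 * P.gN a i v) ≤ q * (P.Y ^ 3 / 6)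
        - 0.148 / 6 * ((P.Y - (1 - a)) ^ 3 - (P.Y - (1.4 - a)) ^ 3)
        - 0.297 / 6 * (P.Y - (1.4 - a)) ^ 3 := by
      rw [s1]
      have e : q * (P.Y ^ 3 / 6) - 0.148 / 6 * ((P.Y - (1 - a)) ^ 3 - (P.Y - (1.4 - a)) ^ 3)
          - 0.297 / 6 * (P.Y - (1.4 - a)) ^ 3 =
          (q - 0) * (((P.Y - 0)^3 - (P.Y - (1 - a))^3) / 6) +
          (q - 0.148) * (((P.Y - (1 - a))^3 - (P.Y - (1.4 - a))^3) / 6) +
          (q - 0.297) * (((P.Y - (1.4 - a))^3 - (P.Y - P.Y)^3) / 6) := by ring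
      rw [e]
      linarith only [s2, s3, s4]
    have h5 : q * (P.Y ^ 3 / 6) ≤ q * (2.543965 ^ 3 / 6) :=
      mul_le_mul_of_nonneg_left (by linarith only [t3]) (by linarith only [hsg0, hsg1, hq0])
    rw [h2, hR]
    linarith only [hcoshi, s1, s2, s3, s4, t1, t2, h3, h5]
  have u2 : q * (0.521684 + 2.543965^3/6) ≤ 1.3 + R := by
    have h1 : (0.521684 + 2.543965^3/6 : ℝ) ≤ (P.Y - a) * (1.3 + R) := by
      have := mul_le_mul_of_nonneg_right (show 2.543961 - a ≤ P.Y - a by linarith only [hY1])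
        (show 0 ≤ 1.3 + R by linarith only [hsg0, hsg1, hR0])
      linarith only [hP3, this]
    have h2 : q * (0.521684 + 2.543965^3/6) ≤ q * ((P.Y - a) * (1.3 + R)) :=
      mul_le_mul_of_nonneg_left h1 (by linarith only [hsg0, hsg1, hq0])
    have h3 : q * ((P.Y - a) * (1.3 + R)) = ((P.Y - a) * q) * (1.3 + R) := by ring
    have h4 : ((P.Y - a) * q) * (1.3 + R) ≤ 1 * (1.3 + R) :=
      mul_le_mul_of_nonneg_right q2 (by linarith only [hsg0, hsg1, hR0])
    linarith only [h2, h4]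
  linarith only [u1, u2]

end Pool.Agent.CDk.Par
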