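import Pool.Agent.CDk.CX
import Pool.Agent.CDk.D.D0
import Pool.Agent.CDk.D.ZC
import Pool.Agent.CDk.Defs
import Pool.Agent.CDk.FNa

/-!
# ZSO: second order estimate in zone N (variant of the module SO)

Proof: on `v ≤ c - a` one has `q(ι) - ι(v+a) ≥ 0`, beyond `≤ 0`. `qN a i - qN a io = -(∫_0^a (i - io))/(Y-a)`.
As `v ↦ qN a i - i (v+a)` is nonincreasing, it changes sign only once, on the right or on the left of
`c - a`; so only one of the two remainders below is present.
* right (`i (c) < qN a i`): the sum on the left of the claim is `∫_{c-a}^Y φ (qN a i - i(v+a))_+`, and with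
  `y = v + a ≥ c ≥ 1.56`: `qN a i - i y ≤ δ WN - (0.4113 - 4 δ)(y - c)` for `y ≤ 2.2` (the slope of `io` is
  at least `0.4113`, the slope of `w` is `4`), it is `< 0` at `y = 2.2`, hence beyond. The integral of
  `(δ WN - 0.2913 t)_+` is at most `(δ WN)^2/(2 * 0.2913) ≤ 1.7165 (δ WN)^2`.
* left: the sum is `∫_{.}^{c-a} φ (i(v+a) - qN a i)_+` (up to sign) and for `1.4 ≤ y ≤ c`:
  `i y - qN a i ≤ δ WN - (0.4 + 4δ)(c - y)` (`w y = w c - 4 (c - y)`, slope of `io` at least `0.4`); it is
  `≤ 0` for `c - y ≥ 0.16` since `δ WN/(0.4 + 4 δ) ≤ 0.03 * 2.492/0.52 < 0.144`. Integral at most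
  `(δ WN)^2/(2 * 0.4) = 1.25 (δ WN)^2`.
-/

open MeasureTheory Set Filter Topology

namespace Pool.Agent.CDk.Par
variable {P : Par}

private theorem zso_pos_int {m k T : ℝ} (hm : 0 ≤ m) (hk : 0 < k) (hT : 0 ≤ T) :
    ∫ t in (0:ℝ)..T, max (m - k * t) 0 ≤ m ^ 2 / (2 * k) := by
  have h0 : 0 ≤ min T (m / k) := le_min hT (div_nonneg hm hk.le)
  have hc : Continuous fun t : ℝ => max (m - k * t) 0 := by fun_prop
  have e1 : ∫ t in (0:ℝ)..(min T (m / k)), max (m - k * t) 0
      = ∫ t in (0:ℝ)..(min T (m / k)), (m - k * t) := by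
    apply intervalIntegral.integral_congr
    intro t ht
    rw [uIcc_of_le h0] at ht
    have h1 : k * t ≤ m := by
      have h2 := ht.2.trans (min_le_right _ _)
      rw [le_div_iff₀ hk] at h2
      linarith
    simp only
    rw [max_eq_left (by linarith)]
  have e2 : ∫ t in (min T (m / k))..T, max (m - k * t) 0 = 0 := by
    rcases le_total T (m / k) with h | h
    · rw [min_eq_left h, intervalIntegral.integral_same]
    · rw [min_eq_right h]
      have h1 : ∫ t in (m / k)..T, max (m - k * t) 0 = ∫ t in (m / k)..T, (0 : ℝ) := by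
        apply intervalIntegral.integral_congr
        intro t ht
        rw [uIcc_of_le h] at ht
        have h2 : m ≤ k * t := by
          have h3 := ht.1
          rw [div_le_iff₀ hk] at h3
          linarith
        simp only
        rw [max_eq_right (by linarith)]
      rw [h1]
      simp
  have e3 : ∫ t in (0:ℝ)..(min T (m / k)), (m - k * t)
      = m * (min T (m / k)) - k * (min T (m / k)) ^ 2 / 2 := by
    rw [intervalIntegral.integral_sub (Continuous.intervalIntegrable (by fun_prop) _ _)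
      (Continuous.intervalIntegrable (by fun_prop) _ _),
      intervalIntegral.integral_const, intervalIntegral.integral_const_mul, integral_id]
    simp only [smul_eq_mul]
    ring
  rw [← intervalIntegral.integral_add_adjacent_intervals (hc.intervalIntegrable 0 (min T (m / k)))
    (hc.intervalIntegrable _ T), e1, e2, e3, add_zero, le_div_iff₀ (by linarith only [hk])]
  nlinarith only [sq_nonneg (m - k * (min T (m / k)))]

private theorem zso_abs {a b m k Φ : ℝ} {φ A g : ℝ → ℝ} (hab : a ≤ b)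
    (hΦ : 0 ≤ Φ) (hg : Continuous g)
    (hgi : ∫ v in a..b, g v ≤ m ^ 2 / (2 * k)) (h1 : ∀ v ∈ Icc a b, |φ v| ≤ Φ)
    (h2 : ∀ v ∈ Icc a b, 0 ≤ A v ∧ A v ≤ g v) :
    |∫ v in a..b, φ v * A v| ≤ Φ * (m ^ 2 / (2 * k)) := by
  have h3 : ‖∫ v in a..b, φ v * A v‖ ≤ ∫ v in a..b, Φ * g v := by
    apply intervalIntegral.norm_integral_le_of_norm_le hab
    · refine Filter.Eventually.of_forall fun v hv => ?_
      have hv' : v ∈ Icc a b := ⟨hv.1.le, hv.2⟩
      rw [Real.norm_eq_abs, abs_mul, abs_of_nonneg (h2 v hv').1]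
      exact mul_le_mul (h1 v hv') (h2 v hv').2 (h2 v hv').1 hΦ
    · exact (continuous_const.mul hg).intervalIntegrable _ _
  rw [Real.norm_eq_abs, intervalIntegral.integral_const_mul] at h3
  exact h3.trans (mul_le_mul_of_nonneg_left hgi hΦ)

private theorem zso_w_nonneg (y : ℝ) : 0 ≤ w y := by
  unfold w
  have h1 : 0 ≤ min (3 * y ^ 2) 1 := le_min (by positivity) zero_le_one
  have h2 : 0 ≤ max (y - 1.4) 0 := le_max_right _ _
  linarith only [h1, h2]

private theorem zso_w_eq {y : ℝ} (hy : 1.4 ≤ y) : w y = 1 + 4 * (y - 1.4) := by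
  unfold w
  rw [min_eq_right (by nlinarith only [hy]), max_eq_left (by linarith)]

private theorem zso_w_cont : Continuous w := by
  unfold w
  fun_prop

/-- the shift of the slope -/
private theorem zso_shift (h : P.Star) {δ a : ℝ} {i : ℝ → ℝ}
    (hi : P.Tube δ i) (ha : 0 ≤ a) (ha1 : a ≤ 0.45) :
    P.qN a i - P.qN a P.io = -((∫ y in (0:ℝ)..a, (i y - P.io y)) / (P.Y - a)) ∧
    |P.qN a i - P.qN a P.io| ≤ δ * ((∫ y in (0:ℝ)..a, w y) / (P.Y - a)) := by
  have hY := (Y_pos h).1
  have hic := hi.cont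
  have hioc := cx_cont h
  have hYa : 0 < P.Y - a := by linarith only [ha1, hY]
  have e1 : P.qN a i - P.qN a P.io = -((∫ y in (0:ℝ)..a, (i y - P.io y)) / (P.Y - a)) := by
    unfold qN
    rw [intervalIntegral.integral_sub (hic.intervalIntegrable _ _)
      (hioc.intervalIntegrable _ _)]
    field_simp
    ring
  refine ⟨e1, ?_⟩
  rw [e1, abs_neg, abs_div, abs_of_pos hYa, ← mul_div_assoc]
  apply div_le_div_of_nonneg_right _ hYa.le
  have h3 : ‖∫ y in (0:ℝ)..a, (i y - P.io y)‖ ≤ ∫ y in (0:ℝ)..a, δ * w y := by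
    apply intervalIntegral.norm_integral_le_of_norm_le ha
    · refine Filter.Eventually.of_forall fun v hv => ?_
      rw [Real.norm_eq_abs]
      exact hi.close v hv.1.le (by linarith only [hv.2, ha1, hv])
    · exact (continuous_const.mul zso_w_cont).intervalIntegrable _ _
  rw [Real.norm_eq_abs, intervalIntegral.integral_const_mul] at h3
  exact h3

/-- the error below the crossing -/
private theorem zso_A (h : P.Star) {δ a c y : ℝ} {i : ℝ → ℝ} (hδ : 0 ≤ δ) (hδ1 : δ ≤ 0.03)
    (hi : P.Tube δ i) (ha : 0 ≤ a) (ha1 : a ≤ 0.45) (hc : P.io c = P.qN a P.io)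
    (hy0 : 0 ≤ y) (hy : y ≤ c) :
    max (P.qN a i - i y) 0 - max (P.qN a P.io - P.io y) 0 - (P.qN a i - P.qN a P.io)
      + (i y - P.io y) = max (i y - P.qN a i) 0 ∧
    (y ≤ c - 0.16 → i y - P.qN a i ≤ 0) ∧
    (c - 0.16 ≤ y → i y - P.qN a i ≤ δ * P.WN a c - 0.4 * (c - y)) := by
  obtain ⟨c1, c2⟩ := crossN_bd h ha ha1 hc
  have hW := wN_bd h ha ha1 hc
  have hsh := abs_le.1 (zso_shift h hi ha ha1).2
  have h1 : P.io y ≤ P.qN a P.io := by
    rw [← hc]
    exact cx_mono h hy
  have hc1 : 1.5615 ≤ c := by nlinarith only [ha, c1]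
  have hc2 : c ≤ 1.7614 := by linarith only [ha1, c2]
  have main : ∀ y', 1.4 ≤ y' → y' ≤ c → i y' - P.qN a i ≤ δ * P.WN a c - (0.4 + 4 * δ) * (c - y') := by
    intro y' hy1 hy2
    have h4 := abs_le.1 (hi.close y' (by linarith only [hy1]) (by linarith only [ha1, c2, hy2]))
    have h6 : P.io y' + 0.4 * (c - y') ≤ P.qN a P.io := by
      rcases hy2.eq_or_lt with h7 | h7
      · rw [h7, hc]
        linarith only []
      · obtain ⟨ξ, hξ, -, h8⟩ := cx_mvt h h7
        have h9 := (io_slopeN h (y := ξ)).1 (by linarith only [hy1, hξ])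
        have h10 : 0.4 * (c - y') ≤ P.D ξ / P.L * (c - y') :=
          mul_le_mul_of_nonneg_right h9 (by linarith only [h7])
        rw [hc] at h8
        linarith only [h8, h10]
    have h7 : w y' = w c - 4 * (c - y') := by
      rw [zso_w_eq hy1, zso_w_eq (by linarith only [hc1] : 1.4 ≤ c)]
      ring
    unfold WN
    rw [h7] at h4
    have h8 : δ * (w c - 4 * (c - y')) = δ * w c - 4 * δ * (c - y') := by ring
    rw [h8] at h4
    have h9 : δ * (w c + (∫ y in (0:ℝ)..a, w y) / (P.Y - a)) =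
      δ * w c + δ * ((∫ y in (0:ℝ)..a, w y) / (P.Y - a)) := by ring
    rw [h9]
    linarith only [h4.2, hsh.1, hsh, h4, h6]
  refine ⟨?_, ?_, ?_⟩
  · rw [max_eq_left (by linarith only [h1] : 0 ≤ P.qN a P.io - P.io y)]
    rcases le_total (i y) (P.qN a i) with h2 | h2
    · rw [max_eq_left (by linarith only [h2]), max_eq_right (by linarith only [h2])]
      ring
    · rw [max_eq_right (by linarith only [h2]), max_eq_left (by linarith only [h2])]
      ring
  · intro h2
    have h3 := main (c - 0.16) (by linarith only [hc1]) (by linarith only [])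
    have h4 : i y ≤ i (c - 0.16) := hi.mono h2
    have h5 : δ * P.WN a c ≤ δ * (1.655 + 1.86 * a) := mul_le_mul_of_nonneg_left hW hδ
    have h6 : δ * (1.655 + 1.86 * a) ≤ δ * 2.492 := mul_le_mul_of_nonneg_left (by linarith only [ha1]) hδ
    have h7 : c - (c - 0.16) = 0.16 := by ring
    rw [h7] at h3
    linarith only [hδ1, h3, h4, h5, h6]
  · intro h2
    have h3 := main y (by linarith only [hc1, h2]) hy
    have h4 : 0 ≤ 4 * δ * (c - y) := mul_nonneg (by linarith only [hδ]) (by linarith only [hy])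
    linarith only [h3, h4]

/-- the error above the crossing -/
private theorem zso_B (h : P.Star) {δ a c y : ℝ} {i : ℝ → ℝ} (hδ : 0 ≤ δ) (hδ1 : δ ≤ 0.03)
    (hi : P.Tube δ i) (ha : 0 ≤ a) (ha1 : a ≤ 0.45) (hc : P.io c = P.qN a P.io)
    (hy : c ≤ y) :
    max (P.qN a i - i y) 0 - max (P.qN a P.io - P.io y) 0 = max (P.qN a i - i y) 0 ∧
    max (P.qN a i - i y) 0 ≤ max (δ * P.WN a c - 0.2913 * (y - c)) 0 := by
  obtain ⟨c1, c2⟩ := crossN_bd h ha ha1 hc
  have hW := wN_bd h ha ha1 hc
  have hsh := abs_le.1 (zso_shift h hi ha ha1).2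
  have hc1 : 1.5615 ≤ c := by nlinarith only [ha, c1]
  have hc2 : c ≤ 1.7614 := by linarith only [ha1, c2]
  have h1 : P.qN a P.io ≤ P.io y := by
    rw [← hc]
    exact cx_mono h hy
  have main : ∀ y', c ≤ y' → y' ≤ 2.2 → P.qN a i - i y' ≤ δ * P.WN a c - 0.2913 * (y' - c) := by
    intro y' hy1 hy2
    have h4 := abs_le.1 (hi.close y' (by linarith only [hc1, hy1]) (by linarith only [hy2]))
    have h6 : P.qN a P.io + 0.4113 * (y' - c) ≤ P.io y' := by
      rcases hy1.eq_or_lt with h7 | h7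
      · rw [← h7, hc]
        linarith only []
      · obtain ⟨ξ, hξ, -, h8⟩ := cx_mvt h h7
        have h9 := (io_slopeN h (y := ξ)).2.1 (by linarith only [hc1, hξ])
        have h10 : 0.4113 * (y' - c) ≤ P.D ξ / P.L * (y' - c) :=
          mul_le_mul_of_nonneg_right h9 (by linarith only [h7])
        rw [hc] at h8
        linarith only [h8, h10]
    have h7 : w y' = w c + 4 * (y' - c) := by
      rw [zso_w_eq (by linarith only [hc1, hy1] : 1.4 ≤ y'), zso_w_eq (by linarith only [hc1] : 1.4 ≤ c)]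
      ring
    unfold WN
    rw [h7] at h4
    have h8 : δ * (w c + 4 * (y' - c)) = δ * w c + 4 * δ * (y' - c) := by ring
    rw [h8] at h4
    have h9 : δ * (w c + (∫ y in (0:ℝ)..a, w y) / (P.Y - a)) =
      δ * w c + δ * ((∫ y in (0:ℝ)..a, w y) / (P.Y - a)) := by ring
    rw [h9]
    have h10 : 4 * δ * (y' - c) ≤ 0.12 * (y' - c) :=
      mul_le_mul_of_nonneg_right (by linarith only [hδ1]) (by linarith only [hy1])
    linarith only [h4.1, hsh.2, hsh, h4, h6, h10]
  refine ⟨?_, ?_⟩
  · rw [max_eq_right (by linarith only [h1] : P.qN a P.io - P.io y ≤ 0), sub_zero]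
  · rcases le_total y 2.2 with h2 | h2
    · exact max_le_max_right _ (main y hy h2)
    · have h3 := main 2.2 (by linarith only [ha1, c2]) le_rfl
      have h4 : i 2.2 ≤ i y := hi.mono h2
      have h5 : δ * P.WN a c ≤ δ * (1.655 + 1.86 * a) := mul_le_mul_of_nonneg_left hW hδ
      have h6 : δ * (1.655 + 1.86 * a) ≤ δ * 2.492 := mul_le_mul_of_nonneg_left (by linarith only [ha1]) hδ
      have h9 : P.qN a i - i y ≤ 0 := by linarith only [hδ1, ha1, c2, h3, h4, h5, h6]
      rw [max_eq_right h9]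
      exact le_max_right _ _

theorem second_orderN (h : P.Star) {δ a c Φ₁ Φ₂ Φ : ℝ} {i φ : ℝ → ℝ} (hδ : 0 ≤ δ) (hδ1 : δ ≤ 0.03)
    (hi : P.Tube δ i) (ha : 0 ≤ a) (ha1 : a ≤ 0.45) (hc : P.io c = P.qN a P.io)
    (hφ : Continuous φ) (h1 : ∀ v, c - a ≤ v → v ≤ P.Y → |φ v| ≤ Φ₁)
    (h2 : ∀ v, c - a - 0.16 ≤ v → v ≤ c - a → |φ v| ≤ Φ₂) (hΦ1 : 1.72 * Φ₁ ≤ Φ)
    (hΦ2 : 1.25 * Φ₂ ≤ Φ) :
    |(∫ v in (0:ℝ)..P.Y, φ v * (P.gN a i v - P.gN a P.io v))
      + (∫ v in (0:ℝ)..(c - a), φ v) * ((∫ y in (0:ℝ)..a, (i y - P.io y)) / (P.Y - a))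
      + ∫ y in a..c, φ (y - a) * (i y - P.io y)| ≤ δ^2 * (P.WN a c)^2 * Φ := by
  obtain ⟨c1, c2⟩ := crossN_bd h ha ha1 hc
  have hc1 : 1.5615 ≤ c := by nlinarith only [ha, c1]
  have hc2 : c ≤ 1.7614 := by linarith only [ha1, c2]
  have hY := (Y_pos h).1
  have hΦ1' : 0 ≤ Φ₁ := (abs_nonneg _).trans (h1 (c - a) le_rfl (by linarith only [ha, c2, hY]))
  have hΦ2' : 0 ≤ Φ₂ := (abs_nonneg _).trans (h2 (c - a) (by linarith only []) le_rfl)
  have hic := hi.cont
  have hioc := cx_cont h
  have hg : ∀ j : ℝ → ℝ, Continuous j → Continuous (P.gN a j) := by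
    intro j hj
    unfold gN
    fun_prop
  have hgi := hg i hic
  have hgo := hg P.io hioc
  have hF : Continuous fun v => φ v * (P.gN a i v - P.gN a P.io v) := hφ.mul (hgi.sub hgo)
  have hG : Continuous fun v => φ v * (i (v + a) - P.io (v + a)) := by fun_prop
  have hca : 0 ≤ c - a := by linarith only [ha1, hc1]
  -- the third integral
  have e1 : ∫ y in a..c, φ (y - a) * (i y - P.io y)
      = ∫ v in (0:ℝ)..(c - a), φ v * (i (v + a) - P.io (v + a)) := by
    have s1 := intervalIntegral.integral_comp_sub_right (a := a) (b := c)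
      (fun v => φ v * (i (v + a) - P.io (v + a))) a
    simp only [sub_add_cancel, sub_self] at s1
    exact s1
  have hsh := (zso_shift h hi ha ha1).1
  have e1' : (∫ v in (0:ℝ)..(c - a), φ v) * ((∫ y in (0:ℝ)..a, (i y - P.io y)) / (P.Y - a))
      = ∫ v in (0:ℝ)..(c - a), φ v * (-(P.qN a i - P.qN a P.io)) := by
    rw [intervalIntegral.integral_mul_const, hsh, neg_neg]
  -- splitting
  have e2 : (∫ v in (0:ℝ)..P.Y, φ v * (P.gN a i v - P.gN a P.io v))
      + (∫ v in (0:ℝ)..(c - a), φ v) * ((∫ y in (0:ℝ)..a, (i y - P.io y)) / (P.Y - a))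
      + ∫ y in a..c, φ (y - a) * (i y - P.io y)
      = (∫ v in (0:ℝ)..(c - a), φ v * max (i (v + a) - P.qN a i) 0)
        + ∫ v in (c - a)..P.Y, φ v * max (P.qN a i - i (v + a)) 0 := by
    rw [e1, e1', ← intervalIntegral.integral_add_adjacent_intervals
      (hF.intervalIntegrable 0 (c - a)) (hF.intervalIntegrable (c - a) P.Y)]
    have s1 : (∫ v in (0:ℝ)..(c - a), φ v * (P.gN a i v - P.gN a P.io v))
        + (∫ v in (0:ℝ)..(c - a), φ v * (-(P.qN a i - P.qN a P.io)))
        + ∫ v in (0:ℝ)..(c - a), φ v * (i (v + a) - P.io (v + a))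
        = ∫ v in (0:ℝ)..(c - a), φ v * max (i (v + a) - P.qN a i) 0 := by
      have hF2 : Continuous fun v => φ v * (-(P.qN a i - P.qN a P.io)) := hφ.mul continuous_const
      have hF3 : Continuous fun v => φ v * (P.gN a i v - P.gN a P.io v)
          + φ v * (-(P.qN a i - P.qN a P.io)) := hF.add hF2
      rw [← intervalIntegral.integral_add (hF.intervalIntegrable _ _) (hF2.intervalIntegrable _ _),
        ← intervalIntegral.integral_add (hF3.intervalIntegrable _ _) (hG.intervalIntegrable _ _)]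
      apply intervalIntegral.integral_congr
      intro v hv
      rw [uIcc_of_le hca] at hv
      have h3 := (zso_A h hδ hδ1 hi ha ha1 hc (y := v + a) (by linarith only [hv.1, ha, hv])
        (by linarith only [hv.2, hv])).1
      simp only
      rw [← h3]
      unfold gN
      ring
    have s2 : ∫ v in (c - a)..P.Y, φ v * (P.gN a i v - P.gN a P.io v)
        = ∫ v in (c - a)..P.Y, φ v * max (P.qN a i - i (v + a)) 0 := by
      apply intervalIntegral.integral_congr
      intro v hv
      rw [uIcc_of_le (by linarith only [ha, c2, hY])] at hv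
      have h3 := (zso_B h hδ hδ1 hi ha ha1 hc (y := v + a) (by linarith only [hv.1, hv])).1
      simp only
      rw [← h3]
      rfl
    rw [← s1, ← s2]
    ring
  have hA : Continuous fun v => φ v * max (i (v + a) - P.qN a i) 0 := by fun_prop
  -- the part below the crossing
  have e3 : ∫ v in (0:ℝ)..(c - a), φ v * max (i (v + a) - P.qN a i) 0
      = ∫ v in (c - a - 0.16)..(c - a), φ v * max (i (v + a) - P.qN a i) 0 := by
    rw [← intervalIntegral.integral_add_adjacent_intervals
      (hA.intervalIntegrable 0 (c - a - 0.16)) (hA.intervalIntegrable _ (c - a))]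
    have s1 : ∫ v in (0:ℝ)..(c - a - 0.16), φ v * max (i (v + a) - P.qN a i) 0
        = ∫ v in (0:ℝ)..(c - a - 0.16), (0 : ℝ) := by
      apply intervalIntegral.integral_congr
      intro v hv
      rw [uIcc_of_le (by linarith only [ha1, hc1])] at hv
      have h3 := (zso_A h hδ hδ1 hi ha ha1 hc (y := v + a) (by linarith only [hv.1, ha, hv])
        (by linarith only [hv.2, hv])).2.1 (by linarith only [hv.2, hv])
      simp only
      rw [max_eq_right h3, mul_zero]
    rw [s1]
    simp
  have hwint : 0 ≤ (∫ y in (0:ℝ)..a, w y) / (P.Y - a) :=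
    div_nonneg (intervalIntegral.integral_nonneg ha fun y _ => zso_w_nonneg y) (by linarith only [ha1, hY])
  have hW0 : 0 ≤ P.WN a c := add_nonneg (zso_w_nonneg _) hwint
  have hm : 0 ≤ δ * P.WN a c := mul_nonneg hδ hW0
  have b1 : |∫ v in (c - a - 0.16)..(c - a), φ v * max (i (v + a) - P.qN a i) 0|
      ≤ Φ₂ * ((δ * P.WN a c) ^ 2 / (2 * 0.4)) := by
    refine zso_abs (g := fun v => max (δ * P.WN a c - 0.4 * (c - a - v)) 0) (by linarith only []) hΦ2'
      (by fun_prop) ?_ (fun v hv => h2 v hv.1 hv.2) ?_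
    · have s1 : ∫ v in (c - a - 0.16)..(c - a), max (δ * P.WN a c - 0.4 * (c - a - v)) 0
          = ∫ t in (0:ℝ)..0.16, max (δ * P.WN a c - 0.4 * t) 0 := by
        rw [intervalIntegral.integral_comp_sub_left
          (fun t => max (δ * P.WN a c - 0.4 * t) 0) (c - a)]
        congr 1
        · ring
        · ring
      rw [s1]
      exact zso_pos_int hm (by norm_num) (by norm_num)
    · intro v hv
      have h3 := (zso_A h hδ hδ1 hi ha ha1 hc (y := v + a) (by linarith only [hv.1, hc1, hv])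
        (by linarith only [hv.2, hv])).2.2 (by linarith only [hv.1, hv])
      refine ⟨le_max_right _ _, max_le_max_right _ ?_⟩
      linarith only [h3]
  have b2 : |∫ v in (c - a)..P.Y, φ v * max (P.qN a i - i (v + a)) 0|
      ≤ Φ₁ * ((δ * P.WN a c) ^ 2 / (2 * 0.2913)) := by
    refine zso_abs (g := fun v => max (δ * P.WN a c - 0.2913 * (v - (c - a))) 0) (by linarith only [ha, c2, hY])
      hΦ1' (by fun_prop) ?_ (fun v hv => h1 v hv.1 hv.2) ?_
    · have s1 : ∫ v in (c - a)..P.Y, max (δ * P.WN a c - 0.2913 * (v - (c - a))) 0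
          = ∫ t in (0:ℝ)..(P.Y - (c - a)), max (δ * P.WN a c - 0.2913 * t) 0 := by
        rw [intervalIntegral.integral_comp_sub_right
          (fun t => max (δ * P.WN a c - 0.2913 * t) 0) (c - a)]
        congr 1
        ring
      rw [s1]
      exact zso_pos_int hm (by norm_num) (by linarith only [ha, c2, hY])
    · intro v hv
      have h3 := (zso_B h hδ hδ1 hi ha ha1 hc (y := v + a) (by linarith only [hv.1, hv])).2
      refine ⟨le_max_right _ _, h3.trans (max_le_max_right _ ?_)⟩
      linarith only []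
  rw [e2, e3]
  have hsq : 0 ≤ (δ * P.WN a c) ^ 2 := sq_nonneg _
  have hgoal : δ^2 * (P.WN a c)^2 * Φ = (δ * P.WN a c) ^ 2 * Φ := by ring
  rw [hgoal]
  rcases le_total (i c) (P.qN a i) with hcase | hcase
  · -- nothing below the crossing
    have s1 : ∫ v in (c - a - 0.16)..(c - a), φ v * max (i (v + a) - P.qN a i) 0
        = ∫ v in (c - a - 0.16)..(c - a), (0 : ℝ) := by
      apply intervalIntegral.integral_congr
      intro v hv
      rw [uIcc_of_le (by linarith only [])] at hv
      have h3 : i (v + a) ≤ i c := hi.mono (by linarith only [hv.2, hv])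
      simp only
      rw [max_eq_right (by linarith only [hcase, h3]), mul_zero]
    rw [s1]
    simp only [intervalIntegral.integral_zero, zero_add]
    refine b2.trans ?_
    have t2 : (δ * P.WN a c) ^ 2 / (2 * 0.2913) ≤ 1.72 * (δ * P.WN a c) ^ 2 := by
      rw [div_le_iff₀ (by norm_num)]
      linarith only [hsq]
    have t4 := mul_le_mul_of_nonneg_left t2 hΦ1'
    have t5 := mul_le_mul_of_nonneg_left hΦ1 hsq
    linarith only [t4, t5]
  · have s1 : ∫ v in (c - a)..P.Y, φ v * max (P.qN a i - i (v + a)) 0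
        = ∫ v in (c - a)..P.Y, (0 : ℝ) := by
      apply intervalIntegral.integral_congr
      intro v hv
      rw [uIcc_of_le (by linarith only [ha, c2, hY])] at hv
      have h3 : i c ≤ i (v + a) := hi.mono (by linarith only [hv.1, hv])
      simp only
      rw [max_eq_right (by linarith only [hcase, h3]), mul_zero]
    rw [s1]
    simp only [intervalIntegral.integral_zero, add_zero]
    refine b1.trans ?_
    have t2 : (δ * P.WN a c) ^ 2 / (2 * 0.4) ≤ 1.25 * (δ * P.WN a c) ^ 2 := by
      rw [div_le_iff₀ (by norm_num)]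
      linarith only []
    have t4 := mul_le_mul_of_nonneg_left t2 hΦ2'
    have t5 := mul_le_mul_of_nonneg_left hΦ2 hsq
    linarith only [t4, t5]

end Pool.Agent.CDk.Par
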