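import Pool.Agent.CDk.CX
import Pool.Agent.CDk.D.D0
import Pool.Agent.CDk.D.PT
import Pool.Agent.CDk.D.ZC
import Pool.Agent.CDk.Defs
import Pool.Agent.CDk.ENC
import Pool.Agent.CDk.FNa
import Pool.Agent.CDk.FNb
import Pool.Agent.CDk.U1a

/-!
# ZU0: `UN a io`

a             0        .05      .1       .15      .2       .25      .3       .35      .4       .45
UN - psi io   -.001725 -.003450 -.005778 -.008715 -.012263 -.016422 -.021190 -.026563 -.032533 -.039094
bound - psi   -.001632 -.003277 -.005532 -.008397 -.011872 -.015957 -.020652 -.025957 -.031872 -.038397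

Proof: one polynomial inequality in `a` (degree 15), with the linear approximation `1.559 + 0.4405 a` of the
crossing; the value is stationary in the crossing.
-/

open MeasureTheory Set Filter Topology

namespace Pool.Agent.CDk.Par
variable {P : Par}

open Pool.Agent.CDk.PT

/-! ### the lower bound of `psi io` -/

private def uA : List ℚ := padd [0.000023] lM
private def uB : List ℚ := padd [0.000015] lI
private def uS : List ℚ := [0, 0, 1/2]

private def u0val : List ℚ :=
  padd (padd (conv 6 uA uB [1518269/1000000 - 1396452/1000000] [1396452/1000000])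
      (psm (-1) (conv 6 uA uB [1518269/1000000] [0])))
    (padd (conv 3 uS uB [2422147/1000000 - 151827/100000] [151827/100000])
      (psm (-1) (conv 3 uS uB [2422147/1000000 - 1396452/1000000] [1396452/1000000])))

private theorem u0chk : chk (padd [448636/1000000] (psm (-1) u0val)) 0 0 0 0 = true := by
  decide +kernel

private theorem u0_I_le (h : P.Star) {y : ℝ} (h0 : 0 ≤ y) (h1 : y ≤ P.ρ) : P.I y ≤ ev uB y := by
  have h2 := (abs_le.1 (I_app h h0 h1)).2
  rw [← ev_lI] at h2
  rw [uB, ev_padd, ev_const]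
  push_cast
  linarith only [h2]

private theorem u0_psi (h : P.Star) : 0.831705 ≤ P.psi P.io := by
  have hρ := h.ρ_lo; have hρ' := h.ρ_hi; have he := h.e_lo; have he' := h.e_hi
  obtain ⟨hY1, hY2, hL1, hL2⟩ := Y_pos h
  have hL := cx_L_pos h
  have hmb := mb_cont h
  have hI := I_cont h
  have hf : Continuous fun y => P.mb (y + P.e0) * P.I y :=
    (hmb.comp (continuous_id.add continuous_const)).mul hI
  have e1 : P.psi P.io = 1 - (∫ y in (0:ℝ)..(P.ρ - P.e0), P.mb (y + P.e0) * P.I y) / P.L := by
    unfold psi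
    rw [← intervalIntegral.integral_div]
    congr 1
    apply intervalIntegral.integral_congr
    intro y _
    simp only [io]
    ring
  have hnn : ∀ y, 0 ≤ y → 0 ≤ P.mb (y + P.e0) * P.I y := fun y hy =>
    mul_nonneg (mb_nonneg h (by linarith only [hρ, hρ', he, hy])) (I_nonneg h y)
  -- enlarge the range
  have e2 : ∫ y in (0:ℝ)..(P.ρ - P.e0), P.mb (y + P.e0) * P.I y ≤
      ∫ y in (0:ℝ)..1.51827, P.mb (y + P.e0) * P.I y := by
    rw [← intervalIntegral.integral_add_adjacent_intervals (hf.intervalIntegrable 0 (P.ρ - P.e0))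
      (hf.intervalIntegrable (P.ρ - P.e0) 1.51827)]
    have := intervalIntegral.integral_nonneg (μ := volume) (a := P.ρ - P.e0) (b := 1.51827) (by linarith only [hρ', he])
      (f := fun y => P.mb (y + P.e0) * P.I y) (fun y hy => hnn y (by linarith only [hy.1, hρ, hρ', he', hy]))
    linarith only [this]
  have e3 : ∫ y in (0:ℝ)..1.51827, P.mb (y + P.e0) * P.I y =
      (∫ y in (0:ℝ)..1.396452, P.mb (y + P.e0) * P.I y) +
      ∫ y in (1.396452:ℝ)..1.51827, P.mb (y + P.e0) * P.I y :=
    (intervalIntegral.integral_add_adjacent_intervals (hf.intervalIntegrable _ _)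
      (hf.intervalIntegrable _ _)).symm
  have e4 : ∫ y in (0:ℝ)..1.396452, P.mb (y + P.e0) * P.I y ≤
      ∫ y in (0:ℝ)..1.396452, ev uA (1.518269 - y) * ev uB y := by
    refine intervalIntegral.integral_mono_on (by norm_num) (hf.intervalIntegrable _ _)
      ((((ev_cont uA).comp (continuous_const.sub continuous_id)).mul (ev_cont uB)).intervalIntegrable _ _) ?_
    intro y hy
    have k1 := abs_le.1 (mb_apx h (v := y + P.e0) (by linarith only [hy.1, hρ, hρ', he, hy]) (by linarith only [hy.2, hρ, hρ', he', hy]))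
    have k2 := abs_le.1 (U1n.PM_lip (x := 1.6400875 - (y + P.e0)) (y := 1.518269 - y)
      (by linarith only [hy.2, hρ, hρ', he', hy]) (by linarith only [hy.1, hρ, hρ', he, hy]) (by linarith only [hy.2, hρ, hρ', hy]) (by linarith only [hy.1, hρ, hρ', hy]))
    have k3 : |1.6400875 - (y + P.e0) - (1.518269 - y)| ≤ 0.0000006 := by
      rw [abs_le]; constructor <;> linarith
    rw [ev_lM] at k1
    refine mul_le_mul ?_ (u0_I_le h hy.1 (by linarith only [hy.2, hρ, hρ', hy])) (I_nonneg h y) ?_
    · rw [uA, ev_padd, ev_const, ev_lM]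
      push_cast
      linarith only [k1.2, k2.2, hρ, hρ', k1, k2, k3]
    · rw [uA, ev_padd, ev_const, ev_lM]
      push_cast
      have := mb_nonneg h (v := y + P.e0) (by linarith only [hy.1, hρ, hρ', he, hy])
      linarith only [k1.2, k2.2, hρ, hρ', k1, k2, k3, this]
  have e5 : ∫ y in (1.396452:ℝ)..1.51827, P.mb (y + P.e0) * P.I y ≤
      ∫ y in (1.396452:ℝ)..1.51827, ev uS (2.422147 - y) * ev uB y := by
    refine intervalIntegral.integral_mono_on (by norm_num) (hf.intervalIntegrable _ _)
      ((((ev_cont uS).comp (continuous_const.sub continuous_id)).mul (ev_cont uB)).intervalIntegrable _ _) ?_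
    intro y hy
    have k1 : P.mb (y + P.e0) = (P.Y - (y + P.e0)) ^ 2 / 2 := by
      rw [mb_out h (by linarith only [hy.1, hρ', he, hy]), max_eq_left (by linarith only [hy.2, hρ, hρ', he', hY1, hy])]
    have k2 : (P.Y - (y + P.e0)) ^ 2 ≤ (2.422147 - y) ^ 2 :=
      pow_le_pow_left₀ (by linarith only [hy.2, hρ, hρ', he', hY1, hy]) (by linarith only [he, hY2]) 2
    have k3 : ev uS (2.422147 - y) = (2.422147 - y) ^ 2 / 2 := by
      simp only [uS, ev]; push_cast; ring
    rw [k1, k3]
    refine mul_le_mul (by linarith only [k2]) (u0_I_le h (by linarith only [hy.1, hρ, hρ', hy]) (by linarith only [hy.2, hρ, hρ', hy]))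
      (I_nonneg h y) (by positivity)
  have e6 : (∫ y in (0:ℝ)..1.396452, ev uA (1.518269 - y) * ev uB y) +
      ∫ y in (1.396452:ℝ)..1.51827, ev uS (2.422147 - y) * ev uB y ≤ 0.448636 := by
    rw [cv_int (n := 6) (m := uA) (by rfl), cv_int (n := 3) (m := uS) (by rfl)]
    have k := chk_sound _ _ _ u0chk 0 (by simp) (by simp)
    rw [ev_padd, ev_psm, u0val, ev_padd, ev_padd, ev_padd, ev_psm, ev_psm, ev_conv, ev_conv, ev_conv,
      ev_conv] at k
    simp only [ev_const] at k
    push_cast at k
    norm_num at k ⊢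
    linarith only [k]
  rw [e1]
  have e7 : (∫ y in (0:ℝ)..(P.ρ - P.e0), P.mb (y + P.e0) * P.I y) / P.L ≤ 0.168295 := by
    rw [div_le_iff₀ hL]
    linarith only [hρ, hρ', hL1, e2, e3, e4, e5, e6]
  linarith only [e7]

/-! ### the main inequality -/

/-- the approximate crossing -/
private def uc : List ℚ := [1559/1000, 4405/10000]
private def uX : List ℚ := padd (conv 6 lM lI (padd [1.6400875, 1] (psm (-1) uc)) uc)
  (psm (-1) (conv 6 lM lI [1.6400875] [0, 1]))
private def uM : List ℚ := padd (conv 6 lM [1] (padd [1.6400875, 1] (psm (-1) uc)) uc)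
  (psm (-1) (conv 6 lM [1] [1.6400875] [0, 1]))
private def uh : List ℚ := pcomp [1, 0, 1/2, 0, 1/24] [0.500519, -1]
private def uC : List ℚ := padd (conv 6 uh lI [] [0, 1]) (psm (-1) (conv 6 uh lI [0, 1] []))
private def uZ : List ℚ := padd (padd [0.831655] (psm (1/2.665784) (padd uC uX)))
  (psm (-1) (padd (psm 0.11 (pmul [0.121819, 1] [0.121819, 1])) [0, 0, 0.012]))
private def uQ : List ℚ := padd [1] (psm (-1/2.665784) (padd lJ [-0.00001]))
private def uP : List ℚ := padd (pmul [2.543961, -1] uZ) (psm (-1) (pmul uQ (padd [0.521684] uM)))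

private theorem uP_chk : chk uP 0 2 0 (45/100) = true := by decide +kernel
private theorem uZ_chk : chk uZ 0 0 0 (45/100) = true := by decide +kernel
private theorem uM_chk : chk (padd [2.12] (psm (-1) uM)) 0 2 0 (45/100) = true := by decide +kernel
private theorem uM_chk0 : chk uM 0 2 0 (45/100) = true := by decide +kernel
private theorem uQ_chk : chk uQ 0 2 0 (45/100) = true := by decide +kernel

private theorem u0_c (h : P.Star) {a c : ℝ} (ha : 0 ≤ a) (ha1 : a ≤ 0.45) (hc : P.io c = P.qN a P.io) :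
    -0.0052 ≤ c - (1.559 + 0.4405 * a) ∧ c - (1.559 + 0.4405 * a) ≤ 0.0052 ∧ c ≤ 1.5625 + 0.442 * a := by
  obtain ⟨c1, c2⟩ := crossN_bd h ha ha1 hc
  have hsq : 0.0605 * a - 0.12 * a ^ 2 ≤ 0.00763 := by nlinarith only [sq_nonneg (a - 0.252), ha1]
  refine ⟨by linarith only [c1, hsq], by linarith only [ha1, c2], c2⟩

private theorem u0_shift (h : P.Star) {a c : ℝ} (ha : 0 ≤ a) (ha1 : a ≤ 0.45)
    (hc : P.io c = P.qN a P.io) :
    ∫ y in a..c, P.mb (y - a) * (P.qN a P.io - P.io y) ≤
      (∫ y in a..(1.559 + 0.4405 * a), P.mb (y - a) * (P.qN a P.io - P.io y)) + 0.0000087 := by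
  obtain ⟨c1, c2, -⟩ := u0_c h ha ha1 hc
  have hio := cx_cont h
  have hmb := mb_cont h
  set q := P.qN a P.io
  set c' := 1.559 + 0.4405 * a with hc'
  have hK : Continuous fun y => P.mb (y - a) * (q - P.io y) :=
    (hmb.comp (continuous_id.sub continuous_const)).mul (continuous_const.sub hio)
  have hcc : |c - c'| ≤ 0.0052 := abs_le.2 ⟨c1, c2⟩
  rw [← intervalIntegral.integral_add_adjacent_intervals (hK.intervalIntegrable a c')
    (hK.intervalIntegrable c' c)]
  have k1 : ‖∫ y in c'..c, P.mb (y - a) * (q - P.io y)‖ ≤ 0.77 * (0.4127 * 0.0052) * |c - c'| := by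
    refine intervalIntegral.norm_integral_le_of_norm_le_const ?_
    intro y hy
    rw [uIoc, mem_Ioc] at hy
    have hlo : c' - 0.0052 ≤ min c' c := le_min (by linarith only []) (by linarith only [c1])
    have hyc : |c - y| ≤ |c - c'| := by
      rcases le_total c' c with h1 | h1
      · rw [min_eq_left h1, max_eq_right h1] at hy
        rw [abs_of_nonneg (by linarith only [hy.2, hy]), abs_of_nonneg (by linarith only [hy])]
        linarith only [hy.1, hy]
      · rw [min_eq_right h1, max_eq_left h1] at hy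
        rw [abs_of_nonpos (by linarith only [hy.1, hy]), abs_of_nonpos (by linarith only [hy])]
        linarith only [hy.2, hy]
    have k2 : P.mb (y - a) ≤ 0.77 := by
      have k3 : P.mb (y - a) ≤ P.mb 1.3 := mb_anti h (by rw [mem_Ici]; norm_num)
        (by rw [mem_Ici]; linarith only [hy.1, ha1, hc', hy, hlo]) (by linarith only [hy.1, ha1, hc', hy, hlo])
      have k4 := (abs_le.1 (mb_apx h (v := 1.3) (by norm_num) (by norm_num))).2
      have k5 : ev lM (1.6400875 - 1.3) ≤ 0.7699 := by
        rw [ev_lM]; unfold PM; norm_num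
      linarith only [k3, k4, k5]
    have k3 : 0 ≤ P.mb (y - a) := mb_nonneg h (by linarith only [hy.1, ha1, hc', hy, hlo])
    rw [Real.norm_eq_abs, abs_mul, abs_of_nonneg k3]
    refine mul_le_mul k2 ?_ (abs_nonneg _) (by norm_num)
    rw [← hc]
    refine (io_lip h c y).trans ?_
    exact mul_le_mul_of_nonneg_left (hyc.trans hcc) (by norm_num)
  have k2 : 0.77 * (0.4127 * 0.0052) * |c - c'| ≤ 0.77 * (0.4127 * 0.0052) * 0.0052 :=
    mul_le_mul_of_nonneg_left hcc (by norm_num)
  have k3 := (abs_le.1 k1).2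
  have k4 : (0.77 : ℝ) * (0.4127 * 0.0052) * 0.0052 ≤ 0.0000087 := by norm_num
  linarith only [hcc, k3]

private theorem u0_err (h : P.Star) {a c y : ℝ} (ha : 0 ≤ a) (ha1 : a ≤ 0.45)
    (hc : P.io c = P.qN a P.io) (hq1 : P.qN a P.io ≤ 0.475) (hy0 : a ≤ y)
    (hy1 : y ≤ 1.559 + 0.4405 * a) :
    |P.mb (y - a) - ev lM (1.6400875 + a - y)| * |P.qN a P.io - P.io y| ≤ 0.000008 := by
  obtain ⟨c1, c2, c3⟩ := u0_c h ha ha1 hc
  have hTabs : |P.qN a P.io - P.io y| ≤ 0.4127 * |c - y| := by
    rw [← hc]; exact io_lip h c y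
  rcases le_total (y - a) 1.51828 with h1 | h1
  · have k1 : |P.mb (y - a) - ev lM (1.6400875 + a - y)| ≤ 0.000016 := by
      have := mb_apx h (v := y - a) (by linarith only [hy0]) h1
      rwa [show 1.6400875 - (y - a) = 1.6400875 + a - y by ring] at this
    have k2 : |P.qN a P.io - P.io y| ≤ 0.475 := by
      rcases le_total y c with h2 | h2
      · have k3 : P.io y ≤ P.io c := cx_mono h h2
        have k4 : 0 ≤ P.io y := by
          have := cx_mono h (show (0:ℝ) ≤ y by linarith only [ha, hy0])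
          rwa [cx_zero h le_rfl] at this
        rw [abs_of_nonneg (by linarith only [hc, k3])]
        linarith only [hq1, k4]
      · refine hTabs.trans ?_
        rw [abs_of_nonpos (by linarith only [h2])]
        linarith only [hy1, c1]
    calc |P.mb (y - a) - ev lM (1.6400875 + a - y)| * |P.qN a P.io - P.io y|
        ≤ 0.000016 * 0.475 := mul_le_mul k1 k2 (abs_nonneg _) (by norm_num)
      _ ≤ 0.000008 := by norm_num
  · have k1 : |P.mb (y - a) - ev lM (1.6400875 + a - y)| ≤ 0.0004 := by
      have := mb_apx2 h (v := y - a) (by linarith only [h1]) (by linarith only [ha, hy1])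
      rwa [show 1.6400875 - (y - a) = 1.6400875 + a - y by ring] at this
    have k2 : |P.qN a P.io - P.io y| ≤ 0.0183 := by
      refine hTabs.trans ?_
      have : |c - y| ≤ 0.0443 := by
        rw [abs_le]; constructor <;> linarith
      linarith only [this]
    calc |P.mb (y - a) - ev lM (1.6400875 + a - y)| * |P.qN a P.io - P.io y|
        ≤ 0.0004 * 0.0183 := mul_le_mul k1 k2 (abs_nonneg _) (by norm_num)
      _ ≤ 0.000008 := by norm_num

private theorem u0_pt (h : P.Star) {a c y : ℝ} (ha : 0 ≤ a) (ha1 : a ≤ 0.45)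
    (hc : P.io c = P.qN a P.io) (hq1 : P.qN a P.io ≤ 0.475) (hy0 : a ≤ y)
    (hy1 : y ≤ 1.559 + 0.4405 * a) :
    P.mb (y - a) * (P.qN a P.io - P.io y) ≤
      (P.qN a P.io + 0.0000096) * (ev lM (1.6400875 + a - y) * ev [1] y)
        - ev lM (1.6400875 + a - y) * ev lI y / 2.665784 + 0.000008 := by
  have herr := u0_err h ha ha1 hc hq1 hy0 hy1
  set m := P.mb (y - a)
  set M := ev lM (1.6400875 + a - y) with hM
  set T := P.qN a P.io - P.io y with hT
  have hM0 : 0 ≤ M := lM_nonneg (by linarith only [ha, hy1]) (by linarith only [hy0])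
  have hTu : T ≤ P.qN a P.io + 0.0000096 - ev lI y / 2.665784 := by
    have := io_ge h (y := y) (by linarith only [ha, hy0]) (by linarith only [ha1, hy1])
    rw [hT]; linarith only [this]
  have k1 : m * T = M * T + (m - M) * T := by ring
  have k2 : (m - M) * T ≤ 0.000008 := by
    refine le_trans (le_abs_self _) ?_
    rw [abs_mul]; exact herr
  have k3 : M * T ≤ M * (P.qN a P.io + 0.0000096 - ev lI y / 2.665784) :=
    mul_le_mul_of_nonneg_left hTu hM0
  have k4 : (P.qN a P.io + 0.0000096) * (M * ev [1] y) - M * ev lI y / 2.665784 =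
      M * (P.qN a P.io + 0.0000096 - ev lI y / 2.665784) := by
    rw [ev_const]; push_cast; ring
  rw [k4, k1]
  linarith only [k2, k3]

private theorem u0_int (h : P.Star) {a c : ℝ} (ha : 0 ≤ a) (ha1 : a ≤ 0.45) (hc : P.io c = P.qN a P.io)
    (hq1 : P.qN a P.io ≤ 0.475) :
    ∫ y in a..c, P.mb (y - a) * (P.qN a P.io - P.io y) ≤
      (P.qN a P.io + 0.0000096) * ev uM a - ev uX a / 2.665784 + 0.0000212 := by
  refine (u0_shift h ha ha1 hc).trans ?_
  have hio := cx_cont h
  have hmb := mb_cont h
  set q := P.qN a P.io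
  have hc' : ev uc a = 1.559 + 0.4405 * a := by
    rw [uc, ev_lin]; push_cast; norm_num
  set c' := 1.559 + 0.4405 * a with hcd
  have hK : Continuous fun y => P.mb (y - a) * (q - P.io y) :=
    (hmb.comp (continuous_id.sub continuous_const)).mul (continuous_const.sub hio)
  have hA : Continuous fun y => ev lM (1.6400875 + a - y) * ev [1] y :=
    ((ev_cont lM).comp (continuous_const.sub continuous_id)).mul (ev_cont [1])
  have hB : Continuous fun y => ev lM (1.6400875 + a - y) * ev lI y :=
    ((ev_cont lM).comp (continuous_const.sub continuous_id)).mul (ev_cont lI)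
  have e1 : ∫ y in a..c', P.mb (y - a) * (q - P.io y) ≤
      ∫ y in a..c', ((q + 0.0000096) * (ev lM (1.6400875 + a - y) * ev [1] y)
        - ev lM (1.6400875 + a - y) * ev lI y / 2.665784 + 0.000008) := by
    refine intervalIntegral.integral_mono_on (by rw [hcd]; linarith only [ha1]) (hK.intervalIntegrable _ _)
      ((((continuous_const.mul hA).sub (hB.div_const _)).add continuous_const).intervalIntegrable _ _) ?_
    intro y hy
    exact u0_pt h ha ha1 hc hq1 hy.1 hy.2
  have e2 : ∫ y in a..c', ((q + 0.0000096) * (ev lM (1.6400875 + a - y) * ev [1] y)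
        - ev lM (1.6400875 + a - y) * ev lI y / 2.665784 + 0.000008) =
      (q + 0.0000096) * (∫ y in a..c', ev lM (1.6400875 + a - y) * ev [1] y)
        - (∫ y in a..c', ev lM (1.6400875 + a - y) * ev lI y) / 2.665784 + 0.000008 * (c' - a) := by
    have i1 : IntervalIntegrable (fun y => (q + 0.0000096) * (ev lM (1.6400875 + a - y) * ev [1] y))
      volume a c' := (continuous_const.mul hA).intervalIntegrable _ _
    have i2 : IntervalIntegrable (fun y => ev lM (1.6400875 + a - y) * ev lI y / 2.665784)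
      volume a c' := (hB.div_const _).intervalIntegrable _ _
    rw [intervalIntegral.integral_add (i1.sub i2) intervalIntegrable_const,
      intervalIntegral.integral_sub i1 i2, intervalIntegral.integral_const_mul,
      intervalIntegral.integral_div, intervalIntegral.integral_const]
    simp only [smul_eq_mul]
    ring
  have e3 : ∫ y in a..c', ev lM (1.6400875 + a - y) * ev [1] y = ev uM a := by
    rw [cv_int (n := 6) (m := lM) (by rfl), uM, ev_padd, ev_psm, ev_conv, ev_conv, ev_padd, ev_psm, hc',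
      ev_lin, ev_const, ev_lin]
    push_cast
    norm_num
    ring_nf
  have e4 : ∫ y in a..c', ev lM (1.6400875 + a - y) * ev lI y = ev uX a := by
    rw [cv_int (n := 6) (m := lM) (by rfl), uX, ev_padd, ev_psm, ev_conv, ev_conv, ev_padd, ev_psm, hc',
      ev_lin, ev_const, ev_lin]
    push_cast
    norm_num
    ring_nf
  rw [e2, e3, e4] at e1
  have e5 : c' - a ≤ 1.5595 := by rw [hcd]; linarith only [ha]
  linarith only [ha, hcd, e1]

private theorem u0_V (h : P.Star) {a : ℝ} (ha : 0 ≤ a) (ha1 : a ≤ 0.45) :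
    ev uC a / 2.665784 - 0.000003 ≤ ∫ y in (0:ℝ)..a, Real.cosh (P.s - a + y) * P.io y := by
  have hs := h.s_lo; have hs' := h.s_hi; have hρ := h.ρ_lo
  have hio := cx_cont h
  have hF : Continuous fun y => Real.cosh (P.s - a + y) * P.io y :=
    (Real.continuous_cosh.comp (continuous_const.add continuous_id)).mul hio
  have hB : Continuous fun y => ev uh (a - y) * ev lI y :=
    ((ev_cont uh).comp (continuous_const.sub continuous_id)).mul (ev_cont lI)
  have e1 : ∫ y in (0:ℝ)..a, (ev uh (a - y) * ev lI y / 2.665784 - 0.0000065) ≤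
      ∫ y in (0:ℝ)..a, Real.cosh (P.s - a + y) * P.io y := by
    refine intervalIntegral.integral_mono_on ha
      (((hB.div_const _).sub continuous_const).intervalIntegrable _ _) (hF.intervalIntegrable _ _) ?_
    intro y hy
    have hz0 : 0 ≤ 0.500519 - (a - y) := by linarith only [hy.1, ha1, hy]
    have hz1 : 0.500519 - (a - y) ≤ 0.500519 := by linarith only [hy.2, hy]
    have k1 : ev uh (a - y) = 1 + (0.500519 - (a - y)) ^ 2 / 2 + (0.500519 - (a - y)) ^ 4 / 24 := by
      rw [uh, ev_pcomp, ev_lin]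
      simp only [ev]
      push_cast
      ring
    have k2 : ev uh (a - y) ≤ Real.cosh (P.s - a + y) := by
      rw [k1]
      refine (cosh_ge hz0 (by linarith only [hz1])).trans ?_
      rw [Real.cosh_le_cosh, abs_of_nonneg hz0, abs_of_nonneg (by linarith only [hs, hz0])]
      linarith only [hs]
    have k3 : ev uh (a - y) ≤ 1.13 := by
      rw [k1]
      have p2 : (0.500519 - (a - y)) ^ 2 ≤ 0.500519 ^ 2 := pow_le_pow_left₀ hz0 hz1 2
      have p4 : (0.500519 - (a - y)) ^ 4 ≤ 0.500519 ^ 4 := pow_le_pow_left₀ hz0 hz1 4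
      norm_num at p2 p4 ⊢
      linarith only [p2, p4]
    have k4 : 0 ≤ ev uh (a - y) := by rw [k1]; positivity
    have k5 := io_ge1 h (y := y) hy.1 (by linarith only [hy.2, ha1, hρ, hz1])
    have k6 : 0 ≤ P.io y := by
      have := cx_mono h hy.1
      rwa [cx_zero h le_rfl] at this
    have k7 : ev uh (a - y) * P.io y ≤ Real.cosh (P.s - a + y) * P.io y :=
      mul_le_mul_of_nonneg_right k2 k6
    have k8 : ev uh (a - y) * (ev lI y / 2.665784 - 0.0000057) ≤ ev uh (a - y) * P.io y :=
      mul_le_mul_of_nonneg_left k5 k4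
    have k9 : ev uh (a - y) * 0.0000057 ≤ 1.13 * 0.0000057 :=
      mul_le_mul_of_nonneg_right k3 (by norm_num)
    have k10 : (1.13 : ℝ) * 0.0000057 ≤ 0.0000065 := by norm_num
    have k11 : ev uh (a - y) * ev lI y / 2.665784 = ev uh (a - y) * (ev lI y / 2.665784) := by ring
    rw [k11]
    linarith only [k3, k7, k8]
  have e2 : ∫ y in (0:ℝ)..a, (ev uh (a - y) * ev lI y / 2.665784 - 0.0000065) =
      (∫ y in (0:ℝ)..a, ev uh (a - y) * ev lI y) / 2.665784 - 0.0000065 * a := by
    rw [intervalIntegral.integral_sub ((hB.div_const _).intervalIntegrable _ _)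
      intervalIntegrable_const, intervalIntegral.integral_div, intervalIntegral.integral_const]
    simp only [smul_eq_mul]
    ring
  have e3 : ∫ y in (0:ℝ)..a, ev uh (a - y) * ev lI y = ev uC a := by
    rw [cv_int (n := 6) (m := uh) (by rfl), uC, ev_padd, ev_psm, ev_conv, ev_conv, ev_lin]
    push_cast
    simp only [ev, zero_add, one_mul, sub_self, sub_zero]
    ring
  rw [e2, e3] at e1
  linarith only [ha1, e1]

theorem UN_io (h : P.Star) {a : ℝ} (ha : 0 ≤ a) (ha1 : a ≤ 0.45) :
    P.UN a P.io ≤ P.psi P.io - 0.11 * (a + P.e0)^2 - 0.012 * a^2 := by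
  have he := h.e_lo; have he' := h.e_hi; have hρ := h.ρ_lo
  obtain ⟨hY1, hY2, hL1, hL2⟩ := Y_pos h
  have hL := cx_L_pos h
  obtain ⟨hsg0, hsg1⟩ := sg_bd h
  obtain ⟨c, hc⟩ := crossN h ha ha1
  obtain ⟨c1, c2⟩ := crossN_bd h ha ha1 hc
  obtain ⟨q0, q1⟩ := qN_bd h ha ha1
  have hpsi := u0_psi h
  have hV := u0_V h ha ha1
  have hI := u0_int h ha ha1 hc q1
  have hsplit := gN_int h (mb_cont h) hc (a := a) (c := c) (by nlinarith only [sq_nonneg a, ha1, hsg0, hsg1, c1]) (by linarith only [ha, hY1, hsg0, hsg1, c2])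
  have hUN : P.UN a P.io = P.sg * P.qN a P.io - (∫ y in (0:ℝ)..a, Real.cosh (P.s - a + y) * P.io y)
      + ∫ y in a..c, P.mb (y - a) * (P.qN a P.io - P.io y) := by
    unfold UN VN
    rw [hsplit]
  have hM0 := chk_sound _ _ _ uM_chk0 a (by push_cast; exact ha) (by push_cast; linarith only [ha1])
  have hM1 := chk_sound _ _ _ uM_chk a (by push_cast; exact ha) (by push_cast; linarith only [ha1])
  have hQ0 := chk_sound _ _ _ uQ_chk a (by push_cast; exact ha) (by push_cast; linarith only [ha1])
  have hZ0 := chk_sound _ _ _ uZ_chk a (by push_cast; exact ha) (by push_cast; linarith only [ha1])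
  have hP0 := chk_sound _ _ _ uP_chk a (by push_cast; exact ha) (by push_cast; linarith only [ha1])
  have eQ : ev uQ a = 1 - (ev lJ a - 0.00001) / 2.665784 := by
    rw [uQ, ev_padd, ev_psm, ev_padd, ev_const, ev_const]
    push_cast
    ring
  have eZ : ev uZ a = 0.831655 + (ev uC a + ev uX a) / 2.665784
      - (0.11 * (a + 0.121819) ^ 2 + 0.012 * a ^ 2) := by
    rw [uZ, ev_padd, ev_padd, ev_psm, ev_psm, ev_padd, ev_padd, ev_psm, ev_pmul, ev_const, ev_lin]
    simp only [ev]
    push_cast
    ring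
  have eP : ev uP a = (2.543961 - a) * ev uZ a - ev uQ a * (0.521684 + ev uM a) := by
    rw [uP, ev_padd, ev_psm, ev_pmul, ev_pmul, ev_padd, ev_lin, ev_const]
    push_cast
    ring
  rw [ev_padd, ev_psm, ev_const] at hM1
  rw [eP] at hP0
  push_cast at hM0 hM1 hQ0 hZ0 hP0
  set q := P.qN a P.io with hq
  -- `(Y - a) q ≤ Q`
  have hYa : 0 < P.Y - a := by linarith only [ha1, hY1, hsg0, hsg1]
  have hqQ : (P.Y - a) * q ≤ ev uQ a := by
    have k1 : (P.Y - a) * q = 1 - P.J a / P.L := by
      rw [hq]; unfold qN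
      rw [int_io h]
      field_simp
    have k2 := (abs_le.1 (J_app h (y := a) ha (by linarith only [ha1, hρ, hsg0, hsg1]))).1
    rw [← ev_lJ] at k2
    have hJ0 : 0 ≤ P.J a := by
      have h1 := int_io h a
      have h2 : 0 ≤ ∫ y in (0:ℝ)..a, P.io y := intervalIntegral.integral_nonneg ha fun y hy => by
        have := cx_mono h hy.1
        rwa [cx_zero h le_rfl] at this
      rw [h1] at h2
      by_contra h3
      push Not at h3
      have := div_neg_of_neg_of_pos h3 hL
      linarith only [h2, this]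
    have k3 : (ev lJ a - 0.00001) / 2.665784 ≤ P.J a / P.L := by
      calc (ev lJ a - 0.00001) / 2.665784 ≤ P.J a / 2.665784 :=
            div_le_div_of_nonneg_right (by linarith only [k2]) (by norm_num)
        _ ≤ P.J a / P.L := div_le_div_of_nonneg_left hJ0 hL hL2.le
    rw [k1, eQ]
    linarith only [k3]
  -- collect
  have hU : P.UN a P.io ≤ q * (0.521684 + ev uM a) - (ev uC a + ev uX a) / 2.665784 + 0.000045 := by
    rw [hUN]
    have k1 : P.sg * q ≤ 0.521684 * q := mul_le_mul_of_nonneg_right hsg1.le (by linarith only [hsg0, hsg1, q0])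
    have k2 : 0.0000096 * ev uM a ≤ 0.0000096 * 2.12 := mul_le_mul_of_nonneg_left (by linarith only [hM1]) (by norm_num)
    have k3 : (ev uC a + ev uX a) / 2.665784 = ev uC a / 2.665784 + ev uX a / 2.665784 := add_div _ _ _
    norm_num at k2 hI hV ⊢
    linarith only [hsg0, hsg1, hM1, k1, hI, hV]
  have hM : 0 ≤ 0.521684 + ev uM a := by linarith only [hsg0, hsg1, hM0]
  have k1 : (P.Y - a) * (q * (0.521684 + ev uM a)) ≤ ev uQ a * (0.521684 + ev uM a) := by
    have := mul_le_mul_of_nonneg_right hqQ hM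
    linarith only [this]
  have k2 : (2.543961 - a) * ev uZ a ≤ (P.Y - a) * ev uZ a :=
    mul_le_mul_of_nonneg_right (by linarith only [hY1]) hZ0
  have k3 : (P.Y - a) * (q * (0.521684 + ev uM a)) ≤ (P.Y - a) * ev uZ a := by linarith only [hP0, k1, k2]
  have k4 : q * (0.521684 + ev uM a) ≤ ev uZ a := le_of_mul_le_mul_left k3 hYa
  have k5 : (a + P.e0) ^ 2 ≤ (a + 0.121819) ^ 2 := pow_le_pow_left₀ (by linarith only [ha, he, hsg0, hsg1]) (by linarith only [he']) 2
  rw [eZ] at k4
  linarith only [hsg0, hsg1, hpsi, hU, k4, k5]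

end Pool.Agent.CDk.Par
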