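import Pool.Agent.CDk.D.D0
import Pool.Agent.CDk.D.PT
import Pool.Agent.CDk.D.ZC
import Pool.Agent.CDk.Defs
import Pool.Agent.CDk.ENC
import Pool.Agent.CDk.FNa
import Pool.Agent.CDk.FNb
import Pool.Agent.CDk.U1a

/-!
# ZU1: weighted norm of the first variation of `UN - psi`

Values of the left side `B` and of the bound:
a     0      .05    .1     .15    .2     .25    .3     .35    .4     .45
B     .1929  .2784  .3680  .4621  .5610  .6651  .7751  .8913  1.0144 1.1452
bound .2014  .2914  .3856  .4841  .5869  .6938  .8051  .9205  1.0403 1.1642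
(`∫_0^{c-a} mb` decreases from 2.1094 to 1.9549.) All kernels are nonnegative, and
`B = (sg + ∫_0^{c-a} mb)/(Y-a) ∫_0^a w + ∫_0^a w cosh(s-a+y) + ∫_a^c w mb(y-a) - ∫_0^{ρ-e0} w mb(y+e0)`
with `∫_0^a w = a^3`; one polynomial inequality in `a`, with the upper bound `1.5625 + 0.442 a` of `c`.
-/

open MeasureTheory Set Filter Topology

namespace Pool.Agent.CDk.Par
variable {P : Par}

open Pool.Agent.CDk.PT

private theorem u1_mb (h : P.Star) {v : ℝ} (h0 : 0 ≤ v) (h1 : v ≤ 1.563) :
    |P.mb v - ev lM (1.6400875 - v)| ≤ 0.0004 := by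
  rcases le_total v 1.51828 with h2 | h2
  · exact (mb_apx h h0 h2).trans (by norm_num)
  · exact mb_apx2 h (by linarith only [h2]) h1

/-! ### the kernel is nonnegative -/

private def vA : List ℚ := padd [-0.0004] lM
private def vc : List ℚ := [1.5615, 0.38]
private def vM : List ℚ := padd (conv 6 vA [1] (padd [1.6400875, 1] (psm (-1) vc)) vc)
  (psm (-1) (conv 6 vA [1] [1.6400875] [0, 1]))
private def vP : List ℚ := padd (padd [0.52168] vM) (psm (-1) (pmul [2.543965, -1]
  (padd [1.041] (psm (-1/2) (pmul [0.500519, -1] [0.500519, -1])))))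

private theorem vP_chk : chk vP 0 4 0 (45/100) = true := by decide +kernel

private theorem u1_S_lo (h : P.Star) {a c : ℝ} (ha : 0 ≤ a) (ha1 : a ≤ 0.45)
    (hc : P.io c = P.qN a P.io) : ev vM a ≤ ∫ v in (0:ℝ)..(c - a), P.mb v := by
  obtain ⟨c1, c2⟩ := crossN_bd h ha ha1 hc
  have hmb := mb_cont h
  have hsq := sq_nonneg a
  have hc' : ev vc a = 1.5615 + 0.38 * a := by
    rw [vc, ev_lin]; push_cast; norm_num
  set c' := 1.5615 + 0.38 * a with hcd
  have hK : Continuous fun y => P.mb (y - a) := hmb.comp (continuous_id.sub continuous_const)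
  have hA : Continuous fun y => ev vA (1.6400875 + a - y) * ev [1] y :=
    ((ev_cont vA).comp (continuous_const.sub continuous_id)).mul (ev_cont [1])
  have e0 : ∫ v in (0:ℝ)..(c - a), P.mb v = ∫ y in a..c, P.mb (y - a) := by
    rw [intervalIntegral.integral_comp_sub_right (fun v => P.mb v) a, sub_self]
  have e1 : ∫ y in a..c', P.mb (y - a) ≤ ∫ y in a..c, P.mb (y - a) := by
    rw [← intervalIntegral.integral_add_adjacent_intervals (hK.intervalIntegrable a c')
      (hK.intervalIntegrable c' c)]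
    have := intervalIntegral.integral_nonneg (μ := volume) (a := c') (b := c) (by linarith only [hsq, c1])
      (f := fun y => P.mb (y - a)) (fun y hy => mb_nonneg h (by linarith only [hy.1, ha1, hcd, hy]))
    linarith only [this]
  have e2 : ∫ y in a..c', ev vA (1.6400875 + a - y) * ev [1] y ≤ ∫ y in a..c', P.mb (y - a) := by
    refine intervalIntegral.integral_mono_on (by linarith only [ha1, hcd]) (hA.intervalIntegrable _ _)
      (hK.intervalIntegrable _ _) ?_
    intro y hy
    have k1 := (abs_le.1 (u1_mb h (v := y - a) (by linarith only [hy.1, hy]) (by linarith only [hy.2, ha, hcd, hy]))).1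
    rw [show 1.6400875 - (y - a) = 1.6400875 + a - y by ring] at k1
    rw [vA, ev_padd, ev_const, ev_const]
    push_cast
    linarith only [k1]
  have e3 : ∫ y in a..c', ev vA (1.6400875 + a - y) * ev [1] y = ev vM a := by
    rw [cv_int (n := 6) (m := vA) (by rfl), vM, ev_padd, ev_psm, ev_conv, ev_conv, ev_padd, ev_psm, hc',
      ev_lin, ev_const, ev_lin]
    push_cast
    norm_num
    ring_nf
  rw [e0]
  linarith only [e1, e2, e3]

theorem kU_nonneg (h : P.Star) {a c y : ℝ} (ha : 0 ≤ a) (ha1 : a ≤ 0.45) (hc : P.io c = P.qN a P.io)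
    (hy : 0 ≤ y) (hya : y ≤ a) :
    0 ≤ (P.sg + ∫ v in (0:ℝ)..(c - a), P.mb v) / (P.Y - a) + Real.cosh (P.s - a + y) - P.mb (y + P.e0) := by
  have he := h.e_lo; have he' := h.e_hi; have hρ := h.ρ_lo; have hs := h.s_lo; have hs' := h.s_hi
  obtain ⟨hY1, hY2, hL1, hL2⟩ := Y_pos h
  obtain ⟨hsg0, hsg1⟩ := sg_bd h
  have hS := u1_S_lo h ha ha1 hc
  have hP := chk_sound _ _ _ vP_chk a (by push_cast; exact ha) (by push_cast; linarith only [ha1])
  have eP : ev vP a = 0.52168 + ev vM a - (2.543965 - a) * (1.041 - (0.500519 - a) ^ 2 / 2) := by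
    rw [vP, ev_padd, ev_padd, ev_psm, ev_pmul, ev_padd, ev_psm, ev_pmul, ev_lin, ev_lin, ev_const,
      ev_const]
    push_cast
    ring
  rw [eP] at hP
  push_cast at hP
  have k1 : P.mb (y + P.e0) ≤ 2.041 := by
    have k2 : P.mb (y + P.e0) ≤ P.mb 0.121818 := mb_anti h (by rw [mem_Ici]; norm_num)
      (by rw [mem_Ici]; linarith only [hy, he, hsg0, hsg1]) (by linarith only [hy, he])
    have k3 := (abs_le.1 (mb_apx h (v := 0.121818) (by norm_num) (by norm_num))).2
    have k4 : ev lM (1.6400875 - 0.121818) ≤ 2.0409 := by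
      rw [ev_lM]; unfold PM; norm_num
    linarith only [hsg0, hsg1, k2, k3, k4]
  have hz0 : 0 ≤ 0.500519 - a := by linarith only [ha1, hsg0, hsg1]
  have k2 : 1 + (0.500519 - a) ^ 2 / 2 ≤ Real.cosh (P.s - a + y) := by
    have k3 := cosh_ge hz0 (by linarith only [ha, hsg0, hsg1])
    have k4 : Real.cosh (0.500519 - a) ≤ Real.cosh (P.s - a + y) := by
      rw [Real.cosh_le_cosh, abs_of_nonneg hz0, abs_of_nonneg (by linarith only [ha1, hy, hs, hsg0, hsg1])]
      linarith only [hy, hs]
    have k5 : 0 ≤ (0.500519 - a) ^ 4 / 24 := by positivity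
    linarith only [k3, k4, k5]
  have hYa : 0 < P.Y - a := by linarith only [ha1, hY1, hsg0, hsg1]
  have hb : 0 ≤ 1.041 - (0.500519 - a) ^ 2 / 2 := by nlinarith only [ha, hsg0, hsg1, ha1]
  have k3 : 1.041 - (0.500519 - a) ^ 2 / 2 ≤ (P.sg + ∫ v in (0:ℝ)..(c - a), P.mb v) / (P.Y - a) := by
    rw [le_div_iff₀ hYa]
    have k4 : (1.041 - (0.500519 - a) ^ 2 / 2) * (P.Y - a) ≤
        (1.041 - (0.500519 - a) ^ 2 / 2) * (2.543965 - a) :=
      mul_le_mul_of_nonneg_left (by linarith only [hY2]) hb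
    linarith only [hsg0, hS, hP, k4]
  linarith only [k1, k2, k3]

/-! ### facts on `w` -/

private theorem u1_wc : Continuous w := by
  unfold w; fun_prop

private theorem u1_w0 (y : ℝ) : 0 ≤ w y := by
  unfold w
  have := le_max_right (y - 1.4) 0
  have h2 : 0 ≤ min (3 * y ^ 2) 1 := le_min (by positivity) (by norm_num)
  linarith only [this, h2]

private theorem u1_w1 {y : ℝ} (hy : y ≤ 1.4) : w y ≤ 3 * y ^ 2 ∧ w y ≤ 1 := by
  unfold w
  rw [max_eq_right (by linarith only [hy])]
  constructor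
  · linarith only [min_le_left (3 * y ^ 2) 1]
  · linarith [min_le_right (3 * y ^ 2) 1]

private theorem u1_w2 {y : ℝ} (hy : 1.4 ≤ y) : w y ≤ 1 + 4 * (y - 1.4) := by
  unfold w
  rw [max_eq_left (by linarith only [hy])]
  linarith only [min_le_right (3 * y ^ 2) 1]

private theorem u1_w3 {y : ℝ} (h0 : 0 ≤ y) (hy : y ≤ 0.5773) : w y = 3 * y ^ 2 := by
  unfold w
  rw [max_eq_right (by linarith only [hy]), min_eq_left (by nlinarith only [hy, h0])]
  ring

private theorem u1_w4 {y : ℝ} (hy : 0.5773 ≤ y) : 0.9998 ≤ w y := by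
  unfold w
  have h1 := le_max_right (y - 1.4) 0
  have h2 : 0.9998 ≤ min (3 * y ^ 2) 1 := le_min (by nlinarith only [hy]) (by norm_num)
  linarith only [h1, h2]

private theorem u1_w5 {y : ℝ} (hy : 0.6 ≤ y) : 4 * y - 4.6 ≤ w y := by
  unfold w
  have h1 := le_max_left (y - 1.4) 0
  have h2 : 1 ≤ min (3 * y ^ 2) 1 := le_min (by nlinarith only [hy]) le_rfl
  linarith only [h1, h2]

/-! ### the constant part -/

private def kA1 : List ℚ := padd [-0.000023] lM
private def kS : List ℚ := [0, 0, 1/2]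

private def kval : List ℚ :=
  padd (padd (padd (conv 6 kA1 [0, 0, 3] [1.518269 - 0.5773] [0.5773])
      (psm (-1) (conv 6 kA1 [0, 0, 3] [1.518269] [0])))
    (padd (conv 6 kA1 [0.9998] [1.518269 - 1.396452] [1.396452])
      (psm (-1) (conv 6 kA1 [0.9998] [1.518269 - 0.5773] [0.5773]))))
    (padd (conv 3 kS [-4.6, 4] [2.422142 - 1.518268] [1.518268])
      (psm (-1) (conv 3 kS [-4.6, 4] [2.422142 - 1.396452] [1.396452])))

private theorem kval_chk : chk (padd [-1.1919] kval) 0 0 0 0 = true := by decide +kernel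

private theorem u1_K0 (h : P.Star) :
    1.1919 ≤ ∫ y in (0:ℝ)..(P.ρ - P.e0), w y * P.mb (y + P.e0) := by
  have hρ := h.ρ_lo; have hρ' := h.ρ_hi; have he := h.e_lo; have he' := h.e_hi
  obtain ⟨hY1, hY2, hL1, hL2⟩ := Y_pos h
  have hmb := mb_cont h
  have hf : Continuous fun y => w y * P.mb (y + P.e0) :=
    u1_wc.mul (hmb.comp (continuous_id.add continuous_const))
  have hnn : ∀ y, 0 ≤ y → 0 ≤ w y * P.mb (y + P.e0) := fun y hy =>
    mul_nonneg (u1_w0 y) (mb_nonneg h (by linarith only [hρ, hρ', he, hy]))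
  have e2 : ∫ y in (0:ℝ)..1.518268, w y * P.mb (y + P.e0) ≤
      ∫ y in (0:ℝ)..(P.ρ - P.e0), w y * P.mb (y + P.e0) := by
    rw [← intervalIntegral.integral_add_adjacent_intervals (hf.intervalIntegrable 0 1.518268)
      (hf.intervalIntegrable 1.518268 (P.ρ - P.e0))]
    have := intervalIntegral.integral_nonneg (μ := volume) (a := 1.518268) (b := P.ρ - P.e0) (by linarith only [hρ, he'])
      (f := fun y => w y * P.mb (y + P.e0)) (fun y hy => hnn y (by linarith only [hy.1, hρ, hρ', hy]))
    linarith only [this]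
  have e3 : ∫ y in (0:ℝ)..1.518268, w y * P.mb (y + P.e0) =
      (∫ y in (0:ℝ)..0.5773, w y * P.mb (y + P.e0)) +
      (∫ y in (0.5773:ℝ)..1.396452, w y * P.mb (y + P.e0)) +
      ∫ y in (1.396452:ℝ)..1.518268, w y * P.mb (y + P.e0) := by
    rw [intervalIntegral.integral_add_adjacent_intervals (hf.intervalIntegrable _ _)
      (hf.intervalIntegrable _ _), intervalIntegral.integral_add_adjacent_intervals
      (hf.intervalIntegrable _ _) (hf.intervalIntegrable _ _)]
  have hM : ∀ y, 0 ≤ y → y ≤ 1.396452 → 0 ≤ ev kA1 (1.518269 - y) ∧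
      ev kA1 (1.518269 - y) ≤ P.mb (y + P.e0) := by
    intro y h0 h1
    have k1 := abs_le.1 (mb_apx h (v := y + P.e0) (by linarith only [hρ, hρ', he, h0]) (by linarith only [hρ, hρ', he', h1]))
    have k2 := abs_le.1 (U1n.PM_lip (x := 1.6400875 - (y + P.e0)) (y := 1.518269 - y)
      (by linarith only [hρ, hρ', he', h1]) (by linarith only [hρ, hρ', he, h0]) (by linarith only [hρ, hρ', h1]) (by linarith only [hρ, hρ', h0]))
    have k3 : |1.6400875 - (y + P.e0) - (1.518269 - y)| ≤ 0.0000006 := by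
      rw [abs_le]; constructor <;> linarith
    rw [ev_lM] at k1
    rw [kA1, ev_padd, ev_const, ev_lM]
    push_cast
    constructor
    · have k4 : 0.4 ≤ PM (1.518269 - y) := by
        have k5 := P.mb (y + P.e0)
        have k6 : P.mb 1.518271 ≤ P.mb (y + P.e0) := mb_anti h (by rw [mem_Ici]; linarith only [hρ, hρ', he, h0])
          (by rw [mem_Ici]; norm_num) (by linarith only [he', h1])
        have k7 := (abs_le.1 (mb_apx h (v := 1.518271) (by norm_num) (by norm_num))).1
        have k8 : 0.5 ≤ ev lM (1.6400875 - 1.518271) := by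
          rw [ev_lM]; unfold PM; norm_num
        linarith only [k1.2, k2.2, hρ, hρ', k1, k2, k3, k6, k7, k8]
      linarith only [hρ, hρ', k4]
    · linarith only [k1.1, k2.1, hρ, hρ', k1, k2, k3]
  have hM' : ∀ y, 0 ≤ y → y ≤ 1.396452 → 0 ≤ P.mb (y + P.e0) := fun y h0 _ =>
    mb_nonneg h (by linarith only [hρ, hρ', he, h0])
  have e4 : ∫ y in (0:ℝ)..0.5773, ev kA1 (1.518269 - y) * ev [0, 0, 3] y ≤
      ∫ y in (0:ℝ)..0.5773, w y * P.mb (y + P.e0) := by
    refine intervalIntegral.integral_mono_on (by norm_num)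
      ((((ev_cont kA1).comp (continuous_const.sub continuous_id)).mul (ev_cont _)).intervalIntegrable _ _)
      (hf.intervalIntegrable _ _) ?_
    intro y hy
    have k1 := hM y hy.1 (by linarith only [hy.2, hρ, hρ', hy])
    rw [u1_w3 hy.1 hy.2]
    have k2 : ev [0, 0, 3] y = 3 * y ^ 2 := by simp only [ev]; push_cast; ring
    rw [k2, mul_comm]
    exact mul_le_mul_of_nonneg_left k1.2 (by positivity)
  have e5 : ∫ y in (0.5773:ℝ)..1.396452, ev kA1 (1.518269 - y) * ev [0.9998] y ≤
      ∫ y in (0.5773:ℝ)..1.396452, w y * P.mb (y + P.e0) := by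
    refine intervalIntegral.integral_mono_on (by norm_num)
      ((((ev_cont kA1).comp (continuous_const.sub continuous_id)).mul (ev_cont _)).intervalIntegrable _ _)
      (hf.intervalIntegrable _ _) ?_
    intro y hy
    have k1 := hM y (by linarith only [hy.1, hρ, hρ', hy]) hy.2
    have k3 := u1_w4 hy.1
    rw [ev_const, mul_comm]
    push_cast
    exact mul_le_mul k3 k1.2 k1.1 (u1_w0 y)
  have e6 : ∫ y in (1.396452:ℝ)..1.518268, ev kS (2.422142 - y) * ev [-4.6, 4] y ≤
      ∫ y in (1.396452:ℝ)..1.518268, w y * P.mb (y + P.e0) := by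
    refine intervalIntegral.integral_mono_on (by norm_num)
      ((((ev_cont kS).comp (continuous_const.sub continuous_id)).mul (ev_cont _)).intervalIntegrable _ _)
      (hf.intervalIntegrable _ _) ?_
    intro y hy
    have k1 : P.mb (y + P.e0) = (P.Y - (y + P.e0)) ^ 2 / 2 := by
      rw [mb_out h (by linarith only [hy.1, hρ', he, hy]), max_eq_left (by linarith only [hy.2, hρ, hρ', he', hY1, hy])]
    have k2 : (2.422142 - y) ^ 2 ≤ (P.Y - (y + P.e0)) ^ 2 :=
      pow_le_pow_left₀ (by linarith only [hy.2, hρ, hρ', hy]) (by linarith only [he', hY1]) 2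
    have k3 : ev kS (2.422142 - y) = (2.422142 - y) ^ 2 / 2 := by
      simp only [kS, ev]; push_cast; ring
    have k4 := u1_w5 (y := y) (by linarith only [hy.1, hρ, hρ', hy])
    have k5 : ev [-4.6, 4] y = 4 * y - 4.6 := by simp only [ev]; push_cast; ring
    rw [k1, k3, k5, mul_comm]
    exact mul_le_mul k4 (by linarith only [k2]) (by positivity) (u1_w0 y)
  have e7 : 1.1919 ≤ (∫ y in (0:ℝ)..0.5773, ev kA1 (1.518269 - y) * ev [0, 0, 3] y) +
      (∫ y in (0.5773:ℝ)..1.396452, ev kA1 (1.518269 - y) * ev [0.9998] y) +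
      ∫ y in (1.396452:ℝ)..1.518268, ev kS (2.422142 - y) * ev [-4.6, 4] y := by
    rw [cv_int (n := 6) (m := kA1) (by rfl), cv_int (n := 6) (m := kA1) (by rfl),
      cv_int (n := 3) (m := kS) (by rfl)]
    have k := chk_sound _ _ _ kval_chk 0 (by simp) (by simp)
    rw [ev_padd, kval, ev_padd, ev_padd, ev_padd, ev_padd, ev_padd, ev_psm, ev_psm, ev_psm, ev_conv,
      ev_conv, ev_conv, ev_conv, ev_conv, ev_conv] at k
    simp only [ev_const] at k
    push_cast at k
    norm_num at k ⊢
    linarith only [k]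
  linarith only [e2, e3, e4, e5, e6, e7]

/-! ### the parts depending on `a` -/

private def wA : List ℚ := padd [0.0004] lM
private def wc : List ℚ := [1.5625, 0.442]
private def wX : List ℚ := padd [1.6400875, 1] (psm (-1) wc)
private def wM : List ℚ := padd (conv 6 wA [1] wX wc) (psm (-1) (conv 6 wA [1] [1.6400875] [0, 1]))
private def wB1 : List ℚ := padd (conv 6 wA [0, 0, 3] [1.6400875 - 0.5774, 1] [0.5774])
  (psm (-1) (conv 6 wA [0, 0, 3] [1.6400875] [0, 1]))
private def wB2 : List ℚ := padd (conv 6 wA [1] [1.6400875 - 1.4, 1] [1.4])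
  (psm (-1) (conv 6 wA [1] [1.6400875 - 0.5774, 1] [0.5774]))
private def wB3 : List ℚ := padd (conv 6 wA [-4.6, 4] wX wc)
  (psm (-1) (conv 6 wA [-4.6, 4] [1.6400875 - 1.4, 1] [1.4]))
private def wB : List ℚ := padd (padd wB1 wB2) wB3
private def wh : List ℚ := pcomp [1.0001, 0, 1/2, 0, 1/24] [0.500521, -1]
private def wC : List ℚ := padd (conv 6 wh [0, 0, 3] [] [0, 1]) (psm (-1) (conv 6 wh [0, 0, 3] [0, 1] []))
private def wR : List ℚ := padd (padd [1.1919] (padd (psm 1.55 [0.121818, 1])
  (psm 0.85 (pmul [0.121818, 1] [0.121818, 1])))) (psm (-1) (padd wC wB))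
private def wP : List ℚ := padd (pmul [2.543961, -1] wR) (psm (-1) (pmul [0, 0, 0, 1] (padd [0.521684] wM)))

private theorem wR_chk : chk wR 0 2 0 (45/100) = true := by decide +kernel
private theorem wP_chk : chk wP 0 2 0 (45/100) = true := by decide +kernel

private theorem u1_S_hi (h : P.Star) {a c : ℝ} (ha : 0 ≤ a) (ha1 : a ≤ 0.45)
    (hc : P.io c = P.qN a P.io) : ∫ v in (0:ℝ)..(c - a), P.mb v ≤ ev wM a := by
  obtain ⟨c1, c2⟩ := crossN_bd h ha ha1 hc
  have hmb := mb_cont h
  have hsq := sq_nonneg a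
  have hc' : ev wc a = 1.5625 + 0.442 * a := by
    rw [wc, ev_lin]; push_cast; norm_num
  set c' := 1.5625 + 0.442 * a with hcd
  have hK : Continuous fun y => P.mb (y - a) := hmb.comp (continuous_id.sub continuous_const)
  have hA : Continuous fun y => ev wA (1.6400875 + a - y) * ev [1] y :=
    ((ev_cont wA).comp (continuous_const.sub continuous_id)).mul (ev_cont [1])
  have e0 : ∫ v in (0:ℝ)..(c - a), P.mb v = ∫ y in a..c, P.mb (y - a) := by
    rw [intervalIntegral.integral_comp_sub_right (fun v => P.mb v) a, sub_self]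
  have e1 : ∫ y in a..c, P.mb (y - a) ≤ ∫ y in a..c', P.mb (y - a) := by
    rw [← intervalIntegral.integral_add_adjacent_intervals (hK.intervalIntegrable a c)
      (hK.intervalIntegrable c c')]
    have := intervalIntegral.integral_nonneg (μ := volume) (a := c) (b := c') (by linarith only [c2])
      (f := fun y => P.mb (y - a)) (fun y hy => mb_nonneg h (by linarith only [hy.1, ha1, c1, hsq, hy]))
    linarith only [this]
  have e2 : ∫ y in a..c', P.mb (y - a) ≤ ∫ y in a..c', ev wA (1.6400875 + a - y) * ev [1] y := by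
    refine intervalIntegral.integral_mono_on (by linarith only [ha1, hcd]) (hK.intervalIntegrable _ _)
      (hA.intervalIntegrable _ _) ?_
    intro y hy
    have k1 := (abs_le.1 (u1_mb h (v := y - a) (by linarith only [hy.1, hy]) (by linarith only [hy.2, ha, hcd, hy]))).2
    rw [show 1.6400875 - (y - a) = 1.6400875 + a - y by ring] at k1
    rw [wA, ev_padd, ev_const, ev_const]
    push_cast
    linarith only [k1]
  have e3 : ∫ y in a..c', ev wA (1.6400875 + a - y) * ev [1] y = ev wM a := by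
    rw [cv_int (n := 6) (m := wA) (by rfl), wM, wX, ev_padd, ev_psm, ev_conv, ev_conv, ev_padd, ev_psm,
      hc', ev_lin, ev_const, ev_lin]
    push_cast
    norm_num
    ring_nf
  rw [e0]
  linarith only [e1, e2, e3]

private theorem u1_cosh (h : P.Star) {a : ℝ} (ha : 0 ≤ a) (ha1 : a ≤ 0.45) :
    ∫ y in (0:ℝ)..a, w y * Real.cosh (P.s - a + y) ≤ ev wC a := by
  have hs := h.s_lo; have hs' := h.s_hi
  have hF : Continuous fun y => w y * Real.cosh (P.s - a + y) :=
    u1_wc.mul (Real.continuous_cosh.comp (continuous_const.add continuous_id))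
  have hB : Continuous fun y => ev wh (a - y) * ev [0, 0, 3] y :=
    ((ev_cont wh).comp (continuous_const.sub continuous_id)).mul (ev_cont _)
  have e1 : ∫ y in (0:ℝ)..a, w y * Real.cosh (P.s - a + y) ≤
      ∫ y in (0:ℝ)..a, ev wh (a - y) * ev [0, 0, 3] y := by
    refine intervalIntegral.integral_mono_on ha (hF.intervalIntegrable _ _)
      (hB.intervalIntegrable _ _) ?_
    intro y hy
    have hz0 : 0 ≤ 0.500521 - (a - y) := by linarith only [hy.1, ha1, hy]
    have hz1 : 0.500521 - (a - y) ≤ 0.500521 := by linarith only [hy.2, hy]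
    have k1 : ev wh (a - y) = 1.0001 + (0.500521 - (a - y)) ^ 2 / 2 + (0.500521 - (a - y)) ^ 4 / 24 := by
      rw [wh, ev_pcomp, ev_lin]
      simp only [ev]
      push_cast
      ring
    have k2 : Real.cosh (P.s - a + y) ≤ ev wh (a - y) := by
      rw [k1]
      refine le_trans ?_ (cosh_le hz0 (by linarith only [hz1]))
      rw [Real.cosh_le_cosh, abs_of_nonneg (by linarith only [hy.1, ha1, hs, hz0, hy]), abs_of_nonneg hz0]
      linarith only [hs']
    have k3 := (u1_w1 (y := y) (by linarith only [hy.2, ha1, hz1])).1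
    have k4 : ev [0, 0, 3] y = 3 * y ^ 2 := by simp only [ev]; push_cast; ring
    rw [k4, mul_comm (ev wh (a - y))]
    exact mul_le_mul k3 k2 (Real.cosh_pos _).le (by positivity)
  have e3 : ∫ y in (0:ℝ)..a, ev wh (a - y) * ev [0, 0, 3] y = ev wC a := by
    rw [cv_int (n := 6) (m := wh) (by rfl), wC, ev_padd, ev_psm, ev_conv, ev_conv, ev_lin]
    push_cast
    simp only [ev, zero_add, one_mul, sub_self, sub_zero]
    ring
  linarith only [e1, e3]

private theorem u1_B (h : P.Star) {a c : ℝ} (ha : 0 ≤ a) (ha1 : a ≤ 0.45)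
    (hc : P.io c = P.qN a P.io) : ∫ y in a..c, w y * P.mb (y - a) ≤ ev wB a := by
  obtain ⟨c1, c2⟩ := crossN_bd h ha ha1 hc
  have hmb := mb_cont h
  have hsq := sq_nonneg a
  have hc' : ev wc a = 1.5625 + 0.442 * a := by
    rw [wc, ev_lin]; push_cast; norm_num
  set c' := 1.5625 + 0.442 * a with hcd
  have hK : Continuous fun y => w y * P.mb (y - a) :=
    u1_wc.mul (hmb.comp (continuous_id.sub continuous_const))
  have hA : ∀ l : List ℚ, Continuous fun y => ev wA (1.6400875 + a - y) * ev l y := fun l =>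
    ((ev_cont wA).comp (continuous_const.sub continuous_id)).mul (ev_cont l)
  have e1 : ∫ y in a..c, w y * P.mb (y - a) ≤ ∫ y in a..c', w y * P.mb (y - a) := by
    rw [← intervalIntegral.integral_add_adjacent_intervals (hK.intervalIntegrable a c)
      (hK.intervalIntegrable c c')]
    have := intervalIntegral.integral_nonneg (μ := volume) (a := c) (b := c') (by linarith only [c2])
      (f := fun y => w y * P.mb (y - a))
      (fun y hy => mul_nonneg (u1_w0 y) (mb_nonneg h (by linarith only [hy.1, ha1, c1, hsq, hy])))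
    linarith only [this]
  have e2 : ∫ y in a..c', w y * P.mb (y - a) = (∫ y in a..0.5774, w y * P.mb (y - a)) +
      (∫ y in (0.5774:ℝ)..1.4, w y * P.mb (y - a)) + ∫ y in (1.4:ℝ)..c', w y * P.mb (y - a) := by
    rw [intervalIntegral.integral_add_adjacent_intervals (hK.intervalIntegrable _ _)
      (hK.intervalIntegrable _ _), intervalIntegral.integral_add_adjacent_intervals
      (hK.intervalIntegrable _ _) (hK.intervalIntegrable _ _)]
  have hM : ∀ y, a ≤ y → y ≤ c' → 0 ≤ P.mb (y - a) ∧ P.mb (y - a) ≤ ev wA (1.6400875 + a - y) := by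
    intro y h0 h1
    have k1 := (abs_le.1 (u1_mb h (v := y - a) (by linarith only [h0]) (by linarith only [ha, hcd, h1]))).2
    rw [show 1.6400875 - (y - a) = 1.6400875 + a - y by ring] at k1
    rw [wA, ev_padd, ev_const]
    push_cast
    exact ⟨mb_nonneg h (by linarith only [h0]), by linarith only [k1]⟩
  have e4 : ∫ y in a..0.5774, w y * P.mb (y - a) ≤
      ∫ y in a..0.5774, ev wA (1.6400875 + a - y) * ev [0, 0, 3] y := by
    refine intervalIntegral.integral_mono_on (by linarith only [ha1]) (hK.intervalIntegrable _ _)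
      ((hA _).intervalIntegrable _ _) ?_
    intro y hy
    have k1 := hM y hy.1 (by linarith only [hy.2, ha, hcd, hy])
    have k2 := (u1_w1 (y := y) (by linarith only [hy.2, hy])).1
    have k4 : ev [0, 0, 3] y = 3 * y ^ 2 := by simp only [ev]; push_cast; ring
    rw [k4, mul_comm (ev wA _)]
    exact mul_le_mul k2 k1.2 k1.1 (by positivity)
  have e5 : ∫ y in (0.5774:ℝ)..1.4, w y * P.mb (y - a) ≤
      ∫ y in (0.5774:ℝ)..1.4, ev wA (1.6400875 + a - y) * ev [1] y := by
    refine intervalIntegral.integral_mono_on (by norm_num) (hK.intervalIntegrable _ _)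
      ((hA _).intervalIntegrable _ _) ?_
    intro y hy
    have k1 := hM y (by linarith only [hy.1, ha1, hy]) (by linarith only [hy.2, ha, hcd, hy])
    have k2 := (u1_w1 (y := y) hy.2).2
    rw [ev_const, mul_comm (ev wA _)]
    push_cast
    exact mul_le_mul k2 k1.2 k1.1 (by norm_num)
  have e6 : ∫ y in (1.4:ℝ)..c', w y * P.mb (y - a) ≤
      ∫ y in (1.4:ℝ)..c', ev wA (1.6400875 + a - y) * ev [-4.6, 4] y := by
    refine intervalIntegral.integral_mono_on (by linarith only [ha, hcd]) (hK.intervalIntegrable _ _)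
      ((hA _).intervalIntegrable _ _) ?_
    intro y hy
    have k1 := hM y (by linarith only [hy.1, ha1, hy]) hy.2
    have k2 := u1_w2 (y := y) hy.1
    have k4 : ev [-4.6, 4] y = 1 + 4 * (y - 1.4) := by simp only [ev]; push_cast; ring
    rw [k4, mul_comm (ev wA _)]
    exact mul_le_mul k2 k1.2 k1.1 (by linarith only [hy.1, hy])
  have e7 : (∫ y in a..0.5774, ev wA (1.6400875 + a - y) * ev [0, 0, 3] y) = ev wB1 a := by
    rw [cv_int (n := 6) (m := wA) (by rfl), wB1, ev_padd, ev_psm, ev_conv, ev_conv, ev_lin, ev_lin,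
      ev_const, ev_const]
    push_cast
    norm_num
    ring_nf
  have e8 : (∫ y in (0.5774:ℝ)..1.4, ev wA (1.6400875 + a - y) * ev [1] y) = ev wB2 a := by
    rw [cv_int (n := 6) (m := wA) (by rfl), wB2, ev_padd, ev_psm, ev_conv, ev_conv, ev_lin, ev_lin,
      ev_const, ev_const]
    push_cast
    norm_num
    ring_nf
  have e9 : (∫ y in (1.4:ℝ)..c', ev wA (1.6400875 + a - y) * ev [-4.6, 4] y) = ev wB3 a := by
    rw [cv_int (n := 6) (m := wA) (by rfl), wB3, wX, ev_padd, ev_psm, ev_conv, ev_conv, ev_padd, ev_psm,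
      hc', ev_lin, ev_lin, ev_const]
    push_cast
    norm_num
    ring_nf
  rw [wB, ev_padd, ev_padd]
  linarith only [e1, e2, e4, e5, e6, e7, e8, e9]

private theorem u1_w_int {a : ℝ} (ha : 0 ≤ a) (ha1 : a ≤ 0.45) : ∫ y in (0:ℝ)..a, w y = a ^ 3 := by
  have e1 : ∫ y in (0:ℝ)..a, w y = ∫ y in (0:ℝ)..a, ev [0, 0, 3] y := by
    apply intervalIntegral.integral_congr
    intro y hy
    rw [uIcc_of_le ha] at hy
    have k1 := u1_w3 hy.1 (by linarith only [hy.2, ha1, hy])
    have k2 : ev [0, 0, 3] y = 3 * y ^ 2 := by simp only [ev]; push_cast; ring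
    exact k1.trans k2.symm
  rw [e1, ev_integral]
  simp only [pint, gint, ev]
  push_cast
  ring

theorem B1_N (h : P.Star) {a c : ℝ} (ha : 0 ≤ a) (ha1 : a ≤ 0.45) (hc : P.io c = P.qN a P.io) :
    (∫ y in (0:ℝ)..a, w y * ((P.sg + ∫ v in (0:ℝ)..(c - a), P.mb v) / (P.Y - a)
        + Real.cosh (P.s - a + y) - P.mb (y + P.e0)))
      + (∫ y in a..(P.ρ - P.e0), w y * (P.mb (y - a) - P.mb (y + P.e0)))
      + (∫ y in (P.ρ - P.e0)..c, w y * P.mb (y - a))
      ≤ 1.55 * (a + P.e0) + 0.85 * (a + P.e0)^2 := by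
  have he := h.e_lo; have he' := h.e_hi; have hρ := h.ρ_lo
  obtain ⟨hY1, hY2, hL1, hL2⟩ := Y_pos h
  obtain ⟨hsg0, hsg1⟩ := sg_bd h
  have hmb := mb_cont h
  have hS := u1_S_hi h ha ha1 hc
  have hC := u1_cosh h ha ha1
  have hB := u1_B h ha ha1 hc
  have hK := u1_K0 h
  set S := P.sg + ∫ v in (0:ℝ)..(c - a), P.mb v with hSd
  set r := P.ρ - P.e0
  have f1 : Continuous fun y => w y * Real.cosh (P.s - a + y) :=
    u1_wc.mul (Real.continuous_cosh.comp (continuous_const.add continuous_id))
  have f2 : Continuous fun y => w y * P.mb (y + P.e0) :=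
    u1_wc.mul (hmb.comp (continuous_id.add continuous_const))
  have f3 : Continuous fun y => w y * P.mb (y - a) :=
    u1_wc.mul (hmb.comp (continuous_id.sub continuous_const))
  have f4 : Continuous fun y => w y * (S / (P.Y - a)) := u1_wc.mul continuous_const
  have f5 : Continuous fun y => w y * (S / (P.Y - a)) + w y * Real.cosh (P.s - a + y) := f4.add f1
  have e1 : ∫ y in (0:ℝ)..a, w y * (S / (P.Y - a) + Real.cosh (P.s - a + y) - P.mb (y + P.e0)) =
      a ^ 3 * (S / (P.Y - a)) + (∫ y in (0:ℝ)..a, w y * Real.cosh (P.s - a + y))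
        - ∫ y in (0:ℝ)..a, w y * P.mb (y + P.e0) := by
    rw [← u1_w_int ha ha1, ← intervalIntegral.integral_mul_const,
      ← intervalIntegral.integral_add (f4.intervalIntegrable _ _) (f1.intervalIntegrable _ _),
      ← intervalIntegral.integral_sub (f5.intervalIntegrable _ _) (f2.intervalIntegrable _ _)]
    congr 1
    funext y
    ring
  have e2 : ∫ y in a..r, w y * (P.mb (y - a) - P.mb (y + P.e0)) =
      (∫ y in a..r, w y * P.mb (y - a)) - ∫ y in a..r, w y * P.mb (y + P.e0) := by
    rw [← intervalIntegral.integral_sub (f3.intervalIntegrable _ _) (f2.intervalIntegrable _ _)]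
    congr 1
    funext y
    ring
  have e3 := intervalIntegral.integral_add_adjacent_intervals (f3.intervalIntegrable a r)
    (f3.intervalIntegrable r c) (μ := volume)
  have e4 := intervalIntegral.integral_add_adjacent_intervals (f2.intervalIntegrable 0 a)
    (f2.intervalIntegrable a r) (μ := volume)
  have hR := chk_sound _ _ _ wR_chk a (by push_cast; exact ha) (by push_cast; linarith only [ha1])
  have hP := chk_sound _ _ _ wP_chk a (by push_cast; exact ha) (by push_cast; linarith only [ha1])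
  have eR : ev wR a = 1.1919 + (1.55 * (a + 0.121818) + 0.85 * (a + 0.121818) ^ 2)
      - (ev wC a + ev wB a) := by
    rw [wR, ev_padd, ev_padd, ev_padd, ev_psm, ev_psm, ev_psm, ev_pmul, ev_padd, ev_lin, ev_const]
    push_cast
    ring
  have eP : ev wP a = (2.543961 - a) * ev wR a - a ^ 3 * (0.521684 + ev wM a) := by
    rw [wP, ev_padd, ev_psm, ev_pmul, ev_pmul, ev_padd, ev_lin, ev_const]
    simp only [ev]
    push_cast
    ring
  rw [eP] at hP
  push_cast at hR hP
  have hYa : 0 < P.Y - a := by linarith only [ha1, hY1, hsg0, hsg1]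
  have k1 : a ^ 3 * (S / (P.Y - a)) ≤ ev wR a := by
    rw [← mul_div_assoc, div_le_iff₀ hYa]
    have k2 : a ^ 3 * S ≤ a ^ 3 * (0.521684 + ev wM a) :=
      mul_le_mul_of_nonneg_left (by rw [hSd]; linarith only [hsg1, hS]) (by positivity)
    have k3 : ev wR a * (2.543961 - a) ≤ ev wR a * (P.Y - a) :=
      mul_le_mul_of_nonneg_left (by linarith only [hY1]) hR
    linarith only [hP, k2, k3]
  have k2 : (a + 0.121818) ^ 2 ≤ (a + P.e0) ^ 2 := pow_le_pow_left₀ (by linarith only [ha, hsg0, hsg1]) (by linarith only [he]) 2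
  rw [e1, e2]
  rw [eR] at k1
  linarith only [he, hC, hB, hK, e3, e4, k1, k2]

end Pool.Agent.CDk.Par
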