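import Pool.Agent.CDk.D.D0
import Pool.Agent.CDk.D.NRM
import Pool.Agent.CDk.D.POTNa
import Pool.Agent.CDk.D.ZC
import Pool.Agent.CDk.D.ZHl
import Pool.Agent.CDk.D.ZHm
import Pool.Agent.CDk.D.ZHs
import Pool.Agent.CDk.D.ZK
import Pool.Agent.CDk.D.ZN
import Pool.Agent.CDk.D.ZSO
import Pool.Agent.CDk.D.ZU0
import Pool.Agent.CDk.D.ZU1
import Pool.Agent.CDk.Defs
import Pool.Agent.CDk.FNa
import Pool.Agent.CDk.FNb
import Pool.Agent.CDk.Ker
import Pool.Agent.CDk.POT1
import Pool.Agent.CDk.POT2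
import Pool.Agent.CDk.POT3
import Pool.Agent.CDk.PS

/-!
# POTN: the potential in zone N
-/

open MeasureTheory Set Filter Topology

namespace Pool.Agent.CDk.Par
variable {P : Par}

theorem gN_cont {a : ℝ} {i : ℝ → ℝ} (hi : Continuous i) : Continuous (P.gN a i) := by
  unfold gN
  fun_prop

/-- `VN a i - VN a io` -/
theorem VN_sub (h : P.Star) {a : ℝ} {i : ℝ → ℝ} (hi : Continuous i) :
    P.VN a i - P.VN a P.io = -(P.sg * ((∫ y in (0:ℝ)..a, (i y - P.io y)) / (P.Y - a)))
      - ∫ y in (0:ℝ)..a, Real.cosh (P.s - a + y) * (i y - P.io y) := by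
  have hio := io_cont h
  have e1 : ∫ y in (0:ℝ)..a, (i y - P.io y) = (∫ y in (0:ℝ)..a, i y) - ∫ y in (0:ℝ)..a, P.io y :=
    intervalIntegral.integral_sub (hi.intervalIntegrable _ _) (hio.intervalIntegrable _ _)
  have e2 : ∫ y in (0:ℝ)..a, Real.cosh (P.s - a + y) * (i y - P.io y)
      = (∫ y in (0:ℝ)..a, Real.cosh (P.s - a + y) * i y)
        - ∫ y in (0:ℝ)..a, Real.cosh (P.s - a + y) * P.io y := by
    rw [← intervalIntegral.integral_sub (Continuous.intervalIntegrable (by fun_prop) _ _)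
      (Continuous.intervalIntegrable (by fun_prop) _ _)]
    apply intervalIntegral.integral_congr
    intro y _
    simp only
    ring
  rw [e1, e2]
  unfold VN qN
  ring

theorem phi_sub {a : ℝ} {i j φ : ℝ → ℝ} (hi : Continuous i) (hj : Continuous j) (hφ : Continuous φ) :
    (∫ v in (0:ℝ)..P.Y, φ v * (P.gN a i v - P.gN a j v))
      = (∫ v in (0:ℝ)..P.Y, φ v * P.gN a i v) - ∫ v in (0:ℝ)..P.Y, φ v * P.gN a j v := by
  have h1 : Continuous (P.gN a i) := gN_cont hi
  have h2 : Continuous (P.gN a j) := gN_cont hj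
  rw [← intervalIntegral.integral_sub (Continuous.intervalIntegrable (by fun_prop) _ _)
      (Continuous.intervalIntegrable (by fun_prop) _ _)]
  apply intervalIntegral.integral_congr
  intro y _
  simp only
  ring

theorem UN_split (h : P.Star) {δ a c S : ℝ} {i : ℝ → ℝ} (hδ : 0 ≤ δ) (hi : P.Tube δ i) (ha : 0 ≤ a)
    (ha1 : a ≤ 0.45) (hc : P.io c = P.qN a P.io)
    (hS : |(∫ v in (0:ℝ)..P.Y, P.mb v * (P.gN a i v - P.gN a P.io v))
      + (∫ v in (0:ℝ)..(c - a), P.mb v) * ((∫ y in (0:ℝ)..a, (i y - P.io y)) / (P.Y - a))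
      + ∫ y in a..c, P.mb (y - a) * (i y - P.io y)| ≤ S) :
    P.UN a i - P.psi i ≤ P.UN a P.io - P.psi P.io
      + δ * (1.55 * (a + P.e0) + 0.85 * (a + P.e0)^2) + S := by
  have hii := hi.cont
  have hio := io_cont h
  have hmb := mb_cont h
  have hw := pw_cont
  obtain ⟨c1, c2⟩ := crossN_bd h ha ha1 hc
  have hρ := h.ρ_lo
  have hρ' := h.ρ_hi
  have he := h.e_lo
  have he' := h.e_hi
  have hY := Y_pos h
  have hc22 : c ≤ 2.2 := by linarith only [ha1, c2, hρ, hρ']
  have hcρ : P.ρ - P.e0 ≤ c := by nlinarith only [ha, c1, hρ, hρ', he]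
  set A := ∫ v in (0:ℝ)..(c - a), P.mb v with hA
  set J := ∫ y in (0:ℝ)..a, (i y - P.io y) with hJ
  set b := P.ρ - P.e0 with hb
  have hab : a ≤ b := by simp only [hb]; linarith only [ha1, hρ, hρ', he']
  -- differences
  have e1 : P.UN a i - P.UN a P.io = (P.VN a i - P.VN a P.io)
      + ∫ v in (0:ℝ)..P.Y, P.mb v * (P.gN a i v - P.gN a P.io v) := by
    rw [phi_sub hii hio hmb]
    unfold UN
    ring
  have e2 : P.psi P.io - P.psi i = ∫ y in (0:ℝ)..b, P.mb (y + P.e0) * (i y - P.io y) := by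
    unfold psi
    have : (∫ y in (0:ℝ)..b, P.mb (y + P.e0) * (i y - P.io y))
        = (∫ y in (0:ℝ)..b, P.mb (y + P.e0) * i y)
          - ∫ y in (0:ℝ)..b, P.mb (y + P.e0) * P.io y := by
      rw [← intervalIntegral.integral_sub
        (Continuous.intervalIntegrable (by fun_prop) _ _) (Continuous.intervalIntegrable (by fun_prop) _ _)]
      apply intervalIntegral.integral_congr
      intro y _
      simp only
      ring
    rw [this]; ring
  rw [VN_sub h hii, ← hJ] at e1
  -- splitting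
  have s1 : (∫ y in (0:ℝ)..b, P.mb (y + P.e0) * (i y - P.io y))
      = (∫ y in (0:ℝ)..a, P.mb (y + P.e0) * (i y - P.io y)) + ∫ y in a..b, P.mb (y + P.e0) * (i y - P.io y) := by
    rw [intervalIntegral.integral_add_adjacent_intervals] <;>
      exact Continuous.intervalIntegrable (by fun_prop) _ _
  have s2 : (∫ y in a..c, P.mb (y - a) * (i y - P.io y))
      = (∫ y in a..b, P.mb (y - a) * (i y - P.io y)) + ∫ y in b..c, P.mb (y - a) * (i y - P.io y) := by
    rw [intervalIntegral.integral_add_adjacent_intervals] <;>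
      exact Continuous.intervalIntegrable (by fun_prop) _ _
  -- first piece
  have t1 : -(P.sg * (J / (P.Y - a))) - (∫ y in (0:ℝ)..a, Real.cosh (P.s - a + y) * (i y - P.io y))
      - A * (J / (P.Y - a)) + (∫ y in (0:ℝ)..a, P.mb (y + P.e0) * (i y - P.io y))
      ≤ δ * ∫ y in (0:ℝ)..a, w y * ((P.sg + A) / (P.Y - a) + Real.cosh (P.s - a + y) - P.mb (y + P.e0)) := by
    have f1 : -(P.sg * (J / (P.Y - a))) - A * (J / (P.Y - a))
        = ∫ y in (0:ℝ)..a, -((P.sg + A) / (P.Y - a)) * (i y - P.io y) := by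
      rw [intervalIntegral.integral_const_mul, ← hJ]; ring
    have f2 : -(P.sg * (J / (P.Y - a))) - (∫ y in (0:ℝ)..a, Real.cosh (P.s - a + y) * (i y - P.io y))
      - A * (J / (P.Y - a)) + (∫ y in (0:ℝ)..a, P.mb (y + P.e0) * (i y - P.io y))
      = ∫ y in (0:ℝ)..a, -(((P.sg + A) / (P.Y - a) + Real.cosh (P.s - a + y) - P.mb (y + P.e0)) * (i y - P.io y)) := by
      have f3 : -(P.sg * (J / (P.Y - a))) - (∫ y in (0:ℝ)..a, Real.cosh (P.s - a + y) * (i y - P.io y))
        - A * (J / (P.Y - a)) + (∫ y in (0:ℝ)..a, P.mb (y + P.e0) * (i y - P.io y))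
        = ((∫ y in (0:ℝ)..a, -((P.sg + A) / (P.Y - a)) * (i y - P.io y))
          - (∫ y in (0:ℝ)..a, Real.cosh (P.s - a + y) * (i y - P.io y)))
          + (∫ y in (0:ℝ)..a, P.mb (y + P.e0) * (i y - P.io y)) := by
        rw [← f1]; ring
      rw [f3, ← intervalIntegral.integral_sub
        (Continuous.intervalIntegrable (by fun_prop) _ _) (Continuous.intervalIntegrable (by fun_prop) _ _),
        ← intervalIntegral.integral_add
        (Continuous.intervalIntegrable (by fun_prop) _ _) (Continuous.intervalIntegrable (by fun_prop) _ _)]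
      apply intervalIntegral.integral_congr
      intro y _
      simp only
      ring
    rw [f2, ← intervalIntegral.integral_const_mul]
    apply intervalIntegral.integral_mono_on ha
      (Continuous.intervalIntegrable (by fun_prop) _ _) (Continuous.intervalIntegrable (by fun_prop) _ _)
    intro y hy
    have h1 := hi.close y hy.1 (by linarith only [hy.2, ha1, hρ, hρ', hy])
    have h2 := kU_nonneg h ha ha1 hc hy.1 hy.2
    rw [← hA] at h2
    nlinarith only [abs_le.mp h1, hρ, hρ', h2, h1]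
  have t2 : -(∫ y in a..b, P.mb (y - a) * (i y - P.io y)) + (∫ y in a..b, P.mb (y + P.e0) * (i y - P.io y))
      ≤ δ * ∫ y in a..b, w y * (P.mb (y - a) - P.mb (y + P.e0)) := by
    rw [← intervalIntegral.integral_neg, ← intervalIntegral.integral_add
      (Continuous.intervalIntegrable (by fun_prop) _ _) (Continuous.intervalIntegrable (by fun_prop) _ _),
      ← intervalIntegral.integral_const_mul]
    apply intervalIntegral.integral_mono_on hab
      (Continuous.intervalIntegrable (by fun_prop) _ _) (Continuous.intervalIntegrable (by fun_prop) _ _)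
    intro y hy
    have h1 := hi.close y (by linarith only [hy.1, ha, hy]) (by linarith only [hy.2, hρ, hρ', he, hy])
    have h2 : 0 ≤ P.mb (y - a) - P.mb (y + P.e0) := by
      have := mb_anti h (mem_Ici.mpr (by linarith only [hy.1, hy] : (0:ℝ) ≤ y - a))
        (mem_Ici.mpr (by linarith only [hy.1, ha, hρ, hρ', he, hy] : (0:ℝ) ≤ y + P.e0)) (by linarith only [ha, hρ, hρ', he])
      linarith only [this]
    nlinarith only [abs_le.mp h1, hρ, hρ', h2, h1]
  have t3 : -(∫ y in b..c, P.mb (y - a) * (i y - P.io y)) ≤ δ * ∫ y in b..c, w y * P.mb (y - a) := by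
    rw [← intervalIntegral.integral_neg, ← intervalIntegral.integral_const_mul]
    apply intervalIntegral.integral_mono_on hcρ
      (Continuous.intervalIntegrable (by fun_prop) _ _) (Continuous.intervalIntegrable (by fun_prop) _ _)
    intro y hy
    have h1 := hi.close y (by linarith only [hy.1, hρ, hρ', he', hy]) (by linarith only [hy.2, ha1, c2, hρ, hρ', hy])
    have h2 : 0 ≤ P.mb (y - a) := mb_nonneg h (by linarith only [hy.1, ha1, hρ, hρ', he', hy])
    nlinarith only [abs_le.mp h1, hρ, hρ', h2, h1]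
  have hB := mul_le_mul_of_nonneg_left (B1_N h ha ha1 hc) hδ
  rw [← hA, ← hb] at hB
  have hS' := (abs_le.mp hS).2
  rw [s2] at hS'
  rw [s1] at e2
  nlinarith only [e1, e2, t1, t2, t3, hB, hS']

theorem kA_cont {a c r : ℝ} : Continuous (P.kA a c r) := by
  unfold kA
  fun_prop

theorem HN_split (h : P.Star) {δ a c r S : ℝ} {i : ℝ → ℝ} (hδ : 0 ≤ δ) (hi : P.Tube δ i) (ha : 0 ≤ a)
    (ha1 : a ≤ 0.45) (hc : P.io c = P.qN a P.io) (hr : 0 ≤ r) (hr1 : r ≤ 2.2)
    (hS : |(∫ v in (0:ℝ)..P.Y, P.ker r v * (P.gN a i v - P.gN a P.io v))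
      + (∫ v in (0:ℝ)..(c - a), P.ker r v) * ((∫ y in (0:ℝ)..a, (i y - P.io y)) / (P.Y - a))
      + ∫ y in a..c, P.ker r (y - a) * (i y - P.io y)| ≤ S) :
    |P.IN a i r - P.io r * P.NN a i| ≤ |P.IN a P.io r - P.io r * P.NN a P.io| + δ * P.TN a c r + S := by
  have hii := hi.cont
  have hio := io_cont h
  have hk : Continuous (P.ker r) := pker_cont
  have hkA : Continuous (P.kA a c r) := kA_cont
  have hw := pw_cont
  obtain ⟨c1, c2⟩ := crossN_bd h ha ha1 hc
  have hY := Y_pos h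
  have hc22 : c ≤ 2.2 := by linarith only [ha1, c2, hY]
  have hac : a ≤ c := by nlinarith only [ha1, c1, hY]
  set A := ∫ v in (0:ℝ)..(c - a), P.ker r v with hA
  set J := ∫ y in (0:ℝ)..a, (i y - P.io y) with hJ
  have e1 : (P.IN a i r - P.io r * P.NN a i) - (P.IN a P.io r - P.io r * P.NN a P.io)
      = (∫ v in (0:ℝ)..P.Y, P.ker r v * (P.gN a i v - P.gN a P.io v)) - P.io r * (P.VN a i - P.VN a P.io) := by
    rw [IN_ker h hii ha ha1 hr hr1, IN_ker h hio ha ha1 hr hr1, phi_sub hii hio hk]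
    ring
  rw [VN_sub h hii, ← hJ] at e1
  have e2 : (∫ y in (0:ℝ)..a, P.kA a c r y * (i y - P.io y))
      = P.io r * (P.sg * (J / (P.Y - a))) + P.io r * (∫ y in (0:ℝ)..a, Real.cosh (P.s - a + y) * (i y - P.io y))
        - A * (J / (P.Y - a)) := by
    have f1 : P.io r * (P.sg * (J / (P.Y - a))) + P.io r * (∫ y in (0:ℝ)..a, Real.cosh (P.s - a + y) * (i y - P.io y))
        - A * (J / (P.Y - a)) = (P.io r * P.sg / (P.Y - a) - A / (P.Y - a)) * J
        + P.io r * (∫ y in (0:ℝ)..a, Real.cosh (P.s - a + y) * (i y - P.io y)) := by ring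
    rw [f1, hJ, ← intervalIntegral.integral_const_mul, ← intervalIntegral.integral_const_mul,
      ← intervalIntegral.integral_add
      (Continuous.intervalIntegrable (by fun_prop) _ _) (Continuous.intervalIntegrable (by fun_prop) _ _)]
    apply intervalIntegral.integral_congr
    intro y _
    simp only [kA, ← hA]
    ring
  have t1 : |∫ y in (0:ℝ)..a, P.kA a c r y * (i y - P.io y)| ≤ δ * ∫ y in (0:ℝ)..a, |P.kA a c r y| * w y := by
    rw [← intervalIntegral.integral_const_mul]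
    refine (intervalIntegral.abs_integral_le_integral_abs ha).trans ?_
    apply intervalIntegral.integral_mono_on ha
      (Continuous.intervalIntegrable (by fun_prop) _ _) (Continuous.intervalIntegrable (by fun_prop) _ _)
    intro y hy
    have h1 := hi.close y hy.1 (by linarith only [hy.2, ha1, hY, hy])
    rw [abs_mul]
    nlinarith only [abs_nonneg (P.kA a c r y), hY, h1]
  have t2 : |∫ y in a..c, P.ker r (y - a) * (i y - P.io y)| ≤ δ * ∫ y in a..c, |P.ker r (y - a)| * w y := by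
    rw [← intervalIntegral.integral_const_mul]
    refine (intervalIntegral.abs_integral_le_integral_abs hac).trans ?_
    apply intervalIntegral.integral_mono_on hac
      (Continuous.intervalIntegrable (by fun_prop) _ _) (Continuous.intervalIntegrable (by fun_prop) _ _)
    intro y hy
    have h1 := hi.close y (by linarith only [hy.1, ha, hy]) (by linarith only [hy.2, ha1, c2, hY, hy])
    rw [abs_mul]
    nlinarith only [abs_nonneg (P.ker r (y - a)), hY, h1]
  have hT : P.TN a c r = (∫ y in (0:ℝ)..a, |P.kA a c r y| * w y) + ∫ y in a..c, |P.ker r (y - a)| * w y := rfl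
  have b1 := abs_le.mp t1
  have b2 := abs_le.mp t2
  have b3 := abs_le.mp hS
  have b4 := neg_abs_le (P.IN a P.io r - P.io r * P.NN a P.io)
  have b5 := le_abs_self (P.IN a P.io r - P.io r * P.NN a P.io)
  rw [hT]
  rw [abs_le]
  constructor <;> nlinarith

theorem HTall (h : P.Star) {a c r : ℝ} (ha : 0 ≤ a) (ha1 : a ≤ 0.45) (hc : P.io c = P.qN a P.io)
    (hr : 0 < r) (hr1 : r ≤ 2.2) :
    |P.IN a P.io r - P.io r * P.NN a P.io| ≤ 0.0295 * (a + P.e0) * w r ∧
    |P.IN a P.io r - P.io r * P.NN a P.io| + 0.03 * P.TN a c r ≤ (0.0295 * (a + P.e0) + 0.0051) * w r := by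
  rcases le_total r 0.58 with h1 | h1
  · exact HTs h ha ha1 hc hr h1
  rcases le_total r 1.65 with h2 | h2
  · exact HTm h ha ha1 hc h1 h2
  · exact HTl h ha ha1 hc h2 hr1

/-- the potential in zone N -/
theorem potN (h : P.Star) {a δ : ℝ} {i : ℝ → ℝ} (ha : 0 ≤ a) (ha1 : a ≤ 0.45) (hδ : 0 ≤ δ)
    (hδ1 : δ ≤ 0.03) (hi : P.Tube δ i) : ∃ δ', 0 ≤ δ' ∧ δ' ≤ 0.03 ∧
      (∀ r, 0 ≤ r → r ≤ 2.2 → |P.IN a i r - P.io r * P.NN a i| ≤ δ' * w r * P.NN a i) ∧
      0 < P.UN a i ∧ 0 < P.NN a i ∧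
      Real.log (P.UN a i) + 50 * δ'^2 ≤ Real.log (P.psi i) + 50 * δ^2 - 0.0003 := by
  have hii := hi.cont
  have hio := io_cont h
  have he := h.e_lo
  have he' := h.e_hi
  have hY := Y_pos h
  obtain ⟨c, hc⟩ := crossN h ha ha1
  obtain ⟨c1, c2⟩ := crossN_bd h ha ha1 hc
  have hW := wN_bd h ha ha1 hc
  obtain ⟨m1, m2⟩ := mbN_bd h ha ha1 hc
  have hW0 : 0 ≤ P.WN a c := by
    unfold WN
    have h1 := pw_nonneg c
    have h2 : 0 ≤ ∫ y in (0:ℝ)..a, w y := intervalIntegral.integral_nonneg ha (fun y _ => pw_nonneg y)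
    have h3 : 0 ≤ P.Y - a := by linarith only [ha1, he, he', hY]
    positivity
  have hW2 : (P.WN a c)^2 ≤ (1.655 + 1.86 * a)^2 := pow_le_pow_left₀ hW0 hW 2
  have hca : 1.3 ≤ c - a := by nlinarith only [ha1, c1]
  have hψ0 := psi_io h
  have hψ1 := abs_le.mp (psi_near h hδ hi)
  have hψlo : 0.7956 ≤ P.psi i := by linarith only [hδ1, hψ0, hψ1]
  have hψhi : P.psi i ≤ 0.8678 := by linarith only [hδ1, hψ0, hψ1]
  have hψpos : 0 < P.psi i := by linarith only [hδ1, he, he', hψ0, hψ1]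
  -- U
  have hSU := second_orderN h (φ := P.mb) (Φ₁ := 0.4866 + 0.6 * a) (Φ₂ := 1.35 * (0.4866 + 0.6 * a))
    (Φ := 1.72 * (0.4866 + 0.6 * a)) hδ hδ1 hi ha ha1 hc (mb_cont h)
    (fun v h1 h2 => by
      rw [abs_of_nonneg (mb_nonneg h (by linarith only [he, he', hca, h1]))]
      exact (mb_anti h (mem_Ici.mpr (by linarith only [he, he', hca] : (0:ℝ) ≤ c - a)) (mem_Ici.mpr (by linarith only [he, he', hca, h1])) h1).trans m1)
    (fun v h1 h2 => by
      rw [abs_of_nonneg (mb_nonneg h (by linarith only [he, he', hca, h1]))]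
      exact (mb_anti h (mem_Ici.mpr (by linarith only [he, he', hca] : (0:ℝ) ≤ c - a - 0.16)) (mem_Ici.mpr (by linarith only [he, he', hca, h1])) h1).trans m2)
    le_rfl (by nlinarith only [ha, he, he'])
  have hU := UN_split h hδ hi ha ha1 hc hSU
  have hU0 := UN_io h ha ha1
  -- N
  have hN := NN_lo h hδ hδ1 hi ha ha1
  have hV := VN_lo h hδ hδ1 hi ha ha1
  -- H
  have hH : ∀ r, 0 < r → r ≤ 2.2 → |P.IN a i r - P.io r * P.NN a i|
      ≤ (0.0295 * (a + P.e0) + 0.17 * δ + 0.385 * (1.655 + 1.86 * a)^2 * δ^2) * w r := by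
    intro r hr hr1
    have hw0 := pw_nonneg r
    have hSH := second_orderN h (φ := P.ker r) (Φ₁ := 0.2238 * w r) (Φ₂ := 0.2265 * w r)
      (Φ := 0.385 * w r) hδ hδ1 hi ha ha1 hc pker_cont
      (fun v h1 h2 => kerN_bd1 h hr hr1 (by linarith only [he, he', hca, h1]) h2)
      (fun v h1 h2 => kerN_bd2 h hr hr1 (by linarith only [he, he', hca, h1]) (by nlinarith only [ha, he, he', hY, c2, h2]))
      (by nlinarith only [hw0]) (by nlinarith only [hw0])
    have hs := HN_split h hδ hi ha ha1 hc hr.le hr1 hSH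
    obtain ⟨t1, t2⟩ := HTall h ha ha1 hc hr hr1
    have hq : δ^2 * (P.WN a c)^2 * (0.385 * w r) ≤ δ^2 * (1.655 + 1.86 * a)^2 * (0.385 * w r) := by
      apply mul_le_mul_of_nonneg_right _ (by positivity)
      exact mul_le_mul_of_nonneg_left hW2 (sq_nonneg δ)
    set H0 := |P.IN a P.io r - P.io r * P.NN a P.io| with hH0
    -- interpolation
    have t3 : H0 + δ * P.TN a c r ≤ (0.0295 * (a + P.e0) + 0.17 * δ) * w r := by
      have f1 : 0.03 * (H0 + δ * P.TN a c r) = (0.03 - δ) * H0 + δ * (H0 + 0.03 * P.TN a c r) := by ring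
      have f2 : (0.03 - δ) * H0 ≤ (0.03 - δ) * (0.0295 * (a + P.e0) * w r) :=
        mul_le_mul_of_nonneg_left t1 (by linarith only [hδ1])
      have f3 : δ * (H0 + 0.03 * P.TN a c r) ≤ δ * ((0.0295 * (a + P.e0) + 0.0051) * w r) :=
        mul_le_mul_of_nonneg_left t2 hδ
      nlinarith only [f2, f3]
    linarith only [hq, hs, t3]
  -- polynomial
  set X := a + P.e0 with hX
  set A := 0.0295 * X + 0.17 * δ + 0.385 * (1.655 + 1.86 * a)^2 * δ^2 with hA
  set n := 1 - 0.13 * X^2 - δ * (1.23 + 2.84 * X) with hn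
  have hA0 : 0 ≤ A := by
    have : 0 ≤ X := by linarith only [ha, he, he']
    simp only [hA]
    positivity
  have hUq : P.UN a i - P.psi i ≤ -(0.11 * X^2 + 0.012 * a^2) + δ * (1.55 * X + 0.85 * X^2)
      + 1.72 * (1.655 + 1.86 * a)^2 * (0.4866 + 0.6 * a) * δ^2 := by
    have hq : δ^2 * (P.WN a c)^2 * (1.72 * (0.4866 + 0.6 * a))
        ≤ δ^2 * (1.655 + 1.86 * a)^2 * (1.72 * (0.4866 + 0.6 * a)) := by
      apply mul_le_mul_of_nonneg_right _ (by positivity)
      exact mul_le_mul_of_nonneg_left hW2 (sq_nonneg δ)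
    have hq2 : 1.72 * (1.655 + 1.86 * a)^2 * (0.4866 + 0.6 * a) * δ^2
        = δ^2 * (1.655 + 1.86 * a)^2 * (1.72 * (0.4866 + 0.6 * a)) := by ring
    rw [hq2]
    linarith only [hU, hU0, hq]
  obtain ⟨p1, p2⟩ := boxes (ψ := P.psi i) (U := P.UN a i - P.psi i) hδ hδ1 ha ha1 (by linarith only [he] : a + 0.121818 ≤ X)
    (by linarith only [he']) hA hn hUq hψlo hψhi
  have hn0 : 0 < n := by
    have hXhi : X ≤ 0.572 := by linarith only [ha1, he, he']
    have hXlo : 0 ≤ X := by linarith only [ha, he, he']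
    simp only [hn]
    nlinarith only [ha, hδ, he, he', hA, hn, p1]
  have hNpos : 0 < P.NN a i := lt_of_lt_of_le hn0 hN
  have hUpos : 0 < P.UN a i := by
    unfold UN
    have : 0 ≤ ∫ v in (0:ℝ)..P.Y, P.mb v * P.gN a i v := by
      apply intervalIntegral.integral_nonneg (by linarith only [he, he', hY])
      intro v hv
      exact mul_nonneg (mb_nonneg h hv.1) (le_max_right _ _)
    linarith only [he, he', hV, this]
  refine ⟨A / n, div_nonneg hA0 hn0.le, ?_, ?_, hUpos, hNpos, ?_⟩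
  · rw [div_le_iff₀ hn0]; linarith only [p1]
  · intro r hr hr1
    rcases hr.eq_or_lt with hr0 | hr0
    · rw [← hr0]
      have h1 : P.IN a i 0 = 0 := by unfold IN; simp
      have h2 : P.io 0 = 0 := by unfold io; rw [I_zero h le_rfl, zero_div]
      rw [h1, h2]
      have := pw_nonneg 0
      simp only [zero_mul, sub_self, abs_zero]
      positivity
    · have h1 := hH r hr0 hr1
      have h2 := pw_nonneg r
      calc _ ≤ _ := h1
        _ = A / n * w r * n := by field_simp
        _ ≤ A / n * w r * P.NN a i := mul_le_mul_of_nonneg_left hN (by positivity)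
  · have hk : (P.UN a i - P.psi i) / P.psi i ≤ -(50 * (A / n)^2 - 50 * δ^2 + 0.0003) := by
      rw [div_le_iff₀ hψpos]
      linarith only [p2]
    have h1 : Real.log (P.UN a i) - Real.log (P.psi i) ≤ P.UN a i / P.psi i - 1 := by
      rw [← Real.log_div hUpos.ne' hψpos.ne']
      exact Real.log_le_sub_one_of_pos (by positivity)
    rw [sub_div, div_self hψpos.ne'] at hk
    linarith only [hk, h1]

end Pool.Agent.CDk.Par
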