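import Pool.Agent.CDk.D.CHEB
import Pool.Agent.CDk.D.D0
import Pool.Agent.CDk.D.GDL
import Pool.Agent.CDk.D.NRM
import Pool.Agent.CDk.D.POTN
import Pool.Agent.CDk.D.ZN
import Pool.Agent.CDk.Defs
import Pool.Agent.CDk.FIN1
import Pool.Agent.CDk.FIN4
import Pool.Agent.CDk.FNa
import Pool.Agent.CDk.FV
import Pool.Agent.CDk.GAP
import Pool.Agent.CDk.POT1
import Pool.Agent.CDk.PS
import Pool.Agent.CDk.STR

/-!
# STEP: one virtual step with the additional bound
-/

open MeasureTheory Set Filter Topology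

namespace Pool.Agent.CDk
variable {P : Par} {N δ : ℝ} {D : ℝ → ℝ}

theorem psi_pos2 (h : P.Star) (hv : VS P N δ D) (hδ : 0 ≤ δ) (hδ1 : δ ≤ 0.03) :
    0 < P.psi (fun y => I1 D y / N) := by
  have a1 := Par.psi_io h
  have a2 := abs_le.mp (Par.psi_near h hδ hv.tube)
  linarith only [hδ1, a1, a2]

theorem VS2.smul (h : P.Star) (hv : VS2 P N δ D) (hδ : 0 ≤ δ) (hδ1 : δ ≤ 0.03) {c : ℝ} (hc : 0 < c) :
    VS2 P (c * N) δ (fun r => c * D r) ∧
    Phi P (c * N) δ (fun r => c * D r) = Phi P N δ D + Real.log c := by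
  have hN := hv.pos
  have e1 : (fun y => I1 (fun r => c * D r) y / (c * N)) = fun y => I1 D y / N := by
    funext y
    rw [I1_smul]
    exact mul_div_mul_left _ _ hc.ne'
  refine ⟨⟨⟨hv.pf.smul hc.le, mul_pos hc hN, ?_, ?_⟩, ?_⟩, ?_⟩
  · rw [I2_smul]
    have := mul_le_mul_of_nonneg_left hv.op hc.le
    linarith only [this]
  · rw [e1]; exact hv.tube
  · have := mul_le_mul_of_nonneg_left hv.d22 hc.le
    linarith only [this]
  · unfold Phi
    rw [e1]
    have hp := psi_pos2 h hv.toVS hδ hδ1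
    rw [mul_assoc, Real.log_mul hc.ne' (mul_pos hN hp).ne']
    ring

theorem Dom.mono {κ : ℝ} {x y : ℝ → ℝ} {a g V V' : ℝ} {D D' : ℝ → ℝ} (h : P.Star) (hκ : P.Y ≤ κ)
    (hd : Dom P κ x y a g V D) (hV : V ≤ V') (hD : ∀ r ∈ Icc 0 P.Y, D r ≤ D' r) :
    Dom P κ x y a g V' D' := by
  obtain ⟨h1, E, e1, e2, e3, e4⟩ := hd
  refine ⟨fun r hr => (h1 r hr).trans (hD r hr), E, e1, e2, e3, e4.trans ?_⟩
  have hsg := Par.sg_bd h
  apply mul_le_mul_of_nonneg_left hV
  exact div_nonneg (Real.sinh_nonneg_iff.mpr (by linarith only [hκ])) (by linarith only [hsg])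

/-- the step for `e = -a` -/
theorem VS2.stepN (h : P.Star) {a : ℝ} (hv : VS2 P N δ D) (ha : 0 ≤ a) (ha1 : a ≤ 0.45) (hδ : 0 ≤ δ)
    (hδ1 : δ ≤ 0.03) : ∃ N' δ', 0 ≤ δ' ∧ δ' ≤ 0.03 ∧ VS2 P N' δ' (GD P N D (-a)) ∧
      N' - I2 (GD P N D (-a)) P.Y = gV P N D (-a) ∧
      Phi P N' δ' (GD P N D (-a)) ≤ Phi P N δ D - 0.0003 := by
  have hY := Par.Y_pos h
  have hN := hv.pos
  have hD := hv.pf
  have hi : Continuous (fun y => I1 D y / N) := (I1_cont hD).div_const _
  obtain ⟨δ', d0, d1, d2, d3, d4, d5⟩ := Par.potN h ha ha1 hδ hδ1 hv.tube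
  set i : ℝ → ℝ := fun y => I1 D y / N with hidef
  set G := GD P N D (-a) with hG
  have hGpf : Pf G := GD_pf hD
  set NN := P.NN a i with hNN
  have hN' : 0 < N * NN := mul_pos hN d4
  have hNe : gV P N D (-a) + I2 G P.Y = N * NN := N_neg h hD hN ha ha1
  have hVe : gV P N D (-a) = N * P.VN a i := gV_neg h hD hN ha ha1
  have hV0 := Par.VN_lo h hδ hδ1 hv.tube ha ha1
  have hN13 := Par.NN_hi h hδ hδ1 hv.tube ha ha1
  rw [← hidef] at hV0 hN13
  have hI1 : ∀ r, 0 ≤ r → I1 G r / (N * NN) = P.IN a i r / NN := by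
    intro r hr
    have hh : I1 G r = N * P.IN a i r := I1_GD_neg h hD hN ha ha1 hr
    rw [hh]
    field_simp
  have hgN : Continuous (P.gN a i) := Par.gN_cont hi
  have hanti : AntitoneOn (P.gN a i) (Icc 0 P.Y) := by
    intro u _ v _ huv
    unfold Par.gN
    apply max_le_max_right
    have := hv.tube.mono (by linarith only [huv] : u + a ≤ v + a)
    show P.qN a i - i (v + a) ≤ P.qN a i - i (u + a)
    linarith only [this]
  refine ⟨N * NN, δ', d0, d1, ⟨⟨hGpf, hN', ?_, ?_⟩, ?_⟩, by linarith only [hNe], ?_⟩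
  · have : N * NN - I2 G P.Y = N * P.VN a i := by linarith only [hNe, hVe]
    rw [this]
    nlinarith only [hY, hN, hV0, hN13]
  · refine ⟨(I1_cont hGpf).div_const _, ?_, ?_, ?_⟩
    · intro u v huv
      exact div_le_div_of_nonneg_right (I1_mono hGpf huv) hN'.le
    · intro y hy
      show I1 G y / (N * NN) = 0
      rw [I1_zero hGpf hy, zero_div]
    · intro y hy hy2
      show |I1 G y / (N * NN) - P.io y| ≤ δ' * w y
      rw [hI1 y hy]
      have := d2 y hy hy2
      rw [div_sub' d4.ne', abs_div, abs_of_pos d4, div_le_iff₀ d4]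
      calc |P.IN a i y - NN * P.io y| = |P.IN a i y - P.io y * NN| := by ring_nf
        _ ≤ _ := this
  · have e1 : G 2.2 = N * ∫ v in (0:ℝ)..2.2, P.gN a i v := GD_neg h hD hN ha ha1 (by norm_num)
    rw [e1]
    have e2 := cheb h (g := P.gN a i) (N := NN) hgN (fun v => le_max_right _ _) hanti (by
      rw [hNN]; unfold Par.NN
      linarith only [hY, hV0])
    have := mul_le_mul_of_nonneg_left e2 hN.le
    linarith only [this]
  · unfold Phi
    have hpsi : N * NN * P.psi (fun y => I1 G y / (N * NN)) = N * P.UN a i := by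
      have hU := UN_eq h hi ha ha1
      unfold Par.psi
      have : (∫ y in (0:ℝ)..(P.ρ - P.e0), P.mb (y + P.e0) * (I1 G y / (N * NN)))
          = (∫ y in (0:ℝ)..(P.ρ - P.e0), P.mb (y + P.e0) * P.IN a i y) / NN := by
        rw [← intervalIntegral.integral_div]
        apply intervalIntegral.integral_congr
        intro y hy
        rw [uIcc_of_le (by linarith only [h.ρ_lo, h.e_hi, hY, h])] at hy
        simp only
        rw [hI1 y hy.1]; ring
      rw [this, hU, ← hNN]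
      field_simp
    have hpp := psi_pos2 h hv.toVS hδ hδ1
    rw [hpsi, Real.log_mul hN.ne' d3.ne', Real.log_mul hN.ne' hpp.ne']
    rw [← hidef] at hpp ⊢
    linarith only [d5]

/-- the step for `e ≥ 0` -/
theorem VS2.stepP (h : P.Star) {e : ℝ} (hv : VS2 P N δ D) (he : 0 ≤ e) (hδ : 0 ≤ δ)
    (hδ1 : δ ≤ 0.03) : ∃ N' δ', 0 ≤ δ' ∧ δ' ≤ 0.03 ∧ VS2 P N' δ' (GD P N D e) ∧
      N' - I2 (GD P N D e) P.Y = gV P N D e ∧
      Phi P N' δ' (GD P N D e) ≤ Phi P N δ D := by
  have hY := Par.Y_pos h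
  have hN := hv.pos
  have hD := hv.pf
  have hsg := Par.sg_bd h
  obtain ⟨q1, q2, q3, q4⟩ := qG_pos_e (N := N) h hD he
  obtain ⟨N', δ', d0, d1, d2, d3, d4⟩ := hv.toVS.step h he hδ hδ1
  rw [← q4] at d2 d3 d4
  rw [← q3] at d3
  refine ⟨N', δ', d0, d1, ⟨d2, ?_⟩, d3, d4⟩
  -- `cheb`
  have hi : Continuous (fun y => I1 D y / N) := (I1_cont hD).div_const _
  set i : ℝ → ℝ := fun y => I1 D y / N with hidef
  have hg : Continuous (P.gf e i) := Par.gf_contin hi
  have hanti : AntitoneOn (P.gf e i) (Icc 0 P.Y) := by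
    intro u _ v _ huv
    unfold Par.gf
    apply max_le_max_right
    have := hv.tube.mono (by linarith only [huv] : u - e ≤ v - e)
    show P.q e - i (v - e) ≤ P.q e - i (u - e)
    linarith only [this]
  have e1 : GD P N D e 2.2 = N * ∫ v in (0:ℝ)..2.2, P.gf e i v := by
    rw [q4]; exact FD_eq hN (by norm_num)
  have e2 : I2 (GD P N D e) P.Y = N * ∫ t in (0:ℝ)..P.Y, P.If e i t := by
    rw [q4]; exact I2_FD hD hN (by linarith only [hY, hsg])
  have e3 : (∫ t in (0:ℝ)..P.Y, P.If e i t) = ∫ v in (0:ℝ)..P.Y, (P.Y - v)^2/2 * P.gf e i v := by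
    have := Par.Nf_eq (P := P) (e := e) hi
    unfold Par.Nf at this
    linarith only [this]
  have hgV : 0 ≤ gV P N D e := by
    rw [q3]
    have hq : 0 ≤ Fq P.Y e (N - I2 D P.Y) D := by
      unfold Fq
      apply div_nonneg _ (by linarith only [he, hY, hsg])
      linarith only [hN]
    exact mul_nonneg (by linarith only [hsg]) hq
  have e4 := cheb h (g := P.gf e i) hg (fun v => le_max_right _ _) hanti le_rfl
  rw [e1]
  have e5 : N * (∫ v in (0:ℝ)..P.Y, (P.Y - v)^2/2 * P.gf e i v) ≤ N' := by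
    rw [← e3, ← e2]; linarith only [d3, hgV]
  have := mul_le_mul_of_nonneg_left e4 hN.le
  linarith only [e5, this]

theorem GD_monoN (hD : Pf D) {e N' r : ℝ} (hY : 0 < P.Y + e) (hN : N ≤ N') (hr : 0 ≤ r) :
    GD P N D e r ≤ GD P N' D e r := by
  obtain ⟨r', h1, h2, h3, -⟩ := GD_att (P := P) (N := N) (e := e) hD hr
  rw [h3]
  exact (fF_monoN hY hN h1).trans (fF_le_GD hD h1 h2)

end Pool.Agent.CDk
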