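import Pool.Agent.CDk.CX
import Pool.Agent.CDk.D.Tab
import Pool.Agent.CDk.Defs
import Pool.Agent.CDk.ENC
import Pool.Agent.CDk.FNa
import Pool.Agent.CDk.FNb
import Pool.Agent.CDk.T1a

/-!
# TabSa: the tables `ioL, ioU, joL, joU, doL, doU` of Tab.lean are correct

The tables were produced from the enclosures of ENC.lean: for `y ≤ e0` exact (`I = y^2/2`, `J = y^3/6`, `D = y`), for `e0 ≤ y ≤ ρ`:
`PI ± 0.000015`, `PJ ± 0.00001`, `PD5 ± 0.00001`, divided by `L ∈ (2.665779, 2.665784)`; for `y ≥ ρ`: `I y = I ρ + D ρ (y - ρ)`,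
`J y = J ρ + I ρ (y-ρ) + D ρ (y-ρ)^2/2`. All entries rounded outwards. Suggestion: one lemma per row shape (a rational inequality, decided
by `norm_num` or by `decide +kernel` over `ℤ`/`ℚ`), then `interval_cases i` or `decide` over a list.
-/

open MeasureTheory Set Filter Topology

namespace Pool.Agent.CDk
open Tab Par
variable {P : Par}

private def tsa_PI (y : ℚ) : ℚ :=
  0.99582/2*y^2 + 0.0503/3*y^3 - 0.15027/4*y^4 - 0.01586/5*y^5 + 0.0092/6*y^6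
private def tsa_PJ (y : ℚ) : ℚ :=
  0.99582/6*y^3 + 0.0503/12*y^4 - 0.15027/20*y^5 - 0.01586/30*y^6 + 0.0092/42*y^7
private def tsa_PD5 (y : ℚ) : ℚ :=
  0.000343 + 0.992092*y + 0.062395*y^2 - 0.166656*y^3 - 0.006049*y^4 + 0.00705*y^5

private theorem tsa_PI_cast (y : ℚ) : ((tsa_PI y : ℚ) : ℝ) = PI y := by
  unfold tsa_PI PI
  push_cast
  ring

private theorem tsa_PJ_cast (y : ℚ) : ((tsa_PJ y : ℚ) : ℝ) = PJ y := by
  unfold tsa_PJ PJ
  push_cast
  ring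

private theorem tsa_PD5_cast (y : ℚ) : ((tsa_PD5 y : ℚ) : ℝ) = PD5 y := by
  unfold tsa_PD5 PD5
  push_cast
  ring

private theorem tsa_div (h : P.Star) {x : ℝ} {lo hi : ℚ} {a b : ℕ} (h1 : (lo : ℝ) ≤ x) (h2 : x ≤ hi)
    (h3 : (a : ℚ) * 2.665784 ≤ lo * 10^6) (h4 : hi * 10^6 ≤ (b : ℚ) * 2.665779) :
    (a : ℝ) ≤ x / P.L * 10^6 ∧ x / P.L * 10^6 ≤ b := by
  obtain ⟨-, -, hL1, hL2⟩ := Y_pos h
  have hL := cx_L_pos h
  have h3' : (a : ℝ) * 2.665784 ≤ lo * 10^6 := by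
    have := (Rat.cast_le (K := ℝ)).2 h3
    push_cast at this
    exact this
  have h4' : (hi : ℝ) * 10^6 ≤ b * 2.665779 := by
    have := (Rat.cast_le (K := ℝ)).2 h4
    push_cast at this
    exact this
  have e : x / P.L * 10^6 = x * 10^6 / P.L := by ring
  rw [e]
  constructor
  · rw [le_div_iff₀ hL]
    have h5 : (a : ℝ) * P.L ≤ a * 2.665784 := mul_le_mul_of_nonneg_left hL2.le (Nat.cast_nonneg a)
    nlinarith
  · rw [div_le_iff₀ hL]
    have h5 : (b : ℝ) * 2.665779 ≤ b * P.L := mul_le_mul_of_nonneg_left hL1.le (Nat.cast_nonneg b)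
    nlinarith

private theorem tsa_chk_io : ∀ i < 33, 3 ≤ i →
    ((ioL.getD i 0 : ℕ) : ℚ) * 2.665784 ≤ (tsa_PI (i/20) - 0.000015) * 10^6 ∧
      (tsa_PI (i/20) + 0.000015) * 10^6 ≤ ((ioU.getD i 0 : ℕ) : ℚ) * 2.665779 := by
  decide +kernel

private theorem tsa_chk_jo : ∀ i < 33, 3 ≤ i →
    ((joL.getD i 0 : ℕ) : ℚ) * 2.665784 ≤ (tsa_PJ (i/20) - 0.00001) * 10^6 ∧
      (tsa_PJ (i/20) + 0.00001) * 10^6 ≤ ((joU.getD i 0 : ℕ) : ℚ) * 2.665779 := by
  decide +kernel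

private theorem tsa_chk_do : ∀ i < 12, 3 ≤ i →
    ((doL.getD i 0 : ℕ) : ℚ) * 2.665784 ≤ (tsa_PD5 (i/20) - 0.00001) * 10^6 ∧
      (tsa_PD5 (i/20) + 0.00001) * 10^6 ≤ ((doU.getD i 0 : ℕ) : ℚ) * 2.665779 := by
  decide +kernel

private theorem tsa_chk_small : ∀ i < 3,
    (((ioL.getD i 0 : ℕ) : ℚ) * 2.665784 ≤ ((i/20 : ℚ)^2/2) * 10^6 ∧
      ((i/20 : ℚ)^2/2) * 10^6 ≤ ((ioU.getD i 0 : ℕ) : ℚ) * 2.665779) ∧
    (((joL.getD i 0 : ℕ) : ℚ) * 2.665784 ≤ ((i/20 : ℚ)^3/6) * 10^6 ∧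
      ((i/20 : ℚ)^3/6) * 10^6 ≤ ((joU.getD i 0 : ℕ) : ℚ) * 2.665779) ∧
    (((doL.getD i 0 : ℕ) : ℚ) * 2.665784 ≤ (i/20 : ℚ) * 10^6 ∧
      (i/20 : ℚ) * 10^6 ≤ ((doU.getD i 0 : ℕ) : ℚ) * 2.665779) := by
  decide +kernel

private theorem tsa_chk_big : ∀ i < 45, 33 ≤ i →
    (((ioL.getD i 0 : ℕ) : ℚ) * 2.665784 ≤ (1.133656528 + 1.099951967 * (i/20 - 1.640088)) * 10^6 ∧
      (1.133687629 + 1.099972968 * (i/20 - 1.640087)) * 10^6 ≤ ((ioU.getD i 0 : ℕ) : ℚ) * 2.665779) ∧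
    (((joL.getD i 0 : ℕ) : ℚ) * 2.665784 ≤ (0.670061103 + 1.133656528 * (i/20 - 1.640088) +
        1.099951967 * (i/20 - 1.640088)^2/2) * 10^6 ∧
      (0.670082238 + 1.133687629 * (i/20 - 1.640087) + 1.099972968 * (i/20 - 1.640087)^2/2) * 10^6 ≤
        ((joU.getD i 0 : ℕ) : ℚ) * 2.665779) := by
  decide +kernel

/-- exact values near zero -/
private theorem tsa_I_small (h : P.Star) {y : ℝ} (h0 : 0 ≤ y) (h1 : y ≤ P.e0) : P.I y = y^2/2 := by
  have := h.ρ_lo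
  have := h.e_hi
  rw [← Zs2_eq (P := P) (by linarith), Zs2_small h h0 h1]

private theorem tsa_J_small (h : P.Star) {y : ℝ} (h0 : 0 ≤ y) (h1 : y ≤ P.e0) : P.J y = y^3/6 := by
  have e1 : P.J y - P.J 0 = ∫ x in (0:ℝ)..y, P.I x :=
    (intervalIntegral.integral_eq_sub_of_hasDerivAt (fun x _ => J_deriv h x)
      ((I_cont h).intervalIntegrable _ _)).symm
  have e2 : ∫ x in (0:ℝ)..y, P.I x = ∫ x in (0:ℝ)..y, x^2/2 := by
    refine intervalIntegral.integral_congr fun x hx => ?_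
    rw [uIcc_of_le h0] at hx
    exact tsa_I_small h hx.1 (hx.2.trans h1)
  rw [J_zero h le_rfl, sub_zero] at e1
  rw [e1, e2, intervalIntegral.integral_div, integral_pow]
  ring

/-- bounds at `ρ` -/
private theorem tsa_rho (h : P.Star) :
    (1.133656528 ≤ P.I P.ρ ∧ P.I P.ρ ≤ 1.133687629) ∧ (1.099951967 ≤ P.D P.ρ ∧ P.D P.ρ ≤ 1.099972968) ∧
      (0.670061103 ≤ P.J P.ρ ∧ P.J P.ρ ≤ 0.670082238) := by
  have hρ := h.ρ_lo
  have hρ' := h.ρ_hi
  have he := h.e_hi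
  have i0 := abs_le.1 (I_app h (y := 1.640087) (by norm_num) hρ.le)
  have j0 := abs_le.1 (J_app h (y := 1.640087) (by norm_num) hρ.le)
  have d0 := abs_le.1 (D_app5 h (y := 1.640087) (by linarith) hρ.le)
  have vi : PI 1.640087 = 0.49791*1.640087^2 + 0.0503/3*1.640087^3 - 0.0375675*1.640087^4 -
    0.003172*1.640087^5 + 0.0092/6*1.640087^6 := by unfold PI; norm_num
  have vi2 : 1.133671528 ≤ PI 1.640087 ∧ PI 1.640087 ≤ 1.133671529 := by
    unfold PI; norm_num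
  have vj2 : 0.670071103 ≤ PJ 1.640087 ∧ PJ 1.640087 ≤ 0.670071104 := by
    unfold PJ; norm_num
  have vd2 : 1.099961967 ≤ PD5 1.640087 ∧ PD5 1.640087 ≤ 1.099961968 := by
    unfold PD5; norm_num
  have dD : P.D P.ρ ≤ P.D 1.640087 + 0.000001 := by
    have := D_lip h hρ.le
    linarith
  have dD2 := D_mono h hρ.le
  have hD : P.D P.ρ ≤ 1.099972968 := by linarith [d0.2, vd2.2]
  have dI2 := I_mono h hρ.le
  have dI : P.I P.ρ ≤ P.I 1.640087 + 1.099972968 * 0.000001 := by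
    obtain ⟨ξ, hξ, h1⟩ := exists_hasDerivAt_eq_slope P.I P.D hρ
      (fun x _ => (I_deriv h x).continuousAt.continuousWithinAt) (fun x _ => I_deriv h x)
    have h2 : P.D ξ ≤ 1.099972968 := (D_mono h hξ.2.le).trans hD
    have h3 : 0 < P.ρ - 1.640087 := by linarith
    rw [eq_div_iff h3.ne'] at h1
    have h4 : P.D ξ * (P.ρ - 1.640087) ≤ 1.099972968 * 0.000001 :=
      mul_le_mul h2 (by linarith) h3.le (by norm_num)
    linarith
  have hI : P.I P.ρ ≤ 1.133687629 := by linarith [i0.2, vi2.2]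
  have jmono : P.J 1.640087 ≤ P.J P.ρ ∧ P.J P.ρ ≤ P.J 1.640087 + 1.133687629 * 0.000001 := by
    obtain ⟨ξ, hξ, h1⟩ := exists_hasDerivAt_eq_slope P.J P.I hρ
      (fun x _ => (J_deriv h x).continuousAt.continuousWithinAt) (fun x _ => J_deriv h x)
    have h2 : P.I ξ ≤ 1.133687629 := (I_mono h hξ.2.le).trans hI
    have h3 : 0 < P.ρ - 1.640087 := by linarith
    rw [eq_div_iff h3.ne'] at h1
    have h4 : P.I ξ * (P.ρ - 1.640087) ≤ 1.133687629 * 0.000001 :=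
      mul_le_mul h2 (by linarith) h3.le (by norm_num)
    have h5 : 0 ≤ P.I ξ * (P.ρ - 1.640087) := mul_nonneg (I_nonneg h _) h3.le
    constructor <;> linarith
  refine ⟨⟨?_, hI⟩, ⟨?_, hD⟩, ⟨?_, ?_⟩⟩
  · linarith [i0.1, vi2.1]
  · linarith [d0.1, vd2.1]
  · linarith [j0.1, vj2.1, jmono.1]
  · linarith [j0.2, vj2.2, jmono.2]

private theorem tsa_big (_h : P.Star) {y : ℝ} (hy : P.ρ ≤ y) :
    P.I y = P.I P.ρ + P.D P.ρ * (y - P.ρ) ∧
      P.J y = P.J P.ρ + P.I P.ρ * (y - P.ρ) + P.D P.ρ * (y - P.ρ)^2/2 := by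
  have e1 : P.D P.ρ = Zs P.e0 15 1 P.ρ := by rw [D, min_self]
  have e2 : P.I P.ρ = Zs P.e0 15 2 P.ρ := by rw [I, min_self, sub_self, max_self, mul_zero, add_zero]
  have e3 : P.J P.ρ = Zs P.e0 15 3 P.ρ := by
    rw [J, min_self, sub_self, max_self]
    ring
  constructor
  · rw [e1, e2, I, min_eq_right hy, max_eq_left (by linarith)]
  · rw [e1, e2, e3, J, min_eq_right hy, max_eq_left (by linarith)]

theorem io_tab (h : P.Star) {i : ℕ} (hi : i ≤ 44) :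
    ((ioL.getD i 0 : ℕ) : ℝ) ≤ P.io (i / 20) * 10^6 ∧ P.io (i / 20) * 10^6 ≤ (ioU.getD i 0 : ℕ) := by
  have hρ := h.ρ_lo
  have hρ' := h.ρ_hi
  have helo := h.e_lo
  have hi0 : (0:ℝ) ≤ i := Nat.cast_nonneg i
  unfold io
  rcases lt_or_ge i 3 with h1 | h1
  · obtain ⟨⟨c1, c2⟩, -⟩ := tsa_chk_small i h1
    have h2 : (i:ℝ) ≤ 2 := by exact_mod_cast (by omega : i ≤ 2)
    refine tsa_div h (lo := (i/20 : ℚ)^2/2) (hi := (i/20 : ℚ)^2/2) ?_ ?_ c1 c2
    · rw [tsa_I_small h (by positivity) (by linarith)]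
      push_cast
      exact le_rfl
    · rw [tsa_I_small h (by positivity) (by linarith)]
      push_cast
      exact le_rfl
  · rcases lt_or_ge i 33 with h2 | h2
    · obtain ⟨c1, c2⟩ := tsa_chk_io i h2 h1
      have h3 : (i:ℝ) ≤ 32 := by exact_mod_cast (by omega : i ≤ 32)
      have h4 := abs_le.1 (I_app h (y := (i:ℝ)/20) (by positivity) (by linarith))
      have h5 := tsa_PI_cast (i/20)
      push_cast at h5
      refine tsa_div h ?_ ?_ c1 c2
      · push_cast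
        rw [h5]
        norm_num at h4 ⊢
        linarith [h4.1]
      · push_cast
        rw [h5]
        norm_num at h4 ⊢
        linarith [h4.2]
    · obtain ⟨⟨c1, c2⟩, -⟩ := tsa_chk_big i (by omega) h2
      have h3 : (33:ℝ) ≤ i := by exact_mod_cast h2
      obtain ⟨⟨a1, a2⟩, ⟨b1, b2⟩, -⟩ := tsa_rho h
      obtain ⟨e1, -⟩ := tsa_big h (y := (i:ℝ)/20) (by linarith)
      refine tsa_div h ?_ ?_ c1 c2
      · rw [e1]
        push_cast
        have := mul_le_mul b1 (by linarith : (i:ℝ)/20 - 1.640088 ≤ i/20 - P.ρ) (by linarith) (by linarith)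
        linarith
      · rw [e1]
        push_cast
        have := mul_le_mul b2 (by linarith : (i:ℝ)/20 - P.ρ ≤ i/20 - 1.640087) (by linarith) (by linarith)
        linarith

theorem jo_tab (h : P.Star) {i : ℕ} (hi : i ≤ 44) :
    ((joL.getD i 0 : ℕ) : ℝ) ≤ P.J (i / 20) / P.L * 10^6 ∧ P.J (i / 20) / P.L * 10^6 ≤ (joU.getD i 0 : ℕ) := by
  have hρ := h.ρ_lo
  have hρ' := h.ρ_hi
  have helo := h.e_lo
  have hi0 : (0:ℝ) ≤ i := Nat.cast_nonneg i
  rcases lt_or_ge i 3 with h1 | h1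
  · obtain ⟨-, ⟨c1, c2⟩, -⟩ := tsa_chk_small i h1
    have h2 : (i:ℝ) ≤ 2 := by exact_mod_cast (by omega : i ≤ 2)
    refine tsa_div h (lo := (i/20 : ℚ)^3/6) (hi := (i/20 : ℚ)^3/6) ?_ ?_ c1 c2
    · rw [tsa_J_small h (by positivity) (by linarith)]
      push_cast
      exact le_rfl
    · rw [tsa_J_small h (by positivity) (by linarith)]
      push_cast
      exact le_rfl
  · rcases lt_or_ge i 33 with h2 | h2
    · obtain ⟨c1, c2⟩ := tsa_chk_jo i h2 h1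
      have h3 : (i:ℝ) ≤ 32 := by exact_mod_cast (by omega : i ≤ 32)
      have h4 := abs_le.1 (J_app h (y := (i:ℝ)/20) (by positivity) (by linarith))
      have h5 := tsa_PJ_cast (i/20)
      push_cast at h5
      refine tsa_div h ?_ ?_ c1 c2
      · push_cast
        rw [h5]
        norm_num at h4 ⊢
        linarith [h4.1]
      · push_cast
        rw [h5]
        norm_num at h4 ⊢
        linarith [h4.2]
    · obtain ⟨-, c1, c2⟩ := tsa_chk_big i (by omega) h2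
      have h3 : (33:ℝ) ≤ i := by exact_mod_cast h2
      obtain ⟨⟨a1, a2⟩, ⟨b1, b2⟩, ⟨j1, j2⟩⟩ := tsa_rho h
      obtain ⟨-, e1⟩ := tsa_big h (y := (i:ℝ)/20) (by linarith)
      refine tsa_div h ?_ ?_ c1 c2
      · rw [e1]
        push_cast
        have k1 := mul_le_mul a1 (by linarith : (i:ℝ)/20 - 1.640088 ≤ i/20 - P.ρ) (by linarith) (by linarith)
        have k2 : ((i:ℝ)/20 - 1.640088)^2 ≤ (i/20 - P.ρ)^2 :=
          pow_le_pow_left₀ (by linarith) (by linarith) 2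
        have k3 := mul_le_mul b1 k2 (sq_nonneg _) (by linarith)
        linarith
      · rw [e1]
        push_cast
        have k1 := mul_le_mul a2 (by linarith : (i:ℝ)/20 - P.ρ ≤ i/20 - 1.640087) (by linarith) (by linarith)
        have k2 : (i/20 - P.ρ)^2 ≤ ((i:ℝ)/20 - 1.640087)^2 :=
          pow_le_pow_left₀ (by linarith) (by linarith) 2
        have k3 := mul_le_mul b2 k2 (sq_nonneg _) (by linarith)
        linarith

theorem do_tab (h : P.Star) {i : ℕ} (hi : i ≤ 11) :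
    ((doL.getD i 0 : ℕ) : ℝ) ≤ P.D (i / 20) / P.L * 10^6 ∧ P.D (i / 20) / P.L * 10^6 ≤ (doU.getD i 0 : ℕ) := by
  have hρ := h.ρ_lo
  have helo := h.e_lo
  have hehi := h.e_hi
  have hi0 : (0:ℝ) ≤ i := Nat.cast_nonneg i
  rcases lt_or_ge i 3 with h1 | h1
  · obtain ⟨-, -, c1, c2⟩ := tsa_chk_small i h1
    have h2 : (i:ℝ) ≤ 2 := by exact_mod_cast (by omega : i ≤ 2)
    refine tsa_div h (lo := (i/20 : ℚ)) (hi := (i/20 : ℚ)) ?_ ?_ c1 c2
    · rw [D_small h (by positivity) (by linarith)]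
      push_cast
      exact le_rfl
    · rw [D_small h (by positivity) (by linarith)]
      push_cast
      exact le_rfl
  · obtain ⟨c1, c2⟩ := tsa_chk_do i (by omega) h1
    have h3 : (i:ℝ) ≤ 11 := by exact_mod_cast hi
    have h6 : (3:ℝ) ≤ i := by exact_mod_cast h1
    have h4 := abs_le.1 (D_app5 h (y := (i:ℝ)/20) (by linarith) (by linarith))
    have h5 := tsa_PD5_cast (i/20)
    push_cast at h5
    refine tsa_div h ?_ ?_ c1 c2
    · push_cast
      rw [h5]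
      norm_num at h4 ⊢
      linarith [h4.1]
    · push_cast
      rw [h5]
      norm_num at h4 ⊢
      linarith [h4.2]

end Pool.Agent.CDk
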