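import Pool.Agent.CDk.D.COUP
import Pool.Agent.CDk.D.D0
import Pool.Agent.CDk.D.STEP
import Pool.Agent.CDk.D.Tab
import Pool.Agent.CDk.D.TabSa
import Pool.Agent.CDk.Defs
import Pool.Agent.CDk.FNa
import Pool.Agent.CDk.FV
import Pool.Agent.CDk.GAP
import Pool.Agent.CDk.POT2

/-!
# NUM: numerical facts about normalised states
-/

open MeasureTheory Set Filter Topology

namespace Pool.Agent.CDk
open Tab
variable {P : Par} {N δ : ℝ} {D : ℝ → ℝ}

/-- trapezoidal bound -/
theorem I2_trap (hD : Pf D) {u v : ℝ} (huv : u ≤ v) :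
    I2 D v - I2 D u ≤ (v - u) * (I1 D u + I1 D v) / 2 := by
  have hcD := hD.cont
  have h1 : ∀ t, HasDerivAt (fun t => (t - u) * (I1 D u + I1 D t) / 2 - (I2 D t - I2 D u))
      ((1 * (I1 D u + I1 D t) + (t - u) * D t) / 2 - I1 D t) t := by
    intro t
    have a1 : HasDerivAt (fun t => t - u) 1 t := (hasDerivAt_id t).sub_const u
    have a2 : HasDerivAt (fun t => I1 D u + I1 D t) (D t) t := (I1_deriv hD t).const_add _
    have a3 := ((a1.mul a2).div_const 2).sub ((I2_deriv hD t).sub_const (I2 D u))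
    exact a3
  have h2 : MonotoneOn (fun t => (t - u) * (I1 D u + I1 D t) / 2 - (I2 D t - I2 D u)) (Icc u v) := by
    apply monotoneOn_of_deriv_nonneg (convex_Icc _ _)
    · exact fun t _ => (h1 t).continuousAt.continuousWithinAt
    · exact fun t _ => (h1 t).differentiableAt.differentiableWithinAt
    · intro t ht
      rw [interior_Icc] at ht
      rw [(h1 t).deriv]
      -- I1 t - I1 u ≤ (t-u) D t
      have h3 : I1 D t - I1 D u ≤ (t - u) * D t := by
        have e1 : I1 D t - I1 D u = ∫ r in u..t, D r := by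
          unfold I1
          rw [intervalIntegral.integral_interval_sub_left] <;> exact hcD.intervalIntegrable _ _
        rw [e1]
        calc (∫ r in u..t, D r) ≤ ∫ r in u..t, D t := by
              apply intervalIntegral.integral_mono_on ht.1.le (hcD.intervalIntegrable _ _)
                (continuous_const.intervalIntegrable _ _)
              intro r hr
              exact hD.mono hr.2
          _ = (t - u) * D t := by simp
      linarith
  have h4 := h2 (left_mem_Icc.mpr huv) (right_mem_Icc.mpr huv) huv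
  simp only [sub_self, zero_mul, zero_div] at h4
  linarith only [h4]

theorem i_hi (h : P.Star) (hv : VS P N δ D) (hδ : 0 ≤ δ) (hδ1 : δ ≤ 0.03) {y : ℝ} {k : ℕ} (hk : k ≤ 44)
    (hy0 : y ≤ k / 20) : I1 D y ≤ N * ((ioU.getD k 0 : ℕ) / 10^6 + 0.03 * w (k / 20)) := by
  have hN := hv.pos
  have h1 := I1_mono hv.pf hy0
  have hk2 : (k : ℝ) ≤ 44 := by exact_mod_cast hk
  have h2 := (abs_le.mp (hv.tube.close ((k : ℝ) / 20) (by positivity) (by linarith only [hk2]))).2
  have h3 := (io_tab h hk).2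
  have h4 : P.io (k / 20) ≤ (ioU.getD k 0 : ℕ) / 10^6 := by
    rw [le_div_iff₀ (by norm_num)]; exact h3
  have hw := Par.pw_nonneg ((k : ℝ) / 20)
  have h5 : δ * w (k / 20) ≤ 0.03 * w (k / 20) := mul_le_mul_of_nonneg_right hδ1 hw
  have h6 : I1 D (k / 20) / N ≤ (ioU.getD k 0 : ℕ) / 10^6 + 0.03 * w (k / 20) := by
    have h7 : I1 D (k / 20) / N - P.io (k / 20) ≤ δ * w (k / 20) := h2
    linarith only [h2, h3, h5]
  rw [div_le_iff₀ hN] at h6
  linarith only [h1, h6]

theorem gvN_lo (h : P.Star) (hv : VS P N δ D) (hδ : 0 ≤ δ) (hδ1 : δ ≤ 0.03) (hN : 1.1 ≤ N) {a : ℝ}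
    (ha : 0 ≤ a) (ha1 : a ≤ 0.45) : 0.08 ≤ gv P N D (-a) ∧ 0.22 ≤ fF P N D (-a) 0.9 := by
  have hY := Par.Y_pos h
  have hD := hv.pf
  have hN0 := hv.pos
  have w5 : w ((5 : ℕ) / 20) = 0.1875 := by unfold w; norm_num
  have w9 : w ((9 : ℕ) / 20) = 0.6075 := by unfold w; norm_num
  have w23 : w ((23 : ℕ) / 20) = 1 := by unfold w; norm_num
  have w27 : w ((27 : ℕ) / 20) = 1 := by unfold w; norm_num
  have u5 : ioU.getD 5 0 = 11722 := by decide
  have u9 : ioU.getD 9 0 = 37807 := by decide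
  have u23 : ioU.getD 23 0 = 230876 := by decide
  have u27 : ioU.getD 27 0 = 307223 := by decide
  have hq : qG P N D (-a) * (P.Y - a) = N - I2 D a := by
    unfold qG
    rw [neg_neg, ← sub_eq_add_neg, div_mul_cancel₀ _ (by linarith only [ha1, hY])]
  have key : ∀ b A B : ℝ, 0 ≤ b → b ≤ a → a ≤ 0.45 → I1 D a ≤ N * A → I1 D (0.9 + a) ≤ N * B → 0 ≤ A → A ≤ B →
      0.9 * (1 - 0.45 * A / 2) ≥ (0.2 + 0.45 * (A + B)) * (2.543965 - b) → 0.08 ≤ gv P N D (-a) ∧ 0.22 ≤ fF P N D (-a) 0.9 := by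
    intro b A B hb hba _ hA hB hA0 hAB hq1
    have hB0 : 0 ≤ B := hA0.trans hAB
    have hI2 : I2 D a ≤ N * (0.45 * A / 2) := by
      have := I2_trap hD ha
      have e0 : I2 D 0 = 0 := (I2_pf hD).zero 0 le_rfl
      have e1 : I1 D 0 = 0 := I1_zero hD le_rfl
      rw [e0, e1] at this
      have h1 : (a - 0) * (0 + I1 D a) / 2 ≤ 0.45 * (N * A) / 2 := by
        have : a * I1 D a ≤ 0.45 * (N * A) := mul_le_mul ha1 hA ((I1_pf hD).nonneg _) (by norm_num)
        linarith only [this]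
      linarith only [this, h1]
    have hqlo : N * (0.2 + 0.45 * (A + B)) ≤ 0.9 * qG P N D (-a) := by
      have h1 : 0 < P.Y - a := by linarith only [ha1, hY]
      have h2 : N * (0.2 + 0.45 * (A + B)) * (P.Y - a) ≤ 0.9 * qG P N D (-a) * (P.Y - a) := by
        have h3 : (0.2 + 0.45 * (A + B)) * (P.Y - a) ≤ (0.2 + 0.45 * (A + B)) * (2.543965 - b) :=
          mul_le_mul_of_nonneg_left (by linarith only [hY, hba]) (by positivity)
        have h4 : N * ((0.2 + 0.45 * (A + B)) * (P.Y - a)) ≤ N * (0.9 * (1 - 0.45 * A / 2)) :=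
          mul_le_mul_of_nonneg_left (by linarith only [hq1, h3]) hN0.le
        have h5 : 0.9 * qG P N D (-a) * (P.Y - a) = 0.9 * (N - I2 D a) := by rw [mul_assoc, hq]
        rw [h5]
        linarith only [hI2, h4]
      exact le_of_mul_le_mul_right h2 h1
    have htr := I2_trap hD (by linarith only [hY] : a ≤ 0.9 + a)
    constructor
    · unfold gv
      rw [neg_neg]
      have e1 : N * A ≤ N * B := mul_le_mul_of_nonneg_left hAB hN0.le
      have e2 : N * (0.2 + 0.45 * (A + B)) = 0.2 * N + 0.45 * (N * A) + 0.45 * (N * B) := by ring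
      linarith only [hN, hY, hA, hqlo, e1]
    · unfold fF
      rw [neg_neg, show (0.9:ℝ) - -a = 0.9 + a by ring]
      have : (0.9 + a - a) * (I1 D a + I1 D (0.9 + a)) / 2 ≤ 0.45 * (N * A + N * B) := by linarith only [hA, hB]
      nlinarith only [hN, hA, hB, hqlo, htr]
  rcases le_total a 0.25 with h1 | h1
  · have A := i_hi h hv hδ hδ1 (y := a) (k := 5) (by norm_num) (by norm_num; linarith)
    have B := i_hi h hv hδ hδ1 (y := 0.9 + a) (k := 23) (by norm_num) (by norm_num; linarith only [h1])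
    rw [u5, w5] at A
    rw [u23, w23] at B
    exact key 0 _ _ le_rfl ha ha1 A B (by norm_num) (by norm_num) (by norm_num)
  · have A := i_hi h hv hδ hδ1 (y := a) (k := 9) (by norm_num) (by norm_num; linarith only [ha1])
    have B := i_hi h hv hδ hδ1 (y := 0.9 + a) (k := 27) (by norm_num) (by norm_num; linarith only [ha1])
    rw [u9, w9] at A
    rw [u27, w27] at B
    exact key 0.25 _ _ (by norm_num) h1 ha1 A B (by norm_num) (by norm_num) (by norm_num)

/-- renormalisation to potential `0` -/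
theorem renorm (h : P.Star) (hv : VS2 P N δ D) (hδ : 0 ≤ δ) (hδ1 : δ ≤ 0.03) {m : ℝ}
    (hm : Phi P N δ D ≤ -m) : ∃ c, Real.exp m ≤ c ∧ VS2 P (c * N) δ (fun r => c * D r) ∧
      Phi P (c * N) δ (fun r => c * D r) = 0 ∧ 1.1 ≤ c * N := by
  obtain ⟨h1, h2⟩ := hv.smul h hδ hδ1 (c := Real.exp (-Phi P N δ D)) (Real.exp_pos _)
  rw [Real.log_exp, add_neg_cancel] at h2
  exact ⟨_, Real.exp_le_exp.mpr (by linarith only [hm]), h1, h2, N_lo h h1.toVS hδ hδ1 h2.ge⟩

end Pool.Agent.CDk
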