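import Pool.Agent.CDk.D.ASM1
import Pool.Agent.CDk.D.D0
import Pool.Agent.CDk.D.FamDef
import Pool.Agent.CDk.D.GDL
import Pool.Agent.CDk.D.NUM
import Pool.Agent.CDk.D.STEP
import Pool.Agent.CDk.Defs
import Pool.Agent.CDk.FIN2
import Pool.Agent.CDk.FIN4
import Pool.Agent.CDk.FNa
import Pool.Agent.CDk.FV
import Pool.Agent.CDk.GAP
import Pool.Agent.CDk.STR

/-!
# ASM2: the step from a virtual state, `e ≥ -0.45`
-/

open MeasureTheory Set Filter Topology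

namespace Pool.Agent.CDk
variable {P : Par}

/-- `fF` at the end -/
theorem fF_end {N e : ℝ} {D : ℝ → ℝ} (hY : P.Y + e ≠ 0) : fF P N D e (P.Y + e) = N - I2 D P.Y := by
  unfold fF qG
  rw [mul_div_cancel₀ _ hY, add_sub_cancel_right]
  ring

/-- the data of a gap of sign `g` -/
structure GapAt (κ : ℝ) (x : ℝ → ℝ) (t0 a T g : ℝ) : Prop where
  hg : g = 1 ∨ g = -1
  ha : t0 + κ ≤ a
  hT : κ - 1.55 ≤ T
  x0 : x a = 0
  xT : x (a + T) = 0
  pos : ∀ t ∈ Ioo 0 T, 0 < g * x (a + t)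

theorem GapAt.nonneg {κ : ℝ} {x : ℝ → ℝ} {t0 a T g : ℝ} (hG : GapAt κ x t0 a T g) {r : ℝ} (h0 : 0 ≤ r)
    (h1 : r ≤ T) : 0 ≤ g * x (a + T - r) := by
  rcases h0.eq_or_lt with h2 | h2
  · rw [← h2, sub_zero, hG.xT, mul_zero]
  rcases h1.eq_or_lt with h3 | h3
  · rw [h3, add_sub_cancel_right, hG.x0, mul_zero]
  · have := hG.pos (T - r) ⟨by linarith, by linarith⟩
    rw [show a + (T - r) = a + T - r by ring] at this
    exact this.le

theorem GapAt.abs {κ : ℝ} {x : ℝ → ℝ} {t0 a T g : ℝ} (hG : GapAt κ x t0 a T g) {r : ℝ} (h0 : 0 ≤ r)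
    (h1 : r ≤ T) : |x (a + T - r)| = g * x (a + T - r) := by
  have h2 := hG.nonneg h0 h1
  have hga : |g| = 1 := by rcases hG.hg with h | h <;> rw [h] <;> simp
  rw [← abs_of_nonneg h2, abs_mul, hga, one_mul]

/-- the facts at the right end in the form used for scaled states -/
structure Pst (P : Par) (κ : ℝ) (x y : ℝ → ℝ) (b T g B N : ℝ) (D : ℝ → ℝ) : Prop where
  y0 : 0 ≤ -(g * y b)
  y1 : -(g * y b) ≤ B * gv P (Real.sinh (κ - P.Y) / P.sg * (N - I2 D P.Y) + I2 D P.Y) D (T - κ)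
  f1 : ∀ r, 0 ≤ r → r ≤ P.Y + (T - κ) →
    g * x (b - r) ≤ B * fF P (Real.sinh (κ - P.Y) / P.sg * (N - I2 D P.Y) + I2 D P.Y) D (T - κ) r
  f2 : ∀ r, P.Y + (T - κ) ≤ r → r ≤ T → g * x (b - r) ≤ B * (Real.sinh (κ - P.Y) / P.sg * (N - I2 D P.Y))
  E : ∃ E : ℝ → ℝ, Monotone E ∧ (∀ r, 0 ≤ E r) ∧ (∀ r ∈ Icc 0 κ, -g * x (b - r) ≤ E r) ∧
      ∫ τ in (0:ℝ)..(κ - P.Y), Real.sinh (κ - P.Y - τ) * E (κ - τ)
        ≤ Real.sinh (κ - P.Y) / P.sg * (B * W0 P D (T - κ))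

theorem pst_of_dom (h : P.Star) {κ : ℝ} (hκ1 : P.Y + P.s - 0.0001 ≤ κ) (hκ : κ < P.Y + P.s)
    {x y : ℝ → ℝ} {t0 : ℝ} (hx : Sol x y t0 κ) {a T g B N : ℝ} {D : ℝ → ℝ} (hG : GapAt κ x t0 a T g)
    (hB : 0 < B) (hD : Pf D) (hdom : Dom P κ x y a g (B * (N - I2 D P.Y)) (fun r => B * D r)) :
    Pst P κ x y (a + T) T g B N D := by
  have hY := Par.Y_pos h
  have hs := h.s_lo
  have hBD : Pf (fun r => B * D r) := hD.smul hB.le
  have hp := post_of_dom h hκ1 hκ hx hG.hg hG.ha (by linarith only [hG.hT, hκ1, hκ, hY, hs, hG]) hG.x0 hG.xT hG.pos hBD hdom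
  have e1 : Real.sinh (κ - P.Y) / P.sg * (B * (N - I2 D P.Y)) + I2 (fun r => B * D r) P.Y
      = B * (Real.sinh (κ - P.Y) / P.sg * (N - I2 D P.Y) + I2 D P.Y) := by
    rw [I2_smul]; ring
  have hE := hp.E h hκ1 hκ hBD
  rw [e1] at hp
  refine ⟨hp.y0, ?_, fun r h0 h1 => ?_, fun r h0 h1 => ?_, ?_⟩
  · have := hp.y1
    rwa [gv_smul] at this
  · have := hp.f1 r ⟨h0, h1⟩
    rwa [fF_smul] at this
  · have := hp.f2 r h0 h1
    linarith only [this]
  · rw [W0_smul] at hE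
    exact hE

section
variable {κ : ℝ} {x y : ℝ → ℝ} {t0 a T g B N δ : ℝ} {D : ℝ → ℝ}

/-- `λ = sinh(κ-Y)/sinh s` -/
theorem lam_bd (h : P.Star) (hκ1 : P.Y + P.s - 0.0001 ≤ κ) (hκ : κ < P.Y + P.s) :
    0 ≤ Real.sinh (κ - P.Y) / P.sg ∧ Real.sinh (κ - P.Y) / P.sg < 1 := by
  have hsg := Par.sg_bd h
  have hs := h.s_lo
  refine ⟨div_nonneg (Real.sinh_nonneg_iff.mpr (by linarith only [hκ1, hκ, hs])) (by linarith only [hκ1, hκ, hsg]), ?_⟩
  rw [div_lt_one (by linarith)]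
  unfold Par.sg
  exact Real.sinh_lt_sinh.mpr (by linarith)

theorem V0_pos (hv : VS P N δ D) : 0 < N - I2 D P.Y := by linarith [hv.op, hv.pos]

theorem Nl_le (h : P.Star) (hκ1 : P.Y + P.s - 0.0001 ≤ κ) (hκ : κ < P.Y + P.s) (hv : VS P N δ D) :
    Real.sinh (κ - P.Y) / P.sg * (N - I2 D P.Y) + I2 D P.Y ≤ N := by
  have h1 := lam_bd h hκ1 hκ
  have h2 := V0_pos hv
  nlinarith only [hκ1, hκ, h1, h2]

/-- inside the gap -/
theorem Pst.GD (h : P.Star) (hκ1 : P.Y + P.s - 0.0001 ≤ κ) (hκ : κ < P.Y + P.s)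
    (hD : Pf D) (hB : 0 < B) (hp : Pst P κ x y (a + T) T g B N D) (hT : κ - 1.55 ≤ T) {r : ℝ} (h0 : 0 ≤ r)
    (h1 : r ≤ T) : g * x (a + T - r)
      ≤ B * GD P (Real.sinh (κ - P.Y) / P.sg * (N - I2 D P.Y) + I2 D P.Y) D (T - κ) r := by
  have hY := Par.Y_pos h
  have hs := h.s_lo
  rcases le_total r (P.Y + (T - κ)) with h2 | h2
  · exact (hp.f1 r h0 h2).trans (mul_le_mul_of_nonneg_left (fF_le_GD hD h0 le_rfl) hB.le)
  · refine (hp.f2 r h2 h1).trans (mul_le_mul_of_nonneg_left ?_ hB.le)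
    have e1 := fF_end (P := P) (N := Real.sinh (κ - P.Y) / P.sg * (N - I2 D P.Y) + I2 D P.Y) (D := D)
      (e := T - κ) (by linarith only [hκ1, hκ, hT, hY])
    rw [add_sub_cancel_right] at e1
    exact e1.symm.le.trans (fF_le_GD hD (by linarith only [hκ1, hκ, hT, hY]) h2)

/-- inside the gap, with the virtual state -/
theorem Pst.GD' (h : P.Star) (hκ1 : P.Y + P.s - 0.0001 ≤ κ) (hκ : κ < P.Y + P.s)
    (hv : VS P N δ D) (hB : 0 < B) (hp : Pst P κ x y (a + T) T g B N D) (hT : κ - 1.55 ≤ T) {r : ℝ} (h0 : 0 ≤ r)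
    (h1 : r ≤ T) : g * x (a + T - r) ≤ B * Pool.Agent.CDk.GD P N D (T - κ) r := by
  have hY := Par.Y_pos h
  have hs := h.s_lo
  refine (hp.GD h hκ1 hκ hv.pf hB hT h0 h1).trans (mul_le_mul_of_nonneg_left ?_ hB.le)
  exact GD_monoN hv.pf (by linarith only [hκ1, hκ, hT, hY]) (Nl_le h hκ1 hκ hv) h0

/-- the whole gap -/
theorem Pst.bound (h : P.Star) (hκ1 : P.Y + P.s - 0.0001 ≤ κ) (hκ : κ < P.Y + P.s)
    (hv : VS P N δ D) (hB : 0 < B) (hp : Pst P κ x y (a + T) T g B N D) (hT : κ - 1.55 ≤ T) {r : ℝ} (h0 : 0 ≤ r)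
    (h1 : r ≤ T) : g * x (a + T - r) ≤ B * N := by
  have hY := Par.Y_pos h
  have hs := h.s_lo
  have hD := hv.pf
  have hV := V0_pos hv
  obtain ⟨l0, l1⟩ := lam_bd h hκ1 hκ
  have hI := (I2_pf hD).nonneg
  rcases le_total r (P.Y + (T - κ)) with h2 | h2
  · refine (hp.f1 r h0 h2).trans (mul_le_mul_of_nonneg_left ?_ hB.le)
    set Nl := Real.sinh (κ - P.Y) / P.sg * (N - I2 D P.Y) + I2 D P.Y with hNl
    have hNlN : Nl ≤ N := Nl_le h hκ1 hκ hv
    have hYe : 0 < P.Y + (T - κ) := by linarith only [hκ1, hκ, hT, hY]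
    have hmn : I2 D (-(T - κ)) ≤ I2 D P.Y := (I2_pf hD).mono (by linarith only [hκ1, hκ, hT, hY])
    have hNl0 : I2 D P.Y ≤ Nl := by
      rw [hNl]
      have := mul_nonneg l0 hV.le
      linarith only [this]
    have hq0 : 0 ≤ qG P Nl D (T - κ) := div_nonneg (by linarith only [hmn, hNl0]) hYe.le
    have hq1 : qG P Nl D (T - κ) * (P.Y + (T - κ)) = Nl - I2 D (-(T - κ)) := by
      unfold qG
      exact div_mul_cancel₀ _ hYe.ne'
    unfold fF
    have hmn2 : I2 D (-(T - κ)) ≤ I2 D (r - (T - κ)) := (I2_pf hD).mono (by linarith only [h0])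
    have h3 : r * qG P Nl D (T - κ) ≤ qG P Nl D (T - κ) * (P.Y + (T - κ)) := by
      rw [mul_comm]
      exact mul_le_mul_of_nonneg_left h2 hq0
    have := hI (-(T - κ))
    linarith only [hNlN, hq1, hmn2, h3, this]
  · refine (hp.f2 r h2 h1).trans (mul_le_mul_of_nonneg_left ?_ hB.le)
    have := hI P.Y
    nlinarith only [this, hκ1, hκ, hV, l1]

end

section
variable {κ : ℝ} {x y : ℝ → ℝ} {t0 a T g B N δ η : ℝ} {D : ℝ → ℝ}

/-- beyond the gap -/
theorem far_Q (F : Fam P) (hG : GapAt κ x t0 a T g) (hκ0 : 3.0443 ≤ κ) (hκ2 : κ ≤ 3.0446)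
    (hB : 0 < B) (hQ : ∀ r ∈ Icc 0 κ, |x (a - r)| ≤ B * F.Q r) {r : ℝ} (h0 : T ≤ r) (h1 : r ≤ κ) :
    |x (a + T - r)| ≤ B * F.Q (r - T) := by
  have hT := hG.hT
  have := hQ (r - T) ⟨by linarith only [h0], by linarith only [hκ0, h1, hT]⟩
  rwa [show a - (r - T) = a + T - r by ring] at this

/-- the two sided bound at the right end, `e ≥ -0.45` -/
theorem two_L (h : P.Star) (F : Fam P) (hκ1 : P.Y + P.s - 0.0001 ≤ κ) (hκ : κ < P.Y + P.s)
    (hG : GapAt κ x t0 a T g) (hB : 0 < B) (hη : η ≤ 0.0001)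
    (hv : VS2 P N δ D) (hδ : 0 ≤ δ) (hδ1 : δ ≤ 0.03) (hΦ : Phi P N δ D ≤ 0)
    (hp : Pst P κ x y (a + T) T g B N D) (he : -0.45 ≤ T - κ)
    (hQ : ∀ r ∈ Icc 0 κ, |x (a - r)| ≤ B * F.Q r) :
    ∀ r ∈ Icc 0 κ, |x (a + T - r)| ≤ (1 - η) * B * F.Q r := by
  have hY := Par.Y_pos h
  have hs := h.s_lo
  have hs' := h.s_hi
  have hT := hG.hT
  obtain ⟨t, ht, t1, t2⟩ := F.hA hv hδ hδ1 hΦ (T - κ) he
  intro r hr
  have hQ0 := F.hQ.nonneg r
  rcases le_total r T with h1 | h1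
  · rw [hG.abs hr.1 h1]
    refine (hp.GD' h hκ1 hκ hv.toVS hB hT hr.1 h1).trans ?_
    have h2 := (t2 r hr.1 (by linarith only [hr.2, hκ1, hκ, hY, hs', hr])).2
    have h3 : GD P N D (T - κ) r ≤ (1 - η) * F.Q r := by nlinarith only [hQ0, h2, hκ1, hκ, hη]
    calc B * GD P N D (T - κ) r ≤ B * ((1 - η) * F.Q r) := mul_le_mul_of_nonneg_left h3 hB.le
      _ = _ := by ring
  · refine (far_Q F hG (by linarith only [hκ1, hκ, hY, hs]) (by linarith only [hκ1, hκ, hY, hs']) hB hQ h1 hr.2).trans ?_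
    have h2 : F.Q (r - T) ≤ F.Q (r - 1.49) := F.hQ.mono (by linarith only [hκ1, hκ, he, hY, hs])
    have h3 := F.hQsh r (by linarith only [hr.2, hκ1, hκ, hY, hs', hr])
    have h4 : F.Q (r - T) ≤ (1 - η) * F.Q r := by nlinarith only [hQ0, h2, h3, hκ1, hκ, hη]
    calc B * F.Q (r - T) ≤ B * ((1 - η) * F.Q r) := mul_le_mul_of_nonneg_left h4 hB.le
      _ = _ := by ring

/-- opposite sign, short cluster, `-0.45 ≤ e < 0` -/
theorem dom_neg (h : P.Star) (F : Fam P) (hκ1 : P.Y + P.s - 0.0001 ≤ κ) (hκ : κ < P.Y + P.s)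
    (hx : Sol x y t0 κ) (hG : GapAt κ x t0 a T g) (hB : 0 < B)
    (hv : VS2 P N δ D) (hδ : 0 ≤ δ) (hδ1 : δ ≤ 0.03) (hN : 1.1 ≤ N)
    (hp : Pst P κ x y (a + T) T g B N D) (he : -0.45 ≤ T - κ) (he0 : T - κ < 0)
    (hQ : ∀ r ∈ Icc 0 κ, |x (a - r)| ≤ B * F.Q r) {a' : ℝ} (hba : a + T ≤ a') (hba1 : a' - (a + T) ≤ 0.6)
    (hxa' : x a' = 0) : Dom P κ x y a' (-g) (B * gV P N D (T - κ)) (fun r => B * GD P N D (T - κ) r) := by
  have hY := Par.Y_pos h
  have hs := h.s_lo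
  have hs' := h.s_hi
  have hsg := Par.sg_bd h
  have hT := hG.hT
  have hD := hv.pf
  have hTY : P.Y ≤ T := by linarith only [hκ1, hκ, he, hs]
  have hg' : -g = 1 ∨ -g = -1 := by rcases hG.hg with h1 | h1 <;> rw [h1] <;> norm_num
  obtain ⟨n1, n2⟩ := gvN_lo h hv.toVS hδ hδ1 hN (a := -(T - κ)) (by linarith only [he0]) (by linarith only [he])
  rw [neg_neg] at n1 n2
  have hGpf : Pf (GD P N D (T - κ)) := GD_pf hD
  set G := GD P N D (T - κ) with hGdef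
  have hGκ : 0.22 ≤ G κ := n2.trans (fF_le_GD hD (by norm_num) (by linarith only [hκ1, hκ, hY, hs]))
  have hsl : G κ ≤ κ * gv P N D (T - κ) := by
    have := GD_slope (P := P) (N := N) (e := T - κ) hD (r := κ) (by linarith only [hκ1, hκ, hY, hs])
    rwa [max_eq_left (by linarith only [hκ1, hκ, n1])] at this
  have hconc : ∀ r, 0 ≤ r → r ≤ κ → r / κ * G κ ≤ G r := fun r h0 h1 => GD_conc hD h0 h1 (by linarith only [hκ1, hκ, hY, hs])
  set m := max (G κ) 0.24 with hm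
  have hm1 : G κ ≤ m := le_max_left _ _
  have hm2 : (0.24:ℝ) ≤ m := le_max_right _ _
  have hm3 : m ≤ 12 / 11 * G κ := max_le (by linarith only [hκ1, hκ, hGκ]) (by linarith only [hGκ])
  have hm4 : 0.311047 * m ≤ gv P N D (T - κ) := by
    rcases max_cases (G κ) (0.24:ℝ) with ⟨e1, -⟩ | ⟨e1, -⟩
    · rw [hm, e1]
      have : 0.311047 * G κ ≤ 0.311047 * (3.0446 * gv P N D (T - κ)) := by
        have : κ * gv P N D (T - κ) ≤ 3.0446 * gv P N D (T - κ) := mul_le_mul_of_nonneg_right (by linarith only [hκ1, hκ, hY, hs']) (by linarith only [hκ1, hκ, n1])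
        linarith only [hsl, this]
      linarith only [hκ1, hκ, n1, this]
    · rw [hm, e1]
      linarith only [hκ1, hκ, n1]
  obtain ⟨E, e1, e2, e3, e4⟩ := hp.E
  refine next_short h hκ1 hκ hx (g := -g) (M := B * m) (gv' := B * gv P N D (T - κ))
    (W := B * W0 P D (T - κ)) hg' (by linarith only [hG.ha, hκ1, hκ, he, hY, hs, hG]) hba hba1 hG.xT hxa' ?_ ?_ ?_ ?_ ?_ ?_ ?_ ?_
  · intro r hr
    rcases le_total r T with h1 | h1
    · rw [hG.abs hr.1 h1]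
      refine (hp.GD' h hκ1 hκ hv.toVS hB hT hr.1 h1).trans (mul_le_mul_of_nonneg_left ?_ hB.le)
      exact (hGpf.mono hr.2).trans hm1
    · refine (far_Q F hG (by linarith only [hκ1, hκ, hY, hs]) (by linarith only [hκ1, hκ, hY, hs']) hB hQ h1 hr.2).trans (mul_le_mul_of_nonneg_left ?_ hB.le)
      have h2 : F.Q (r - T) ≤ F.Q 0.45 := F.hQ.mono (by linarith only [hr.2, he, hr])
      linarith only [F.hQ45, hm2, h2]
  · exact (hGpf.smul hB.le).mono
  · intro r hr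
    have := hp.GD' h hκ1 hκ hv.toVS hB hT hr.1 (hr.2.trans hTY)
    linarith only [this]
  · exact ⟨E, e1, e2, e3, e4⟩
  · have h1 := hp.y1
    have h2 := gv_monoN (P := P) (D := D) (e := T - κ) (by linarith only [hκ1, hκ, he, hY]) (Nl_le h hκ1 hκ hv.toVS)
    have h3 := mul_le_mul_of_nonneg_left h2 hB.le
    linarith only [h1, h3]
  · rw [gV_eq]
    linarith only []
  · intro r hr
    have h1 := hconc r hr.1 (by linarith only [hr.2, hκ1, hκ, hY, hs, hr])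
    have h2 : 0.3 * m * r ≤ G r := by
      have h3 : 0.3 * m * r ≤ 0.3 * (12 / 11 * G κ) * r := by
        apply mul_le_mul_of_nonneg_right _ hr.1
        linarith only [hm3]
      have h4 : 0.3 * (12 / 11 * G κ) * r ≤ r / κ * G κ := by
        have h5 : 0.3 * (12 / 11) ≤ 1 / κ := by
          rw [le_div_iff₀ (by linarith only [hκ1, hκ, hY, hs])]
          linarith only [hκ1, hκ, hY, hs']
        have h6 : 0 ≤ r * G κ := mul_nonneg hr.1 (by linarith only [hκ1, hκ, hGκ])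
        have h7 := mul_le_mul_of_nonneg_right h5 h6
        calc 0.3 * (12 / 11 * G κ) * r = 0.3 * (12 / 11) * (r * G κ) := by ring
          _ ≤ 1 / κ * (r * G κ) := h7
          _ = r / κ * G κ := by ring
      linarith only [h1, h3, h4]
    have h3 := mul_le_mul_of_nonneg_left h2 hB.le
    linarith only [h3]
  · rw [gV_eq]
    have h1 : P.sg * (0.3 * m) + 0.128 * (0.045 * m) ≤ P.sg * gv P N D (T - κ) := by
      have h2 : 0.00576 * m ≤ P.sg * (0.011047 * m) := by nlinarith only [hm2, hκ1, hsg, hκ, hGκ, hm1]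
      have h3 : P.sg * (0.311047 * m) ≤ P.sg * gv P N D (T - κ) := mul_le_mul_of_nonneg_left hm4 (by linarith only [hκ1, hκ, hsg])
      linarith only [h2, h3]
    have h2 := mul_le_mul_of_nonneg_left h1 hB.le
    linarith only [h2]

/-- opposite sign, short cluster, `e ≥ 0` -/
theorem dom_pos (h : P.Star) (F : Fam P) (hκ1 : P.Y + P.s - 0.0001 ≤ κ) (hκ : κ < P.Y + P.s)
    (hx : Sol x y t0 κ) (hG : GapAt κ x t0 a T g) (hB : 0 < B)
    (hv : VS2 P N δ D)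
    (hη : η ≤ 0.0001) (hη1 : ∀ (e V : ℝ) (D : ℝ → ℝ), 0 ≤ e → 0 < V → Pf D → V + I2 D P.Y ≤ 10 * V →
      Fq P.Y e (Real.sinh (κ - P.Y) / P.sg * V) D ≤ (1 - η) * Fq P.Y e V D ∧
      ∀ r, 0 ≤ r → r ≤ P.Y → FD P.Y e (Real.sinh (κ - P.Y) / P.sg * V) D r ≤ (1 - η) * FD P.Y e V D r)
    (hp : Pst P κ x y (a + T) T g B N D) (he0 : 0 ≤ T - κ)
    {a' : ℝ} (hba : a + T ≤ a') (hba1 : a' - (a + T) ≤ 0.6)
    (hxa' : x a' = 0) : Dom P κ x y a' (-g) ((1 - η) * B * gV P N D (T - κ))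
      (fun r => (1 - η) * B * GD P N D (T - κ) r) := by
  have hY := Par.Y_pos h
  have hs := h.s_lo
  have hs' := h.s_hi
  have hsg := Par.sg_bd h
  have hT := hG.hT
  have hD := hv.pf
  have hN := hv.pos
  have hV := V0_pos hv.toVS
  have hTY : P.Y ≤ T := by linarith only [hκ1, hκ, he0, hs]
  have hg' : -g = 1 ∨ -g = -1 := by rcases hG.hg with h1 | h1 <;> rw [h1] <;> norm_num
  obtain ⟨s1, s2⟩ := hη1 (T - κ) (N - I2 D P.Y) D he0 hV hD (by linarith only [hv.op, hv])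
  obtain ⟨q1, q2, q3, q4⟩ := qG_pos_e (N := N) h hD he0
  obtain ⟨k1, k2, k3, k4⟩ := qG_pos_e (N := Real.sinh (κ - P.Y) / P.sg * (N - I2 D P.Y) + I2 D P.Y) h hD he0
  rw [add_sub_cancel_right] at k1 k2 k3 k4
  have hGpf : Pf (GD P N D (T - κ)) := GD_pf hD
  have hgv0 : 0 < gv P N D (T - κ) := by
    rw [q2]
    unfold Fq
    apply div_pos _ (by linarith only [hκ1, hκ, he0, hY])
    linarith only [hN]
  have hW : W0 P D (T - κ) = 0 := W0_zero h hD he0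
  have hsl : GD P N D (T - κ) κ ≤ κ * gv P N D (T - κ) := by
    have := GD_slope (P := P) (N := N) (e := T - κ) hD (r := κ) (by linarith only [hκ1, hκ, hY, hs])
    rwa [max_eq_left hgv0.le] at this
  have hconc : ∀ r, 0 ≤ r → r ≤ κ → r / κ * GD P N D (T - κ) κ ≤ GD P N D (T - κ) r :=
    fun r h0 h1 => GD_conc hD h0 h1 (by linarith only [hκ1, hκ, hY, hs])
  have hGκ0 : 0 ≤ GD P N D (T - κ) κ := hGpf.nonneg _
  have hB' : 0.9999 * B ≤ (1 - η) * B := mul_le_mul_of_nonneg_right (by linarith only [hη]) hB.le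
  have hB'0 : 0 ≤ (1 - η) * B := by linarith only [hB, hB']
  obtain ⟨E, e1, e2, e3, e4⟩ := hp.E
  rw [hW, mul_zero, mul_zero] at e4
  refine next_short h hκ1 hκ hx (g := -g) (M := B * GD P N D (T - κ) κ) (gv' := (1 - η) * B * gv P N D (T - κ))
    (W := 0) hg' (by linarith only [hG.ha, hκ1, hκ, he0, hY, hs, hG]) hba hba1 hG.xT hxa' ?_ ?_ ?_ ?_ ?_ ?_ ?_ ?_
  · intro r hr
    have h1 : r ≤ T := by linarith only [hr.2, he0, hr]
    rw [hG.abs hr.1 h1]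
    refine (hp.GD' h hκ1 hκ hv.toVS hB hT hr.1 h1).trans (mul_le_mul_of_nonneg_left ?_ hB.le)
    exact hGpf.mono hr.2
  · exact (hGpf.smul hB'0).mono
  · intro r hr
    have h1 := hp.GD h hκ1 hκ hD hB hT hr.1 (hr.2.trans hTY)
    rw [k4] at h1
    have h2 := s2 r hr.1 hr.2
    rw [← q4] at h2
    have h3 := mul_le_mul_of_nonneg_left h2 hB.le
    linarith only [h1, h3]
  · exact ⟨E, e1, e2, e3, by rw [mul_zero]; exact e4⟩
  · have h1 := hp.y1
    rw [k2] at h1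
    rw [← q2] at s1
    have h3 := mul_le_mul_of_nonneg_left s1 hB.le
    linarith only [h1, h3]
  · rw [gV_eq, hW]
    linarith only []
  · intro r hr
    have h1 := hconc r hr.1 (by linarith only [hr.2, hκ1, hκ, hY, hs, hr])
    have h4 : 0.3 * GD P N D (T - κ) κ * r ≤ 0.99 * GD P N D (T - κ) r := by
      have h5 : 0.3 ≤ 0.99 * (1 / κ) := by
        rw [mul_one_div, le_div_iff₀ (by linarith only [hκ1, hκ, hY, hs])]
        linarith only [hκ1, hκ, hY, hs']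
      have h6 : 0 ≤ r * GD P N D (T - κ) κ := mul_nonneg hr.1 hGκ0
      have h7 := mul_le_mul_of_nonneg_right h5 h6
      have h8 : 0.99 * (1 / κ) * (r * GD P N D (T - κ) κ) = 0.99 * (r / κ * GD P N D (T - κ) κ) := by ring
      linarith only [h1, h7, h8]
    have h9 := mul_le_mul_of_nonneg_left h4 hB.le
    have h10 : 0.99 * (B * GD P N D (T - κ) r) ≤ (1 - η) * B * GD P N D (T - κ) r := by
      have := mul_le_mul_of_nonneg_right hB' (hGpf.nonneg r)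
      have := mul_nonneg hB.le (hGpf.nonneg r)
      linarith
    linarith only [h9, h10]
  · rw [gV_eq, hW]
    have h1 : 0.311047 * GD P N D (T - κ) κ ≤ 0.95 * gv P N D (T - κ) := by
      have : κ * gv P N D (T - κ) ≤ 3.0446 * gv P N D (T - κ) := mul_le_mul_of_nonneg_right (by linarith only [hκ1, hκ, hY, hs']) hgv0.le
      linarith only [hgv0, hsl, this]
    have h2 : P.sg * (0.3 * GD P N D (T - κ) κ) + 0.128 * (0.045 * GD P N D (T - κ) κ)
        ≤ 0.95 * (P.sg * gv P N D (T - κ)) := by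
      have h3 : 0.00576 * GD P N D (T - κ) κ ≤ P.sg * (0.011047 * GD P N D (T - κ) κ) := by nlinarith only [hGκ0, hκ1, hκ, hsg]
      have h4 : P.sg * (0.311047 * GD P N D (T - κ) κ) ≤ P.sg * (0.95 * gv P N D (T - κ)) :=
        mul_le_mul_of_nonneg_left h1 (by linarith only [hκ1, hκ, hsg])
      linarith only [h3, h4]
    have h5 := mul_le_mul_of_nonneg_left h2 hB.le
    have h6 : 0.95 * (B * (P.sg * gv P N D (T - κ))) ≤ (1 - η) * B * (P.sg * gv P N D (T - κ)) := by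
      have h7 : 0 ≤ P.sg * gv P N D (T - κ) := mul_nonneg (by linarith only [hκ1, hκ, hsg]) hgv0.le
      have := mul_le_mul_of_nonneg_right hB' h7
      have := mul_nonneg hB.le h7
      linarith
    linarith only [h5, h6]

end

end Pool.Agent.CDk
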