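import Pool.Agent.CDk.D.CLU
import Pool.Agent.CDk.D.D0
import Pool.Agent.CDk.D.FamDef
import Pool.Agent.CDk.Defs
import Pool.Agent.CDk.FIN2
import Pool.Agent.CDk.FNa
import Pool.Agent.CDk.GAP

/-!
# BIG: the state after a cluster, from the two-sided bound only

`(a0, a0 + T)` is a gap of sign `g`, `T ≥ κ - 1.55`, `b = a0 + T`, `[b, a]` a cluster with gaps at most `κ - 1.55`,
`|x(a0 - r)|, |x(b - r)| ≤ B Q r` on `[0, κ]`. Numbers: `3.04438 < κ < 3.044486`, `t0 := κ - Y`.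
`cluster` with `τ = min (a - b) (κ - 1.55)`, `M := B F.M`, `m := 0.1 B`: `Q r ≤ F.M - 0.1 min(τ, κ - r)` (for `r ≥ κ - τ ≥ 1.55` by
`hQlin`, for smaller `r` by monotonicity), gives with `L = τ ≤ 1.4945`: `|x| ≤ B L^2/8 M ≤ B cc`, `|y a| ≤ B (M L/2 - 0.1 L^2/3)`,
`|x(a-r)| ≤ B min(vc r, cc)` for `r ≤ a - b`.
* `big_same` (next gap has sign `g`): for `r > a - b` the history of sign `-g` at `a - r`: inside the gap none; before `a0`:
  `|x| ≤ B Q(r - (a-b) - T) ≤ B Q(r - 1.49)`. `E(r) = B max(L^2/8 M, Q(r - (a - b)))`; on `[κ - t0, κ]` it is at most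
  `B max(L^2/8 M, Q(3.0446 - L))` (`a - b ≥ L`). If `a = b` then `y b = 0` (`x ≥ 0` on both sides up to sign) -- take this as hypothesis
  `hy`.
* `big_opp` (next gap has sign `-g`, `a - b ≥ 0.6`): history of sign `g` at `a - r`: `≤ B Q(r - (a - b)) ≤ B Q(r - 0.6)`;
  `E(r) = B max(L^2/8 M, Q(r - (a-b) - T))`, `T ≥ 1.4943`, `a - b ≥ L`.
* `big_Q`: the two-sided bound at `a` (for `r > a - b` by monotonicity of `Q`).
`(cosh t0 - 1) ≤ 0.128 sinh t0/sg`.
-/

open MeasureTheory Set Filter Topology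

namespace Pool.Agent.CDk

private theorem big_num {P : Par} (h : P.Star) {κ : ℝ} (hκ1 : P.Y + P.s - 0.0001 ≤ κ)
    (hκ : κ < P.Y + P.s) : 3.04438 ≤ κ ∧ κ ≤ 3.044486 ∧ 0 ≤ κ - P.Y ∧ κ - P.Y ≤ P.s ∧
    2.5439 ≤ P.Y ∧ P.Y ≤ 2.543965 := by
  have hY : P.Y = P.ρ + P.u := rfl
  have h1 := h.ρ_lo
  have h2 := h.ρ_hi
  have h3 := h.u_lo
  have h4 := h.u_hi
  have h5 := h.s_lo
  have h6 := h.s_hi
  refine ⟨by linarith, by linarith, by linarith, by linarith, by linarith, by linarith⟩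

private theorem big_sg {P : Par} (h : P.Star) : 0 < P.sg := by
  have h5 := h.s_lo
  have h8 : P.sg = Real.sinh P.s := rfl
  rw [h8]
  exact Real.sinh_pos_iff.2 (by linarith)

private theorem big_cosh {P : Par} (h : P.Star) {t : ℝ} (ht0 : 0 ≤ t) (ht : t ≤ P.s) :
    P.sg * (Real.cosh t - 1) ≤ 0.128 * Real.sinh t := by
  have hsg := Par.sg_bd h
  have h8 : P.sg = Real.sinh P.s := rfl
  have h1 : Real.sinh (P.s - t) ≤ Real.sinh P.s - Real.sinh t := by
    have h2 : Real.sinh P.s = Real.sinh (P.s - t) * Real.cosh t +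
        Real.cosh (P.s - t) * Real.sinh t := by
      rw [← Real.sinh_add]
      congr 1
      ring
    have h3 : 0 ≤ Real.sinh (P.s - t) := Real.sinh_nonneg_iff.2 (by linarith)
    have h4 : 0 ≤ Real.sinh t := Real.sinh_nonneg_iff.2 ht0
    have h5 := Real.one_le_cosh t
    have h6 := Real.one_le_cosh (P.s - t)
    nlinarith
  have h2 : Real.sinh (P.s - t) = Real.sinh P.s * Real.cosh t - Real.cosh P.s * Real.sinh t :=
    Real.sinh_sub _ _
  have h3 : Real.cosh P.s ≤ 1.128 := by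
    have h4 := Real.cosh_sq P.s
    have h5 := Real.one_le_cosh P.s
    rw [← h8] at h4
    nlinarith
  have h4 : 0 ≤ Real.sinh t := Real.sinh_nonneg_iff.2 ht0
  rw [h8]
  nlinarith

private theorem big_sinh {t : ℝ} :
    ∫ τ in (0:ℝ)..t, Real.sinh (t - τ) = Real.cosh t - 1 := by
  have h1 := intervalIntegral.integral_comp_sub_left (a := 0) (b := t)
    (fun u => Real.sinh u) t
  rw [sub_self, sub_zero] at h1
  rw [h1]
  have h2 := intervalIntegral.integral_eq_sub_of_hasDerivAt (a := 0) (b := t)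
    (f := Real.cosh) (f' := Real.sinh) (fun u _ => Real.hasDerivAt_cosh u)
    (Real.continuous_sinh.intervalIntegrable _ _)
  rw [h2, Real.cosh_zero]

private theorem big_int {P : Par} (h : P.Star) {κ C : ℝ} (h0 : 0 ≤ κ - P.Y) (h1 : κ - P.Y ≤ P.s)
    (hC : 0 ≤ C) {E : ℝ → ℝ} (hE : Monotone E) (hEC : E κ ≤ C) :
    ∫ τ in (0:ℝ)..(κ - P.Y), Real.sinh (κ - P.Y - τ) * E (κ - τ) ≤
      Real.sinh (κ - P.Y) / P.sg * (0.128 * C) := by
  have hsg := big_sg h
  have hEi : IntervalIntegrable (fun τ => Real.sinh (κ - P.Y - τ) * E (κ - τ)) volume 0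
      (κ - P.Y) := by
    have h1 : IntervalIntegrable (fun τ => E (κ - τ)) volume 0 (κ - P.Y) := by
      apply AntitoneOn.intervalIntegrable
      intro u _ v _ huv
      exact hE (by linarith)
    exact h1.continuousOn_mul (by fun_prop)
  have hci : IntervalIntegrable (fun τ => Real.sinh (κ - P.Y - τ) * C) volume 0
      (κ - P.Y) := Continuous.intervalIntegrable (by fun_prop) _ _
  have h2 : ∫ τ in (0:ℝ)..(κ - P.Y), Real.sinh (κ - P.Y - τ) * E (κ - τ) ≤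
      ∫ τ in (0:ℝ)..(κ - P.Y), Real.sinh (κ - P.Y - τ) * C := by
    apply intervalIntegral.integral_mono_on h0 hEi hci
    intro τ hτ
    apply mul_le_mul_of_nonneg_left
    · exact le_trans (hE (by linarith [hτ.1])) hEC
    · exact Real.sinh_nonneg_iff.2 (by linarith [hτ.2])
  rw [intervalIntegral.integral_mul_const, big_sinh] at h2
  refine le_trans h2 ?_
  rw [div_mul_eq_mul_div, le_div_iff₀ hsg]
  have h3 := big_cosh h h0 h1
  nlinarith

private theorem big_abs {g : ℝ} (hg : g = 1 ∨ g = -1) (z : ℝ) : g * z ≤ |z| ∧ -(g * z) ≤ |z| := by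
  rcases hg with rfl | rfl
  · rw [one_mul]
    exact ⟨le_abs_self z, neg_le_abs z⟩
  · rw [neg_one_mul, neg_neg]
    exact ⟨neg_le_abs z, le_abs_self z⟩

private theorem big_L {M L : ℝ} (hM : 0.7 ≤ M) (h0 : 0 ≤ L) (h1 : L ≤ 1.4945) :
    M * L / 2 - 0.1 * L^2 / 3 ≤ M * 0.7473 - 0.0744 ∧ 0 ≤ M * L / 2 - 0.1 * L^2 / 3 ∧
    L^2 / 8 * M ≤ 0.2792 * M ∧ 0 ≤ L^2 / 8 * M ∧ L^2 ≤ 2.2336 := by
  have h2 : L^2 ≤ 2.2336 := by nlinarith
  refine ⟨?_, ?_, ?_, ?_, h2⟩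
  · have h3 : 0.7 * (0.7473 - L / 2) ≤ M * (0.7473 - L / 2) :=
      mul_le_mul_of_nonneg_right hM (by linarith)
    nlinarith
  · have h3 : 0.7 * L ≤ M * L := mul_le_mul_of_nonneg_right hM h0
    nlinarith
  · nlinarith
  · positivity

private theorem big_cl {P : Par} (h : P.Star) (F : Fam P) {κ : ℝ} (hκ1 : P.Y + P.s - 0.0001 ≤ κ)
    (hκ : κ < P.Y + P.s) {x y : ℝ → ℝ} {t0 : ℝ} (hx : Sol x y t0 κ) {b a B : ℝ}
    (hb : t0 + κ ≤ b) (hba : b ≤ a) (hB : 0 < B) (hxb : x b = 0) (hxa : x a = 0)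
    (hgap : ∀ z1 z2, b ≤ z1 → z1 < z2 → z2 ≤ a → (∀ t ∈ Ioo z1 z2, x t ≠ 0) → z2 - z1 ≤ κ - 1.55)
    (hQb : ∀ r ∈ Icc 0 κ, |x (b - r)| ≤ B * F.Q r) :
    ∃ L, 0 ≤ L ∧ L ≤ 1.4945 ∧ L ≤ a - b ∧ (0.6 ≤ a - b → 0.6 ≤ L) ∧
      (∀ t ∈ Icc b a, |x t| ≤ B * (L^2 / 8 * F.M)) ∧
      (b < a → |y a| ≤ B * (F.M * L / 2 - 0.1 * L^2 / 3)) ∧
      (∀ r ∈ Icc 0 (a - b), |x (a - r)| ≤ B * min (F.vc * r) F.cc) := by
  obtain ⟨hk1, hk2, hk3, hk4, hk5, hk6⟩ := big_num h hκ1 hκ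
  have hM := F.hM
  have hL0 : 0 ≤ min (a - b) (κ - 1.55) := le_min (by linarith) (by linarith)
  have hL1 : min (a - b) (κ - 1.55) ≤ 1.4945 := le_trans (min_le_right _ _) (by linarith)
  have hL2 : min (a - b) (κ - 1.55) ≤ a - b := min_le_left _ _
  have hL3 : 0.6 ≤ a - b → 0.6 ≤ min (a - b) (κ - 1.55) := fun h6 => le_min h6 (by linarith)
  have hgap' : ∀ z1 z2, b ≤ z1 → z1 < z2 → z2 ≤ a → (∀ t ∈ Ioo z1 z2, x t ≠ 0) →
      z2 - z1 ≤ min (a - b) (κ - 1.55) := fun z1 z2 h1 h2 h3 h4 =>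
    le_min (by linarith) (hgap z1 z2 h1 h2 h3 h4)
  generalize min (a - b) (κ - 1.55) = L at hL0 hL1 hL2 hL3 hgap'
  obtain ⟨hl1, hl2, hl3, hl4, hl5⟩ := big_L hM hL0 hL1
  have hBM : 0 ≤ B * F.M := by positivity
  have hH : ∀ r ∈ Icc 0 κ, |x (b - r)| ≤ B * F.M - 0.1 * B * min L (κ - r) := by
    intro r hr
    refine le_trans (hQb r hr) ?_
    have h1 : F.Q r ≤ F.M - 0.1 * min L (κ - r) := by
      rcases le_or_gt r 1.55 with h2 | h2
      · have h3 := F.hQlin 1.55 (by norm_num) (by norm_num)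
        have h4 : F.Q r ≤ F.Q 1.55 := F.hQ.mono h2
        have h5 : min L (κ - r) ≤ L := min_le_left _ _
        linarith
      · have h3 := F.hQlin r (by linarith) (by linarith [hr.2])
        have h5 : min L (κ - r) ≤ κ - r := min_le_right _ _
        linarith
    have h2 := mul_le_mul_of_nonneg_left h1 hB.le
    calc B * F.Q r ≤ B * (F.M - 0.1 * min L (κ - r)) := h2
      _ = B * F.M - 0.1 * B * min L (κ - r) := by ring
  obtain ⟨hc1, hc2, hc3⟩ := cluster hx (by linarith) (b := b) (a := a) (τ := L) (M := B * F.M)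
    (m := 0.1 * B) hb hba hxb hxa (by positivity) hL0 (by linarith)
    (by
      have h1 : 0.1 * L ≤ F.M * (1 - L^2/8) := by
        have h2 : 0.7 * (1 - L^2/8) ≤ F.M * (1 - L^2/8) :=
          mul_le_mul_of_nonneg_right hM (by linarith)
        nlinarith
      have h2 := mul_le_mul_of_nonneg_left h1 hB.le
      calc 0.1 * B * L = B * (0.1 * L) := by ring
        _ ≤ B * (F.M * (1 - L^2/8)) := h2
        _ = B * F.M * (1 - L^2/8) := by ring)
    (by
      have h1 : 4 * 0.1 * L ≤ 3 * F.M := by linarith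
      have h2 := mul_le_mul_of_nonneg_left h1 hB.le
      calc 4 * (0.1 * B) * L = B * (4 * 0.1 * L) := by ring
        _ ≤ B * (3 * F.M) := h2
        _ = 3 * (B * F.M) := by ring)
    hgap' hH
  have hX : ∀ t ∈ Icc b a, |x t| ≤ B * (L^2 / 8 * F.M) := by
    intro t ht
    calc |x t| ≤ L^2 / 8 * (B * F.M) := hc1 t ht
      _ = B * (L^2 / 8 * F.M) := by ring
  refine ⟨L, hL0, hL1, hL2, hL3, hX, ?_, ?_⟩
  · intro hlt
    calc |y a| ≤ B * F.M * L / 2 - 0.1 * B * L^2 / 3 := hc2 hlt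
      _ = B * (F.M * L / 2 - 0.1 * L^2 / 3) := by ring
  · intro r hr
    have h1 : |x (a - r)| ≤ B * (F.vc * r) := by
      have h2 : (F.M * L / 2 - 0.1 * L^2 / 3) * r ≤ F.vc * r :=
        mul_le_mul_of_nonneg_right (le_trans hl1 F.hvc) hr.1
      calc |x (a - r)| ≤ (B * F.M * L / 2 - 0.1 * B * L^2 / 3) * r := hc3 r hr
        _ = B * ((F.M * L / 2 - 0.1 * L^2 / 3) * r) := by ring
        _ ≤ B * (F.vc * r) := mul_le_mul_of_nonneg_left h2 hB.le
    have h2 : |x (a - r)| ≤ B * F.cc := by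
      refine le_trans (hX (a - r) ⟨by linarith [hr.2], by linarith [hr.1]⟩) ?_
      exact mul_le_mul_of_nonneg_left (le_trans hl3 F.hcc) hB.le
    rcases min_choice (F.vc * r) F.cc with h3 | h3 <;> rw [h3] <;> assumption

private theorem big_div {B u v : ℝ} (hB : 0 < B) (h : 1.0002 * u ≤ v) : B * u ≤ B / 1.0002 * v := by
  rw [div_mul_eq_mul_div, le_div_iff₀ (by norm_num)]
  nlinarith

/-- the opening part -/
private theorem big_V {P : Par} (h : P.Star) {κ B A C V : ℝ} (h0 : 0 ≤ κ - P.Y)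
    (h1 : κ - P.Y ≤ P.s) (hB : 0 < B) (hC : 0 ≤ C) {E : ℝ → ℝ} (hE : Monotone E)
    (hEC : E κ ≤ B * C) {z : ℝ} (hz : z ≤ B * A) (hV : 1.0002 * (P.sg * A + 0.128 * C) ≤ V) :
    z * Real.sinh (κ - P.Y) + ∫ τ in (0:ℝ)..(κ - P.Y), Real.sinh (κ - P.Y - τ) * E (κ - τ) ≤
      Real.sinh (κ - P.Y) / P.sg * (B / 1.0002 * V) := by
  have hsg := big_sg h
  have h2 := big_int h h0 h1 (C := B * C) (by positivity) hE hEC
  have h3 : 0 ≤ Real.sinh (κ - P.Y) := Real.sinh_nonneg_iff.2 h0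
  have h4 : z * Real.sinh (κ - P.Y) ≤ Real.sinh (κ - P.Y) / P.sg * (B * (P.sg * A)) := by
    have h5 : Real.sinh (κ - P.Y) / P.sg * (B * (P.sg * A)) = (B * A) * Real.sinh (κ - P.Y) := by
      field_simp
    rw [h5]
    exact mul_le_mul_of_nonneg_right hz h3
  have h6 : Real.sinh (κ - P.Y) / P.sg * (B * (P.sg * A + 0.128 * C)) ≤
      Real.sinh (κ - P.Y) / P.sg * (B / 1.0002 * V) :=
    mul_le_mul_of_nonneg_left (big_div hB hV) (div_nonneg h3 hsg.le)
  have h7 : Real.sinh (κ - P.Y) / P.sg * (B * (P.sg * A + 0.128 * C)) =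
      Real.sinh (κ - P.Y) / P.sg * (B * (P.sg * A)) +
        Real.sinh (κ - P.Y) / P.sg * (0.128 * (B * C)) := by ring
  linarith

private theorem big_min {P : Par} (F : Fam P) {r : ℝ} (hr : 0 ≤ r) : 0 ≤ min (F.vc * r) F.cc := by
  have h1 := F.hvc
  have h2 := F.hcc
  have h3 := F.hM
  exact le_min (mul_nonneg (by linarith) hr) (by linarith)

private theorem big_pf {D : ℝ → ℝ} (hD : Pf D) (r : ℝ) : 0 ≤ D r := by
  rcases le_or_gt r 0 with h | h
  · rw [hD.zero r h]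
  · have := hD.mono h.le
    rwa [hD.zero 0 le_rfl] at this

theorem big_same {P : Par} (h : P.Star) (F : Fam P) {κ : ℝ} (hκ1 : P.Y + P.s - 0.0001 ≤ κ)
    (hκ : κ < P.Y + P.s) {x y : ℝ → ℝ} {t0 : ℝ} (hx : Sol x y t0 κ) {a0 T b a g B : ℝ}
    (hg : g = 1 ∨ g = -1) (ha0 : t0 + κ ≤ a0) (hT : κ - 1.55 ≤ T) (hbT : b = a0 + T) (hba : b ≤ a)
    (hB : 0 < B) (hxa0 : x a0 = 0) (hxb : x b = 0) (hxa : x a = 0)
    (hpos : ∀ t ∈ Ioo 0 T, 0 < g * x (a0 + t))
    (hgap : ∀ z1 z2, b ≤ z1 → z1 < z2 → z2 ≤ a → (∀ t ∈ Ioo z1 z2, x t ≠ 0) → z2 - z1 ≤ κ - 1.55)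
    (hQa : ∀ r ∈ Icc 0 κ, |x (a0 - r)| ≤ B * F.Q r) (hQb : ∀ r ∈ Icc 0 κ, |x (b - r)| ≤ B * F.Q r)
    (hy : a = b → y b = 0) :
    Dom P κ x y a g (B / 1.0002 * F.Sl.1) (fun r => B / 1.0002 * F.Sl.2 r) := by
  obtain ⟨hk1, hk2, hk3, hk4, hk5, hk6⟩ := big_num h hκ1 hκ
  obtain ⟨L, hL0, hL1, hL2, hL3, hX, hYa, hXr⟩ := big_cl h F hκ1 hκ hx (by linarith) hba hB hxb hxa
    hgap hQb
  have hM := F.hM
  obtain ⟨hl1, hl2, hl3, hl4, hl5⟩ := big_L hM hL0 hL1
  refine ⟨?_, fun r => B * max (L^2 / 8 * F.M) (F.Q (r - (a - b))), ?_, ?_, ?_, ?_⟩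
  · intro r hr
    simp only
    rcases le_or_gt r (a - b) with h1 | h1
    · have h2 := hXr r ⟨hr.1, h1⟩
      exact le_trans (big_abs hg _).2 (le_trans h2 (big_div hB (F.hSlc r hr.1 hr.2)))
    · rcases lt_or_ge (r - (a - b)) T with h2 | h2
      · have h3 := hpos (T - (r - (a - b))) ⟨by linarith, by linarith⟩
        have h4 : a0 + (T - (r - (a - b))) = a - r := by
          rw [hbT]
          ring
        rw [h4] at h3
        have h5 := big_pf (F.hT _ F.hSl).2 r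
        have h6 : 0 ≤ B / 1.0002 * F.Sl.2 r := by positivity
        linarith
      · have h3 := hQa (r - (a - b) - T) ⟨by linarith, by linarith [hr.2]⟩
        have h4 : a0 - (r - (a - b) - T) = a - r := by
          rw [hbT]
          ring
        rw [h4] at h3
        have h5 : F.Q (r - (a - b) - T) ≤ F.Q (r - 1.49) := F.hQ.mono (by linarith)
        have h6 : B * F.Q (r - (a - b) - T) ≤ B * F.Q (r - 1.49) :=
          mul_le_mul_of_nonneg_left h5 hB.le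
        exact le_trans (big_abs hg _).2 (le_trans h3 (le_trans h6 (big_div hB (F.hSlQ r hr.2))))
  · intro r r' hrr
    exact mul_le_mul_of_nonneg_left (max_le_max le_rfl (F.hQ.mono (by linarith))) hB.le
  · intro r
    exact mul_nonneg hB.le (le_trans hl4 (le_max_left _ _))
  · intro r hr
    simp only
    rcases le_or_gt r (a - b) with h1 | h1
    · have h2 := hX (a - r) ⟨by linarith, by linarith [hr.1]⟩
      exact le_trans (big_abs hg _).1 (le_trans h2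
        (mul_le_mul_of_nonneg_left (le_max_left _ _) hB.le))
    · have h2 := hQb (r - (a - b)) ⟨by linarith, by linarith [hr.2]⟩
      have h3 : b - (r - (a - b)) = a - r := by ring
      rw [h3] at h2
      exact le_trans (big_abs hg _).1 (le_trans h2
        (mul_le_mul_of_nonneg_left (le_max_right _ _) hB.le))
  · refine big_V h hk3 hk4 hB (A := F.M * L / 2 - 0.1 * L^2 / 3)
      (C := max (L^2 / 8 * F.M) (F.Q (3.0446 - L))) (le_trans hl4 (le_max_left _ _))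
      (E := fun r => B * max (L^2 / 8 * F.M) (F.Q (r - (a - b)))) ?_ ?_ (z := g * y a) ?_
      (F.hSlV L hL0 hL1)
    · intro r r' hrr
      exact mul_le_mul_of_nonneg_left (max_le_max le_rfl (F.hQ.mono (by linarith))) hB.le
    · exact mul_le_mul_of_nonneg_left (max_le_max le_rfl (F.hQ.mono (by linarith))) hB.le
    · rcases eq_or_lt_of_le hba with h1 | h1
      · have h2 : y a = 0 := by
          rw [← h1]
          exact hy h1.symm
        rw [h2, mul_zero]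
        positivity
      · exact le_trans (big_abs hg _).1 (hYa h1)

theorem big_opp {P : Par} (h : P.Star) (F : Fam P) {κ : ℝ} (hκ1 : P.Y + P.s - 0.0001 ≤ κ)
    (hκ : κ < P.Y + P.s) {x y : ℝ → ℝ} {t0 : ℝ} (hx : Sol x y t0 κ) {a0 T b a g B : ℝ}
    (hg : g = 1 ∨ g = -1) (ha0 : t0 + κ ≤ a0) (hT : κ - 1.55 ≤ T) (hbT : b = a0 + T)
    (hba : 0.6 ≤ a - b) (hB : 0 < B) (hxa0 : x a0 = 0) (hxb : x b = 0) (hxa : x a = 0)
    (hpos : ∀ t ∈ Ioo 0 T, 0 < g * x (a0 + t))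
    (hgap : ∀ z1 z2, b ≤ z1 → z1 < z2 → z2 ≤ a → (∀ t ∈ Ioo z1 z2, x t ≠ 0) → z2 - z1 ≤ κ - 1.55)
    (hQa : ∀ r ∈ Icc 0 κ, |x (a0 - r)| ≤ B * F.Q r) (hQb : ∀ r ∈ Icc 0 κ, |x (b - r)| ≤ B * F.Q r) :
    Dom P κ x y a (-g) (B / 1.0002 * F.Sc.1) (fun r => B / 1.0002 * F.Sc.2 r) := by
  obtain ⟨hk1, hk2, hk3, hk4, hk5, hk6⟩ := big_num h hκ1 hκ
  obtain ⟨L, hL0, hL1, hL2, hL3, hX, hYa, hXr⟩ := big_cl h F hκ1 hκ hx (by linarith)
    (by linarith) hB hxb hxa hgap hQb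
  have hM := F.hM
  obtain ⟨hl1, hl2, hl3, hl4, hl5⟩ := big_L hM hL0 hL1
  have hg' : -g = 1 ∨ -g = -1 := by
    rcases hg with rfl | rfl
    · right
      rfl
    · left
      norm_num
  refine ⟨?_, fun r => B * max (L^2 / 8 * F.M) (F.Q (r - (a - b) - T)), ?_, ?_, ?_, ?_⟩
  · intro r hr
    simp only
    rcases le_or_gt r (a - b) with h1 | h1
    · have h2 := hXr r ⟨hr.1, h1⟩
      exact le_trans (big_abs hg' _).2 (le_trans h2 (big_div hB (F.hScc r hr.1 hr.2)))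
    · have h2 := hQb (r - (a - b)) ⟨by linarith, by linarith [hr.2]⟩
      have h3 : b - (r - (a - b)) = a - r := by ring
      rw [h3] at h2
      have h5 : F.Q (r - (a - b)) ≤ F.Q (r - 0.6) := F.hQ.mono (by linarith)
      have h6 : B * F.Q (r - (a - b)) ≤ B * F.Q (r - 0.6) :=
        mul_le_mul_of_nonneg_left h5 hB.le
      exact le_trans (big_abs hg' _).2 (le_trans h2 (le_trans h6 (big_div hB (F.hScQ r hr.2))))
  · intro r r' hrr
    exact mul_le_mul_of_nonneg_left (max_le_max le_rfl (F.hQ.mono (by linarith))) hB.le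
  · intro r
    exact mul_nonneg hB.le (le_trans hl4 (le_max_left _ _))
  · intro r hr
    simp only
    rcases le_or_gt r (a - b) with h1 | h1
    · have h2 := hX (a - r) ⟨by linarith, by linarith [hr.1]⟩
      exact le_trans (big_abs hg' _).1 (le_trans h2
        (mul_le_mul_of_nonneg_left (le_max_left _ _) hB.le))
    · rcases lt_or_ge (r - (a - b)) T with h2 | h2
      · have h3 := hpos (T - (r - (a - b))) ⟨by linarith, by linarith⟩
        have h4 : a0 + (T - (r - (a - b))) = a - r := by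
          rw [hbT]
          ring
        rw [h4] at h3
        have h6 : 0 ≤ B * max (L^2 / 8 * F.M) (F.Q (r - (a - b) - T)) :=
          mul_nonneg hB.le (le_trans hl4 (le_max_left _ _))
        have h7 : -g * x (a - r) = -(g * x (a - r)) := by ring
        rw [h7]
        linarith
      · have h3 := hQa (r - (a - b) - T) ⟨by linarith, by linarith [hr.2]⟩
        have h4 : a0 - (r - (a - b) - T) = a - r := by
          rw [hbT]
          ring
        rw [h4] at h3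
        exact le_trans (big_abs hg' _).1 (le_trans h3
          (mul_le_mul_of_nonneg_left (le_max_right _ _) hB.le))
  · refine big_V h hk3 hk4 hB (A := F.M * L / 2 - 0.1 * L^2 / 3)
      (C := max (L^2 / 8 * F.M) (F.Q (3.0446 - L - 1.4943))) (le_trans hl4 (le_max_left _ _))
      (E := fun r => B * max (L^2 / 8 * F.M) (F.Q (r - (a - b) - T))) ?_ ?_ (z := -g * y a) ?_
      (F.hScV L (hL3 hba) hL1)
    · intro r r' hrr
      exact mul_le_mul_of_nonneg_left (max_le_max le_rfl (F.hQ.mono (by linarith))) hB.le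
    · exact mul_le_mul_of_nonneg_left (max_le_max le_rfl (F.hQ.mono (by linarith))) hB.le
    · exact le_trans (big_abs hg' _).1 (hYa (by linarith))

theorem big_Q {P : Par} (h : P.Star) (F : Fam P) {κ : ℝ} (hκ1 : P.Y + P.s - 0.0001 ≤ κ)
    (hκ : κ < P.Y + P.s) {x y : ℝ → ℝ} {t0 : ℝ} (hx : Sol x y t0 κ) {b a B : ℝ}
    (hb : t0 + κ ≤ b) (hba : b ≤ a) (hB : 0 < B) (hxb : x b = 0) (hxa : x a = 0)
    (hgap : ∀ z1 z2, b ≤ z1 → z1 < z2 → z2 ≤ a → (∀ t ∈ Ioo z1 z2, x t ≠ 0) → z2 - z1 ≤ κ - 1.55)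
    (hQb : ∀ r ∈ Icc 0 κ, |x (b - r)| ≤ B * F.Q r) :
    (∀ r ∈ Icc 0 κ, |x (a - r)| ≤ B * F.Q r) ∧ ∀ t ∈ Icc b a, |x t| ≤ B * F.M := by
  obtain ⟨hk1, hk2, hk3, hk4, hk5, hk6⟩ := big_num h hκ1 hκ
  obtain ⟨L, hL0, hL1, hL2, hL3, hX, hYa, hXr⟩ := big_cl h F hκ1 hκ hx hb hba hB hxb hxa hgap hQb
  have hM := F.hM
  obtain ⟨hl1, hl2, hl3, hl4, hl5⟩ := big_L hM hL0 hL1
  refine ⟨?_, ?_⟩
  · intro r hr
    rcases le_or_gt r (a - b) with h1 | h1
    · have h2 := hXr r ⟨hr.1, h1⟩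
      have h3 := F.hQc r hr.1 (by linarith [hr.2])
      have h4 := big_min F hr.1
      exact le_trans h2 (mul_le_mul_of_nonneg_left (by linarith) hB.le)
    · have h2 := hQb (r - (a - b)) ⟨by linarith, by linarith [hr.2]⟩
      have h3 : b - (r - (a - b)) = a - r := by ring
      rw [h3] at h2
      exact le_trans h2 (mul_le_mul_of_nonneg_left (F.hQ.mono (by linarith)) hB.le)
  · intro t ht
    exact le_trans (hX t ht) (mul_le_mul_of_nonneg_left (by linarith) hB.le)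

end Pool.Agent.CDk
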