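import Pool.Agent.CDk.D.TabS
import Pool.Agent.CDk.Defs
import Pool.Agent.CDk.FNb
import Pool.Agent.CDk.FV
import Pool.Agent.CDk.GAP
import Pool.Agent.CDk.POT1
import Pool.Agent.CDk.PS

/-!
# COUP: linear functionals of a virtual state are bounded by the potential

With `i = I1 D/N`: `N (c0 - ∫ k i) = A N psi(i) + N [(c0 - ∫ k io - A psi(io)) - ∫ (k - A mb1)(i - io)]`
(`psi(i) = 1 - ∫_0^{ρ-e0} mb(y+e0) i`, `∫_0^{ρ-e0} = ∫_0^{2.2}` of `mb1`), `N psi(i) ≤ exp(-50 δ^2)` by `Phi ≤ 0`, so it is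
`≤ A exp(-50δ^2) + N (Q - A psi(io) + δ K)`, `psi io ≥ 0.8316` (`psi_io`), `N ≤ 1.2155` (`N_hi`). If `Q - 0.8316 A + δK ≤ 0` done. Else
`1 - exp(-50δ^2) ≥ 48.8 δ^2` for `δ ≤ 0.03`, and `1.2155 (δ K - (0.8316 A - Q)) ≤ 48.8 A δ^2` by AM-GM as
`K^2 ≤ 159 A (0.8316 A - Q)` (`4 * 48.8/1.2155 = 160.5`).
`N_hi`: `N psi(i) ≤ exp(-50δ^2) ≤ 1/(1+50δ^2)`, `psi(i) ≥ 0.8316 - 1.2 δ` (`psi_near`), `(1+50δ^2)(0.8316-1.2δ) ≥ 0.82275` (minimum at
`δ = 0.0149`; `1/0.82275 = 1.21544`).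
`N_lo`: `N psi(i) ≥ exp(-50 δ^2) ≥ 0.955`, `psi(i) ≤ 0.868`.
-/

open MeasureTheory Set Filter Topology

namespace Pool.Agent.CDk
variable {P : Par} {N δ : ℝ} {D : ℝ → ℝ}

private theorem cp_psi (h : P.Star) (hv : VS P N δ D) (hδ : 0 ≤ δ) :
    0.8316 - 1.2 * δ ≤ P.psi (fun y => I1 D y / N) ∧ P.psi (fun y => I1 D y / N) ≤ 0.8318 + 1.2 * δ := by
  have a1 := Par.psi_io h
  have a2 := abs_le.mp (Par.psi_near h hδ hv.tube)
  constructor <;> linarith [a1.1, a1.2, a2.1, a2.2]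

private theorem cp_exp (h : P.Star) (hv : VS P N δ D) (hδ : 0 ≤ δ) (hδ1 : δ ≤ 0.03) (hΦ : Phi P N δ D ≤ 0) :
    N * P.psi (fun y => I1 D y / N) ≤ Real.exp (-(50 * δ^2)) := by
  have hN := hv.pos
  have hp := (cp_psi h hv hδ).1
  have hp0 : 0 < P.psi (fun y => I1 D y / N) := by linarith only [hδ1, hp]
  unfold Phi at hΦ
  rw [← Real.log_le_iff_le_exp (mul_pos hN hp0)]
  linarith only [hΦ]

theorem N_hi (h : P.Star) (hv : VS P N δ D) (hδ : 0 ≤ δ) (hδ1 : δ ≤ 0.03) (hΦ : Phi P N δ D ≤ 0) :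
    N ≤ 1.2155 := by
  have hN := hv.pos
  have hp := (cp_psi h hv hδ).1
  have h1 := cp_exp h hv hδ hδ1 hΦ
  have h2 : Real.exp (-(50 * δ^2)) * (1 + 50 * δ^2) ≤ 1 := by
    have h3 := Real.add_one_le_exp (50 * δ^2)
    have h4 : Real.exp (-(50 * δ^2)) * Real.exp (50 * δ^2) = 1 := by
      rw [← Real.exp_add]; simp
    have h5 := mul_le_mul_of_nonneg_left h3 (Real.exp_pos (-(50 * δ^2))).le
    linarith only [h4, h5]
  have h6 : N * (0.8316 - 1.2 * δ) ≤ Real.exp (-(50 * δ^2)) :=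
    le_trans (mul_le_mul_of_nonneg_left hp hN.le) h1
  have h7 : N * (0.8316 - 1.2 * δ) * (1 + 50 * δ^2) ≤ 1 :=
    le_trans (mul_le_mul_of_nonneg_right h6 (by positivity)) h2
  have h8 : 0.82272 ≤ (0.8316 - 1.2 * δ) * (1 + 50 * δ^2) := by
    have h9 : 0 ≤ (δ - 0.0149)^2 * (41.58 - 60 * (δ + 0.0298)) := by
      apply mul_nonneg (sq_nonneg _)
      norm_num at hδ1 ⊢
      linarith only [hδ1]
    norm_num at hδ1 h9 ⊢
    nlinarith only [h9, hδ1]
  have h10 := mul_le_mul_of_nonneg_left h8 hN.le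
  have h11 : N * 0.82272 ≤ 1 := by
    have : N * ((0.8316 - 1.2 * δ) * (1 + 50 * δ^2)) = N * (0.8316 - 1.2 * δ) * (1 + 50 * δ^2) := by ring
    linarith only [h7, h10]
  norm_num at h11 ⊢
  linarith only [h7, h10]

theorem N_lo (h : P.Star) (hv : VS P N δ D) (hδ : 0 ≤ δ) (hδ1 : δ ≤ 0.03) (hΦ : 0 ≤ Phi P N δ D) :
    1.1 ≤ N := by
  have hN := hv.pos
  have hp := cp_psi h hv hδ
  have hp0 : 0 < P.psi (fun y => I1 D y / N) := by linarith only [hp.1, hδ1, hp]
  unfold Phi at hΦ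
  have h1 : Real.exp (-(50 * δ^2)) ≤ N * P.psi (fun y => I1 D y / N) := by
    rw [← Real.le_log_iff_exp_le (mul_pos hN hp0)]
    linarith only [hΦ]
  have h2 := Real.add_one_le_exp (-(50 * δ^2))
  have h3 : δ^2 ≤ 0.0009 := by
    norm_num at hδ1 ⊢
    nlinarith only [hδ1, hδ]
  have h4 : N * P.psi (fun y => I1 D y / N) ≤ N * 0.8678 :=
    mul_le_mul_of_nonneg_left (by norm_num at hδ1 hp ⊢; linarith only [hp.2, hδ1, hp]) hN.le
  norm_num at h3 h4 ⊢
  linarith only [h1, h2, h3, h4]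

private theorem cp_int (h : P.Star) : IntervalIntegrable (mb1 P) volume 0 2.2 := by
  have h1 : Continuous fun y => P.mb (y + P.e0) := (Par.mb_cont h).comp (by fun_prop)
  have h2 : mb1 P = (Iio (P.ρ - P.e0)).indicator (fun y => P.mb (y + P.e0)) := by
    funext y
    unfold mb1
    by_cases hy : y < P.ρ - P.e0
    · rw [if_pos hy, indicator_of_mem (mem_Iio.mpr hy)]
    · rw [if_neg hy, indicator_of_notMem (fun hh => hy (mem_Iio.mp hh))]
  rw [h2, intervalIntegrable_iff]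
  exact ((intervalIntegrable_iff.mp (h1.intervalIntegrable 0 2.2))).integrable.indicator measurableSet_Iio

private theorem cp_eq (h : P.Star) {g : ℝ → ℝ} (hg : Continuous g) :
    ∫ y in (0:ℝ)..2.2, mb1 P y * g y = ∫ y in (0:ℝ)..(P.ρ - P.e0), P.mb (y + P.e0) * g y := by
  have hc0 : 0 ≤ P.ρ - P.e0 := by linarith only [h.ρ_lo, h.e_hi, h]
  have hc1 : P.ρ - P.e0 ≤ 2.2 := by linarith only [h.ρ_hi, h.e_lo, h]
  have hi : IntervalIntegrable (fun y => mb1 P y * g y) volume 0 2.2 :=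
    (cp_int h).mul_continuousOn hg.continuousOn
  have h1 : IntervalIntegrable (fun y => mb1 P y * g y) volume 0 (P.ρ - P.e0) := by
    apply hi.mono_set
    rw [uIcc_of_le hc0, uIcc_of_le (by norm_num)]
    exact Icc_subset_Icc le_rfl hc1
  have h2 : IntervalIntegrable (fun y => mb1 P y * g y) volume (P.ρ - P.e0) 2.2 := by
    apply hi.mono_set
    rw [uIcc_of_le hc1, uIcc_of_le (by norm_num)]
    exact Icc_subset_Icc hc0 le_rfl
  rw [← intervalIntegral.integral_add_adjacent_intervals h1 h2]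
  have e1 : ∫ y in (P.ρ - P.e0)..2.2, mb1 P y * g y = 0 := by
    rw [intervalIntegral.integral_congr (g := fun _ => (0:ℝ))]
    · simp
    · intro y hy
      rw [uIcc_of_le hc1] at hy
      simp only [mb1]
      rw [if_neg (not_lt.mpr hy.1), zero_mul]
  rw [e1, add_zero]
  apply intervalIntegral.integral_congr_ae
  have hne : ∀ᵐ y : ℝ, y ≠ P.ρ - P.e0 := by
    rw [ae_iff]
    simp
  filter_upwards [hne] with y hy hy2
  rw [uIoc_of_le hc0] at hy2
  unfold mb1
  rw [if_pos (lt_of_le_of_ne hy2.2 hy)]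

theorem coup (h : P.Star) (hv : VS P N δ D) (hδ : 0 ≤ δ) (hδ1 : δ ≤ 0.03) (hΦ : Phi P N δ D ≤ 0)
    {A Q K c0 : ℝ} {k : ℝ → ℝ} (hki : IntervalIntegrable k volume 0 2.2) (hA : 0 ≤ A)
    (hQ : Q ≤ 0.8316 * A) (hK0 : 0 ≤ K) (hK : K^2 ≤ 159 * A * (0.8316 * A - Q))
    (hc : c0 - ∫ y in (0:ℝ)..2.2, k y * P.io y ≤ Q)
    (hk : ∫ y in (0:ℝ)..2.2, |k y - A * mb1 P y| * w y ≤ K) :
    N * (c0 - ∫ y in (0:ℝ)..2.2, k y * (I1 D y / N)) ≤ A := by
  have hN := hv.pos
  have hN1 := N_hi h hv hδ hδ1 hΦ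
  have he := cp_exp h hv hδ hδ1 hΦ
  have hio := (Par.psi_io h).1
  have ci : Continuous (fun y => I1 D y / N) := (I1_cont hv.pf).div_const _
  have cio : Continuous P.io := Par.io_cont h
  have h22 : (0:ℝ) ≤ 2.2 := by norm_num
  have hmb := cp_int h
  have hg : IntervalIntegrable (fun y => k y - A * mb1 P y) volume 0 2.2 := hki.sub (hmb.const_mul A)
  -- psi in terms of `mb1`
  have p1 : P.psi (fun y => I1 D y / N) = 1 - ∫ y in (0:ℝ)..2.2, mb1 P y * (I1 D y / N) := by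
    rw [cp_eq h ci]
    rfl
  have p2 : P.psi P.io = 1 - ∫ y in (0:ℝ)..2.2, mb1 P y * P.io y := by
    rw [cp_eq h cio]
    rfl
  -- expansion
  have i1 : IntervalIntegrable (fun y => k y * (I1 D y / N)) volume 0 2.2 := hki.mul_continuousOn ci.continuousOn
  have i2 : IntervalIntegrable (fun y => k y * P.io y) volume 0 2.2 := hki.mul_continuousOn cio.continuousOn
  have i3 : IntervalIntegrable (fun y => mb1 P y * (I1 D y / N)) volume 0 2.2 :=
    hmb.mul_continuousOn ci.continuousOn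
  have i4 : IntervalIntegrable (fun y => mb1 P y * P.io y) volume 0 2.2 :=
    hmb.mul_continuousOn cio.continuousOn
  have ex : ∫ y in (0:ℝ)..2.2, (k y - A * mb1 P y) * (I1 D y / N - P.io y)
      = (∫ y in (0:ℝ)..2.2, k y * (I1 D y / N)) - (∫ y in (0:ℝ)..2.2, k y * P.io y)
        - A * (∫ y in (0:ℝ)..2.2, mb1 P y * (I1 D y / N)) + A * (∫ y in (0:ℝ)..2.2, mb1 P y * P.io y) := by
    rw [← intervalIntegral.integral_const_mul, ← intervalIntegral.integral_const_mul,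
      ← intervalIntegral.integral_sub i1 i2, ← intervalIntegral.integral_sub (i1.sub i2) (i3.const_mul A),
      ← intervalIntegral.integral_add ((i1.sub i2).sub (i3.const_mul A)) (i4.const_mul A)]
    apply intervalIntegral.integral_congr
    intro y _
    simp only
    ring
  -- the error
  have hw : Continuous w := by unfold w; fun_prop
  have er : -(∫ y in (0:ℝ)..2.2, (k y - A * mb1 P y) * (I1 D y / N - P.io y)) ≤ δ * K := by
    rw [← intervalIntegral.integral_neg]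
    have m1 : IntervalIntegrable (fun y => -((k y - A * mb1 P y) * (I1 D y / N - P.io y))) volume 0 2.2 :=
      (hg.mul_continuousOn (ci.sub cio).continuousOn).neg
    have m2 : IntervalIntegrable (fun y => δ * (|k y - A * mb1 P y| * w y)) volume 0 2.2 :=
      (hg.abs.mul_continuousOn hw.continuousOn).const_mul δ
    have m3 := intervalIntegral.integral_mono_on h22 m1 m2 (fun y hy => by
      have t1 := hv.tube.close y hy.1 hy.2
      have t2 := neg_le_abs ((k y - A * mb1 P y) * (I1 D y / N - P.io y))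
      rw [abs_mul] at t2
      have t3 := mul_le_mul_of_nonneg_left t1 (abs_nonneg (k y - A * mb1 P y))
      linarith only [t2, t3])
    rw [intervalIntegral.integral_const_mul] at m3
    exact le_trans m3 (mul_le_mul_of_nonneg_left hk hδ)
  set psi := P.psi (fun y => I1 D y / N) with hpsi
  have key : c0 - (∫ y in (0:ℝ)..2.2, k y * (I1 D y / N)) ≤ A * psi + (Q - A * 0.8316) + δ * K := by
    have k1 : A * 0.8316 ≤ A * P.psi P.io := mul_le_mul_of_nonneg_left hio hA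
    rw [p1]
    rw [p2] at k1
    linarith only [hc, ex, er, k1]
  have key2 := mul_le_mul_of_nonneg_left key hN.le
  have hb1 : A * (N * psi) ≤ A * Real.exp (-(50 * δ^2)) := mul_le_mul_of_nonneg_left he hA
  have hu0 : 0 ≤ 50 * δ^2 := by positivity
  have hu1 : 50 * δ^2 ≤ 0.045 := by
    norm_num at hδ1 ⊢
    nlinarith only [hδ1, hδ]
  have hexp : Real.exp (-(50 * δ^2)) ≤ 1 - 48.8 * δ^2 := by
    have q1 := Real.quadratic_le_exp_of_nonneg hu0
    have q4 : Real.exp (-(50 * δ^2)) * Real.exp (50 * δ^2) = 1 := by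
      rw [← Real.exp_add]; simp
    have q5 : 0 ≤ 1 - 48.8 * δ^2 := by
      norm_num at hu1 ⊢
      linarith only [hu1]
    have q6 : 1 ≤ (1 - 48.8 * δ^2) * (1 + 50 * δ^2 + (50 * δ^2)^2 / 2) := by
      have q7 : 0 ≤ δ^2 := sq_nonneg δ
      have q8 : δ^2 ≤ 0.0009 := by
        norm_num at hu1 ⊢
        linarith only [hu1]
      set z := δ^2 with hz
      clear_value z
      have q9 : 0 ≤ z * (1.2 - 1190 * z - 61000 * z^2) := by
        apply mul_nonneg q7
        norm_num at q8 ⊢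
        nlinarith only [hu1, hu0]
      norm_num at q9 ⊢
      nlinarith only [q9]
    have q10 : 1 ≤ (1 - 48.8 * δ^2) * Real.exp (50 * δ^2) := le_trans q6 (mul_le_mul_of_nonneg_left q1 q5)
    have q11 := mul_le_mul_of_nonneg_left q10 (Real.exp_pos (-(50 * δ^2))).le
    have q12 : Real.exp (-(50 * δ^2)) * ((1 - 48.8 * δ^2) * Real.exp (50 * δ^2))
        = (1 - 48.8 * δ^2) * (Real.exp (-(50 * δ^2)) * Real.exp (50 * δ^2)) := by ring
    rw [q12, q4] at q11
    linarith only [q11]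
  rcases le_or_gt (Q - A * 0.8316 + δ * K) 0 with hneg | hpos
  · have e1 : Real.exp (-(50 * δ^2)) ≤ 1 := Real.exp_le_one_iff.mpr (by linarith only [hu0])
    have e2 : A * Real.exp (-(50 * δ^2)) ≤ A * 1 := mul_le_mul_of_nonneg_left e1 hA
    have e3 : N * (Q - A * 0.8316 + δ * K) ≤ 0 := mul_nonpos_of_nonneg_of_nonpos hN.le hneg
    nlinarith only [key2, hb1, e2, e3]
  · have e2 : A * Real.exp (-(50 * δ^2)) ≤ A * (1 - 48.8 * δ^2) := mul_le_mul_of_nonneg_left hexp hA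
    have e3 : N * (Q - A * 0.8316 + δ * K) ≤ 1.2155 * (Q - A * 0.8316 + δ * K) :=
      mul_le_mul_of_nonneg_right hN1 hpos.le
    have e4 : 1.2155 * (Q - A * 0.8316 + δ * K) ≤ 48.8 * A * δ^2 := by
      have f1 : δ * K ≤ 48.8 / 1.2155 * A * δ^2 + (0.8316 * A - Q) := by
        have g1 : 0 ≤ 0.8316 * A - Q := by linarith only [hQ]
        have g2 : 0 ≤ 48.8 / 1.2155 * A * δ^2 := by positivity
        apply le_of_sq_le_sq _ (add_nonneg g2 g1)
        have g3 : (δ * K)^2 ≤ δ^2 * (159 * A * (0.8316 * A - Q)) := by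
          rw [mul_pow]
          exact mul_le_mul_of_nonneg_left hK (sq_nonneg _)
        have g4 : 0 ≤ A * δ^2 * (0.8316 * A - Q) := by positivity
        have g5 : 0 ≤ (48.8 / 1.2155 * A * δ^2 - (0.8316 * A - Q))^2 := sq_nonneg _
        norm_num at g3 g4 g5 ⊢
        nlinarith only [g3, g4, g5]
      norm_num at f1 ⊢
      linarith only [f1]
    nlinarith only [key2, hb1, e2, e3, e4]

end Pool.Agent.CDk
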