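import Pool.Agent.CDk.D.ASM1
import Pool.Agent.CDk.D.ASM2
import Pool.Agent.CDk.D.BIG
import Pool.Agent.CDk.D.COUP
import Pool.Agent.CDk.D.D0
import Pool.Agent.CDk.D.FamDef
import Pool.Agent.CDk.D.GDL
import Pool.Agent.CDk.D.NUM
import Pool.Agent.CDk.D.STEP
import Pool.Agent.CDk.Defs
import Pool.Agent.CDk.FIN2
import Pool.Agent.CDk.FIN4
import Pool.Agent.CDk.FNa
import Pool.Agent.CDk.FV
import Pool.Agent.CDk.GAP
import Pool.Agent.CDk.STR

/-!
# ASM3: the step of the invariant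
-/

open MeasureTheory Set Filter Topology

namespace Pool.Agent.CDk
variable {P : Par}

/-- the invariant at the left end `a` of a gap of sign `g` -/
structure St (P : Par) (F : Fam P) (κ : ℝ) (x y : ℝ → ℝ) (a g B : ℝ) : Prop where
  vir : ∃ (N δ : ℝ) (D : ℝ → ℝ), 0 ≤ δ ∧ δ ≤ 0.03 ∧ VS2 P N δ D ∧ Phi P N δ D = 0 ∧ 1.1 ≤ N ∧
    Dom P κ x y a g (B * (N - I2 D P.Y)) (fun r => B * D r)
  tem : ∃ t ∈ F.T, Dom P κ x y a g (B * t.1) (fun r => B * t.2 r)
  two : ∀ r ∈ Icc 0 κ, |x (a - r)| ≤ B * F.Q r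

section
variable {κ : ℝ} {x y : ℝ → ℝ} {t0 a T g B N δ η : ℝ} {D : ℝ → ℝ}

theorem vir_of_step (h : P.Star) (hκY : P.Y ≤ κ) {N1 δ1 m V1 : ℝ} {G : ℝ → ℝ} (hv : VS2 P N1 δ1 G)
    (hδ : 0 ≤ δ1) (hδ1 : δ1 ≤ 0.03) (hm : Phi P N1 δ1 G ≤ -m) (hV1 : N1 - I2 G P.Y = V1) (hB0 : 0 ≤ B)
    {Bs B' : ℝ} (hBs : Bs ≤ B' * Real.exp m) (hB' : 0 ≤ B')
    (hd : Dom P κ x y a g (Bs * V1) (fun r => Bs * G r)) :
    ∃ (N δ : ℝ) (D : ℝ → ℝ), 0 ≤ δ ∧ δ ≤ 0.03 ∧ VS2 P N δ D ∧ Phi P N δ D = 0 ∧ 1.1 ≤ N ∧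
      Dom P κ x y a g (B' * (N - I2 D P.Y)) (fun r => B' * D r) := by
  obtain ⟨c, hc, hv', hp', hn'⟩ := renorm h hv hδ hδ1 hm
  refine ⟨c * N1, δ1, fun r => c * G r, hδ, hδ1, hv', hp', hn', hd.mono h hκY ?_ ?_⟩
  · rw [I2_smul, ← mul_sub, hV1]
    have h1 : Bs ≤ B' * c := hBs.trans (mul_le_mul_of_nonneg_left hc hB')
    have h2 : 0 ≤ V1 := by rw [← hV1]; exact (V0_pos hv.toVS).le
    have := mul_le_mul_of_nonneg_right h1 h2
    linarith only [this]
  · intro r _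
    have h1 : Bs ≤ B' * c := hBs.trans (mul_le_mul_of_nonneg_left hc hB')
    have h2 := mul_le_mul_of_nonneg_right h1 (hv.pf.nonneg r)
    show Bs * G r ≤ B' * (c * G r)
    linarith

theorem vir_of_good (h : P.Star) (hκY : P.Y ≤ κ) {s : ℝ × (ℝ → ℝ)} (hs : Good P s)
    {B' : ℝ} (hB' : 0 ≤ B') (hd : Dom P κ x y a g (B' * s.1) (fun r => B' * s.2 r)) :
    ∃ (N δ : ℝ) (D : ℝ → ℝ), 0 ≤ δ ∧ δ ≤ 0.03 ∧ VS2 P N δ D ∧ Phi P N δ D = 0 ∧ 1.1 ≤ N ∧
      Dom P κ x y a g (B' * (N - I2 D P.Y)) (fun r => B' * D r) := by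
  obtain ⟨δ, h1, h2, h3, h4⟩ := hs
  refine vir_of_step (B := B') h hκY h3 h1 h2 (m := 0) (by linarith only [h4]) (V1 := s.1) (by ring) hB' ?_ hB' hd
  rw [Real.exp_zero, mul_one]

/-- the two sided bound at the right end, `e < -0.45` -/
theorem two_M (h : P.Star) (F : Fam P) (hκ1 : P.Y + P.s - 0.0001 ≤ κ) (hκ : κ < P.Y + P.s)
    (hG : GapAt κ x t0 a T g) (hB : 0 < B) (hη : η ≤ 0.0001) {t : ℝ × (ℝ → ℝ)} (ht : t ∈ F.T)
    (hp : Pst P κ x y (a + T) T g B (t.1 + I2 t.2 P.Y) t.2) (he : T - κ ≤ -0.45)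
    (hQ : ∀ r ∈ Icc 0 κ, |x (a - r)| ≤ B * F.Q r) :
    ∀ r ∈ Icc 0 κ, |x (a + T - r)| ≤ (1 - η) * B * F.Q r := by
  have hY := Par.Y_pos h
  have hs := h.s_lo
  have hs' := h.s_hi
  have hT := hG.hT
  obtain ⟨ht1, ht2⟩ := F.hT t ht
  obtain ⟨l0, l1⟩ := lam_bd h hκ1 hκ
  obtain ⟨s, -, -, -, c2, -⟩ := F.hB t ht (-(T - κ)) (by linarith only [he]) (by linarith only [hT])
  rw [neg_neg] at c2
  set Nt := t.1 + I2 t.2 P.Y with hNt
  have hV : Nt - I2 t.2 P.Y = t.1 := by rw [hNt]; ring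
  have hYe : 0 < P.Y + (T - κ) := by linarith only [hκ1, hκ, hY, hT]
  have hNl : Real.sinh (κ - P.Y) / P.sg * (Nt - I2 t.2 P.Y) + I2 t.2 P.Y ≤ Nt := by
    rw [hV, hNt]; nlinarith only [hκ1, hκ, ht1, l1]
  intro r hr
  have hQ0 := F.hQ.nonneg r
  have key : ∀ z, 1.0002 * z ≤ F.Q r → B * z ≤ (1 - η) * B * F.Q r := by
    intro z hz
    have h3 : z ≤ (1 - η) * F.Q r := by nlinarith only [hQ0, hz, hκ1, hκ, hη]
    calc B * z ≤ B * ((1 - η) * F.Q r) := mul_le_mul_of_nonneg_left h3 hB.le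
      _ = _ := by ring
  rcases le_total r T with h1 | h1
  · rw [hG.abs hr.1 h1]
    rcases le_total r (P.Y + (T - κ)) with h2 | h2
    · refine (hp.f1 r hr.1 h2).trans ?_
      have h3 := fF_monoN (P := P) (D := t.2) (e := T - κ) hYe hNl hr.1
      refine (mul_le_mul_of_nonneg_left h3 hB.le).trans (key _ ?_)
      exact (c2 r hr.1 (by linarith only [h2])).2
    · refine (hp.f2 r h2 h1).trans ?_
      have h3 : Real.sinh (κ - P.Y) / P.sg * (Nt - I2 t.2 P.Y) ≤ fF P Nt t.2 (T - κ) (P.Y + (T - κ)) := by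
        rw [fF_end hYe.ne', hV]
        nlinarith only [hNl]
      refine (mul_le_mul_of_nonneg_left h3 hB.le).trans (key _ ?_)
      have h4 := (c2 (P.Y + (T - κ)) hYe.le (by linarith only [])).2
      exact h4.trans (F.hQ.mono h2)
  · refine (far_Q F hG (by linarith only [hκ1, hκ, hY, hs]) (by linarith only [hκ1, hκ, hY, hs']) hB hQ h1 hr.2).trans (key _ ?_)
    have h2 : F.Q (r - T) ≤ F.Q (r - 1.49) := F.hQ.mono (by linarith only [hκ1, hκ, hY, hs, hT])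
    have h3 := F.hQsh r (by linarith only [hr.2, hκ1, hκ, hY, hs', hr])
    linarith only [h2, h3]

/-- opposite sign, short cluster, `e < -0.45` -/
theorem dom_M (h : P.Star) (F : Fam P) (hκ1 : P.Y + P.s - 0.0001 ≤ κ) (hκ : κ < P.Y + P.s)
    (hx : Sol x y t0 κ) (hG : GapAt κ x t0 a T g) (hB : 0 < B) (hη : η ≤ 0.0001) {t : ℝ × (ℝ → ℝ)} (ht : t ∈ F.T)
    (hp : Pst P κ x y (a + T) T g B (t.1 + I2 t.2 P.Y) t.2) (he : T - κ ≤ -0.45)
    (hQ : ∀ r ∈ Icc 0 κ, |x (a - r)| ≤ B * F.Q r)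
    {a' : ℝ} (hba : a + T ≤ a') (hba1 : a' - (a + T) ≤ 0.6) (hxa' : x a' = 0) :
    ∃ s ∈ F.T, Good P s ∧ Dom P κ x y a' (-g) ((1 - η) * B * s.1) (fun r => (1 - η) * B * s.2 r) := by
  have hY := Par.Y_pos h
  have hs := h.s_lo
  have hs' := h.s_hi
  have hsg := Par.sg_bd h
  have hT := hG.hT
  have hg' : -g = 1 ∨ -g = -1 := by rcases hG.hg with h1 | h1 <;> rw [h1] <;> norm_num
  have hga : |g| = 1 := by rcases hG.hg with h1 | h1 <;> rw [h1] <;> simp
  obtain ⟨ht1, ht2⟩ := F.hT t ht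
  obtain ⟨l0, l1⟩ := lam_bd h hκ1 hκ
  have hb2 := two_M h F hκ1 hκ hG hB hη ht hp he hQ
  obtain ⟨s, hsT, hsg', c1, c2, c3, c4, c5⟩ := F.hB t ht (-(T - κ)) (by linarith only [he]) (by linarith only [hT])
  rw [neg_neg] at c1 c2
  obtain ⟨hs1, hs2⟩ := F.hT s hsT
  set Nt := t.1 + I2 t.2 P.Y with hNt
  have hV : Nt - I2 t.2 P.Y = t.1 := by rw [hNt]; ring
  have hYe : 0 < P.Y + (T - κ) := by linarith only [hκ1, hκ, hY, hT]
  have hNl : Real.sinh (κ - P.Y) / P.sg * (Nt - I2 t.2 P.Y) + I2 t.2 P.Y ≤ Nt := by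
    rw [hV, hNt]; nlinarith only [hκ1, hκ, ht1, l1]
  have hB'0 : 0 ≤ (1 - η) * B := mul_nonneg (by linarith only [hκ1, hκ, hη]) hB.le
  have hMQ : 0 ≤ F.M := by linarith only [F.hM, hκ1, hκ]
  have hW : ∫ τ in (0:ℝ)..P.s, Real.sinh (P.s - τ) * t.2 (-(T - κ) - τ) = W0 P t.2 (T - κ) := rfl
  rw [hW] at c4
  have key : ∀ z w, 0 ≤ w → 1.0002 * z ≤ w → B * z ≤ (1 - η) * B * w := by
    intro z w hw hz
    have h3 : z ≤ (1 - η) * w := by nlinarith only [hw, hz, hκ1, hκ, hη]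
    calc B * z ≤ B * ((1 - η) * w) := mul_le_mul_of_nonneg_left h3 hB.le
      _ = _ := by ring
  refine ⟨s, hsT, hsg', ?_⟩
  refine next_short h hκ1 hκ hx (g := -g) (M := (1 - η) * B * F.M) (gv' := B * gv P Nt t.2 (T - κ))
    (W := B * W0 P t.2 (T - κ)) hg' (by linarith only [hG.ha, hκ1, hκ, hY, hs, hT, hG]) hba hba1 hG.xT hxa' ?_ ?_ ?_ ?_ ?_ ?_ ?_ ?_
  · intro r hr
    exact (hb2 r hr).trans (mul_le_mul_of_nonneg_left (F.hQM r) hB'0)
  · exact (hs2.smul hB'0).mono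
  · intro r hr
    rw [show -(-g * x (a + T - r)) = g * x (a + T - r) by ring]
    rcases le_total r T with h1 | h1
    · rcases le_total r (P.Y + (T - κ)) with h2 | h2
      · refine (hp.f1 r hr.1 h2).trans ?_
        have h3 := fF_monoN (P := P) (D := t.2) (e := T - κ) hYe hNl hr.1
        refine (mul_le_mul_of_nonneg_left h3 hB.le).trans (key _ _ (hs2.nonneg r) ?_)
        exact (c2 r hr.1 (by linarith only [h2])).1
      · refine (hp.f2 r h2 h1).trans ?_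
        have h3 : Real.sinh (κ - P.Y) / P.sg * (Nt - I2 t.2 P.Y) ≤ fF P Nt t.2 (T - κ) (P.Y + (T - κ)) := by
          rw [fF_end hYe.ne', hV]
          nlinarith only [hNl]
        refine (mul_le_mul_of_nonneg_left h3 hB.le).trans (key _ _ (hs2.nonneg r) ?_)
        have h4 := (c2 (P.Y + (T - κ)) hYe.le (by linarith only [])).1
        exact h4.trans (hs2.mono h2)
    · have h2 : g * x (a + T - r) ≤ |x (a + T - r)| := by
        rw [← one_mul |x (a + T - r)|, ← hga, ← abs_mul]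
        exact le_abs_self _
      refine (h2.trans (far_Q F hG (by linarith only [hκ1, hκ, hY, hs]) (by linarith only [hκ1, hκ, hY, hs']) hB hQ h1 (by linarith only [hr.2, hκ1, hκ, hs, hr]))).trans
        (key _ _ (hs2.nonneg r) ?_)
      have h3 : F.Q (r - T) ≤ F.Q (r - (3.0443 - -(T - κ))) := F.hQ.mono (by linarith only [hκ1, hκ, hY, hs])
      have h4 := c5 r hr.2
      linarith only [h3, h4]
  · exact hp.E
  · have h1 := hp.y1
    have h2 := gv_monoN (P := P) (D := t.2) (e := T - κ) hYe hNl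
    have h3 := mul_le_mul_of_nonneg_left h2 hB.le
    linarith only [h1, h3]
  · have h1 := key _ _ hs1.le c1
    rw [gV_eq] at h1
    linarith only [h1]
  · intro r hr
    have h1 := c3 r hr.1 hr.2
    have h2 : 0 ≤ 0.3 * F.M * r := mul_nonneg (by linarith only [hMQ]) hr.1
    have h3 : 0.3 * F.M * r ≤ s.2 r := by linarith only [h1, h2]
    have := mul_le_mul_of_nonneg_left h3 hB'0
    linarith only [this]
  · have h1 : 0 ≤ W0 P t.2 (T - κ) := W0_nonneg h ht2 _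
    have h2 : 0 ≤ P.sg * (0.3 * F.M) + 0.128 * (0.045 * F.M) := by
      have : 0 ≤ P.sg * (0.3 * F.M) := mul_nonneg (by linarith only [hκ1, hκ, hsg]) (by linarith only [hMQ])
      linarith only [hMQ, this]
    have h3 := key _ _ hs1.le c4
    have h4 : (1 - η) * B ≤ B ∨ B ≤ (1 - η) * B := le_total _ _
    have h5 : (1 - η) * B * (P.sg * (0.3 * F.M) + 0.128 * (0.045 * F.M)) + B * W0 P t.2 (T - κ)
        ≤ (1 - η) * B * s.1 := by
      rcases h4 with h4 | h4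
      · have h6 := mul_le_mul_of_nonneg_right h4 h2
        linarith only [h3, h6]
      · have h6 := mul_le_mul_of_nonneg_right h4 h1
        have h7 : P.sg * (0.3 * F.M) + W0 P t.2 (T - κ) + 0.128 * (0.045 * F.M) ≤ s.1 := by linarith only [c4, hs1]
        have h8 := mul_le_mul_of_nonneg_left h7 hB'0
        linarith only [h6, h8]
    linarith only [h5]

end

/-- the step -/
theorem St.step (h : P.Star) (F : Fam P) {κ : ℝ} (hκ1 : P.Y + P.s - 0.0001 ≤ κ) (hκ : κ < P.Y + P.s) :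
    ∃ η, 0 < η ∧ η ≤ 0.0001 ∧ ∀ (x y : ℝ → ℝ) (t0 : ℝ), Sol x y t0 κ → ∀ a T g B, GapAt κ x t0 a T g → 0 < B →
      St P F κ x y a g B → ∀ a' T' g', GapAt κ x t0 a' T' g' → a + T ≤ a' →
      (∀ z1 z2, a + T ≤ z1 → z1 < z2 → z2 ≤ a' → (∀ t ∈ Ioo z1 z2, x t ≠ 0) → z2 - z1 ≤ κ - 1.55) →
      St P F κ x y a' g' ((1 - η) * B) := by
  have hY := Par.Y_pos h
  have hs := h.s_lo
  have hs' := h.s_hi
  obtain ⟨l0, l1⟩ := lam_bd h hκ1 hκ
  obtain ⟨η0, hη0, hη1, hstr⟩ := F_strict (Y := P.Y) (by linarith only [hκ1, hκ, hY]) l0 l1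
  refine ⟨min η0 0.0001, lt_min hη0 (by norm_num), min_le_right _ _, ?_⟩
  set η := min η0 0.0001 with hη
  have hη2 : η ≤ 0.0001 := min_le_right _ _
  have hη3 : η ≤ η0 := min_le_left _ _
  have hη4 : 0 < η := lt_min hη0 (by norm_num)
  have hstr' : ∀ (e V : ℝ) (D : ℝ → ℝ), 0 ≤ e → 0 < V → Pf D → V + I2 D P.Y ≤ 10 * V →
      Fq P.Y e (Real.sinh (κ - P.Y) / P.sg * V) D ≤ (1 - η) * Fq P.Y e V D ∧
      ∀ r, 0 ≤ r → r ≤ P.Y → FD P.Y e (Real.sinh (κ - P.Y) / P.sg * V) D r ≤ (1 - η) * FD P.Y e V D r := by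
    intro e V D he hV hD hI
    obtain ⟨h1, h2⟩ := hstr e V D he hV hD hI
    refine ⟨h1.trans ?_, fun r hr hr1 => (h2 r hr hr1).trans ?_⟩
    · apply mul_le_mul_of_nonneg_right (by linarith only [hη3])
      unfold Fq
      exact div_nonneg (by linarith only [(I2_pf hD).nonneg P.Y, hV, hD]) (by linarith only [hκ1, hκ, hY, he])
    · apply mul_le_mul_of_nonneg_right (by linarith only [hη3])
      exact (FD_pf hD).nonneg r
  intro x y t0 hx a T g B hG hB hS a' T' g' hG' haa' hgap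
  obtain ⟨N, δ, D, d0, d1, hv, hΦ, hN, hdv⟩ := hS.vir
  obtain ⟨t, ht, hdt⟩ := hS.tem
  obtain ⟨ht1, ht2⟩ := F.hT t ht
  have hQ := hS.two
  have hT := hG.hT
  have hκY : P.Y ≤ κ := by linarith only [hκ1, hκ, hs]
  have hga : |g| = 1 := by rcases hG.hg with h1 | h1 <;> rw [h1] <;> simp
  have hB' : 0 < (1 - η) * B := mul_pos (by linarith only [hκ1, hκ, hη2]) hB
  have hB'B : (1 - η) * B ≤ B := by nlinarith only [hκ1, hκ, hη4, hB]
  have hB2 : B / 1.0002 ≤ (1 - η) * B := by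
    rw [div_le_iff₀ (by norm_num)]
    nlinarith only [hκ1, hB, hκ, hB', hη2]
  have hpv := pst_of_dom h hκ1 hκ hx hG hB hv.pf hdv
  have hpt : Pst P κ x y (a + T) T g B (t.1 + I2 t.2 P.Y) t.2 := by
    apply pst_of_dom h hκ1 hκ hx hG hB ht2
    rw [add_sub_cancel_right]
    exact hdt
  have hb0 : t0 + κ ≤ a + T := by linarith only [hG.ha, hκ1, hκ, hY, hs, hT, hG]
  -- two sided bound at b
  have hb2 : ∀ r ∈ Icc 0 κ, |x (a + T - r)| ≤ (1 - η) * B * F.Q r := by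
    rcases le_total (-0.45) (T - κ) with he | he
    · exact two_L h F hκ1 hκ hG hB hη2 hv d0 d1 hΦ.le hpv he hQ
    · exact two_M h F hκ1 hκ hG hB hη2 ht hpt he hQ
  have hb1 : ∀ r ∈ Icc 0 κ, |x (a + T - r)| ≤ B * F.Q r := fun r hr =>
    (hb2 r hr).trans (mul_le_mul_of_nonneg_right hB'B (F.hQ.nonneg r))
  have htwo : ∀ r ∈ Icc 0 κ, |x (a' - r)| ≤ (1 - η) * B * F.Q r :=
    (big_Q h F hκ1 hκ hx hb0 haa' hB' hG.xT hG'.x0 hgap hb2).1
  have hsl : 0 ≤ F.Sl.1 := (F.hT _ F.hSl).1.le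
  have hsc : 0 ≤ F.Sc.1 := (F.hT _ F.hSc).1.le
  have hslp := (F.hT _ F.hSl).2
  have hscp := (F.hT _ F.hSc).2
  -- signs
  have hsign : g' = g ∨ g' = -g := by
    rcases hG.hg with h1 | h1 <;> rcases hG'.hg with h2 | h2 <;> rw [h1, h2] <;> norm_num
  rcases hsign with hgg | hgg
  · -- same sign
    rw [hgg] at hG' ⊢
    have hy0 : a' = a + T → y (a + T) = 0 := by
      intro haT
      have h1 : 0 ≤ -(g * y (a + T)) := hpv.y0
      have hT'0 : 0 < T' := by linarith only [hG'.hT, hκ1, hκ, hY, hs, hG']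
      have h2 : 0 ≤ g * y (a + T) := by
        apply slope_nonneg (u := fun t => g * x (a + T + t)) hT'0
        · have h3 := hx.dx (a + T) (by linarith only [hκ1, hκ, hY, hs, hb0])
          have h3' : HasDerivWithinAt x (y (a + T)) (Ici t0) (a + T + 0) := by rwa [add_zero]
          have h4 : HasDerivWithinAt (fun t => a + T + t) 1 (Icc 0 T') 0 := (hasDerivWithinAt_id 0 _).const_add _
          have h5 := HasDerivWithinAt.scomp (t' := Ici t0) 0 h3' h4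
            (fun s hs => mem_Ici.mpr (by linarith [hs.1]))
          have h6 := h5.const_mul g
          simpa [Function.comp_def] using h6
        · simp [hG.xT]
        · intro t ht
          rcases ht.1.eq_or_lt with h3 | h3
          · rw [← h3, add_zero, hG.xT, mul_zero]
          rcases ht.2.eq_or_lt with h4 | h4
          · rw [h4, ← haT, hG'.xT, mul_zero]
          · have := hG'.pos t ⟨h3, h4⟩
            rw [haT] at this
            exact this.le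
      have h3 : g * y (a + T) = 0 := by linarith only [h2, h1]
      rcases mul_eq_zero.mp h3 with h4 | h4
      · rw [h4] at hga; simp at hga
      · exact h4
    have hd := big_same h F hκ1 hκ hx (a0 := a) (T := T) (b := a + T) (a := a') hG.hg hG.ha hT rfl haa' hB hG.x0
      hG.xT hG'.x0 hG.pos hgap hQ hb1 hy0
    have hd' : Dom P κ x y a' g ((1 - η) * B * F.Sl.1) (fun r => (1 - η) * B * F.Sl.2 r) :=
      hd.mono h hκY (mul_le_mul_of_nonneg_right hB2 hsl)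
        (fun r _ => mul_le_mul_of_nonneg_right hB2 (hslp.nonneg r))
    exact ⟨vir_of_good h hκY F.gl hB'.le hd', ⟨F.Sl, F.hSl, hd'⟩, htwo⟩
  · rw [hgg] at hG' ⊢
    rcases le_total 0.6 (a' - (a + T)) with hl | hl
    · have hd := big_opp h F hκ1 hκ hx (a0 := a) (T := T) (b := a + T) (a := a') hG.hg hG.ha hT rfl hl hB hG.x0
        hG.xT hG'.x0 hG.pos hgap hQ hb1
      have hd' : Dom P κ x y a' (-g) ((1 - η) * B * F.Sc.1) (fun r => (1 - η) * B * F.Sc.2 r) :=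
        hd.mono h hκY (mul_le_mul_of_nonneg_right hB2 hsc)
          (fun r _ => mul_le_mul_of_nonneg_right hB2 (hscp.nonneg r))
      exact ⟨vir_of_good h hκY F.gc hB'.le hd', ⟨F.Sc, F.hSc, hd'⟩, htwo⟩
    · rcases le_total (T - κ) (-0.45) with he | he
      · obtain ⟨s, s1, s2, s3⟩ := dom_M h F hκ1 hκ hx hG hB hη2 ht hpt he hQ haa' hl hG'.x0
        exact ⟨vir_of_good h hκY s2 hB'.le s3, ⟨s, s1, s3⟩, htwo⟩
      · obtain ⟨s, s1, s2, s3⟩ := F.hA hv d0 d1 hΦ.le (T - κ) he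
        obtain ⟨hs1, hs2⟩ := F.hT s s1
        have tem_of : ∀ Bs, 0 ≤ Bs → Bs ≤ B → 0 ≤ gV P N D (T - κ) →
            Dom P κ x y a' (-g) (Bs * gV P N D (T - κ)) (fun r => Bs * GD P N D (T - κ) r) →
            Dom P κ x y a' (-g) ((1 - η) * B * s.1) (fun r => (1 - η) * B * s.2 r) := by
          intro Bs hBs0 hBs hgV hd
          have h3 : Bs ≤ (1 - η) * B * 1.0002 := by nlinarith only [hBs, hκ1, hB, hκ, hB', hη2]
          refine hd.mono h hκY ?_ ?_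
          · calc Bs * gV P N D (T - κ) ≤ (1 - η) * B * 1.0002 * gV P N D (T - κ) :=
                  mul_le_mul_of_nonneg_right h3 hgV
              _ = (1 - η) * B * (1.0002 * gV P N D (T - κ)) := by ring
              _ ≤ _ := mul_le_mul_of_nonneg_left s2 hB'.le
          · intro r hr
            have h4 := (GD_pf (P := P) (N := N) (e := T - κ) hv.pf).nonneg r
            calc Bs * GD P N D (T - κ) r ≤ (1 - η) * B * 1.0002 * GD P N D (T - κ) r :=
                  mul_le_mul_of_nonneg_right h3 h4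
              _ = (1 - η) * B * (1.0002 * GD P N D (T - κ) r) := by ring
              _ ≤ _ := mul_le_mul_of_nonneg_left (s3 r hr.1 (by linarith only [hr.2, hκ1, hκ, hY, hr])).1 hB'.le
        rcases lt_or_ge (T - κ) 0 with he0 | he0
        · obtain ⟨N', δ', e0, e1, e2, e3, e4⟩ := hv.stepN h (a := -(T - κ)) (by linarith only [he0]) (by linarith only [he]) d0 d1
          rw [neg_neg] at e2 e3 e4
          have hgV : 0 ≤ gV P N D (T - κ) := by rw [← e3]; exact (V0_pos e2.toVS).le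
          have hd := dom_neg h F hκ1 hκ hx hG hB hv d0 d1 hN hpv he he0 hQ haa' hl hG'.x0
          refine ⟨vir_of_step (B := B) h hκY e2 e0 e1 (m := 0.0003) (by linarith only [hΦ, e4]) e3 hB.le ?_ hB'.le hd,
            ⟨s, s1, tem_of B hB.le le_rfl hgV hd⟩, htwo⟩
          have h5 : (1.0003:ℝ) ≤ Real.exp 0.0003 := by
            have := Real.add_one_le_exp (0.0003:ℝ)
            linarith only [this]
          have h6 := mul_le_mul_of_nonneg_left h5 hB'.le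
          nlinarith only [h6, hκ1, hB', hκ, hη2, hB]
        · obtain ⟨N', δ', e0, e1, e2, e3, e4⟩ := hv.stepP h he0 d0 d1
          have hgV : 0 ≤ gV P N D (T - κ) := by rw [← e3]; exact (V0_pos e2.toVS).le
          have hd := dom_pos h F hκ1 hκ hx hG hB hv hη2 hstr' hpv he0 haa' hl hG'.x0
          refine ⟨vir_of_step (B := B) h hκY e2 e0 e1 (m := 0) (by linarith only [hΦ, e4]) e3 hB.le ?_ hB'.le hd,
            ⟨s, s1, tem_of _ hB'.le hB'B hgV hd⟩, htwo⟩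
          rw [Real.exp_zero, mul_one]

/-- the bound until the next gap -/
theorem St.bound (h : P.Star) (F : Fam P) {κ : ℝ} (hκ1 : P.Y + P.s - 0.0001 ≤ κ) (hκ : κ < P.Y + P.s)
    {x y : ℝ → ℝ} {t0 : ℝ} (hx : Sol x y t0 κ) {a T g B : ℝ} (hG : GapAt κ x t0 a T g) (hB : 0 < B)
    (hS : St P F κ x y a g B) {a' : ℝ} (haa' : a + T ≤ a') (hxa' : x a' = 0)
    (hgap : ∀ z1 z2, a + T ≤ z1 → z1 < z2 → z2 ≤ a' → (∀ t ∈ Ioo z1 z2, x t ≠ 0) → z2 - z1 ≤ κ - 1.55) :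
    ∀ t ∈ Icc a a', |x t| ≤ (1.3 + F.M) * B := by
  have hY := Par.Y_pos h
  have hs := h.s_lo
  have hs' := h.s_hi
  obtain ⟨N, δ, D, d0, d1, hv, hΦ, hN, hdv⟩ := hS.vir
  obtain ⟨t, ht, hdt⟩ := hS.tem
  obtain ⟨ht1, ht2⟩ := F.hT t ht
  have hQ := hS.two
  have hT := hG.hT
  have hpv := pst_of_dom h hκ1 hκ hx hG hB hv.pf hdv
  have hpt : Pst P κ x y (a + T) T g B (t.1 + I2 t.2 P.Y) t.2 := by
    apply pst_of_dom h hκ1 hκ hx hG hB ht2
    rw [add_sub_cancel_right]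
    exact hdt
  have hb0 : t0 + κ ≤ a + T := by linarith only [hG.ha, hκ1, hκ, hY, hs, hT, hG]
  have hb1 : ∀ r ∈ Icc 0 κ, |x (a + T - r)| ≤ B * F.Q r := by
    intro r hr
    have : (1 - 0) * B * F.Q r = B * F.Q r := by ring
    rw [← this]
    rcases le_total (-0.45) (T - κ) with he | he
    · exact two_L h F hκ1 hκ hG hB (by norm_num) hv d0 d1 hΦ.le hpv he hQ r hr
    · exact two_M h F hκ1 hκ hG hB (by norm_num) ht hpt he hQ r hr
  have hcl := (big_Q h F hκ1 hκ hx hb0 haa' hB hG.xT hxa' hgap hb1).2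
  have hN2 := N_hi h hv.toVS d0 d1 hΦ.le
  have hM := F.hM
  intro τ hτ
  rcases le_total τ (a + T) with h1 | h1
  · have h2 := hpv.bound h hκ1 hκ hv.toVS hB hT (r := a + T - τ) (by linarith only [h1]) (by linarith only [hτ.1, hτ])
    have h3 := hG.abs (r := a + T - τ) (by linarith only [h1]) (by linarith only [hτ.1, hτ])
    rw [show a + T - (a + T - τ) = τ by ring] at h2 h3
    rw [h3]
    have h4 : B * N ≤ B * 1.3 := mul_le_mul_of_nonneg_left (by linarith only [hκ1, hκ, hN2]) hB.le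
    nlinarith only [h2, hκ1, hB, hκ, hN2, hM]
  · have h2 := hcl τ ⟨h1, hτ.2⟩
    nlinarith only [hB, h2]

end Pool.Agent.CDk
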