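import Pool.Agent.CDk.D.CLU
import Pool.Agent.CDk.FIN2

/-!
# CDEC: decay when all gaps are short

Let `M_k = sup of |x| on [t_k - κ, t_k]` with `t_k` zeros, `t_{k+1} ≥ t_k + κ`; by `cluster` (with `m = 0`, `a` any later zero)
`|x| ≤ τ^2/8 M_k` on `[t_k, ∞)` (zeros are unbounded), so `M_{k+1} ≤ (τ^2/8) M_k` and `τ^2/8 ≤ 0.28125`.
-/

open MeasureTheory Set Filter Topology

namespace Pool.Agent.CDk

theorem cluster_decay {κ : ℝ} {x y : ℝ → ℝ} {t0 : ℝ} (hx : Sol x y t0 κ) (hκ : 0 ≤ κ) {b τ : ℝ}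
    (hb : t0 + κ ≤ b) (hxb : x b = 0) (hτ0 : 0 ≤ τ) (hτ : τ ≤ 1.5)
    (hosc : ∀ T : ℝ, ∃ t, T ≤ t ∧ x t = 0)
    (hgap : ∀ z1 z2, b ≤ z1 → z1 < z2 → (∀ t ∈ Ioo z1 z2, x t ≠ 0) → z2 - z1 ≤ τ) :
    Tendsto x atTop (𝓝 0) := by
  have hcont : ContinuousOn x (Icc (b - κ) b) := fun t ht =>
    ((hx.dx t (by linarith [ht.1])).continuousWithinAt).mono
      (fun s hs => mem_Ici.mpr (by linarith [hs.1]))
  obtain ⟨M, hM⟩ := isCompact_Icc.exists_bound_of_continuousOn hcont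
  have hq : τ^2/8 ≤ 0.28125 := by nlinarith
  have hstep : ∀ c N, b ≤ c → x c = 0 → (∀ t ∈ Icc (c - κ) c, |x t| ≤ N) →
      ∀ t, c ≤ t → |x t| ≤ 0.28125 * N := by
    intro c N hc hxc hN t ht
    have hN0 : 0 ≤ N := by
      have := hN c ⟨by linarith, le_rfl⟩
      rw [hxc, abs_zero] at this
      exact this
    obtain ⟨a, ha, hxa⟩ := hosc t
    have h1 := (cluster hx hκ (a := a) (m := 0) (M := N) (b := c) (τ := τ) (by linarith)
      (ht.trans ha) hxc hxa le_rfl hτ0 hτ (by rw [zero_mul]; exact mul_nonneg hN0 (by linarith))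
      (by linarith) (fun z1 z2 h1 h2 _ h4 => hgap z1 z2 (hc.trans h1) h2 h4) ?_).1 t ⟨ht, ha⟩
    · exact h1.trans (mul_le_mul_of_nonneg_right hq hN0)
    · intro r hr
      rw [zero_mul, sub_zero]
      exact hN _ ⟨by linarith [hr.2], by linarith [hr.1]⟩
  have hM0 : 0 ≤ M := by
    have := hM b ⟨by linarith, le_rfl⟩
    rw [hxb, norm_zero] at this
    exact this
  have hmain : ∀ n : ℕ, ∃ c, b ≤ c ∧ x c = 0 ∧ ∀ t, c - κ ≤ t → |x t| ≤ 0.28125^n * M := by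
    intro n
    induction n with
    | zero =>
      refine ⟨b, le_rfl, hxb, fun t ht => ?_⟩
      rw [pow_zero, one_mul]
      rcases le_total t b with h | h
      · exact hM t ⟨ht, h⟩
      · have h1 := hstep b M le_rfl hxb hM t h
        linarith
    | succ n ih =>
      obtain ⟨c, hc, hxc, h1⟩ := ih
      obtain ⟨c', hc', hxc'⟩ := hosc (c + κ)
      refine ⟨c', by linarith, hxc', fun t ht => ?_⟩
      have h2 := hstep c _ hc hxc (fun t ht => h1 t ht.1) t (by linarith)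
      rw [pow_succ]
      linarith
  rw [Metric.tendsto_atTop]
  intro ε hε
  have hlim : Tendsto (fun n : ℕ => (0.28125:ℝ)^n * M) atTop (𝓝 (0 * M)) :=
    (tendsto_pow_atTop_nhds_zero_of_lt_one (by norm_num) (by norm_num)).mul_const M
  rw [zero_mul] at hlim
  obtain ⟨n, hn⟩ := (hlim.eventually (Iio_mem_nhds hε)).exists
  obtain ⟨c, -, -, h1⟩ := hmain n
  refine ⟨c - κ, fun t ht => ?_⟩
  rw [Real.dist_eq, sub_zero]
  exact (h1 t ht).trans_lt hn

end Pool.Agent.CDk
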