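import Mathlib

/-!
# SEL: the first long gap after a zero

For `t > b` with `x t ≠ 0` let `(l, r)` be the component of `{x ≠ 0}` containing `t` (`l ≥ b` the last zero before `t`, `r` the first
zero after `t`; zeros are closed in `[b, ∞)` and unbounded). If all components have length `< τ` we are in the first case. Else the left
ends of the components of length `≥ τ` have mutual distances `≥ τ > 0`, so there is a smallest one.
-/

open Set Filter Topology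

namespace Pool.Agent.CDk

private theorem sel_last {x : ℝ → ℝ} {b τ : ℝ} (hx : ContinuousOn x (Ici b)) (hxb : x b = 0)
    {z1 z2 : ℝ} (h1 : b ≤ z1) (h2 : z1 < z2) (h3 : ∀ t ∈ Ioo z1 z2, x t ≠ 0) (h4 : τ < z2 - z1) :
    ∃ a, b ≤ a ∧ a ≤ z1 ∧ x a = 0 ∧ ∀ t ∈ Ioo a (a + τ), x t ≠ 0 := by
  have hcl : IsClosed (Icc b z1 ∩ x ⁻¹' {0}) :=
    (hx.mono Icc_subset_Ici_self).preimage_isClosed_of_isClosed isClosed_Icc isClosed_singleton
  have hcp : IsCompact (Icc b z1 ∩ x ⁻¹' {0}) :=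
    isCompact_Icc.of_isClosed_subset hcl inter_subset_left
  obtain ⟨a, ⟨ha, ha0⟩, hmax⟩ := hcp.exists_isGreatest ⟨b, ⟨le_rfl, h1⟩, hxb⟩
  refine ⟨a, ha.1, ha.2, ha0, fun t ht h0 => ?_⟩
  rcases le_or_gt t z1 with h | h
  · exact absurd (hmax ⟨⟨ha.1.trans ht.1.le, h⟩, h0⟩) (not_le.2 ht.1)
  · exact h3 t ⟨h, by linarith [ht.2, ha.2]⟩ h0

theorem first_gap {x : ℝ → ℝ} {b τ : ℝ} (hx : ContinuousOn x (Ici b)) (hxb : x b = 0) (hτ : 0 < τ)
    (hosc : ∀ T : ℝ, ∃ t, T ≤ t ∧ x t = 0) :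
    (∀ z1 z2, b ≤ z1 → z1 < z2 → (∀ t ∈ Ioo z1 z2, x t ≠ 0) → z2 - z1 ≤ τ) ∨
    ∃ a T, b ≤ a ∧ τ ≤ T ∧ x a = 0 ∧ x (a + T) = 0 ∧ (∀ t ∈ Ioo a (a + T), x t ≠ 0) ∧
      ∀ z1 z2, b ≤ z1 → z1 < z2 → z2 ≤ a → (∀ t ∈ Ioo z1 z2, x t ≠ 0) → z2 - z1 ≤ τ := by
  by_cases hall : ∀ z1 z2, b ≤ z1 → z1 < z2 → (∀ t ∈ Ioo z1 z2, x t ≠ 0) → z2 - z1 ≤ τ
  · exact Or.inl hall
  · right
    push Not at hall
    obtain ⟨z1, z2, h1, h2, h3, h4⟩ := hall
    -- left ends of long gaps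
    let S : Set ℝ := {a | b ≤ a ∧ x a = 0 ∧ ∀ t ∈ Ioo a (a + τ), x t ≠ 0}
    have hne : S.Nonempty := by
      obtain ⟨a, ha, -, ha0, ha1⟩ := sel_last hx hxb h1 h2 h3 h4
      exact ⟨a, ha, ha0, ha1⟩
    have hbdd : BddBelow S := ⟨b, fun a ha => ha.1⟩
    have hdist : ∀ a ∈ S, ∀ a' ∈ S, a < a' → a + τ ≤ a' := by
      intro a ha a' ha' h
      by_contra hcon
      exact ha.2.2 a' ⟨h, not_le.1 hcon⟩ ha'.2.1
    have hmin : ∃ a ∈ S, ∀ a' ∈ S, a ≤ a' := by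
      obtain ⟨a1, ha1, h5⟩ := exists_lt_of_csInf_lt hne (show sInf S < sInf S + τ by linarith)
      refine ⟨a1, ha1, fun a' ha' => ?_⟩
      by_contra hcon
      push Not at hcon
      have h6 := hdist a' ha' a1 ha1 hcon
      have h7 := csInf_le hbdd ha'
      linarith
    obtain ⟨a, ha, hmn⟩ := hmin
    obtain ⟨R, hR1, hR2⟩ := hosc (a + τ)
    have hcl : IsClosed (Icc (a + τ) R ∩ x ⁻¹' {0}) :=
      (hx.mono fun t ht => by
        have := ht.1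
        have := ha.1
        show b ≤ t
        linarith).preimage_isClosed_of_isClosed isClosed_Icc isClosed_singleton
    have hcp : IsCompact (Icc (a + τ) R ∩ x ⁻¹' {0}) :=
      isCompact_Icc.of_isClosed_subset hcl inter_subset_left
    obtain ⟨r, ⟨hr, hr0⟩, hrm⟩ := hcp.exists_isLeast ⟨R, ⟨hR1, le_rfl⟩, hR2⟩
    refine ⟨a, r - a, ha.1, by linarith [hr.1], ha.2.1, ?_, ?_, ?_⟩
    · rw [add_sub_cancel]
      exact hr0
    · rw [add_sub_cancel]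
      intro t ht h0
      rcases lt_or_ge t (a + τ) with h | h
      · exact ha.2.2 t ⟨ht.1, h⟩ h0
      · exact absurd (hrm ⟨⟨h, by linarith [ht.2, hr.2]⟩, h0⟩) (not_le.2 ht.2)
    · intro y1 y2 h5 h6 h7 h8
      by_contra hcon
      push Not at hcon
      obtain ⟨a', ha', ha1', ha0', ha2'⟩ := sel_last hx hxb h5 h6 h8 hcon
      have := hmn a' ⟨ha', ha0', ha2'⟩
      linarith

end Pool.Agent.CDk
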