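import Pool.Agent.CDk.D.ASM2
import Pool.Agent.CDk.D.ASM3
import Pool.Agent.CDk.D.CDEC
import Pool.Agent.CDk.D.D0
import Pool.Agent.CDk.D.FamDef
import Pool.Agent.CDk.D.SEL
import Pool.Agent.CDk.Defs
import Pool.Agent.CDk.FIN2
import Pool.Agent.CDk.FIN6
import Pool.Agent.CDk.FNa
import Pool.Agent.CDk.GAP

/-!
# ASM4: all oscillatory solutions decay
-/

open MeasureTheory Set Filter Topology

namespace Pool.Agent.CDk
variable {P : Par}

theorem Sol.mono {x y : ℝ → ℝ} {t0 κ κ' : ℝ} (hx : Sol x y t0 κ) (hκ : κ ≤ κ') : Sol x y t0 κ' := by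
  refine ⟨hx.dx, hx.ac, ?_⟩
  filter_upwards [hx.eq] with t ht h0
  obtain ⟨c, θ, c0, c1, θ0, θ1, hd⟩ := ht h0
  exact ⟨c, θ, c0, c1, θ0, θ1.trans hκ, hd⟩

/-- the initial state -/
theorem St.init (h : P.Star) (F : Fam P) {κ : ℝ} (hκ1 : P.Y + P.s - 0.0001 ≤ κ) (hκ : κ < P.Y + P.s)
    {x y : ℝ → ℝ} {t0 : ℝ} (hx : Sol x y t0 κ) {a T g : ℝ} (hG : GapAt κ x t0 a T g) :
    ∃ B, 0 < B ∧ St P F κ x y a g B := by
  have hY := Par.Y_pos h
  have hs := h.s_lo
  have hs' := h.s_hi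
  have hsg := Par.sg_bd h
  have ha := hG.ha
  have hga : |g| = 1 := by rcases hG.hg with h1 | h1 <;> rw [h1] <;> simp
  have hyc : ContinuousOn y (Icc (a - κ) a) := by
    have := (hx.ac (a - κ) a (by linarith only [ha]) (by linarith)).continuousOn
    rwa [uIcc_of_le (by linarith)] at this
  obtain ⟨C, hC⟩ := isCompact_Icc.exists_bound_of_continuousOn hyc
  have hC0 : 0 ≤ C := (norm_nonneg _).trans (hC a ⟨by linarith, le_rfl⟩)
  have hlip : ∀ r, 0 ≤ r → r ≤ κ → |x (a - r)| ≤ C * r := by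
    intro r hr hr1
    have h2 := (convex_Icc (a - κ) a).norm_image_sub_le_of_norm_hasDerivWithin_le
      (f := x) (f' := y) (C := C)
      (fun t ht => (hx.dx t (by linarith [ht.1])).mono (fun s hs => mem_Ici.mpr (by linarith [hs.1])))
      (fun t ht => hC t ht) (⟨by linarith, le_rfl⟩ : a ∈ Icc (a - κ) a)
      (⟨by linarith, by linarith⟩ : a - r ∈ Icc (a - κ) a)
    rw [hG.x0, sub_zero, Real.norm_eq_abs, Real.norm_eq_abs] at h2
    rwa [show a - r - a = -r by ring, abs_neg, abs_of_nonneg hr] at h2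
  have hya : |y a| ≤ C := by
    have := hC a ⟨by linarith, le_rfl⟩
    rwa [Real.norm_eq_abs] at this
  have hM := F.hM
  have hvc : 0 < F.vc := by linarith only [F.hvc, hκ1, hκ, hM]
  have hcc : 0 < F.cc := by linarith only [F.hcc, hκ1, hκ, hM]
  obtain ⟨hS1, hS2⟩ := F.hT _ F.hSl
  set q0 := min F.vc (F.cc / 4) with hq0
  have hq0p : 0 < q0 := lt_min hvc (by linarith)
  have hq : ∀ r, 0 ≤ r → r ≤ κ → q0 * r ≤ 1.0002 * min (F.vc * r) F.cc := by
    intro r h0 h1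
    have h2 : q0 * r ≤ min (F.vc * r) F.cc := by
      apply le_min
      · exact mul_le_mul_of_nonneg_right (min_le_left _ _) h0
      · have h3 : q0 * r ≤ F.cc / 4 * r := mul_le_mul_of_nonneg_right (min_le_right _ _) h0
        nlinarith only [h3, hκ1, hcc, hκ, hY, hs', h1]
    have h3 : 0 ≤ q0 * r := mul_nonneg hq0p.le h0
    linarith
  set B := C / q0 + 4 * C * P.sg / F.Sl.1 + 1 with hB
  have hBp : 0 < B := by
    have h1 : 0 ≤ C / q0 := div_nonneg hC0 hq0p.le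
    have h2 : 0 ≤ 4 * C * P.sg / F.Sl.1 := div_nonneg (mul_nonneg (by linarith) (by linarith)) hS1.le
    linarith only [hκ1, hκ, h1, h2]
  have hBq : C ≤ B * q0 := by
    have h2 : 0 ≤ 4 * C * P.sg / F.Sl.1 := div_nonneg (mul_nonneg (by linarith) (by linarith)) hS1.le
    have h3 : C / q0 * q0 = C := div_mul_cancel₀ _ hq0p.ne'
    have : C / q0 * q0 ≤ B * q0 := mul_le_mul_of_nonneg_right (by linarith only [hκ1, hκ, h2]) hq0p.le
    linarith
  have hBS : 4 * C * P.sg ≤ B * F.Sl.1 := by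
    have h1 : 0 ≤ C / q0 := div_nonneg hC0 hq0p.le
    have h3 : 4 * C * P.sg / F.Sl.1 * F.Sl.1 = 4 * C * P.sg := div_mul_cancel₀ _ hS1.ne'
    have : 4 * C * P.sg / F.Sl.1 * F.Sl.1 ≤ B * F.Sl.1 := mul_le_mul_of_nonneg_right (by linarith only [hκ1, hκ, h1]) hS1.le
    linarith
  have hCr : ∀ r, 0 ≤ r → r ≤ κ → C * r ≤ B * (1.0002 * min (F.vc * r) F.cc) := by
    intro r h0 h1
    calc C * r ≤ B * q0 * r := mul_le_mul_of_nonneg_right hBq h0
      _ = B * (q0 * r) := by ring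
      _ ≤ _ := mul_le_mul_of_nonneg_left (hq r h0 h1) hBp.le
  have hgx : ∀ z, -(g * z) ≤ |z| ∧ g * z ≤ |z| := by
    intro z
    have h1 : |g * z| = |z| := by rw [abs_mul, hga, one_mul]
    rw [← h1]
    exact ⟨neg_le_abs _, le_abs_self _⟩
  have hdom : Dom P κ x y a g (B * F.Sl.1) (fun r => B * F.Sl.2 r) := by
    refine ⟨fun r hr => ?_, fun _ => C * κ, monotone_const, fun _ => mul_nonneg hC0 (by linarith only [hκ1, hκ, hY, hs]), fun r hr => ?_, ?_⟩
    · have h1 : r ≤ κ := by linarith [hr.2]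
      calc -(g * x (a - r)) ≤ |x (a - r)| := (hgx _).1
        _ ≤ C * r := hlip r hr.1 h1
        _ ≤ _ := hCr r hr.1 h1
        _ ≤ _ := mul_le_mul_of_nonneg_left (F.hSlc r hr.1 hr.2) hBp.le
    · calc g * x (a - r) ≤ |x (a - r)| := (hgx _).2
        _ ≤ C * r := hlip r hr.1 hr.2
        _ ≤ C * κ := mul_le_mul_of_nonneg_left hr.2 hC0
    · have hτ0 : 0 ≤ κ - P.Y := by linarith
      have hsh : 0 ≤ Real.sinh (κ - P.Y) := Real.sinh_nonneg_iff.mpr hτ0
      have e1 : (∫ τ in (0:ℝ)..(κ - P.Y), Real.sinh (κ - P.Y - τ) * (C * κ))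
          ≤ ∫ τ in (0:ℝ)..(κ - P.Y), Real.sinh (κ - P.Y) * (C * κ) := by
        apply intervalIntegral.integral_mono_on hτ0
          (Continuous.intervalIntegrable (by fun_prop) _ _) (continuous_const.intervalIntegrable _ _)
        intro τ hτ
        apply mul_le_mul_of_nonneg_right _ (mul_nonneg hC0 (by linarith only [hκ1, hκ, hY, hs]))
        exact Real.sinh_le_sinh.mpr (by linarith [hτ.1])
      rw [intervalIntegral.integral_const, smul_eq_mul, sub_zero] at e1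
      have e2 : g * y a * Real.sinh (κ - P.Y) ≤ C * Real.sinh (κ - P.Y) :=
        mul_le_mul_of_nonneg_right ((hgx _).2.trans hya) hsh
      have e3 : (κ - P.Y) * κ ≤ 3 := by nlinarith only [hκ1, hY, hs', hκ, hs]
      have e4 : (κ - P.Y) * (Real.sinh (κ - P.Y) * (C * κ)) ≤ 3 * (C * Real.sinh (κ - P.Y)) := by
        have := mul_le_mul_of_nonneg_right e3 (mul_nonneg hC0 hsh)
        linarith
      have e5 : 4 * C * Real.sinh (κ - P.Y) ≤ Real.sinh (κ - P.Y) / P.sg * (B * F.Sl.1) := by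
        have h1 : Real.sinh (κ - P.Y) / P.sg * (4 * C * P.sg) ≤ Real.sinh (κ - P.Y) / P.sg * (B * F.Sl.1) :=
          mul_le_mul_of_nonneg_left hBS (div_nonneg hsh (by linarith only [hκ1, hκ, hsg]))
        have h2 : Real.sinh (κ - P.Y) / P.sg * (4 * C * P.sg) = 4 * C * Real.sinh (κ - P.Y) := by
          have : P.sg ≠ 0 := by linarith only [hκ1, hκ, hsg]
          field_simp
        linarith only [h1, h2]
      linarith only [e1, e2, e4, e5]
  refine ⟨B, hBp, vir_of_good h (by linarith) F.gl hBp.le hdom, ⟨F.Sl, F.hSl, hdom⟩, fun r hr => ?_⟩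
  calc |x (a - r)| ≤ C * r := hlip r hr.1 hr.2
    _ ≤ _ := hCr r hr.1 hr.2
    _ ≤ _ := mul_le_mul_of_nonneg_left (F.hQc r hr.1 (by linarith only [hr.2, hκ1, hκ, hY, hs', hr])) hBp.le

/-- decay of all oscillatory solutions -/
theorem all_decay (h : P.Star) (F : Fam P) {κ : ℝ} (hκ1 : P.Y + P.s - 0.0001 ≤ κ) (hκ : κ < P.Y + P.s)
    {x y : ℝ → ℝ} {t0 : ℝ} (hx : Sol x y t0 κ) (hosc : ∀ T : ℝ, ∃ t, T ≤ t ∧ x t = 0) :
    Tendsto x atTop (𝓝 0) := by
  have hY := Par.Y_pos h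
  have hs := h.s_lo
  have hs' := h.s_hi
  by_contra hnot
  have hcont : ∀ b, t0 ≤ b → ContinuousOn x (Ici b) := fun b hb t ht =>
    ((hx.dx t (hb.trans ht)).mono (fun s hs => mem_Ici.mpr (hb.trans hs))).continuousWithinAt
  -- the next long gap
  have hnext : ∀ b, t0 + κ ≤ b → x b = 0 → ∃ a T g, b ≤ a ∧ GapAt κ x t0 a T g ∧
      ∀ z1 z2, b ≤ z1 → z1 < z2 → z2 ≤ a → (∀ t ∈ Ioo z1 z2, x t ≠ 0) → z2 - z1 ≤ κ - 1.55 := by
    intro b hb hxb
    rcases first_gap (τ := κ - 1.55) (hcont b (by linarith)) hxb (by linarith) hosc with h1 | h1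
    · exact absurd (cluster_decay hx (by linarith) hb hxb (by linarith) (by linarith) hosc h1) hnot
    · obtain ⟨a, T, h2, h3, h4, h5, h6, h7⟩ := h1
      obtain ⟨g, g1, g2⟩ := sign_const (x := x) (a := a) (b := a + T)
        ((hcont a (by linarith)).mono (fun t ht => mem_Ici.mpr ht.1.le)) h6
      exact ⟨a, T, g, h2, ⟨g1, by linarith, h3, h4, h5, fun t ht => g2 _ ⟨by linarith [ht.1], by linarith [ht.2]⟩⟩, h7⟩
  obtain ⟨η, hη0, hη1, hstep⟩ := St.step h F hκ1 hκ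
  have hM := F.hM
  -- many steps
  have hmany : ∀ a T g B, GapAt κ x t0 a T g → 0 < B → St P F κ x y a g B → ∀ m : ℕ,
      ∃ a' T' g', a + 1.4 * m ≤ a' ∧ GapAt κ x t0 a' T' g' ∧ St P F κ x y a' g' ((1 - η)^m * B) ∧
        ∀ t ∈ Icc a a', |x t| ≤ (1.3 + F.M) * B := by
    intro a T g B hG hB hS m
    induction m with
    | zero =>
      refine ⟨a, T, g, by simp, hG, by simpa using hS, fun t ht => ?_⟩
      have : t = a := le_antisymm ht.2 ht.1
      rw [this, hG.x0, abs_zero]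
      exact mul_nonneg (by linarith) hB.le
    | succ m ih =>
      obtain ⟨a', T', g', h1, h2, h3, h4⟩ := ih
      have hT' := h2.hT
      have hBm : 0 < (1 - η)^m * B := mul_pos (pow_pos (by linarith) m) hB
      obtain ⟨a2, T2, g2, k1, k2, k3⟩ := hnext (a' + T') (by linarith [h2.ha]) h2.xT
      have hst := hstep x y t0 hx a' T' g' _ h2 hBm h3 a2 T2 g2 k2 k1 k3
      have hbd := h3.bound h F hκ1 hκ hx h2 hBm k1 k2.x0 k3
      refine ⟨a2, T2, g2, ?_, k2, ?_, ?_⟩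
      · push_cast
        linarith only [hκ1, hκ, hY, hs, h1, hT', k1]
      · rw [pow_succ']
        rwa [← mul_assoc] at hst
      · intro t ht
        rcases le_total t a' with h5 | h5
        · exact h4 t ⟨ht.1, h5⟩
        · refine (hbd t ⟨h5, ht.2⟩).trans ?_
          apply mul_le_mul_of_nonneg_left _ (by linarith only [hκ1, hκ, hM])
          have : (1 - η)^m ≤ 1 := pow_le_one₀ (by linarith) (by linarith)
          nlinarith only [hB, this]
  have hall : ∀ a T g B, GapAt κ x t0 a T g → 0 < B → St P F κ x y a g B → ∀ t, a ≤ t →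
      |x t| ≤ (1.3 + F.M) * B := by
    intro a T g B hG hB hS t ht
    obtain ⟨m, hm⟩ := exists_nat_ge ((t - a) / 1.4)
    obtain ⟨a', T', g', h1, -, -, h4⟩ := hmany a T g B hG hB hS m
    apply h4 t ⟨ht, ?_⟩
    rw [div_le_iff₀ (by norm_num)] at hm
    linarith
  -- start
  obtain ⟨b, hb, hxb⟩ := hosc (t0 + κ)
  obtain ⟨a, T, g, h1, hG, -⟩ := hnext b hb hxb
  obtain ⟨B, hB, hS⟩ := St.init h F hκ1 hκ hx hG
  apply hnot
  rw [Metric.tendsto_atTop]
  intro ε hε
  have hpow : Tendsto (fun n : ℕ => (1.3 + F.M) * ((1 - η)^n * B)) atTop (𝓝 ((1.3 + F.M) * (0 * B))) :=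
    ((tendsto_pow_atTop_nhds_zero_of_lt_one (by linarith) (by linarith)).mul_const _).const_mul _
  rw [zero_mul, mul_zero] at hpow
  obtain ⟨n, hn⟩ := (Metric.tendsto_atTop.mp hpow ε hε)
  obtain ⟨a', T', g', -, h2, h3, -⟩ := hmany a T g B hG hB hS n
  refine ⟨a', fun t ht => ?_⟩
  have hBn : 0 < (1 - η)^n * B := mul_pos (pow_pos (by linarith) n) hB
  have h4 := hall a' T' g' _ h2 hBn h3 t ht
  have h5 := hn n le_rfl
  rw [Real.dist_eq, sub_zero] at h5 ⊢
  exact lt_of_le_of_lt (h4.trans (le_abs_self _)) h5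

/-- admissibility up to the constant -/
theorem adm_of_fam (h : P.Star) (F : Fam P) {κ : ℝ} (h0 : 0 < κ) (hκ : κ ≤ P.ρ + P.u + P.s) : Adm κ := by
  refine ⟨h0, fun p τ hc s hτ x hx hosc => ?_⟩
  obtain ⟨y, hy⟩ := sol_of_isSol hc hx
  have hYs : P.Y + P.s = P.ρ + P.u + P.s := by unfold Par.Y; ring
  exact all_decay h F (κ := max (tm τ s) (P.Y + P.s - 0.0001)) (le_max_right _ _)
    (max_lt (by linarith) (by linarith)) (hy.mono (le_max_left _ _)) hosc

end Pool.Agent.CDk
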