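import Pool.Agent.CDk.D.Tab

/-!
# Check functions of part D (natural number arithmetic, evaluated by the kernel)
-/

set_option maxRecDepth 100000

namespace Pool.Agent.CDk.Chk
open Pool.Agent.CDk.Tab

def cdiv (a b : ℕ) : ℕ := (a + b - 1) / b

/-! ## part A: node bounds -/

/-- `∑ max (kU - A mb_low, A mb_up - kL) ω` over the cells; `k = [RL, R]` on the cells `i < a`, `1` for `a ≤ i < x`,
`0` for `i ≥ x` (unit of the result `10^-18`) -/
def kS (A R RL a x : ℕ) : ℕ → List (ℕ × ℕ × ℕ) → ℕ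
  | _, [] => 0
  | i, (mu, ml, om) :: t =>
    max ((if i < a then R else if i < x then 1000000 else 0) * 1000000 - A * ml)
      (A * mu - (if i < a then RL else if i < x then 1000000 else 0) * 1000000) * om
      + kS A R RL a x (i+1) t

/-- `Q ≤ 0.8316 A` and `K^2 ≤ 159 A (0.8316 A - Q)` -/
def okA (A Q K : ℕ) : Bool :=
  Nat.ble (10000 * Q) (8316 * A) && Nat.ble (K * K) (159 * A * (8316 * A - 10000 * Q) * 10^20)

/-- `fF (m/20) (k/20) ≤ A` (`k ≤ m + 36`) -/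
def chkP (m k A : ℕ) : Bool :=
  okA A (cdiv (k * 10^11) (5087922 + 100000 * m) - joL.getD (k - m) 0) (kS A 0 0 0 (k - m) 0 tri)

/-- `fF (-a/20) (k/20) ≤ A` (`a + k ≤ 42`) -/
def chkN (a k A : ℕ) : Bool :=
  okA A (cdiv (cdiv (k * 10^11) (5087922 - 100000 * a) * (1000000 - joL.getD a 0)) 1000000 + joU.getD a 0
      - joL.getD (a + k) 0)
    (kS A (cdiv (k * 10^11) (5087922 - 100000 * a)) (k * 10^11 / (5087930 - 100000 * a)) a (a + k) 0 tri)

/-- all node bounds of the node `m`: list `k = 0, 1, ..`; `prev` is the previous entry -/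
def nodesP (m : ℕ) : ℕ → ℕ → List ℕ → Bool
  | _, _, [] => true
  | k, prev, A :: t => Nat.ble prev A && (Nat.ble (m + 37) k || Nat.beq k 0 || chkP m k A) && nodesP m (k+1) A t

def nodesN (a : ℕ) : ℕ → ℕ → List ℕ → Bool
  | _, _, [] => true
  | k, prev, A :: t => Nat.ble prev A && (Nat.ble 43 (a + k) || Nat.beq k 0 || chkN a k A) && nodesN a (k+1) A t

/-- kernel sum for `gV (-a/20)` -/
def kSV (A SU SL : ℕ) : ℕ → List (ℕ × ℕ) → List (ℕ × ℕ × ℕ) → ℕ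
  | 0, _, t => kS A 0 0 0 0 0 t
  | n+1, (cu, cl) :: C, (mu, ml, om) :: t =>
    max ((SU + cu) * 1000000 - A * ml) (A * mu - (SL + cl) * 1000000) * om + kSV A SU SL n C t
  | _+1, _, _ => 0

/-- lower bound of `∫_0^{a/20} cosh(s - a/20 + y) io y dy` times `10^12` -/
def lowV : ℕ → List (ℕ × ℕ) → List ℕ → List ℕ → ℕ
  | 0, _, _, _ => 0
  | n+1, (_, cl) :: C, jl :: JL, ju :: JU => cl * (jl - ju) + lowV n C JL JU
  | _+1, _, _, _ => 0

/-- `gV (-a/20) ≤ A`, `1 ≤ a ≤ 9` -/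
def chkV (a A : ℕ) : Bool :=
  okA A (cdiv (cdiv (521692 * 2 * 10^6) (5087922 - 100000 * a) * (1000000 - joL.getD a 0)) 1000000
      - lowV a (ch.drop (10 - a)) (joL.drop 1) joU / 1000000)
    (kSV A (cdiv (521692 * 2 * 10^6) (5087922 - 100000 * a)) (521670 * 2 * 10^6 / (5087930 - 100000 * a)) a
      (ch.drop (10 - a)) tri)

/-- the table `Ct` -/
def chkC1 (i j c : ℕ) : Bool :=
  Nat.blt i j && Nat.ble j 44 &&
  Nat.ble (12155 * ((ioU.getD j 0 - ioL.getD i 0) * 100 + 3 * (wn.getD j 0 + wn.getD i 0)) * 20) (c * (j - i) * 10^6)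
def chkC : Bool :=
  (List.range 43).all (fun i => Nat.ble (Ct.getD i 0) (Ct.getD (i+1) 0) &&
    (chkC1 (i+1) (Cj.getD (i+1) 0) (Ct.getD (i+1) 0) || Nat.ble 978478 (Ct.getD (i+1) 0)))
    && Nat.ble 978478 (Ct.getD 44 0) && Nat.ble (Ct.getD 43 0) (Ct.getD 44 0)

/-! ## part A: from nodes to templates -/

/-- nodes `m < m'`, node bounds `u`, `v`, template `X`, bound `Q`; `k` counts from `1` (the lists are the tails) -/
def goP (m m' : ℕ) : ℕ → ℕ → List ℕ → List ℕ → List ℕ → List ℕ → Bool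
  | k, prev, u :: U, v :: V, x :: X, q :: Q =>
    Nat.ble prev x && Nat.ble x q &&
    (Nat.ble (m' + 37) k || Nat.ble (10002 * (3200 * max u v + (if k = 1 then 4 else 1) * Ct.getD (min (k + 1 - m) 44) 0
      + Ct.getD (min (k - m) 44) 0 * (m' - m)^2)) (32000000 * x)) && goP m m' (k+1) x U V X Q
  | _, _, [], [], [], [] => true
  | _, _, _, _, _, _ => false

def cellP (m m' : ℕ) (u v X : List ℕ) (xv : ℕ) : Bool :=
  Nat.blt m m' && Nat.ble m' (m + 4) && goP m m' 1 0 u.tail v.tail X.tail qt.tail &&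
  Nat.ble (10002 * cdiv (12155 * 521692 * 200) (5087922 + 100000 * m)) (10000 * xv)

/-- nodes `-a < -(a-1)` -/
def goN (a : ℕ) : ℕ → ℕ → List ℕ → List ℕ → List ℕ → List ℕ → Bool
  | k, prev, u :: U, v :: V, x :: X, q :: Q =>
    Nat.ble prev x && Nat.ble x q &&
    (Nat.ble 44 (a + k) || Nat.ble (10002 * (3200 * max u v + (if k = 1 then 4 else 1) * Ct.getD (min (k + 1 + a) 44) 0
      + Ct.getD (min (k + a) 44) 0)) (32000000 * x)) && goN a (k+1) x U V X Q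
  | _, _, [], [], [], [] => true
  | _, _, _, _, _, _ => false

def cellN (a : ℕ) (u v X : List ℕ) (vu vv xv : ℕ) : Bool :=
  goN a 1 0 u.tail v.tail X.tail qt.tail &&
  Nat.ble (10002 * (320000 * max vu vv + 113 * Ct.getD a 0)) (3200000000 * xv)

/-! ## part B: templates -/

/-- `(d_j, 40 I_j, 2400 J_j)` for the piecewise linear function with nodes `d_j` at `j/20` -/
def tb : ℕ → ℕ → List ℕ → List (ℕ × ℕ × ℕ)
  | I, J, d0 :: d1 :: t => (d0, I, J) :: tb (I + d0 + d1) (J + 3 * I + 2 * d0 + d1) (d1 :: t)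
  | I, J, [d0] => [(d0, I, J)]
  | _, _, [] => []

/-- upper bound of `2400 J(Y)` -/
def JYU (l : List (ℕ × ℕ × ℕ)) : ℕ :=
  (l.getD 50 (0,0,0)).2.2 + cdiv (26379 * (l.getD 50 (0,0,0)).2.1) 10000 + cdiv (23196 * (l.getD 51 (0,0,0)).1) 10000
/-- lower bound of `2400 J(Y)` -/
def JYL (l : List (ℕ × ℕ × ℕ)) : ℕ :=
  (l.getD 50 (0,0,0)).2.2 + 263766 * (l.getD 50 (0,0,0)).2.1 / 100000 + 23190 * (l.getD 50 (0,0,0)).1 / 10000

/-- `2400 fF (-a/20) (k/20)` from above -/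
def F24 (N24 a k Ja Jak : ℕ) : ℕ := cdiv (k * 10^5 * (N24 - Ja)) (5087922 - 10^5 * a) + Ja - Jak

/-- cell `[a/20, (a+1)/20]`; first list starts at the index `a + k` -/
def goB (N24 a Ja Ja1 : ℕ) : ℕ → List (ℕ × ℕ × ℕ) → List ℕ → List ℕ → Bool
  | k, (_, _, J0) :: (d1, i1, J1) :: (d2, i2, J2) :: t, s :: S, q :: Q =>
    (Nat.ble 52 (a + k)) ||
    (Nat.ble (10002 * (4 * max (F24 N24 a k Ja J0) (F24 N24 (a+1) k Ja1 J1) + 3 * ((if k = 1 then 4 else 1) * d2 + d1)))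
      (96000000 * min s q) && goB N24 a Ja Ja1 (k+1) ((d1, i1, J1) :: (d2, i2, J2) :: t) S Q)
  | _, _, _, _ => false

/-- `∑ (2 s0 d0 + s0 d1 + s1 d0 + 2 s1 d1)` (`= 120 E 10^6`) -/
def goE : List ℕ → List ℕ → ℕ
  | s0 :: s1 :: S, d0 :: d1 :: D => 2*s0*d0 + s0*d1 + s1*d0 + 2*s1*d1 + goE (s1 :: S) (d1 :: D)
  | _, _ => 0

/-- `E(a/20)` -/
def Esum (a : ℕ) (l : List ℕ) : ℕ := goE sh ((l.take (a+1)).reverse ++ List.replicate 11 0)

/-- template `(V, l)`, cell `[a/20, (a+1)/20]`, target `(SV, S)` -/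
def chkB (V : ℕ) (l : List ℕ) (a SV : ℕ) (S : List ℕ) : Bool :=
  let t := tb 0 0 l
  let N24 := 2400 * V + JYU t
  let A0 := t.getD a (0,0,0)
  let A1 := t.getD (a+1) (0,0,0)
  let q0 := cdiv (2000000 * (N24 - A0.2.2)) (5087922 - 100000 * a)
  let q1 := cdiv (2000000 * (N24 - A1.2.2)) (5087922 - 100000 * (a+1))
  let E0 := Esum a l
  let E1 := Esum (a+1) l
  goB N24 a A0.2.2 A1.2.2 1 (t.drop (a+1)) S.tail qt.tail &&
  Nat.ble (10002 * (max (521692 * (q0 - 60 * A0.2.1) + 20 * E0) (521692 * (q1 - 60 * A1.2.1) + 20 * E1)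
    + 2400000000 + 847500 * A1.1)) (24000000000000 * SV) &&
  Nat.ble (10002 * (720 * 521692 * 737920 + 20 * E1 + 2400000000 + 13824000 * 737920)) (24000000000000 * SV)

def slope : ℕ → List ℕ → Bool
  | k, d :: t => Nat.ble 13 k || (Nat.ble (10002 * 3 * 737920 * k) (2000000 * d) && slope (k+1) t)
  | _, [] => false

/-! ## part S: the templates as virtual states -/

/-- `9600 * 10^6 * ∫_0^1.5` from below; first list `mLo - 326` -/
def goM : List ℕ → List (ℕ × ℕ × ℕ) → ℕ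
  | m0 :: m1 :: M, (d0, i0, _) :: (d1, i1, j1) :: t =>
    (m0 - 326) * (6*i0 + 3*d0 + d1) + (m1 - 326) * (6*i0 + 5*d0 + 3*d1) + goM (m1 :: M) ((d1, i1, j1) :: t)
  | _, _ => 0

/-- `|D/N - D*/L| + err ≤ 6 δ y` at the nodes `1..11` (`nl`, `nu`: bounds of `2400 N`) -/
def goT1 (nl nu dl : ℕ) : ℕ → List ℕ → List ℕ → List ℕ → Bool
  | k, d :: D, a :: DL, b :: DU =>
    Nat.ble (2400 * 10^6 * d) ((a + 30 * dl * k - (if k = 1 then 0 else 120)) * nl) &&
    Nat.ble ((b + (if k = 1 then 0 else 120) - 30 * dl * k) * nu) (2400 * 10^6 * d) &&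
    goT1 nl nu dl (k+1) D DL DU
  | _, _, [], [] => true
  | _, _, _, _ => false

/-- `|I/N - io| + err ≤ δ w` at the nodes `11..44` -/
def goT2 (nl nu dl : ℕ) : List (ℕ × ℕ × ℕ) → List ℕ → List ℕ → List ℕ → Bool
  | (dm, _, _) :: (d0, i0, j0) :: (d1, i1, j1) :: t, a :: IL, b :: IU, w :: WN =>
    Nat.ble (60 * 10^6 * i0 * 10000) ((10000 * a + dl * w - 1100000) * nl) &&
    Nat.ble ((10000 * b - dl * w) * nu + 15 * 10^10 * max (d1 - d0) (d0 - dm)) (60 * 10^6 * i0 * 10000) &&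
    goT2 nl nu dl ((d0, i0, j0) :: (d1, i1, j1) :: t) IL IU WN
  | _, [], [], [] => true
  | _, _, _, _ => false

/-- everything for a good template -/
def chkS (V : ℕ) (l : List ℕ) (dl : ℕ) : Bool :=
  let t := tb 0 0 l
  let nl := 2400 * V + JYL t
  let nu := 2400 * V + JYU t
  let X := 1000 + dl^2
  goT1 nl nu dl 1 l.tail doL.tail doU.tail &&
  goT2 nl nu dl (t.drop 10) (ioL.drop 11) (ioU.drop 11) (wn.drop 11) &&
  Nat.ble (1000 * 2400 * (t.getD 44 (0,0,0)).1) (805 * nl) &&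
  Nat.ble nu (24000 * V) && Nat.ble dl 300 &&
  -- nu/2400 - ∫ ≤ exp(-(1000+dl^2)/(2*10^6))
  Nat.ble (6 * (2*10^6)^3 * (4 * 10^6 * nu) + 6 * (2*10^6)^2 * X * (9600 * 10^12) + X^3 * (9600 * 10^12))
    (6 * (2*10^6)^3 * (9600 * 10^12) + 3 * (2*10^6) * X^2 * (9600 * 10^12)
      + 6 * (2*10^6)^3 * (goM mLo t + 1788000 * (t.getD 30 (0,0,0)).2.1))

end Pool.Agent.CDk.Chk
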