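import Pool.Agent.CDk.D.Tab
import Pool.Agent.CDk.Defs
import Pool.Agent.CDk.FNa

/-!
# TabSc: the tables `wn`, `ch`, `sh` of Tab.lean are correct

`0.5005 < s`-type bounds, `sg = sinh s`, from ENC.lean (`Y_pos`, `sg_bd`, ...).
-/

open MeasureTheory Set Filter Topology

namespace Pool.Agent.CDk
open Tab Par
variable {P : Par}

private def tsc_w (y : ℚ) : ℚ := min (3 * y^2) 1 + 4 * max (y - 1.4) 0
private def tsc_ch (x : ℚ) : ℚ := 1 + x^2/2 + x^4/24 + x^6/720 + x^8/40320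
private def tsc_sh (x : ℚ) : ℚ := x + x^3/6 + x^5/120 + x^7/5040 + x^9/362880

private theorem tsc_w_cast (y : ℚ) : ((tsc_w y : ℚ) : ℝ) = w y := by
  unfold tsc_w w
  push_cast
  ring

private theorem tsc_ch_cast (x : ℚ) :
    ((tsc_ch x : ℚ) : ℝ) = 1 + (x:ℝ)^2/2 + (x:ℝ)^4/24 + (x:ℝ)^6/720 + (x:ℝ)^8/40320 := by
  unfold tsc_ch
  push_cast
  ring

private theorem tsc_sh_cast (x : ℚ) :
    ((tsc_sh x : ℚ) : ℝ) = (x:ℝ) + (x:ℝ)^3/6 + (x:ℝ)^5/120 + (x:ℝ)^7/5040 + (x:ℝ)^9/362880 := by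
  unfold tsc_sh
  push_cast
  ring

private theorem tsc_chk_w : ∀ i : ℕ, i < 45 → tsc_w (i/20) * 10^6 = ((wn.getD i 0 : ℕ) : ℚ) := by
  decide +kernel

private theorem tsc_chk_ch : ∀ j : ℕ, j < 10 →
    (((ch.getD j (0,0)).2 : ℕ) : ℚ) ≤ (tsc_ch (0.000519 + j/20) - 0.00000001) * 10^6 ∧
      (tsc_ch (0.000521 + (j+1)/20) + 0.00000001) * 10^6 ≤ (((ch.getD j (0,0)).1 : ℕ) : ℚ) := by
  decide +kernel

private theorem tsc_chk_sh : ∀ j : ℕ, j < 11 →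
    (tsc_sh (0.500521 - j/20) + 0.00000001) * 10^6 ≤ ((sh.getD j 0 : ℕ) : ℚ) := by
  decide +kernel

private theorem tsc_cosh_poly (x : ℝ) (hx : |x| ≤ 1) :
    |Real.cosh x - (1 + x ^ 2 / 2 + x ^ 4 / 24 + x ^ 6 / 720 + x ^ 8 / 40320)| ≤
      |x| ^ 10 * (11 / 36288000) := by
  have h1 := Real.exp_bound hx (show 0 < 10 by norm_num)
  have h2 := Real.exp_bound (x := -x) (by rwa [abs_neg]) (show 0 < 10 by norm_num)
  rw [abs_neg] at h2
  rw [Real.cosh_eq]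
  simp only [Finset.sum_range_succ, Finset.sum_range_zero, Nat.factorial] at h1 h2
  norm_num at h1 h2
  rw [abs_le] at h1 h2 ⊢
  obtain ⟨h1, h1'⟩ := h1
  obtain ⟨h2, h2'⟩ := h2
  constructor
  · linarith
  · linarith

private theorem tsc_err {x : ℝ} (h0 : 0 ≤ x) (h1 : x ≤ 0.51) :
    |x| ^ 10 * (11 / 36288000) ≤ 0.00000001 := by
  rw [abs_of_nonneg h0]
  have : x ^ 10 ≤ 0.51 ^ 10 := pow_le_pow_left₀ h0 h1 10
  norm_num at this ⊢
  linarith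

private theorem tsc_cosh {x : ℚ} (h0 : (0:ℝ) ≤ x) (h1 : (x:ℝ) ≤ 0.51) :
    ((tsc_ch x : ℚ) : ℝ) - 0.00000001 ≤ Real.cosh x ∧ Real.cosh x ≤ ((tsc_ch x : ℚ) : ℝ) + 0.00000001 := by
  have h2 := tsc_cosh_poly (x:ℝ) (by rw [abs_of_nonneg h0]; linarith)
  have h3 := abs_le.1 (h2.trans (tsc_err h0 h1))
  rw [tsc_ch_cast]
  constructor
  · linarith [h3.1]
  · linarith [h3.2]

private theorem tsc_sinh {x : ℚ} (h0 : (0:ℝ) ≤ x) (h1 : (x:ℝ) ≤ 0.51) :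
    Real.sinh x ≤ ((tsc_sh x : ℚ) : ℝ) + 0.00000001 := by
  have h2 := sinh_poly (x:ℝ) (by rw [abs_of_nonneg h0]; linarith)
  have h3 := abs_le.1 (h2.trans (tsc_err h0 h1))
  rw [tsc_sh_cast]
  linarith [h3.2]

theorem wn_tab {i : ℕ} (hi : i ≤ 44) : w (i / 20) * 10^6 = (wn.getD i 0 : ℕ) := by
  have h1 := tsc_chk_w i (by omega)
  have h2 := tsc_w_cast (i/20)
  have h3 := congrArg (Rat.cast : ℚ → ℝ) h1
  push_cast at h2 h3
  rw [h2] at h3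
  exact h3

theorem ch_tab (h : P.Star) {j : ℕ} (hj : j < 10) : ∀ z ∈ Icc (P.s - 1/2 + j / 20) (P.s - 1/2 + (j + 1) / 20),
    (((ch.getD j (0,0)).2 : ℕ) : ℝ) ≤ Real.cosh z * 10^6 ∧ Real.cosh z * 10^6 ≤ ((ch.getD j (0,0)).1 : ℕ) := by
  intro z hz
  have hs := h.s_lo
  have hs' := h.s_hi
  have hj0 : (0:ℝ) ≤ j := Nat.cast_nonneg j
  have hj1 : (j:ℝ) ≤ 9 := by exact_mod_cast (by omega : j ≤ 9)
  obtain ⟨c1, c2⟩ := tsc_chk_ch j hj
  have c1' := (Rat.cast_le (K := ℝ)).2 c1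
  have c2' := (Rat.cast_le (K := ℝ)).2 c2
  obtain ⟨x, hx⟩ : ∃ x : ℚ, x = 0.000519 + j/20 := ⟨_, rfl⟩
  obtain ⟨y, hy⟩ : ∃ y : ℚ, y = 0.000521 + (j+1)/20 := ⟨_, rfl⟩
  rw [← hx] at c1'
  rw [← hy] at c2'
  have hx' : (x:ℝ) = 0.000519 + j/20 := by rw [hx]; push_cast; rfl
  have hy' : (y:ℝ) = 0.000521 + (j+1)/20 := by rw [hy]; push_cast; rfl
  have hz1 := hz.1
  have hz2 := hz.2
  have d1 := (tsc_cosh (x := x) (by rw [hx']; positivity) (by rw [hx']; linarith)).1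
  have d2 := (tsc_cosh (x := y) (by rw [hy']; positivity) (by rw [hy']; linarith)).2
  have e1 : Real.cosh x ≤ Real.cosh z := by
    rw [Real.cosh_le_cosh, abs_of_nonneg (by rw [hx']; positivity), abs_of_nonneg (by linarith), hx']
    linarith
  have e2 : Real.cosh z ≤ Real.cosh y := by
    rw [Real.cosh_le_cosh, abs_of_nonneg (by linarith), abs_of_nonneg (by rw [hy']; positivity), hy']
    linarith
  push_cast at c1' c2'
  constructor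
  · linarith
  · linarith

theorem sh_tab (h : P.Star) {j : ℕ} (hj : j ≤ 10) : Real.sinh (P.s - j / 20) * 10^6 ≤ (sh.getD j 0 : ℕ) := by
  have hs := h.s_lo
  have hs' := h.s_hi
  have hj0 : (0:ℝ) ≤ j := Nat.cast_nonneg j
  have hj1 : (j:ℝ) ≤ 10 := by exact_mod_cast hj
  have c1' := (Rat.cast_le (K := ℝ)).2 (tsc_chk_sh j (by omega))
  obtain ⟨x, hx⟩ : ∃ x : ℚ, x = 0.500521 - j/20 := ⟨_, rfl⟩
  rw [← hx] at c1'
  have hx' : (x:ℝ) = 0.500521 - j/20 := by rw [hx]; push_cast; rfl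
  have d1 := tsc_sinh (x := x) (by rw [hx']; linarith) (by rw [hx']; linarith)
  have e1 : Real.sinh (P.s - j/20) ≤ Real.sinh x := by
    rw [Real.sinh_le_sinh, hx']
    linarith
  push_cast at c1'
  linarith

theorem sg_tab (h : P.Star) : 521670 ≤ P.sg * 10^6 ∧ P.sg * 10^6 ≤ 521692 ∧ Real.cosh P.s ≤ 1.128 := by
  obtain ⟨h1, h2⟩ := sg_bd h
  refine ⟨by linarith, by linarith, ?_⟩
  obtain ⟨-, h3⟩ := ch_tab h (j := 9) (by norm_num) P.s ⟨by push_cast; linarith, by push_cast; linarith⟩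
  have h4 : (((ch.getD 9 (0,0)).1 : ℕ) : ℝ) = 1127899 := by
    have : (ch.getD 9 (0,0)).1 = 1127899 := by decide +kernel
    rw [this]
    norm_num
  rw [h4] at h3
  linarith

end Pool.Agent.CDk
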