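import Pool.Agent.CDk.D.COUP
import Pool.Agent.CDk.D.Chk
import Pool.Agent.CDk.D.D0
import Pool.Agent.CDk.D.Tab
import Pool.Agent.CDk.D.TabSa
import Pool.Agent.CDk.D.TabSc
import Pool.Agent.CDk.Defs
import Pool.Agent.CDk.FV
import Pool.Agent.CDk.GAP

/-!
# CELLa: bounds of `D`, and gaps beyond the last node

`Ct_sound`: `D (i/20) ≤ N (i(y_j) - i(y_i))/(y_j - y_i)`, `i = I1 D/N` (`D` monotone), `|i - io| ≤ 0.03 w` on `[0, 2.2]`, `N ≤ 1.2155`
(`N_hi`); and `D 2.2 ≤ 0.805 N`. `chkC1`: `12155 ((ioU_j - ioL_i) 100 + 3 (wn_j + wn_i)) 20 ≤ c (j - i) 10^6`.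
`far_e`: `r - e ≤ 0`, so `gV e = sg N/(Y+e)` and `GD e r = r N/(Y+e)`, both decreasing in `e`.
-/

open MeasureTheory Set Filter Topology

namespace Pool.Agent.CDk
open Tab Chk
variable {P : Par} {N δ : ℝ} {D : ℝ → ℝ}

private theorem ca_w (y : ℝ) : 0 ≤ w y := by
  unfold w
  have h1 : 0 ≤ min (3 * y^2) 1 := le_min (by positivity) zero_le_one
  have h2 : 0 ≤ max (y - 1.4) 0 := le_max_right _ _
  linarith

private theorem ca_mean (hD : Pf D) {x y : ℝ} (hxy : x ≤ y) : D x * (y - x) ≤ I1 D y - I1 D x := by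
  have h1 : I1 D y - I1 D x = ∫ t in x..y, D t := by
    unfold I1
    rw [← intervalIntegral.integral_add_adjacent_intervals (hD.cont.intervalIntegrable 0 x)
      (hD.cont.intervalIntegrable x y)]
    ring
  rw [h1]
  have h2 : ∫ t in x..y, D x ≤ ∫ t in x..y, D t := by
    apply intervalIntegral.integral_mono_on hxy (continuous_const.intervalIntegrable _ _)
      (hD.cont.intervalIntegrable _ _)
    intro t ht
    exact hD.mono ht.1
  refine le_trans (le_of_eq ?_) h2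
  rw [intervalIntegral.integral_const, smul_eq_mul]
  ring

private theorem ca_top (h : P.Star) (hv : VS2 P N δ D) (hδ : 0 ≤ δ) (hδ1 : δ ≤ 0.03) (hΦ : Phi P N δ D ≤ 0)
    {y : ℝ} (hy : y ≤ 2.2) {c : ℕ} (hc : 978478 ≤ c) : D y * 10^6 ≤ (c : ℝ) := by
  have h1 := hv.toVS.pf.mono hy
  have h2 := hv.d22
  have h3 := N_hi h hv.toVS hδ hδ1 hΦ
  have h4 : (978478 : ℝ) ≤ (c : ℝ) := by exact_mod_cast hc
  norm_num at h2 h3 h1 ⊢
  linarith

private theorem ca_one (h : P.Star) (hv : VS2 P N δ D) (hδ : 0 ≤ δ) (hδ1 : δ ≤ 0.03) (hΦ : Phi P N δ D ≤ 0)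
    {i j c : ℕ} (hc : chkC1 i j c = true) : D ((i:ℝ) / 20) * 10^6 ≤ (c : ℝ) := by
  unfold chkC1 at hc
  rw [Bool.and_eq_true, Bool.and_eq_true] at hc
  obtain ⟨⟨c1, c2⟩, c3⟩ := hc
  have hij : i < j := by simpa [Nat.blt] using c1
  have hj : j ≤ 44 := Nat.le_of_ble_eq_true c2
  have hle := Nat.le_of_ble_eq_true c3
  have hN := hv.toVS.pos
  have hN1 := N_hi h hv.toVS hδ hδ1 hΦ
  have hijr : (i:ℝ) < j := by exact_mod_cast hij
  have hj22 : (j:ℝ) / 20 ≤ 2.2 := by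
    have : (j:ℝ) ≤ 44 := by exact_mod_cast hj
    norm_num
    linarith
  have hi22 : (i:ℝ) / 20 ≤ 2.2 := by linarith
  have hi0 : (0:ℝ) ≤ (i:ℝ) / 20 := by positivity
  have hj0 : (0:ℝ) ≤ (j:ℝ) / 20 := by positivity
  have hm := ca_mean hv.toVS.pf (x := (i:ℝ) / 20) (y := (j:ℝ) / 20) (by linarith)
  have t1 := (abs_le.mp (hv.toVS.tube.close _ hj0 hj22)).2
  have t2 := (abs_le.mp (hv.toVS.tube.close _ hi0 hi22)).1
  have w1 : δ * w ((j:ℝ) / 20) ≤ 0.03 * w ((j:ℝ) / 20) := mul_le_mul_of_nonneg_right hδ1 (ca_w _)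
  have w2 : δ * w ((i:ℝ) / 20) ≤ 0.03 * w ((i:ℝ) / 20) := mul_le_mul_of_nonneg_right hδ1 (ca_w _)
  have u1 := (io_tab h hj).2
  have u2 := (io_tab h (le_trans hij.le hj)).1
  have v1 := wn_tab hj
  have v2 := wn_tab (le_trans hij.le hj)
  have hsub : ((ioU.getD j 0 : ℕ) : ℝ) - ((ioL.getD i 0 : ℕ) : ℝ) ≤ ((ioU.getD j 0 - ioL.getD i 0 : ℕ) : ℝ) := by
    rw [sub_le_iff_le_add]
    exact_mod_cast Nat.sub_le_iff_le_add.mp le_rfl
  have hleR : (12155 * (((ioU.getD j 0 - ioL.getD i 0 : ℕ) : ℝ) * 100 + 3 * (((wn.getD j 0 : ℕ) : ℝ)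
      + ((wn.getD i 0 : ℕ) : ℝ))) * 20) ≤ (c : ℝ) * ((j:ℝ) - (i:ℝ)) * 10^6 := by
    have hh : ((j - i : ℕ) : ℝ) = (j:ℝ) - (i:ℝ) := Nat.cast_sub hij.le
    rw [← hh]
    exact_mod_cast hle
  set X : ℝ := ((ioU.getD j 0 - ioL.getD i 0 : ℕ) : ℝ) with hX
  set Wj : ℝ := ((wn.getD j 0 : ℕ) : ℝ) with hWj
  set Wi : ℝ := ((wn.getD i 0 : ℕ) : ℝ) with hWi
  set IU : ℝ := ((ioU.getD j 0 : ℕ) : ℝ) with hIU
  set IL : ℝ := ((ioL.getD i 0 : ℕ) : ℝ) with hIL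
  clear_value IU IL
  have hX0 : 0 ≤ X := Nat.cast_nonneg _
  have hWj0 : 0 ≤ Wj := Nat.cast_nonneg _
  have hWi0 : 0 ≤ Wi := Nat.cast_nonneg _
  have e1 : (I1 D ((j:ℝ) / 20) / N - I1 D ((i:ℝ) / 20) / N) * 10^6 ≤ X + 0.03 * (Wj + Wi) := by
    norm_num at t1 t2 w1 w2 u1 u2 v1 v2 ⊢
    linarith
  have e2 : (I1 D ((j:ℝ) / 20) - I1 D ((i:ℝ) / 20)) * 10^6 ≤ N * (X + 0.03 * (Wj + Wi)) := by
    have e3 := mul_le_mul_of_nonneg_left e1 hN.le
    have e4 : N * ((I1 D ((j:ℝ) / 20) / N - I1 D ((i:ℝ) / 20) / N) * 10^6)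
        = (I1 D ((j:ℝ) / 20) - I1 D ((i:ℝ) / 20)) * 10^6 := by
      field_simp
    rw [e4] at e3
    exact e3
  have e5 : N * (X + 0.03 * (Wj + Wi)) ≤ 1.2155 * (X + 0.03 * (Wj + Wi)) :=
    mul_le_mul_of_nonneg_right hN1 (by positivity)
  have e6 : D ((i:ℝ) / 20) * 10^6 * ((j:ℝ) - i) ≤ (c:ℝ) * ((j:ℝ) - i) := by
    norm_num at e2 e5 hleR hm ⊢
    linarith
  exact le_of_mul_le_mul_right e6 (by linarith)

theorem Ct_sound (h : P.Star) (hv : VS2 P N δ D) (hδ : 0 ≤ δ) (hδ1 : δ ≤ 0.03) (hΦ : Phi P N δ D ≤ 0)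
    (hC : chkC = true) {i : ℕ} (hi : i ≤ 44) {y : ℝ} (hy : y ≤ i / 20) : D y * 10^6 ≤ (Ct.getD i 0 : ℕ) := by
  have hm := hv.toVS.pf.mono hy
  rcases Nat.eq_zero_or_pos i with h0 | h0
  · subst h0
    have : D (((0:ℕ):ℝ) / 20) = 0 := hv.toVS.pf.zero _ (by simp)
    rw [this] at hm
    have h2 : (0:ℝ) ≤ ((Ct.getD 0 0 : ℕ) : ℝ) := Nat.cast_nonneg _
    nlinarith
  · unfold chkC at hC
    rw [Bool.and_eq_true, Bool.and_eq_true, List.all_eq_true] at hC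
    obtain ⟨⟨c1, c2⟩, _⟩ := hC
    have hi22 : ((i:ℝ)) / 20 ≤ 2.2 := by
      have : (i:ℝ) ≤ 44 := by exact_mod_cast hi
      norm_num
      linarith
    rcases Nat.lt_or_ge i 44 with h44 | h44
    · obtain ⟨m, rfl⟩ : ∃ m, i = m + 1 := ⟨i - 1, by omega⟩
      have c3 := c1 m (List.mem_range.mpr (by omega))
      rw [Bool.and_eq_true, Bool.or_eq_true] at c3
      rcases c3.2 with c4 | c4
      · have := ca_one h hv hδ hδ1 hΦ c4
        linarith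
      · exact ca_top h hv hδ hδ1 hΦ (le_trans hy hi22) (Nat.le_of_ble_eq_true c4)
    · have : i = 44 := by omega
      subst this
      exact ca_top h hv hδ hδ1 hΦ (le_trans hy hi22) (Nat.le_of_ble_eq_true c2)

private theorem ca_gV (h : P.Star) (hD : Pf D) {e : ℝ} (he : 3.05 ≤ e) : gV P N D e = P.sg * (N / (P.Y + e)) := by
  have hs : 0 < P.s := by linarith [h.s_lo]
  have he0 : 0 < e := lt_of_lt_of_le (by norm_num) he
  have h1 : ∫ τ in (0:ℝ)..P.s, Real.sinh (P.s - τ) * D (-e - τ) = 0 := by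
    rw [intervalIntegral.integral_congr (g := fun _ => (0:ℝ))]
    · simp
    · intro τ hτ
      rw [uIcc_of_le hs.le] at hτ
      simp only
      rw [hD.zero _ (by linarith [hτ.1]), mul_zero]
  unfold gV gv qG
  rw [h1, I1_zero hD (by linarith), (I2_pf hD).zero _ (by linarith), sub_zero, sub_zero, add_zero]

private theorem ca_GD (h : P.Star) (hD : Pf D) (hN : 0 < N) {e r : ℝ} (he : 3.05 ≤ e) (hr : 0 ≤ r)
    (hr1 : r ≤ 3.0446) : GD P N D e r = r * (N / (P.Y + e)) := by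
  have he0 : 0 < e := lt_of_lt_of_le (by norm_num) he
  have hY : 0 < P.Y + e := by
    unfold Par.Y
    linarith [h.ρ_lo, h.u_lo]
  have h1 : GD P N D e r = ∫ v in (0:ℝ)..r, N / (P.Y + e) := by
    unfold GD
    rw [max_eq_left hr]
    apply intervalIntegral.integral_congr
    intro v hv
    rw [uIcc_of_le hr] at hv
    simp only
    have hve : v - e ≤ 0 := by
      norm_num at he hr1
      linarith [hv.2]
    unfold qG
    rw [I1_zero hD hve, (I2_pf hD).zero _ (by linarith), sub_zero, sub_zero]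
    exact max_eq_left (by positivity)
  rw [h1, intervalIntegral.integral_const, smul_eq_mul, sub_zero]

/-- beyond the last node -/
theorem far_e (h : P.Star) (hv : VS2 P N δ D) {e r : ℝ} (he : 3.05 ≤ e) (hr : 0 ≤ r) (hr1 : r ≤ 3.0446) :
    gV P N D e ≤ gV P N D 3.05 ∧ GD P N D e r ≤ GD P N D 3.05 r := by
  have hD := hv.toVS.pf
  have hN := hv.toVS.pos
  have hsg : 0 ≤ P.sg := by
    unfold Par.sg
    exact Real.sinh_nonneg_iff.mpr (by linarith [h.s_lo])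
  have hY : 0 < P.Y := by
    unfold Par.Y
    linarith [h.ρ_lo, h.u_lo]
  have h1 : N / (P.Y + e) ≤ N / (P.Y + 3.05) :=
    div_le_div_of_nonneg_left hN.le (by positivity) (by linarith)
  rw [ca_gV h hD he, ca_gV h hD le_rfl, ca_GD h hD hN he hr hr1, ca_GD h hD hN le_rfl hr hr1]
  exact ⟨mul_le_mul_of_nonneg_left h1 hsg, mul_le_mul_of_nonneg_left h1 hr⟩

end Pool.Agent.CDk
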