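import Pool.Agent.CDk.D.D0
import Pool.Agent.CDk.D.TabSc
import Pool.Agent.CDk.Defs
import Pool.Agent.CDk.FV
import Pool.Agent.CDk.GAP

/-!
# CELLb: chord estimates

For fixed `e`, `r ↦ fF e r` has second derivative `-D(r-e) ∈ [-C, 0]` on the cell (`fF` = affine `- I2 D(r - e)`, and `I2 D(r-e) - C r^2/2` is concave
there): so it is at most its chord plus `C (1/20)^2/8 = C/3200`, and on the first cell (`fF e 0 = 0`) at most `(20 r)(fF e (1/20) + C/800)`.
For fixed `r ≥ 0`, `e ↦ fF e r = r qG - I2 D(r-e) + I2 D(-e)`: `qG` is convex in `e` (`qG = V/(Y+e) + ∫_0^1 I1 D(-e + (Y+e)t) dt`,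
`V = N - I2 D Y ≥ 0`, `I1 D` convex), `I2 D` convex: so `fF` in `e` is at most its chord plus `sup D(r - e) Δ^2/8`.
`gV = sg qG - ∫_0^s cosh(s-t) I1 D(-e-t) dt` (integration by parts), the last integral `P(-e)` with `P'' ≤ cosh(s) D(-e)`, so `gV` is at most its chord
plus `1.13 C Δ^2/8` (`sg_tab`: `cosh s ≤ 1.128`). These can be proved from convexity of `I1 D` and from concavity of `I2 D y - C y^2/2` where `D ≤ C`
(for `P`: `I1 D` has slope `≤ C` there; write `P'(a) = ∫ cosh D(a-t) dt`, `P'(a) - P'(b) ≤ cosh(s) C (a - b)`), no second derivatives needed.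
A general lemma may help: if `f = g1 - g2` with `g1` convex and `g2' ` (right derivative) Lipschitz with constant `C` then `f ≤` chord `+ C Δ^2/8`.
-/

open MeasureTheory Set Filter Topology

namespace Pool.Agent.CDk
open Tab
variable {P : Par} {N δ : ℝ} {D : ℝ → ℝ}

/-- convexity of `I1` of a profile -/
private theorem cb_I1c (hD : Pf D) (a b : ℝ) {t : ℝ} (h0 : 0 ≤ t) (h1 : t ≤ 1) :
    I1 D ((1 - t) * a + t * b) ≤ (1 - t) * I1 D a + t * I1 D b := by
  have hc : ConvexOn ℝ univ (I1 D) := by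
    apply MonotoneOn.convexOn_of_deriv convex_univ (I1_cont hD).continuousOn
    · intro x _
      exact (I1_deriv hD x).differentiableAt.differentiableWithinAt
    · intro x _ y _ hxy
      rw [(I1_deriv hD x).deriv, (I1_deriv hD y).deriv]
      exact hD.mono hxy
  have := hc.2 (mem_univ a) (mem_univ b) (sub_nonneg.mpr h1) h0 (by ring)
  simpa [smul_eq_mul] using this

private theorem cb_I1_lip (hD : Pf D) {x y b C : ℝ} (hxy : x ≤ y) (hyb : y ≤ b) (hC : D b ≤ C) :
    I1 D y - I1 D x ≤ C * (y - x) := by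
  have h1 : I1 D y - I1 D x = ∫ t in x..y, D t := by
    unfold I1
    rw [← intervalIntegral.integral_add_adjacent_intervals (hD.cont.intervalIntegrable 0 x)
      (hD.cont.intervalIntegrable x y)]
    ring
  rw [h1]
  have h2 : ∫ t in x..y, D t ≤ ∫ t in x..y, C := by
    apply intervalIntegral.integral_mono_on hxy (hD.cont.intervalIntegrable _ _)
      (continuous_const.intervalIntegrable _ _)
    intro t ht
    exact le_trans (hD.mono (le_trans ht.2 hyb)) hC
  refine le_trans h2 ?_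
  rw [intervalIntegral.integral_const, smul_eq_mul]
  linarith

/-- second order chord bound of `I2` -/
private theorem cb_I2 (hD : Pf D) {a b C : ℝ} (hab : a ≤ b) (hC : D b ≤ C) {t : ℝ} (h0 : 0 ≤ t) (h1 : t ≤ 1) :
    (1 - t) * I2 D a + t * I2 D b - I2 D ((1 - t) * a + t * b) ≤ t * (1 - t) * C * (b - a)^2 / 2 := by
  have hd : ∀ x, HasDerivAt (fun x => C * x^2 / 2 - I2 D x) (C * x - I1 D x) x := by
    intro x
    have a1 : HasDerivAt (fun x : ℝ => C * x^2 / 2) (C * x) x := by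
      have := ((hasDerivAt_pow 2 x).const_mul C).div_const 2
      refine this.congr_deriv ?_
      push_cast
      ring
    exact a1.sub (I2_deriv hD x)
  have hc : ConvexOn ℝ (Iic b) (fun x => C * x^2 / 2 - I2 D x) := by
    apply MonotoneOn.convexOn_of_deriv (convex_Iic b)
    · intro x _
      exact (hd x).continuousAt.continuousWithinAt
    · intro x _
      exact (hd x).differentiableAt.differentiableWithinAt
    · intro x _ y hy hxy
      rw [(hd x).deriv, (hd y).deriv]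
      rw [interior_Iic] at hy
      have := cb_I1_lip hD hxy (le_of_lt hy) hC
      linarith
  have h2 := hc.2 (mem_Iic.mpr hab) (mem_Iic.mpr le_rfl) (sub_nonneg.mpr h1) h0 (by ring)
  simp only [smul_eq_mul] at h2
  nlinarith [h2]

private theorem cb_t {t : ℝ} : t * (1 - t) ≤ 1 / 4 := by nlinarith [sq_nonneg (t - 1/2)]

private theorem cb_I2' (hD : Pf D) {a b C : ℝ} (hab : a ≤ b) (hC : D b ≤ C) {t : ℝ} (h0 : 0 ≤ t) (h1 : t ≤ 1) :
    (1 - t) * I2 D a + t * I2 D b - I2 D ((1 - t) * a + t * b) ≤ C * (b - a)^2 / 8 := by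
  have h2 := cb_I2 hD hab hC h0 h1
  have hC0 : 0 ≤ C := le_trans (hD.nonneg b) hC
  have h3 : t * (1 - t) * (C * (b - a)^2) ≤ 1 / 4 * (C * (b - a)^2) :=
    mul_le_mul_of_nonneg_right cb_t (by positivity)
  linarith

/-- chord in `r` -/
theorem chord_r (hD : Pf D) {e C : ℝ} {k : ℕ} {t : ℝ} (h0 : 0 ≤ t) (h1 : t ≤ 1)
    (hC : D ((k + 1) / 20 - e) ≤ C) :
    fF P N D e ((k + t) / 20) ≤ (1 - t) * fF P N D e (k / 20) + t * fF P N D e ((k + 1) / 20) + C / 3200 := by
  have h2 := cb_I2' hD (a := (k:ℝ) / 20 - e) (b := ((k:ℝ) + 1) / 20 - e) (by linarith) hC h0 h1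
  have e1 : (1 - t) * ((k:ℝ) / 20 - e) + t * (((k:ℝ) + 1) / 20 - e) = ((k:ℝ) + t) / 20 - e := by ring
  rw [e1] at h2
  unfold fF
  nlinarith [h2]

theorem chord_r0 (hD : Pf D) {e C : ℝ} {t : ℝ} (h0 : 0 ≤ t) (h1 : t ≤ 1) (hC : D (1 / 20 - e) ≤ C) :
    fF P N D e (t / 20) ≤ t * (fF P N D e (1 / 20) + C / 800) := by
  have h2 := cb_I2 hD (a := 0 - e) (b := 1 / 20 - e) (by linarith) hC h0 h1
  have e1 : (1 - t) * (0 - e) + t * (1 / 20 - e) = t / 20 - e := by ring
  rw [e1, zero_sub] at h2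
  have hC0 : 0 ≤ C := le_trans (hD.nonneg _) hC
  have h3 : t * (1 - t) * C ≤ t * C := by nlinarith [mul_nonneg (mul_nonneg h0 h0) hC0]
  have e2 : (1 / 20 - e - -e)^2 = 1 / 400 := by ring
  rw [e2] at h2
  unfold fF
  nlinarith [h2, h3]

/-- `I2 D` is convex -/
private theorem cb_I2c (hD : Pf D) (a b : ℝ) {t : ℝ} (h0 : 0 ≤ t) (h1 : t ≤ 1) :
    I2 D ((1 - t) * a + t * b) ≤ (1 - t) * I2 D a + t * I2 D b :=
  cb_I1c (I1_pf hD) a b h0 h1

private theorem cb_slope (hD : Pf D) {Y x : ℝ} (hx : 0 < Y - x) :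
    (I2 D Y - I2 D x) / (Y - x) = ∫ s in (0:ℝ)..1, I1 D (x + (Y - x) * s) := by
  have h1 : ∫ s in (0:ℝ)..1, I1 D (x + (Y - x) * s) = (Y - x)⁻¹ * ∫ u in x..Y, I1 D u := by
    have := intervalIntegral.integral_comp_add_mul (a := 0) (b := 1) (I1 D) hx.ne' x
    rw [this, smul_eq_mul]
    congr 2 <;> ring
  have h2 : I2 D Y - I2 D x = ∫ u in x..Y, I1 D u := by
    unfold I2
    rw [← intervalIntegral.integral_add_adjacent_intervals ((I1_cont hD).intervalIntegrable 0 x)
      ((I1_cont hD).intervalIntegrable x Y)]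
    ring
  rw [h1, h2, div_eq_inv_mul]

/-- `qG` is convex in `e` -/
private theorem cb_q (hD : Pf D) (hV : I2 D P.Y ≤ N) {e0 e1 : ℝ} (h01 : e0 ≤ e1) (hY : 0 < P.Y + e0)
    {t : ℝ} (h0 : 0 ≤ t) (h1 : t ≤ 1) :
    qG P N D ((1 - t) * e0 + t * e1) ≤ (1 - t) * qG P N D e0 + t * qG P N D e1 := by
  have hY1 : 0 < P.Y + e1 := by linarith
  have hYt : 0 < P.Y + ((1 - t) * e0 + t * e1) := by nlinarith
  have hsplit : ∀ e, 0 < P.Y + e → qG P N D e = (N - I2 D P.Y) * (1 / (P.Y + e))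
      + ∫ s in (0:ℝ)..1, I1 D (-e + (P.Y + e) * s) := by
    intro e he
    have h2 := cb_slope hD (Y := P.Y) (x := -e) (by linarith)
    rw [sub_neg_eq_add] at h2
    rw [← h2]
    unfold qG
    field_simp
    ring
  rw [hsplit _ hYt, hsplit _ hY, hsplit _ hY1]
  have hV0 : 0 ≤ N - I2 D P.Y := by linarith
  have a1 : 1 / (P.Y + ((1 - t) * e0 + t * e1)) ≤ (1 - t) * (1 / (P.Y + e0)) + t * (1 / (P.Y + e1)) := by
    rw [mul_one_div, mul_one_div, div_add_div _ _ hY.ne' hY1.ne', div_le_div_iff₀ hYt (by positivity)]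
    have h5 : 0 ≤ t * (1 - t) * (e1 - e0)^2 := mul_nonneg (mul_nonneg h0 (by linarith)) (sq_nonneg _)
    nlinarith [h5]
  have hcont : ∀ e : ℝ, Continuous (fun s : ℝ => I1 D (-e + (P.Y + e) * s)) := fun e =>
    (I1_cont hD).comp (by fun_prop)
  have a2 : ∫ s in (0:ℝ)..1, I1 D (-((1 - t) * e0 + t * e1) + (P.Y + ((1 - t) * e0 + t * e1)) * s)
      ≤ (1 - t) * (∫ s in (0:ℝ)..1, I1 D (-e0 + (P.Y + e0) * s))
        + t * (∫ s in (0:ℝ)..1, I1 D (-e1 + (P.Y + e1) * s)) := by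
    rw [← intervalIntegral.integral_const_mul, ← intervalIntegral.integral_const_mul,
      ← intervalIntegral.integral_add (((hcont e0).intervalIntegrable 0 1).const_mul (1 - t))
        (((hcont e1).intervalIntegrable 0 1).const_mul t)]
    apply intervalIntegral.integral_mono_on zero_le_one ((hcont _).intervalIntegrable _ _)
      ((((hcont e0).intervalIntegrable 0 1).const_mul (1 - t)).add
        (((hcont e1).intervalIntegrable 0 1).const_mul t))
    intro s _
    have h6 := cb_I1c hD (-e0 + (P.Y + e0) * s) (-e1 + (P.Y + e1) * s) h0 h1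
    refine le_trans (le_of_eq ?_) h6
    congr 1
    ring
  have a3 := mul_le_mul_of_nonneg_left a1 hV0
  linarith

/-- chord in `e` -/
theorem chord_e (h : P.Star) (hD : Pf D) (hV : I2 D P.Y ≤ N) {e0 e1 C r : ℝ} (h01 : e0 ≤ e1) (hY : 0 < P.Y + e0)
    {t : ℝ} (h0 : 0 ≤ t) (h1 : t ≤ 1) (hr : 0 ≤ r) (hC : D (r - e0) ≤ C) :
    fF P N D ((1 - t) * e0 + t * e1) r ≤ (1 - t) * fF P N D e0 r + t * fF P N D e1 r + C * (e1 - e0)^2 / 8 := by
  have a1 := cb_q hD hV h01 hY h0 h1
  have a2 := cb_I2c hD (-e0) (-e1) h0 h1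
  have a3 := cb_I2' hD (a := r - e1) (b := r - e0) (by linarith) hC (t := 1 - t) (by linarith) (by linarith)
  have e2 : (1 - (1 - t)) * (r - e1) + (1 - t) * (r - e0) = r - ((1 - t) * e0 + t * e1) := by ring
  have e3 : (1 - t) * (-e0) + t * (-e1) = -((1 - t) * e0 + t * e1) := by ring
  have e4 : (r - e0 - (r - e1))^2 = (e1 - e0)^2 := by ring
  rw [e2, e4] at a3
  rw [e3] at a2
  have a4 := mul_le_mul_of_nonneg_left a1 hr
  unfold fF
  nlinarith [a2, a3, a4]

/-- integration by parts in `gV` -/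
private theorem cb_parts (hD : Pf D) (s x : ℝ) :
    ∫ τ in (0:ℝ)..s, Real.sinh (s - τ) * D (x - τ)
      = Real.sinh s * I1 D x - ∫ τ in (0:ℝ)..s, Real.cosh (s - τ) * I1 D (x - τ) := by
  have hd : ∀ τ ∈ uIcc (0:ℝ) s, HasDerivAt (fun τ => -(Real.sinh (s - τ) * I1 D (x - τ)))
      (Real.sinh (s - τ) * D (x - τ) + Real.cosh (s - τ) * I1 D (x - τ)) τ := by
    intro τ _
    have b1 : HasDerivAt (fun τ : ℝ => s - τ) (-1) τ := (hasDerivAt_id τ).const_sub s
    have b2 : HasDerivAt (fun τ : ℝ => x - τ) (-1) τ := (hasDerivAt_id τ).const_sub x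
    have b3 : HasDerivAt (fun τ => Real.sinh (s - τ)) (Real.cosh (s - τ) * (-1)) τ :=
      (Real.hasDerivAt_sinh (s - τ)).comp τ b1
    have b4 : HasDerivAt (fun τ => I1 D (x - τ)) (D (x - τ) * (-1)) τ :=
      (I1_deriv hD (x - τ)).comp τ b2
    have b5 := (b3.mul b4).neg
    refine b5.congr_deriv ?_
    ring
  have c1 : Continuous (fun τ => Real.sinh (s - τ) * D (x - τ)) := by
    have := hD.cont
    fun_prop
  have c2 : Continuous (fun τ => Real.cosh (s - τ) * I1 D (x - τ)) := by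
    have := I1_cont hD
    fun_prop
  have h1 := intervalIntegral.integral_eq_sub_of_hasDerivAt hd ((c1.add c2).intervalIntegrable _ _)
  rw [intervalIntegral.integral_add (c1.intervalIntegrable _ _) (c2.intervalIntegrable _ _)] at h1
  simp only [sub_self, Real.sinh_zero, zero_mul, neg_zero, sub_zero, zero_sub, neg_neg] at h1
  linarith

theorem chord_V (h : P.Star) (hD : Pf D) (hV : I2 D P.Y ≤ N) {e0 e1 C : ℝ} (h01 : e0 ≤ e1) (hY : 0 < P.Y + e0)
    {t : ℝ} (h0 : 0 ≤ t) (h1 : t ≤ 1) (hC : D (-e0) ≤ C) :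
    gV P N D ((1 - t) * e0 + t * e1) ≤ (1 - t) * gV P N D e0 + t * gV P N D e1 + 1.13 * C * (e1 - e0)^2 / 8 := by
  have hs : 0 < P.s := by linarith [h.s_lo]
  have hsg : 0 ≤ P.sg := by
    unfold Par.sg
    exact Real.sinh_nonneg_iff.mpr hs.le
  have hgV : ∀ e, gV P N D e = P.sg * qG P N D e - ∫ τ in (0:ℝ)..P.s, Real.cosh (P.s - τ) * I1 D (-e - τ) := by
    intro e
    unfold gV gv
    rw [cb_parts hD]
    unfold Par.sg
    ring
  rw [hgV, hgV, hgV]
  have a1 := mul_le_mul_of_nonneg_left (cb_q hD hV h01 hY h0 h1) hsg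
  have c1 : ∀ x, Continuous (fun τ => Real.cosh (P.s - τ) * I1 D (x - τ)) := by
    intro x
    have := I1_cont hD
    fun_prop
  have c2 : ∀ x, Continuous (fun τ => I1 D (x - τ)) := by
    intro x
    have := I1_cont hD
    fun_prop
  have e2 : (1 - (1 - t)) * (-e1) + (1 - t) * (-e0) = -((1 - t) * e0 + t * e1) := by ring
  -- integral of the deficits
  have d1 : (1 - t) * (∫ τ in (0:ℝ)..P.s, Real.cosh (P.s - τ) * I1 D (-e0 - τ))
      + t * (∫ τ in (0:ℝ)..P.s, Real.cosh (P.s - τ) * I1 D (-e1 - τ))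
      - (∫ τ in (0:ℝ)..P.s, Real.cosh (P.s - τ) * I1 D (-((1 - t) * e0 + t * e1) - τ))
      = ∫ τ in (0:ℝ)..P.s, Real.cosh (P.s - τ) * ((1 - t) * I1 D (-e0 - τ) + t * I1 D (-e1 - τ)
          - I1 D (-((1 - t) * e0 + t * e1) - τ)) := by
    rw [← intervalIntegral.integral_const_mul, ← intervalIntegral.integral_const_mul,
      ← intervalIntegral.integral_add (((c1 (-e0)).intervalIntegrable 0 P.s).const_mul (1 - t))
        (((c1 (-e1)).intervalIntegrable 0 P.s).const_mul t),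
      ← intervalIntegral.integral_sub ((((c1 (-e0)).intervalIntegrable 0 P.s).const_mul (1 - t)).add
        (((c1 (-e1)).intervalIntegrable 0 P.s).const_mul t)) ((c1 _).intervalIntegrable _ _)]
    apply intervalIntegral.integral_congr
    intro τ _
    simp only
    ring
  have d2 : ∫ τ in (0:ℝ)..P.s, Real.cosh (P.s - τ) * ((1 - t) * I1 D (-e0 - τ) + t * I1 D (-e1 - τ)
          - I1 D (-((1 - t) * e0 + t * e1) - τ))
      ≤ ∫ τ in (0:ℝ)..P.s, Real.cosh P.s * ((1 - t) * I1 D (-e0 - τ) + t * I1 D (-e1 - τ)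
          - I1 D (-((1 - t) * e0 + t * e1) - τ)) := by
    have c3 : Continuous (fun τ => (1 - t) * I1 D (-e0 - τ) + t * I1 D (-e1 - τ)
          - I1 D (-((1 - t) * e0 + t * e1) - τ)) :=
      (((c2 _).const_smul (1 - t)).add ((c2 _).const_smul t)).sub (c2 _)
    apply intervalIntegral.integral_mono_on hs.le
    · apply Continuous.intervalIntegrable
      exact (Real.continuous_cosh.comp (by fun_prop)).mul c3
    · exact (continuous_const.mul c3).intervalIntegrable _ _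
    · intro τ hτ
      apply mul_le_mul_of_nonneg_right
      · rw [Real.cosh_le_cosh, abs_of_nonneg (by linarith [hτ.2]), abs_of_nonneg hs.le]
        linarith [hτ.1]
      · have h6 := cb_I1c hD (-e0 - τ) (-e1 - τ) h0 h1
        have e5 : (1 - t) * (-e0 - τ) + t * (-e1 - τ) = -((1 - t) * e0 + t * e1) - τ := by ring
        rw [e5] at h6
        linarith
  have d3 : ∀ x, ∫ τ in (0:ℝ)..P.s, I1 D (x - τ) = I2 D x - I2 D (x - P.s) := by
    intro x
    have hd : ∀ τ ∈ uIcc (0:ℝ) P.s, HasDerivAt (fun τ => -(I2 D (x - τ))) (I1 D (x - τ)) τ := by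
      intro τ _
      have b2 : HasDerivAt (fun τ : ℝ => x - τ) (-1) τ := (hasDerivAt_id τ).const_sub x
      have b4 : HasDerivAt (fun τ => I2 D (x - τ)) (I1 D (x - τ) * (-1)) τ :=
        (I2_deriv hD (x - τ)).comp τ b2
      refine b4.neg.congr_deriv ?_
      ring
    rw [intervalIntegral.integral_eq_sub_of_hasDerivAt hd ((c2 x).intervalIntegrable _ _)]
    rw [sub_zero]
    ring
  have d4 : ∫ τ in (0:ℝ)..P.s, Real.cosh P.s * ((1 - t) * I1 D (-e0 - τ) + t * I1 D (-e1 - τ)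
          - I1 D (-((1 - t) * e0 + t * e1) - τ))
      = Real.cosh P.s * (((1 - t) * I2 D (-e0) + t * I2 D (-e1) - I2 D (-((1 - t) * e0 + t * e1)))
        - ((1 - t) * I2 D (-e0 - P.s) + t * I2 D (-e1 - P.s) - I2 D (-((1 - t) * e0 + t * e1) - P.s))) := by
    rw [intervalIntegral.integral_const_mul,
      intervalIntegral.integral_sub ((((c2 (-e0)).intervalIntegrable 0 P.s).const_mul (1 - t)).add
        (((c2 (-e1)).intervalIntegrable 0 P.s).const_mul t)) ((c2 _).intervalIntegrable _ _),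
      intervalIntegral.integral_add (((c2 (-e0)).intervalIntegrable 0 P.s).const_mul (1 - t))
        (((c2 (-e1)).intervalIntegrable 0 P.s).const_mul t),
      intervalIntegral.integral_const_mul, intervalIntegral.integral_const_mul, d3, d3, d3]
    ring
  have d5 : 0 ≤ (1 - t) * I2 D (-e0 - P.s) + t * I2 D (-e1 - P.s) - I2 D (-((1 - t) * e0 + t * e1) - P.s) := by
    have h6 := cb_I2c hD (-e0 - P.s) (-e1 - P.s) h0 h1
    have e5 : (1 - t) * (-e0 - P.s) + t * (-e1 - P.s) = -((1 - t) * e0 + t * e1) - P.s := by ring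
    rw [e5] at h6
    linarith
  have d6 := cb_I2' hD (a := -e1) (b := -e0) (by linarith) hC (t := 1 - t) (by linarith) (by linarith)
  rw [e2] at d6
  have e4 : (-e0 - -e1)^2 = (e1 - e0)^2 := by ring
  rw [e4] at d6
  have hcosh : Real.cosh P.s ≤ 1.128 := (sg_tab h).2.2
  have hC0 : 0 ≤ C := le_trans (hD.nonneg _) hC
  have d7 : Real.cosh P.s * (((1 - t) * I2 D (-e0) + t * I2 D (-e1) - I2 D (-((1 - t) * e0 + t * e1)))
        - ((1 - t) * I2 D (-e0 - P.s) + t * I2 D (-e1 - P.s) - I2 D (-((1 - t) * e0 + t * e1) - P.s)))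
      ≤ 1.13 * (C * (e1 - e0)^2 / 8) := by
    have hX : 0 ≤ C * (e1 - e0)^2 / 8 := by positivity
    have f1 : Real.cosh P.s * (((1 - t) * I2 D (-e0) + t * I2 D (-e1) - I2 D (-((1 - t) * e0 + t * e1)))
        - ((1 - t) * I2 D (-e0 - P.s) + t * I2 D (-e1 - P.s) - I2 D (-((1 - t) * e0 + t * e1) - P.s)))
        ≤ Real.cosh P.s * (C * (e1 - e0)^2 / 8) := by
      apply mul_le_mul_of_nonneg_left _ (Real.cosh_pos _).le
      linarith
    have f2 : Real.cosh P.s * (C * (e1 - e0)^2 / 8) ≤ 1.13 * (C * (e1 - e0)^2 / 8) :=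
      mul_le_mul_of_nonneg_right (by linarith) hX
    linarith
  linarith

end Pool.Agent.CDk
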