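import Pool.Agent.CDk.Defs

/-!
# TabS: `mb (· + e0)` cut off
-/

open MeasureTheory Set Filter Topology

namespace Pool.Agent.CDk
open Par

/-- `mb (· + e0)` cut off at `ρ - e0` -/
noncomputable def mb1 (P : Par) (y : ℝ) : ℝ := if y < P.ρ - P.e0 then P.mb (y + P.e0) else 0

end Pool.Agent.CDk
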