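import Pool.Agent.CDk.D.Tab
import Pool.Agent.CDk.D.TabS
import Pool.Agent.CDk.Defs
import Pool.Agent.CDk.ENC
import Pool.Agent.CDk.FNa
import Pool.Agent.CDk.FNb
import Pool.Agent.CDk.T1a

/-!
# TabSb: the tables `mLo`, `tri` of Tab.lean are correct

`mb (y + e0) = PM (ρ - e0 - y) ± 0.00001` (`mb_app`) while `ρ - e0 - y ≥ e0`, and `(Y - y - e0)^2/2` for `y + e0 ≥ ρ - e0` (`mb_out`);
`mb` is decreasing. All entries rounded outwards. `∫ w` over a cell: `y^3` for `y ≤ 0.577`, ... (`w` in Defs.lean). `tri` has entries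
`(mu, ml, om)`.
-/

open MeasureTheory Set Filter Topology

namespace Pool.Agent.CDk
open Tab Par
variable {P : Par}

private def tsb_PM (t : ℚ) : ℚ :=
  0.405756 + 0.946702*t + 0.350512*t^2 - 0.138773*t^3 - 0.038228*t^4 + 0.009728*t^5

private theorem tsb_PM_cast (y : ℚ) : ((tsb_PM y : ℚ) : ℝ) = PM y := by
  unfold tsb_PM PM
  push_cast
  ring

private theorem tsb_chk1 : ∀ i : ℕ, i < 28 →
    ((mLo.getD i 0 : ℕ) : ℚ) ≤ (tsb_PM (1.518268 - i/20) - 0.00001) * 10^6 ∧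
    (tsb_PM (1.51827 - i/20) + 0.00001) * 10^6 ≤ (((tri.getD i (0,0,0)).1 : ℕ) : ℚ) := by
  decide +kernel

private theorem tsb_chk2 : ∀ i : ℕ, i < 31 → 28 ≤ i →
    ((mLo.getD i 0 : ℕ) : ℚ) ≤ ((2.422142 - i/20)^2/2) * 10^6 ∧
    ((2.422147 - i/20)^2/2) * 10^6 ≤ (((tri.getD i (0,0,0)).1 : ℕ) : ℚ) := by
  decide +kernel

private theorem tsb_chk3 : ∀ i : ℕ, i < 30 → (tri.getD i (0,0,0)).2.1 = mLo.getD (i+1) 0 := by
  decide +kernel

private theorem tsb_chk4 : ∀ i : ℕ, i < 44 → 30 ≤ i → (tri.getD i (0,0,0)).2.1 = 0 := by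
  decide +kernel

private theorem tsb_chk5 : ∀ i : ℕ, i < 11 →
    (((i+1)/20 : ℚ)^3 - (i/20 : ℚ)^3) * 10^6 ≤ (((tri.getD i (0,0,0)).2.2 : ℕ) : ℚ) := by
  decide +kernel

private theorem tsb_chk6 : ∀ i : ℕ, i < 28 → 12 ≤ i → 50000 ≤ (tri.getD i (0,0,0)).2.2 := by
  decide +kernel

private theorem tsb_chk7 : ∀ i : ℕ, i < 44 → 28 ≤ i →
    (1/20 + 2 * (((i+1)/20 - 1.4 : ℚ)^2 - (i/20 - 1.4 : ℚ)^2)) * 10^6 ≤ (((tri.getD i (0,0,0)).2.2 : ℕ) : ℚ) := by
  decide +kernel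

/-- two-sided bounds of `mb (y + e0)` in the inner range -/
private theorem tsb_in (h : P.Star) {y : ℝ} (h0 : 0 ≤ y) (h1 : y ≤ 1.39) :
    PM (1.518268 - y) - 0.00001 ≤ P.mb (y + P.e0) ∧ P.mb (y + P.e0) ≤ PM (1.51827 - y) + 0.00001 := by
  have hρ := h.ρ_lo
  have hρ' := h.ρ_hi
  have helo := h.e_lo
  have hehi := h.e_hi
  constructor
  · have a1 : P.mb (P.ρ - (1.518268 - y)) ≤ P.mb (y + P.e0) :=
      mb_anti h (mem_Ici.2 (by linarith)) (mem_Ici.2 (by linarith)) (by linarith)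
    have a2 := abs_le.1 (mb_app h (t := 1.518268 - y) (by linarith) (by linarith))
    linarith [a2.1]
  · have a1 : P.mb (y + P.e0) ≤ P.mb (P.ρ - (1.51827 - y)) :=
      mb_anti h (mem_Ici.2 (by linarith)) (mem_Ici.2 (by linarith)) (by linarith)
    have a2 := abs_le.1 (mb_app h (t := 1.51827 - y) (by linarith) (by linarith))
    linarith [a2.2]

private theorem tsb_out (h : P.Star) {y : ℝ} (h0 : 1.4 ≤ y) (h1 : y ≤ 1.5) :
    (2.422142 - y)^2/2 ≤ P.mb (y + P.e0) ∧ P.mb (y + P.e0) ≤ (2.422147 - y)^2/2 := by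
  obtain ⟨hY1, hY2, -, -⟩ := Y_pos h
  have hρ := h.ρ_lo
  have hρ' := h.ρ_hi
  have helo := h.e_lo
  have hehi := h.e_hi
  rw [mb_out h (by linarith), max_eq_left (by linarith)]
  constructor
  · have := pow_le_pow_left₀ (by linarith : 0 ≤ 2.422142 - y)
      (by linarith : 2.422142 - y ≤ P.Y - (y + P.e0)) 2
    linarith
  · have := pow_le_pow_left₀ (by linarith : 0 ≤ P.Y - (y + P.e0))
      (by linarith : P.Y - (y + P.e0) ≤ 2.422147 - y) 2
    linarith

private theorem tsb_nodes (h : P.Star) {i : ℕ} (hi : i ≤ 30) :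
    ((mLo.getD i 0 : ℕ) : ℝ) ≤ P.mb (i / 20 + P.e0) * 10^6 ∧
      P.mb (i / 20 + P.e0) * 10^6 ≤ (((tri.getD i (0,0,0)).1 : ℕ) : ℝ) := by
  have hi0 : (0:ℝ) ≤ i := Nat.cast_nonneg i
  rcases lt_or_ge i 28 with h1 | h1
  · have h3 : (i:ℝ) ≤ 27 := by exact_mod_cast (by omega : i ≤ 27)
    obtain ⟨c1, c2⟩ := tsb_chk1 i h1
    have c1' := (Rat.cast_le (K := ℝ)).2 c1
    have c2' := (Rat.cast_le (K := ℝ)).2 c2
    have d1 := tsb_PM_cast (1.518268 - i/20)
    have d2 := tsb_PM_cast (1.51827 - i/20)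
    obtain ⟨e1, e2⟩ := tsb_in h (y := (i:ℝ)/20) (by positivity) (by linarith)
    push_cast at c1' c2' d1 d2
    rw [d1] at c1'
    rw [d2] at c2'
    constructor
    · linarith
    · linarith
  · have h3 : (i:ℝ) ≤ 30 := by exact_mod_cast hi
    have h4 : (28:ℝ) ≤ i := by exact_mod_cast h1
    obtain ⟨c1, c2⟩ := tsb_chk2 i (by omega) h1
    have c1' := (Rat.cast_le (K := ℝ)).2 c1
    have c2' := (Rat.cast_le (K := ℝ)).2 c2
    obtain ⟨e1, e2⟩ := tsb_out h (y := (i:ℝ)/20) (by linarith) (by linarith)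
    push_cast at c1' c2'
    constructor
    · linarith
    · linarith

theorem mLo_tab (h : P.Star) {i : ℕ} (hi : i ≤ 30) :
    ((mLo.getD i 0 : ℕ) : ℝ) ≤ P.mb (i / 20 + P.e0) * 10^6 := (tsb_nodes h hi).1

private theorem tsb_mb1 (h : P.Star) {i : ℕ} (hi : i < 44) {y : ℝ}
    (hy : y ∈ Ioo ((i : ℝ) / 20) ((i + 1) / 20)) :
    ((tri.getD i (0,0,0)).2.1 : ℝ) ≤ mb1 P y * 10^6 ∧
      mb1 P y * 10^6 ≤ ((tri.getD i (0,0,0)).1 : ℕ) := by
  have hi0 : (0:ℝ) ≤ i := Nat.cast_nonneg i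
  have hρ := h.ρ_lo
  have hρ' := h.ρ_hi
  have helo := h.e_lo
  have hehi := h.e_hi
  obtain ⟨hy0, hy1⟩ := hy
  have hnn : 0 ≤ mb1 P y := by
    unfold mb1
    split_ifs
    · exact mb_nonneg h (by linarith)
    · exact le_rfl
  constructor
  · rcases lt_or_ge i 30 with h1 | h1
    · have h3 : (i:ℝ) ≤ 29 := by exact_mod_cast (by omega : i ≤ 29)
      have h2 := (tsb_nodes h (i := i + 1) (by omega)).1
      rw [tsb_chk3 i h1]
      unfold mb1
      rw [if_pos (by linarith)]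
      have a1 : P.mb (((i + 1 : ℕ) : ℝ) / 20 + P.e0) ≤ P.mb (y + P.e0) := by
        push_cast
        exact mb_anti h (mem_Ici.2 (by linarith)) (mem_Ici.2 (by linarith)) (by linarith)
      linarith
    · rw [tsb_chk4 i hi h1]
      push_cast
      linarith
  · rcases lt_or_ge i 31 with h1 | h1
    · have h2 := (tsb_nodes h (i := i) (by omega)).2
      refine le_trans ?_ h2
      have a1 : P.mb (y + P.e0) ≤ P.mb ((i:ℝ) / 20 + P.e0) :=
        mb_anti h (mem_Ici.2 (by linarith)) (mem_Ici.2 (by linarith)) (by linarith)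
      have a2 : 0 ≤ P.mb ((i:ℝ) / 20 + P.e0) := mb_nonneg h (by linarith)
      unfold mb1
      split_ifs
      · linarith
      · linarith
    · have h3 : (31:ℝ) ≤ i := by exact_mod_cast h1
      unfold mb1
      rw [if_neg (by linarith), zero_mul]
      exact Nat.cast_nonneg _

private theorem tsb_w (i : ℕ) (hi : i < 44) :
    (∫ y in ((i : ℝ) / 20)..((i + 1) / 20), w y) * 10^6 ≤ ((tri.getD i (0,0,0)).2.2 : ℕ) := by
  have hi0 : (0:ℝ) ≤ i := Nat.cast_nonneg i
  have hle : (i : ℝ) / 20 ≤ (i + 1) / 20 := by linarith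
  have hwi := fun a b : ℝ => w_cont.intervalIntegrable (μ := volume) a b
  rcases lt_or_ge i 11 with h1 | h1
  · have h3 : (i:ℝ) ≤ 10 := by exact_mod_cast (by omega : i ≤ 10)
    have c1 := (Rat.cast_le (K := ℝ)).2 (tsb_chk5 i h1)
    have h5 := intervalIntegral.integral_mono_on hle (hwi _ _)
      ((by fun_prop : Continuous fun y : ℝ => 3 * y^2).intervalIntegrable _ _)
      (fun y hy => (w_le_sq (y := y) (by linarith [hy.2])).1)
    rw [intervalIntegral.integral_const_mul, integral_pow] at h5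
    push_cast at c1 h5
    norm_num at c1 h5 ⊢
    linarith
  rcases lt_or_ge i 12 with h2 | h2
  · have h3 : i = 11 := by omega
    subst h3
    have h5 := intervalIntegral.integral_mono_on (by norm_num : (0.55:ℝ) ≤ 0.57735) (hwi _ _)
      ((by fun_prop : Continuous fun y : ℝ => 3 * y^2).intervalIntegrable _ _)
      (fun y hy => (w_le_sq (y := y) (by linarith [hy.2])).1)
    have h6 := intervalIntegral.integral_mono_on (by norm_num : (0.57735:ℝ) ≤ 0.6) (hwi _ _)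
      ((by fun_prop : Continuous fun _ : ℝ => (1:ℝ)).intervalIntegrable _ _)
      (fun y hy => (w_le_sq (y := y) (by linarith [hy.2])).2)
    have h7 := intervalIntegral.integral_add_adjacent_intervals (hwi 0.55 0.57735) (hwi 0.57735 0.6)
    rw [intervalIntegral.integral_const_mul, integral_pow] at h5
    rw [intervalIntegral.integral_const, smul_eq_mul, mul_one] at h6
    have h8 : ((tri.getD 11 (0,0,0)).2.2 : ℕ) = 48726 := by decide +kernel
    have e1 : (((11:ℕ):ℝ)/20) = 0.55 := by norm_num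
    have e2 : ((((11:ℕ):ℝ)+1)/20) = 0.6 := by norm_num
    rw [h8, e1, e2, ← h7]
    norm_num at h5 h6 ⊢
    linarith
  rcases lt_or_ge i 28 with h3 | h3
  · have h4 : (i:ℝ) ≤ 27 := by exact_mod_cast (by omega : i ≤ 27)
    have h5 := intervalIntegral.integral_mono_on hle (hwi _ _)
      ((by fun_prop : Continuous fun _ : ℝ => (1:ℝ)).intervalIntegrable _ _)
      (fun y hy => (w_le_sq (y := y) (by linarith [hy.2])).2)
    rw [intervalIntegral.integral_const, smul_eq_mul, mul_one] at h5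
    have h6 : (50000:ℝ) ≤ ((tri.getD i (0,0,0)).2.2 : ℕ) := by exact_mod_cast tsb_chk6 i h3 h2
    have h7 : ((i:ℝ) + 1)/20 - i/20 = 0.05 := by ring
    rw [h7] at h5
    linarith
  · have h4 : (28:ℝ) ≤ i := by exact_mod_cast h3
    have c1 := (Rat.cast_le (K := ℝ)).2 (tsb_chk7 i hi h3)
    have h5 := intervalIntegral.integral_mono_on hle (hwi _ _)
      ((by fun_prop : Continuous fun y : ℝ => 4 * y - 4.6).intervalIntegrable _ _)
      (fun y hy => by
        unfold w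
        rw [max_eq_left (by linarith [hy.1])]
        have := min_le_right (3 * y^2) 1
        linarith)
    rw [intervalIntegral.integral_sub ((by fun_prop : Continuous fun y : ℝ => 4 * y).intervalIntegrable _ _)
      ((by fun_prop : Continuous fun _ : ℝ => (4.6:ℝ)).intervalIntegrable _ _),
      intervalIntegral.integral_const_mul, integral_id, intervalIntegral.integral_const, smul_eq_mul] at h5
    push_cast at c1
    refine le_trans ?_ c1
    have e1 : 4 * ((((i:ℝ) + 1)/20)^2 - (i/20)^2)/2 = 4 * (((((i:ℝ) + 1)/20)^2 - (i/20)^2)/2) := by ring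
    norm_num at h5 ⊢
    linarith

theorem tri_tab (h : P.Star) {i : ℕ} (hi : i < 44) :
    (∀ y ∈ Ioo ((i : ℝ) / 20) ((i + 1) / 20), ((tri.getD i (0,0,0)).2.1 : ℝ) ≤ mb1 P y * 10^6 ∧
      mb1 P y * 10^6 ≤ ((tri.getD i (0,0,0)).1 : ℕ)) ∧
    (∫ y in ((i : ℝ) / 20)..((i + 1) / 20), w y) * 10^6 ≤ ((tri.getD i (0,0,0)).2.2 : ℕ) :=
  ⟨fun _ hy => tsb_mb1 h hi hy, tsb_w i hi⟩

private theorem tsb_conv (h : P.Star) : ConvexOn ℝ (Icc 0 P.Y) (fun v => v^2/2 - P.mb v) := by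
  have hY := Y_pos' h
  have hmb := mb_cont h
  have he := e0_pos h
  have hρ := h.ρ_lo
  have hehi := h.e_hi
  have hd : ∀ v, 0 ≤ v → v ≤ P.Y → HasDerivAt (fun v => v^2/2 - P.mb v) (v + P.m v) v := by
    intro v h0 h1
    have h2 := ((hasDerivAt_pow 2 v).div_const 2).sub (mb_deriv h h0 h1)
    refine h2.congr_deriv ?_
    push_cast
    ring
  refine MonotoneOn.convexOn_of_deriv (convex_Icc 0 P.Y) (by fun_prop) ?_ ?_
  · intro v hv
    rw [interior_Icc] at hv
    exact (hd v hv.1.le hv.2.le).differentiableAt.differentiableWithinAt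
  · intro a ha b hb hab
    rw [interior_Icc] at ha hb
    rw [(hd a ha.1.le ha.2.le).deriv, (hd b hb.1.le hb.2.le).deriv]
    unfold m
    have hc : Continuous fun y => P.mb (y + P.e0) := by fun_prop
    have h1 := intervalIntegral.integral_add_adjacent_intervals
      (hc.intervalIntegrable (μ := volume) (min a (P.ρ - P.e0)) (min b (P.ρ - P.e0)))
      (hc.intervalIntegrable (min b (P.ρ - P.e0)) (P.ρ - P.e0))
    have h2 : 0 ≤ ∫ y in (min a (P.ρ - P.e0))..(min b (P.ρ - P.e0)), P.mb (y + P.e0) := by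
      refine intervalIntegral.integral_nonneg (min_le_min_right _ hab) fun y hy => mb_nonneg h ?_
      have h3 : 0 ≤ min a (P.ρ - P.e0) := le_min ha.1.le (by linarith)
      linarith [hy.1]
    linarith

theorem mb_chord (h : P.Star) {i : ℕ} (hi : i < 30) {t : ℝ} (h0 : 0 ≤ t) (h1 : t ≤ 1) :
    (1 - t) * P.mb (i / 20 + P.e0) + t * P.mb ((i + 1) / 20 + P.e0) - 326 / 10^6
      ≤ P.mb ((i + t) / 20 + P.e0) := by
  obtain ⟨hY1, hY2, -, -⟩ := Y_pos h
  have hi0 : (0:ℝ) ≤ i := Nat.cast_nonneg i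
  have hi1 : (i:ℝ) ≤ 29 := by exact_mod_cast (by omega : i ≤ 29)
  have helo := h.e_lo
  have hehi := h.e_hi
  have h2 := (tsb_conv h).2 (x := i / 20 + P.e0) ⟨by positivity, by linarith⟩
    (y := (i + 1) / 20 + P.e0) ⟨by positivity, by linarith⟩ (sub_nonneg.2 h1) h0 (by ring)
  simp only [smul_eq_mul] at h2
  have e1 : (1 - t) * ((i:ℝ) / 20 + P.e0) + t * ((i + 1) / 20 + P.e0) = (i + t) / 20 + P.e0 := by ring
  rw [e1] at h2
  have h3 : 0 ≤ (t - 1/2)^2 := sq_nonneg _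
  nlinarith

end Pool.Agent.CDk
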