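import Pool.Agent.CDk.D.Chk
import Pool.Agent.CDk.D.Tab
import Pool.Agent.CDk.D.TabS
import Pool.Agent.CDk.D.TabSb
import Pool.Agent.CDk.D.TabSc
import Pool.Agent.CDk.Defs
import Pool.Agent.CDk.FNb
import Pool.Agent.CDk.T1a

/-!
# NODEa: the kernel sums

`kS_sound`: over each cell `[i/20,(i+1)/20]`, `i < 44`: `|k - A' mb1| ≤ max(kU - A' ml, A' mu - kL)` (`A' = A/10^6`) times `∫ w ≤ om`
(`tri_tab`; natural subtraction only increases). `kSV`: the first `a` cells have `k ∈ [SL + cl, SU + cu]` (`ch_tab` with `j = 10 - a + i`,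
`s - a/20 + y ∈ [s - 1/2 + j/20, s - 1/2 + (j+1)/20]`), then `k = 0`.
-/

open MeasureTheory Set Filter Topology

namespace Pool.Agent.CDk
open Tab Chk
variable {P : Par} {N δ : ℝ} {D : ℝ → ℝ}

private def nda_c (KU KL A : ℕ) (q : ℕ × ℕ × ℕ) : ℕ :=
  max (KU * 1000000 - A * q.2.1) (A * q.1 - KL * 1000000) * q.2.2

private theorem nda_kS (A R RL a x : ℕ) : ∀ (t : List (ℕ × ℕ × ℕ)) (i : ℕ),
    kS A R RL a x i t = ∑ j ∈ Finset.range t.length,
      nda_c (if i + j < a then R else if i + j < x then 1000000 else 0)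
        (if i + j < a then RL else if i + j < x then 1000000 else 0) A (t.getD j (0,0,0)) := by
  intro t
  induction t with
  | nil => intro i; simp [kS]
  | cons q t ih =>
    intro i
    obtain ⟨mu, ml, om⟩ := q
    rw [kS, ih (i + 1), List.length_cons, Finset.sum_range_succ', add_comm]
    refine congrArg₂ (· + ·) (Finset.sum_congr rfl fun j _ => ?_) rfl
    rw [show i + 1 + j = i + (j + 1) by ring]
    rfl

private theorem nda_kSV (A SU SL : ℕ) : ∀ (n : ℕ) (C : List (ℕ × ℕ)) (t : List (ℕ × ℕ × ℕ)),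
    n ≤ C.length → n ≤ t.length →
    kSV A SU SL n C t = ∑ j ∈ Finset.range t.length,
      nda_c (if j < n then SU + (C.getD j (0,0)).1 else 0)
        (if j < n then SL + (C.getD j (0,0)).2 else 0) A (t.getD j (0,0,0)) := by
  intro n
  induction n with
  | zero =>
    intro C t _ _
    rw [kSV, nda_kS]
    simp
  | succ n ih =>
    intro C t hC ht
    obtain ⟨⟨cu, cl⟩, C, rfl⟩ : ∃ c C', C = c :: C' := by
      cases C with
      | nil => simp at hC
      | cons c C => exact ⟨c, C, rfl⟩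
    obtain ⟨⟨mu, ml, om⟩, t, rfl⟩ : ∃ c C', t = c :: C' := by
      cases t with
      | nil => simp at ht
      | cons c C => exact ⟨c, C, rfl⟩
    rw [List.length_cons] at hC ht
    rw [kSV, ih C t (by omega) (by omega), List.length_cons, Finset.sum_range_succ', add_comm]
    simp only [List.getD_cons_succ, List.getD_cons_zero, nda_c, Nat.add_lt_add_iff_right,
      Nat.zero_lt_succ, if_true]

private theorem nda_mb1 (h : P.Star) (a b : ℝ) : IntervalIntegrable (mb1 P) volume a b := by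
  have hmb := Par.mb_cont h
  have e : mb1 P = (Iio (P.ρ - P.e0)).indicator fun y => P.mb (y + P.e0) := by
    funext y
    unfold mb1 Set.indicator
    rfl
  rw [e, intervalIntegrable_iff]
  have hc : Continuous fun y => P.mb (y + P.e0) := by fun_prop
  exact ((intervalIntegrable_iff.1 (hc.intervalIntegrable (μ := volume) a b))).indicator measurableSet_Iio

private theorem nda_int (h : P.Star) {A : ℝ} {k : ℝ → ℝ} {a b : ℝ} (hk : IntervalIntegrable k volume a b) :
    IntervalIntegrable (fun y => |k y - A * mb1 P y| * w y) volume a b :=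
  ((hk.sub ((nda_mb1 h a b).const_mul A)).abs).mul_continuousOn Par.w_cont.continuousOn

private theorem nda_cell (h : P.Star) {A KU KL i : ℕ} (hi : i < 44) {k : ℝ → ℝ}
    (hki : IntervalIntegrable k volume ((i : ℝ) / 20) ((i + 1) / 20))
    (hk : ∀ y ∈ Ioo ((i : ℝ) / 20) ((i + 1) / 20), (KL : ℝ) ≤ k y * 10^6 ∧ k y * 10^6 ≤ KU) :
    (∫ y in ((i : ℝ) / 20)..((i + 1) / 20), |k y - A / 10^6 * mb1 P y| * w y) * 10^18 ≤
      (nda_c KU KL A (tri.getD i (0,0,0)) : ℕ) := by
  obtain ⟨h1, h2⟩ := tri_tab h hi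
  obtain ⟨q, hq⟩ : ∃ q, q = tri.getD i (0,0,0) := ⟨_, rfl⟩
  rw [← hq] at h1 h2 ⊢
  obtain ⟨C, hC⟩ : ∃ C : ℕ, C = max (KU * 1000000 - A * q.2.1) (A * q.1 - KL * 1000000) := ⟨_, rfl⟩
  have hA : (0:ℝ) ≤ A := Nat.cast_nonneg A
  have hC1 : (KU : ℝ) * 1000000 - A * q.2.1 ≤ C := by
    have h3 : KU * 1000000 ≤ C + A * q.2.1 := by
      rw [hC]
      have := le_max_left (KU * 1000000 - A * q.2.1) (A * q.1 - KL * 1000000)
      omega
    have h4 : ((KU * 1000000 : ℕ) : ℝ) ≤ ((C + A * q.2.1 : ℕ) : ℝ) := by exact_mod_cast h3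
    push_cast at h4
    linarith
  have hC2 : (A : ℝ) * q.1 - KL * 1000000 ≤ C := by
    have h3 : A * q.1 ≤ C + KL * 1000000 := by
      rw [hC]
      have := le_max_right (KU * 1000000 - A * q.2.1) (A * q.1 - KL * 1000000)
      omega
    have h4 : ((A * q.1 : ℕ) : ℝ) ≤ ((C + KL * 1000000 : ℕ) : ℝ) := by exact_mod_cast h3
    push_cast at h4
    linarith
  have hle : (i : ℝ) / 20 ≤ (i + 1) / 20 := by linarith
  have h5 := intervalIntegral.integral_mono_on_of_le_Ioo hle (nda_int h (A := A / 10^6) hki)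
    ((Par.w_cont.intervalIntegrable (μ := volume) ((i : ℝ) / 20) ((i + 1) / 20)).const_mul ((C : ℝ) / 10^12))
    (fun y hy => by
      obtain ⟨a1, a2⟩ := h1 y hy
      obtain ⟨b1, b2⟩ := hk y hy
      refine mul_le_mul_of_nonneg_right ?_ (Par.w_nonneg y)
      rw [le_div_iff₀ (by norm_num), ← abs_of_pos (by norm_num : (0:ℝ) < 10^12), ← abs_mul, abs_le]
      have e : (k y - A / 10^6 * mb1 P y) * 10^12 = (k y * 10^6) * 10^6 - A * (mb1 P y * 10^6) := by ring
      rw [e]
      have c1 := mul_le_mul_of_nonneg_left a1 hA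
      have c2 := mul_le_mul_of_nonneg_left a2 hA
      constructor
      · linarith
      · linarith)
  rw [intervalIntegral.integral_const_mul] at h5
  have h6 : (C : ℝ) * ((∫ y in ((i : ℝ) / 20)..((i + 1) / 20), w y) * 10^6) ≤ C * (q.2.2 : ℕ) :=
    mul_le_mul_of_nonneg_left h2 (Nat.cast_nonneg C)
  have h7 : nda_c KU KL A q = C * q.2.2 := by rw [nda_c, ← hC]
  rw [h7]
  push_cast
  have h8 := mul_le_mul_of_nonneg_right h5 (by norm_num : (0:ℝ) ≤ 10^18)
  refine h8.trans (le_trans (le_of_eq ?_) h6)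
  ring

private theorem nda_len : tri.length = 44 := by decide +kernel

private theorem nda_sum {f : ℝ → ℝ} (hf : ∀ i : ℕ, i < 44 → IntervalIntegrable f volume (((i : ℕ) : ℝ) / 20) (((i : ℕ) + 1) / 20)) :
    ∫ y in (0:ℝ)..2.2, f y = ∑ i ∈ Finset.range 44, ∫ y in (((i : ℕ) : ℝ) / 20)..(((i : ℕ) + 1) / 20), f y := by
  have h1 := intervalIntegral.sum_integral_adjacent_intervals (f := f) (μ := volume)
    (a := fun i : ℕ => (i : ℝ) / 20) (n := 44) (fun i hi => by
      have := hf i hi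
      push_cast
      exact this)
  push_cast at h1
  rw [h1]
  norm_num

private theorem nda_main (h : P.Star) {A : ℕ} {KU KL : ℕ → ℕ} {k : ℝ → ℝ} (hki : IntervalIntegrable k volume 0 2.2)
    (hk : ∀ i : ℕ, i < 44 → ∀ y ∈ Ioo ((i : ℝ) / 20) ((i + 1) / 20),
      (KL i : ℝ) ≤ k y * 10^6 ∧ k y * 10^6 ≤ KU i) :
    (∫ y in (0:ℝ)..2.2, |k y - A / 10^6 * mb1 P y| * w y) * 10^18 ≤
      ((∑ j ∈ Finset.range 44, nda_c (KU j) (KL j) A (tri.getD j (0,0,0)) : ℕ) : ℝ) := by
  have hkc : ∀ i : ℕ, i < 44 → IntervalIntegrable k volume (((i : ℕ) : ℝ) / 20) (((i : ℕ) + 1) / 20) := by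
    intro i hi
    have hi0 : (0:ℝ) ≤ i := Nat.cast_nonneg i
    have hi1 : (i:ℝ) ≤ 43 := by exact_mod_cast (by omega : i ≤ 43)
    refine hki.mono_set ?_
    rw [uIcc_of_le (by linarith), uIcc_of_le (by norm_num)]
    exact Icc_subset_Icc (by positivity) (by linarith)
  rw [nda_sum (fun i hi => nda_int h (hkc i hi)), Finset.sum_mul]
  push_cast
  refine Finset.sum_le_sum fun i hi => ?_
  rw [Finset.mem_range] at hi
  exact nda_cell h hi (hkc i hi) (hk i hi)

theorem kS_sound (h : P.Star) {A R RL a x : ℕ} {k : ℝ → ℝ} (hki : IntervalIntegrable k volume 0 2.2)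
    (hk : ∀ i : ℕ, i < 44 → ∀ y ∈ Ioo ((i : ℝ) / 20) ((i + 1) / 20),
      ((if i < a then RL else if i < x then 1000000 else 0 : ℕ) : ℝ) ≤ k y * 10^6 ∧
      k y * 10^6 ≤ ((if i < a then R else if i < x then 1000000 else 0 : ℕ) : ℝ)) :
    (∫ y in (0:ℝ)..2.2, |k y - A / 10^6 * mb1 P y| * w y) * 10^18 ≤ (kS A R RL a x 0 tri : ℕ) := by
  rw [nda_kS, nda_len]
  simp only [zero_add]
  exact nda_main h hki hk

private theorem nda_clen : ch.length = 10 := by decide +kernel

theorem kSV_sound (h : P.Star) {A SU SL a : ℕ} (ha : 1 ≤ a) (ha1 : a ≤ 9)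
    (hU : P.sg / (P.Y - a / 20) * 10^6 ≤ SU) (hL : (SL : ℝ) ≤ P.sg / (P.Y - a / 20) * 10^6) :
    (∫ y in (0:ℝ)..2.2, |(if y < (a : ℝ) / 20 then P.sg / (P.Y - a / 20) + Real.cosh (P.s - a / 20 + y) else 0)
      - A / 10^6 * mb1 P y| * w y) * 10^18 ≤ (kSV A SU SL a (ch.drop (10 - a)) tri : ℕ) := by
  rw [nda_kSV A SU SL a (ch.drop (10 - a)) tri (by rw [List.length_drop, nda_clen]; omega)
    (by rw [nda_len]; omega), nda_len]
  refine nda_main h (k := fun y => if y < (a : ℝ) / 20 then P.sg / (P.Y - a / 20) + Real.cosh (P.s - a / 20 + y) else 0)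
    (KU := fun j => if j < a then SU + ((ch.drop (10 - a)).getD j (0,0)).1 else 0)
    (KL := fun j => if j < a then SL + ((ch.drop (10 - a)).getD j (0,0)).2 else 0) ?_ ?_
  · have e : (fun y => if y < (a : ℝ) / 20 then P.sg / (P.Y - a / 20) + Real.cosh (P.s - a / 20 + y) else 0) =
        (Iio ((a : ℝ) / 20)).indicator fun y => P.sg / (P.Y - a / 20) + Real.cosh (P.s - a / 20 + y) := by
      funext y
      unfold Set.indicator
      rfl
    rw [e, intervalIntegrable_iff]
    have hc : Continuous fun y => P.sg / (P.Y - a / 20) + Real.cosh (P.s - a / 20 + y) := by fun_prop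
    exact ((intervalIntegrable_iff.1 (hc.intervalIntegrable (μ := volume) 0 2.2))).indicator measurableSet_Iio
  · intro i hi y hy
    have hi0 : (0:ℝ) ≤ i := Nat.cast_nonneg i
    obtain ⟨hy0, hy1⟩ := hy
    by_cases h1 : i < a
    · have h2 : (i:ℝ) + 1 ≤ a := by exact_mod_cast h1
      have h3 : ((ch.drop (10 - a)).getD i (0,0)) = ch.getD (10 - a + i) (0,0) := by
        rw [List.getD_eq_getElem?_getD, List.getD_eq_getElem?_getD, List.getElem?_drop]
      have e1 : ((10 - a + i : ℕ) : ℝ) = 10 - a + i := by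
        rw [Nat.cast_add, Nat.cast_sub (by omega)]
        norm_num
      obtain ⟨c1, c2⟩ := ch_tab h (j := 10 - a + i) (by omega) (P.s - a / 20 + y)
        ⟨by rw [e1]; linarith, by rw [e1]; linarith⟩
      simp only [if_pos h1, h3, if_pos (by linarith : y < (a:ℝ)/20)]
      push_cast
      constructor
      · linarith
      · linarith
    · have h2 : (a:ℝ) ≤ i := by exact_mod_cast (not_lt.1 h1)
      simp only [if_neg h1, if_neg (by linarith : ¬ y < (a:ℝ)/20)]
      simp

end Pool.Agent.CDk
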