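import Pool.Agent.CDk.CX
import Pool.Agent.CDk.D.COUP
import Pool.Agent.CDk.D.Chk
import Pool.Agent.CDk.D.D0
import Pool.Agent.CDk.D.NODEa
import Pool.Agent.CDk.D.NRM
import Pool.Agent.CDk.D.Tab
import Pool.Agent.CDk.D.TabS
import Pool.Agent.CDk.D.TabSa
import Pool.Agent.CDk.D.TabSc
import Pool.Agent.CDk.Defs
import Pool.Agent.CDk.FNa
import Pool.Agent.CDk.FV
import Pool.Agent.CDk.GAP
import Pool.Agent.CDk.T1a

/-!
# NODEb: the node bounds

`chkP_sound`: for `m ≥ 0`: `fF (m/20) (k/20) = N (r/(Y+e) - ∫_0^{r-e} i)`, `k = 1` on `[0, r - e]`; `c0 - ∫ k io = r/(Y+e) - J(r-e)/L`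
(`r/(Y+e) * 10^6 = k 10^6/(20 Y + m) ≤ k 10^11/(5087922 + 10^5 m)`); apply `coup` with `Q = (cdiv .. - joL ..)/10^6`, `K = kS/10^18`, `A/10^6`.
`chkN_sound`: `a ≥ 1`: `fF (-a/20) (k/20) = N (r/(Y-a) - r/(Y-a) ∫_0^a i - ∫_a^{a+r} i)`, kernel `R = r/(Y-a)` on `[0,a]`, `1` on `[a, a+r]`.
`chkV_sound`: `gV (-a/20) = N (sg/(Y-a) - ∫_0^a (sg/(Y-a) + cosh(s-a+y)) i)` (see NRM: `∫_0^s sinh(s-τ) D(a-τ) dτ
= sinh s I1 D a - ∫_0^a cosh(s-a+y) I1 D y dy`; `a ≤ 0.45 < s`). `lowV`: lower bound of `∫_0^{a/20} cosh(s-a/20+y) io y dy`.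
`decr_pos`: `I1 D 1.8/N ≥ io 1.8 - 0.03 w 1.8 ≥ 0.4912 - 0.078 > 0.3931 > 1/Y ≥ qG/N`;
`decr_neg`: `I1 D 2.1/N ≥ 0.6150 - 0.03 * 3.8 = 0.5010 > 1/(Y - 0.45)`.
-/

open MeasureTheory Set Filter Topology

namespace Pool.Agent.CDk
open Tab Chk
variable {P : Par} {N δ : ℝ} {D : ℝ → ℝ}

private theorem ndb_I1_lo (h : P.Star) (hv : VS P N δ D) (hδ1 : δ ≤ 0.03) {y x : ℝ} {i : ℕ}
    (hi : i ≤ 44) (hy : y = (i : ℝ) / 20) (hyx : y ≤ x) {c : ℝ}
    (hc : c * 10^6 ≤ ((ioL.getD i 0 : ℕ) : ℝ) - 30000 * w y) : c * N ≤ I1 D x := by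
  have hi0 : (0:ℝ) ≤ i := Nat.cast_nonneg i
  have hi1 : (i:ℝ) ≤ 44 := by exact_mod_cast hi
  have h1 := (io_tab h hi).1
  rw [← hy] at h1
  have h2 := abs_le.1 (hv.tube.close y (by rw [hy]; positivity) (by rw [hy]; linarith))
  have h3 : δ * w y ≤ 0.03 * w y := mul_le_mul_of_nonneg_right hδ1 (Par.w_nonneg y)
  have h4 : c ≤ I1 D y / N := by linarith [h2.1]
  rw [le_div_iff₀ hv.pos] at h4
  exact h4.trans (I1_mono hv.pf hyx)

private theorem ndb_wv {y c : ℝ} (hy : 1.4 ≤ y) (hc : c = 1 + 4 * (y - 1.4)) : w y = c := by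
  unfold w
  rw [min_eq_right (by nlinarith), max_eq_left (by linarith), hc]

theorem decr_pos (h : P.Star) (hv : VS P N δ D) (hδ : 0 ≤ δ) (hδ1 : δ ≤ 0.03) {e r : ℝ} (he : 0 ≤ e)
    (hr : 1.8 ≤ r - e) : qG P N D e - I1 D (r - e) < 0 := by
  obtain ⟨hY1, hY2, -, -⟩ := Par.Y_pos h
  have hN := hv.pos
  have h0 : ioL.getD 36 0 = 491244 := by decide +kernel
  have h1 : 0.41 * N ≤ I1 D (r - e) :=
    ndb_I1_lo h hv hδ1 (y := 1.8) (i := 36) (by norm_num) (by norm_num) hr (by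
      rw [ndb_wv (c := 2.6) (by norm_num) (by norm_num), h0]
      norm_num)
  have h2 : qG P N D e ≤ 0.4 * N := by
    unfold qG
    rw [(I2_pf hv.pf).zero _ (by linarith), sub_zero, div_le_iff₀ (by linarith)]
    nlinarith
  linarith

theorem decr_neg (h : P.Star) (hv : VS P N δ D) (hδ : 0 ≤ δ) (hδ1 : δ ≤ 0.03) {e r : ℝ} (he : -0.45 ≤ e)
    (he1 : e ≤ 0) (hr : 2.1 ≤ r - e) : qG P N D e - I1 D (r - e) < 0 := by
  obtain ⟨hY1, hY2, -, -⟩ := Par.Y_pos h
  have hN := hv.pos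
  have h0 : ioL.getD 42 0 = 615031 ∨ 614000 ≤ ioL.getD 42 0 := by decide +kernel
  have h0' : 614000 ≤ ioL.getD 42 0 := by omega
  have h0r : (614000:ℝ) ≤ ((ioL.getD 42 0 : ℕ) : ℝ) := by exact_mod_cast h0'
  have h1 : 0.5 * N ≤ I1 D (r - e) :=
    ndb_I1_lo h hv hδ1 (y := 2.1) (i := 42) (by norm_num) (by norm_num) hr (by
      rw [ndb_wv (c := 3.8) (by norm_num) (by norm_num)]
      linarith)
  have h2 : qG P N D e ≤ 0.48 * N := by
    unfold qG
    rw [div_le_iff₀ (by linarith)]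
    have h3 := (I2_pf hv.pf).nonneg (-e)
    nlinarith
  linarith

private theorem ndb_ok {A Q K : ℕ} (hok : okA A Q K = true) :
    (Q:ℝ)/10^6 ≤ 0.8316 * ((A:ℝ)/10^6) ∧
      ((K:ℝ)/10^18)^2 ≤ 159 * ((A:ℝ)/10^6) * (0.8316 * ((A:ℝ)/10^6) - (Q:ℝ)/10^6) := by
  unfold okA at hok
  rw [Bool.and_eq_true, Nat.ble_eq, Nat.ble_eq] at hok
  obtain ⟨h1, h2⟩ := hok
  have h1' : (10000:ℝ) * Q ≤ 8316 * A := by exact_mod_cast h1
  have h2' : ((K * K : ℕ) : ℝ) ≤ ((159 * A * (8316 * A - 10000 * Q) * 10^20 : ℕ) : ℝ) := by exact_mod_cast h2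
  push_cast [Nat.cast_sub h1] at h2'
  constructor
  · linarith
  · have e1 : ((K:ℝ)/10^18)^2 = (K:ℝ) * K / 10^36 := by ring
    have e2 : 159 * ((A:ℝ)/10^6) * (0.8316 * ((A:ℝ)/10^6) - (Q:ℝ)/10^6) =
      159 * A * (8316 * A - 10000 * Q) * 10^20 / 10^36 := by ring
    rw [e1, e2]
    refine div_le_div_of_nonneg_right ?_ (by norm_num)
    linarith

private theorem ndb_cdiv (a : ℕ) {b : ℕ} (hb : 0 < b) : (a:ℝ) / b ≤ (cdiv a b : ℕ) := by
  have hb' : (0:ℝ) < b := by exact_mod_cast hb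
  rw [div_le_iff₀ hb']
  have h1 : a ≤ cdiv a b * b := by
    unfold cdiv
    have h2 := Nat.div_add_mod (a + b - 1) b
    have h3 := Nat.mod_lt (a + b - 1) hb
    rw [mul_comm] at h2
    omega
  exact_mod_cast h1

private theorem ndb_sub {x : ℝ} {a b : ℕ} (hx : x ≤ (a:ℝ) - b) : x ≤ ((a - b : ℕ) : ℝ) := by
  rcases le_total b a with h | h
  · rw [Nat.cast_sub h]
    exact hx
  · rw [Nat.sub_eq_zero_of_le h, Nat.cast_zero]
    have : (a:ℝ) ≤ b := by exact_mod_cast h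
    linarith

private theorem ndb_main (h : P.Star) (hv : VS P N δ D) (hδ : 0 ≤ δ) (hδ1 : δ ≤ 0.03) (hΦ : Phi P N δ D ≤ 0)
    {A Q K : ℕ} {c0 : ℝ} {k : ℝ → ℝ} (hki : IntervalIntegrable k volume 0 2.2) (hok : okA A Q K = true)
    (hc : (c0 - ∫ y in (0:ℝ)..2.2, k y * P.io y) * 10^6 ≤ Q)
    (hk : (∫ y in (0:ℝ)..2.2, |k y - A / 10^6 * mb1 P y| * w y) * 10^18 ≤ K) :
    N * (c0 - ∫ y in (0:ℝ)..2.2, k y * (I1 D y / N)) * 10^6 ≤ A := by
  obtain ⟨h1, h2⟩ := ndb_ok hok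
  have h3 := coup h hv hδ hδ1 hΦ (A := A / 10^6) (Q := Q / 10^6) (K := K / 10^18) (c0 := c0) hki
    (by positivity) h1 (by positivity) h2 (by rw [le_div_iff₀ (by norm_num)]; exact hc)
    (by rw [le_div_iff₀ (by norm_num)]; exact hk)
  rw [le_div_iff₀ (by norm_num)] at h3
  exact h3

private theorem ndb_intble {g : ℝ → ℝ} (hg : Continuous g) (c a b : ℝ) :
    IntervalIntegrable (fun y => if y < c then g y else 0) volume a b := by
  have e : (fun y => if y < c then g y else 0) = (Iio c).indicator g := by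
    funext y
    unfold Set.indicator
    rfl
  rw [e, intervalIntegrable_iff]
  exact ((intervalIntegrable_iff.1 (hg.intervalIntegrable (μ := volume) a b))).indicator measurableSet_Iio

private theorem ndb_cut {g f : ℝ → ℝ} (hg : Continuous g) (hf : Continuous f) {c : ℝ} (h0 : 0 ≤ c)
    (h1 : c ≤ 2.2) : ∫ y in (0:ℝ)..2.2, (if y < c then g y else 0) * f y = ∫ y in (0:ℝ)..c, g y * f y := by
  have hi := fun a b => (ndb_intble hg c a b).mul_continuousOn (hf.continuousOn (s := uIcc a b))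
  rw [← intervalIntegral.integral_add_adjacent_intervals (hi 0 c) (hi c 2.2)]
  have e1 : ∫ y in c..2.2, (if y < c then g y else 0) * f y = 0 := by
    rw [intervalIntegral.integral_congr (g := fun _ => (0:ℝ))]
    · simp
    · intro y hy
      rw [uIcc_of_le h1] at hy
      simp only
      rw [if_neg (not_lt.2 hy.1), zero_mul]
  rw [e1, add_zero]
  refine intervalIntegral.integral_congr_ae ?_
  have h2 : {c}ᶜ ∈ ae (volume : Measure ℝ) := compl_mem_ae_iff.2 (measure_singleton c)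
  filter_upwards [h2] with y hy hy'
  rw [uIoc_of_le h0] at hy'
  rw [if_pos (lt_of_le_of_ne hy'.2 hy)]

/-! ### the case `e ≥ 0` -/

theorem chkP_sound (h : P.Star) (hv : VS P N δ D) (hδ : 0 ≤ δ) (hδ1 : δ ≤ 0.03) (hΦ : Phi P N δ D ≤ 0)
    {m k A : ℕ} (hk : k ≤ m + 36) (hc : chkP m k A = true) : fF P N D (m / 20) (k / 20) * 10^6 ≤ A := by
  obtain ⟨hY1, hY2, hL1, hL2⟩ := Par.Y_pos h
  have hN := hv.pos
  have hm0 : (0:ℝ) ≤ m := Nat.cast_nonneg m
  have hk0 : (0:ℝ) ≤ k := Nat.cast_nonneg k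
  obtain ⟨x, hx⟩ : ∃ x, x = k - m := ⟨_, rfl⟩
  have hx36 : x ≤ 36 := by omega
  have hx36' : (x:ℝ) ≤ 36 := by exact_mod_cast hx36
  have hx0 : (0:ℝ) ≤ x := Nat.cast_nonneg x
  unfold chkP at hc
  rw [← hx] at hc
  obtain ⟨c0, hc0⟩ : ∃ c0 : ℝ, c0 = (k:ℝ)/20 / (P.Y + m/20) := ⟨_, rfl⟩
  have hcont1 : Continuous fun _ : ℝ => (1:ℝ) := continuous_const
  have hioc := Par.cx_cont h
  have hI1c := I1_cont hv.pf
  have hIN : Continuous fun y => I1 D y / N := hI1c.div_const N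
  have key := ndb_main h hv hδ hδ1 hΦ (c0 := c0) (k := fun y => if y < (x:ℝ)/20 then 1 else 0)
    (ndb_intble hcont1 _ _ _) hc ?_ ?_
  · rw [ndb_cut hcont1 hIN (by positivity) (by linarith)] at key
    have e1 : ∫ y in (0:ℝ)..(x:ℝ)/20, 1 * (I1 D y / N) = I2 D (x/20) / N := by
      simp only [one_mul]
      rw [intervalIntegral.integral_div]
      rfl
    have e2 : I2 D ((k:ℝ)/20 - m/20) = I2 D (x/20) := by
      rcases le_total m k with h1 | h1
      · rw [hx, Nat.cast_sub h1]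
        congr 1
        ring
      · have h2 : x = 0 := by omega
        have h3 : (k:ℝ) ≤ m := by exact_mod_cast h1
        rw [h2, (I2_pf hv.pf).zero _ (by linarith), (I2_pf hv.pf).zero _ (by simp)]
    have e3 : fF P N D (m/20) (k/20) = N * (c0 - ∫ y in (0:ℝ)..(x:ℝ)/20, 1 * (I1 D y / N)) := by
      rw [e1]
      unfold fF qG
      rw [e2, (I2_pf hv.pf).zero (-(m/20)) (by linarith), hc0]
      field_simp
      ring
    rw [e3]
    exact key
  · rw [ndb_cut hcont1 hioc (by positivity) (by linarith)]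
    have e1 : ∫ y in (0:ℝ)..(x:ℝ)/20, 1 * P.io y = P.J (x/20) / P.L := by
      simp only [one_mul]
      unfold Par.io
      rw [intervalIntegral.integral_div, intervalIntegral.integral_eq_sub_of_hasDerivAt
        (fun x _ => Par.J_deriv h x) ((Par.I_cont h).intervalIntegrable _ _), Par.J_zero h le_rfl, sub_zero]
    rw [e1]
    refine ndb_sub ?_
    have h1 := (jo_tab h (i := x) (by omega)).1
    have h2 := ndb_cdiv (k * 10^11) (b := 5087922 + 100000 * m) (by omega)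
    have h3 : c0 * 10^6 ≤ ((k * 10^11 : ℕ) : ℝ) / ((5087922 + 100000 * m : ℕ) : ℝ) := by
      push_cast
      rw [hc0, div_mul_eq_mul_div, div_le_div_iff₀ (by linarith) (by linarith)]
      have h4 : (k:ℝ) * 50.87922 ≤ k * (20 * P.Y) := mul_le_mul_of_nonneg_left (by linarith) hk0
      nlinarith
    linarith
  · refine kS_sound h (ndb_intble hcont1 _ _ _) fun i hi y hy => ?_
    have hi0 : (0:ℝ) ≤ i := Nat.cast_nonneg i
    obtain ⟨hy0, hy1⟩ := hy
    simp only [Nat.not_lt_zero, if_false]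
    by_cases h1 : i < x
    · have h2 : (i:ℝ) + 1 ≤ x := by exact_mod_cast h1
      rw [if_pos h1, if_pos (by linarith)]
      norm_num
    · have h2 : (x:ℝ) ≤ i := by exact_mod_cast (not_lt.1 h1)
      rw [if_neg h1, if_neg (by linarith)]
      norm_num

/-! ### the case `e < 0` -/

private theorem ndb_io_int (h : P.Star) (a : ℝ) : ∫ y in (0:ℝ)..a, P.io y = P.J a / P.L := by
  unfold Par.io
  rw [intervalIntegral.integral_div, intervalIntegral.integral_eq_sub_of_hasDerivAt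
    (fun x _ => Par.J_deriv h x) ((Par.I_cont h).intervalIntegrable _ _), Par.J_zero h le_rfl, sub_zero]

/-- the product `c0 (1 - J a/L)` -/
private theorem ndb_prod {c0 j : ℝ} {R jl : ℕ} (h0 : 0 ≤ c0) (hR : c0 * 10^6 ≤ R) (hj : (jl : ℝ) ≤ j * 10^6)
    (hjl : jl ≤ 1000000) : c0 * (1 - j) * 10^6 ≤ (cdiv (R * (1000000 - jl)) 1000000 : ℕ) := by
  refine le_trans ?_ (ndb_cdiv (R * (1000000 - jl)) (by norm_num))
  rw [Nat.cast_mul, Nat.cast_sub hjl, le_div_iff₀ (by norm_num)]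
  push_cast
  have hjl' : (jl:ℝ) ≤ 1000000 := by exact_mod_cast hjl
  have h1 : c0 * 10^6 * (1000000 - jl) ≤ R * (1000000 - jl) :=
    mul_le_mul_of_nonneg_right hR (by linarith)
  have h2 : c0 * (1 - j) * 10^6 * 1000000 ≤ c0 * 10^6 * (1000000 - jl) := by
    have h3 : c0 * 10^6 * (1000000 * (1 - j)) ≤ c0 * 10^6 * (1000000 - jl) :=
      mul_le_mul_of_nonneg_left (by linarith) (by positivity)
    linarith
  linarith

private theorem ndb_joL : ∀ i : ℕ, i < 45 → joL.getD i 0 ≤ 1000000 := by decide +kernel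

private theorem ndb_den {a : ℕ} (ha1 : a ≤ 9) :
    ((5087922 - 100000 * a : ℕ) : ℝ) = 5087922 - 100000 * a ∧
    ((5087930 - 100000 * a : ℕ) : ℝ) = 5087930 - 100000 * a := by
  constructor
  · rw [Nat.cast_sub (by omega)]
    push_cast
    rfl
  · rw [Nat.cast_sub (by omega)]
    push_cast
    rfl

theorem chkN_sound (h : P.Star) (hv : VS P N δ D) (hδ : 0 ≤ δ) (hδ1 : δ ≤ 0.03) (hΦ : Phi P N δ D ≤ 0)
    {a k A : ℕ} (ha : 1 ≤ a) (ha1 : a ≤ 9) (hk : a + k ≤ 42) (hc : chkN a k A = true) :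
    fF P N D (-(a / 20)) (k / 20) * 10^6 ≤ A := by
  obtain ⟨hY1, hY2, hL1, hL2⟩ := Par.Y_pos h
  have hN := hv.pos
  have ha0 : (1:ℝ) ≤ a := by exact_mod_cast ha
  have ha9 : (a:ℝ) ≤ 9 := by exact_mod_cast ha1
  have hk0 : (0:ℝ) ≤ k := Nat.cast_nonneg k
  have hak : (a:ℝ) + k ≤ 42 := by exact_mod_cast hk
  unfold chkN at hc
  obtain ⟨c0, hc0⟩ : ∃ c0 : ℝ, c0 = (k:ℝ)/20 / (P.Y - a/20) := ⟨_, rfl⟩
  have hYa : 0 < P.Y - a/20 := by linarith
  have hc00 : 0 ≤ c0 := by rw [hc0]; positivity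
  have hioc := Par.cx_cont h
  have hI1c := I1_cont hv.pf
  have hIN : Continuous fun y => I1 D y / N := hI1c.div_const N
  have hcontc : Continuous fun _ : ℝ => c0 - 1 := continuous_const
  have hcont1 : Continuous fun _ : ℝ => (1:ℝ) := continuous_const
  have hkk : ∀ f : ℝ → ℝ, Continuous f → ∫ y in (0:ℝ)..2.2,
      ((if y < (a:ℝ)/20 then c0 - 1 else 0) + (if y < ((a:ℝ) + k)/20 then 1 else 0)) * f y =
      (c0 - 1) * (∫ y in (0:ℝ)..(a:ℝ)/20, f y) + ∫ y in (0:ℝ)..((a:ℝ) + k)/20, f y := by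
    intro f hf
    simp only [add_mul]
    rw [intervalIntegral.integral_add
      ((ndb_intble hcontc _ _ _).mul_continuousOn hf.continuousOn)
      ((ndb_intble hcont1 _ _ _).mul_continuousOn hf.continuousOn),
      ndb_cut hcontc hf (by positivity) (by linarith), ndb_cut hcont1 hf (by positivity) (by linarith),
      intervalIntegral.integral_const_mul]
    simp only [one_mul]
  obtain ⟨hd1, hd2⟩ := ndb_den ha1
  have hcu : c0 * 10^6 ≤ ((k * 10^11 : ℕ) : ℝ) / ((5087922 - 100000 * a : ℕ) : ℝ) := by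
    rw [hd1]
    push_cast
    rw [hc0, div_mul_eq_mul_div, div_le_div_iff₀ hYa (by linarith)]
    have h4 : (k:ℝ) * 50.87922 ≤ k * (20 * P.Y) := mul_le_mul_of_nonneg_left (by linarith) hk0
    nlinarith
  have hcl : ((k * 10^11 : ℕ) : ℝ) / ((5087930 - 100000 * a : ℕ) : ℝ) ≤ c0 * 10^6 := by
    rw [hd2]
    push_cast
    rw [hc0, div_mul_eq_mul_div, div_le_div_iff₀ (by linarith) hYa]
    have h4 : (k:ℝ) * (20 * P.Y) ≤ k * 50.8793 := mul_le_mul_of_nonneg_left (by linarith) hk0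
    nlinarith
  have hcu' : c0 * 10^6 ≤ (cdiv (k * 10^11) (5087922 - 100000 * a) : ℕ) :=
    hcu.trans (ndb_cdiv _ (by omega))
  have hcl' : ((k * 10^11 / (5087930 - 100000 * a) : ℕ) : ℝ) ≤ c0 * 10^6 :=
    le_trans Nat.cast_div_le hcl
  have hki : IntervalIntegrable (fun y => (if y < (a:ℝ)/20 then c0 - 1 else 0) +
      (if y < ((a:ℝ) + k)/20 then 1 else 0)) volume 0 2.2 :=
    (ndb_intble hcontc _ _ _).add (ndb_intble hcont1 _ _ _)
  have key := ndb_main h hv hδ hδ1 hΦ (c0 := c0)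
    (k := fun y => (if y < (a:ℝ)/20 then c0 - 1 else 0) + (if y < ((a:ℝ) + k)/20 then 1 else 0)) hki hc ?_ ?_
  · rw [hkk _ hIN] at key
    have e1 : ∀ x : ℝ, ∫ y in (0:ℝ)..x, I1 D y / N = I2 D x / N := by
      intro x
      rw [intervalIntegral.integral_div]
      rfl
    have e3 : fF P N D (-(a/20)) (k/20) = N * (c0 - ((c0 - 1) * (∫ y in (0:ℝ)..(a:ℝ)/20, I1 D y / N) +
        ∫ y in (0:ℝ)..((a:ℝ) + k)/20, I1 D y / N)) := by
      rw [e1, e1]
      unfold fF qG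
      rw [sub_neg_eq_add, neg_neg, (by ring : (k:ℝ)/20 + a/20 = (a + k)/20), hc0,
        (by ring : P.Y + -((a:ℝ)/20) = P.Y - a/20)]
      field_simp
      ring
    rw [e3]
    exact key
  · rw [hkk _ hioc, ndb_io_int h, ndb_io_int h]
    refine ndb_sub ?_
    have h1 := jo_tab h (i := a) (by omega)
    have h2 := (jo_tab h (i := a + k) (by omega)).1
    have h3 := ndb_prod hc00 hcu' h1.1 (ndb_joL a (by omega))
    push_cast at h2
    rw [Nat.cast_add]
    linarith [h1.2]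
  · refine kS_sound h hki fun i hi y hy => ?_
    have hi0 : (0:ℝ) ≤ i := Nat.cast_nonneg i
    obtain ⟨hy0, hy1⟩ := hy
    by_cases h1 : i < a
    · have h2 : (i:ℝ) + 1 ≤ a := by exact_mod_cast h1
      rw [if_pos h1, if_pos h1]
      rw [if_pos (by linarith : y < (a:ℝ)/20), if_pos (by linarith : y < ((a:ℝ) + k)/20), sub_add_cancel]
      exact ⟨hcl', hcu'⟩
    · have h2 : (a:ℝ) ≤ i := by exact_mod_cast (not_lt.1 h1)
      rw [if_neg h1, if_neg h1]
      rw [if_neg (by linarith : ¬ y < (a:ℝ)/20), zero_add]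
      by_cases h3 : i < a + k
      · have h4 : (i:ℝ) + 1 ≤ a + k := by exact_mod_cast h3
        rw [if_pos h3, if_pos (by linarith)]
        norm_num
      · have h4 : (a:ℝ) + k ≤ i := by exact_mod_cast (not_lt.1 h3)
        rw [if_neg h3, if_neg (by linarith)]
        norm_num

/-! ### the opening part -/

private theorem ndb_lowV : ∀ (n : ℕ) (C : List (ℕ × ℕ)) (JL JU : List ℕ), n ≤ C.length → n ≤ JL.length →
    n ≤ JU.length →
    lowV n C JL JU = ∑ i ∈ Finset.range n, (C.getD i (0,0)).2 * (JL.getD i 0 - JU.getD i 0) := by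
  intro n
  induction n with
  | zero =>
    intro C JL JU _ _ _
    rw [Finset.sum_range_zero]
    cases C <;> cases JL <;> cases JU <;> rfl
  | succ n ih =>
    intro C JL JU hC hJ hU
    obtain ⟨⟨cu, cl⟩, C, rfl⟩ : ∃ c C', C = c :: C' := by
      cases C with
      | nil => simp at hC
      | cons c C => exact ⟨c, C, rfl⟩
    obtain ⟨jl, JL, rfl⟩ : ∃ c C', JL = c :: C' := by
      cases JL with
      | nil => simp at hJ
      | cons c C => exact ⟨c, C, rfl⟩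
    obtain ⟨ju, JU, rfl⟩ : ∃ c C', JU = c :: C' := by
      cases JU with
      | nil => simp at hU
      | cons c C => exact ⟨c, C, rfl⟩
    rw [List.length_cons] at hC hJ hU
    rw [lowV, ih C JL JU (by omega) (by omega) (by omega), Finset.sum_range_succ', add_comm]
    rfl

private theorem ndb_lens : ch.length = 10 ∧ joL.length = 45 ∧ joU.length = 45 := by decide +kernel

private theorem ndb_low (h : P.Star) {a : ℕ} (ha : 1 ≤ a) (ha1 : a ≤ 9) :
    ((lowV a (ch.drop (10 - a)) (joL.drop 1) joU : ℕ) : ℝ) ≤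
      (∫ y in (0:ℝ)..(a:ℝ)/20, Real.cosh (P.s - a/20 + y) * P.io y) * 10^12 := by
  obtain ⟨l1, l2, l3⟩ := ndb_lens
  have hioc := Par.cx_cont h
  rw [ndb_lowV a (ch.drop (10 - a)) (joL.drop 1) joU (by rw [List.length_drop, l1]; omega)
    (by rw [List.length_drop, l2]; omega) (by rw [l3]; omega)]
  have hc : Continuous fun y => Real.cosh (P.s - a/20 + y) * P.io y := by fun_prop
  have h1 := intervalIntegral.sum_integral_adjacent_intervals
    (f := fun y => Real.cosh (P.s - a/20 + y) * P.io y) (μ := volume)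
    (a := fun i : ℕ => (i : ℝ) / 20) (n := a) (fun i hi => hc.intervalIntegrable _ _)
  simp only [Nat.cast_zero, zero_div] at h1
  rw [← h1, Finset.sum_mul, Nat.cast_sum]
  refine Finset.sum_le_sum fun i hi => ?_
  rw [Finset.mem_range] at hi
  have hi0 : (0:ℝ) ≤ i := Nat.cast_nonneg i
  have hia : (i:ℝ) + 1 ≤ a := by exact_mod_cast hi
  have e1 : ((10 - a + i : ℕ) : ℝ) = 10 - a + i := by
    rw [Nat.cast_add, Nat.cast_sub (by omega)]
    norm_num
  have e2 : (ch.drop (10 - a)).getD i (0,0) = ch.getD (10 - a + i) (0,0) := by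
    rw [List.getD_eq_getElem?_getD, List.getD_eq_getElem?_getD, List.getElem?_drop]
  have e3 : (joL.drop 1).getD i 0 = joL.getD (i + 1) 0 := by
    rw [List.getD_eq_getElem?_getD, List.getD_eq_getElem?_getD, List.getElem?_drop, add_comm]
  rw [e2, e3]
  obtain ⟨cl, hcl⟩ : ∃ cl, cl = (ch.getD (10 - a + i) (0,0)).2 := ⟨_, rfl⟩
  rw [← hcl]
  have hlo : ((cl:ℝ)/10^6) * (∫ y in ((i:ℝ)/20)..(((i + 1 : ℕ) : ℝ)/20), P.io y) ≤
      ∫ y in ((i:ℝ)/20)..(((i + 1 : ℕ) : ℝ)/20), Real.cosh (P.s - a/20 + y) * P.io y := by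
    rw [← intervalIntegral.integral_const_mul]
    refine intervalIntegral.integral_mono_on (by push_cast; linarith)
      ((by fun_prop : Continuous fun y => (cl:ℝ)/10^6 * P.io y).intervalIntegrable _ _)
      (hc.intervalIntegrable _ _) fun y hy => ?_
    push_cast at hy
    refine mul_le_mul_of_nonneg_right ?_ (Par.t1_io_nonneg h (by linarith [hy.1]))
    obtain ⟨c1, -⟩ := ch_tab h (j := 10 - a + i) (by omega) (P.s - a / 20 + y)
      ⟨by rw [e1]; linarith [hy.1], by rw [e1]; linarith [hy.2]⟩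
    rw [← hcl] at c1
    rw [div_le_iff₀ (by norm_num)]
    exact c1
  have hJ : (∫ y in ((i:ℝ)/20)..(((i + 1 : ℕ) : ℝ)/20), P.io y) * 10^6 =
      P.J (((i + 1 : ℕ) : ℝ)/20) / P.L * 10^6 - P.J ((i:ℝ)/20) / P.L * 10^6 := by
    have h2 := intervalIntegral.integral_interval_sub_left (hioc.intervalIntegrable (μ := volume) 0 (((i + 1 : ℕ) : ℝ)/20))
      (hioc.intervalIntegrable (μ := volume) 0 ((i:ℝ)/20))
    rw [← h2, ndb_io_int h, ndb_io_int h]
    ring
  have j1 := (jo_tab h (i := i + 1) (by omega)).1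
  have j2 := (jo_tab h (i := i) (by omega)).2
  have hJnn : 0 ≤ (∫ y in ((i:ℝ)/20)..(((i + 1 : ℕ) : ℝ)/20), P.io y) * 10^6 := by
    refine mul_nonneg (intervalIntegral.integral_nonneg (by push_cast; linarith) fun y hy => ?_) (by norm_num)
    exact Par.t1_io_nonneg h (by linarith [hy.1])
  have h5 : ((joL.getD (i + 1) 0 - joU.getD i 0 : ℕ) : ℝ) ≤
      (∫ y in ((i:ℝ)/20)..(((i + 1 : ℕ) : ℝ)/20), P.io y) * 10^6 := by
    rcases le_total (joU.getD i 0) (joL.getD (i + 1) 0) with h6 | h6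
    · rw [Nat.cast_sub h6, hJ]
      linarith
    · rw [Nat.sub_eq_zero_of_le h6, Nat.cast_zero]
      exact hJnn
  rw [Nat.cast_mul]
  have h7 := mul_le_mul_of_nonneg_left h5 (Nat.cast_nonneg cl : (0:ℝ) ≤ cl)
  refine h7.trans ?_
  have h8 := mul_le_mul_of_nonneg_right hlo (by norm_num : (0:ℝ) ≤ 10^12)
  refine le_trans (le_of_eq ?_) h8
  ring

theorem chkV_sound (h : P.Star) (hv : VS P N δ D) (hδ : 0 ≤ δ) (hδ1 : δ ≤ 0.03) (hΦ : Phi P N δ D ≤ 0)
    {a A : ℕ} (ha : 1 ≤ a) (ha1 : a ≤ 9) (hc : chkV a A = true) : gV P N D (-(a / 20)) * 10^6 ≤ A := by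
  obtain ⟨hY1, hY2, hL1, hL2⟩ := Par.Y_pos h
  obtain ⟨hsg1, hsg2, -⟩ := sg_tab h
  have hN := hv.pos
  have ha0 : (1:ℝ) ≤ a := by exact_mod_cast ha
  have ha9 : (a:ℝ) ≤ 9 := by exact_mod_cast ha1
  unfold chkV at hc
  obtain ⟨c0, hc0⟩ : ∃ c0 : ℝ, c0 = P.sg / (P.Y - a/20) := ⟨_, rfl⟩
  have hYa : 0 < P.Y - a/20 := by linarith
  have hc00 : 0 ≤ c0 := by rw [hc0]; exact div_nonneg (by linarith) hYa.le
  have hioc := Par.cx_cont h
  have hI1c := I1_cont hv.pf
  have hIN : Continuous fun y => I1 D y / N := hI1c.div_const N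
  have hg : Continuous fun y => c0 + Real.cosh (P.s - a/20 + y) := by fun_prop
  obtain ⟨hd1, hd2⟩ := ndb_den ha1
  have hcu : c0 * 10^6 ≤ ((521692 * 2 * 10^6 : ℕ) : ℝ) / ((5087922 - 100000 * a : ℕ) : ℝ) := by
    rw [hd1]
    push_cast
    rw [hc0, div_mul_eq_mul_div, div_le_div_iff₀ hYa (by linarith)]
    have h4 : (521692:ℝ) * 50.87922 ≤ 521692 * (20 * P.Y) := by linarith
    have h5 : P.sg * 10^6 * (5087922 - 100000 * a) ≤ 521692 * (5087922 - 100000 * a) :=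
      mul_le_mul_of_nonneg_right hsg2 (by linarith)
    nlinarith
  have hcl : ((521670 * 2 * 10^6 : ℕ) : ℝ) / ((5087930 - 100000 * a : ℕ) : ℝ) ≤ c0 * 10^6 := by
    rw [hd2]
    push_cast
    rw [hc0, div_mul_eq_mul_div, div_le_div_iff₀ (by linarith) hYa]
    have h5 : 521670 * (5087930 - 100000 * a) ≤ P.sg * 10^6 * (5087930 - 100000 * a) :=
      mul_le_mul_of_nonneg_right hsg1 (by linarith)
    nlinarith
  have hcu' : c0 * 10^6 ≤ (cdiv (521692 * 2 * 10^6) (5087922 - 100000 * a) : ℕ) :=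
    hcu.trans (ndb_cdiv _ (by omega))
  have hcl' : ((521670 * 2 * 10^6 / (5087930 - 100000 * a) : ℕ) : ℝ) ≤ c0 * 10^6 :=
    le_trans Nat.cast_div_le hcl
  have key := ndb_main h hv hδ hδ1 hΦ (c0 := c0)
    (k := fun y => if y < (a:ℝ)/20 then c0 + Real.cosh (P.s - a/20 + y) else 0)
    (ndb_intble hg _ _ _) hc ?_ ?_
  · rw [ndb_cut hg hIN (by positivity) (by linarith)] at key
    have e3 : gV P N D (-(a/20)) =
        N * (c0 - ∫ y in (0:ℝ)..(a:ℝ)/20, (c0 + Real.cosh (P.s - a/20 + y)) * (I1 D y / N)) := by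
      rw [gV_neg h hv.pf hN (by positivity) (by linarith)]
      unfold Par.VN Par.qN
      simp only [add_mul]
      rw [intervalIntegral.integral_add
        ((by fun_prop : Continuous fun y => c0 * (I1 D y / N)).intervalIntegrable _ _)
        ((by fun_prop : Continuous fun y => Real.cosh (P.s - a/20 + y) * (I1 D y / N)).intervalIntegrable _ _),
        intervalIntegral.integral_const_mul, hc0]
      ring
    rw [e3]
    exact key
  · rw [ndb_cut hg hioc (by positivity) (by linarith)]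
    simp only [add_mul]
    rw [intervalIntegral.integral_add
      ((by fun_prop : Continuous fun y => c0 * P.io y).intervalIntegrable _ _)
      ((by fun_prop : Continuous fun y => Real.cosh (P.s - a/20 + y) * P.io y).intervalIntegrable _ _),
      intervalIntegral.integral_const_mul, ndb_io_int h]
    refine ndb_sub ?_
    have h1 := jo_tab h (i := a) (by omega)
    have h3 := ndb_prod hc00 hcu' h1.1 (ndb_joL a (by omega))
    have h4 := ndb_low h ha ha1
    have h5 : ((lowV a (ch.drop (10 - a)) (joL.drop 1) joU / 1000000 : ℕ) : ℝ) ≤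
        (lowV a (ch.drop (10 - a)) (joL.drop 1) joU : ℕ) / 1000000 := Nat.cast_div_le
    linarith
  · have h6 := kSV_sound h (A := A) ha ha1 (by rw [← hc0]; exact hcu') (by rw [← hc0]; exact hcl')
    rw [← hc0] at h6
    exact h6

end Pool.Agent.CDk
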