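import Pool.Agent.CDk.D.Chk
import Pool.Agent.CDk.D.D0
import Pool.Agent.CDk.D.NODEb
import Pool.Agent.CDk.Defs
import Pool.Agent.CDk.FV
import Pool.Agent.CDk.GAP

/-!
# NODEc: lists of node bounds

`nodesP_sound`, `nodesN_sound`: for `k > m + 36` (resp. `a + k > 42`) the function `r ↦ fF` is nonincreasing beyond `r - e = 1.8`
(resp. `2.1`), since there `qG - I1 D(r - e) ≤ 0` (`decr_pos`, `decr_neg`; derivative of `fF` in `r` is `qG - I1 D (r - e)`); the list is nondecreasing.
-/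

open MeasureTheory Set Filter Topology

namespace Pool.Agent.CDk
open Tab Chk
variable {P : Par} {N δ : ℝ} {D : ℝ → ℝ}

private theorem ndc_zero (e : ℝ) : fF P N D e 0 = 0 := by
  unfold fF
  rw [zero_mul, zero_sub e, sub_self, sub_zero]

private theorem ndc_decr (hD : Pf D) {e r1 r2 : ℝ} (h12 : r1 ≤ r2)
    (hd : ∀ r, r1 ≤ r → qG P N D e - I1 D (r - e) < 0) : fF P N D e r2 ≤ fF P N D e r1 := by
  rcases h12.eq_or_lt with h | h
  · rw [h]
  · have hder : ∀ r, HasDerivAt (fun r => fF P N D e r) (qG P N D e - I1 D (r - e)) r := by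
      intro r
      have h1 := ((hasDerivAt_id r).mul_const (qG P N D e)).sub
        (((I2_deriv hD (r - e)).comp_sub_const r e).sub_const (I2 D (-e)))
      refine h1.congr_deriv ?_
      rw [one_mul]
    obtain ⟨ξ, hξ, h1⟩ := exists_hasDerivAt_eq_slope (fun r => fF P N D e r)
      (fun r => qG P N D e - I1 D (r - e)) h
      (fun x _ => (hder x).continuousAt.continuousWithinAt) (fun x _ => hder x)
    have h2 := hd ξ hξ.1.le
    have h3 : 0 < r2 - r1 := by linarith
    rw [eq_div_iff h3.ne'] at h1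
    nlinarith

private theorem ndc_P (h : P.Star) (hv : VS P N δ D) (hδ : 0 ≤ δ) (hδ1 : δ ≤ 0.03) (hΦ : Phi P N δ D ≤ 0)
    {m : ℕ} : ∀ (l : List ℕ) (k prev : ℕ), nodesP m k prev l = true →
    (k ≠ 0 → fF P N D (m / 20) (((k - 1 : ℕ) : ℝ) / 20) * 10^6 ≤ prev) →
    ∀ j < l.length, fF P N D (m / 20) (((k + j : ℕ) : ℝ) / 20) * 10^6 ≤ (l.getD j 0 : ℕ) := by
  intro l
  induction l with
  | nil => intro k prev _ _ j hj; simp at hj
  | cons A t ih =>
    intro k prev hc hp j hj
    rw [nodesP, Bool.and_eq_true, Bool.and_eq_true, Bool.or_eq_true, Bool.or_eq_true, Nat.ble_eq,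
      Nat.ble_eq, Nat.beq_eq] at hc
    obtain ⟨⟨h1, h2⟩, h3⟩ := hc
    have h1' : (prev : ℝ) ≤ A := by exact_mod_cast h1
    have hm0 : (0:ℝ) ≤ m := Nat.cast_nonneg m
    have hA : fF P N D (m / 20) ((k : ℝ) / 20) * 10^6 ≤ A := by
      by_cases hk : k = 0
      · rw [hk, Nat.cast_zero, zero_div, ndc_zero, zero_mul]
        exact Nat.cast_nonneg A
      · by_cases hk2 : m + 37 ≤ k
        · have hp' := hp hk
          have h4 : ((k - 1 : ℕ) : ℝ) = k - 1 := by
            rw [Nat.cast_sub (by omega), Nat.cast_one]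
          have h5 : (m:ℝ) + 37 ≤ k := by exact_mod_cast hk2
          rw [h4] at hp'
          have h6 := ndc_decr (P := P) (N := N) hv.pf (e := (m:ℝ)/20) (r1 := ((k:ℝ) - 1)/20) (r2 := (k:ℝ)/20)
            (by linarith) (fun r hr => decr_pos h hv hδ hδ1 (by positivity) (by linarith))
          linarith
        · rcases h2 with (h2 | h2) | h2
          · exact absurd h2 hk2
          · exact absurd h2 hk
          · exact chkP_sound h hv hδ hδ1 hΦ (by omega) h2
    cases j with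
    | zero =>
      rw [List.getD_cons_zero, add_zero]
      exact hA
    | succ j =>
      rw [List.getD_cons_succ, show k + (j + 1) = (k + 1) + j by ring]
      refine ih (k + 1) A h3 (fun _ => ?_) j (by rw [List.length_cons] at hj; omega)
      rw [Nat.add_sub_cancel]
      exact hA

theorem nodesP_sound (h : P.Star) (hv : VS P N δ D) (hδ : 0 ≤ δ) (hδ1 : δ ≤ 0.03) (hΦ : Phi P N δ D ≤ 0)
    {m : ℕ} {l : List ℕ} (hc : nodesP m 0 0 l = true) :
    ∀ k < l.length, fF P N D (m / 20) (k / 20) * 10^6 ≤ (l.getD k 0 : ℕ) := by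
  intro k hk
  have := ndc_P h hv hδ hδ1 hΦ l 0 0 hc (fun h0 => absurd rfl h0) k hk
  rwa [zero_add] at this

private theorem ndc_N (h : P.Star) (hv : VS P N δ D) (hδ : 0 ≤ δ) (hδ1 : δ ≤ 0.03) (hΦ : Phi P N δ D ≤ 0)
    {a : ℕ} (ha : 1 ≤ a) (ha1 : a ≤ 9) : ∀ (l : List ℕ) (k prev : ℕ), nodesN a k prev l = true →
    (k ≠ 0 → fF P N D (-(a / 20)) (((k - 1 : ℕ) : ℝ) / 20) * 10^6 ≤ prev) →
    ∀ j < l.length, fF P N D (-(a / 20)) (((k + j : ℕ) : ℝ) / 20) * 10^6 ≤ (l.getD j 0 : ℕ) := by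
  intro l
  induction l with
  | nil => intro k prev _ _ j hj; simp at hj
  | cons A t ih =>
    intro k prev hc hp j hj
    rw [nodesN, Bool.and_eq_true, Bool.and_eq_true, Bool.or_eq_true, Bool.or_eq_true, Nat.ble_eq,
      Nat.ble_eq, Nat.beq_eq] at hc
    obtain ⟨⟨h1, h2⟩, h3⟩ := hc
    have h1' : (prev : ℝ) ≤ A := by exact_mod_cast h1
    have ha0 : (1:ℝ) ≤ a := by exact_mod_cast ha
    have ha9 : (a:ℝ) ≤ 9 := by exact_mod_cast ha1
    have hA : fF P N D (-(a / 20)) ((k : ℝ) / 20) * 10^6 ≤ A := by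
      by_cases hk : k = 0
      · rw [hk, Nat.cast_zero, zero_div, ndc_zero, zero_mul]
        exact Nat.cast_nonneg A
      · by_cases hk2 : 43 ≤ a + k
        · have hp' := hp hk
          have h4 : ((k - 1 : ℕ) : ℝ) = k - 1 := by
            rw [Nat.cast_sub (by omega), Nat.cast_one]
          have h5 : (43:ℝ) ≤ a + k := by exact_mod_cast hk2
          rw [h4] at hp'
          have h6 := ndc_decr (P := P) (N := N) hv.pf (e := -((a:ℝ)/20)) (r1 := ((k:ℝ) - 1)/20)
            (r2 := (k:ℝ)/20) (by linarith)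
            (fun r hr => decr_neg h hv hδ hδ1 (by linarith) (by linarith) (by linarith))
          linarith
        · rcases h2 with (h2 | h2) | h2
          · exact absurd h2 hk2
          · exact absurd h2 hk
          · exact chkN_sound h hv hδ hδ1 hΦ ha ha1 (by omega) h2
    cases j with
    | zero =>
      rw [List.getD_cons_zero, add_zero]
      exact hA
    | succ j =>
      rw [List.getD_cons_succ, show k + (j + 1) = (k + 1) + j by ring]
      refine ih (k + 1) A h3 (fun _ => ?_) j (by rw [List.length_cons] at hj; omega)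
      rw [Nat.add_sub_cancel]
      exact hA

theorem nodesN_sound (h : P.Star) (hv : VS P N δ D) (hδ : 0 ≤ δ) (hδ1 : δ ≤ 0.03) (hΦ : Phi P N δ D ≤ 0)
    {a : ℕ} (ha : 1 ≤ a) (ha1 : a ≤ 9) {l : List ℕ} (hc : nodesN a 0 0 l = true) :
    ∀ k < l.length, fF P N D (-(a / 20)) (k / 20) * 10^6 ≤ (l.getD k 0 : ℕ) := by
  intro k hk
  have := ndc_N h hv hδ hδ1 hΦ ha ha1 l 0 0 hc (fun h0 => absurd rfl h0) k hk
  rwa [zero_add] at this

end Pool.Agent.CDk
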