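import Pool.Agent.CDk.D.Chk
import Pool.Agent.CDk.Defs
import Pool.Agent.CDk.FV
import Pool.Agent.CDk.GAP

/-!
# PL: piecewise linear functions with nodes `k/20`, `k ≤ 62`

`pl l` is a sum of ramps, so `Pf` is immediate; on `[k/20, (k+1)/20]` it is affine. `tb` (Chk.lean) computes `(d_k, 40 I_k, 2400 J_k)`:
`I_{k+1} = I_k + (d_k + d_{k+1})/40`, `J_{k+1} = J_k + I_k/20 + (2 d_k + d_{k+1})/2400`.
-/

open MeasureTheory Set Filter Topology

namespace Pool.Agent.CDk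
open Chk

noncomputable def pl (l : List ℕ) (r : ℝ) : ℝ :=
  ∑ k ∈ Finset.range 62, ((l.getD (k+1) 0 : ℕ) - (l.getD k 0 : ℕ) : ℝ) * max 0 (min 1 (20 * r - k)) / 10^6

/-- nondecreasing list of length 63 starting with 0 -/
def MonoL (l : List ℕ) : Prop :=
  l.length = 63 ∧ l.getD 0 0 = 0 ∧ ∀ k < 62, l.getD k 0 ≤ l.getD (k+1) 0

private theorem pld_diff {l : List ℕ} (hl : MonoL l) {k : ℕ} (hk : k < 62) :
    (0:ℝ) ≤ ((l.getD (k+1) 0 : ℕ) - (l.getD k 0 : ℕ) : ℝ) := by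
  have h := hl.2.2 k hk
  have h2 : ((l.getD k 0 : ℕ) : ℝ) ≤ ((l.getD (k+1) 0 : ℕ) : ℝ) := by exact_mod_cast h
  linarith

theorem pl_pf {l : List ℕ} (hl : MonoL l) : Pf (pl l) := by
  refine ⟨?_, ?_, ?_⟩
  · unfold pl
    refine continuous_finsetSum _ (fun k _ => ?_)
    fun_prop
  · intro a b hab
    unfold pl
    refine Finset.sum_le_sum (fun k hk => ?_)
    have h1 := pld_diff hl (Finset.mem_range.mp hk)
    have h2 : max 0 (min 1 (20 * a - (k:ℝ))) ≤ max 0 (min 1 (20 * b - (k:ℝ))) :=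
      max_le_max le_rfl (min_le_min le_rfl (by linarith))
    have h3 := mul_le_mul_of_nonneg_left h2 h1
    exact div_le_div_of_nonneg_right h3 (by positivity)
  · intro y hy
    unfold pl
    refine Finset.sum_eq_zero (fun k _ => ?_)
    have hk : (0:ℝ) ≤ (k:ℝ) := Nat.cast_nonneg k
    have h1 : min 1 (20 * y - (k:ℝ)) ≤ 0 := le_trans (min_le_right _ _) (by linarith)
    rw [max_eq_left h1, mul_zero, zero_div]

/-- partial sums with saturated ramps -/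
private theorem pld_sat (l : List ℕ) {n : ℕ} {r : ℝ} (hr : (n:ℝ) ≤ 20 * r) :
    ∑ k ∈ Finset.range n, ((l.getD (k+1) 0 : ℕ) - (l.getD k 0 : ℕ) : ℝ) * max 0 (min 1 (20 * r - k)) / 10^6
      = ((l.getD n 0 : ℕ) - (l.getD 0 0 : ℕ) : ℝ) / 10^6 := by
  have h1 : ∀ k ∈ Finset.range n,
      ((l.getD (k+1) 0 : ℕ) - (l.getD k 0 : ℕ) : ℝ) * max 0 (min 1 (20 * r - k)) / 10^6
      = (fun k : ℕ => ((l.getD k 0 : ℕ) : ℝ) / 10^6) (k+1) - (fun k : ℕ => ((l.getD k 0 : ℕ) : ℝ) / 10^6) k := by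
    intro k hk
    have hk1 : ((k:ℝ)) + 1 ≤ (n:ℝ) := by exact_mod_cast Finset.mem_range.mp hk
    have h2 : min 1 (20 * r - (k:ℝ)) = 1 := min_eq_left (by linarith)
    rw [h2, max_eq_right (by norm_num)]
    ring
  rw [Finset.sum_congr rfl h1, Finset.sum_range_sub (fun k : ℕ => ((l.getD k 0 : ℕ) : ℝ) / 10^6) n]
  ring

theorem pl_cell {l : List ℕ} (hl : MonoL l) {k : ℕ} (hk : k < 62) {t : ℝ} (h0 : 0 ≤ t) (h1 : t ≤ 1) :
    pl l ((k + t) / 20) = ((1 - t) * (l.getD k 0 : ℕ) + t * (l.getD (k+1) 0 : ℕ)) / 10^6 := by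
  have e20 : 20 * (((k:ℝ) + t) / 20) = k + t := by ring
  unfold pl
  have hsplit : Finset.range 62 = Finset.range (k+1) ∪ Finset.Ico (k+1) 62 := by
    ext j
    simp only [Finset.mem_range, Finset.mem_union, Finset.mem_Ico]
    omega
  have hdisj : Disjoint (Finset.range (k+1)) (Finset.Ico (k+1) 62) := by
    rw [Finset.disjoint_left]
    intro j hj hj2
    simp only [Finset.mem_range, Finset.mem_Ico] at hj hj2
    omega
  rw [hsplit, Finset.sum_union hdisj, Finset.sum_range_succ, pld_sat l (by rw [e20]; linarith)]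
  have hz : ∑ j ∈ Finset.Ico (k+1) 62, ((l.getD (j+1) 0 : ℕ) - (l.getD j 0 : ℕ) : ℝ)
      * max 0 (min 1 (20 * (((k:ℝ) + t) / 20) - j)) / 10^6 = 0 := by
    refine Finset.sum_eq_zero (fun j hj => ?_)
    have hj1 : ((k:ℝ)) + 1 ≤ (j:ℝ) := by exact_mod_cast (Finset.mem_Ico.mp hj).1
    have h2 : min 1 (20 * (((k:ℝ) + t) / 20) - (j:ℝ)) ≤ 0 := le_trans (min_le_right _ _) (by rw [e20]; linarith)
    rw [max_eq_left h2, mul_zero, zero_div]
  rw [hz, e20]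
  have h3 : min 1 ((k:ℝ) + t - (k:ℝ)) = t := by
    rw [add_sub_cancel_left]; exact min_eq_right h1
  rw [h3, max_eq_right h0, hl.2.1]
  push_cast
  ring

theorem pl_node {l : List ℕ} (hl : MonoL l) {k : ℕ} (hk : k ≤ 62) :
    pl l (k / 20) = (l.getD k 0 : ℕ) / 10^6 := by
  rcases Nat.lt_or_ge k 62 with hk2 | hk2
  · have h := pl_cell hl hk2 (t := 0) le_rfl zero_le_one
    rw [add_zero] at h
    rw [h]
    ring
  · have hk3 : k = 62 := by omega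
    subst hk3
    have h := pl_cell hl (k := 61) (by norm_num) (t := 1) zero_le_one le_rfl
    have e1 : (((61:ℕ):ℝ) + 1) / 20 = ((62:ℕ):ℝ) / 20 := by norm_num
    rw [e1] at h
    rw [h]
    norm_num

theorem pl_const {l : List ℕ} (hl : MonoL l) {r : ℝ} (hr : 3.1 ≤ r) :
    pl l r = (l.getD 62 0 : ℕ) / 10^6 := by
  unfold pl
  rw [pld_sat l (n := 62) (by norm_num at hr ⊢; linarith), hl.2.1]
  push_cast
  ring

private theorem tb_len' : ∀ (l : List ℕ) (I J : ℕ), (tb I J l).length = l.length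
  | [], I, J => rfl
  | [d0], I, J => rfl
  | d0 :: d1 :: t, I, J => by
    rw [tb, List.length_cons, tb_len' (d1 :: t), List.length_cons, List.length_cons, List.length_cons]

theorem tb_len {l : List ℕ} (hl : l.length = 63) : (tb 0 0 l).length = 63 := by
  rw [tb_len', hl]

private theorem tb_fst' : ∀ (l : List ℕ) (I J k : ℕ), k < l.length →
    ((tb I J l).getD k (0,0,0)).1 = l.getD k 0
  | [], I, J, k, h => by simp at h
  | [d0], I, J, k, h => by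
    have hk : k = 0 := by simpa using h
    subst hk
    rfl
  | d0 :: d1 :: t, I, J, 0, h => rfl
  | d0 :: d1 :: t, I, J, k+1, h => by
    rw [tb, List.getD_cons_succ, List.getD_cons_succ]
    exact tb_fst' (d1 :: t) _ _ k (by simpa using h)

theorem tb_fst {l : List ℕ} (hl : MonoL l) {k : ℕ} (hk : k ≤ 62) :
    ((tb 0 0 l).getD k (0,0,0)).1 = l.getD k 0 :=
  tb_fst' l 0 0 k (by rw [hl.1]; omega)

private theorem tb_head (d : ℕ) (t : List ℕ) (I J : ℕ) : (tb I J (d :: t)).getD 0 (0,0,0) = (d, I, J) := by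
  cases t with
  | nil => rfl
  | cons a s => rfl

private theorem tb_rec : ∀ (l : List ℕ) (I J k : ℕ), k + 1 < l.length →
    ((tb I J l).getD (k+1) (0,0,0)).2.1 = ((tb I J l).getD k (0,0,0)).2.1 + l.getD k 0 + l.getD (k+1) 0 ∧
    ((tb I J l).getD (k+1) (0,0,0)).2.2 = ((tb I J l).getD k (0,0,0)).2.2
      + 3 * ((tb I J l).getD k (0,0,0)).2.1 + 2 * l.getD k 0 + l.getD (k+1) 0
  | [], I, J, k, h => by simp at h
  | [d0], I, J, k, h => by simp at h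
  | d0 :: d1 :: t, I, J, 0, h => by
    rw [tb, List.getD_cons_succ, tb_head]
    exact ⟨rfl, rfl⟩
  | d0 :: d1 :: t, I, J, k+1, h => by
    rw [tb, List.getD_cons_succ, List.getD_cons_succ, List.getD_cons_succ, List.getD_cons_succ]
    exact tb_rec (d1 :: t) _ _ k (by simpa using h)

/-- value of `pl` on a cell in the variable `r` -/
private theorem pld_cell_r {l : List ℕ} (hl : MonoL l) {k : ℕ} (hk : k < 62) {r : ℝ} (h0 : (k:ℝ) / 20 ≤ r)
    (h1 : r ≤ ((k:ℝ) + 1) / 20) :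
    pl l r = (l.getD k 0 : ℕ) / 10^6
      + (((l.getD (k+1) 0 : ℕ) : ℝ) - (l.getD k 0 : ℕ)) * 20 / 10^6 * (r - (k:ℝ) / 20) := by
  have h := pl_cell hl hk (t := 20 * r - k) (by linarith) (by linarith)
  rw [show ((k:ℝ) + (20 * r - k)) / 20 = r by ring] at h
  rw [h]
  ring

private theorem pld_I1_cell {l : List ℕ} (hl : MonoL l) {k : ℕ} (hk : k < 62) {r : ℝ} (h0 : (k:ℝ) / 20 ≤ r)
    (h1 : r ≤ ((k:ℝ) + 1) / 20) :
    I1 (pl l) r = I1 (pl l) ((k:ℝ) / 20) + (l.getD k 0 : ℕ) / 10^6 * (r - (k:ℝ) / 20)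
      + (((l.getD (k+1) 0 : ℕ) : ℝ) - (l.getD k 0 : ℕ)) * 10 / 10^6 * (r - (k:ℝ) / 20)^2 := by
  have hp := pl_pf hl
  have hA : I1 (pl l) r - I1 (pl l) ((k:ℝ) / 20) = ∫ t in ((k:ℝ) / 20)..r, pl l t := by
    unfold I1
    rw [← intervalIntegral.integral_add_adjacent_intervals (hp.cont.intervalIntegrable 0 ((k:ℝ)/20))
      (hp.cont.intervalIntegrable ((k:ℝ)/20) r)]
    ring
  have hB : ∫ t in ((k:ℝ) / 20)..r, pl l t
      = ∫ t in ((k:ℝ) / 20)..r, ((l.getD k 0 : ℕ) / 10^6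
      + (((l.getD (k+1) 0 : ℕ) : ℝ) - (l.getD k 0 : ℕ)) * 20 / 10^6 * (t - (k:ℝ) / 20)) := by
    apply intervalIntegral.integral_congr
    intro t ht
    rw [uIcc_of_le h0] at ht
    exact pld_cell_r hl hk ht.1 (le_trans ht.2 h1)
  have hC : ∫ t in ((k:ℝ) / 20)..r, ((l.getD k 0 : ℕ) / 10^6
      + (((l.getD (k+1) 0 : ℕ) : ℝ) - (l.getD k 0 : ℕ)) * 20 / 10^6 * (t - (k:ℝ) / 20))
      = (l.getD k 0 : ℕ) / 10^6 * (r - (k:ℝ) / 20)
      + (((l.getD (k+1) 0 : ℕ) : ℝ) - (l.getD k 0 : ℕ)) * 10 / 10^6 * (r - (k:ℝ) / 20)^2 := by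
    have hd : ∀ t ∈ uIcc ((k:ℝ)/20) r, HasDerivAt (fun t : ℝ => (l.getD k 0 : ℕ) / 10^6 * (t - (k:ℝ) / 20)
        + (((l.getD (k+1) 0 : ℕ) : ℝ) - (l.getD k 0 : ℕ)) * 10 / 10^6 * (t - (k:ℝ) / 20)^2)
        ((l.getD k 0 : ℕ) / 10^6
        + (((l.getD (k+1) 0 : ℕ) : ℝ) - (l.getD k 0 : ℕ)) * 20 / 10^6 * (t - (k:ℝ) / 20)) t := by
      intro t _
      have a1 : HasDerivAt (fun t : ℝ => t - (k:ℝ) / 20) 1 t := (hasDerivAt_id t).sub_const _
      have a2 := (a1.const_mul (((l.getD k 0 : ℕ) : ℝ) / 10^6)).add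
        ((a1.pow 2).const_mul ((((l.getD (k+1) 0 : ℕ) : ℝ) - (l.getD k 0 : ℕ)) * 10 / 10^6))
      refine a2.congr_deriv ?_
      push_cast
      ring
    rw [intervalIntegral.integral_eq_sub_of_hasDerivAt hd (Continuous.intervalIntegrable (by fun_prop) _ _)]
    ring
  linarith [hA, hB, hC]

private theorem pld_I2_cell {l : List ℕ} (hl : MonoL l) {k : ℕ} (hk : k < 62) {r : ℝ} (h0 : (k:ℝ) / 20 ≤ r)
    (h1 : r ≤ ((k:ℝ) + 1) / 20) :
    I2 (pl l) r = I2 (pl l) ((k:ℝ) / 20) + I1 (pl l) ((k:ℝ) / 20) * (r - (k:ℝ) / 20)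
      + (l.getD k 0 : ℕ) / (2 * 10^6) * (r - (k:ℝ) / 20)^2
      + (((l.getD (k+1) 0 : ℕ) : ℝ) - (l.getD k 0 : ℕ)) * 10 / (3 * 10^6) * (r - (k:ℝ) / 20)^3 := by
  have hp := I1_cont (pl_pf hl)
  have hA : I2 (pl l) r - I2 (pl l) ((k:ℝ) / 20) = ∫ t in ((k:ℝ) / 20)..r, I1 (pl l) t := by
    unfold I2
    rw [← intervalIntegral.integral_add_adjacent_intervals (hp.intervalIntegrable 0 ((k:ℝ)/20))
      (hp.intervalIntegrable ((k:ℝ)/20) r)]
    ring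
  have hB : ∫ t in ((k:ℝ) / 20)..r, I1 (pl l) t
      = ∫ t in ((k:ℝ) / 20)..r, (I1 (pl l) ((k:ℝ) / 20) + (l.getD k 0 : ℕ) / 10^6 * (t - (k:ℝ) / 20)
      + (((l.getD (k+1) 0 : ℕ) : ℝ) - (l.getD k 0 : ℕ)) * 10 / 10^6 * (t - (k:ℝ) / 20)^2) := by
    apply intervalIntegral.integral_congr
    intro t ht
    rw [uIcc_of_le h0] at ht
    exact pld_I1_cell hl hk ht.1 (le_trans ht.2 h1)
  have hC : ∫ t in ((k:ℝ) / 20)..r, (I1 (pl l) ((k:ℝ) / 20) + (l.getD k 0 : ℕ) / 10^6 * (t - (k:ℝ) / 20)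
      + (((l.getD (k+1) 0 : ℕ) : ℝ) - (l.getD k 0 : ℕ)) * 10 / 10^6 * (t - (k:ℝ) / 20)^2)
      = I1 (pl l) ((k:ℝ) / 20) * (r - (k:ℝ) / 20)
      + (l.getD k 0 : ℕ) / (2 * 10^6) * (r - (k:ℝ) / 20)^2
      + (((l.getD (k+1) 0 : ℕ) : ℝ) - (l.getD k 0 : ℕ)) * 10 / (3 * 10^6) * (r - (k:ℝ) / 20)^3 := by
    have hd : ∀ t ∈ uIcc ((k:ℝ)/20) r, HasDerivAt (fun t : ℝ => I1 (pl l) ((k:ℝ) / 20) * (t - (k:ℝ) / 20)
        + (l.getD k 0 : ℕ) / (2 * 10^6) * (t - (k:ℝ) / 20)^2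
        + (((l.getD (k+1) 0 : ℕ) : ℝ) - (l.getD k 0 : ℕ)) * 10 / (3 * 10^6) * (t - (k:ℝ) / 20)^3)
        (I1 (pl l) ((k:ℝ) / 20) + (l.getD k 0 : ℕ) / 10^6 * (t - (k:ℝ) / 20)
        + (((l.getD (k+1) 0 : ℕ) : ℝ) - (l.getD k 0 : ℕ)) * 10 / 10^6 * (t - (k:ℝ) / 20)^2) t := by
      intro t _
      have a1 : HasDerivAt (fun t : ℝ => t - (k:ℝ) / 20) 1 t := (hasDerivAt_id t).sub_const _
      have a2 := ((a1.const_mul (I1 (pl l) ((k:ℝ) / 20))).add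
        ((a1.pow 2).const_mul (((l.getD k 0 : ℕ) : ℝ) / (2 * 10^6)))).add
        ((a1.pow 3).const_mul ((((l.getD (k+1) 0 : ℕ) : ℝ) - (l.getD k 0 : ℕ)) * 10 / (3 * 10^6)))
      refine a2.congr_deriv ?_
      push_cast
      ring
    rw [intervalIntegral.integral_eq_sub_of_hasDerivAt hd (Continuous.intervalIntegrable (by fun_prop) _ _)]
    ring
  linarith [hA, hB, hC]

theorem pl_I1 {l : List ℕ} (hl : MonoL l) {k : ℕ} (hk : k ≤ 62) :
    I1 (pl l) (k / 20) = (((tb 0 0 l).getD k (0,0,0)).2.1 : ℕ) / (40 * 10^6) := by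
  induction k with
  | zero =>
    have h1 : (tb 0 0 l).getD 0 (0,0,0) = (l.getD 0 0, 0, 0) := by
      cases l with
      | nil => exact absurd hl.1 (by simp)
      | cons a s => rw [tb_head]; rfl
    rw [h1]
    simp [I1]
  | succ k ih =>
    have h1 := pld_I1_cell hl (k := k) (by omega) (r := ((k:ℝ) + 1) / 20) (by linarith) le_rfl
    have h2 := (tb_rec l 0 0 k (by rw [hl.1]; omega)).1
    rw [h2]
    push_cast
    rw [h1, ih (by omega)]
    ring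

theorem pl_I2 {l : List ℕ} (hl : MonoL l) {k : ℕ} (hk : k ≤ 62) :
    I2 (pl l) (k / 20) = (((tb 0 0 l).getD k (0,0,0)).2.2 : ℕ) / (2400 * 10^6) := by
  induction k with
  | zero =>
    have h1 : (tb 0 0 l).getD 0 (0,0,0) = (l.getD 0 0, 0, 0) := by
      cases l with
      | nil => exact absurd hl.1 (by simp)
      | cons a s => rw [tb_head]; rfl
    rw [h1]
    simp [I2]
  | succ k ih =>
    have h1 := pld_I2_cell hl (k := k) (by omega) (r := ((k:ℝ) + 1) / 20) (by linarith) le_rfl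
    have h2 := (tb_rec l 0 0 k (by rw [hl.1]; omega)).2
    rw [h2]
    push_cast
    rw [h1, ih (by omega), pl_I1 hl (by omega)]
    ring

private theorem pld_cdiv (a : ℕ) {b : ℕ} (hb : 0 < b) : (a : ℝ) / b ≤ (cdiv a b : ℕ) := by
  have hb' : (0:ℝ) < b := by exact_mod_cast hb
  rw [div_le_iff₀ hb']
  have h1 : a ≤ cdiv a b * b := by
    unfold cdiv
    have h2 := Nat.div_add_mod (a + b - 1) b
    have h3 := Nat.mod_lt (a + b - 1) hb
    have h4 : (a + b - 1) / b * b = b * ((a + b - 1) / b) := mul_comm _ _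
    omega
  exact_mod_cast h1

/-- `2.543961 < Y < 2.543965`: `J_50 + I_50 t + d t^2/2`, `t = Y - 2.5`, `d` between `d_50` and `d_51` -/
theorem pl_JY {P : Par} (h : P.Star) {l : List ℕ} (hl : MonoL l) :
    (JYL (tb 0 0 l) : ℝ) ≤ 2400 * 10^6 * I2 (pl l) P.Y ∧ 2400 * 10^6 * I2 (pl l) P.Y ≤ JYU (tb 0 0 l) := by
  have hY1 : 2.543961 ≤ P.Y := by unfold Par.Y; linarith [h.ρ_lo, h.u_lo]
  have hY2 : P.Y ≤ 2.543965 := by unfold Par.Y; linarith [h.ρ_hi, h.u_hi]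
  norm_num at hY1 hY2
  have hc := pld_I2_cell hl (k := 50) (by norm_num) (r := P.Y) (by norm_num; linarith) (by norm_num; linarith)
  have h1 := pl_I1 hl (k := 50) (by norm_num)
  have h2 := pl_I2 hl (k := 50) (by norm_num)
  rw [h1, h2] at hc
  have e50 : ((50:ℕ):ℝ) / 20 = 5 / 2 := by norm_num
  rw [e50] at hc
  have f50 := tb_fst hl (k := 50) (by norm_num)
  have f51 := tb_fst hl (k := 51) (by norm_num)
  have hd : (0:ℝ) ≤ ((l.getD 51 0 : ℕ) - (l.getD 50 0 : ℕ) : ℝ) := pld_diff hl (k := 50) (by norm_num)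
  have hc' : 2400 * 10^6 * I2 (pl l) P.Y = (((tb 0 0 l).getD 50 (0,0,0)).2.2 : ℕ)
      + 60 * (P.Y - 5/2) * (((tb 0 0 l).getD 50 (0,0,0)).2.1 : ℕ)
      + 1200 * (P.Y - 5/2)^2 * (l.getD 50 0 : ℕ)
      + 8000 * (P.Y - 5/2)^3 * (((l.getD 51 0 : ℕ) : ℝ) - (l.getD 50 0 : ℕ)) := by
    rw [hc]
    norm_num
    ring
  rw [hc']
  have u0 : (0:ℝ) ≤ (((tb 0 0 l).getD 50 (0,0,0)).2.1 : ℕ) := Nat.cast_nonneg _
  have u1 : (0:ℝ) ≤ ((l.getD 50 0 : ℕ) : ℝ) := Nat.cast_nonneg _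
  have t0 : 0 ≤ P.Y - 5/2 := by linarith
  have t1 : P.Y - 5/2 ≤ 43965 / 10^6 := by norm_num; linarith
  have t2 : 43961 / 10^6 ≤ P.Y - 5/2 := by norm_num; linarith
  set τ := P.Y - 5/2 with hτ
  clear_value τ
  have s1 : τ^2 ≤ (43965 / 10^6)^2 := pow_le_pow_left₀ t0 t1 2
  have s2 : (43961 / 10^6)^2 ≤ τ^2 := pow_le_pow_left₀ (by norm_num) t2 2
  constructor
  · unfold JYL
    rw [f50]
    push_cast
    have a1 : (((263766 * ((tb 0 0 l).getD 50 (0,0,0)).2.1 / 100000 : ℕ)) : ℝ)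
        ≤ (263766 * ((tb 0 0 l).getD 50 (0,0,0)).2.1 : ℕ) / (100000 : ℕ) := Nat.cast_div_le
    have a2 : (((23190 * l.getD 50 0 / 10000 : ℕ)) : ℝ)
        ≤ (23190 * l.getD 50 0 : ℕ) / (10000 : ℕ) := Nat.cast_div_le
    push_cast at a1 a2
    have b1 : 263766 / 100000 * ((((tb 0 0 l).getD 50 (0,0,0)).2.1 : ℕ) : ℝ)
        ≤ 60 * τ * (((tb 0 0 l).getD 50 (0,0,0)).2.1 : ℕ) := by
      apply mul_le_mul_of_nonneg_right _ u0
      norm_num at t2 ⊢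
      linarith
    have b2 : 23190 / 10000 * ((l.getD 50 0 : ℕ) : ℝ) ≤ 1200 * τ^2 * (l.getD 50 0 : ℕ) := by
      apply mul_le_mul_of_nonneg_right _ u1
      norm_num at s2 ⊢
      linarith
    have b3 : 0 ≤ 8000 * τ^3 * (((l.getD 51 0 : ℕ) : ℝ) - (l.getD 50 0 : ℕ)) := by
      apply mul_nonneg (by positivity)
      linarith
    have c1 : (263766 * ((((tb 0 0 l).getD 50 (0,0,0)).2.1 : ℕ) : ℝ)) / 100000
        = 263766 / 100000 * ((((tb 0 0 l).getD 50 (0,0,0)).2.1 : ℕ) : ℝ) := by ring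
    have c2 : (23190 * ((l.getD 50 0 : ℕ) : ℝ)) / 10000 = 23190 / 10000 * ((l.getD 50 0 : ℕ) : ℝ) := by ring
    rw [c1] at a1
    rw [c2] at a2
    linarith
  · unfold JYU
    rw [f51]
    push_cast
    have a1 := pld_cdiv (26379 * ((tb 0 0 l).getD 50 (0,0,0)).2.1) (b := 10000) (by norm_num)
    have a2 := pld_cdiv (23196 * l.getD 51 0) (b := 10000) (by norm_num)
    push_cast at a1 a2
    have b1 : 60 * τ * (((tb 0 0 l).getD 50 (0,0,0)).2.1 : ℕ)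
        ≤ 26379 / 10000 * ((((tb 0 0 l).getD 50 (0,0,0)).2.1 : ℕ) : ℝ) := by
      apply mul_le_mul_of_nonneg_right _ u0
      norm_num at t1 ⊢
      linarith
    have b3 : 8000 * τ^3 * (((l.getD 51 0 : ℕ) : ℝ) - (l.getD 50 0 : ℕ))
        ≤ 1200 * τ^2 * (((l.getD 51 0 : ℕ) : ℝ) - (l.getD 50 0 : ℕ)) := by
      apply mul_le_mul_of_nonneg_right _ (by linarith)
      have : 0 ≤ τ^2 * (1200 - 8000 * τ) := by
        apply mul_nonneg (sq_nonneg _)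
        norm_num at t1
        linarith
      nlinarith [this]
    have b2 : 1200 * τ^2 * ((l.getD 51 0 : ℕ) : ℝ) ≤ 23196 / 10000 * ((l.getD 51 0 : ℕ) : ℝ) := by
      apply mul_le_mul_of_nonneg_right _ (Nat.cast_nonneg _)
      norm_num at s1 ⊢
      linarith
    have c1 : (26379 * ((((tb 0 0 l).getD 50 (0,0,0)).2.1 : ℕ) : ℝ)) / 10000
        = 26379 / 10000 * ((((tb 0 0 l).getD 50 (0,0,0)).2.1 : ℕ) : ℝ) := by ring
    have c2 : (23196 * ((l.getD 51 0 : ℕ) : ℝ)) / 10000 = 23196 / 10000 * ((l.getD 51 0 : ℕ) : ℝ) := by ring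
    rw [c1] at a1
    rw [c2] at a2
    linarith [b1, b2, b3, a1, a2]

end Pool.Agent.CDk
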