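import Pool.Agent.CDk.D.CELLa
import Pool.Agent.CDk.D.CELLb
import Pool.Agent.CDk.D.COUP
import Pool.Agent.CDk.D.Chk
import Pool.Agent.CDk.D.D0
import Pool.Agent.CDk.D.GDL
import Pool.Agent.CDk.D.NODEa
import Pool.Agent.CDk.D.NODEb
import Pool.Agent.CDk.D.NODEc
import Pool.Agent.CDk.D.PLd
import Pool.Agent.CDk.D.Tab
import Pool.Agent.CDk.D.TabSc
import Pool.Agent.CDk.Defs
import Pool.Agent.CDk.FNa
import Pool.Agent.CDk.FV
import Pool.Agent.CDk.FVq
import Pool.Agent.CDk.GAP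
import Pool.Agent.CDk.STR

/-!
# CELLc: from node bounds to templates

`GD e r = fF e r'` with `r' ≤ r` and (`r' = 0` or) `I1 D(r'-e) ≤ qG` (`GD_att`), so `r' - e < 1.8` (`decr_pos`), resp. `< 2.1` (`decr_neg`). So `r'` is in a cell
`[k/20,(k+1)/20]` with `k + 1 ≤ m' + 36` (resp. `a + k + 1 ≤ 43`), and the checks `goP`, `goN` bound the node values: at node `k` the check covers
`max (u_k) (v_k)` (chord in `e` between the nodes `m/20`, `m'/20`, error `Ct (k - m) (m'-m)^2/3200`) plus the chord error in `r` on both adjacent cells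
(`Ct (k+1-m)/3200`, and `/800` for the first cell). Then `pl X` is affine on cells (`pl_cell`) and nondecreasing, and `X ≤ qt` entrywise.
`gV e = sg N/(Y+e) ≤ 0.521692 * 1.2155/(Y + m/20)` for `e ≥ 0` (`N_hi`).
-/

open MeasureTheory Set Filter Topology

namespace Pool.Agent.CDk
open Tab Chk
variable {P : Par} {N δ : ℝ} {D : ℝ → ℝ}

private theorem CELLc_loc {r : ℝ} (h0 : 0 ≤ r) (h1 : r ≤ 3.1) :
    ∃ k : ℕ, k < 62 ∧ ∃ t : ℝ, 0 ≤ t ∧ t ≤ 1 ∧ r = ((k : ℝ) + t) / 20 := by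
  rcases lt_or_ge (20 * r) 62 with h | h
  · refine ⟨⌊20 * r⌋₊, (Nat.floor_lt (by positivity)).2 (by exact_mod_cast h), 20 * r - ⌊20 * r⌋₊,
      sub_nonneg.2 (Nat.floor_le (by positivity)), ?_, by ring⟩
    have := Nat.lt_floor_add_one (20 * r)
    linarith
  · refine ⟨61, by norm_num, 1, by norm_num, le_rfl, ?_⟩
    push_cast
    norm_num at h1 ⊢
    linarith

private theorem CELLc_cdiv {a b : ℕ} (hb : 0 < b) : (a : ℝ) / b ≤ (cdiv a b : ℕ) := by
  have h1 : a ≤ cdiv a b * b := by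
    unfold cdiv
    have h2 := Nat.div_add_mod (a + b - 1) b
    have h3 := Nat.mod_lt (a + b - 1) hb
    rw [mul_comm]
    omega
  rw [div_le_iff₀ (by exact_mod_cast hb)]
  exact_mod_cast h1

private theorem CELLc_main {P : Par} {N : ℝ} {D : ℝ → ℝ} (h : P.Star) (hD : Pf D)
    (hI : I2 D P.Y ≤ N) {X : List ℕ} (hX : MonoL X) {e0 e1 e : ℝ} (h0 : e0 ≤ e) (h1 : e ≤ e1)
    (h01 : e0 < e1) (hY : 0 < P.Y + e0) {J : ℕ} (U V C : ℕ → ℝ)
    (hU : ∀ j : ℕ, 1 ≤ j → j ≤ J → fF P N D e0 (j / 20) * 10^6 ≤ U j)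
    (hV : ∀ j : ℕ, 1 ≤ j → j ≤ J → fF P N D e1 (j / 20) * 10^6 ≤ V j)
    (hC : ∀ j : ℕ, 1 ≤ j → j ≤ J → D (j / 20 - e0) * 10^6 ≤ C j)
    (hCm : ∀ j : ℕ, 1 ≤ j → j ≤ J → C j ≤ C (j + 1))
    (hc : ∀ j : ℕ, 1 ≤ j → j ≤ J → 1.0002 * (max (U j) (V j) + C j * (400 * (e1 - e0)^2) / 3200
      + (if j = 1 then 4 else 1) * C (j + 1) / 3200) ≤ (X.getD j 0 : ℕ))
    {k : ℕ} (hk : k < 62) (hkJ : k + 1 ≤ J) {t : ℝ} (ht0 : 0 ≤ t) (ht1 : t ≤ 1) :
    1.0002 * fF P N D e ((k + t) / 20) ≤ pl X ((k + t) / 20) := by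
  have hd : 0 < e1 - e0 := sub_pos.2 h01
  -- node bounds
  have hn : ∀ j : ℕ, 1 ≤ j → j ≤ J → fF P N D e (j / 20) * 10^6 ≤
      max (U j) (V j) + C j * (400 * (e1 - e0)^2) / 3200 := by
    intro j hj hjJ
    have hs0 : 0 ≤ (e - e0) / (e1 - e0) := div_nonneg (sub_nonneg.2 h0) hd.le
    have hs1 : (e - e0) / (e1 - e0) ≤ 1 := by
      rw [div_le_one hd]
      linarith
    have he : (1 - (e - e0) / (e1 - e0)) * e0 + (e - e0) / (e1 - e0) * e1 = e := by
      field_simp
      ring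
    have h2 := chord_e (N := N) h hD hI h01.le hY hs0 hs1 (r := (j : ℝ) / 20)
      (C := C j / 10^6) (by positivity) (by
        rw [le_div_iff₀ (by norm_num)]
        exact hC j hj hjJ)
    rw [he] at h2
    have h3 := hU j hj hjJ
    have h4 := hV j hj hjJ
    set s := (e - e0) / (e1 - e0) with hs
    have h5 : (1 - s) * (fF P N D e0 (j / 20) * 10^6) ≤ (1 - s) * max (U j) (V j) :=
      mul_le_mul_of_nonneg_left (h3.trans (le_max_left _ _)) (by linarith)
    have h6 : s * (fF P N D e1 (j / 20) * 10^6) ≤ s * max (U j) (V j) :=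
      mul_le_mul_of_nonneg_left (h4.trans (le_max_right _ _)) hs0
    have h7 : fF P N D e (j / 20) * 10^6 ≤ (1 - s) * (fF P N D e0 (j / 20) * 10^6) +
        s * (fF P N D e1 (j / 20) * 10^6) + C j * (400 * (e1 - e0)^2) / 3200 := by
      have h8 := mul_le_mul_of_nonneg_right h2 (show (0:ℝ) ≤ 10^6 by norm_num)
      refine h8.trans (le_of_eq ?_)
      ring
    linarith
  have hC0 : ∀ j : ℕ, 1 ≤ j → j ≤ J → 0 ≤ C j := fun j hj hjJ =>
    (mul_nonneg (hD.nonneg _) (by norm_num)).trans (hC j hj hjJ)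
  have hk1 : 1 ≤ k + 1 := Nat.le_add_left 1 k
  have hCk := hC (k + 1) hk1 hkJ
  have hCk' : D ((k + 1) / 20 - e) ≤ C (k + 1) / 10^6 := by
    rw [le_div_iff₀ (by norm_num)]
    refine le_trans ?_ hCk
    refine mul_le_mul_of_nonneg_right (hD.mono ?_) (by norm_num)
    push_cast
    linarith
  rw [pl_cell hX hk ht0 ht1]
  rcases Nat.eq_zero_or_pos k with hk0 | hk0
  · subst hk0
    have h2 := chord_r0 (P := P) (N := N) hD ht0 ht1 (e := e) (C := C (0 + 1) / 10^6) (by
      have := hCk'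
      norm_num at this ⊢
      exact this)
    have h3 := hn (0 + 1) hk1 hkJ
    have h4 := hc (0 + 1) hk1 hkJ
    have h5 := hCm (0 + 1) hk1 hkJ
    have h6 := hX.2.1
    rw [if_pos rfl] at h4
    rw [h6]
    have h7 : (((0 : ℕ) : ℝ) + t) / 20 = t / 20 := by norm_num
    rw [h7]
    have h8 : (((0 + 1 : ℕ) : ℝ)) / 20 = 1 / 20 := by norm_num
    rw [h8] at h3
    have h9 : 1.0002 * (fF P N D e (1 / 20) + C (0 + 1) / 10^6 / 800) ≤
        ((X.getD (0 + 1) 0 : ℕ) : ℝ) / 10^6 := by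
      rw [le_div_iff₀ (by norm_num)]
      refine le_trans ?_ h4
      have h10 : 1.0002 * (fF P N D e (1 / 20) + C (0 + 1) / 10^6 / 800) * 10^6 =
        1.0002 * (fF P N D e (1 / 20) * 10^6 + 4 * C (0 + 1) / 3200) := by ring
      rw [h10]
      refine mul_le_mul_of_nonneg_left ?_ (by norm_num)
      linarith
    have h11 := mul_le_mul_of_nonneg_left h9 ht0
    have h12 := mul_le_mul_of_nonneg_left h2 (show (0:ℝ) ≤ 1.0002 by norm_num)
    refine h12.trans ?_
    have h13 : 1.0002 * (t * (fF P N D e (1 / 20) + C (0 + 1) / 10^6 / 800)) =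
      t * (1.0002 * (fF P N D e (1 / 20) + C (0 + 1) / 10^6 / 800)) := by ring
    rw [h13]
    refine h11.trans (le_of_eq ?_)
    push_cast
    ring
  · have h2 := chord_r (P := P) (N := N) hD ht0 ht1 (e := e) (k := k) hCk'
    have h3 := hn k hk0 (by omega)
    have h4 := hc k hk0 (by omega)
    have h5 := hn (k + 1) hk1 hkJ
    have h6 := hc (k + 1) hk1 hkJ
    have h7 := hCm (k + 1) hk1 hkJ
    have h8 := hC0 (k + 1) hk1 hkJ
    rw [if_neg (by omega)] at h6
    have h9 : (fF P N D e (k / 20) * 10^6 + C (k + 1) / 3200) * 1.0002 ≤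
        ((X.getD k 0 : ℕ) : ℝ) := by
      refine le_trans ?_ h4
      rw [mul_comm]
      refine mul_le_mul_of_nonneg_left ?_ (by norm_num)
      have h10 : C (k + 1) / 3200 ≤ (if k = 1 then 4 else 1) * C (k + 1) / 3200 := by
        split_ifs <;> linarith
      linarith
    have h10 : (fF P N D e ((k + 1) / 20) * 10^6 + C (k + 1) / 3200) * 1.0002 ≤
        ((X.getD (k + 1) 0 : ℕ) : ℝ) := by
      refine le_trans ?_ h6
      rw [mul_comm]
      refine mul_le_mul_of_nonneg_left ?_ (by norm_num)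
      push_cast at h5
      linarith
    have h11 := mul_le_mul_of_nonneg_left h9 (show (0:ℝ) ≤ 1 - t by linarith)
    have h12 := mul_le_mul_of_nonneg_left h10 ht0
    rw [le_div_iff₀ (by norm_num)]
    have h13 := mul_le_mul_of_nonneg_left h2 (show (0:ℝ) ≤ 1.0002 * 10^6 by norm_num)
    refine le_trans (le_of_eq ?_) (h13.trans ((le_of_eq ?_).trans (add_le_add h11 h12)))
    · ring
    · ring

private theorem CELLc_tail {l : List ℕ} {i : ℕ} : l.tail.getD i 0 = l.getD (i + 1) 0 := by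
  cases l <;> simp

private theorem CELLc_Ct1 : ∀ i < 44, Ct.getD i 0 ≤ Ct.getD (i + 1) 0 := by decide

private theorem CELLc_Ct {i j : ℕ} (hij : i ≤ j) (hj : j ≤ 44) : Ct.getD i 0 ≤ Ct.getD j 0 := by
  induction j, hij using Nat.le_induction with
  | base => exact le_rfl
  | succ j hij ih => exact (ih (by omega)).trans (CELLc_Ct1 j (by omega))

private theorem CELLc_qt : MonoL qt := by
  refine ⟨by decide, by decide, by decide⟩

private theorem CELLc_goP {m m' : ℕ} : ∀ (U V X Q : List ℕ) (k prev : ℕ),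
    goP m m' k prev U V X Q = true → ∀ j < U.length, X.getD j 0 ≤ Q.getD j 0 ∧ (m' + 37 ≤ k + j ∨
      10002 * (3200 * max (U.getD j 0) (V.getD j 0) + (if k + j = 1 then 4 else 1) *
        Ct.getD (min (k + j + 1 - m) 44) 0 + Ct.getD (min (k + j - m) 44) 0 * (m' - m)^2)
        ≤ 32000000 * X.getD j 0) := by
  intro U
  induction U with
  | nil => intro V X Q k prev _ j hj; exact absurd hj (Nat.not_lt_zero _)
  | cons u U ih =>
    intro V X Q k prev h j hj
    rcases V with _ | ⟨v, V⟩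
    · simp [goP] at h
    rcases X with _ | ⟨x, X⟩
    · simp [goP] at h
    rcases Q with _ | ⟨q, Q⟩
    · simp [goP] at h
    simp only [goP, Bool.and_eq_true, Bool.or_eq_true, Nat.ble_eq] at h
    obtain ⟨⟨⟨h1, h2⟩, h3⟩, h4⟩ := h
    cases j with
    | zero => exact ⟨h2, h3⟩
    | succ j =>
      have h5 := ih V X Q (k + 1) x h4 j (Nat.lt_of_succ_lt_succ hj)
      rw [show k + 1 + j = k + (j + 1) by ring] at h5
      exact h5

private theorem CELLc_goN {a : ℕ} : ∀ (U V X Q : List ℕ) (k prev : ℕ),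
    goN a k prev U V X Q = true → ∀ j < U.length, X.getD j 0 ≤ Q.getD j 0 ∧ (44 ≤ a + (k + j) ∨
      10002 * (3200 * max (U.getD j 0) (V.getD j 0) + (if k + j = 1 then 4 else 1) *
        Ct.getD (min (k + j + 1 + a) 44) 0 + Ct.getD (min (k + j + a) 44) 0)
        ≤ 32000000 * X.getD j 0) := by
  intro U
  induction U with
  | nil => intro V X Q k prev _ j hj; exact absurd hj (Nat.not_lt_zero _)
  | cons u U ih =>
    intro V X Q k prev h j hj
    rcases V with _ | ⟨v, V⟩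
    · simp [goN] at h
    rcases X with _ | ⟨x, X⟩
    · simp [goN] at h
    rcases Q with _ | ⟨q, Q⟩
    · simp [goN] at h
    simp only [goN, Bool.and_eq_true, Bool.or_eq_true, Nat.ble_eq] at h
    obtain ⟨⟨⟨h1, h2⟩, h3⟩, h4⟩ := h
    cases j with
    | zero => exact ⟨h2, h3⟩
    | succ j =>
      have h5 := ih V X Q (k + 1) x h4 j (Nat.lt_of_succ_lt_succ hj)
      rw [show k + 1 + j = k + (j + 1) by ring] at h5
      exact h5

private theorem CELLc_le {X : List ℕ} (hX : MonoL X) (hq : ∀ j ≤ 62, X.getD j 0 ≤ qt.getD j 0)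
    {r : ℝ} (h0 : 0 ≤ r) (h1 : r ≤ 3.1) : pl X r ≤ pl qt r := by
  obtain ⟨k, hk, t, ht0, ht1, rfl⟩ := CELLc_loc h0 h1
  rw [pl_cell hX hk ht0 ht1, pl_cell CELLc_qt hk ht0 ht1]
  refine div_le_div_of_nonneg_right (add_le_add (mul_le_mul_of_nonneg_left ?_ (by linarith))
    (mul_le_mul_of_nonneg_left ?_ ht0)) (by norm_num)
  · exact_mod_cast hq k (by omega)
  · exact_mod_cast hq (k + 1) (by omega)

private theorem CELLc_zero {X : List ℕ} (hX : MonoL X) {e : ℝ} :
    1.0002 * fF P N D e 0 ≤ pl X 0 := by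
  have h1 : fF P N D e 0 = 0 := by
    unfold fF
    simp
  rw [h1, mul_zero]
  exact (pl_pf hX).nonneg 0

private theorem CELLc_gV (h : P.Star) (hN0 : 0 < N) (hN : N ≤ 1.2155) (hD : Pf D) {e : ℝ} {m : ℕ}
    (he : (m : ℝ) / 20 ≤ e) : gV P N D e * 10^6 ≤
      (cdiv (12155 * 521692 * 200) (5087922 + 100000 * m) : ℕ) := by
  have hY := (Par.Y_pos h).1
  have he0 : 0 ≤ e := le_trans (by positivity) he
  obtain ⟨-, -, q3, -⟩ := qG_pos_e (N := N) h hD he0
  have hsg := (sg_tab h).2.1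
  have hsg0 := (sg_tab h).1
  have hS : (0:ℝ) < 5087922 + 100000 * m := by positivity
  have h1 : (5087922 + 100000 * (m : ℝ)) / (2 * 10^6) ≤ P.Y + e := by
    rw [div_le_iff₀ (by norm_num)]
    norm_num at hY ⊢
    linarith
  have h2 : gV P N D e * 10^6 ≤ 12155 * 521692 * 200 / (5087922 + 100000 * m) := by
    rw [q3, Fq_eq]
    unfold Par.q
    have h3 : P.sg * (N * (1 / (P.Y + e))) * 10^6 = (P.sg * 10^6) * N / (P.Y + e) := by ring
    rw [h3]
    have h4 : (P.sg * 10^6) * N ≤ 521692 * 1.2155 :=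
      mul_le_mul hsg hN hN0.le (by norm_num)
    refine (div_le_div₀ (by norm_num) h4 (by positivity) h1).trans (le_of_eq ?_)
    rw [div_div_eq_mul_div]
    norm_num
  refine h2.trans ?_
  have h5 := CELLc_cdiv (a := 12155 * 521692 * 200) (b := 5087922 + 100000 * m) (by positivity)
  refine le_trans (le_of_eq ?_) h5
  norm_num

theorem cellP_sound (h : P.Star) (hv : VS2 P N δ D) (hδ : 0 ≤ δ) (hδ1 : δ ≤ 0.03) (hΦ : Phi P N δ D ≤ 0)
    (hC : chkC = true) {m m' xv : ℕ} {u v X : List ℕ} (hu : nodesP m 0 0 u = true) (hv' : nodesP m' 0 0 v = true)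
    (hX : cellP m m' u v X xv = true) (hXm : MonoL X) (hul : u.length = 63) (hvl : v.length = 63) {e : ℝ} (he : (m : ℝ) / 20 ≤ e)
    (he1 : e ≤ m' / 20) : 1.0002 * gV P N D e ≤ xv / 10^6 ∧ ∀ r, 0 ≤ r → r ≤ 3.1 →
      1.0002 * GD P N D e r ≤ pl X r ∧ 1.0002 * GD P N D e r ≤ pl qt r := by
  have hD := hv.pf
  have hN0 := hv.pos
  have hI : I2 D P.Y ≤ N := by
    have := hv.op
    linarith
  have hN := N_hi h hv.toVS hδ hδ1 hΦ
  have he0 : 0 ≤ e := le_trans (by positivity) he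
  have hYp := (Par.Y_pos h).1
  simp only [cellP, Bool.and_eq_true, Nat.ble_eq, Nat.blt_eq] at hX
  obtain ⟨⟨⟨hmm, hm4⟩, hgo⟩, hxv⟩ := hX
  refine ⟨?_, ?_⟩
  · have h1 := CELLc_gV (N := N) h hN0 hN hD he
    have h2 : (10002 : ℝ) * (cdiv (12155 * 521692 * 200) (5087922 + 100000 * m) : ℕ) ≤ 10000 * xv := by
      exact_mod_cast hxv
    rw [le_div_iff₀ (by norm_num)]
    linarith
  · have hg : ∀ j : ℕ, 1 ≤ j → j ≤ 62 → X.getD j 0 ≤ qt.getD j 0 ∧ (m' + 37 ≤ j ∨
        10002 * (3200 * max (u.getD j 0) (v.getD j 0) + (if j = 1 then 4 else 1) *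
        Ct.getD (min (j + 1 - m) 44) 0 + Ct.getD (min (j - m) 44) 0 * (m' - m)^2)
        ≤ 32000000 * X.getD j 0) := by
      intro j hj hj2
      have h1 := CELLc_goP u.tail v.tail X.tail qt.tail 1 0 hgo (j - 1) (by
        rw [List.length_tail]; omega)
      rw [CELLc_tail, CELLc_tail, CELLc_tail, CELLc_tail, show 1 + (j - 1) = j by omega,
        show j - 1 + 1 = j by omega] at h1
      exact h1
    have hq : ∀ j ≤ 62, X.getD j 0 ≤ qt.getD j 0 := by
      intro j hj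
      rcases Nat.eq_zero_or_pos j with h1 | h1
      · rw [h1, hXm.2.1]
        exact Nat.zero_le _
      · exact (hg j h1 hj).1
    intro r hr0 hr1
    obtain ⟨r', h0, h1, h2, h3⟩ := GD_att (P := P) (N := N) (e := e) hD hr0
    rw [h2]
    have key : 1.0002 * fF P N D e r' ≤ pl X r' := by
      rcases h3 with h3 | h3
      · rw [h3]
        exact CELLc_zero hXm
      · have h4 : r' - e < 1.8 := by
          by_contra h5
          push Not at h5
          exact absurd (decr_pos h hv.toVS hδ hδ1 he0 h5) (not_lt.2 (sub_nonneg.2 h3))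
        obtain ⟨k, hk, t, ht0, ht1, rfl⟩ := CELLc_loc h0 (h1.trans hr1)
        have hkm : k < m' + 36 := by
          have h5 : (k : ℝ) < m' + 36 := by
            norm_num at h4
            linarith
          exact_mod_cast h5
        have hmm' : (m : ℝ) < m' := by exact_mod_cast hmm
        refine CELLc_main h hD hI hXm he he1 (by linarith) (by
          have : (0:ℝ) ≤ (m : ℝ) / 20 := by positivity
          linarith) (J := min 62 (m' + 36)) (fun j => ((u.getD j 0 : ℕ) : ℝ))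
          (fun j => ((v.getD j 0 : ℕ) : ℝ)) (fun j => ((Ct.getD (min (j - m) 44) 0 : ℕ) : ℝ))
          ?_ ?_ ?_ ?_ ?_ hk (by omega) ht0 ht1
        · intro j _ hj
          exact nodesP_sound h hv.toVS hδ hδ1 hΦ hu j (by omega)
        · intro j _ hj
          exact nodesP_sound h hv.toVS hδ hδ1 hΦ hv' j (by omega)
        · intro j _ hj
          refine Ct_sound h hv hδ hδ1 hΦ hC (min_le_right _ _) ?_
          rw [min_eq_left (by omega)]
          have h5 : (j : ℝ) ≤ ((j - m : ℕ) : ℝ) + m := by exact_mod_cast (by omega : j ≤ j - m + m)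
          linarith
        · intro j _ hj
          exact_mod_cast CELLc_Ct (min_le_min_right _ (by omega)) (min_le_right _ _)
        · intro j hj1 hj
          have h5 := (hg j hj1 (by omega)).2.resolve_left (by omega)
          have h6 : ((m' : ℝ) / 20 - (m : ℝ) / 20) ^ 2 * 400 = ((m' - m : ℕ) : ℝ) ^ 2 := by
            rw [Nat.cast_sub hmm.le]
            ring
          have h7 : 10002 * (3200 * max ((u.getD j 0 : ℕ) : ℝ) ((v.getD j 0 : ℕ) : ℝ) +
            (if j = 1 then 4 else 1) * ((Ct.getD (min (j + 1 - m) 44) 0 : ℕ) : ℝ) +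
            ((Ct.getD (min (j - m) 44) 0 : ℕ) : ℝ) * ((m' - m : ℕ) : ℝ)^2) ≤
            32000000 * ((X.getD j 0 : ℕ) : ℝ) := by exact_mod_cast h5
          have h8 : 400 * ((m' : ℝ) / 20 - (m : ℝ) / 20) ^ 2 = ((m' - m : ℕ) : ℝ) ^ 2 := by
            rw [← h6]
            ring
          rw [h8]
          linarith
    exact ⟨key.trans ((pl_pf hXm).mono h1), key.trans ((CELLc_le hXm hq h0 (h1.trans hr1)).trans
      ((pl_pf CELLc_qt).mono h1))⟩

theorem cellN_sound (h : P.Star) (hv : VS2 P N δ D) (hδ : 0 ≤ δ) (hδ1 : δ ≤ 0.03) (hΦ : Phi P N δ D ≤ 0)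
    (hC : chkC = true) {a xv vu vv : ℕ} {u v X : List ℕ} (ha : 1 ≤ a) (ha1 : a ≤ 9) (hu : nodesN a 0 0 u = true)
    (hv' : (a = 1 ∧ nodesP 0 0 0 v = true ∧ vv = cdiv (12155 * 521692 * 200) 5087922) ∨
      (2 ≤ a ∧ nodesN (a - 1) 0 0 v = true ∧ chkV (a - 1) vv = true))
    (hvu : chkV a vu = true) (hX : cellN a u v X vu vv xv = true) (hXm : MonoL X) (hul : u.length = 63)
    (hvl : v.length = 63) {e : ℝ} (he : -((a : ℝ) / 20) ≤ e) (he1 : e ≤ -((a : ℝ) / 20) + 1 / 20) :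
    1.0002 * gV P N D e ≤ xv / 10^6 ∧ ∀ r, 0 ≤ r → r ≤ 3.1 →
      1.0002 * GD P N D e r ≤ pl X r ∧ 1.0002 * GD P N D e r ≤ pl qt r := by
  have hD := hv.pf
  have hN0 := hv.pos
  have hI : I2 D P.Y ≤ N := by
    have := hv.op
    linarith
  have hN := N_hi h hv.toVS hδ hδ1 hΦ
  have hYp := (Par.Y_pos h).1
  simp only [cellN, Bool.and_eq_true, Nat.ble_eq] at hX
  obtain ⟨hgo, hxv⟩ := hX
  have haR : (1:ℝ) ≤ a := by exact_mod_cast ha
  have haR1 : (a:ℝ) ≤ 9 := by exact_mod_cast ha1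
  have he0 : e ≤ 0 := by linarith
  have hY0 : 0 < P.Y + -((a : ℝ) / 20) := by
    norm_num at hYp
    linarith
  have hlt : -((a : ℝ) / 20) < -((a : ℝ) / 20) + 1 / 20 := by linarith
  -- the right node
  have hv2 : (∀ j : ℕ, j ≤ 62 → fF P N D (-((a : ℝ) / 20) + 1 / 20) (j / 20) * 10^6 ≤
      ((v.getD j 0 : ℕ) : ℝ)) ∧ gV P N D (-((a : ℝ) / 20) + 1 / 20) * 10^6 ≤ ((vv : ℕ) : ℝ) := by
    rcases hv' with ⟨h1, h2, h3⟩ | ⟨h1, h2, h3⟩
    · subst h1
      have h4 : -(((1 : ℕ) : ℝ) / 20) + 1 / 20 = ((0 : ℕ) : ℝ) / 20 := by norm_num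
      rw [h4]
      refine ⟨fun j hj => nodesP_sound h hv.toVS hδ hδ1 hΦ h2 j (by omega), ?_⟩
      have h5 := CELLc_gV (N := N) h hN0 hN hD (e := ((0 : ℕ) : ℝ) / 20) (m := 0) le_rfl
      rw [h3]
      exact h5
    · have h4 : -((a : ℝ) / 20) + 1 / 20 = -(((a - 1 : ℕ) : ℝ) / 20) := by
        rw [Nat.cast_sub ha]
        push_cast
        ring
      rw [h4]
      exact ⟨fun j hj => nodesN_sound h hv.toVS hδ hδ1 hΦ (by omega) (by omega) h2 j (by omega),
        chkV_sound h hv.toVS hδ hδ1 hΦ (by omega) (by omega) h3⟩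
  have hmono : ∀ i : ℕ, i ≤ 44 → ∀ y : ℝ, y ≤ i / 20 → D y * 10^6 ≤ ((Ct.getD i 0 : ℕ) : ℝ) :=
    fun i hi y hy => Ct_sound h hv hδ hδ1 hΦ hC hi hy
  refine ⟨?_, ?_⟩
  · have h1 := chkV_sound h hv.toVS hδ hδ1 hΦ ha ha1 hvu
    have h2 := hv2.2
    have ht0 : 0 ≤ (e - -((a : ℝ) / 20)) * 20 := by linarith
    have ht1 : (e - -((a : ℝ) / 20)) * 20 ≤ 1 := by linarith
    have h3 := chord_V (N := N) h hD hI hlt.le hY0 ht0 ht1
      (C := ((Ct.getD a 0 : ℕ) : ℝ) / 10^6) (by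
        rw [le_div_iff₀ (by norm_num), neg_neg]
        exact hmono a (by omega) _ le_rfl)
    have he3 : (1 - (e - -((a : ℝ) / 20)) * 20) * -((a : ℝ) / 20) +
        (e - -((a : ℝ) / 20)) * 20 * (-((a : ℝ) / 20) + 1 / 20) = e := by ring
    rw [he3] at h3
    set t := (e - -((a : ℝ) / 20)) * 20 with ht
    have h5 : (1 - t) * (gV P N D (-((a : ℝ) / 20)) * 10^6) ≤ (1 - t) * max (vu : ℝ) (vv : ℝ) :=
      mul_le_mul_of_nonneg_left (h1.trans (le_max_left _ _)) (by linarith)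
    have h6 : t * (gV P N D (-((a : ℝ) / 20) + 1 / 20) * 10^6) ≤ t * max (vu : ℝ) (vv : ℝ) :=
      mul_le_mul_of_nonneg_left (h2.trans (le_max_right _ _)) ht0
    have h7 : 10002 * (320000 * max (vu : ℝ) (vv : ℝ) + 113 * ((Ct.getD a 0 : ℕ) : ℝ)) ≤
        3200000000 * (xv : ℝ) := by exact_mod_cast hxv
    have h8 := mul_le_mul_of_nonneg_left h3 (show (0:ℝ) ≤ 1.0002 * 10^6 by norm_num)
    rw [le_div_iff₀ (by norm_num)]
    have h9 : 1.0002 * gV P N D e * 10^6 = 1.0002 * 10^6 * gV P N D e := by ring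
    rw [h9]
    refine h8.trans ?_
    have h10 : 1.0002 * 10^6 * ((1 - t) * gV P N D (-((a : ℝ) / 20)) + t *
        gV P N D (-((a : ℝ) / 20) + 1 / 20) + 1.13 * (((Ct.getD a 0 : ℕ) : ℝ) / 10^6) *
        (-((a : ℝ) / 20) + 1 / 20 - -((a : ℝ) / 20)) ^ 2 / 8) =
        1.0002 * ((1 - t) * (gV P N D (-((a : ℝ) / 20)) * 10^6) + t *
        (gV P N D (-((a : ℝ) / 20) + 1 / 20) * 10^6)) +
        1.0002 * (1.13 * ((Ct.getD a 0 : ℕ) : ℝ) / 3200) := by ring
    rw [h10]
    linarith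
  · have hg : ∀ j : ℕ, 1 ≤ j → j ≤ 62 → X.getD j 0 ≤ qt.getD j 0 ∧ (44 ≤ a + j ∨
        10002 * (3200 * max (u.getD j 0) (v.getD j 0) + (if j = 1 then 4 else 1) *
        Ct.getD (min (j + 1 + a) 44) 0 + Ct.getD (min (j + a) 44) 0)
        ≤ 32000000 * X.getD j 0) := by
      intro j hj hj2
      have h1 := CELLc_goN u.tail v.tail X.tail qt.tail 1 0 hgo (j - 1) (by
        rw [List.length_tail]; omega)
      rw [CELLc_tail, CELLc_tail, CELLc_tail, CELLc_tail, show 1 + (j - 1) = j by omega,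
        show j - 1 + 1 = j by omega] at h1
      exact h1
    have hq : ∀ j ≤ 62, X.getD j 0 ≤ qt.getD j 0 := by
      intro j hj
      rcases Nat.eq_zero_or_pos j with h1 | h1
      · rw [h1, hXm.2.1]
        exact Nat.zero_le _
      · exact (hg j h1 hj).1
    intro r hr0 hr1
    obtain ⟨r', h0, h1, h2, h3⟩ := GD_att (P := P) (N := N) (e := e) hD hr0
    rw [h2]
    have key : 1.0002 * fF P N D e r' ≤ pl X r' := by
      rcases h3 with h3 | h3
      · rw [h3]
        exact CELLc_zero hXm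
      · have h4 : r' - e < 2.1 := by
          by_contra h5
          push Not at h5
          exact absurd (decr_neg h hv.toVS hδ hδ1 (by norm_num; linarith) he0 h5)
            (not_lt.2 (sub_nonneg.2 h3))
        obtain ⟨k, hk, t, ht0, ht1, rfl⟩ := CELLc_loc h0 (h1.trans hr1)
        have hkm : k + a < 43 := by
          have h5 : (k : ℝ) + a < 43 := by
            norm_num at h4
            linarith
          exact_mod_cast h5
        refine CELLc_main h hD hI hXm he he1 hlt hY0 (J := 43 - a)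
          (fun j => ((u.getD j 0 : ℕ) : ℝ))
          (fun j => ((v.getD j 0 : ℕ) : ℝ)) (fun j => ((Ct.getD (min (j + a) 44) 0 : ℕ) : ℝ))
          ?_ ?_ ?_ ?_ ?_ hk (by omega) ht0 ht1
        · intro j _ hj
          exact nodesN_sound h hv.toVS hδ hδ1 hΦ ha ha1 hu j (by omega)
        · intro j _ hj
          exact hv2.1 j (by omega)
        · intro j _ hj
          refine hmono _ (min_le_right _ _) _ ?_
          rw [min_eq_left (by omega)]
          push_cast
          linarith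
        · intro j _ hj
          exact_mod_cast CELLc_Ct (min_le_min_right _ (by omega)) (min_le_right _ _)
        · intro j hj1 hj
          have h5 := (hg j hj1 (by omega)).2.resolve_left (by omega)
          have h7 : 10002 * (3200 * max ((u.getD j 0 : ℕ) : ℝ) ((v.getD j 0 : ℕ) : ℝ) +
            (if j = 1 then 4 else 1) * ((Ct.getD (min (j + 1 + a) 44) 0 : ℕ) : ℝ) +
            ((Ct.getD (min (j + a) 44) 0 : ℕ) : ℝ)) ≤
            32000000 * ((X.getD j 0 : ℕ) : ℝ) := by exact_mod_cast h5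
          have h8 : 400 * (-((a : ℝ) / 20) + 1 / 20 - -((a : ℝ) / 20)) ^ 2 = 1 := by ring
          rw [h8]
          linarith
    exact ⟨key.trans ((pl_pf hXm).mono h1), key.trans ((CELLc_le hXm hq h0 (h1.trans hr1)).trans
      ((pl_pf CELLc_qt).mono h1))⟩

end Pool.Agent.CDk
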