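import Pool.Agent.CDk.Defs

/-!
# CHEB: `D' 2.2 ≤ 0.805 N'`

For `g` nonincreasing and nonnegative `∫_0^Y (Y-v)^2/2 g ≥ ∫_0^{2.2} (Y-v)^2/2 g ≥ (mean of (Y-v)^2/2 on [0,2.2]) ∫_0^{2.2} g`
(Chebyshev: both factors nonincreasing; e.g. integrate `((Y-v)^2/2 - m)(g v - g v0) ≥ 0`, `v0` the point where
`(Y-v)^2/2 = m`), and the mean is `(Y^3 - (Y-2.2)^3)/13.2 > 1.244`, `1/1.244 < 0.804`.
-/

open MeasureTheory Set Filter Topology

namespace Pool.Agent.CDk

theorem cheb {P : Par} (h : P.Star) {g : ℝ → ℝ} (hg : Continuous g) (hg0 : ∀ v, 0 ≤ g v)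
    (hanti : AntitoneOn g (Icc 0 P.Y)) {N : ℝ} (hN : ∫ v in (0:ℝ)..P.Y, (P.Y - v)^2/2 * g v ≤ N) :
    ∫ v in (0:ℝ)..2.2, g v ≤ 0.805 * N := by
  have hY1 : (2.543961 : ℝ) < P.Y := by
    unfold Par.Y
    linarith [h.ρ_lo, h.u_lo]
  have hY2 : P.Y < 2.543965 := by
    unfold Par.Y
    linarith [h.ρ_hi, h.u_hi]
  set Y := P.Y with hY
  have hc : Continuous fun v => (Y - v)^2/2 * g v := by fun_prop
  set m : ℝ := (Y - 0.967)^2/2 with hm
  have h1 : ∀ v ∈ Icc (0:ℝ) 2.2, m * g v + (g 0.967 * ((Y - v)^2/2) - m * g 0.967) ≤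
      (Y - v)^2/2 * g v := by
    intro v hv
    have h2 : 0 ≤ ((Y - v)^2/2 - m) * (g v - g 0.967) := by
      rcases le_total v 0.967 with h3 | h3
      · have h4 : g 0.967 ≤ g v := hanti ⟨hv.1, by linarith [hv.2]⟩ ⟨by norm_num, by linarith⟩ h3
        have h5 : m ≤ (Y - v)^2/2 := by
          rw [hm]
          nlinarith
        exact mul_nonneg (by linarith) (by linarith)
      · have h4 : g v ≤ g 0.967 := hanti ⟨by norm_num, by linarith⟩ ⟨hv.1, by linarith [hv.2]⟩ h3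
        have h5 : (Y - v)^2/2 ≤ m := by
          rw [hm]
          nlinarith [hv.2]
        exact mul_nonneg_of_nonpos_of_nonpos (by linarith) (by linarith)
    nlinarith
  have hc2 : Continuous fun v => (Y - v)^2/2 := by fun_prop
  have h2 : ∫ v in (0:ℝ)..2.2, (m * g v + (g 0.967 * ((Y - v)^2/2) - m * g 0.967)) =
      m * (∫ v in (0:ℝ)..2.2, g v) + (g 0.967 * (∫ v in (0:ℝ)..2.2, (Y - v)^2/2) -
        2.2 * (m * g 0.967)) := by
    have hi1 : IntervalIntegrable (fun v => m * g v) volume 0 2.2 :=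
      (hg.const_mul m).intervalIntegrable _ _
    have hi2 : IntervalIntegrable (fun v => g 0.967 * ((Y - v)^2/2)) volume 0 2.2 :=
      (hc2.const_mul _).intervalIntegrable _ _
    have hi3 : IntervalIntegrable (fun _ => m * g 0.967) volume 0 2.2 :=
      continuous_const.intervalIntegrable _ _
    have hi4 : IntervalIntegrable (fun v => g 0.967 * ((Y - v)^2/2) - m * g 0.967) volume 0 2.2 :=
      hi2.sub hi3
    rw [intervalIntegral.integral_add hi1 hi4, intervalIntegral.integral_sub hi2 hi3,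
      intervalIntegral.integral_const_mul, intervalIntegral.integral_const_mul,
      intervalIntegral.integral_const]
    simp only [sub_zero, smul_eq_mul]
  have h3 : ∫ v in (0:ℝ)..2.2, (Y - v)^2/2 = (Y^3 - (Y - 2.2)^3) / 6 := by
    have h4 : ∀ v ∈ uIcc (0:ℝ) 2.2, HasDerivAt (fun v => -(Y - v)^3/6) ((Y - v)^2/2) v := by
      intro v _
      have e1 : HasDerivAt (fun v : ℝ => Y - v) (-1) v := by
        simpa using (hasDerivAt_id v).const_sub Y
      have e2 := ((e1.pow 3).neg).div_const 6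
      have e3 : -(((3:ℕ):ℝ) * (Y - v)^(3-1) * (-1)) / 6 = (Y - v)^2/2 := by
        push_cast
        ring
      rw [e3] at e2
      exact e2
    rw [intervalIntegral.integral_eq_sub_of_hasDerivAt h4 (hc2.intervalIntegrable _ _)]
    ring
  have h4 : ∫ v in (0:ℝ)..2.2, (Y - v)^2/2 * g v ≤ N := by
    refine le_trans ?_ hN
    rw [← intervalIntegral.integral_add_adjacent_intervals (hc.intervalIntegrable 0 2.2)
      (hc.intervalIntegrable 2.2 Y)]
    have h5 : 0 ≤ ∫ v in (2.2:ℝ)..Y, (Y - v)^2/2 * g v :=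
      intervalIntegral.integral_nonneg (by linarith) fun v _ => mul_nonneg (by positivity) (hg0 v)
    linarith
  have h5 : ∫ v in (0:ℝ)..2.2, (m * g v + (g 0.967 * ((Y - v)^2/2) - m * g 0.967)) ≤
      ∫ v in (0:ℝ)..2.2, (Y - v)^2/2 * g v := by
    refine intervalIntegral.integral_mono_on (by norm_num) ?_ (hc.intervalIntegrable _ _) h1
    exact (((hg.const_mul m).add ((hc2.const_mul _).sub continuous_const)).intervalIntegrable _ _)
  rw [h2, h3] at h5
  have h6 : 0 ≤ g 0.967 * ((Y^3 - (Y - 2.2)^3) / 6) - 2.2 * (m * g 0.967) := by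
    have h7 : 2.2 * m ≤ (Y^3 - (Y - 2.2)^3) / 6 := by
      rw [hm]
      nlinarith
    nlinarith [hg0 0.967]
  have h7 : m * (∫ v in (0:ℝ)..2.2, g v) ≤ N := by linarith
  have h8 : 1 ≤ 0.805 * m := by
    rw [hm]
    nlinarith
  have h9 : 0 ≤ ∫ v in (0:ℝ)..2.2, g v :=
    intervalIntegral.integral_nonneg (by norm_num) fun v _ => hg0 v
  nlinarith

end Pool.Agent.CDk
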