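import Pool.Agent.CDk.FIN2

/-!
# CLU: a cluster of short gaps

`[b, a]` with `x b = x a = 0` and all zero-free subintervals of length at most `τ`; on `[b - κ, b]` the solution is bounded by
`M - m min(τ, κ - r)` at distance `r` from `b`.

Proof. (1) Let `s* = max_{[b,a]} |x|`, attained at `t*`, `x t* ≠ 0` (else trivial), in a maximal zero-free interval `(z1, z2)`,
`b ≤ z1 < z2 ≤ a`, `ℓ = z2 - z1 ≤ τ`. There `|y'| ≤ max(M, s*)` a.e. (`Sol.eq`: `y' = c x(t-θ)`, and `t - θ ∈ [b-κ, a]`), so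
`|x| ≤ ℓ^2/8 max(M, s*)`. As `τ^2/8 < 1`: `s* ≤ τ^2/8 M`.
(2) On any such `(z1, z2)`: `|y'(t)| ≤ M - m (t - z1)` a.e.: if `t - θ ≥ b` then `|x(t-θ)| ≤ τ^2/8 M ≤ M - m τ` (`hmτ`); if
`t - θ < b`, `r = b - (t - θ) ≤ κ - (t - b)`, and `M - m min(τ, κ - r) ≤ M - m min(τ, t - b) ≤ M - m (t - z1)`.
(3) With `w(σ) = -Mσ^2/2 + mσ^3/6 + Cσ`, `C = Mℓ/2 - mℓ^2/6` (`w(0) = w(ℓ) = 0`, `w'' = -(M - mσ)`), `w ± x(z1+·)` are concave
and vanish at both ends, so `|x| ≤ w`, `|y z2| ≤ -w'(ℓ) = Mℓ/2 - mℓ^2/3 ≤ Mτ/2 - mτ^2/3` (`hm2`), and `w` is concave, so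
`w(σ) ≤ -w'(ℓ)(ℓ - σ)`.
(4) `y a`: if `a` is the right end of a zero-free interval, (3); else `a` is a limit of zeros from the left and `y a = 0`.
`convex_zero` in FIN2.lean is the tool for second derivative a.e. of one sign implies convexity.
-/

open MeasureTheory Set Filter Topology

namespace Pool.Agent.CDk

/-- comparison on an interval between two zeros -/
private theorem clu_cmp {u v : ℝ → ℝ} {T A m : ℝ} (hT : 0 < T)
    (hu : ∀ t ∈ Icc 0 T, HasDerivWithinAt u (v t) (Icc 0 T) t)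
    (hv : AbsolutelyContinuousOnInterval v 0 T)
    (ha : ∀ᵐ t, t ∈ Ioo 0 T → ∃ d, |d| ≤ A - m * t ∧ HasDerivAt v d t)
    (hu0 : u 0 = 0) (huT : u T = 0) :
    ∀ t ∈ Icc 0 T, |u t| ≤ t * (T - t) * (A / 2 - m * (T + t) / 6) := by
  have key : ∀ σ : ℝ, (σ = 1 ∨ σ = -1) → ∀ t ∈ Icc 0 T,
      σ * u t - t * (T - t) * (A / 2 - m * (T + t) / 6) ≤ 0 := by
    intro σ hσ
    have hσa : |σ| = 1 := by rcases hσ with rfl | rfl <;> norm_num
    refine convex_zero (u := fun t => σ * u t - t * (T - t) * (A / 2 - m * (T + t) / 6))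
      (v := fun t => σ * v t - (-A * t + m * t^2 / 2 + (A * T / 2 - m * T^2 / 6))) hT ?_ ?_ ?_ ?_ ?_
    · intro t ht
      have h1 := (hu t ht).const_mul σ
      have h2 : HasDerivAt (fun t : ℝ => t * (T - t) * (A / 2 - m * (T + t) / 6))
          (-A * t + m * t^2 / 2 + (A * T / 2 - m * T^2 / 6)) t := by
        have e1 : HasDerivAt (fun t : ℝ => t) 1 t := hasDerivAt_id t
        have e2 : HasDerivAt (fun t : ℝ => T - t) (-1) t := by
          simpa using (hasDerivAt_id t).const_sub T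
        have e3 : HasDerivAt (fun t : ℝ => A / 2 - m * (T + t) / 6) (-(m * 1 / 6)) t :=
          ((((hasDerivAt_id t).const_add T).const_mul m).div_const 6).const_sub (A/2)
        have e4 := (e1.mul e2).mul e3
        have e5 : (1 * (T - t) + t * (-1)) * (A / 2 - m * (T + t) / 6) +
            t * (T - t) * (-(m * 1 / 6)) =
            -A * t + m * t^2 / 2 + (A * T / 2 - m * T^2 / 6) := by ring
        rw [← e5]
        exact e4
      exact h1.sub h2.hasDerivWithinAt
    · refine AbsolutelyContinuousOnInterval.fun_sub (hv.const_mul σ) ?_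
      refine ContDiffOn.absolutelyContinuousOnInterval (ContDiff.contDiffOn ?_)
      fun_prop
    · filter_upwards [ha] with t ht htI
      obtain ⟨d, hd, hd2⟩ := ht htI
      refine ⟨σ * d - (-A + m * t), ?_, ?_⟩
      · have h3 : |σ * d| ≤ A - m * t := by rw [abs_mul, hσa, one_mul]; exact hd
        have := (abs_le.mp h3).1
        linarith
      · have e1 : HasDerivAt (fun t : ℝ => -A * t + m * t^2 / 2 + (A * T / 2 - m * T^2 / 6))
            (-A * 1 + m * (2 * t) / 2) t := by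
          have e2 : HasDerivAt (fun t : ℝ => t^2) (2 * t) t := by
            simpa using hasDerivAt_pow 2 t
          exact (((hasDerivAt_id t).const_mul (-A)).add ((e2.const_mul m).div_const 2)).add_const _
        have e3 : -A * 1 + m * (2 * t) / 2 = -A + m * t := by ring
        rw [e3] at e1
        exact (hd2.const_mul σ).sub e1
    · simp [hu0]
    · simp [huT]
  intro t ht
  rw [abs_le]
  have h1 := key 1 (Or.inl rfl) t ht
  have h2 := key (-1) (Or.inr rfl) t ht
  constructor <;> linarith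

private theorem clu_comp {x : ℝ → ℝ} {b a t : ℝ} (hx : ContinuousOn x (Icc b a))
    (hxb : x b = 0) (hxa : x a = 0) (ht : t ∈ Icc b a) (h0 : x t ≠ 0) :
    ∃ z1 z2, b ≤ z1 ∧ z1 < t ∧ t < z2 ∧ z2 ≤ a ∧ x z1 = 0 ∧ x z2 = 0 ∧
      ∀ s ∈ Ioo z1 z2, x s ≠ 0 := by
  have hcl1 : IsClosed (Icc b t ∩ x ⁻¹' {0}) :=
    (hx.mono (Icc_subset_Icc_right ht.2)).preimage_isClosed_of_isClosed isClosed_Icc
      isClosed_singleton
  have hcp1 : IsCompact (Icc b t ∩ x ⁻¹' {0}) := isCompact_Icc.of_isClosed_subset hcl1 inter_subset_left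
  obtain ⟨z1, ⟨h1, h10⟩, hmax⟩ := hcp1.exists_isGreatest ⟨b, ⟨le_rfl, ht.1⟩, hxb⟩
  have hcl2 : IsClosed (Icc t a ∩ x ⁻¹' {0}) :=
    (hx.mono (Icc_subset_Icc_left ht.1)).preimage_isClosed_of_isClosed isClosed_Icc
      isClosed_singleton
  have hcp2 : IsCompact (Icc t a ∩ x ⁻¹' {0}) := isCompact_Icc.of_isClosed_subset hcl2 inter_subset_left
  obtain ⟨z2, ⟨h2, h20⟩, hmin⟩ := hcp2.exists_isLeast ⟨a, ⟨ht.2, le_rfl⟩, hxa⟩
  have hz1 : x z1 = 0 := h10
  have hz2 : x z2 = 0 := h20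
  refine ⟨z1, z2, h1.1, lt_of_le_of_ne h1.2 ?_, lt_of_le_of_ne h2.1 ?_, h2.2, hz1, hz2, ?_⟩
  · rintro rfl
    exact h0 hz1
  · rintro rfl
    exact h0 hz2
  · intro s hs hs0
    rcases le_total s t with h | h
    · exact absurd (hmax ⟨⟨h1.1.trans hs.1.le, h⟩, hs0⟩) (not_le.2 hs.1)
    · exact absurd (hmin ⟨⟨h, hs.2.le.trans h2.2⟩, hs0⟩) (not_le.2 hs.2)

/-- on an interval between two zeros -/
private theorem clu_int {κ : ℝ} {x y : ℝ → ℝ} {t0 : ℝ} (hx : Sol x y t0 κ) {z1 z2 A m : ℝ}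
    (hz : t0 ≤ z1) (hz12 : z1 < z2) (h1 : x z1 = 0) (h2 : x z2 = 0)
    (hb : ∀ t ∈ Ioo z1 z2, ∀ θ, 0 ≤ θ → θ ≤ κ → |x (t - θ)| ≤ A - m * (t - z1)) :
    ∀ t ∈ Icc z1 z2, |x t| ≤ (t - z1) * (z2 - t) * (A / 2 - m * ((z2 - z1) + (t - z1)) / 6) := by
  have hT : 0 < z2 - z1 := by linarith
  have hae := ae_shift z1 hx.eq
  have H := clu_cmp (u := fun t => x (z1 + t)) (v := fun t => y (z1 + t)) (T := z2 - z1) (A := A)
    (m := m) hT ?_ ?_ ?_ ?_ ?_
  · intro t ht
    have h3 := H (t - z1) ⟨by linarith [ht.1], by linarith [ht.2]⟩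
    simp only [add_sub_cancel] at h3
    have e1 : z2 - z1 - (t - z1) = z2 - t := by ring
    rw [e1] at h3
    exact h3
  · intro t ht
    have h1 := hx.dx (z1 + t) (by linarith [ht.1])
    have h2 : HasDerivWithinAt (fun t => z1 + t) 1 (Icc 0 (z2 - z1)) t :=
      (hasDerivWithinAt_id t _).const_add z1
    have h3 := HasDerivWithinAt.scomp (t' := Ici t0) t h1 h2
      (fun s hs => mem_Ici.mpr (by linarith [hs.1]))
    simpa [Function.comp_def] using h3
  · exact ac_shift (hx.ac (z1 + 0) (z1 + (z2 - z1)) (by linarith) (by linarith))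
  · filter_upwards [hae] with t ht htI
    obtain ⟨c, θ, c0, c1, θ0, θ1, hd⟩ := ht (by linarith [htI.1])
    refine ⟨c * x (z1 + t - θ), ?_, ?_⟩
    · have h3 := hb (z1 + t) ⟨by linarith [htI.1], by linarith [htI.2]⟩ θ θ0 θ1
      rw [add_sub_cancel_left] at h3
      rw [abs_mul, abs_of_nonneg c0]
      have h4 := abs_nonneg (x (z1 + t - θ))
      nlinarith only [h3, c1, h4]
    · have h2 : HasDerivAt (fun t => z1 + t) 1 t := (hasDerivAt_id t).const_add z1
      have h3 := HasDerivAt.scomp t hd h2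
      simpa [Function.comp_def] using h3
  · simp [h1]
  · simp [h2]

theorem cluster {κ : ℝ} {x y : ℝ → ℝ} {t0 : ℝ} (hx : Sol x y t0 κ) (hκ : 0 ≤ κ) {b a τ M m : ℝ}
    (hb : t0 + κ ≤ b) (hba : b ≤ a) (hxb : x b = 0) (hxa : x a = 0) (hm : 0 ≤ m) (hτ0 : 0 ≤ τ)
    (hτ : τ ≤ 1.5) (hmτ : m * τ ≤ M * (1 - τ^2/8)) (hm2 : 4 * m * τ ≤ 3 * M)
    (hgap : ∀ z1 z2, b ≤ z1 → z1 < z2 → z2 ≤ a → (∀ t ∈ Ioo z1 z2, x t ≠ 0) → z2 - z1 ≤ τ)
    (hH : ∀ r ∈ Icc 0 κ, |x (b - r)| ≤ M - m * min τ (κ - r)) :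
    (∀ t ∈ Icc b a, |x t| ≤ τ^2/8 * M) ∧ (b < a → |y a| ≤ M * τ / 2 - m * τ^2 / 3) ∧
    (∀ r ∈ Icc 0 (a - b), |x (a - r)| ≤ (M * τ / 2 - m * τ^2 / 3) * r) := by
  have hcont : ContinuousOn x (Icc b a) := fun t ht =>
    ((hx.dx t (by linarith [ht.1])).continuousWithinAt).mono
      (fun s hs => mem_Ici.mpr (by linarith [hs.1]))
  have hM : 0 ≤ M := by
    have h1 := hH 0 ⟨le_rfl, hκ⟩
    rw [sub_zero, sub_zero, hxb, abs_zero] at h1
    have h2 : 0 ≤ m * min τ κ := mul_nonneg hm (le_min hτ0 hκ)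
    linarith only [h1, h2]
  have hHM : ∀ r ∈ Icc 0 κ, |x (b - r)| ≤ M := by
    intro r hr
    have h1 := hH r hr
    have h2 : 0 ≤ m * min τ (κ - r) := mul_nonneg hm (le_min hτ0 (by linarith [hr.2]))
    linarith
  -- (1)
  have H1 : ∀ t ∈ Icc b a, |x t| ≤ τ^2/8 * M := by
    obtain ⟨ts, hts, hmax⟩ := isCompact_Icc.exists_isMaxOn (nonempty_Icc.2 hba) hcont.abs
    have hmax' : ∀ t ∈ Icc b a, |x t| ≤ |x ts| := fun t ht => hmax ht
    suffices h : |x ts| ≤ τ^2/8 * M from fun t ht => (hmax' t ht).trans h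
    by_cases h0 : x ts = 0
    · rw [h0, abs_zero]
      positivity
    · obtain ⟨z1, z2, hz1, hz1t, hz2t, hz2, hz10, hz20, hfree⟩ := clu_comp hcont hxb hxa hts h0
      have hℓ := hgap z1 z2 hz1 (hz1t.trans hz2t) hz2 hfree
      have h1 := clu_int hx (A := max M |x ts|) (m := 0) (z1 := z1) (z2 := z2) (by linarith only [hκ, hb, hz1])
        (hz1t.trans hz2t) hz10 hz20 ?_ ts ⟨hz1t.le, hz2t.le⟩
      · have h2 : 0 ≤ max M |x ts| := le_trans hM (le_max_left _ _)
        have h3 : (ts - z1) * (z2 - ts) ≤ τ^2 / 4 := by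
          nlinarith only [sq_nonneg ((ts - z1) - (z2 - ts)), hτ0, hℓ, hz1t, hz2t]
        have h4 : |x ts| ≤ τ^2/8 * max M |x ts| := by
          have h5 : (ts - z1) * (z2 - ts) * (max M |x ts| / 2 - 0 * ((z2 - z1) + (ts - z1)) / 6) =
              (ts - z1) * (z2 - ts) * (max M |x ts| / 2) := by ring
          rw [h5] at h1
          have h6 := mul_le_mul_of_nonneg_right h3 (div_nonneg h2 (by norm_num : (0:ℝ) ≤ 2))
          linarith
        rcases le_total M |x ts| with h | h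
        · rw [max_eq_right h] at h4
          have h7 : τ^2/8 ≤ 0.28125 := by nlinarith only [hτ, hτ0]
          have h8 := abs_pos.2 h0
          nlinarith only [hmτ, h4, hm, hτ0, h, h7]
        · rw [max_eq_left h] at h4
          exact h4
      · intro t ht θ hθ0 hθ1
        rw [zero_mul, sub_zero]
        rcases le_total b (t - θ) with h | h
        · exact (hmax' _ ⟨h, by linarith [ht.2]⟩).trans (le_max_right _ _)
        · have h2 := hHM (b - (t - θ)) ⟨by linarith, by linarith [ht.1]⟩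
          rw [sub_sub_cancel] at h2
          exact h2.trans (le_max_left _ _)
  have hmM : m * τ ≤ M := by linarith
  have hg0 : 0 ≤ M * τ / 2 - m * τ^2 / 3 := by nlinarith only [hm, hτ0, hm2]
  -- (2), (3)
  have H3 : ∀ t ∈ Icc b a, |x t| ≤ (M * τ / 2 - m * τ^2 / 3) * (a - t) := by
    intro t ht
    by_cases h0 : x t = 0
    · rw [h0, abs_zero]
      exact mul_nonneg hg0 (by linarith [ht.2])
    · obtain ⟨z1, z2, hz1, hz1t, hz2t, hz2, hz10, hz20, hfree⟩ := clu_comp hcont hxb hxa ht h0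
      have hℓ := hgap z1 z2 hz1 (hz1t.trans hz2t) hz2 hfree
      have h1 := clu_int hx (A := M) (m := m) (z1 := z1) (z2 := z2) (by linarith)
        (hz1t.trans hz2t) hz10 hz20 ?_ t ⟨hz1t.le, hz2t.le⟩
      · set ℓ := z2 - z1 with hℓd
        set σ := t - z1 with hσd
        have e1 : z2 - t = ℓ - σ := by rw [hℓd, hσd]; ring
        have hσ0 : 0 < σ := by rw [hσd]; linarith
        have hσℓ : 0 < ℓ - σ := by rw [← e1]; linarith
        rw [e1] at h1
        have h2 : σ * (M / 2 - m * (ℓ + σ) / 6) ≤ M * ℓ / 2 - m * ℓ^2 / 3 := by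
          have h3 : 0 ≤ (ℓ - σ) * (M / 2 - m * (2 * ℓ + σ) / 6) := by
            refine mul_nonneg hσℓ.le ?_
            have h4 : m * ℓ ≤ M := le_trans (mul_le_mul_of_nonneg_left hℓ hm) hmM
            have h5 : m * σ ≤ m * ℓ := mul_le_mul_of_nonneg_left (by linarith) hm
            linarith
          nlinarith only [h3]
        have h6 : M * ℓ / 2 - m * ℓ^2 / 3 ≤ M * τ / 2 - m * τ^2 / 3 := by
          have h7 : 0 ≤ (τ - ℓ) * (M / 2 - m * (τ + ℓ) / 3) := by
            refine mul_nonneg (by linarith) ?_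
            have h8 : m * ℓ ≤ m * τ := mul_le_mul_of_nonneg_left hℓ hm
            linarith only [hm2, h8]
          nlinarith only [h7]
        have h9 : σ * (ℓ - σ) * (M / 2 - m * (ℓ + σ) / 6) ≤
            (M * τ / 2 - m * τ^2 / 3) * (ℓ - σ) := by
          have h10 := mul_le_mul_of_nonneg_right (h2.trans h6) hσℓ.le
          linarith only [h10]
        refine (h1.trans h9).trans ?_
        rw [← e1]
        exact mul_le_mul_of_nonneg_left (by linarith only [hz2]) hg0
      · intro s hs θ hθ0 hθ1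
        rcases le_total b (s - θ) with h | h
        · have h2 := H1 (s - θ) ⟨h, by linarith [hs.2]⟩
          have h3 : m * (s - z1) ≤ m * τ := mul_le_mul_of_nonneg_left (by linarith [hs.2]) hm
          linarith
        · have h2 := hH (b - (s - θ)) ⟨by linarith, by linarith [hs.1]⟩
          rw [sub_sub_cancel] at h2
          have h3 : s - z1 ≤ min τ (κ - (b - (s - θ))) :=
            le_min (by linarith [hs.2]) (by linarith)
          have h4 := mul_le_mul_of_nonneg_left h3 hm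
          linarith
  refine ⟨H1, ?_, ?_⟩
  · intro hlt
    have hT : 0 < a - b := by linarith
    have key : ∀ σ : ℝ, (σ = 1 ∨ σ = -1) → σ * y a - (M * τ / 2 - m * τ^2 / 3) ≤ 0 := by
      intro σ hσ
      have hσa : |σ| = 1 := by rcases hσ with rfl | rfl <;> norm_num
      refine slope_nonpos (u := fun t => σ * x (b + t) +
        (M * τ / 2 - m * τ^2 / 3) * ((a - b) - t)) hT ?_ ?_ ?_
      · have h1 := hx.dx (b + (a - b)) (by linarith)
        rw [add_sub_cancel] at h1
        have h2 : HasDerivWithinAt (fun t => b + t) 1 (Icc 0 (a - b)) (a - b) :=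
          (hasDerivWithinAt_id _ _).const_add b
        have h3 : HasDerivWithinAt (fun t => x (b + t)) (y a) (Icc 0 (a - b)) (a - b) := by
          have h1' : HasDerivWithinAt x (y a) (Ici t0) ((fun t => b + t) (a - b)) := by
            simpa using h1
          have h4 := HasDerivWithinAt.scomp (t' := Ici t0) (a - b) h1' h2
            (fun s hs => mem_Ici.mpr (by linarith [hs.1]))
          simpa [Function.comp_def] using h4
        have h5 : HasDerivWithinAt (fun t => (M * τ / 2 - m * τ^2 / 3) * ((a - b) - t))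
            ((M * τ / 2 - m * τ^2 / 3) * (-1)) (Icc 0 (a - b)) (a - b) :=
          ((hasDerivWithinAt_id _ _).const_sub (a - b)).const_mul _
        have h6 := (h3.const_mul σ).add h5
        have e1 : σ * y a - (M * τ / 2 - m * τ^2 / 3) =
            σ * y a + (M * τ / 2 - m * τ^2 / 3) * (-1) := by ring
        rw [e1]
        exact h6
      · simp [hxa]
      · intro t ht
        have h1 := H3 (b + t) ⟨by linarith [ht.1], by linarith [ht.2]⟩
        have h2 : |σ * x (b + t)| ≤ (M * τ / 2 - m * τ^2 / 3) * (a - (b + t)) := by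
          rw [abs_mul, hσa, one_mul]
          exact h1
        have h3 := (abs_le.mp h2).1
        have e1 : a - (b + t) = a - b - t := by ring
        rw [e1] at h3
        show 0 ≤ σ * x (b + t) + (M * τ / 2 - m * τ^2 / 3) * (a - b - t)
        linarith only [h3]
    have k1 := key 1 (Or.inl rfl)
    have k2 := key (-1) (Or.inr rfl)
    rw [abs_le]
    constructor <;> linarith
  · intro r hr
    have h1 := H3 (a - r) ⟨by linarith [hr.2], by linarith [hr.1]⟩
    rw [sub_sub_cancel] at h1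
    exact h1

end Pool.Agent.CDk
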