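import Pool.Agent.CDk.D.PLd
import Pool.Agent.CDk.Defs
import Pool.Agent.CDk.FNa
import Pool.Agent.CDk.FV
import Pool.Agent.CDk.GAP

/-!
# Chk2: comparison checks for piecewise linear functions, and their soundness
-/

open MeasureTheory Set Filter Topology

namespace Pool.Agent.CDk
open Chk

def monoB (l : List ℕ) : Bool :=
  Nat.beq l.length 63 && Nat.beq (l.getD 0 0) 0 && (List.range 62).all (fun k => Nat.ble (l.getD k 0) (l.getD (k+1) 0))

theorem monoL_of {l : List ℕ} (h : monoB l = true) : MonoL l := by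
  unfold monoB at h
  simp only [Bool.and_eq_true, List.all_eq_true, List.mem_range, Nat.ble_eq] at h
  obtain ⟨⟨h1, h2⟩, h3⟩ := h
  exact ⟨Nat.eq_of_beq_eq_true h1, Nat.eq_of_beq_eq_true h2, h3⟩

/-- `r ≤ M - 0.1 (3.0446 - r)` -/
def chkLin (l : List ℕ) : Bool :=
  (List.range 32).all (fun j => Nat.ble (l.getD (30 + j) 0 + 304460) (737920 + 5000 * (30 + j)))

/-- `1.0002 A (r - 1.49) ≤ B r` for `r ≤ (n + 29)/20` -/
def chkSh (A B : List ℕ) (n : ℕ) : Bool :=
  (List.range n).all (fun j => Nat.ble (10002 * (4 * A.getD j 0 + A.getD (j+1) 0)) (50000 * B.getD (j+30) 0) &&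
    Nat.ble (50010 * A.getD j 0) (10000 * (B.getD (j+29) 0 + 4 * B.getD (j+30) 0)))

/-- `1.0002 A (r - 0.6) ≤ B r` for `r ≤ 51/20` -/
def chkS12 (A B : List ℕ) : Bool :=
  (List.range 40).all (fun j => Nat.ble (10002 * A.getD j 0) (10000 * B.getD (j+12) 0))

/-- `1.0002 min (vc r) cc ≤ l r` -/
def chkLine (l : List ℕ) (K vc cc : ℕ) : Bool :=
  (List.range (K + 1)).all (fun k => Nat.ble (10002 * vc * k) (200000 * l.getD k 0)) &&
    Nat.ble (10002 * cc) (10000 * l.getD K 0) && Nat.ble K 61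

theorem cell_exists {r : ℝ} (h0 : 0 ≤ r) {n : ℕ} (hn : 1 ≤ n) (h1 : r ≤ n / 20) :
    ∃ k : ℕ, k < n ∧ ∃ t : ℝ, 0 ≤ t ∧ t ≤ 1 ∧ r = (k + t) / 20 := by
  rcases h1.eq_or_lt with h2 | h2
  · refine ⟨n - 1, by omega, 1, by norm_num, le_rfl, ?_⟩
    rw [h2, Nat.cast_sub hn]
    push_cast
    ring
  · refine ⟨⌊20 * r⌋₊, ?_, 20 * r - ⌊20 * r⌋₊, ?_, ?_, ?_⟩
    · rw [Nat.floor_lt (by positivity)]
      linarith
    · linarith [Nat.floor_le (by positivity : 0 ≤ 20 * r)]
    · linarith [Nat.lt_floor_add_one (20 * r)]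
    · ring

variable {l A B : List ℕ}

theorem pl_nonneg (hl : MonoL l) (r : ℝ) : 0 ≤ pl l r := (pl_pf hl).nonneg r

theorem pl_le_last (hl : MonoL l) (r : ℝ) : pl l r ≤ (l.getD 62 0 : ℕ) / 10^6 := by
  rw [← pl_const hl (r := max r 3.1) (le_max_right _ _)]
  exact (pl_pf hl).mono (le_max_left _ _)

theorem pl_le_node (hl : MonoL l) {r : ℝ} {k : ℕ} (hk : k ≤ 62) (hr : r ≤ k / 20) :
    pl l r ≤ (l.getD k 0 : ℕ) / 10^6 := by
  rw [← pl_node hl hk]
  exact (pl_pf hl).mono hr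

theorem node_le_pl (hl : MonoL l) {r : ℝ} {k : ℕ} (hk : k ≤ 62) (hr : (k : ℝ) / 20 ≤ r) :
    ((l.getD k 0 : ℕ) : ℝ) / 10^6 ≤ pl l r := by
  rw [← pl_node hl hk]
  exact (pl_pf hl).mono hr

theorem chkLin_sound (hl : MonoL l) (hc : chkLin l = true) {r : ℝ} (h0 : 1.54 ≤ r) (h1 : r ≤ 3.0446) :
    pl l r ≤ 0.73792 - 0.1 * (3.0446 - r) := by
  have hc' : ∀ k, 30 ≤ k → k < 62 → ((l.getD k 0 : ℕ) : ℝ) + 304460 ≤ 737920 + 5000 * k := by
    intro k hk hk1
    unfold chkLin at hc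
    simp only [List.all_eq_true, List.mem_range, Nat.ble_eq] at hc
    have := hc (k - 30) (by omega)
    rw [show 30 + (k - 30) = k by omega] at this
    exact_mod_cast this
  obtain ⟨k, hk, t, t0, t1, rfl⟩ := cell_exists (r := r) (by linarith) (n := 61) (by norm_num) (by norm_num; linarith)
  rw [pl_cell hl (by omega) t0 t1]
  have hk30 : 30 ≤ k := by
    by_contra hcon
    have : (k : ℝ) ≤ 29 := by exact_mod_cast (by omega : k ≤ 29)
    linarith
  have c1 := hc' k hk30 (by omega)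
  have c2 := hc' (k+1) (by omega) (by omega)
  push_cast at c2
  have e1 : (1 - t) * (((l.getD k 0 : ℕ) : ℝ) + 304460) ≤ (1 - t) * (737920 + 5000 * k) :=
    mul_le_mul_of_nonneg_left c1 (by linarith)
  have e2 : t * (((l.getD (k+1) 0 : ℕ) : ℝ) + 304460) ≤ t * (737920 + 5000 * (k + 1)) :=
    mul_le_mul_of_nonneg_left c2 t0
  rw [div_le_iff₀ (by norm_num)]
  linarith

theorem chkSh_sound (hA : MonoL A) (hB : MonoL B) {n : ℕ} (hn : 1 ≤ n) (hn1 : n ≤ 32) (hc : chkSh A B n = true)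
    {r : ℝ} (h1 : r ≤ (n + 29) / 20) : 1.0002 * pl A (r - 1.49) ≤ pl B r := by
  have hB0 := pl_nonneg hB r
  rcases le_total r 1.49 with h2 | h2
  · rw [(pl_pf hA).zero _ (by linarith)]
    linarith
  have hc' : ∀ j < n, 10002 * (4 * ((A.getD j 0 : ℕ) : ℝ) + ((A.getD (j+1) 0 : ℕ) : ℝ)) ≤ 50000 * ((B.getD (j+30) 0 : ℕ) : ℝ) ∧
      50010 * ((A.getD j 0 : ℕ) : ℝ) ≤ 10000 * (((B.getD (j+29) 0 : ℕ) : ℝ) + 4 * ((B.getD (j+30) 0 : ℕ) : ℝ)) := by
    intro j hj
    unfold chkSh at hc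
    simp only [List.all_eq_true, List.mem_range, Nat.ble_eq, Bool.and_eq_true] at hc
    obtain ⟨a1, a2⟩ := hc j hj
    exact ⟨by exact_mod_cast a1, by exact_mod_cast a2⟩
  obtain ⟨k, hk, t, t0, t1, hr⟩ := cell_exists (r := r) (by linarith) (n := n + 29) (by omega) (by push_cast; linarith)
  have hk29 : 29 ≤ k := by
    by_contra hcon
    have : (k : ℝ) ≤ 28 := by exact_mod_cast (by omega : k ≤ 28)
    linarith
  obtain ⟨j, rfl⟩ : ∃ j, k = j + 29 := ⟨k - 29, by omega⟩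
  have hB1 : pl B r = ((1 - t) * (B.getD (j+29) 0 : ℕ) + t * (B.getD (j+30) 0 : ℕ)) / 10^6 := by
    rw [hr]; exact pl_cell hB (by omega) t0 t1
  push_cast at hr
  rcases le_total t 0.8 with h3 | h3
  · -- argument of A in the cell `j - 1`
    rcases Nat.eq_zero_or_pos j with h4 | h4
    · rw [(pl_pf hA).zero _ (by rw [hr, h4]; norm_num; linarith)]
      linarith
    · obtain ⟨i, rfl⟩ : ∃ i, j = i + 1 := ⟨j - 1, by omega⟩
      have hA1 : pl A (r - 1.49) = ((1 - (t + 0.2)) * (A.getD i 0 : ℕ) + (t + 0.2) * (A.getD (i+1) 0 : ℕ)) / 10^6 := by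
        rw [show r - 1.49 = ((i : ℝ) + (t + 0.2)) / 20 by rw [hr]; push_cast; ring]
        exact pl_cell hA (by omega) (by linarith) (by linarith)
      rw [hA1, hB1]
      have a1 := (hc' i (by omega)).1
      have a2 := (hc' (i+1) (by omega)).2
      rw [show i + 1 + 29 = i + 30 by ring, show i + 1 + 30 = i + 31 by ring] at a2 ⊢
      have f1 := mul_le_mul_of_nonneg_left a1 (by linarith : 0 ≤ 0.8 - t)
      have f2 := mul_le_mul_of_nonneg_left a2 t0
      rw [mul_div_assoc', div_le_div_iff_of_pos_right (by norm_num)]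
      nlinarith
  · -- argument of A in the cell `j`
    have hA1 : pl A (r - 1.49) = ((1 - (t - 0.8)) * (A.getD j 0 : ℕ) + (t - 0.8) * (A.getD (j+1) 0 : ℕ)) / 10^6 := by
      rw [show r - 1.49 = ((j : ℝ) + (t - 0.8)) / 20 by rw [hr]; ring]
      exact pl_cell hA (by omega) (by linarith) (by linarith)
    rw [hA1, hB1]
    obtain ⟨a1, a2⟩ := hc' j (by omega)
    have f1 := mul_le_mul_of_nonneg_left a1 (by linarith : 0 ≤ t - 0.8)
    have f2 := mul_le_mul_of_nonneg_left a2 (by linarith : 0 ≤ 1 - t)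
    rw [mul_div_assoc', div_le_div_iff_of_pos_right (by norm_num)]
    nlinarith

theorem chkS12_sound (hA : MonoL A) (hB : MonoL B) (hc : chkS12 A B = true)
    {r : ℝ} (h1 : r ≤ 2.55) : 1.0002 * pl A (r - 0.6) ≤ pl B r := by
  have hB0 := pl_nonneg hB r
  rcases le_total r 0.6 with h2 | h2
  · rw [(pl_pf hA).zero _ (by linarith)]
    linarith
  have hc' : ∀ j < 40, 10002 * ((A.getD j 0 : ℕ) : ℝ) ≤ 10000 * ((B.getD (j+12) 0 : ℕ) : ℝ) := by
    intro j hj
    unfold chkS12 at hc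
    simp only [List.all_eq_true, List.mem_range, Nat.ble_eq] at hc
    exact_mod_cast hc j hj
  obtain ⟨k, hk, t, t0, t1, hr⟩ := cell_exists (r := r - 0.6) (by linarith) (n := 39) (by norm_num)
    (by norm_num; linarith)
  have hr2 : r = ((k + 12 : ℕ) + t) / 20 := by
    push_cast
    linarith
  rw [hr, pl_cell hA (by omega) t0 t1]
  rw [hr2, pl_cell hB (by omega) t0 t1]
  have a1 := hc' k (by omega)
  have a2 := hc' (k+1) (by omega)
  rw [show k + 1 + 12 = k + 12 + 1 by ring] at a2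
  have f1 := mul_le_mul_of_nonneg_left a1 (by linarith : 0 ≤ 1 - t)
  have f2 := mul_le_mul_of_nonneg_left a2 t0
  rw [mul_div_assoc', div_le_div_iff_of_pos_right (by norm_num)]
  nlinarith

theorem chkLine_sound (hl : MonoL l) {K vc cc : ℕ} (hK : 1 ≤ K) (hc : chkLine l K vc cc = true) {r : ℝ} (h0 : 0 ≤ r) :
    1.0002 * min ((vc : ℝ) / 10^6 * r) ((cc : ℝ) / 10^6) ≤ pl l r := by
  unfold chkLine at hc
  simp only [List.all_eq_true, List.mem_range, Nat.ble_eq, Bool.and_eq_true] at hc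
  obtain ⟨⟨a1, a2⟩, a3⟩ := hc
  rcases le_total r (K / 20) with h1 | h1
  · obtain ⟨k, hk, t, t0, t1, rfl⟩ := cell_exists h0 hK h1
    rw [pl_cell hl (by omega) t0 t1]
    have b1 : 10002 * (vc : ℝ) * k ≤ 200000 * ((l.getD k 0 : ℕ) : ℝ) := by exact_mod_cast a1 k (by omega)
    have b2 : 10002 * (vc : ℝ) * (k + 1) ≤ 200000 * ((l.getD (k+1) 0 : ℕ) : ℝ) := by exact_mod_cast a1 (k+1) (by omega)
    have f1 := mul_le_mul_of_nonneg_left b1 (by linarith : 0 ≤ 1 - t)
    have f2 := mul_le_mul_of_nonneg_left b2 t0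
    have f3 : 1.0002 * min ((vc : ℝ) / 10^6 * (((k : ℝ) + t) / 20)) ((cc : ℝ) / 10^6)
        ≤ 1.0002 * ((vc : ℝ) / 10^6 * (((k : ℝ) + t) / 20)) :=
      mul_le_mul_of_nonneg_left (min_le_left _ _) (by norm_num)
    refine f3.trans ?_
    have f4 : 1.0002 * ((vc : ℝ) / 10^6 * (((k : ℝ) + t) / 20)) = (10002 * (vc : ℝ) * (k + t)) / (200000 * 10^6) := by
      ring
    rw [f4, div_le_div_iff₀ (by norm_num) (by norm_num)]
    nlinarith
  · have h2 := node_le_pl hl (by omega : K ≤ 62) h1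
    have h3 : 10002 * (cc : ℝ) ≤ 10000 * ((l.getD K 0 : ℕ) : ℝ) := by exact_mod_cast a2
    have f3 : 1.0002 * min ((vc : ℝ) / 10^6 * r) ((cc : ℝ) / 10^6) ≤ 1.0002 * ((cc : ℝ) / 10^6) :=
      mul_le_mul_of_nonneg_left (min_le_right _ _) (by norm_num)
    have f4 : 1.0002 * ((cc : ℝ) / 10^6) ≤ ((l.getD K 0 : ℕ) : ℝ) / 10^6 := by
      rw [le_div_iff₀ (by norm_num)]
      linarith
    linarith

/-- opening parts after a cluster: `off - k` is the index of the bound of `Q` -/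
def chkO (q : List ℕ) (off lo V : ℕ) : Bool :=
  (List.range 29).all (fun k => Nat.blt k lo ||
    Nat.ble (10002 * (8 * 521684 * (737920 * 30 * (k+1)) + 128000 * max (3 * (k+1)^2 * 737920) (9600 * q.getD (off - k) 0)))
      (96 * 10^12 * V + 10002 * (8 * 521684 * (100000 * (k+1)^2)))) &&
  Nat.ble (10002 * (40000 * 521684 * (3 * 737920 * 14945)
      + 128000 * max (3 * 14945^2 * 737920) (2400000000 * q.getD (off - 29) 0)))
    (24 * 10^18 * V + 10002 * (40000 * 521684 * (20 * 14945^2)))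

theorem chkO_sound {P : Par} (h : P.Star) {q : List ℕ} (hq : MonoL q) {off lo V : ℕ} (hoff : 29 ≤ off) (hoff1 : off ≤ 62) (hlo28 : lo ≤ 28)
    (hc : chkO q off lo V = true) {L x : ℝ} (hlo : (lo : ℝ) / 20 ≤ L) (hL0 : 0 ≤ L) (hL : L ≤ 1.4945)
    (hx : x + L ≤ off / 20) :
    1.0002 * (P.sg * (0.73792 * L / 2 - 0.1 * L^2 / 3) + 0.128 * max (L^2 / 8 * 0.73792) (pl q x)) ≤ (V : ℝ) / 10^6 := by
  have hsg := Par.sg_bd h
  unfold chkO at hc
  simp only [List.all_eq_true, List.mem_range, Nat.ble_eq, Bool.and_eq_true, Bool.or_eq_true, Nat.blt_eq] at hc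
  obtain ⟨c1, c2⟩ := hc
  -- the general estimate with right end `L1` and index `j`
  have key : ∀ (L1 : ℝ) (j : ℕ), L ≤ L1 → L1 ≤ 1.5 → j ≤ 62 → x ≤ j / 20 →
      1.0002 * (0.521684 * (0.73792 * L1 / 2 - 0.1 * L1^2 / 3) + 0.128 * max (L1^2 / 8 * 0.73792) (((q.getD j 0 : ℕ) : ℝ) / 10^6))
        ≤ (V : ℝ) / 10^6 →
      1.0002 * (P.sg * (0.73792 * L / 2 - 0.1 * L^2 / 3) + 0.128 * max (L^2 / 8 * 0.73792) (pl q x)) ≤ (V : ℝ) / 10^6 := by
    intro L1 j h1 h2 h3 h4 h5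
    refine le_trans (mul_le_mul_of_nonneg_left ?_ (by norm_num)) h5
    have f1 : 0.73792 * L / 2 - 0.1 * L^2 / 3 ≤ 0.73792 * L1 / 2 - 0.1 * L1^2 / 3 := by nlinarith
    have f2 : 0 ≤ 0.73792 * L / 2 - 0.1 * L^2 / 3 := by nlinarith
    have f3 : P.sg * (0.73792 * L / 2 - 0.1 * L^2 / 3) ≤ 0.521684 * (0.73792 * L1 / 2 - 0.1 * L1^2 / 3) :=
      mul_le_mul hsg.2.le f1 f2 (by norm_num)
    have f4 : max (L^2 / 8 * 0.73792) (pl q x) ≤ max (L1^2 / 8 * 0.73792) (((q.getD j 0 : ℕ) : ℝ) / 10^6) := by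
      apply max_le_max
      · nlinarith
      · exact pl_le_node hq h3 h4
    linarith
  rcases le_total L 1.45 with h1 | h1
  · obtain ⟨k, hk, t, t0, t1, hLk⟩ := cell_exists hL0 (n := 29) (by norm_num) (by norm_num; linarith)
    by_cases ht : (k : ℕ) < lo
    · -- `L = lo/20`
      have hk1 : (k : ℝ) + 1 ≤ lo := by exact_mod_cast ht
      have hLe : L = (lo : ℝ) / 20 := by
        apply le_antisymm _ hlo
        rw [hLk]
        linarith
      have hlk : lo = k + 1 := by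
        have h5 : (lo : ℝ) ≤ k + 1 := by
          have : (lo : ℝ) / 20 = ((k : ℝ) + t) / 20 := by rw [← hLe, hLk]
          linarith
        have : lo ≤ k + 1 := by exact_mod_cast h5
        omega
      rcases Nat.lt_or_ge lo 29 with h6 | h6
      · have c := (c1 lo h6).resolve_left (lt_irrefl _)
        have c' : 10002 * (8 * 521684 * (737920 * 30 * ((lo : ℝ)+1)) + 128000 * max (3 * ((lo : ℝ)+1)^2 * 737920) (9600 * ((q.getD (off - lo) 0 : ℕ) : ℝ)))
            ≤ 96 * 10^12 * V + 10002 * (8 * 521684 * (100000 * ((lo : ℝ)+1)^2)) := by exact_mod_cast c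
        apply key (((lo : ℝ) + 1) / 20) (off - lo)
        · rw [hLe]; linarith
        · have : (lo : ℝ) ≤ 28 := by exact_mod_cast (by omega : lo ≤ 28)
          linarith
        · omega
        · rw [Nat.cast_sub (by omega)]; linarith
        · have e1 : max ((((lo : ℝ) + 1) / 20)^2 / 8 * 0.73792) (((q.getD (off - lo) 0 : ℕ) : ℝ) / 10^6)
              = max (3 * ((lo : ℝ)+1)^2 * 737920) (9600 * ((q.getD (off - lo) 0 : ℕ) : ℝ)) / (9600 * 10^6) := by
            rw [← max_div_div_right (by norm_num)]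
            congr 1 <;> ring
          rw [e1]
          set m := max (3 * ((lo : ℝ)+1)^2 * 737920) (9600 * ((q.getD (off - lo) 0 : ℕ) : ℝ))
          linarith
      · exfalso
        omega
    · have c := (c1 k hk).resolve_left ht
      have c' : 10002 * (8 * 521684 * (737920 * 30 * ((k : ℝ)+1)) + 128000 * max (3 * ((k : ℝ)+1)^2 * 737920) (9600 * ((q.getD (off - k) 0 : ℕ) : ℝ)))
          ≤ 96 * 10^12 * V + 10002 * (8 * 521684 * (100000 * ((k : ℝ)+1)^2)) := by exact_mod_cast c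
      apply key (((k : ℝ) + 1) / 20) (off - k)
      · rw [hLk]; linarith
      · have : (k : ℝ) ≤ 28 := by exact_mod_cast (by omega : k ≤ 28)
        linarith
      · omega
      · rw [Nat.cast_sub (by omega)]; linarith
      · have e1 : max ((((k : ℝ) + 1) / 20)^2 / 8 * 0.73792) (((q.getD (off - k) 0 : ℕ) : ℝ) / 10^6)
            = max (3 * ((k : ℝ)+1)^2 * 737920) (9600 * ((q.getD (off - k) 0 : ℕ) : ℝ)) / (9600 * 10^6) := by
          rw [← max_div_div_right (by norm_num)]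
          congr 1 <;> ring
        rw [e1]
        set m := max (3 * ((k : ℝ)+1)^2 * 737920) (9600 * ((q.getD (off - k) 0 : ℕ) : ℝ))
        linarith
  · have c' : 10002 * (40000 * 521684 * (3 * 737920 * 14945)
      + 128000 * max (3 * 14945^2 * 737920) (2400000000 * ((q.getD (off - 29) 0 : ℕ) : ℝ)))
      ≤ 24 * 10^18 * (V : ℝ) + 10002 * (40000 * 521684 * (20 * 14945^2)) := by exact_mod_cast c2
    apply key 1.4945 (off - 29) hL (by norm_num) (by omega)
    · rw [Nat.cast_sub (by omega)]; push_cast; linarith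
    · have e1 : max ((1.4945:ℝ)^2 / 8 * 0.73792) (((q.getD (off - 29) 0 : ℕ) : ℝ) / 10^6)
          = max (3 * 14945^2 * 737920) (2400000000 * ((q.getD (off - 29) 0 : ℕ) : ℝ)) / (2400000000 * 10^6) := by
        rw [← max_div_div_right (by norm_num)]
        congr 1
        · norm_num
        · ring
      rw [e1]
      set m := max (3 * 14945^2 * 737920) (2400000000 * ((q.getD (off - 29) 0 : ℕ) : ℝ))
      linarith

end Pool.Agent.CDk
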