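import Pool.Agent.CDk.D.Chk
import Pool.Agent.CDk.D.Tab

/-!
# Kernel evaluations of the checks of part D
-/

set_option maxRecDepth 100000

namespace Pool.Agent.CDk.Ker
open Pool.Agent.CDk.Tab Pool.Agent.CDk.Chk

theorem kC : chkC = true := by decide +kernel

theorem kp0 : nodesP 0 0 0 nb0 = true := by decide +kernel
theorem kp1 : nodesP 1 0 0 nb1 = true := by decide +kernel
theorem kp2 : nodesP 2 0 0 nb2 = true := by decide +kernel
theorem kp3 : nodesP 3 0 0 nb3 = true := by decide +kernel
theorem kp4 : nodesP 4 0 0 nb4 = true := by decide +kernel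
theorem kp5 : nodesP 5 0 0 nb5 = true := by decide +kernel
theorem kp6 : nodesP 6 0 0 nb6 = true := by decide +kernel
theorem kp7 : nodesP 7 0 0 nb7 = true := by decide +kernel
theorem kp8 : nodesP 8 0 0 nb8 = true := by decide +kernel
theorem kp9 : nodesP 9 0 0 nb9 = true := by decide +kernel
theorem kp10 : nodesP 10 0 0 nb10 = true := by decide +kernel
theorem kp11 : nodesP 11 0 0 nb11 = true := by decide +kernel
theorem kp12 : nodesP 12 0 0 nb12 = true := by decide +kernel
theorem kp13 : nodesP 13 0 0 nb13 = true := by decide +kernel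
theorem kp14 : nodesP 14 0 0 nb14 = true := by decide +kernel
theorem kp15 : nodesP 15 0 0 nb15 = true := by decide +kernel
theorem kp16 : nodesP 16 0 0 nb16 = true := by decide +kernel
theorem kp18 : nodesP 18 0 0 nb18 = true := by decide +kernel
theorem kp20 : nodesP 20 0 0 nb20 = true := by decide +kernel
theorem kp22 : nodesP 22 0 0 nb22 = true := by decide +kernel
theorem kp24 : nodesP 24 0 0 nb24 = true := by decide +kernel
theorem kp28 : nodesP 28 0 0 nb28 = true := by decide +kernel
theorem kp32 : nodesP 32 0 0 nb32 = true := by decide +kernel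
theorem kp36 : nodesP 36 0 0 nb36 = true := by decide +kernel
theorem kp40 : nodesP 40 0 0 nb40 = true := by decide +kernel
theorem kp44 : nodesP 44 0 0 nb44 = true := by decide +kernel
theorem kp48 : nodesP 48 0 0 nb48 = true := by decide +kernel
theorem kp52 : nodesP 52 0 0 nb52 = true := by decide +kernel
theorem kp56 : nodesP 56 0 0 nb56 = true := by decide +kernel
theorem kp60 : nodesP 60 0 0 nb60 = true := by decide +kernel
theorem kp61 : nodesP 61 0 0 nb61 = true := by decide +kernel
theorem kn1 : nodesN 1 0 0 nn1 = true := by decide +kernel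
theorem kn2 : nodesN 2 0 0 nn2 = true := by decide +kernel
theorem kn3 : nodesN 3 0 0 nn3 = true := by decide +kernel
theorem kn4 : nodesN 4 0 0 nn4 = true := by decide +kernel
theorem kn5 : nodesN 5 0 0 nn5 = true := by decide +kernel
theorem kn6 : nodesN 6 0 0 nn6 = true := by decide +kernel
theorem kn7 : nodesN 7 0 0 nn7 = true := by decide +kernel
theorem kn8 : nodesN 8 0 0 nn8 = true := by decide +kernel
theorem kn9 : nodesN 9 0 0 nn9 = true := by decide +kernel
theorem kv1 : chkV 1 (nv.getD 1 0) = true := by decide +kernel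
theorem kv2 : chkV 2 (nv.getD 2 0) = true := by decide +kernel
theorem kv3 : chkV 3 (nv.getD 3 0) = true := by decide +kernel
theorem kv4 : chkV 4 (nv.getD 4 0) = true := by decide +kernel
theorem kv5 : chkV 5 (nv.getD 5 0) = true := by decide +kernel
theorem kv6 : chkV 6 (nv.getD 6 0) = true := by decide +kernel
theorem kv7 : chkV 7 (nv.getD 7 0) = true := by decide +kernel
theorem kv8 : chkV 8 (nv.getD 8 0) = true := by decide +kernel
theorem kv9 : chkV 9 (nv.getD 9 0) = true := by decide +kernel
theorem kcn9 : cellN 9 nn9 nn8 x0 (nv.getD 9 0) (nv.getD 8 0) xv0 = true := by decide +kernel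
theorem kcn8 : cellN 8 nn8 nn7 x1 (nv.getD 8 0) (nv.getD 7 0) xv1 = true := by decide +kernel
theorem kcn7 : cellN 7 nn7 nn6 x2 (nv.getD 7 0) (nv.getD 6 0) xv2 = true := by decide +kernel
theorem kcn6 : cellN 6 nn6 nn5 x3 (nv.getD 6 0) (nv.getD 5 0) xv3 = true := by decide +kernel
theorem kcn5 : cellN 5 nn5 nn4 x4 (nv.getD 5 0) (nv.getD 4 0) xv4 = true := by decide +kernel
theorem kcn4 : cellN 4 nn4 nn3 x5 (nv.getD 4 0) (nv.getD 3 0) xv5 = true := by decide +kernel
theorem kcn3 : cellN 3 nn3 nn2 x6 (nv.getD 3 0) (nv.getD 2 0) xv6 = true := by decide +kernel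
theorem kcn2 : cellN 2 nn2 nn1 x7 (nv.getD 2 0) (nv.getD 1 0) xv7 = true := by decide +kernel
theorem kcn1 : cellN 1 nn1 nb0 x8 (nv.getD 1 0) (nv.getD 0 0) xv8 = true := by decide +kernel
theorem kcp0 : cellP 0 1 nb0 nb1 x9 xv9 = true := by decide +kernel
theorem kcp1 : cellP 1 2 nb1 nb2 x10 xv10 = true := by decide +kernel
theorem kcp2 : cellP 2 3 nb2 nb3 x11 xv11 = true := by decide +kernel
theorem kcp3 : cellP 3 4 nb3 nb4 x12 xv12 = true := by decide +kernel
theorem kcp4 : cellP 4 5 nb4 nb5 x13 xv13 = true := by decide +kernel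
theorem kcp5 : cellP 5 6 nb5 nb6 x14 xv14 = true := by decide +kernel
theorem kcp6 : cellP 6 7 nb6 nb7 x15 xv15 = true := by decide +kernel
theorem kcp7 : cellP 7 8 nb7 nb8 x15 xv15 = true := by decide +kernel
theorem kcp8 : cellP 8 9 nb8 nb9 x16 xv16 = true := by decide +kernel
theorem kcp9 : cellP 9 10 nb9 nb10 x16 xv16 = true := by decide +kernel
theorem kcp10 : cellP 10 11 nb10 nb11 x17 xv17 = true := by decide +kernel
theorem kcp11 : cellP 11 12 nb11 nb12 x17 xv17 = true := by decide +kernel
theorem kcp12 : cellP 12 13 nb12 nb13 x18 xv18 = true := by decide +kernel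
theorem kcp13 : cellP 13 14 nb13 nb14 x18 xv18 = true := by decide +kernel
theorem kcp14 : cellP 14 15 nb14 nb15 x18 xv18 = true := by decide +kernel
theorem kcp15 : cellP 15 16 nb15 nb16 x18 xv18 = true := by decide +kernel
theorem kcp16 : cellP 16 18 nb16 nb18 x19 xv19 = true := by decide +kernel
theorem kcp18 : cellP 18 20 nb18 nb20 x19 xv19 = true := by decide +kernel
theorem kcp20 : cellP 20 22 nb20 nb22 x19 xv19 = true := by decide +kernel
theorem kcp22 : cellP 22 24 nb22 nb24 x19 xv19 = true := by decide +kernel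
theorem kcp24 : cellP 24 28 nb24 nb28 x20 xv20 = true := by decide +kernel
theorem kcp28 : cellP 28 32 nb28 nb32 x20 xv20 = true := by decide +kernel
theorem kcp32 : cellP 32 36 nb32 nb36 x20 xv20 = true := by decide +kernel
theorem kcp36 : cellP 36 40 nb36 nb40 x20 xv20 = true := by decide +kernel
theorem kcp40 : cellP 40 44 nb40 nb44 x20 xv20 = true := by decide +kernel
theorem kcp44 : cellP 44 48 nb44 nb48 x20 xv20 = true := by decide +kernel
theorem kcp48 : cellP 48 52 nb48 nb52 x20 xv20 = true := by decide +kernel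
theorem kcp52 : cellP 52 56 nb52 nb56 x20 xv20 = true := by decide +kernel
theorem kcp56 : cellP 56 60 nb56 nb60 x20 xv20 = true := by decide +kernel
theorem kcp60 : cellP 60 61 nb60 nb61 x20 xv20 = true := by decide +kernel
theorem nv0 : nv.getD 0 0 = cdiv (12155 * 521692 * 200) 5087922 := by decide +kernel

end Pool.Agent.CDk.Ker
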