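import Pool.Agent.CDk.D.Tab

/-!
# Lists of templates
-/

set_option maxRecDepth 100000

namespace Pool.Agent.CDk.Tab

/-- all templates -/
def TL : List (ℕ × List ℕ) := [(xv0, x0), (xv1, x1), (xv2, x2), (xv3, x3), (xv4, x4), (xv5, x5), (xv6, x6), (xv7, x7), (xv8, x8), (xv9, x9), (xv10, x10), (xv11, x11), (xv12, x12), (xv13, x13), (xv14, x14), (xv15, x15), (xv16, x16), (xv17, x17), (xv18, x18), (xv19, x19), (xv20, x20), (sv0, s0), (sv1, s1), (sv2, s2), (sv3, s3), (sv4, s4), (sv5, s5), (sv6, s6)]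

/-- targets of the step with `0.45 ≤ a ≤ 1.55` -/
def SL : List (ℕ × List ℕ × ℕ) := [(sv0, s0, sd0), (sv1, s1, sd1), (sv2, s2, sd2), (sv3, s3, sd3), (sv4, s4, sd4), (sv5, s5, sd5)]

/-- class of the cell `[(9+i)/20, (10+i)/20]` -/
def cls (i : ℕ) : ℕ := if i = 0 then 0 else if i = 1 then 1 else if i = 2 then 2 else if i ≤ 4 then 3 else if i ≤ 7 then 4 else 5

/-- target of the cell -/
def tg (i : ℕ) : ℕ × List ℕ × ℕ := SL.getD (cls i) (0, [], 0)

end Pool.Agent.CDk.Tab
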