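import Pool.Agent.CDk.D.Chk
import Pool.Agent.CDk.D.Tab
import Pool.Agent.CDk.D.Tab2

/-!
# Kernel evaluations of the checks of part D (templates)
-/

set_option maxRecDepth 100000

namespace Pool.Agent.CDk.Ker
open Pool.Agent.CDk.Tab Pool.Agent.CDk.Chk

def chkT (p : ℕ × List ℕ) : Bool := (List.range 22).all (fun i => chkB p.1 p.2 (9 + i) (tg i).1 (tg i).2.1)

theorem kb1 : (TL.take 10).all chkT = true := by decide +kernel
theorem kb2 : ((TL.drop 10).take 10).all chkT = true := by decide +kernel
theorem kb3 : (TL.drop 20).all chkT = true := by decide +kernel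
theorem ks : SL.all (fun s => chkS s.1 s.2.1 s.2.2 && slope 1 s.2.1.tail && Nat.blt 0 s.1) = true := by decide +kernel
theorem ks6 : chkS sv6 s6 sd6 = true := by decide +kernel

end Pool.Agent.CDk.Ker
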