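import Pool.Agent.CDk.D.Chk2
import Pool.Agent.CDk.D.Tab
import Pool.Agent.CDk.D.Tab2

/-!
# Kernel evaluations of the checks of part D (comparisons)
-/

set_option maxRecDepth 100000

namespace Pool.Agent.CDk.Ker
open Pool.Agent.CDk.Tab Pool.Agent.CDk.Chk

theorem kmon : TL.all (fun p => Nat.blt 0 p.1 && monoB p.2) = true := by decide +kernel
theorem km5 : monoB s5 = true := by decide +kernel
theorem km6 : monoB s6 = true := by decide +kernel
theorem kmonq : monoB qt = true := by decide +kernel
theorem klin : chkLin qt = true := by decide +kernel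
theorem kshq : chkSh qt qt 32 = true := by decide +kernel
theorem kshs : chkSh qt s5 22 = true := by decide +kernel
theorem ks12 : chkS12 qt s6 = true := by decide +kernel
theorem klq : chkLine qt 9 477048 206028 = true := by decide +kernel
theorem kl5 : chkLine s5 8 477048 206028 = true := by decide +kernel
theorem kl6 : chkLine s6 8 477048 206028 = true := by decide +kernel
theorem ko5 : chkO qt 61 0 sv5 = true := by decide +kernel
theorem ko6 : chkO qt 32 12 sv6 = true := by decide +kernel
theorem kq : Nat.ble (qt.getD 9 0) 240000 && Nat.beq (qt.getD 62 0) 737920 = true := by decide +kernel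
theorem ksh7 : (SL.take 5).all (fun s => Nat.ble (10002 * qt.getD 7 0) (10000 * s.2.1.getD 43 0)) = true := by decide +kernel
theorem klen : [nb0, nb1, nb2, nb3, nb4, nb5, nb6, nb7, nb8, nb9, nb10, nb11, nb12, nb13, nb14, nb15, nb16, nb18, nb20, nb22, nb24, nb28, nb32, nb36, nb40, nb44, nb48, nb52, nb56, nb60, nb61, nn1, nn2, nn3, nn4, nn5, nn6, nn7, nn8, nn9].all (fun l => Nat.beq l.length 63) = true := by decide +kernel

end Pool.Agent.CDk.Ker
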