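import Pool.Agent.CDk.D.CELLb
import Pool.Agent.CDk.D.Chk
import Pool.Agent.CDk.D.D0
import Pool.Agent.CDk.D.NODEa
import Pool.Agent.CDk.D.PLd
import Pool.Agent.CDk.D.Tab
import Pool.Agent.CDk.D.TabSc
import Pool.Agent.CDk.Defs
import Pool.Agent.CDk.FNa
import Pool.Agent.CDk.FV
import Pool.Agent.CDk.GAP

/-!
# TPBa: the step with `0.45 ≤ a ≤ 1.55` on templates

`chkB`: for a template `(V, pl l)` and `a0/20 ≤ a ≤ (a0+1)/20`: node values `fF (-a/20) (k/20)` at `a = a0, a0+1` from `tb`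
(`N24 ≥ 2400 * 10^6 N`, `F24` = upper bound of `2400 * 10^6 fF`, `fF` is nondecreasing in `N`), chord errors `chord_r`, `chord_r0`, `chord_e`, `chord_V`
(`C` = the node values of `l`), target `S` and `qt`. Here `1/(Y - a/20) = 20/(20 Y - a) ≤ 20 * 10^5/(5087922 - 10^5 a)`. Cells: `r ≤ Y - a`
means `20 (r + a) ≤ 50.88`, so the cells with `a0 + k + 1 ≤ 51` suffice.
`E(a) = ∫_0^s sinh(s-τ) D(a-τ) dτ`: `sinh(s - ·)` is convex, below its chord on each `[j/20, (j+1)/20]`, `j < 10` (`sh_tab`), `D` is affine there when `20 a` is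
an integer (`goE`: `120 E 10^12`); the rest `τ ∈ [0.5, s]` contributes at most `D(a) (s-0.5)^2 ≤ 10^-6`; `E` is nondecreasing in `a`.
The `gV` inequality is in units `10^-15/2.4`: `2.4 * 10^15 gV = 10^6 sg * (2400 * 10^6 gv) + 20 * (120 * 10^12 E)`.
-/

open MeasureTheory Set Filter Topology

namespace Pool.Agent.CDk
open Tab Chk
variable {P : Par}

private theorem TPBa_loc {r : ℝ} (h0 : 0 ≤ r) (h1 : r ≤ 3.1) :
    ∃ k : ℕ, k < 62 ∧ ∃ t : ℝ, 0 ≤ t ∧ t ≤ 1 ∧ r = ((k : ℝ) + t) / 20 := by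
  rcases lt_or_ge (20 * r) 62 with h | h
  · refine ⟨⌊20 * r⌋₊, (Nat.floor_lt (by positivity)).2 (by exact_mod_cast h), 20 * r - ⌊20 * r⌋₊,
      sub_nonneg.2 (Nat.floor_le (by positivity)), ?_, by ring⟩
    have := Nat.lt_floor_add_one (20 * r)
    linarith
  · refine ⟨61, by norm_num, 1, by norm_num, le_rfl, ?_⟩
    push_cast
    norm_num at h1 ⊢
    linarith

private theorem TPBa_cdiv {a b : ℕ} (hb : 0 < b) : (a : ℝ) / b ≤ (cdiv a b : ℕ) := by
  have h1 : a ≤ cdiv a b * b := by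
    unfold cdiv
    have h2 := Nat.div_add_mod (a + b - 1) b
    have h3 := Nat.mod_lt (a + b - 1) hb
    rw [mul_comm]
    omega
  rw [div_le_iff₀ (by exact_mod_cast hb)]
  exact_mod_cast h1

private theorem TPBa_main {P : Par} {N : ℝ} {D : ℝ → ℝ} (h : P.Star) (hD : Pf D)
    (hI : I2 D P.Y ≤ N) {X : List ℕ} (hX : MonoL X) {e0 e1 e : ℝ} (h0 : e0 ≤ e) (h1 : e ≤ e1)
    (h01 : e0 < e1) (hY : 0 < P.Y + e0) {J : ℕ} (U V C : ℕ → ℝ)
    (hU : ∀ j : ℕ, 1 ≤ j → j ≤ J → fF P N D e0 (j / 20) * 10^6 ≤ U j)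
    (hV : ∀ j : ℕ, 1 ≤ j → j ≤ J → fF P N D e1 (j / 20) * 10^6 ≤ V j)
    (hC : ∀ j : ℕ, 1 ≤ j → j ≤ J → D (j / 20 - e0) * 10^6 ≤ C j)
    (hCm : ∀ j : ℕ, 1 ≤ j → j ≤ J → C j ≤ C (j + 1))
    (hc : ∀ j : ℕ, 1 ≤ j → j ≤ J → 1.0002 * (max (U j) (V j) + C j * (400 * (e1 - e0)^2) / 3200
      + (if j = 1 then 4 else 1) * C (j + 1) / 3200) ≤ (X.getD j 0 : ℕ))
    {k : ℕ} (hk : k < 62) (hkJ : k + 1 ≤ J) {t : ℝ} (ht0 : 0 ≤ t) (ht1 : t ≤ 1) :
    1.0002 * fF P N D e ((k + t) / 20) ≤ pl X ((k + t) / 20) := by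
  have hd : 0 < e1 - e0 := sub_pos.2 h01
  -- node bounds
  have hn : ∀ j : ℕ, 1 ≤ j → j ≤ J → fF P N D e (j / 20) * 10^6 ≤
      max (U j) (V j) + C j * (400 * (e1 - e0)^2) / 3200 := by
    intro j hj hjJ
    have hs0 : 0 ≤ (e - e0) / (e1 - e0) := div_nonneg (sub_nonneg.2 h0) hd.le
    have hs1 : (e - e0) / (e1 - e0) ≤ 1 := by
      rw [div_le_one hd]
      linarith
    have he : (1 - (e - e0) / (e1 - e0)) * e0 + (e - e0) / (e1 - e0) * e1 = e := by
      field_simp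
      ring
    have h2 := chord_e (N := N) h hD hI h01.le hY hs0 hs1 (r := (j : ℝ) / 20)
      (C := C j / 10^6) (by positivity) (by
        rw [le_div_iff₀ (by norm_num)]
        exact hC j hj hjJ)
    rw [he] at h2
    have h3 := hU j hj hjJ
    have h4 := hV j hj hjJ
    set s := (e - e0) / (e1 - e0) with hs
    have h5 : (1 - s) * (fF P N D e0 (j / 20) * 10^6) ≤ (1 - s) * max (U j) (V j) :=
      mul_le_mul_of_nonneg_left (h3.trans (le_max_left _ _)) (by linarith)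
    have h6 : s * (fF P N D e1 (j / 20) * 10^6) ≤ s * max (U j) (V j) :=
      mul_le_mul_of_nonneg_left (h4.trans (le_max_right _ _)) hs0
    have h7 : fF P N D e (j / 20) * 10^6 ≤ (1 - s) * (fF P N D e0 (j / 20) * 10^6) +
        s * (fF P N D e1 (j / 20) * 10^6) + C j * (400 * (e1 - e0)^2) / 3200 := by
      have h8 := mul_le_mul_of_nonneg_right h2 (show (0:ℝ) ≤ 10^6 by norm_num)
      refine h8.trans (le_of_eq ?_)
      ring
    linarith only [h2, h5, h6]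
  have hC0 : ∀ j : ℕ, 1 ≤ j → j ≤ J → 0 ≤ C j := fun j hj hjJ =>
    (mul_nonneg (hD.nonneg _) (by norm_num)).trans (hC j hj hjJ)
  have hk1 : 1 ≤ k + 1 := Nat.le_add_left 1 k
  have hCk := hC (k + 1) hk1 hkJ
  have hCk' : D ((k + 1) / 20 - e) ≤ C (k + 1) / 10^6 := by
    rw [le_div_iff₀ (by norm_num)]
    refine le_trans ?_ hCk
    refine mul_le_mul_of_nonneg_right (hD.mono ?_) (by norm_num)
    push_cast
    linarith
  rw [pl_cell hX hk ht0 ht1]
  rcases Nat.eq_zero_or_pos k with hk0 | hk0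
  · subst hk0
    have h2 := chord_r0 (P := P) (N := N) hD ht0 ht1 (e := e) (C := C (0 + 1) / 10^6) (by
      have := hCk'
      norm_num at this ⊢
      exact this)
    have h3 := hn (0 + 1) hk1 hkJ
    have h4 := hc (0 + 1) hk1 hkJ
    have h5 := hCm (0 + 1) hk1 hkJ
    have h6 := hX.2.1
    rw [if_pos rfl] at h4
    rw [h6]
    have h7 : (((0 : ℕ) : ℝ) + t) / 20 = t / 20 := by norm_num
    rw [h7]
    have h8 : (((0 + 1 : ℕ) : ℝ)) / 20 = 1 / 20 := by norm_num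
    rw [h8] at h3
    have h9 : 1.0002 * (fF P N D e (1 / 20) + C (0 + 1) / 10^6 / 800) ≤
        ((X.getD (0 + 1) 0 : ℕ) : ℝ) / 10^6 := by
      rw [le_div_iff₀ (by norm_num)]
      refine le_trans ?_ h4
      have h10 : 1.0002 * (fF P N D e (1 / 20) + C (0 + 1) / 10^6 / 800) * 10^6 =
        1.0002 * (fF P N D e (1 / 20) * 10^6 + 4 * C (0 + 1) / 3200) := by ring
      rw [h10]
      refine mul_le_mul_of_nonneg_left ?_ (by norm_num)
      linarith only [h3, h5]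
    have h11 := mul_le_mul_of_nonneg_left h9 ht0
    have h12 := mul_le_mul_of_nonneg_left h2 (show (0:ℝ) ≤ 1.0002 by norm_num)
    refine h12.trans ?_
    have h13 : 1.0002 * (t * (fF P N D e (1 / 20) + C (0 + 1) / 10^6 / 800)) =
      t * (1.0002 * (fF P N D e (1 / 20) + C (0 + 1) / 10^6 / 800)) := by ring
    rw [h13]
    refine h11.trans (le_of_eq ?_)
    push_cast
    ring
  · have h2 := chord_r (P := P) (N := N) hD ht0 ht1 (e := e) (k := k) hCk'
    have h3 := hn k hk0 (by omega)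
    have h4 := hc k hk0 (by omega)
    have h5 := hn (k + 1) hk1 hkJ
    have h6 := hc (k + 1) hk1 hkJ
    have h7 := hCm (k + 1) hk1 hkJ
    have h8 := hC0 (k + 1) hk1 hkJ
    rw [if_neg (by omega)] at h6
    have h9 : (fF P N D e (k / 20) * 10^6 + C (k + 1) / 3200) * 1.0002 ≤
        ((X.getD k 0 : ℕ) : ℝ) := by
      refine le_trans ?_ h4
      rw [mul_comm]
      refine mul_le_mul_of_nonneg_left ?_ (by norm_num)
      have h10 : C (k + 1) / 3200 ≤ (if k = 1 then 4 else 1) * C (k + 1) / 3200 := by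
        split_ifs <;> linarith
      linarith only [h3, h10]
    have h10 : (fF P N D e ((k + 1) / 20) * 10^6 + C (k + 1) / 3200) * 1.0002 ≤
        ((X.getD (k + 1) 0 : ℕ) : ℝ) := by
      refine le_trans ?_ h6
      rw [mul_comm]
      refine mul_le_mul_of_nonneg_left ?_ (by norm_num)
      push_cast at h5
      linarith only [h7, h5]
    have h11 := mul_le_mul_of_nonneg_left h9 (show (0:ℝ) ≤ 1 - t by linarith only [ht1])
    have h12 := mul_le_mul_of_nonneg_left h10 ht0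
    rw [le_div_iff₀ (by norm_num)]
    have h13 := mul_le_mul_of_nonneg_left h2 (show (0:ℝ) ≤ 1.0002 * 10^6 by norm_num)
    refine le_trans (le_of_eq ?_) (h13.trans ((le_of_eq ?_).trans (add_le_add h11 h12)))
    · ring
    · ring

private theorem TPBa_tail {l : List ℕ} {i : ℕ} : l.tail.getD i 0 = l.getD (i + 1) 0 := by
  cases l <;> simp

private theorem TPBa_drop {α : Type} (l : List α) (n i : ℕ) (d : α) :
    (l.drop n).getD i d = l.getD (n + i) d := by
  rw [List.getD_eq_getElem?_getD, List.getD_eq_getElem?_getD, List.getElem?_drop]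

private theorem TPBa_L {l : List ℕ} {a j : ℕ} (ha : a + 1 ≤ l.length) :
    ((l.take (a + 1)).reverse ++ List.replicate 11 0).getD j 0 =
      if j ≤ a then l.getD (a - j) 0 else 0 := by
  have hlen : (l.take (a + 1)).length = a + 1 := by simp [ha]
  rw [List.getD_eq_getElem?_getD]
  split_ifs with h
  · rw [List.getElem?_append_left (by rw [List.length_reverse, hlen]; omega),
      List.getElem?_reverse (by rw [hlen]; omega), hlen, List.getElem?_take_of_lt (by omega),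
      List.getD_eq_getElem?_getD]
    congr 2
  · rw [List.getElem?_append_right (by rw [List.length_reverse, hlen]; omega),
      List.getElem?_replicate]
    split_ifs <;> rfl

private theorem TPBa_poly (a b c d : ℝ) :
    ∫ t in (0:ℝ)..1, (a + b * t + c * t ^ 2 + d * t ^ 3) = a + b / 2 + c / 3 + d / 4 := by
  have h := intervalIntegral.integral_eq_sub_of_hasDerivAt (a := 0) (b := 1)
    (f := fun t => a * t + b / 2 * t ^ 2 + c / 3 * t ^ 3 + d / 4 * t ^ 4)
    (f' := fun t => a + b * t + c * t ^ 2 + d * t ^ 3) (fun t _ => by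
      have h1 := (((hasDerivAt_id t).const_mul a).add ((hasDerivAt_pow 2 t).const_mul (b / 2))).add
        ((hasDerivAt_pow 3 t).const_mul (c / 3))
      have h2 := h1.add ((hasDerivAt_pow 4 t).const_mul (d / 4))
      refine h2.congr_deriv ?_
      push_cast
      ring)
    (Continuous.intervalIntegrable (by fun_prop) _ _)
  rw [h]
  ring

private theorem TPBa_cellint {f : ℝ → ℝ} (j : ℕ) :
    ∫ x in ((j : ℝ) / 20)..(((j + 1 : ℕ) : ℝ) / 20), f x =
    (∫ t in (0:ℝ)..1, f (((j : ℝ) + t) / 20)) / 20 := by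
  have h := intervalIntegral.integral_comp_add_div (a := 0) (b := 1) f (c := 20) (by norm_num)
    ((j : ℝ) / 20)
  have h1 : (fun t : ℝ => f (((j : ℝ) + t) / 20)) = fun t => f ((j : ℝ) / 20 + t / 20) := by
    funext t
    rw [add_div]
  have h2 : (j : ℝ) / 20 + 0 / 20 = (j : ℝ) / 20 := by ring
  have h3 : (j : ℝ) / 20 + 1 / 20 = ((j + 1 : ℕ) : ℝ) / 20 := by push_cast; ring
  rw [h1, h, h2, h3, smul_eq_mul]
  ring

/-- `sinh x - c x²/2` is convex on `[c, ∞)` -/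
private theorem TPBa_sinh {c : ℝ} (hc : 0 ≤ c) {x0 x1 t : ℝ} (hx1 : c ≤ x1) (hx0 : c ≤ x0)
    (h0 : 0 ≤ t) (h1 : t ≤ 1) :
    Real.sinh ((1 - t) * x0 + t * x1) ≤ (1 - t) * Real.sinh x0 + t * Real.sinh x1 -
      c / 2 * (t * (1 - t) * (x0 - x1) ^ 2) := by
  have hconv : ConvexOn ℝ (Ici c) (fun x => Real.sinh x - c / 2 * x ^ 2) := by
    refine convexOn_of_hasDerivWithinAt2_nonneg (convex_Ici c)
      (f' := fun x => Real.cosh x - c * x) (f'' := fun x => Real.sinh x - c)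
      (by fun_prop) (fun x _ => ?_) (fun x _ => ?_) (fun x hx => ?_)
    · have h2 := (Real.hasDerivAt_sinh x).sub ((hasDerivAt_pow 2 x).const_mul (c / 2))
      exact (h2.congr_deriv (by push_cast; ring)).hasDerivWithinAt
    · have h2 := (Real.hasDerivAt_cosh x).sub ((hasDerivAt_id x).const_mul c)
      exact (h2.congr_deriv (by ring)).hasDerivWithinAt
    · rw [interior_Ici] at hx
      have h3 : c < x := hx
      have h4 : x ≤ Real.sinh x := Real.self_le_sinh_iff.2 (hc.trans h3.le)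
      linarith
  have h2 := hconv.2 (show x0 ∈ Ici c from hx0) (show x1 ∈ Ici c from hx1)
    (show 0 ≤ 1 - t by linarith) h0 (by ring)
  simp only [smul_eq_mul] at h2
  have h3 : (1 - t) * (Real.sinh x0 - c / 2 * x0 ^ 2) + t * (Real.sinh x1 - c / 2 * x1 ^ 2) +
      c / 2 * ((1 - t) * x0 + t * x1) ^ 2 = (1 - t) * Real.sinh x0 + t * Real.sinh x1 -
      c / 2 * (t * (1 - t) * (x0 - x1) ^ 2) := by ring
  linarith only [h2]

private theorem TPBa_goE : ∀ (n : ℕ) (S L : List ℕ), S.length = n + 1 → n + 1 ≤ L.length →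
    goE S L = ∑ j ∈ Finset.range n, (2 * S.getD j 0 * L.getD j 0 + S.getD j 0 * L.getD (j + 1) 0 +
      S.getD (j + 1) 0 * L.getD j 0 + 2 * S.getD (j + 1) 0 * L.getD (j + 1) 0) := by
  intro n
  induction n with
  | zero =>
    intro S L hS hL
    rcases S with _ | ⟨s0, _ | ⟨s1, S⟩⟩
    · simp at hS
    · simp [goE]
    · simp at hS
  | succ n ih =>
    intro S L hS hL
    rcases S with _ | ⟨s0, _ | ⟨s1, S⟩⟩
    · simp at hS
    · simp at hS
    rcases L with _ | ⟨d0, _ | ⟨d1, L⟩⟩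
    · simp at hL
    · simp at hL
    have h1 := ih (s1 :: S) (d1 :: L) (by simpa using hS) (by simpa using hL)
    rw [goE, h1, Finset.sum_range_succ']
    simp only [List.getD_cons_succ, List.getD_cons_zero]
    ring

/-- the profile near `a/20`, going backwards -/
private theorem TPBa_back {l : List ℕ} (hl : MonoL l) {a j : ℕ} (ha : a ≤ 62) {t : ℝ} (h0 : 0 ≤ t)
    (h1 : t ≤ 1) : pl l ((a : ℝ) / 20 - ((j : ℝ) + t) / 20) * 10^6 =
      (1 - t) * (if j ≤ a then (l.getD (a - j) 0 : ℕ) else 0 : ℝ) +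
      t * (if j + 1 ≤ a then (l.getD (a - (j + 1)) 0 : ℕ) else 0 : ℝ) := by
  by_cases hj : j + 1 ≤ a
  · rw [if_pos (by omega), if_pos hj]
    have h2 : (a : ℝ) / 20 - ((j : ℝ) + t) / 20 = (((a - (j + 1) : ℕ) : ℝ) + (1 - t)) / 20 := by
      rw [Nat.cast_sub hj]
      push_cast
      ring
    rw [h2, pl_cell hl (by omega) (by linarith) (by linarith),
      show a - (j + 1) + 1 = a - j by omega]
    ring
  · rw [if_neg hj]
    have h2 : pl l ((a : ℝ) / 20 - ((j : ℝ) + t) / 20) = 0 := by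
      refine (pl_pf hl).zero _ ?_
      have h3 : (a : ℝ) ≤ j := by exact_mod_cast (by omega : a ≤ j)
      linarith
    rw [h2]
    by_cases hj2 : j ≤ a
    · rw [if_pos hj2, show a - j = 0 by omega, hl.2.1]
      push_cast
      ring
    · rw [if_neg hj2]
      ring

/-- one cell of `E` -/
private theorem TPBa_cellE {l : List ℕ} (hl : MonoL l) {a j : ℕ} (ha : a ≤ 62) {s c s0 s1 : ℝ}
    (hc : 0 ≤ c) (hcs : c ≤ s - ((j : ℝ) + 1) / 20)
    (hs0 : Real.sinh (s - (j : ℝ) / 20) * 10^6 ≤ s0)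
    (hs1 : Real.sinh (s - ((j : ℝ) + 1) / 20) * 10^6 ≤ s1) :
    (∫ τ in ((j : ℝ) / 20)..(((j + 1 : ℕ) : ℝ) / 20), Real.sinh (s - τ) * pl l ((a : ℝ) / 20 - τ)) *
      (120 * 10^12) ≤
      2 * s0 * (if j ≤ a then (l.getD (a - j) 0 : ℕ) else 0 : ℝ) +
      s0 * (if j + 1 ≤ a then (l.getD (a - (j + 1)) 0 : ℕ) else 0 : ℝ) +
      s1 * (if j ≤ a then (l.getD (a - j) 0 : ℕ) else 0 : ℝ) +
      2 * s1 * (if j + 1 ≤ a then (l.getD (a - (j + 1)) 0 : ℕ) else 0 : ℝ) -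
      625 * c * ((if j ≤ a then (l.getD (a - j) 0 : ℕ) else 0 : ℝ) +
        (if j + 1 ≤ a then (l.getD (a - (j + 1)) 0 : ℕ) else 0 : ℝ)) := by
  set d0 : ℝ := (if j ≤ a then (l.getD (a - j) 0 : ℕ) else 0 : ℝ) with hd0
  set d1 : ℝ := (if j + 1 ≤ a then (l.getD (a - (j + 1)) 0 : ℕ) else 0 : ℝ) with hd1
  have hd0' : 0 ≤ d0 := by rw [hd0]; split_ifs <;> positivity
  have hd1' : 0 ≤ d1 := by rw [hd1]; split_ifs <;> positivity
  have hpc : Continuous (pl l) := (pl_pf hl).cont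
  rw [TPBa_cellint]
  have hle : (∫ t in (0:ℝ)..1, Real.sinh (s - ((j : ℝ) + t) / 20) *
      pl l ((a : ℝ) / 20 - ((j : ℝ) + t) / 20)) * 10^12 ≤
      ∫ t in (0:ℝ)..1, ((1 - t) * s0 + t * s1 - c * 1250 * (t * (1 - t))) *
        ((1 - t) * d0 + t * d1) := by
    rw [← intervalIntegral.integral_mul_const]
    refine intervalIntegral.integral_mono_on (by norm_num)
      (Continuous.intervalIntegrable (by fun_prop) _ _)
      (Continuous.intervalIntegrable (by fun_prop) _ _) fun t ht => ?_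
    have h2 := TPBa_back hl (j := j) ha ht.1 ht.2
    rw [← hd0, ← hd1] at h2
    have h3 := TPBa_sinh hc hcs (x0 := s - (j : ℝ) / 20) (by linarith) ht.1 ht.2
    have h4 : (1 - t) * (s - (j : ℝ) / 20) + t * (s - ((j : ℝ) + 1) / 20) =
      s - ((j : ℝ) + t) / 20 := by ring
    have h5 : s - (j : ℝ) / 20 - (s - ((j : ℝ) + 1) / 20) = 1 / 20 := by ring
    rw [h4, h5] at h3
    have h6 : Real.sinh (s - ((j : ℝ) + t) / 20) * 10^6 ≤
        (1 - t) * s0 + t * s1 - c * 1250 * (t * (1 - t)) := by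
      have h7 := mul_le_mul_of_nonneg_left hs0 (show 0 ≤ 1 - t by linarith only [ht.2, ht])
      have h8 := mul_le_mul_of_nonneg_left hs1 ht.1
      nlinarith only [h3, h7, h8]
    have h9 : Real.sinh (s - ((j : ℝ) + t) / 20) * pl l ((a : ℝ) / 20 - ((j : ℝ) + t) / 20) *
        10^12 = (Real.sinh (s - ((j : ℝ) + t) / 20) * 10^6) *
        (pl l ((a : ℝ) / 20 - ((j : ℝ) + t) / 20) * 10^6) := by ring
    rw [h9, h2]
    refine mul_le_mul_of_nonneg_right h6 (add_nonneg (mul_nonneg (by linarith only [ht.2, ht]) hd0')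
      (mul_nonneg ht.1 hd1'))
  have hint : (∫ t in (0:ℝ)..1, ((1 - t) * s0 + t * s1 - c * 1250 * (t * (1 - t))) *
        ((1 - t) * d0 + t * d1)) = (2 * s0 * d0 + s0 * d1 + s1 * d0 + 2 * s1 * d1) / 6 -
        c * 1250 * (d0 + d1) / 12 := by
    have h2 : (fun t : ℝ => ((1 - t) * s0 + t * s1 - c * 1250 * (t * (1 - t))) *
        ((1 - t) * d0 + t * d1)) = fun t => s0 * d0 + ((s1 - s0 - c * 1250) * d0 + s0 * (d1 - d0)) * t +
        ((s1 - s0 - c * 1250) * (d1 - d0) + c * 1250 * d0) * t ^ 2 +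
        (c * 1250 * (d1 - d0)) * t ^ 3 := by
      funext t
      ring
    rw [h2, TPBa_poly]
    ring
  rw [hint] at hle
  have h3 : ∀ I : ℝ, I / 20 * (120 * 10^12) = 6 * (I * 10^12) := fun I => by ring
  rw [h3]
  refine (mul_le_mul_of_nonneg_left hle (by norm_num)).trans (le_of_eq ?_)
  ring

/-- the integral `E` at a node -/
private theorem TPBa_E {P : Par} (h : P.Star) {l : List ℕ} (hl : MonoL l) {a : ℕ} (ha : a ≤ 61) :
    (∫ τ in (0:ℝ)..P.s, Real.sinh (P.s - τ) * pl l ((a : ℝ) / 20 - τ)) * (120 * 10^12) ≤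
      (Esum a l : ℕ) := by
  have hs1 := h.s_lo
  have hs2 := h.s_hi
  have hpc : Continuous (pl l) := (pl_pf hl).cont
  have hfc : Continuous fun τ => Real.sinh (P.s - τ) * pl l ((a : ℝ) / 20 - τ) := by fun_prop
  set δ : ℕ → ℝ := fun j => (if j ≤ a then (l.getD (a - j) 0 : ℕ) else 0 : ℝ) with hδ
  have hδ0 : ∀ j, 0 ≤ δ j := fun j => by
    simp only [hδ]
    split_ifs <;> positivity
  have hlm : ∀ i j : ℕ, i ≤ j → j ≤ 62 → l.getD i 0 ≤ l.getD j 0 := by
    intro i j hij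
    induction j, hij using Nat.le_induction with
    | base => exact fun _ => le_rfl
    | succ j hij ih => exact fun hj => (ih (by omega)).trans (hl.2.2 j (by omega))
  have hδm : ∀ i j : ℕ, i ≤ j → δ j ≤ δ i := by
    intro i j hij
    simp only [hδ]
    split_ifs with h1 h2
    · exact_mod_cast hlm _ _ (by omega) (by omega)
    · omega
    · positivity
    · exact le_rfl
  -- the sum
  have hsum : ((Esum a l : ℕ) : ℝ) = ∑ j ∈ Finset.range 10, (2 * ((sh.getD j 0 : ℕ) : ℝ) * δ j +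
      ((sh.getD j 0 : ℕ) : ℝ) * δ (j + 1) + ((sh.getD (j + 1) 0 : ℕ) : ℝ) * δ j +
      2 * ((sh.getD (j + 1) 0 : ℕ) : ℝ) * δ (j + 1)) := by
    unfold Esum
    have hlen : l.length = 63 := hl.1
    rw [TPBa_goE 10 sh _ rfl (by
      rw [List.length_append, List.length_replicate]
      omega)]
    rw [Nat.cast_sum]
    refine Finset.sum_congr rfl fun j _ => ?_
    rw [TPBa_L (by omega), TPBa_L (by omega)]
    simp only [hδ]
    push_cast
    ring
  -- the cells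
  have hcell : (∫ τ in (0:ℝ)..(1 / 2), Real.sinh (P.s - τ) * pl l ((a : ℝ) / 20 - τ)) =
      ∑ j ∈ Finset.range 10, ∫ τ in ((j : ℝ) / 20)..(((j + 1 : ℕ) : ℝ) / 20),
        Real.sinh (P.s - τ) * pl l ((a : ℝ) / 20 - τ) := by
    have h1 := intervalIntegral.sum_integral_adjacent_intervals (μ := volume)
      (f := fun τ => Real.sinh (P.s - τ) * pl l ((a : ℝ) / 20 - τ))
      (a := fun j : ℕ => (j : ℝ) / 20) (n := 10) (fun k _ => hfc.intervalIntegrable _ _)
    rw [h1]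
    norm_num
  have hterm : ∀ j : ℕ, j < 10 → ∀ c : ℝ, 0 ≤ c → c ≤ P.s - ((j : ℝ) + 1) / 20 →
      (∫ τ in ((j : ℝ) / 20)..(((j + 1 : ℕ) : ℝ) / 20), Real.sinh (P.s - τ) *
        pl l ((a : ℝ) / 20 - τ)) * (120 * 10^12) ≤
      (2 * ((sh.getD j 0 : ℕ) : ℝ) * δ j + ((sh.getD j 0 : ℕ) : ℝ) * δ (j + 1) +
      ((sh.getD (j + 1) 0 : ℕ) : ℝ) * δ j + 2 * ((sh.getD (j + 1) 0 : ℕ) : ℝ) * δ (j + 1)) -
      625 * c * (δ j + δ (j + 1)) := by
    intro j hj c hc hcs
    have h1 := sh_tab h (j := j) (by omega)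
    have h2 := sh_tab h (j := j + 1) (by omega)
    push_cast at h2
    exact TPBa_cellE hl (by omega) hc hcs h1 h2
  have h10 : (∫ τ in (0:ℝ)..(1 / 2), Real.sinh (P.s - τ) * pl l ((a : ℝ) / 20 - τ)) *
      (120 * 10^12) ≤ (Esum a l : ℕ) - 250 * (δ 0 + δ 1) := by
    rw [hcell, hsum, Finset.sum_mul, Finset.sum_range_succ', Finset.sum_range_succ' _ 9]
    have h1 := hterm 0 (by norm_num) 0.4 (by norm_num) (by norm_num at hs1 ⊢; linarith)
    have h2 : ∀ j ∈ Finset.range 9, (∫ τ in (((j + 1 : ℕ) : ℝ) / 20)..(((j + 1 + 1 : ℕ) : ℝ) / 20),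
        Real.sinh (P.s - τ) * pl l ((a : ℝ) / 20 - τ)) * (120 * 10^12) ≤
        (2 * ((sh.getD (j + 1) 0 : ℕ) : ℝ) * δ (j + 1) +
        ((sh.getD (j + 1) 0 : ℕ) : ℝ) * δ (j + 1 + 1) + ((sh.getD (j + 1 + 1) 0 : ℕ) : ℝ) * δ (j + 1) +
        2 * ((sh.getD (j + 1 + 1) 0 : ℕ) : ℝ) * δ (j + 1 + 1)) := by
      intro j hj
      rw [Finset.mem_range] at hj
      have h3 := hterm (j + 1) (by omega) 0 le_rfl (by
        have h4 : (j : ℝ) ≤ 8 := by exact_mod_cast (by omega : j ≤ 8)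
        push_cast
        norm_num at hs1
        linarith only [h4, hs1])
      rw [mul_zero, zero_mul, sub_zero] at h3
      exact h3
    have h3 := Finset.sum_le_sum h2
    have h4 : (625 : ℝ) * 0.4 = 250 := by norm_num
    rw [h4] at h1
    linarith only [h1, h3]
  -- the tail
  have hsh := sh_tab h (j := 10) le_rfl
  have hsh2 : Real.sinh (P.s - 1 / 2) ≤ 0.000523 := by
    have h1 : ((sh.getD 10 0 : ℕ) : ℝ) = 523 := by norm_num [sh]
    rw [h1] at hsh
    have h2 : P.s - ((10 : ℕ) : ℝ) / 20 = P.s - 1 / 2 := by norm_num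
    rw [h2] at hsh
    norm_num at hsh ⊢
    linarith only [hsh]
  have htail : (∫ τ in (1 / 2 : ℝ)..P.s, Real.sinh (P.s - τ) * pl l ((a : ℝ) / 20 - τ)) *
      (120 * 10^12) ≤ 250 * (δ 0 + δ 1) := by
    have hs12 : (1 / 2 : ℝ) ≤ P.s := by norm_num at hs1; linarith
    have h1 : ∀ τ ∈ Icc (1 / 2 : ℝ) P.s, Real.sinh (P.s - τ) * pl l ((a : ℝ) / 20 - τ) ≤
        0.000523 * (δ 10 / 10^6) := by
      intro τ hτ
      have h2 : Real.sinh (P.s - τ) ≤ 0.000523 :=
        (Real.sinh_le_sinh.2 (by linarith [hτ.1])).trans hsh2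
      have h3 : pl l ((a : ℝ) / 20 - τ) ≤ δ 10 / 10^6 := by
        have h4 := TPBa_back hl (a := a) (j := 10) (by omega) (t := 0) le_rfl (by norm_num)
        have h5 : pl l ((a : ℝ) / 20 - ((10 : ℕ) + 0) / 20) * 10^6 = δ 10 := by
          rw [h4]
          simp [hδ]
        rw [← h5, mul_div_cancel_right₀ _ (by norm_num)]
        refine (pl_pf hl).mono ?_
        push_cast
        linarith only [hτ.1, hτ]
      exact mul_le_mul h2 h3 ((pl_pf hl).nonneg _) (by norm_num)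
    have h2 : (∫ τ in (1 / 2 : ℝ)..P.s, Real.sinh (P.s - τ) * pl l ((a : ℝ) / 20 - τ)) ≤
        ∫ _τ in (1 / 2 : ℝ)..P.s, 0.000523 * (δ 10 / 10^6) :=
      intervalIntegral.integral_mono_on hs12 (hfc.intervalIntegrable _ _)
        (Continuous.intervalIntegrable (by fun_prop) _ _) h1
    rw [intervalIntegral.integral_const, smul_eq_mul] at h2
    have h3 : (P.s - 1 / 2) * (0.000523 * (δ 10 / 10^6)) ≤ 0.000521 * (0.000523 * (δ 10 / 10^6)) :=
      mul_le_mul_of_nonneg_right (by norm_num at hs2 ⊢; linarith only [hs2])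
        (by have := hδ0 10; positivity)
    have h4 := hδm 0 10 (by norm_num)
    have h5 := hδm 1 10 (by norm_num)
    have h6 := hδ0 10
    have h7 := mul_le_mul_of_nonneg_right (h2.trans h3) (show (0:ℝ) ≤ 120 * 10^12 by norm_num)
    refine h7.trans ?_
    norm_num
    linarith only [h4, h5, h6]
  rw [← intervalIntegral.integral_add_adjacent_intervals (hfc.intervalIntegrable 0 (1 / 2))
    (hfc.intervalIntegrable (1 / 2) P.s), add_mul]
  linarith only [h10, htail]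

private theorem TPBa_F24 {P : Par} (h : P.Star) {N : ℝ} {l : List ℕ} (hl : MonoL l) {N24 a j : ℕ}
    (hN : 2400 * 10^6 * N ≤ N24) (ha : a ≤ 31) (hj : a + j ≤ 62) :
    fF P N (pl l) (-((a : ℝ) / 20)) (j / 20) * 10^6 ≤
      ((F24 N24 a j ((tb 0 0 l).getD a (0,0,0)).2.2 ((tb 0 0 l).getD (a + j) (0,0,0)).2.2 : ℕ) : ℝ) /
        2400 := by
  have hYp := (Par.Y_pos h).1
  set Ja := ((tb 0 0 l).getD a (0,0,0)).2.2 with hJa
  set Jb := ((tb 0 0 l).getD (a + j) (0,0,0)).2.2 with hJb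
  have h1 := pl_I2 hl (k := a) (by omega)
  have h2 := pl_I2 hl (k := a + j) hj
  rw [← hJa] at h1
  rw [← hJb] at h2
  have haR : (a : ℝ) ≤ 31 := by exact_mod_cast ha
  have hY0 : 0 < P.Y + -((a : ℝ) / 20) := by
    norm_num at hYp
    linarith only [haR, hYp]
  have hsub : 100000 * a ≤ 5087922 := by omega
  have hB : (0:ℝ) < ((5087922 - 100000 * a : ℕ) : ℝ) := by
    exact_mod_cast (by omega : 0 < 5087922 - 100000 * a)
  have hBr : ((5087922 - 100000 * a : ℕ) : ℝ) = 5087922 - 100000 * (a : ℝ) := by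
    rw [Nat.cast_sub hsub]
    push_cast
    ring
  have hBY : ((5087922 - 100000 * a : ℕ) : ℝ) / (2 * 10^6) ≤ P.Y + -((a : ℝ) / 20) := by
    rw [hBr, div_le_iff₀ (by norm_num)]
    norm_num at hYp ⊢
    linarith only [hYp]
  -- the quotient
  have hX : 2400 * 10^6 * N - Ja ≤ ((N24 - Ja : ℕ) : ℝ) := by
    have h3 : (N24 : ℝ) ≤ ((N24 - Ja : ℕ) : ℝ) + Ja := by
      exact_mod_cast (by omega : N24 ≤ N24 - Ja + Ja)
    linarith only [hN, h3]
  have hX0 : (0:ℝ) ≤ ((N24 - Ja : ℕ) : ℝ) := Nat.cast_nonneg _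
  obtain ⟨c, hcd⟩ : ∃ c : ℕ, c = cdiv (j * 10^5 * (N24 - Ja)) (5087922 - 10^5 * a) := ⟨_, rfl⟩
  have hq : (j : ℝ) / 20 * ((2400 * 10^6 * N - Ja) / (P.Y + -((a : ℝ) / 20))) ≤ (c : ℝ) := by
    have h3 := TPBa_cdiv (a := j * 10^5 * (N24 - Ja)) (b := 5087922 - 10^5 * a) (by omega)
    rw [← hcd] at h3
    refine le_trans ?_ h3
    have h4 : (2400 * 10^6 * N - Ja) / (P.Y + -((a : ℝ) / 20)) ≤
        ((N24 - Ja : ℕ) : ℝ) / (((5087922 - 100000 * a : ℕ) : ℝ) / (2 * 10^6)) := by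
      refine (div_le_div_of_nonneg_right hX hY0.le).trans ?_
      exact div_le_div_of_nonneg_left hX0 (by positivity) hBY
    refine (mul_le_mul_of_nonneg_left h4 (by positivity)).trans (le_of_eq ?_)
    norm_num
    field_simp
    ring
  -- assemble
  have hr1 : (j : ℝ) / 20 - -((a : ℝ) / 20) = ((a + j : ℕ) : ℝ) / 20 := by
    push_cast
    ring
  have hF : fF P N (pl l) (-((a : ℝ) / 20)) (j / 20) * (2400 * 10^6) =
      (j : ℝ) / 20 * ((2400 * 10^6 * N - Ja) / (P.Y + -((a : ℝ) / 20))) - (Jb - Ja) := by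
    unfold fF qG
    rw [hr1, neg_neg, h1, h2]
    field_simp
  have hlast : (c : ℝ) + Ja ≤ ((F24 N24 a j Ja Jb : ℕ) : ℝ) + Jb := by
    unfold F24
    rw [← hcd]
    exact_mod_cast (by omega : c + Ja ≤ c + Ja - Jb + Jb)
  rw [le_div_iff₀ (by norm_num)]
  have h5 : fF P N (pl l) (-((a : ℝ) / 20)) (j / 20) * 10^6 * 2400 =
      fF P N (pl l) (-((a : ℝ) / 20)) (j / 20) * (2400 * 10^6) := by ring
  rw [h5, hF]
  linarith only [hq, hlast]

private theorem TPBa_gV {P : Par} (h : P.Star) {N : ℝ} {l : List ℕ} (hl : MonoL l) {N24 a : ℕ}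
    (hN : 2400 * 10^6 * N ≤ N24) (ha : a ≤ 31) :
    gV P N (pl l) (-((a : ℝ) / 20)) * (24 * 10^14) ≤
      ((521692 * (cdiv (2000000 * (N24 - ((tb 0 0 l).getD a (0,0,0)).2.2)) (5087922 - 100000 * a) -
        60 * ((tb 0 0 l).getD a (0,0,0)).2.1) + 20 * Esum a l : ℕ) : ℝ) := by
  have hYp := (Par.Y_pos h).1
  set Ja := ((tb 0 0 l).getD a (0,0,0)).2.2 with hJa
  set Ia := ((tb 0 0 l).getD a (0,0,0)).2.1 with hIa
  have h1 := pl_I2 hl (k := a) (by omega)
  have h2 := pl_I1 hl (k := a) (by omega)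
  rw [← hJa] at h1
  rw [← hIa] at h2
  have haR : (a : ℝ) ≤ 31 := by exact_mod_cast ha
  have hY0 : 0 < P.Y + -((a : ℝ) / 20) := by
    norm_num at hYp
    linarith
  have hsub : 100000 * a ≤ 5087922 := by omega
  have hBr : ((5087922 - 100000 * a : ℕ) : ℝ) = 5087922 - 100000 * (a : ℝ) := by
    rw [Nat.cast_sub hsub]
    push_cast
    ring
  have hB : (0:ℝ) < ((5087922 - 100000 * a : ℕ) : ℝ) := by
    exact_mod_cast (by omega : 0 < 5087922 - 100000 * a)
  have hBY : ((5087922 - 100000 * a : ℕ) : ℝ) / (2 * 10^6) ≤ P.Y + -((a : ℝ) / 20) := by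
    rw [hBr, div_le_iff₀ (by norm_num)]
    norm_num at hYp ⊢
    linarith only [hYp]
  have hX : 2400 * 10^6 * N - Ja ≤ ((N24 - Ja : ℕ) : ℝ) := by
    have h3 : (N24 : ℝ) ≤ ((N24 - Ja : ℕ) : ℝ) + Ja := by
      exact_mod_cast (by omega : N24 ≤ N24 - Ja + Ja)
    linarith only [hN, h3]
  have hX0 : (0:ℝ) ≤ ((N24 - Ja : ℕ) : ℝ) := Nat.cast_nonneg _
  have hq : (2400 * 10^6 * N - Ja) / (P.Y + -((a : ℝ) / 20)) ≤
      (cdiv (2000000 * (N24 - Ja)) (5087922 - 100000 * a) : ℕ) := by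
    have h3 := TPBa_cdiv (a := 2000000 * (N24 - Ja)) (b := 5087922 - 100000 * a) (by omega)
    refine le_trans ?_ h3
    refine (div_le_div_of_nonneg_right hX hY0.le).trans
      ((div_le_div_of_nonneg_left hX0 (by positivity) hBY).trans (le_of_eq ?_))
    push_cast
    norm_num
    field_simp
  set q := cdiv (2000000 * (N24 - Ja)) (5087922 - 100000 * a) with hqd
  have hgv : gv P N (pl l) (-((a : ℝ) / 20)) * (2400 * 10^6) ≤ ((q - 60 * Ia : ℕ) : ℝ) := by
    have h3 : gv P N (pl l) (-((a : ℝ) / 20)) * (2400 * 10^6) =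
        (2400 * 10^6 * N - Ja) / (P.Y + -((a : ℝ) / 20)) - 60 * Ia := by
      unfold gv qG
      rw [neg_neg, h1, h2]
      field_simp
      ring
    have h4 : (q : ℝ) ≤ ((q - 60 * Ia : ℕ) : ℝ) + 60 * Ia := by
      exact_mod_cast (by omega : q ≤ q - 60 * Ia + 60 * Ia)
    rw [h3]
    linarith only [hq, h4]
  have hsg := (sg_tab h).2.1
  have hsg0 := (sg_tab h).1
  have hg0 : (0:ℝ) ≤ ((q - 60 * Ia : ℕ) : ℝ) := Nat.cast_nonneg _
  have hpart : (P.sg * 10^6) * (gv P N (pl l) (-((a : ℝ) / 20)) * (2400 * 10^6)) ≤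
      521692 * ((q - 60 * Ia : ℕ) : ℝ) :=
    (mul_le_mul_of_nonneg_left hgv (by linarith only [hsg0])).trans (mul_le_mul_of_nonneg_right hsg hg0)
  have hE := TPBa_E h hl (a := a) (by omega)
  have hEq : gV P N (pl l) (-((a : ℝ) / 20)) * (24 * 10^14) =
      (P.sg * 10^6) * (gv P N (pl l) (-((a : ℝ) / 20)) * (2400 * 10^6)) +
      20 * ((∫ τ in (0:ℝ)..P.s, Real.sinh (P.s - τ) * pl l ((a : ℝ) / 20 - τ)) * (120 * 10^12)) := by
    unfold gV
    rw [neg_neg]
    ring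
  rw [hEq]
  push_cast
  linarith only [hpart, hE]

private theorem TPBa_goB {N24 a Ja Ja1 : ℕ} : ∀ (j : ℕ) (T : List (ℕ × ℕ × ℕ)) (S Q : List ℕ)
    (k : ℕ), goB N24 a Ja Ja1 k T S Q = true → a + (k + j) < 52 →
    10002 * (4 * max (F24 N24 a (k + j) Ja (T.getD j (0,0,0)).2.2)
      (F24 N24 (a + 1) (k + j) Ja1 (T.getD (j + 1) (0,0,0)).2.2) +
      3 * ((if k + j = 1 then 4 else 1) * (T.getD (j + 2) (0,0,0)).1 +
        (T.getD (j + 1) (0,0,0)).1)) ≤ 96000000 * min (S.getD j 0) (Q.getD j 0) := by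
  intro j
  induction j with
  | zero =>
    intro T S Q k h hj
    rcases T with _ | ⟨⟨x0, y0, J0⟩, _ | ⟨⟨d1, i1, J1⟩, _ | ⟨⟨d2, i2, J2⟩, T⟩⟩⟩
    · simp [goB] at h
    · simp [goB] at h
    · simp [goB] at h
    rcases S with _ | ⟨s, S⟩
    · simp [goB] at h
    rcases Q with _ | ⟨q, Q⟩
    · simp [goB] at h
    simp only [goB, Bool.and_eq_true, Bool.or_eq_true, Nat.ble_eq] at h
    rcases h with h | h
    · omega
    · exact h.1
  | succ j ih =>
    intro T S Q k h hj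
    rcases T with _ | ⟨⟨x0, y0, J0⟩, _ | ⟨⟨d1, i1, J1⟩, _ | ⟨⟨d2, i2, J2⟩, T⟩⟩⟩
    · simp [goB] at h
    · simp [goB] at h
    · simp [goB] at h
    rcases S with _ | ⟨s, S⟩
    · simp [goB] at h
    rcases Q with _ | ⟨q, Q⟩
    · simp [goB] at h
    simp only [goB, Bool.and_eq_true, Bool.or_eq_true, Nat.ble_eq] at h
    rcases h with h | h
    · omega
    · have h5 := ih ((d1, i1, J1) :: (d2, i2, J2) :: T) S Q (k + 1) h.2 (by omega)
      rw [show k + 1 + j = k + (j + 1) by ring] at h5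
      exact h5

private theorem TPBa_slope : ∀ (j : ℕ) (L : List ℕ) (k : ℕ), Chk.slope k L = true → k + j < 13 →
    10002 * 3 * 737920 * (k + j) ≤ 2000000 * L.getD j 0 := by
  intro j
  induction j with
  | zero =>
    intro L k h hj
    rcases L with _ | ⟨d, L⟩
    · simp [Chk.slope] at h
    simp only [Chk.slope, Bool.and_eq_true, Bool.or_eq_true, Nat.ble_eq] at h
    rcases h with h | h
    · omega
    · exact h.1
  | succ j ih =>
    intro L k h hj
    rcases L with _ | ⟨d, L⟩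
    · simp [Chk.slope] at h
    simp only [Chk.slope, Bool.and_eq_true, Bool.or_eq_true, Nat.ble_eq] at h
    rcases h with h | h
    · omega
    · have h5 := ih L (k + 1) h.2 (by omega)
      rw [show k + 1 + j = k + (j + 1) by ring] at h5
      exact h5

theorem chkB_sound (h : P.Star) {V SV a0 : ℕ} {l S : List ℕ} (ha : 9 ≤ a0) (ha1 : a0 ≤ 30) (hl : MonoL l)
    (hS : MonoL S) (hq : MonoL qt) (hc : chkB V l a0 SV S = true) {a : ℝ} (h0 : (a0 : ℝ) / 20 ≤ a)
    (h1 : a ≤ (a0 + 1) / 20) :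
    1.0002 * gV P (V / 10^6 + I2 (pl l) P.Y) (pl l) (-a) ≤ SV / 10^6 ∧
    (∀ r, 0 ≤ r → r ≤ P.Y - a → 1.0002 * fF P (V / 10^6 + I2 (pl l) P.Y) (pl l) (-a) r ≤ pl S r ∧
      1.0002 * fF P (V / 10^6 + I2 (pl l) P.Y) (pl l) (-a) r ≤ pl qt r) ∧
    1.0002 * (P.sg * (0.3 * 0.73792) + (∫ τ in (0:ℝ)..P.s, Real.sinh (P.s - τ) * pl l (a - τ))
      + 0.128 * (0.045 * 0.73792)) ≤ SV / 10^6 := by
  simp only [chkB, Bool.and_eq_true, Nat.ble_eq] at hc
  obtain ⟨⟨hgo, hc1⟩, hc2⟩ := hc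
  have hD : Pf (pl l) := pl_pf hl
  have hYp := (Par.Y_pos h).1
  have hYp2 := (Par.Y_pos h).2.1
  have haR : (9:ℝ) ≤ a0 := by exact_mod_cast ha
  have haR1 : (a0:ℝ) ≤ 30 := by exact_mod_cast ha1
  set N : ℝ := V / 10^6 + I2 (pl l) P.Y with hNd
  have hI : I2 (pl l) P.Y ≤ N := by
    have : (0:ℝ) ≤ (V:ℝ) / 10^6 := by positivity
    linarith only [hNd, this]
  have hN24 : 2400 * 10^6 * N ≤ ((2400 * V + JYU (tb 0 0 l) : ℕ) : ℝ) := by
    have h2 := (pl_JY h hl).2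
    rw [hNd]
    push_cast
    linarith only [h2]
  generalize hN24d : 2400 * V + JYU (tb 0 0 l) = N24 at hN24 hgo hc1
  have hlt : -(((a0 + 1 : ℕ) : ℝ) / 20) < -((a0 : ℝ) / 20) := by
    push_cast
    linarith only [hYp, hYp2]
  have hY0 : 0 < P.Y + -(((a0 + 1 : ℕ) : ℝ) / 20) := by
    push_cast
    norm_num at hYp
    linarith only [hYp2, haR1, hYp]
  have he0 : -(((a0 + 1 : ℕ) : ℝ) / 20) ≤ -a := by
    push_cast
    linarith only [h1]
  have he1 : -a ≤ -((a0 : ℝ) / 20) := by linarith only [h0]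
  have hf1 := tb_fst hl (k := a0 + 1) (by omega)
  refine ⟨?_, ?_, ?_⟩
  · -- the opening part
    have hg0 := TPBa_gV (N := N) h hl hN24 (a := a0) (by omega)
    have hg1 := TPBa_gV (N := N) h hl hN24 (a := a0 + 1) (by omega)
    generalize hG0 : 521692 * (cdiv (2000000 * (N24 - ((tb 0 0 l).getD a0 (0,0,0)).2.2))
      (5087922 - 100000 * a0) - 60 * ((tb 0 0 l).getD a0 (0,0,0)).2.1) + 20 * Esum a0 l = G0
      at hg0 hc1
    generalize hG1 : 521692 * (cdiv (2000000 * (N24 - ((tb 0 0 l).getD (a0 + 1) (0,0,0)).2.2))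
      (5087922 - 100000 * (a0 + 1)) - 60 * ((tb 0 0 l).getD (a0 + 1) (0,0,0)).2.1) +
      20 * Esum (a0 + 1) l = G1 at hg1 hc1
    have ht0 : 0 ≤ (-a - -(((a0 + 1 : ℕ) : ℝ) / 20)) * 20 := by linarith only [he0]
    have ht1 : (-a - -(((a0 + 1 : ℕ) : ℝ) / 20)) * 20 ≤ 1 := by
      push_cast
      linarith only [h0]
    have h3 := chord_V (N := N) h hD hI hlt.le hY0 ht0 ht1
      (C := ((l.getD (a0 + 1) 0 : ℕ) : ℝ) / 10^6) (by
        rw [neg_neg, pl_node hl (by omega)])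
    have he3 : (1 - (-a - -(((a0 + 1 : ℕ) : ℝ) / 20)) * 20) * -(((a0 + 1 : ℕ) : ℝ) / 20) +
        (-a - -(((a0 + 1 : ℕ) : ℝ) / 20)) * 20 * -((a0 : ℝ) / 20) = -a := by
      push_cast
      ring
    rw [he3] at h3
    set t := (-a - -(((a0 + 1 : ℕ) : ℝ) / 20)) * 20 with ht
    rw [hf1] at hc1
    have hc1' : 10002 * (max (G0 : ℝ) (G1 : ℝ) + 2400000000 + 847500 * ((l.getD (a0 + 1) 0 : ℕ) : ℝ)) ≤
      24000000000000 * (SV : ℝ) := by exact_mod_cast hc1
    have h5 : (1 - t) * (gV P N (pl l) (-(((a0 + 1 : ℕ) : ℝ) / 20)) * (24 * 10^14)) ≤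
        (1 - t) * max (G0 : ℝ) (G1 : ℝ) :=
      mul_le_mul_of_nonneg_left (hg1.trans (le_max_right _ _)) (by linarith only [ht1])
    have h6 : t * (gV P N (pl l) (-((a0 : ℝ) / 20)) * (24 * 10^14)) ≤ t * max (G0 : ℝ) (G1 : ℝ) :=
      mul_le_mul_of_nonneg_left (hg0.trans (le_max_left _ _)) ht0
    have h8 := mul_le_mul_of_nonneg_left h3 (show (0:ℝ) ≤ 1.0002 * (24 * 10^14) by norm_num)
    have h9 : 1.0002 * (24 * 10^14) * gV P N (pl l) (-a) ≤ 24 * 10^8 * SV := by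
      refine h8.trans ?_
      have h10 : 1.0002 * (24 * 10^14) * ((1 - t) * gV P N (pl l) (-(((a0 + 1 : ℕ) : ℝ) / 20)) +
          t * gV P N (pl l) (-((a0 : ℝ) / 20)) + 1.13 * (((l.getD (a0 + 1) 0 : ℕ) : ℝ) / 10^6) *
          (-((a0 : ℝ) / 20) - -(((a0 + 1 : ℕ) : ℝ) / 20)) ^ 2 / 8) =
          1.0002 * ((1 - t) * (gV P N (pl l) (-(((a0 + 1 : ℕ) : ℝ) / 20)) * (24 * 10^14)) +
          t * (gV P N (pl l) (-((a0 : ℝ) / 20)) * (24 * 10^14))) +
          1.0002 * (847500 * ((l.getD (a0 + 1) 0 : ℕ) : ℝ)) := by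
        push_cast
        ring
      rw [h10]
      linarith only [hYp, hYp2, hc1', h5, h6]
    rw [le_div_iff₀ (by norm_num)]
    linarith only [h9]
  · -- the profile
    intro r hr0 hr1
    obtain ⟨k, hk, t, ht0, ht1, rfl⟩ := TPBa_loc hr0 (by
      norm_num at hYp2 ⊢
      linarith only [h0, hYp, haR, hr1, hYp2])
    have hka : k + a0 ≤ 50 := by
      have h5 : (k : ℝ) + a0 < 51 := by
        norm_num at hYp2
        linarith only [h0, hYp, ht0, hr1, hYp2]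
      have h6 : k + a0 < 51 := by exact_mod_cast h5
      omega
    have hg : ∀ j : ℕ, 1 ≤ j → a0 + j < 52 →
        10002 * (4 * max (F24 N24 a0 j ((tb 0 0 l).getD a0 (0,0,0)).2.2
          ((tb 0 0 l).getD (a0 + j) (0,0,0)).2.2)
        (F24 N24 (a0 + 1) j ((tb 0 0 l).getD (a0 + 1) (0,0,0)).2.2
          ((tb 0 0 l).getD (a0 + 1 + j) (0,0,0)).2.2) +
        3 * ((if j = 1 then 4 else 1) * l.getD (a0 + 1 + (j + 1)) 0 + l.getD (a0 + 1 + j) 0)) ≤
        96000000 * min (S.getD j 0) (qt.getD j 0) := by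
      intro j hj1 hj2
      have h5 := TPBa_goB (j - 1) _ _ _ 1 hgo (by omega)
      rw [TPBa_drop, TPBa_drop, TPBa_drop, TPBa_tail, TPBa_tail, show 1 + (j - 1) = j by omega,
        show j - 1 + 1 = j by omega, show a0 + 1 + (j - 1) = a0 + j by omega,
        show a0 + 1 + (j - 1 + 2) = a0 + 1 + (j + 1) by omega,
        tb_fst hl (by omega), tb_fst hl (by omega)] at h5
      exact h5
    have hmain : ∀ X : List ℕ, MonoL X → (∀ j : ℕ, 1 ≤ j → a0 + j < 52 →
        10002 * (4 * max (F24 N24 a0 j ((tb 0 0 l).getD a0 (0,0,0)).2.2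
          ((tb 0 0 l).getD (a0 + j) (0,0,0)).2.2)
        (F24 N24 (a0 + 1) j ((tb 0 0 l).getD (a0 + 1) (0,0,0)).2.2
          ((tb 0 0 l).getD (a0 + 1 + j) (0,0,0)).2.2) +
        3 * ((if j = 1 then 4 else 1) * l.getD (a0 + 1 + (j + 1)) 0 + l.getD (a0 + 1 + j) 0)) ≤
        96000000 * X.getD j 0) →
        1.0002 * fF P N (pl l) (-a) ((k + t) / 20) ≤ pl X ((k + t) / 20) := by
      intro X hX hXc
      refine TPBa_main h hD hI hX he0 he1 hlt hY0 (J := 51 - a0)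
        (fun j => ((F24 N24 (a0 + 1) j ((tb 0 0 l).getD (a0 + 1) (0,0,0)).2.2
          ((tb 0 0 l).getD (a0 + 1 + j) (0,0,0)).2.2 : ℕ) : ℝ) / 2400)
        (fun j => ((F24 N24 a0 j ((tb 0 0 l).getD a0 (0,0,0)).2.2
          ((tb 0 0 l).getD (a0 + j) (0,0,0)).2.2 : ℕ) : ℝ) / 2400)
        (fun j => ((l.getD (a0 + 1 + j) 0 : ℕ) : ℝ)) ?_ ?_ ?_ ?_ ?_ hk (by omega) ht0 ht1
      · intro j _ hj
        exact TPBa_F24 h hl hN24 (by omega) (by omega)
      · intro j _ hj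
        exact TPBa_F24 h hl hN24 (by omega) (by omega)
      · intro j _ hj
        have h5 : (j : ℝ) / 20 - -(((a0 + 1 : ℕ) : ℝ) / 20) = ((a0 + 1 + j : ℕ) : ℝ) / 20 := by
          push_cast
          ring
        rw [h5, pl_node hl (by omega)]
        exact le_of_eq (by ring)
      · intro j _ hj
        exact_mod_cast hl.2.2 (a0 + 1 + j) (by omega)
      · intro j hj1 hj
        have h5 := hXc j hj1 (by omega)
        have h6 : 10002 * (4 * max ((F24 N24 a0 j ((tb 0 0 l).getD a0 (0,0,0)).2.2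
            ((tb 0 0 l).getD (a0 + j) (0,0,0)).2.2 : ℕ) : ℝ)
            ((F24 N24 (a0 + 1) j ((tb 0 0 l).getD (a0 + 1) (0,0,0)).2.2
            ((tb 0 0 l).getD (a0 + 1 + j) (0,0,0)).2.2 : ℕ) : ℝ) +
          3 * ((if j = 1 then 4 else 1) * ((l.getD (a0 + 1 + (j + 1)) 0 : ℕ) : ℝ) +
            ((l.getD (a0 + 1 + j) 0 : ℕ) : ℝ))) ≤
          96000000 * ((X.getD j 0 : ℕ) : ℝ) := by exact_mod_cast h5
        have h7 : 400 * (-((a0 : ℝ) / 20) - -(((a0 + 1 : ℕ) : ℝ) / 20)) ^ 2 = 1 := by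
          push_cast
          ring
        rw [h7, max_comm, max_div_div_right (by norm_num)]
        linarith only [h6]
    exact ⟨hmain S hS fun j h5 h6 => (hg j h5 h6).trans (Nat.mul_le_mul_left _ (min_le_left _ _)),
      hmain qt hq fun j h5 h6 => (hg j h5 h6).trans (Nat.mul_le_mul_left _ (min_le_right _ _))⟩
  · -- the second bound of the opening part
    have hE := TPBa_E h hl (a := a0 + 1) (by omega)
    have hsg := (sg_tab h).2.1
    have hs0 : 0 ≤ P.s := h.data.hs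
    have hpc : Continuous (pl l) := hD.cont
    have h3 : (∫ τ in (0:ℝ)..P.s, Real.sinh (P.s - τ) * pl l (a - τ)) ≤
        ∫ τ in (0:ℝ)..P.s, Real.sinh (P.s - τ) * pl l (((a0 + 1 : ℕ) : ℝ) / 20 - τ) := by
      refine intervalIntegral.integral_mono_on hs0 (Continuous.intervalIntegrable (by fun_prop) _ _)
        (Continuous.intervalIntegrable (by fun_prop) _ _) fun τ hτ => ?_
      refine mul_le_mul_of_nonneg_left (hD.mono ?_) (Real.sinh_nonneg_iff.2 (by linarith only [hτ.2, hτ]))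
      push_cast
      linarith only [h1]
    have h4 := mul_le_mul_of_nonneg_right h3 (show (0:ℝ) ≤ 120 * 10^12 by norm_num)
    have hc2' : 10002 * (720 * 521692 * 737920 + 20 * ((Esum (a0 + 1) l : ℕ) : ℝ) + 2400000000 +
      13824000 * 737920) ≤ 24000000000000 * (SV : ℝ) := by exact_mod_cast hc2
    set E := (∫ τ in (0:ℝ)..P.s, Real.sinh (P.s - τ) * pl l (a - τ)) with hEd
    rw [le_div_iff₀ (by norm_num)]
    norm_num at hsg h4 hc2' hE ⊢
    linarith only [hYp, hYp2, hsg, h4, hc2', hE]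

theorem slope_sound {l : List ℕ} (hl : MonoL l) (hc : slope 1 l.tail = true) {r : ℝ} (h0 : 0 ≤ r)
    (h1 : r ≤ 0.6) : 1.0002 * (0.3 * 0.73792 * r) ≤ pl l r := by
  have hd : ∀ j : ℕ, j ≤ 12 → 10002 * 3 * 737920 * j ≤ 2000000 * l.getD j 0 := by
    intro j hj
    rcases Nat.eq_zero_or_pos j with h2 | h2
    · rw [h2]
      omega
    · have h3 := TPBa_slope (j - 1) _ 1 hc (by omega)
      rw [TPBa_tail, show 1 + (j - 1) = j by omega, show j - 1 + 1 = j by omega] at h3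
      exact h3
  obtain ⟨k, hk, t, ht0, ht1, rfl⟩ := TPBa_loc h0 (by norm_num at h1 ⊢; linarith)
  have hk12 : (k : ℝ) + t ≤ 12 := by
    norm_num at h1
    linarith
  have hk2 : k ≤ 12 := by
    have h3 : (k : ℝ) ≤ 12 := by linarith
    exact_mod_cast h3
  have hdk : (10002 * 3 * 737920 * (k : ℝ)) ≤ 2000000 * ((l.getD k 0 : ℕ) : ℝ) := by
    exact_mod_cast hd k hk2
  have hdk1 : t * (10002 * 3 * 737920 * ((k : ℝ) + 1)) ≤
      t * (2000000 * ((l.getD (k + 1) 0 : ℕ) : ℝ)) := by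
    rcases Nat.lt_or_ge k 12 with h3 | h3
    · refine mul_le_mul_of_nonneg_left ?_ ht0
      exact_mod_cast hd (k + 1) h3
    · have h4 : (12:ℝ) ≤ k := by exact_mod_cast h3
      have h5 : t = 0 := by linarith only [ht0, h1, h4]
      rw [h5, zero_mul, zero_mul]
  have hdk' := mul_le_mul_of_nonneg_left hdk (show 0 ≤ 1 - t by linarith)
  rw [pl_cell hl hk ht0 ht1, le_div_iff₀ (by norm_num)]
  have h6 : 1.0002 * (0.3 * 0.73792 * (((k : ℝ) + t) / 20)) * 10^6 * 2000000 =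
      (1 - t) * (10002 * 3 * 737920 * (k : ℝ)) + t * (10002 * 3 * 737920 * ((k : ℝ) + 1)) := by
    ring
  linarith only [hdk1, hdk']

end Pool.Agent.CDk
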