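import Pool.Agent.CDk.D.CELLc
import Pool.Agent.CDk.D.Chk
import Pool.Agent.CDk.D.D0
import Pool.Agent.CDk.D.NODEa
import Pool.Agent.CDk.D.PLd
import Pool.Agent.CDk.D.Tab
import Pool.Agent.CDk.D.TabSa
import Pool.Agent.CDk.D.TabSb
import Pool.Agent.CDk.D.TabSc
import Pool.Agent.CDk.Defs
import Pool.Agent.CDk.ENC
import Pool.Agent.CDk.FNa
import Pool.Agent.CDk.FNb
import Pool.Agent.CDk.FV
import Pool.Agent.CDk.GAP
import Pool.Agent.CDk.PS
import Pool.Agent.CDk.T1a

/-!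
# TPBb: good templates

`chkS`: `nl ≤ 2400 * 10^6 N ≤ nu`. `goT1`: `|D/N - D*/L| ≤ 6 δ y` on `[0, 0.55]` (`D*` is `P.D`, exactly `y` on `[0, e0]`, `|P.D''| ≤ 1`, chord error of `D*/L` at
most `1/(3200 L) < 120 * 10^-6`; affine exactly on the first two cells), hence `|I1 D/N - io| ≤ 3 δ y^2 = δ w`; `goT2`: nodes `11..44`: `I1 D` is convex with
chord error `(d_{j+1}-d_j)/160`, `io` is convex with chord error `≤ 1.1 * 10^-4` beyond `0.55` (`io'' = D'/L ≤ 0.909/L`), `w` is at least its chord on each cell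
from `0.55` on. `goM`: lower bound of `9600 * 10^12 ∫_0^1.5 mb(y+e0) I1 D y dy` (`mb_chord`; `I1 D` is a quadratic polynomial on each cell), the rest
`∫_1.5^{ρ-e0} mb(y+e0) I1 D ≥ 0.00745 I1 D 1.5`. `δ = dl/10^4`, `50 δ^2 + 0.0005 = (dl^2 + 1000)/(2 * 10^6) =: u`, `exp(-u) ≥ 1 - u + u^2/2 - u^3/6`, and
`N psi(i) = N - ∫_0^{ρ-e0} mb(y+e0) I1 D y dy`. `nu ≤ 24000 V` is the field `op`.
-/

open MeasureTheory Set Filter Topology

namespace Pool.Agent.CDk
open Tab Chk
variable {P : Par}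

private theorem TPBb_loc {r : ℝ} (h0 : 0 ≤ r) (h1 : r ≤ 3.1) :
    ∃ k : ℕ, k < 62 ∧ ∃ t : ℝ, 0 ≤ t ∧ t ≤ 1 ∧ r = ((k : ℝ) + t) / 20 := by
  rcases lt_or_ge (20 * r) 62 with h | h
  · refine ⟨⌊20 * r⌋₊, (Nat.floor_lt (by positivity)).2 (by exact_mod_cast h), 20 * r - ⌊20 * r⌋₊,
      sub_nonneg.2 (Nat.floor_le (by positivity)), ?_, by ring⟩
    have := Nat.lt_floor_add_one (20 * r)
    linarith only [this]
  · refine ⟨61, by norm_num, 1, by norm_num, le_rfl, ?_⟩
    push_cast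
    norm_num at h1 ⊢
    linarith only [h, h1]

private theorem TPBb_tail {l : List ℕ} {i : ℕ} : l.tail.getD i 0 = l.getD (i + 1) 0 := by
  cases l <;> simp

private theorem TPBb_drop {α : Type} (l : List α) (n i : ℕ) (d : α) :
    (l.drop n).getD i d = l.getD (n + i) d := by
  rw [List.getD_eq_getElem?_getD, List.getD_eq_getElem?_getD, List.getElem?_drop]

private theorem TPBb_poly (a b c d : ℝ) :
    ∫ t in (0:ℝ)..1, (a + b * t + c * t ^ 2 + d * t ^ 3) = a + b / 2 + c / 3 + d / 4 := by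
  have h := intervalIntegral.integral_eq_sub_of_hasDerivAt (a := 0) (b := 1)
    (f := fun t => a * t + b / 2 * t ^ 2 + c / 3 * t ^ 3 + d / 4 * t ^ 4)
    (f' := fun t => a + b * t + c * t ^ 2 + d * t ^ 3) (fun t _ => by
      have h1 := (((hasDerivAt_id t).const_mul a).add ((hasDerivAt_pow 2 t).const_mul (b / 2))).add
        ((hasDerivAt_pow 3 t).const_mul (c / 3))
      have h2 := h1.add ((hasDerivAt_pow 4 t).const_mul (d / 4))
      refine h2.congr_deriv ?_
      push_cast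
      ring)
    (Continuous.intervalIntegrable (by fun_prop) _ _)
  rw [h]
  ring

private theorem TPBb_cellint {f : ℝ → ℝ} (j : ℕ) :
    ∫ x in ((j : ℝ) / 20)..(((j + 1 : ℕ) : ℝ) / 20), f x =
    (∫ t in (0:ℝ)..1, f (((j : ℝ) + t) / 20)) / 20 := by
  have h := intervalIntegral.integral_comp_add_div (a := 0) (b := 1) f (c := 20) (by norm_num)
    ((j : ℝ) / 20)
  have h1 : (fun t : ℝ => f (((j : ℝ) + t) / 20)) = fun t => f ((j : ℝ) / 20 + t / 20) := by
    funext t
    rw [add_div]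
  have h2 : (j : ℝ) / 20 + 0 / 20 = (j : ℝ) / 20 := by ring
  have h3 : (j : ℝ) / 20 + 1 / 20 = ((j + 1 : ℕ) : ℝ) / 20 := by push_cast; ring
  rw [h1, h, h2, h3, smul_eq_mul]
  ring

/-! ### the checks -/

private theorem TPBb_goT1 {nl nu dl : ℕ} : ∀ (A D B : List ℕ) (k : ℕ),
    goT1 nl nu dl k D A B = true → ∀ j < A.length,
    2400 * 10^6 * D.getD j 0 ≤ (A.getD j 0 + 30 * dl * (k + j) - (if k + j = 1 then 0 else 120)) * nl ∧
    (B.getD j 0 + (if k + j = 1 then 0 else 120) - 30 * dl * (k + j)) * nu ≤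
      2400 * 10^6 * D.getD j 0 := by
  intro A
  induction A with
  | nil => intro D B k _ j hj; exact absurd hj (Nat.not_lt_zero _)
  | cons a A ih =>
    intro D B k h j hj
    rcases D with _ | ⟨d, D⟩
    · simp [goT1] at h
    rcases B with _ | ⟨b, B⟩
    · simp [goT1] at h
    simp only [goT1, Bool.and_eq_true, Nat.ble_eq] at h
    cases j with
    | zero => exact h.1
    | succ j =>
      have h5 := ih D B (k + 1) h.2 j (Nat.lt_of_succ_lt_succ hj)
      rw [show k + 1 + j = k + (j + 1) by ring] at h5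
      exact h5

private theorem TPBb_goT2 {nl nu dl : ℕ} : ∀ (A : List ℕ) (T : List (ℕ × ℕ × ℕ)) (B W : List ℕ),
    goT2 nl nu dl T A B W = true → ∀ j < A.length,
    60 * 10^6 * (T.getD (j + 1) (0,0,0)).2.1 * 10000 ≤
      (10000 * A.getD j 0 + dl * W.getD j 0 - 1100000) * nl ∧
    (10000 * B.getD j 0 - dl * W.getD j 0) * nu + 15 * 10^10 *
      max ((T.getD (j + 2) (0,0,0)).1 - (T.getD (j + 1) (0,0,0)).1)
        ((T.getD (j + 1) (0,0,0)).1 - (T.getD j (0,0,0)).1) ≤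
      60 * 10^6 * (T.getD (j + 1) (0,0,0)).2.1 * 10000 := by
  intro A
  induction A with
  | nil => intro T B W _ j hj; exact absurd hj (Nat.not_lt_zero _)
  | cons a A ih =>
    intro T B W h j hj
    rcases T with _ | ⟨⟨dm, im, jm⟩, _ | ⟨⟨d0, i0, j0⟩, _ | ⟨⟨d1, i1, j1⟩, T⟩⟩⟩
    · simp [goT2] at h
    · simp [goT2] at h
    · simp [goT2] at h
    rcases B with _ | ⟨b, B⟩
    · simp [goT2] at h
    rcases W with _ | ⟨w, W⟩
    · simp [goT2] at h
    simp only [goT2, Bool.and_eq_true, Nat.ble_eq] at h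
    cases j with
    | zero => exact h.1
    | succ j =>
      have h5 := ih ((d0, i0, j0) :: (d1, i1, j1) :: T) B W h.2 j (Nat.lt_of_succ_lt_succ hj)
      exact h5

private theorem TPBb_goM : ∀ (n : ℕ) (M : List ℕ) (T : List (ℕ × ℕ × ℕ)), M.length = n + 1 →
    n + 1 ≤ T.length → goM M T = ∑ j ∈ Finset.range n,
      ((M.getD j 0 - 326) * (6 * (T.getD j (0,0,0)).2.1 + 3 * (T.getD j (0,0,0)).1 +
        (T.getD (j + 1) (0,0,0)).1) +
      (M.getD (j + 1) 0 - 326) * (6 * (T.getD j (0,0,0)).2.1 + 5 * (T.getD j (0,0,0)).1 +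
        3 * (T.getD (j + 1) (0,0,0)).1)) := by
  intro n
  induction n with
  | zero =>
    intro M T hM hT
    rcases M with _ | ⟨m0, _ | ⟨m1, M⟩⟩
    · simp at hM
    · simp [goM]
    · simp at hM
  | succ n ih =>
    intro M T hM hT
    rcases M with _ | ⟨m0, _ | ⟨m1, M⟩⟩
    · simp at hM
    · simp at hM
    rcases T with _ | ⟨⟨d0, i0, j0⟩, _ | ⟨⟨d1, i1, j1⟩, T⟩⟩
    · simp at hT
    · simp at hT
    have h1 := ih (m1 :: M) ((d1, i1, j1) :: T) (by simpa using hM) (by simpa using hT)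
    rw [goM, h1, Finset.sum_range_succ']
    simp only [List.getD_cons_succ, List.getD_cons_zero]
    ring

/-! ### the profile and its integral -/

private theorem TPBb_I1 {l : List ℕ} (hl : MonoL l) {k : ℕ} (hk : k < 62) {t : ℝ} (h0 : 0 ≤ t)
    (h1 : t ≤ 1) : I1 (pl l) ((k + t) / 20) = ((((tb 0 0 l).getD k (0,0,0)).2.1 : ℕ) +
      2 * (l.getD k 0 : ℕ) * t + ((l.getD (k + 1) 0 : ℕ) - (l.getD k 0 : ℕ)) * t ^ 2) /
      (40 * 10^6) := by
  have hpf := pl_pf hl
  have hk1 := pl_I1 hl (k := k) (by omega)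
  have h2 : I1 (pl l) ((k + t) / 20) - I1 (pl l) (k / 20) = ∫ y in ((k : ℝ) / 20)..((k + t) / 20), pl l y := by
    unfold I1
    exact intervalIntegral.integral_interval_sub_left (hpf.cont.intervalIntegrable _ _)
      (hpf.cont.intervalIntegrable _ _)
  have h3 : (∫ y in ((k : ℝ) / 20)..((k + t) / 20), pl l y) =
      ∫ y in ((k : ℝ) / 20)..((k + t) / 20), ((l.getD k 0 : ℕ) +
        ((l.getD (k + 1) 0 : ℕ) - (l.getD k 0 : ℕ)) * (20 * y - k) : ℝ) / 10^6 := by
    refine intervalIntegral.integral_congr fun y hy => ?_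
    have hle : (k : ℝ) / 20 ≤ (k + t) / 20 := by linarith only [h0]
    rw [uIcc_of_le hle] at hy
    have h4 : y = ((k : ℝ) + (20 * y - k)) / 20 := by ring
    have h5 := pl_cell hl hk (t := 20 * y - k) (by linarith only [hy.1, hy]) (by linarith only [hy.2, h1, hy])
    rw [← h4] at h5
    rw [h5]
    ring
  have h4 := intervalIntegral.integral_eq_sub_of_hasDerivAt (a := (k : ℝ) / 20)
    (b := (k + t) / 20)
    (f := fun y => ((l.getD k 0 : ℕ) * y +
        ((l.getD (k + 1) 0 : ℕ) - (l.getD k 0 : ℕ)) * (20 * y - k) ^ 2 / 40 : ℝ) / 10^6)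
    (f' := fun y => ((l.getD k 0 : ℕ) +
        ((l.getD (k + 1) 0 : ℕ) - (l.getD k 0 : ℕ)) * (20 * y - k) : ℝ) / 10^6)
    (fun y _ => by
      have h5 := ((hasDerivAt_id y).const_mul 20).sub_const (k : ℝ)
      have h6 := ((hasDerivAt_id y).const_mul ((l.getD k 0 : ℕ) : ℝ)).add
        (((h5.pow 2).const_mul (((l.getD (k + 1) 0 : ℕ) : ℝ) - ((l.getD k 0 : ℕ) : ℝ))).div_const 40)
      refine (h6.div_const (10^6)).congr_deriv ?_
      simp only [id]
      push_cast
      ring)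
    (Continuous.intervalIntegrable (by fun_prop) _ _)
  rw [h3, h4, hk1] at h2
  have h5 : I1 (pl l) ((k + t) / 20) = (((tb 0 0 l).getD k (0,0,0)).2.1 : ℕ) / (40 * 10^6) +
      (((l.getD k 0 : ℕ) * ((k + t) / 20) +
        ((l.getD (k + 1) 0 : ℕ) - (l.getD k 0 : ℕ)) * (20 * ((k + t) / 20) - k) ^ 2 / 40 : ℝ) / 10^6 -
      ((l.getD k 0 : ℕ) * (k / 20) +
        ((l.getD (k + 1) 0 : ℕ) - (l.getD k 0 : ℕ)) * (20 * (k / 20) - k) ^ 2 / 40 : ℝ) / 10^6) := by
    linarith only [h2]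
  rw [h5]
  field_simp
  ring

/-! ### the extremal profile -/

private theorem TPBb_Dle (h : P.Star) {y : ℝ} (hy : y ≤ 1) : P.D y ≤ 1 := by
  rcases le_total y 0 with h0 | h0
  · rw [Par.D_zero h h0]
    norm_num
  · have h1 := Par.D_lip h h0
    rw [Par.D_zero h le_rfl] at h1
    linarith

private theorem TPBb_Dnn (h : P.Star) (y : ℝ) : 0 ≤ P.D y := by
  rcases le_total y 0 with h0 | h0
  · rw [Par.D_zero h h0]
  · rw [← Par.D_zero h (le_refl (0:ℝ))]
    exact Par.D_mono h h0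

private theorem TPBb_Dconc (h : P.Star) : ConcaveOn ℝ (Icc (0.05:ℝ) 0.6) P.D ∧
    ConvexOn ℝ (Icc (0.05:ℝ) 0.6) (fun x => P.D x + x ^ 2 / 2) := by
  have r1 := h.ρ_lo
  have e1 := h.e_lo
  have hd : ∀ x ∈ interior (Icc (0.05:ℝ) 0.6), HasDerivAt P.D (1 - P.I (x - P.e0)) x := by
    intro x hx
    rw [interior_Icc] at hx
    exact Par.D_deriv h (by norm_num at hx; linarith only [hx.1, hx]) (by norm_num at hx r1; linarith only [hx.2, hx, r1])
  have hd2 : ∀ x, HasDerivAt (fun x => 1 - P.I (x - P.e0)) (-P.D (x - P.e0)) x := by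
    intro x
    have h1 := (Par.I_deriv h (x - P.e0)).comp x ((hasDerivAt_id x).sub_const P.e0)
    have h2 := h1.const_sub 1
    refine h2.congr_deriv ?_
    ring
  refine ⟨?_, ?_⟩
  · exact concaveOn_of_hasDerivWithinAt2_nonpos (convex_Icc _ _) (Par.D_cont h).continuousOn
      (fun x hx => (hd x hx).hasDerivWithinAt) (fun x _ => (hd2 x).hasDerivWithinAt)
      (fun x _ => by
        have := TPBb_Dnn h (x - P.e0)
        linarith)
  · refine convexOn_of_hasDerivWithinAt2_nonneg (convex_Icc _ _)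
      (f' := fun x => 1 - P.I (x - P.e0) + x) (f'' := fun x => -P.D (x - P.e0) + 1)
      ((Par.D_cont h).add (by fun_prop)).continuousOn
      (fun x hx => ?_) (fun x _ => ?_)
      (fun x hx => by
        rw [interior_Icc] at hx
        have := TPBb_Dle h (y := x - P.e0) (by norm_num at hx e1; linarith only [hx.2, hx, e1])
        linarith only [this])
    · have h1 := (hd x hx).add ((hasDerivAt_pow 2 x).div_const 2)
      exact (h1.congr_deriv (by push_cast; ring)).hasDerivWithinAt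
    · exact ((hd2 x).add (hasDerivAt_id x)).hasDerivWithinAt

private theorem TPBb_Dch (h : P.Star) {k : ℕ} (hk : k < 11) {t : ℝ} (h0 : 0 ≤ t) (h1 : t ≤ 1) :
    (1 - t) * P.D (k / 20) + t * P.D ((k + 1) / 20) ≤ P.D ((k + t) / 20) ∧
    P.D ((k + t) / 20) ≤ (1 - t) * P.D (k / 20) + t * P.D ((k + 1) / 20) +
      (if k ≤ 1 then 0 else 1 / 3200) := by
  have e1 := h.e_lo
  by_cases hk1 : k ≤ 1
  · rw [if_pos hk1]
    have hkR : (k : ℝ) ≤ 1 := by exact_mod_cast hk1
    have hkR0 : (0 : ℝ) ≤ k := Nat.cast_nonneg _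
    norm_num at e1
    rw [Par.D_small h (y := (k : ℝ) / 20) (by positivity) (by linarith only [hkR, e1]),
      Par.D_small h (y := ((k : ℝ) + 1) / 20) (by positivity) (by linarith only [hkR, e1]),
      Par.D_small h (y := ((k : ℝ) + t) / 20) (by positivity) (by linarith)]
    constructor <;> exact le_of_eq (by ring)
  · rw [if_neg hk1]
    have hkR : (2 : ℝ) ≤ k := by exact_mod_cast (by omega : 2 ≤ k)
    have hkR0 : (k : ℝ) ≤ 10 := by exact_mod_cast (by omega : k ≤ 10)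
    obtain ⟨h2, h3⟩ := TPBb_Dconc h
    have m1 : (k : ℝ) / 20 ∈ Icc (0.05:ℝ) 0.6 := by
      constructor <;> norm_num <;> linarith
    have m2 : ((k : ℝ) + 1) / 20 ∈ Icc (0.05:ℝ) 0.6 := by
      constructor <;> norm_num <;> linarith
    have h4 := h2.2 m1 m2 (show 0 ≤ 1 - t by linarith only [h1]) h0 (by ring)
    have h5 := h3.2 m1 m2 (show 0 ≤ 1 - t by linarith only [h1]) h0 (by ring)
    simp only [smul_eq_mul] at h4 h5
    have h6 : (1 - t) * ((k : ℝ) / 20) + t * (((k : ℝ) + 1) / 20) = ((k : ℝ) + t) / 20 := by ring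
    rw [h6] at h4 h5
    refine ⟨h4, ?_⟩
    have h7 : (1 - t) * (((k : ℝ) / 20) ^ 2 / 2) + t * ((((k : ℝ) + 1) / 20) ^ 2 / 2) -
      (((k : ℝ) + t) / 20) ^ 2 / 2 = t * (1 - t) / 800 := by ring
    have h8 : t * (1 - t) ≤ 1 / 4 := by nlinarith only [sq_nonneg (t - 1 / 2)]
    linarith only [h5, h8]

private theorem TPBb_slope (h : P.Star) {x y : ℝ} (hx : 0.55 ≤ x) (hxy : x ≤ y) :
    P.D y - P.D x ≤ 0.93 * (y - x) := by
  have r1 := h.ρ_lo
  have e2 := h.e_hi
  have e1 := h.e_lo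
  have hLp := (Par.Y_pos h).2.2.1
  have hI4 : 0.07 ≤ P.I 0.4 := by
    have h1 := (io_tab h (i := 8) (by norm_num)).1
    have h2 : ((ioL.getD 8 0 : ℕ) : ℝ) = 29910 := by norm_num [ioL]
    rw [h2] at h1
    unfold Par.io at h1
    have h3 : ((8 : ℕ) : ℝ) / 20 = 0.4 := by norm_num
    rw [h3] at h1
    have hL0 : 0 < P.L := by linarith only [e2, e1, hLp]
    have h4 : 0.02991 ≤ P.I 0.4 / P.L := by
      norm_num at h1 ⊢
      linarith only [h1]
    rw [le_div_iff₀ hL0] at h4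
    norm_num at h4 hLp ⊢
    linarith only [e2, e1, h4, hLp]
  have hIm : Monotone P.I := monotone_of_hasDerivAt_nonneg (fun y => Par.I_deriv h y)
    (fun y => TPBb_Dnn h y)
  have key : AntitoneOn (fun y => P.D y - 0.93 * y) (Icc (0.55:ℝ) P.ρ) := by
    refine antitoneOn_of_deriv_nonpos (convex_Icc _ _)
      ((Par.D_cont h).sub (by fun_prop)).continuousOn (fun y hy => ?_) (fun y hy => ?_)
    · rw [interior_Icc] at hy
      have h1 := (Par.D_deriv h (y := y) (by norm_num at hy; linarith only [hy.1, e2, e1, hy]) hy.2).sub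
        ((hasDerivAt_id y).const_mul 0.93)
      exact h1.differentiableAt.differentiableWithinAt
    · rw [interior_Icc] at hy
      have h1 := (Par.D_deriv h (y := y) (by norm_num at hy; linarith only [hy.1, e2, e1, hy]) hy.2).sub
        ((hasDerivAt_id y).const_mul 0.93)
      have h2 : deriv (fun y => P.D y - 0.93 * y) y = 1 - P.I (y - P.e0) - 0.93 * 1 := h1.deriv
      rw [h2]
      have h3 := hIm (show (0.4:ℝ) ≤ y - P.e0 by norm_num at hy e2 ⊢; linarith only [hy.1, e1, hy, e2])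
      norm_num at hI4 h3 ⊢
      linarith only [hI4, h3]
  have hmin : ∀ z, P.D z = P.D (min z P.ρ) := by
    intro z
    unfold Par.D
    rw [min_assoc, min_self]
  have r2 : (0.55:ℝ) ≤ P.ρ := by norm_num at r1 ⊢; linarith only [e2, e1, r1]
  have h1 := key (show min x P.ρ ∈ Icc (0.55:ℝ) P.ρ from ⟨le_min hx r2, min_le_right _ _⟩)
    (show min y P.ρ ∈ Icc (0.55:ℝ) P.ρ from ⟨le_min (hx.trans hxy) r2, min_le_right _ _⟩)
    (min_le_min_right _ hxy)
  simp only at h1
  rw [hmin y, hmin x]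
  have h2 : min y P.ρ - min x P.ρ ≤ y - x := by
    rcases le_total x P.ρ with h3 | h3
    · rw [min_eq_left h3]
      linarith only [min_le_left y P.ρ]
    · rw [min_eq_right h3, min_eq_right (h3.trans hxy)]
      linarith only [hxy]
  linarith only [h1, h2]

private theorem TPBb_io (h : P.Star) {k : ℕ} (hk : 11 ≤ k) {t : ℝ} (h0 : 0 ≤ t) (h1 : t ≤ 1) :
    P.io ((k + t) / 20) ≤ (1 - t) * P.io (k / 20) + t * P.io ((k + 1) / 20) ∧
    (1 - t) * P.io (k / 20) + t * P.io ((k + 1) / 20) - 0.00011 ≤ P.io ((k + t) / 20) := by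
  have hLp := (Par.Y_pos h).2.2.1
  have hL0 : 0 < P.L := by linarith only [hLp]
  have hkR : (11 : ℝ) ≤ k := by exact_mod_cast hk
  have hIc : Continuous P.I := continuous_iff_continuousAt.2 fun y => (Par.I_deriv h y).continuousAt
  have c1 : ConvexOn ℝ (Ici (0.55:ℝ)) P.I := by
    refine MonotoneOn.convexOn_of_deriv (convex_Ici _) hIc.continuousOn
      (fun y _ => (Par.I_deriv h y).differentiableAt.differentiableWithinAt) ?_
    intro a _ b _ hab
    rw [(Par.I_deriv h a).deriv, (Par.I_deriv h b).deriv]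
    exact Par.D_mono h hab
  have hder : ∀ y, HasDerivAt (fun y => P.I y - 0.93 / 2 * y ^ 2) (P.D y - 0.93 * y) y := by
    intro y
    refine ((Par.I_deriv h y).sub ((hasDerivAt_pow 2 y).const_mul (0.93 / 2))).congr_deriv ?_
    push_cast
    ring
  have c2 : ConcaveOn ℝ (Ici (0.55:ℝ)) (fun y => P.I y - 0.93 / 2 * y ^ 2) := by
    refine AntitoneOn.concaveOn_of_deriv (convex_Ici _) (hIc.sub (by fun_prop)).continuousOn
      (fun y _ => (hder y).differentiableAt.differentiableWithinAt) ?_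
    intro a ha b _ hab
    rw [interior_Ici] at ha
    rw [(hder a).deriv, (hder b).deriv]
    have := TPBb_slope h (x := a) (y := b) (le_of_lt ha) hab
    linarith only [this]
  have m1 : (k : ℝ) / 20 ∈ Ici (0.55:ℝ) := by
    show (0.55:ℝ) ≤ _
    norm_num
    linarith only [hkR]
  have m2 : ((k : ℝ) + 1) / 20 ∈ Ici (0.55:ℝ) := by
    show (0.55:ℝ) ≤ _
    norm_num
    linarith only [hkR]
  have h4 := c1.2 m1 m2 (show 0 ≤ 1 - t by linarith) h0 (by ring)
  have h5 := c2.2 m1 m2 (show 0 ≤ 1 - t by linarith) h0 (by ring)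
  simp only [smul_eq_mul] at h4 h5
  have h6 : (1 - t) * ((k : ℝ) / 20) + t * (((k : ℝ) + 1) / 20) = ((k : ℝ) + t) / 20 := by ring
  rw [h6] at h4 h5
  unfold Par.io
  refine ⟨?_, ?_⟩
  · have h7 := div_le_div_of_nonneg_right h4 hL0.le
    refine h7.trans (le_of_eq ?_)
    ring
  · have h7 : (1 - t) * (0.93 / 2 * ((k : ℝ) / 20) ^ 2) + t * (0.93 / 2 * (((k : ℝ) + 1) / 20) ^ 2) -
      0.93 / 2 * (((k : ℝ) + t) / 20) ^ 2 = 0.93 * (t * (1 - t)) / 800 := by ring
    have h8 : t * (1 - t) ≤ 1 / 4 := by nlinarith only [sq_nonneg (t - 1 / 2)]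
    have h9 : (1 - t) * P.I ((k : ℝ) / 20) + t * P.I (((k : ℝ) + 1) / 20) - 0.93 / 3200 ≤
      P.I (((k : ℝ) + t) / 20) := by
      norm_num at h5 h7 h8 ⊢
      linarith only [h5, h8]
    have h10 := div_le_div_of_nonneg_right h9 hL0.le
    refine le_trans ?_ h10
    have h11 : (0.93 / 3200 : ℝ) / P.L ≤ 0.00011 := by
      rw [div_le_iff₀ hL0]
      norm_num at hLp ⊢
      linarith only [hLp]
    have h12 : ((1 - t) * P.I ((k : ℝ) / 20) + t * P.I (((k : ℝ) + 1) / 20) - 0.93 / 3200) / P.L =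
      (1 - t) * (P.I ((k : ℝ) / 20) / P.L) + t * (P.I (((k : ℝ) + 1) / 20) / P.L) -
        (0.93 / 3200 : ℝ) / P.L := by ring
    rw [h12]
    linarith only [h11]

private theorem TPBb_w {k : ℕ} (hk : 11 ≤ k) {t : ℝ} (h0 : 0 ≤ t) (h1 : t ≤ 1) :
    (1 - t) * w (k / 20) + t * w ((k + 1) / 20) ≤ w ((k + t) / 20) := by
  have hkR : (11 : ℝ) ≤ k := by exact_mod_cast hk
  rcases Nat.lt_or_ge k 12 with h2 | h2
  · have h3 : k = 11 := by omega
    subst h3
    have w1 : w (((11 : ℕ) : ℝ) / 20) = 0.9075 := by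
      unfold w
      rw [min_eq_left (by norm_num), max_eq_right (by norm_num)]
      norm_num
    have w2 : w ((((11 : ℕ) : ℝ) + 1) / 20) = 1 := by
      unfold w
      rw [min_eq_right (by norm_num), max_eq_right (by norm_num)]
      norm_num
    rw [w1, w2]
    unfold w
    rw [max_eq_right (by norm_num; linarith only [h1])]
    have h4 : (1 - t) * 0.9075 + t * 1 ≤ min (3 * ((((11 : ℕ) : ℝ) + t) / 20) ^ 2) 1 := by
      refine le_min ?_ ?_
      · norm_num
        nlinarith only [mul_nonneg h0 h0, h0]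
      · norm_num
        linarith only [h1]
    linarith only [h4]
  · have h2R : (12 : ℝ) ≤ k := by exact_mod_cast h2
    have hmin : ∀ y : ℝ, 0.6 ≤ y → min (3 * y ^ 2) 1 = 1 := by
      intro y hy
      refine min_eq_right ?_
      norm_num at hy
      nlinarith only [hy]
    unfold w
    rw [hmin _ (by norm_num; linarith), hmin _ (by norm_num; linarith only [h2R]),
      hmin _ (by norm_num; linarith)]
    rcases Nat.lt_or_ge k 28 with h3 | h3
    · have h3R : (k : ℝ) + 1 ≤ 28 := by exact_mod_cast h3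
      rw [max_eq_right (by norm_num; linarith only [h3R]), max_eq_right (by norm_num; linarith only [h3R])]
      have := le_max_right (((k : ℝ) + t) / 20 - 1.4) 0
      linarith only [this]
    · have h3R : (28 : ℝ) ≤ k := by exact_mod_cast h3
      rw [max_eq_left (by norm_num; linarith only [h3R]), max_eq_left (by norm_num; linarith),
        max_eq_left (by norm_num; linarith)]
      exact le_of_eq (by ring)

private theorem TPBb_exp {u : ℝ} (h0 : 0 ≤ u) (h1 : u ≤ 1) :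
    1 - u + u ^ 2 / 2 - u ^ 3 / 6 ≤ Real.exp (-u) := by
  have h2 := Real.exp_bound (x := -u) (by rw [abs_neg, abs_of_nonneg h0]; exact h1)
    (n := 5) (by norm_num)
  rw [abs_neg, abs_of_nonneg h0] at h2
  have h3 := (abs_le.1 h2).1
  simp only [Finset.sum_range_succ, Finset.sum_range_zero] at h3
  norm_num [Nat.factorial] at h3
  have h4 : 0 ≤ u ^ 4 := by positivity
  have h5 : u ^ 5 ≤ u ^ 4 := by
    have : u ^ 5 = u ^ 4 * u := by ring
    rw [this]
    exact mul_le_of_le_one_right h4 h1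
  nlinarith only [h3, h4, h5]

/-- part A of the tube: the profiles on `[0, 0.55]` -/
private theorem TPBb_partA (h : P.Star) {N δ : ℝ} (hN0 : 0 < N) {l : List ℕ} (hl : MonoL l)
    (hlo : ∀ j : ℕ, 1 ≤ j → j ≤ 11 → ((l.getD j 0 : ℕ) : ℝ) / 10^6 ≤
      (P.D (j / 20) / P.L + 6 * δ * (j / 20) - (if j = 1 then 0 else 0.00012)) * N)
    (hhi : ∀ j : ℕ, 1 ≤ j → j ≤ 11 →
      (P.D (j / 20) / P.L - 6 * δ * (j / 20) + (if j = 1 then 0 else 0.00012)) * N ≤
        ((l.getD j 0 : ℕ) : ℝ) / 10^6) {y : ℝ} (hy0 : 0 ≤ y) (hy1 : y ≤ 0.55) :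
    |pl l y / N - P.D y / P.L| ≤ 6 * δ * y := by
  have hLp := (Par.Y_pos h).2.2.1
  have hL0 : 0 < P.L := by linarith only [hLp]
  obtain ⟨k, hk, t, ht0, ht1, hyk⟩ : ∃ k : ℕ, k < 11 ∧ ∃ t : ℝ, 0 ≤ t ∧ t ≤ 1 ∧
      y = ((k : ℝ) + t) / 20 := by
    obtain ⟨k, hk, t, ht0, ht1, rfl⟩ := TPBb_loc hy0 (by norm_num at hy1 ⊢; linarith only [hy1])
    rcases Nat.lt_or_ge k 11 with h2 | h2
    · exact ⟨k, h2, t, ht0, ht1, rfl⟩
    · have h3 : (11:ℝ) ≤ k := by exact_mod_cast h2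
      refine ⟨10, by norm_num, 1, by norm_num, le_rfl, ?_⟩
      norm_num at hy1 ⊢
      linarith only [ht0, h3, hy1]
  obtain ⟨c1, c2⟩ := TPBb_Dch h hk ht0 ht1
  have hcell := pl_cell hl (show k < 62 by omega) ht0 ht1
  rw [← hyk] at c1 c2 hcell
  -- the node 0
  have hlo0 : ∀ j : ℕ, j ≤ 11 → ((l.getD j 0 : ℕ) : ℝ) / 10^6 ≤
      (P.D (j / 20) / P.L + 6 * δ * (j / 20) - (if j ≤ 1 then 0 else 0.00012)) * N := by
    intro j hj
    rcases Nat.eq_zero_or_pos j with h2 | h2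
    · subst h2
      have h3 : ((0 : ℕ) : ℝ) / 20 = 0 := by norm_num
      rw [hl.2.1, h3, Par.D_zero h le_rfl, if_pos (by norm_num)]
      simp
    · have h3 := hlo j h2 hj
      by_cases h4 : j = 1
      · rw [if_pos h4] at h3
        rw [if_pos h4.le]
        exact h3
      · rw [if_neg h4] at h3
        rw [if_neg (by omega)]
        exact h3
  have hhi0 : ∀ j : ℕ, j ≤ 11 →
      (P.D (j / 20) / P.L - 6 * δ * (j / 20) + (if j ≤ 1 then 0 else 0.00012)) * N ≤
        ((l.getD j 0 : ℕ) : ℝ) / 10^6 := by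
    intro j hj
    rcases Nat.eq_zero_or_pos j with h2 | h2
    · subst h2
      have h3 : ((0 : ℕ) : ℝ) / 20 = 0 := by norm_num
      rw [hl.2.1, h3, Par.D_zero h le_rfl, if_pos (by norm_num)]
      simp
    · have h3 := hhi j h2 hj
      by_cases h4 : j = 1
      · rw [if_pos h4] at h3
        rw [if_pos h4.le]
        exact h3
      · rw [if_neg h4] at h3
        rw [if_neg (by omega)]
        exact h3
  have herr : (1 / 3200 : ℝ) / P.L ≤ 0.00012 := by
    rw [div_le_iff₀ hL0]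
    norm_num at hLp ⊢
    linarith only [hLp]
  have hε : ∀ j : ℕ, (0:ℝ) ≤ (if j ≤ 1 then 0 else 0.00012) := by
    intro j
    split_ifs <;> norm_num
  -- the error of the chord is covered
  have hcov : (if k ≤ 1 then (0:ℝ) else 1 / 3200) / P.L ≤
      (1 - t) * (if k ≤ 1 then 0 else 0.00012) + t * (if k + 1 ≤ 1 then 0 else 0.00012) := by
    by_cases h2 : k ≤ 1
    · rw [if_pos h2, if_pos h2, zero_div, mul_zero, zero_add]
      exact mul_nonneg ht0 (hε _)
    · rw [if_neg h2, if_neg h2, if_neg (by omega)]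
      linarith only [herr]
  have a1 := mul_le_mul_of_nonneg_left (hlo0 k (by omega)) (show 0 ≤ 1 - t by linarith only [ht1])
  have a2 := mul_le_mul_of_nonneg_left (hlo0 (k + 1) (by omega)) ht0
  have b1 := mul_le_mul_of_nonneg_left (hhi0 k (by omega)) (show 0 ≤ 1 - t by linarith only [ht1])
  have b2 := mul_le_mul_of_nonneg_left (hhi0 (k + 1) (by omega)) ht0
  have hcast : ((k + 1 : ℕ) : ℝ) / 20 = ((k : ℝ) + 1) / 20 := by push_cast; ring
  rw [hcast] at a2 b2
  have hplN : pl l y / N * N = pl l y := div_mul_cancel₀ _ hN0.ne'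
  have c1' := div_le_div_of_nonneg_right c1 hL0.le
  have c2' := div_le_div_of_nonneg_right c2 hL0.le
  rw [add_div, add_div, mul_div_assoc, mul_div_assoc] at c2'
  rw [add_div, mul_div_assoc, mul_div_assoc] at c1'
  have hcell' : pl l y = (1 - t) * (((l.getD k 0 : ℕ) : ℝ) / 10^6) +
      t * (((l.getD (k + 1) 0 : ℕ) : ℝ) / 10^6) := by
    rw [hcell]
    ring
  have hy' : 6 * δ * y = (1 - t) * (6 * δ * ((k : ℝ) / 20)) + t * (6 * δ * (((k : ℝ) + 1) / 20)) := by
    rw [hyk]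
    ring
  have hεk := hε k
  have hεk1 := hε (k + 1)
  rw [abs_le]
  constructor
  · -- lower
    have h2 : (P.D y / P.L - 6 * δ * y) * N ≤ pl l y := by
      rw [hcell']
      refine le_trans ?_ (add_le_add b1 b2)
      rw [← mul_assoc, ← mul_assoc, ← add_mul]
      refine mul_le_mul_of_nonneg_right ?_ hN0.le
      rw [hy']
      linarith only [hcov, c2']
    rw [← hplN] at h2
    have h3 := le_of_mul_le_mul_right h2 hN0
    linarith only [h3]
  · have h2 : pl l y ≤ (P.D y / P.L + 6 * δ * y) * N := by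
      rw [hcell']
      refine (add_le_add a1 a2).trans ?_
      rw [← mul_assoc, ← mul_assoc, ← add_mul]
      refine mul_le_mul_of_nonneg_right ?_ hN0.le
      rw [hy']
      have h3 := mul_nonneg (show 0 ≤ 1 - t by linarith only [ht1]) hεk
      have h4 := mul_nonneg ht0 hεk1
      linarith only [hcov, c1', c2']
    rw [← hplN] at h2
    have h3 := le_of_mul_le_mul_right h2 hN0
    linarith only [h3]

/-- the tube on `[0, 0.55]` -/
private theorem TPBb_tubeA (h : P.Star) {N δ : ℝ} (hN0 : 0 < N) {l : List ℕ} (hl : MonoL l)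
    (hA : ∀ y, 0 ≤ y → y ≤ 0.55 → |pl l y / N - P.D y / P.L| ≤ 6 * δ * y)
    {y : ℝ} (hy0 : 0 ≤ y) (hy1 : y ≤ 0.55) : |I1 (pl l) y / N - P.io y| ≤ δ * w y := by
  have hpf := pl_pf hl
  have hDc := Par.D_cont h
  have hw : w y = 3 * y ^ 2 := by
    unfold w
    norm_num at hy1
    rw [min_eq_left (by nlinarith only [hy1, hy0]), max_eq_right (by norm_num; linarith only [hy1])]
    ring
  have h1 : P.I y = ∫ x in (0:ℝ)..y, P.D x := by
    rw [intervalIntegral.integral_eq_sub_of_hasDerivAt (fun x _ => Par.I_deriv h x)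
      (hDc.intervalIntegrable _ _), Par.I_zero h le_rfl, sub_zero]
  have h2 : I1 (pl l) y / N - P.io y = ∫ x in (0:ℝ)..y, (pl l x / N - P.D x / P.L) := by
    rw [intervalIntegral.integral_sub ((hpf.cont.div_const _).intervalIntegrable _ _)
      ((hDc.div_const _).intervalIntegrable _ _), intervalIntegral.integral_div,
      intervalIntegral.integral_div, ← h1]
    rfl
  have hc : Continuous fun x => pl l x / N - P.D x / P.L :=
    (hpf.cont.div_const _).sub (hDc.div_const _)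
  rw [h2, hw]
  refine (intervalIntegral.abs_integral_le_integral_abs hy0).trans ?_
  have h3 : (∫ x in (0:ℝ)..y, |pl l x / N - P.D x / P.L|) ≤ ∫ x in (0:ℝ)..y, 6 * δ * x :=
    intervalIntegral.integral_mono_on hy0 (hc.abs.intervalIntegrable _ _)
      (Continuous.intervalIntegrable (by fun_prop) _ _) fun x hx => hA x hx.1 (hx.2.trans hy1)
  refine h3.trans (le_of_eq ?_)
  rw [intervalIntegral.integral_const_mul, integral_id]
  ring

/-- the tube on `[0.55, 2.2]` -/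
private theorem TPBb_tubeB (h : P.Star) {N δ : ℝ} (hN0 : 0 < N) (hδ : 0 ≤ δ) {l : List ℕ}
    (hl : MonoL l)
    (hlo : ∀ j : ℕ, 11 ≤ j → j ≤ 44 → I1 (pl l) (j / 20) ≤
      (P.io (j / 20) + δ * w (j / 20) - 0.00011) * N)
    (hhi : ∀ j : ℕ, 11 ≤ j → j ≤ 44 → (P.io (j / 20) - δ * w (j / 20)) * N +
      max (((l.getD (j + 1) 0 : ℕ) : ℝ) - ((l.getD j 0 : ℕ) : ℝ))
        (((l.getD j 0 : ℕ) : ℝ) - ((l.getD (j - 1) 0 : ℕ) : ℝ)) / (160 * 10^6) ≤
        I1 (pl l) (j / 20))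
    {y : ℝ} (hy0 : 0.55 ≤ y) (hy1 : y ≤ 2.2) : |I1 (pl l) y / N - P.io y| ≤ δ * w y := by
  obtain ⟨k, hk1, hk2, t, ht0, ht1, hyk⟩ : ∃ k : ℕ, 11 ≤ k ∧ k < 44 ∧ ∃ t : ℝ, 0 ≤ t ∧ t ≤ 1 ∧
      y = ((k : ℝ) + t) / 20 := by
    obtain ⟨k, hk, t, ht0, ht1, rfl⟩ := TPBb_loc (r := y) (by norm_num at hy0; linarith only [hy0])
      (by norm_num at hy1 ⊢; linarith only [hy1])
    norm_num at hy0 hy1
    have hk44 : k ≤ 44 := by
      have : (k : ℝ) ≤ 44 := by linarith only [ht0, hy1]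
      exact_mod_cast this
    have hk10 : 10 ≤ k := by
      have : (10 : ℝ) ≤ k := by linarith only [ht1, hy0]
      exact_mod_cast this
    rcases Nat.lt_or_ge k 11 with h2 | h2
    · have h3 : k = 10 := by omega
      subst h3
      refine ⟨11, le_rfl, by norm_num, 0, le_rfl, by norm_num, ?_⟩
      push_cast at hy0 ⊢
      linarith only [hy0, ht1]
    · rcases Nat.lt_or_ge k 44 with h3 | h3
      · exact ⟨k, h2, h3, t, ht0, ht1, rfl⟩
      · have h4 : k = 44 := by omega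
        subst h4
        refine ⟨43, by norm_num, by norm_num, 1, by norm_num, le_rfl, ?_⟩
        push_cast at hy1 ⊢
        linarith only [ht0, hy1]
  have hI := TPBb_I1 hl (show k < 62 by omega) ht0 ht1
  have hI0 := TPBb_I1 hl (show k < 62 by omega) (t := 0) le_rfl (by norm_num)
  have hI1 := TPBb_I1 hl (show k < 62 by omega) (t := 1) (by norm_num) le_rfl
  rw [add_zero] at hI0
  obtain ⟨c1, c2⟩ := TPBb_io h hk1 ht0 ht1
  have cw := TPBb_w hk1 ht0 ht1
  rw [← hyk] at hI c1 c2 cw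
  have hcast : ((k + 1 : ℕ) : ℝ) / 20 = ((k : ℝ) + 1) / 20 := by push_cast; ring
  have a1 := mul_le_mul_of_nonneg_left (hlo k hk1 (by omega)) (show 0 ≤ 1 - t by linarith only [ht1])
  have a2 := mul_le_mul_of_nonneg_left (hlo (k + 1) (by omega) (by omega)) ht0
  have b1' := hhi k hk1 (by omega)
  have b2' := hhi (k + 1) (by omega) (by omega)
  rw [Nat.add_sub_cancel] at b2'
  rw [hcast] at a2 b2'
  have hd : ((l.getD k 0 : ℕ) : ℝ) ≤ ((l.getD (k + 1) 0 : ℕ) : ℝ) := by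
    exact_mod_cast hl.2.2 k (by omega)
  have m1 : ((l.getD (k + 1) 0 : ℕ) : ℝ) - ((l.getD k 0 : ℕ) : ℝ) ≤
      max (((l.getD (k + 1) 0 : ℕ) : ℝ) - ((l.getD k 0 : ℕ) : ℝ))
        (((l.getD k 0 : ℕ) : ℝ) - ((l.getD (k - 1) 0 : ℕ) : ℝ)) := le_max_left _ _
  have m2 : ((l.getD (k + 1) 0 : ℕ) : ℝ) - ((l.getD k 0 : ℕ) : ℝ) ≤
      max (((l.getD (k + 1 + 1) 0 : ℕ) : ℝ) - ((l.getD (k + 1) 0 : ℕ) : ℝ))
        (((l.getD (k + 1) 0 : ℕ) : ℝ) - ((l.getD k 0 : ℕ) : ℝ)) := le_max_right _ _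
  have b1 : (P.io (k / 20) - δ * w (k / 20)) * N +
      (((l.getD (k + 1) 0 : ℕ) : ℝ) - ((l.getD k 0 : ℕ) : ℝ)) / (160 * 10^6) ≤
        I1 (pl l) (k / 20) :=
    (add_le_add_right (div_le_div_of_nonneg_right m1 (by norm_num)) _).trans b1'
  have b2 : (P.io ((k + 1) / 20) - δ * w ((k + 1) / 20)) * N +
      (((l.getD (k + 1) 0 : ℕ) : ℝ) - ((l.getD k 0 : ℕ) : ℝ)) / (160 * 10^6) ≤
        I1 (pl l) ((k + 1) / 20) :=
    (add_le_add_right (div_le_div_of_nonneg_right m2 (by norm_num)) _).trans b2'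
  have b3 := mul_le_mul_of_nonneg_left b1 (show 0 ≤ 1 - t by linarith only [ht1])
  have b4 := mul_le_mul_of_nonneg_left b2 ht0
  set i0 : ℝ := ((((tb 0 0 l).getD k (0,0,0)).2.1 : ℕ) : ℝ) with hi0
  set d0 : ℝ := ((l.getD k 0 : ℕ) : ℝ) with hd0
  set d1 : ℝ := ((l.getD (k + 1) 0 : ℕ) : ℝ) with hd1
  have hch : (1 - t) * I1 (pl l) (k / 20) + t * I1 (pl l) ((k + 1) / 20) - I1 (pl l) y =
      (d1 - d0) * (t * (1 - t)) / (40 * 10^6) := by
    rw [hI, hI0, hI1]
    ring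
  have ht4 : t * (1 - t) ≤ 1 / 4 := by nlinarith only [sq_nonneg (t - 1 / 2)]
  have ht5 : 0 ≤ t * (1 - t) := mul_nonneg ht0 (by linarith only [ht1])
  have hch0 : 0 ≤ (d1 - d0) * (t * (1 - t)) / (40 * 10^6) :=
    div_nonneg (mul_nonneg (sub_nonneg.2 hd) ht5) (by norm_num)
  have hch1 : (d1 - d0) * (t * (1 - t)) / (40 * 10^6) ≤ (d1 - d0) / (160 * 10^6) := by
    have h2 := mul_le_mul_of_nonneg_left ht4 (sub_nonneg.2 hd)
    have h3 := div_le_div_of_nonneg_right h2 (show (0:ℝ) ≤ 40 * 10^6 by norm_num)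
    refine h3.trans (le_of_eq ?_)
    ring
  have hδw := mul_le_mul_of_nonneg_left cw hδ
  have hIN : I1 (pl l) y / N * N = I1 (pl l) y := div_mul_cancel₀ _ hN0.ne'
  rw [abs_le]
  constructor
  · have h2 : (P.io y - δ * w y) * N ≤ I1 (pl l) y := by
      have h3 : (P.io y - δ * w y) * N ≤ ((1 - t) * (P.io (k / 20) - δ * w (k / 20)) +
          t * (P.io ((k + 1) / 20) - δ * w ((k + 1) / 20))) * N :=
        mul_le_mul_of_nonneg_right (by linarith only [c1, hδw]) hN0.le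
      linarith only [b3, b4, hch, hch1, h3]
    rw [← hIN] at h2
    have h3 := le_of_mul_le_mul_right h2 hN0
    linarith only [h3]
  · have h2 : I1 (pl l) y ≤ (P.io y + δ * w y) * N := by
      have h3 : ((1 - t) * (P.io (k / 20) + δ * w (k / 20) - 0.00011) +
          t * (P.io ((k + 1) / 20) + δ * w ((k + 1) / 20) - 0.00011)) * N ≤
          (P.io y + δ * w y) * N :=
        mul_le_mul_of_nonneg_right (by linarith only [c2, hδw]) hN0.le
      linarith only [a1, a2, hch, hch0, h3]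
    rw [← hIN] at h2
    have h3 := le_of_mul_le_mul_right h2 hN0
    linarith only [h3]

/-- the integral of `mb (y + e0) I1 D y` from below -/
private theorem TPBb_mass (h : P.Star) {l : List ℕ} (hl : MonoL l) :
    ((goM mLo (tb 0 0 l) : ℕ) : ℝ) + 1788000 * ((((tb 0 0 l).getD 30 (0,0,0)).2.1 : ℕ) : ℝ) ≤
      (∫ y in (0:ℝ)..(P.ρ - P.e0), P.mb (y + P.e0) * I1 (pl l) y) * (9600 * 10^12) := by
  have r1 := h.ρ_lo
  have e1 := h.e_lo
  have e2 := h.e_hi
  have u1 := h.u_lo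
  have hpf := pl_pf hl
  have hIpf := I1_pf hpf
  have hmc := Par.mb_cont h
  have hfc : Continuous fun y => P.mb (y + P.e0) * I1 (pl l) y :=
    (hmc.comp (by fun_prop)).mul hIpf.cont
  norm_num at r1 e1 e2 u1
  -- the tail
  have htail : 1788000 * ((((tb 0 0 l).getD 30 (0,0,0)).2.1 : ℕ) : ℝ) ≤
      (∫ y in (3 / 2 : ℝ)..(P.ρ - P.e0), P.mb (y + P.e0) * I1 (pl l) y) * (9600 * 10^12) := by
    have hI30 := pl_I1 hl (k := 30) (by norm_num)
    have h30 : ((30 : ℕ) : ℝ) / 20 = 3 / 2 := by norm_num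
    rw [h30] at hI30
    have hmb : P.mb P.ρ = P.u ^ 2 / 2 := by
      rw [Par.mb_out h (by linarith only [e1, e2])]
      have h2 : P.Y - P.ρ = P.u := by
        unfold Par.Y
        ring
      rw [h2, max_eq_left (by linarith only [e1, e2, u1])]
    have hle : (3 / 2 : ℝ) ≤ P.ρ - P.e0 := by linarith only [r1, e1, e2]
    have h2 : (∫ _y in (3 / 2 : ℝ)..(P.ρ - P.e0), P.u ^ 2 / 2 * I1 (pl l) (3 / 2)) ≤
        ∫ y in (3 / 2 : ℝ)..(P.ρ - P.e0), P.mb (y + P.e0) * I1 (pl l) y := by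
      refine intervalIntegral.integral_mono_on hle (Continuous.intervalIntegrable (by fun_prop) _ _)
        (hfc.intervalIntegrable _ _) fun y hy => ?_
      refine mul_le_mul ?_ (hIpf.mono hy.1) (hIpf.nonneg _) (Par.mb_nonneg h (by linarith only [hy.1, e1, e2, hy]))
      rw [← hmb]
      exact Par.mb_anti h (show (0:ℝ) ≤ y + P.e0 by linarith only [hy.1, e1, e2, hy])
        (show (0:ℝ) ≤ P.ρ by linarith only [r1, e1, e2]) (by linarith only [hy.2, hy])
    rw [intervalIntegral.integral_const, smul_eq_mul] at h2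
    have h3 : 0.00745 ≤ (P.ρ - P.e0 - 3 / 2) * (P.u ^ 2 / 2) := by
      have h4 : (0.018268 : ℝ) ≤ P.ρ - P.e0 - 3 / 2 := by norm_num; linarith only [r1, e2]
      have h5 : (0.408494 : ℝ) ≤ P.u ^ 2 / 2 := by
        have : (451937 / 500000 : ℝ) ^ 2 ≤ P.u ^ 2 := pow_le_pow_left₀ (by norm_num) u1.le 2
        norm_num at this ⊢
        linarith only [e1, e2, this]
      have h6 := mul_le_mul h4 h5 (by norm_num) (by linarith only [r1, e1, e2])
      norm_num at h6 ⊢
      linarith only [e1, e2, h6]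
    have h4 := mul_le_mul_of_nonneg_right h3 (hIpf.nonneg (3 / 2))
    have h5 : 0.00745 * I1 (pl l) (3 / 2) ≤
        ∫ y in (3 / 2 : ℝ)..(P.ρ - P.e0), P.mb (y + P.e0) * I1 (pl l) y := by
      refine h4.trans ((le_of_eq ?_).trans h2)
      ring
    rw [hI30] at h5
    have h6 := mul_le_mul_of_nonneg_right h5 (show (0:ℝ) ≤ 9600 * 10^12 by norm_num)
    refine (le_of_eq ?_).trans h6
    norm_num
    ring
  -- the cells
  have hcell : (∫ y in (0:ℝ)..(3 / 2), P.mb (y + P.e0) * I1 (pl l) y) =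
      ∑ j ∈ Finset.range 30, ∫ y in ((j : ℝ) / 20)..(((j + 1 : ℕ) : ℝ) / 20),
        P.mb (y + P.e0) * I1 (pl l) y := by
    have h1 := intervalIntegral.sum_integral_adjacent_intervals (μ := volume)
      (f := fun y => P.mb (y + P.e0) * I1 (pl l) y)
      (a := fun j : ℕ => (j : ℝ) / 20) (n := 30) (fun k _ => hfc.intervalIntegrable _ _)
    rw [h1]
    norm_num
  have hterm : ∀ j : ℕ, j < 30 → ((((mLo.getD j 0 - 326) * (6 * ((tb 0 0 l).getD j (0,0,0)).2.1 +
        3 * ((tb 0 0 l).getD j (0,0,0)).1 + ((tb 0 0 l).getD (j + 1) (0,0,0)).1) +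
      (mLo.getD (j + 1) 0 - 326) * (6 * ((tb 0 0 l).getD j (0,0,0)).2.1 +
        5 * ((tb 0 0 l).getD j (0,0,0)).1 +
        3 * ((tb 0 0 l).getD (j + 1) (0,0,0)).1) : ℕ)) : ℝ) ≤
      (∫ y in ((j : ℝ) / 20)..(((j + 1 : ℕ) : ℝ) / 20), P.mb (y + P.e0) * I1 (pl l) y) *
        (9600 * 10^12) := by
    intro j hj
    rw [tb_fst hl (by omega), tb_fst hl (by omega), TPBb_cellint]
    have hm326 : ∀ i : ℕ, i ≤ 30 → 326 ≤ mLo.getD i 0 := by decide
    have hm0 := mLo_tab h (i := j) (by omega)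
    have hm1 := mLo_tab h (i := j + 1) (by omega)
    have hc0 : ((mLo.getD j 0 - 326 : ℕ) : ℝ) = ((mLo.getD j 0 : ℕ) : ℝ) - 326 := by
      rw [Nat.cast_sub (hm326 j (by omega))]
      norm_num
    have hc1 : ((mLo.getD (j + 1) 0 - 326 : ℕ) : ℝ) = ((mLo.getD (j + 1) 0 : ℕ) : ℝ) - 326 := by
      rw [Nat.cast_sub (hm326 (j + 1) (by omega))]
      norm_num
    push_cast at hm1
    rw [Nat.cast_add, Nat.cast_mul, Nat.cast_mul, hc0, hc1]
    set m0 : ℝ := ((mLo.getD j 0 : ℕ) : ℝ) - 326 with hm0d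
    set m1 : ℝ := ((mLo.getD (j + 1) 0 : ℕ) : ℝ) - 326 with hm1d
    push_cast
    set i0 : ℝ := ((((tb 0 0 l).getD j (0,0,0)).2.1 : ℕ) : ℝ) with hi0
    set d0 : ℝ := ((l.getD j 0 : ℕ) : ℝ) with hd0
    set d1 : ℝ := ((l.getD (j + 1) 0 : ℕ) : ℝ) with hd1
    have hle : (∫ t in (0:ℝ)..1, (((1 - t) * m0 + t * m1) * (i0 + 2 * d0 * t + (d1 - d0) * t ^ 2))) /
        (40 * 10^12) ≤
        ∫ t in (0:ℝ)..1, P.mb (((j : ℝ) + t) / 20 + P.e0) * I1 (pl l) (((j : ℝ) + t) / 20) := by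
      rw [← intervalIntegral.integral_div]
      refine intervalIntegral.integral_mono_on (by norm_num)
        (Continuous.intervalIntegrable (by fun_prop) _ _) (Continuous.intervalIntegrable
          ((hmc.comp (by fun_prop)).mul (hIpf.cont.comp (by fun_prop))) _ _) fun t ht => ?_
      have h2 := mb_chord h hj ht.1 ht.2
      have h3 := TPBb_I1 hl (show j < 62 by omega) ht.1 ht.2
      rw [← hi0, ← hd0, ← hd1] at h3
      have h4 : ((1 - t) * m0 + t * m1) / 10^6 ≤ P.mb (((j : ℝ) + t) / 20 + P.e0) := by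
        refine le_trans ?_ h2
        rw [div_le_iff₀ (by norm_num)]
        have h5 := mul_le_mul_of_nonneg_left hm0 (show 0 ≤ 1 - t by linarith only [ht.2, ht])
        have h6 := mul_le_mul_of_nonneg_left hm1 ht.1
        rw [hm0d, hm1d]
        linarith only [h5, h6]
      have h5 : ((1 - t) * m0 + t * m1) * (i0 + 2 * d0 * t + (d1 - d0) * t ^ 2) / (40 * 10^12) =
        ((1 - t) * m0 + t * m1) / 10^6 * I1 (pl l) (((j : ℝ) + t) / 20) := by
        rw [h3]
        ring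
      rw [h5]
      exact mul_le_mul_of_nonneg_right h4 (hIpf.nonneg _)
    have hint : (∫ t in (0:ℝ)..1, (((1 - t) * m0 + t * m1) *
        (i0 + 2 * d0 * t + (d1 - d0) * t ^ 2))) =
        (m0 * (6 * i0 + 3 * d0 + d1) + m1 * (6 * i0 + 5 * d0 + 3 * d1)) / 12 := by
      have h2 : (fun t : ℝ => ((1 - t) * m0 + t * m1) * (i0 + 2 * d0 * t + (d1 - d0) * t ^ 2)) =
          fun t => m0 * i0 + ((m1 - m0) * i0 + m0 * (2 * d0)) * t +
          ((m1 - m0) * (2 * d0) + m0 * (d1 - d0)) * t ^ 2 + ((m1 - m0) * (d1 - d0)) * t ^ 3 := by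
        funext t
        ring
      rw [h2, TPBb_poly]
      ring
    rw [hint] at hle
    have h3 := mul_le_mul_of_nonneg_right hle (show (0:ℝ) ≤ 480 * 10^12 by norm_num)
    have h4 : ∀ I : ℝ, I / 20 * (9600 * 10^12) = I * (480 * 10^12) := fun I => by ring
    rw [h4]
    refine (le_of_eq ?_).trans h3
    ring
  have hsum : ((goM mLo (tb 0 0 l) : ℕ) : ℝ) ≤
      (∫ y in (0:ℝ)..(3 / 2), P.mb (y + P.e0) * I1 (pl l) y) * (9600 * 10^12) := by
    rw [TPBb_goM 30 mLo _ rfl (by rw [tb_len hl.1]; norm_num), hcell, Nat.cast_sum, Finset.sum_mul]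
    exact Finset.sum_le_sum fun j hj => hterm j (Finset.mem_range.1 hj)
  rw [← intervalIntegral.integral_add_adjacent_intervals (hfc.intervalIntegrable 0 (3 / 2))
    (hfc.intervalIntegrable (3 / 2) (P.ρ - P.e0)), add_mul]
  linarith only [htail, hsum]

theorem chkS_sound (h : P.Star) {V dl : ℕ} {l : List ℕ} (hl : MonoL l) (hV : 0 < V) (hc : chkS V l dl = true) :
    VS2 P (V / 10^6 + I2 (pl l) P.Y) (dl / 10^4) (pl l) ∧
    Phi P (V / 10^6 + I2 (pl l) P.Y) (dl / 10^4) (pl l) ≤ -0.0005 := by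
  simp only [chkS, Bool.and_eq_true, Nat.ble_eq] at hc
  obtain ⟨⟨⟨⟨⟨hg1, hg2⟩, hc44⟩, hop⟩, hdl⟩, hbig⟩ := hc
  have hD : Pf (pl l) := pl_pf hl
  have hLp := (Par.Y_pos h).2.2.1
  have hL0 : 0 < P.L := by linarith only [hLp]
  have hJY := pl_JY h hl
  have hVR : (0:ℝ) < V := by exact_mod_cast hV
  set N : ℝ := V / 10^6 + I2 (pl l) P.Y with hNd
  have hN0 : 0 < N := by
    have h1 := (I2_pf hD).nonneg P.Y
    have h2 : 0 < (V:ℝ) / 10^6 := by positivity
    linarith only [hJY, hVR, hNd]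
  have hNl : ((2400 * V + JYL (tb 0 0 l) : ℕ) : ℝ) ≤ 2400 * 10^6 * N := by
    rw [hNd]
    push_cast
    linarith only [hJY.1, hJY]
  have hNu : 2400 * 10^6 * N ≤ ((2400 * V + JYU (tb 0 0 l) : ℕ) : ℝ) := by
    rw [hNd]
    push_cast
    linarith only [hJY.2, hJY]
  generalize hnl : 2400 * V + JYL (tb 0 0 l) = nl at hNl hg1 hg2 hc44
  generalize hnu : 2400 * V + JYU (tb 0 0 l) = nu at hNu hg1 hg2 hop hbig
  have hnl0 : (0:ℝ) ≤ nl := Nat.cast_nonneg _
  have hnu0 : (0:ℝ) ≤ nu := Nat.cast_nonneg _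
  have hdlR : (dl : ℝ) ≤ 300 := by exact_mod_cast hdl
  have hδ0 : (0:ℝ) ≤ (dl : ℝ) / 10^4 := by positivity
  -- part A
  have hlistlo : ∀ j : ℕ, 1 ≤ j → j ≤ 11 → ((l.getD j 0 : ℕ) : ℝ) / 10^6 ≤
      (P.D (j / 20) / P.L + 6 * ((dl : ℝ) / 10^4) * (j / 20) -
        (if j = 1 then 0 else 0.00012)) * N := by
    intro j hj1 hj2
    have h1 := (TPBb_goT1 _ _ _ _ hg1 (j - 1) (by
      show j - 1 < 11
      omega)).1
    rw [TPBb_tail, TPBb_tail, show 1 + (j - 1) = j by omega, show j - 1 + 1 = j by omega] at h1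
    have hdo := (do_tab h hj2).1
    have h120 : (if j = 1 then 0 else 120) ≤ doL.getD j 0 + 30 * dl * j := by
      have : ∀ i : ℕ, i ≤ 11 → (if i = 1 then 0 else 120) ≤ doL.getD i 0 + (if i = 0 then 120 else 0) := by
        decide
      have h2 := this j hj2
      rw [if_neg (show ¬ j = 0 by omega)] at h2
      omega
    have h2 : 2400 * 10^6 * ((l.getD j 0 : ℕ) : ℝ) ≤ (((doL.getD j 0 : ℕ) : ℝ) +
        30 * dl * j - (if j = 1 then 0 else 120)) * nl := by
      have h3 : ((2400 * 10^6 * l.getD j 0 : ℕ) : ℝ) ≤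
        (((doL.getD j 0 + 30 * dl * j - (if j = 1 then 0 else 120)) * nl : ℕ) : ℝ) := by
        exact_mod_cast h1
      rw [Nat.cast_mul (doL.getD j 0 + 30 * dl * j - (if j = 1 then 0 else 120)) nl,
        Nat.cast_sub h120] at h3
      push_cast at h3
      linarith only [h3]
    have hX0 : 0 ≤ ((doL.getD j 0 : ℕ) : ℝ) + 30 * dl * j - (if j = 1 then 0 else 120) := by
      have : ((if j = 1 then 0 else 120 : ℕ) : ℝ) ≤ ((doL.getD j 0 : ℕ) : ℝ) + 30 * dl * j := by
        exact_mod_cast h120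
      push_cast at this
      linarith only [this]
    have h3 := h2.trans (mul_le_mul_of_nonneg_left hNl hX0)
    have h4 : ((l.getD j 0 : ℕ) : ℝ) ≤ (((doL.getD j 0 : ℕ) : ℝ) +
        30 * dl * j - (if j = 1 then 0 else 120)) * N := by
      have h5 : (((doL.getD j 0 : ℕ) : ℝ) + 30 * dl * j - (if j = 1 then 0 else 120)) *
        (2400 * 10^6 * N) = 2400 * 10^6 * ((((doL.getD j 0 : ℕ) : ℝ) +
        30 * dl * j - (if j = 1 then 0 else 120)) * N) := by ring
      rw [h5] at h3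
      exact le_of_mul_le_mul_left h3 (by norm_num)
    rw [div_le_iff₀ (by norm_num)]
    have h6 : (((doL.getD j 0 : ℕ) : ℝ) + 30 * dl * j - (if j = 1 then 0 else 120)) ≤
        (P.D (j / 20) / P.L + 6 * ((dl : ℝ) / 10^4) * (j / 20) -
        (if j = 1 then 0 else 0.00012)) * 10^6 := by
      by_cases h7 : j = 1
      · rw [if_pos h7, if_pos h7]
        linarith only [hdo]
      · rw [if_neg h7, if_neg h7]
        norm_num at hdo ⊢
        linarith only [hdo]
    refine h4.trans ((mul_le_mul_of_nonneg_right h6 hN0.le).trans (le_of_eq ?_))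
    ring
  have hlisthi : ∀ j : ℕ, 1 ≤ j → j ≤ 11 →
      (P.D (j / 20) / P.L - 6 * ((dl : ℝ) / 10^4) * (j / 20) +
        (if j = 1 then 0 else 0.00012)) * N ≤ ((l.getD j 0 : ℕ) : ℝ) / 10^6 := by
    intro j hj1 hj2
    have h1 := (TPBb_goT1 _ _ _ _ hg1 (j - 1) (by
      show j - 1 < 11
      omega)).2
    rw [TPBb_tail, TPBb_tail, show 1 + (j - 1) = j by omega, show j - 1 + 1 = j by omega] at h1
    have hdo := (do_tab h hj2).2
    have h2 : (((doU.getD j 0 : ℕ) : ℝ) + (if j = 1 then 0 else 120) - 30 * dl * j) * nu ≤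
        2400 * 10^6 * ((l.getD j 0 : ℕ) : ℝ) := by
      have h3 : (((doU.getD j 0 + (if j = 1 then 0 else 120) - 30 * dl * j) * nu : ℕ) : ℝ) ≤
        ((2400 * 10^6 * l.getD j 0 : ℕ) : ℝ) := by exact_mod_cast h1
      rw [Nat.cast_mul (doU.getD j 0 + (if j = 1 then 0 else 120) - 30 * dl * j) nu] at h3
      rw [Nat.cast_mul (2400 * 10^6)] at h3
      have h33 : (((2400 * 10^6 : ℕ)) : ℝ) = 2400 * 10^6 := by norm_num
      rw [h33] at h3
      refine le_trans (mul_le_mul_of_nonneg_right ?_ hnu0) h3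
      have h4 : ((doU.getD j 0 + (if j = 1 then 0 else 120) : ℕ) : ℝ) ≤
        ((doU.getD j 0 + (if j = 1 then 0 else 120) - 30 * dl * j : ℕ) : ℝ) +
          ((30 * dl * j : ℕ) : ℝ) := by
        exact_mod_cast (by omega : doU.getD j 0 + (if j = 1 then 0 else 120) ≤
          doU.getD j 0 + (if j = 1 then 0 else 120) - 30 * dl * j + 30 * dl * j)
      push_cast at h4
      linarith only [h4]
    have h3 : (((doU.getD j 0 : ℕ) : ℝ) + (if j = 1 then 0 else 120) - 30 * dl * j) * N ≤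
        ((l.getD j 0 : ℕ) : ℝ) := by
      rcases le_total 0 (((doU.getD j 0 : ℕ) : ℝ) + (if j = 1 then 0 else 120) - 30 * dl * j)
        with h4 | h4
      · have h5 := (mul_le_mul_of_nonneg_left hNu h4).trans h2
        have h6 : (((doU.getD j 0 : ℕ) : ℝ) + (if j = 1 then 0 else 120) - 30 * dl * j) *
          (2400 * 10^6 * N) = 2400 * 10^6 * ((((doU.getD j 0 : ℕ) : ℝ) +
          (if j = 1 then 0 else 120) - 30 * dl * j) * N) := by ring
        rw [h6] at h5
        exact le_of_mul_le_mul_left h5 (by norm_num)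
      · exact (mul_nonpos_of_nonpos_of_nonneg h4 hN0.le).trans (Nat.cast_nonneg _)
    rw [le_div_iff₀ (by norm_num)]
    have h6 : (P.D (j / 20) / P.L - 6 * ((dl : ℝ) / 10^4) * (j / 20) +
        (if j = 1 then 0 else 0.00012)) * 10^6 ≤
        (((doU.getD j 0 : ℕ) : ℝ) + (if j = 1 then 0 else 120) - 30 * dl * j) := by
      by_cases h7 : j = 1
      · rw [if_pos h7, if_pos h7]
        linarith only [hdo]
      · rw [if_neg h7, if_neg h7]
        norm_num at hdo ⊢
        linarith only [hdo]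
    refine le_trans (le_of_eq ?_) ((mul_le_mul_of_nonneg_right h6 hN0.le).trans h3)
    ring
  -- part B
  have hg2' : ∀ j : ℕ, 11 ≤ j → j ≤ 44 →
      60 * 10^6 * ((tb 0 0 l).getD j (0,0,0)).2.1 * 10000 ≤
      (10000 * ioL.getD j 0 + dl * wn.getD j 0 - 1100000) * nl ∧
      (10000 * ioU.getD j 0 - dl * wn.getD j 0) * nu + 15 * 10^10 *
      max (l.getD (j + 1) 0 - l.getD j 0) (l.getD j 0 - l.getD (j - 1) 0) ≤
      60 * 10^6 * ((tb 0 0 l).getD j (0,0,0)).2.1 * 10000 := by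
    intro j hj1 hj2
    have h1 := TPBb_goT2 _ _ _ _ hg2 (j - 11) (by
      rw [List.length_drop]
      show j - 11 < 45 - 11
      omega)
    rw [TPBb_drop, TPBb_drop, TPBb_drop, TPBb_drop, TPBb_drop, TPBb_drop,
      show 11 + (j - 11) = j by omega, show 10 + (j - 11 + 1) = j by omega,
      show 10 + (j - 11 + 2) = j + 1 by omega, show 10 + (j - 11) = j - 1 by omega,
      tb_fst hl (by omega), tb_fst hl (by omega), tb_fst hl (by omega)] at h1
    exact h1
  have hiolo : ∀ j : ℕ, 11 ≤ j → j ≤ 44 → I1 (pl l) (j / 20) ≤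
      (P.io (j / 20) + (dl : ℝ) / 10^4 * w (j / 20) - 0.00011) * N := by
    intro j hj1 hj2
    have h1 := (hg2' j hj1 hj2).1
    have hio := (io_tab h hj2).1
    have hwn := wn_tab hj2
    rw [pl_I1 hl (by omega)]
    have h110 : 1100000 ≤ 10000 * ioL.getD j 0 + dl * wn.getD j 0 := by
      have : ∀ i : ℕ, i < 45 → 11 ≤ i → 110 ≤ ioL.getD i 0 := by decide
      have h2 := this j (by omega) hj1
      have h3 := Nat.zero_le (dl * wn.getD j 0)
      omega
    have h2 : 60 * 10^10 * ((((tb 0 0 l).getD j (0,0,0)).2.1 : ℕ) : ℝ) ≤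
        (10000 * ((ioL.getD j 0 : ℕ) : ℝ) + dl * ((wn.getD j 0 : ℕ) : ℝ) - 1100000) * nl := by
      have h3 : ((60 * 10^6 * ((tb 0 0 l).getD j (0,0,0)).2.1 * 10000 : ℕ) : ℝ) ≤
        (((10000 * ioL.getD j 0 + dl * wn.getD j 0 - 1100000) * nl : ℕ) : ℝ) := by
        exact_mod_cast h1
      rw [Nat.cast_mul (10000 * ioL.getD j 0 + dl * wn.getD j 0 - 1100000) nl,
        Nat.cast_sub h110] at h3
      push_cast at h3
      linarith only [h3]
    have hX0 : 0 ≤ 10000 * ((ioL.getD j 0 : ℕ) : ℝ) + dl * ((wn.getD j 0 : ℕ) : ℝ) - 1100000 := by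
      have : ((1100000 : ℕ) : ℝ) ≤ 10000 * ((ioL.getD j 0 : ℕ) : ℝ) +
        dl * ((wn.getD j 0 : ℕ) : ℝ) := by exact_mod_cast h110
      push_cast at this
      linarith only [this]
    have h3 := h2.trans (mul_le_mul_of_nonneg_left hNl hX0)
    have h4 : (10000 * ((ioL.getD j 0 : ℕ) : ℝ) + dl * ((wn.getD j 0 : ℕ) : ℝ) - 1100000) ≤
        (P.io (j / 20) + (dl : ℝ) / 10^4 * w (j / 20) - 0.00011) * 10^10 := by
      rw [← hwn]
      norm_num at hio ⊢
      linarith only [hio]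
    have h5 := h3.trans (mul_le_mul_of_nonneg_right h4 (by positivity))
    rw [div_le_iff₀ (by norm_num)]
    have h6 : (P.io (j / 20) + (dl : ℝ) / 10^4 * w (j / 20) - 0.00011) * 10^10 *
        (2400 * 10^6 * N) = 60 * 10^10 * ((P.io (j / 20) + (dl : ℝ) / 10^4 * w (j / 20) - 0.00011) *
          N * (40 * 10^6)) := by ring
    rw [h6] at h5
    exact le_of_mul_le_mul_left h5 (by norm_num)
  have hiohi : ∀ j : ℕ, 11 ≤ j → j ≤ 44 → (P.io (j / 20) - (dl : ℝ) / 10^4 * w (j / 20)) * N +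
      max (((l.getD (j + 1) 0 : ℕ) : ℝ) - ((l.getD j 0 : ℕ) : ℝ))
        (((l.getD j 0 : ℕ) : ℝ) - ((l.getD (j - 1) 0 : ℕ) : ℝ)) / (160 * 10^6) ≤
        I1 (pl l) (j / 20) := by
    intro j hj1 hj2
    have h1 := (hg2' j hj1 hj2).2
    have hio := (io_tab h hj2).2
    have hwn := wn_tab hj2
    rw [pl_I1 hl (by omega)]
    have hm1 := hl.2.2 j (by omega)
    have hm2 := hl.2.2 (j - 1) (by omega)
    rw [show j - 1 + 1 = j by omega] at hm2
    set M : ℝ := max (((l.getD (j + 1) 0 : ℕ) : ℝ) - ((l.getD j 0 : ℕ) : ℝ))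
        (((l.getD j 0 : ℕ) : ℝ) - ((l.getD (j - 1) 0 : ℕ) : ℝ)) with hM
    have hMc : ((max (l.getD (j + 1) 0 - l.getD j 0) (l.getD j 0 - l.getD (j - 1) 0) : ℕ) : ℝ) = M := by
      rw [Nat.cast_max, Nat.cast_sub hm1, Nat.cast_sub hm2]
    have h2 : (10000 * ((ioU.getD j 0 : ℕ) : ℝ) - dl * ((wn.getD j 0 : ℕ) : ℝ)) *
        (2400 * 10^6 * N) + 15 * 10^10 * M ≤
        60 * 10^10 * ((((tb 0 0 l).getD j (0,0,0)).2.1 : ℕ) : ℝ) := by
      have h3 : (((10000 * ioU.getD j 0 - dl * wn.getD j 0) * nu + 15 * 10^10 *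
        max (l.getD (j + 1) 0 - l.getD j 0) (l.getD j 0 - l.getD (j - 1) 0) : ℕ) : ℝ) ≤
        ((60 * 10^6 * ((tb 0 0 l).getD j (0,0,0)).2.1 * 10000 : ℕ) : ℝ) := by exact_mod_cast h1
      rw [Nat.cast_add, Nat.cast_mul (10000 * ioU.getD j 0 - dl * wn.getD j 0) nu,
        Nat.cast_mul (15 * 10^10), hMc] at h3
      push_cast at h3
      have h4 : 10000 * ((ioU.getD j 0 : ℕ) : ℝ) - dl * ((wn.getD j 0 : ℕ) : ℝ) ≤
          ((10000 * ioU.getD j 0 - dl * wn.getD j 0 : ℕ) : ℝ) := by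
        have h5 : ((10000 * ioU.getD j 0 : ℕ) : ℝ) ≤
          ((10000 * ioU.getD j 0 - dl * wn.getD j 0 : ℕ) : ℝ) + ((dl * wn.getD j 0 : ℕ) : ℝ) := by
          exact_mod_cast (by omega : 10000 * ioU.getD j 0 ≤
            10000 * ioU.getD j 0 - dl * wn.getD j 0 + dl * wn.getD j 0)
        push_cast at h5
        linarith only [h5]
      have h6 : (10000 * ((ioU.getD j 0 : ℕ) : ℝ) - dl * ((wn.getD j 0 : ℕ) : ℝ)) *
        (2400 * 10^6 * N) ≤ ((10000 * ioU.getD j 0 - dl * wn.getD j 0 : ℕ) : ℝ) * nu :=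
        (mul_le_mul_of_nonneg_right h4 (by positivity)).trans
          (mul_le_mul_of_nonneg_left hNu (Nat.cast_nonneg _))
      linarith only [h3, h6]
    have h4 : (P.io (j / 20) - (dl : ℝ) / 10^4 * w (j / 20)) * 10^10 ≤
        10000 * ((ioU.getD j 0 : ℕ) : ℝ) - dl * ((wn.getD j 0 : ℕ) : ℝ) := by
      rw [← hwn]
      norm_num at hio ⊢
      linarith only [hio]
    have h5 := mul_le_mul_of_nonneg_right h4 (show (0:ℝ) ≤ 2400 * 10^6 * N by positivity)
    rw [le_div_iff₀ (by norm_num)]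
    have h6 : ((P.io (j / 20) - (dl : ℝ) / 10^4 * w (j / 20)) * N + M / (160 * 10^6)) *
        (40 * 10^6) * (60 * 10^10) = (P.io (j / 20) - (dl : ℝ) / 10^4 * w (j / 20)) * 10^10 *
        (2400 * 10^6 * N) + 15 * 10^10 * M := by ring
    have h7 : ((P.io (j / 20) - (dl : ℝ) / 10^4 * w (j / 20)) * N + M / (160 * 10^6)) *
        (40 * 10^6) * (60 * 10^10) ≤ ((((tb 0 0 l).getD j (0,0,0)).2.1 : ℕ) : ℝ) * (60 * 10^10) := by
      rw [h6]
      linarith only [h2, h5]
    exact le_of_mul_le_mul_right h7 (by norm_num)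
  -- the tube
  have htube : P.Tube ((dl : ℝ) / 10^4) (fun y => I1 (pl l) y / N) := by
    refine ⟨(I1_cont hD).div_const _, ?_, ?_, ?_⟩
    · intro a b hab
      exact div_le_div_of_nonneg_right (I1_mono hD hab) hN0.le
    · intro y hy
      show I1 (pl l) y / N = 0
      rw [I1_zero hD hy, zero_div]
    · intro y hy0 hy1
      show |I1 (pl l) y / N - P.io y| ≤ _
      rcases le_total y 0.55 with h1 | h1
      · exact TPBb_tubeA h hN0 hl
          (fun z hz0 hz1 => TPBb_partA h hN0 hl hlistlo hlisthi hz0 hz1) hy0 h1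
      · exact TPBb_tubeB h hN0 hδ0 hl hiolo hiohi h1 hy1
  have hvs : VS P N ((dl : ℝ) / 10^4) (pl l) := by
    refine ⟨hD, hN0, ?_, htube⟩
    have h1 : ((nu : ℕ) : ℝ) ≤ 24000 * V := by exact_mod_cast hop
    have h2 : N - I2 (pl l) P.Y = V / 10^6 := by
      rw [hNd]
      ring
    rw [h2]
    linarith only [hNu, h1]
  refine ⟨⟨hvs, ?_⟩, ?_⟩
  · have h1 := pl_node hl (k := 44) (by norm_num)
    have h2 : ((44 : ℕ) : ℝ) / 20 = 2.2 := by norm_num
    rw [h2] at h1
    rw [h1, div_le_iff₀ (by norm_num)]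
    rw [tb_fst hl (by norm_num)] at hc44
    have h3 : 1000 * 2400 * ((l.getD 44 0 : ℕ) : ℝ) ≤ 805 * nl := by exact_mod_cast hc44
    linarith only [hNl, h3]
  · -- the potential
    have hmass := TPBb_mass h hl
    have hpsi : N * P.psi (fun y => I1 (pl l) y / N) =
        N - ∫ y in (0:ℝ)..(P.ρ - P.e0), P.mb (y + P.e0) * I1 (pl l) y := by
      unfold Par.psi
      have h1 : (∫ y in (0:ℝ)..(P.ρ - P.e0), P.mb (y + P.e0) * (I1 (pl l) y / N)) =
          (∫ y in (0:ℝ)..(P.ρ - P.e0), P.mb (y + P.e0) * I1 (pl l) y) / N := by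
        rw [← intervalIntegral.integral_div]
        refine intervalIntegral.integral_congr fun y _ => ?_
        ring
      rw [h1]
      field_simp
    have hpp : 0 < P.psi (fun y => I1 (pl l) y / N) := by
      have a1 := Par.psi_io h
      have a2 := abs_le.mp (Par.psi_near h hδ0 htube)
      have a3 : (dl : ℝ) / 10^4 ≤ 0.03 := by
        rw [div_le_iff₀ (by norm_num)]
        refine hdlR.trans (le_of_eq ?_)
        norm_num
      norm_num at a1 a2 a3
      linarith only [a2.1, a1.1, hdlR, a1, a2]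
    set X : ℝ := 1000 + (dl : ℝ) ^ 2 with hX
    set G : ℝ := ((goM mLo (tb 0 0 l) : ℕ) : ℝ) +
      1788000 * ((((tb 0 0 l).getD 30 (0,0,0)).2.1 : ℕ) : ℝ) with hG
    have hbig' : 6 * (2*10^6)^3 * (4 * 10^6 * (nu : ℝ)) + 6 * (2*10^6)^2 * X * (9600 * 10^12) +
        X^3 * (9600 * 10^12) ≤ 6 * (2*10^6)^3 * (9600 * 10^12) +
        3 * (2*10^6) * X^2 * (9600 * 10^12) + 6 * (2*10^6)^3 * G := by
      rw [hX, hG]
      exact_mod_cast hbig
    set u : ℝ := X / (2 * 10^6) with hu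
    have hu0 : 0 ≤ u := by positivity
    have hX1 : X ≤ 2 * 10^6 := by
      have : (dl : ℝ) ^ 2 ≤ 300 ^ 2 := pow_le_pow_left₀ (Nat.cast_nonneg _) hdlR 2
      rw [hX]
      norm_num at this ⊢
      linarith only [this]
    have hu1 : u ≤ 1 := by
      rw [hu, div_le_one (by norm_num)]
      exact hX1
    have hXu : X = 2 * 10^6 * u := by
      rw [hu]
      field_simp
    rw [hXu] at hbig'
    have h1 : (4 * 10^6 * (nu : ℝ)) ≤ (1 - u + u ^ 2 / 2 - u ^ 3 / 6) * (9600 * 10^12) + G := by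
      have h2 : 6 * (2*10^6)^3 * (4 * 10^6 * (nu : ℝ)) ≤
          6 * (2*10^6)^3 * ((1 - u + u ^ 2 / 2 - u ^ 3 / 6) * (9600 * 10^12) + G) := by
        have h3 : 6 * (2*10^6)^3 * ((1 - u + u ^ 2 / 2 - u ^ 3 / 6) * (9600 * 10^12) + G) =
          6 * (2*10^6)^3 * (9600 * 10^12) + 3 * (2*10^6) * (2 * 10^6 * u)^2 * (9600 * 10^12) +
          6 * (2*10^6)^3 * G - 6 * (2*10^6)^2 * (2 * 10^6 * u) * (9600 * 10^12) -
          (2 * 10^6 * u)^3 * (9600 * 10^12) := by ring
        rw [h3]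
        linarith only [hbig']
      exact le_of_mul_le_mul_left h2 (by norm_num)
    have hexp := TPBb_exp hu0 hu1
    have h2 : N * P.psi (fun y => I1 (pl l) y / N) ≤ Real.exp (-u) := by
      refine le_trans ?_ hexp
      rw [hpsi]
      have h3 : (N - ∫ y in (0:ℝ)..(P.ρ - P.e0), P.mb (y + P.e0) * I1 (pl l) y) *
          (9600 * 10^12) ≤ (1 - u + u ^ 2 / 2 - u ^ 3 / 6) * (9600 * 10^12) := by
        rw [sub_mul]
        have h4 : N * (9600 * 10^12) ≤ 4 * 10^6 * (nu : ℝ) := by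
          have h5 := mul_le_mul_of_nonneg_left hNu (show (0:ℝ) ≤ 4 * 10^6 by norm_num)
          refine (le_of_eq ?_).trans h5
          ring
        linarith only [hNu, hmass, hbig']
      exact le_of_mul_le_mul_right h3 (by norm_num)
    have h3 : Real.log (N * P.psi (fun y => I1 (pl l) y / N)) ≤ -u := by
      rw [← Real.log_exp (-u)]
      exact Real.log_le_log (mul_pos hN0 hpp) h2
    unfold Phi
    have h4 : 50 * ((dl : ℝ) / 10^4) ^ 2 = u - 0.0005 := by
      rw [hu, hX]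
      ring
    rw [h4]
    linarith only [h3]

end Pool.Agent.CDk
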