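import Pool.Agent.CDk.D.CELLa
import Pool.Agent.CDk.D.CELLc
import Pool.Agent.CDk.D.Chk
import Pool.Agent.CDk.D.Chk2
import Pool.Agent.CDk.D.D0
import Pool.Agent.CDk.D.FamDef
import Pool.Agent.CDk.D.KerA
import Pool.Agent.CDk.D.KerB
import Pool.Agent.CDk.D.KerC
import Pool.Agent.CDk.D.PLd
import Pool.Agent.CDk.D.TPBa
import Pool.Agent.CDk.D.TPBb
import Pool.Agent.CDk.D.Tab
import Pool.Agent.CDk.D.Tab2
import Pool.Agent.CDk.Defs
import Pool.Agent.CDk.FNa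
import Pool.Agent.CDk.FV
import Pool.Agent.CDk.GAP

/-!
# FAM: the family of templates
-/

set_option maxRecDepth 100000

open MeasureTheory Set Filter Topology

namespace Pool.Agent.CDk
open Tab Chk Ker
variable {P : Par} {N δ : ℝ} {D : ℝ → ℝ}

noncomputable def tp (p : ℕ × List ℕ) : ℝ × (ℝ → ℝ) := ((p.1 : ℝ) / 10^6, pl p.2)

/-- the templates -/
def TT : Set (ℝ × (ℝ → ℝ)) := {t | ∃ p ∈ TL, t = tp p}

theorem TL_mem {c : ℕ} {p : ℕ × List ℕ} (h : TL[c]? = some p) : p ∈ TL := List.mem_of_getElem? h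

theorem TL_ok {p : ℕ × List ℕ} (h : p ∈ TL) : 0 < p.1 ∧ MonoL p.2 := by
  have := List.all_eq_true.mp kmon p h
  simp only [Bool.and_eq_true, Nat.blt_eq] at this
  exact ⟨this.1, monoL_of this.2⟩

theorem qt_ok : MonoL qt := monoL_of kmonq

theorem len_ok {l : List ℕ} (h : l ∈ [nb0, nb1, nb2, nb3, nb4, nb5, nb6, nb7, nb8, nb9, nb10, nb11, nb12, nb13, nb14, nb15, nb16, nb18, nb20, nb22, nb24, nb28, nb32, nb36, nb40, nb44, nb48, nb52, nb56, nb60, nb61, nn1, nn2, nn3, nn4, nn5, nn6, nn7, nn8, nn9]) :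
    l.length = 63 := Nat.eq_of_beq_eq_true (List.all_eq_true.mp klen l h)

theorem useP (h : P.Star) (hv : VS2 P N δ D) (hδ : 0 ≤ δ) (hδ1 : δ ≤ 0.03) (hΦ : Phi P N δ D ≤ 0)
    {m m' xv : ℕ} {u v X : List ℕ} (hu : nodesP m 0 0 u = true) (hv' : nodesP m' 0 0 v = true)
    (hX : cellP m m' u v X xv = true) (hX' : (xv, X) ∈ TL) (hul : u.length = 63) (hvl : v.length = 63)
    {e : ℝ} (he : (m : ℝ) / 20 ≤ e) (he1 : e ≤ m' / 20) :
    ∃ t ∈ TT, 1.0002 * gV P N D e ≤ t.1 ∧ ∀ r, 0 ≤ r → r ≤ 3.0446 →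
      1.0002 * GD P N D e r ≤ t.2 r ∧ 1.0002 * GD P N D e r ≤ pl qt r := by
  obtain ⟨h1, h2⟩ := cellP_sound h hv hδ hδ1 hΦ kC hu hv' hX (TL_ok hX').2 hul hvl he he1
  exact ⟨tp (xv, X), ⟨_, hX', rfl⟩, h1, fun r hr hr1 => h2 r hr (by linarith)⟩

theorem useN (h : P.Star) (hv : VS2 P N δ D) (hδ : 0 ≤ δ) (hδ1 : δ ≤ 0.03) (hΦ : Phi P N δ D ≤ 0)
    {a xv vu vv : ℕ} {u v X : List ℕ} (ha : 1 ≤ a) (ha1 : a ≤ 9) (hu : nodesN a 0 0 u = true)
    (hv' : (a = 1 ∧ nodesP 0 0 0 v = true ∧ vv = cdiv (12155 * 521692 * 200) 5087922) ∨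
      (2 ≤ a ∧ nodesN (a - 1) 0 0 v = true ∧ chkV (a - 1) vv = true))
    (hvu : chkV a vu = true) (hX : cellN a u v X vu vv xv = true) (hX' : (xv, X) ∈ TL)
    (hul : u.length = 63) (hvl : v.length = 63) {e : ℝ} (he : -((a : ℝ) / 20) ≤ e) (he1 : e ≤ -((a : ℝ) / 20) + 1 / 20) :
    ∃ t ∈ TT, 1.0002 * gV P N D e ≤ t.1 ∧ ∀ r, 0 ≤ r → r ≤ 3.0446 →
      1.0002 * GD P N D e r ≤ t.2 r ∧ 1.0002 * GD P N D e r ≤ pl qt r := by
  obtain ⟨h1, h2⟩ := cellN_sound h hv hδ hδ1 hΦ kC ha ha1 hu hv' hvu hX (TL_ok hX').2 hul hvl he he1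
  exact ⟨tp (xv, X), ⟨_, hX', rfl⟩, h1, fun r hr hr1 => h2 r hr (by linarith)⟩

theorem famA (h : P.Star) (hv : VS2 P N δ D) (hδ : 0 ≤ δ) (hδ1 : δ ≤ 0.03) (hΦ : Phi P N δ D ≤ 0) {e : ℝ}
    (he : -0.45 ≤ e) : ∃ t ∈ TT, 1.0002 * gV P N D e ≤ t.1 ∧ ∀ r, 0 ≤ r → r ≤ 3.0446 →
      1.0002 * GD P N D e r ≤ t.2 r ∧ 1.0002 * GD P N D e r ≤ pl qt r := by
  have h0 : -(((9 : ℕ) : ℝ) / 20) ≤ e := by norm_num; linarith
  rcases le_total e (-(((9 : ℕ) : ℝ) / 20) + 1 / 20) with h1 | h1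
  · exact useN h hv hδ hδ1 hΦ (by norm_num) (by norm_num) kn9 (Or.inr ⟨by norm_num, kn8, kv8⟩) kv9 kcn9 (TL_mem (c := 0) rfl) (len_ok (by simp)) (len_ok (by simp)) h0 h1
  have g1 : (-(((8 : ℕ) : ℝ) / 20)) ≤ e := by norm_num at h1 ⊢; linarith
  rcases le_total e (-(((8 : ℕ) : ℝ) / 20) + 1 / 20) with h2 | h2
  · exact useN h hv hδ hδ1 hΦ (by norm_num) (by norm_num) kn8 (Or.inr ⟨by norm_num, kn7, kv7⟩) kv8 kcn8 (TL_mem (c := 1) rfl) (len_ok (by simp)) (len_ok (by simp)) g1 h2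
  have g2 : (-(((7 : ℕ) : ℝ) / 20)) ≤ e := by norm_num at h2 ⊢; linarith
  rcases le_total e (-(((7 : ℕ) : ℝ) / 20) + 1 / 20) with h3 | h3
  · exact useN h hv hδ hδ1 hΦ (by norm_num) (by norm_num) kn7 (Or.inr ⟨by norm_num, kn6, kv6⟩) kv7 kcn7 (TL_mem (c := 2) rfl) (len_ok (by simp)) (len_ok (by simp)) g2 h3
  have g3 : (-(((6 : ℕ) : ℝ) / 20)) ≤ e := by norm_num at h3 ⊢; linarith
  rcases le_total e (-(((6 : ℕ) : ℝ) / 20) + 1 / 20) with h4 | h4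
  · exact useN h hv hδ hδ1 hΦ (by norm_num) (by norm_num) kn6 (Or.inr ⟨by norm_num, kn5, kv5⟩) kv6 kcn6 (TL_mem (c := 3) rfl) (len_ok (by simp)) (len_ok (by simp)) g3 h4
  have g4 : (-(((5 : ℕ) : ℝ) / 20)) ≤ e := by norm_num at h4 ⊢; linarith
  rcases le_total e (-(((5 : ℕ) : ℝ) / 20) + 1 / 20) with h5 | h5
  · exact useN h hv hδ hδ1 hΦ (by norm_num) (by norm_num) kn5 (Or.inr ⟨by norm_num, kn4, kv4⟩) kv5 kcn5 (TL_mem (c := 4) rfl) (len_ok (by simp)) (len_ok (by simp)) g4 h5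
  have g5 : (-(((4 : ℕ) : ℝ) / 20)) ≤ e := by norm_num at h5 ⊢; linarith
  rcases le_total e (-(((4 : ℕ) : ℝ) / 20) + 1 / 20) with h6 | h6
  · exact useN h hv hδ hδ1 hΦ (by norm_num) (by norm_num) kn4 (Or.inr ⟨by norm_num, kn3, kv3⟩) kv4 kcn4 (TL_mem (c := 5) rfl) (len_ok (by simp)) (len_ok (by simp)) g5 h6
  have g6 : (-(((3 : ℕ) : ℝ) / 20)) ≤ e := by norm_num at h6 ⊢; linarith
  rcases le_total e (-(((3 : ℕ) : ℝ) / 20) + 1 / 20) with h7 | h7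
  · exact useN h hv hδ hδ1 hΦ (by norm_num) (by norm_num) kn3 (Or.inr ⟨by norm_num, kn2, kv2⟩) kv3 kcn3 (TL_mem (c := 6) rfl) (len_ok (by simp)) (len_ok (by simp)) g6 h7
  have g7 : (-(((2 : ℕ) : ℝ) / 20)) ≤ e := by norm_num at h7 ⊢; linarith
  rcases le_total e (-(((2 : ℕ) : ℝ) / 20) + 1 / 20) with h8 | h8
  · exact useN h hv hδ hδ1 hΦ (by norm_num) (by norm_num) kn2 (Or.inr ⟨by norm_num, kn1, kv1⟩) kv2 kcn2 (TL_mem (c := 7) rfl) (len_ok (by simp)) (len_ok (by simp)) g7 h8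
  have g8 : (-(((1 : ℕ) : ℝ) / 20)) ≤ e := by norm_num at h8 ⊢; linarith
  rcases le_total e (-(((1 : ℕ) : ℝ) / 20) + 1 / 20) with h9 | h9
  · exact useN h hv hδ hδ1 hΦ (by norm_num) (by norm_num) kn1 (Or.inl ⟨rfl, kp0, nv0⟩) kv1 kcn1 (TL_mem (c := 8) rfl) (len_ok (by simp)) (len_ok (by simp)) g8 h9
  have g9 : (((0 : ℕ) : ℝ) / 20) ≤ e := by norm_num at h9 ⊢; linarith
  rcases le_total e (((1 : ℕ) : ℝ) / 20) with h10 | h10
  · exact useP h hv hδ hδ1 hΦ kp0 kp1 kcp0 (TL_mem (c := 9) rfl) (len_ok (by simp)) (len_ok (by simp)) g9 h10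
  rcases le_total e (((2 : ℕ) : ℝ) / 20) with h11 | h11
  · exact useP h hv hδ hδ1 hΦ kp1 kp2 kcp1 (TL_mem (c := 10) rfl) (len_ok (by simp)) (len_ok (by simp)) h10 h11
  rcases le_total e (((3 : ℕ) : ℝ) / 20) with h12 | h12
  · exact useP h hv hδ hδ1 hΦ kp2 kp3 kcp2 (TL_mem (c := 11) rfl) (len_ok (by simp)) (len_ok (by simp)) h11 h12
  rcases le_total e (((4 : ℕ) : ℝ) / 20) with h13 | h13
  · exact useP h hv hδ hδ1 hΦ kp3 kp4 kcp3 (TL_mem (c := 12) rfl) (len_ok (by simp)) (len_ok (by simp)) h12 h13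
  rcases le_total e (((5 : ℕ) : ℝ) / 20) with h14 | h14
  · exact useP h hv hδ hδ1 hΦ kp4 kp5 kcp4 (TL_mem (c := 13) rfl) (len_ok (by simp)) (len_ok (by simp)) h13 h14
  rcases le_total e (((6 : ℕ) : ℝ) / 20) with h15 | h15
  · exact useP h hv hδ hδ1 hΦ kp5 kp6 kcp5 (TL_mem (c := 14) rfl) (len_ok (by simp)) (len_ok (by simp)) h14 h15
  rcases le_total e (((7 : ℕ) : ℝ) / 20) with h16 | h16
  · exact useP h hv hδ hδ1 hΦ kp6 kp7 kcp6 (TL_mem (c := 15) rfl) (len_ok (by simp)) (len_ok (by simp)) h15 h16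
  rcases le_total e (((8 : ℕ) : ℝ) / 20) with h17 | h17
  · exact useP h hv hδ hδ1 hΦ kp7 kp8 kcp7 (TL_mem (c := 15) rfl) (len_ok (by simp)) (len_ok (by simp)) h16 h17
  rcases le_total e (((9 : ℕ) : ℝ) / 20) with h18 | h18
  · exact useP h hv hδ hδ1 hΦ kp8 kp9 kcp8 (TL_mem (c := 16) rfl) (len_ok (by simp)) (len_ok (by simp)) h17 h18
  rcases le_total e (((10 : ℕ) : ℝ) / 20) with h19 | h19
  · exact useP h hv hδ hδ1 hΦ kp9 kp10 kcp9 (TL_mem (c := 16) rfl) (len_ok (by simp)) (len_ok (by simp)) h18 h19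
  rcases le_total e (((11 : ℕ) : ℝ) / 20) with h20 | h20
  · exact useP h hv hδ hδ1 hΦ kp10 kp11 kcp10 (TL_mem (c := 17) rfl) (len_ok (by simp)) (len_ok (by simp)) h19 h20
  rcases le_total e (((12 : ℕ) : ℝ) / 20) with h21 | h21
  · exact useP h hv hδ hδ1 hΦ kp11 kp12 kcp11 (TL_mem (c := 17) rfl) (len_ok (by simp)) (len_ok (by simp)) h20 h21
  rcases le_total e (((13 : ℕ) : ℝ) / 20) with h22 | h22
  · exact useP h hv hδ hδ1 hΦ kp12 kp13 kcp12 (TL_mem (c := 18) rfl) (len_ok (by simp)) (len_ok (by simp)) h21 h22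
  rcases le_total e (((14 : ℕ) : ℝ) / 20) with h23 | h23
  · exact useP h hv hδ hδ1 hΦ kp13 kp14 kcp13 (TL_mem (c := 18) rfl) (len_ok (by simp)) (len_ok (by simp)) h22 h23
  rcases le_total e (((15 : ℕ) : ℝ) / 20) with h24 | h24
  · exact useP h hv hδ hδ1 hΦ kp14 kp15 kcp14 (TL_mem (c := 18) rfl) (len_ok (by simp)) (len_ok (by simp)) h23 h24
  rcases le_total e (((16 : ℕ) : ℝ) / 20) with h25 | h25
  · exact useP h hv hδ hδ1 hΦ kp15 kp16 kcp15 (TL_mem (c := 18) rfl) (len_ok (by simp)) (len_ok (by simp)) h24 h25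
  rcases le_total e (((18 : ℕ) : ℝ) / 20) with h26 | h26
  · exact useP h hv hδ hδ1 hΦ kp16 kp18 kcp16 (TL_mem (c := 19) rfl) (len_ok (by simp)) (len_ok (by simp)) h25 h26
  rcases le_total e (((20 : ℕ) : ℝ) / 20) with h27 | h27
  · exact useP h hv hδ hδ1 hΦ kp18 kp20 kcp18 (TL_mem (c := 19) rfl) (len_ok (by simp)) (len_ok (by simp)) h26 h27
  rcases le_total e (((22 : ℕ) : ℝ) / 20) with h28 | h28
  · exact useP h hv hδ hδ1 hΦ kp20 kp22 kcp20 (TL_mem (c := 19) rfl) (len_ok (by simp)) (len_ok (by simp)) h27 h28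
  rcases le_total e (((24 : ℕ) : ℝ) / 20) with h29 | h29
  · exact useP h hv hδ hδ1 hΦ kp22 kp24 kcp22 (TL_mem (c := 19) rfl) (len_ok (by simp)) (len_ok (by simp)) h28 h29
  rcases le_total e (((28 : ℕ) : ℝ) / 20) with h30 | h30
  · exact useP h hv hδ hδ1 hΦ kp24 kp28 kcp24 (TL_mem (c := 20) rfl) (len_ok (by simp)) (len_ok (by simp)) h29 h30
  rcases le_total e (((32 : ℕ) : ℝ) / 20) with h31 | h31
  · exact useP h hv hδ hδ1 hΦ kp28 kp32 kcp28 (TL_mem (c := 20) rfl) (len_ok (by simp)) (len_ok (by simp)) h30 h31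
  rcases le_total e (((36 : ℕ) : ℝ) / 20) with h32 | h32
  · exact useP h hv hδ hδ1 hΦ kp32 kp36 kcp32 (TL_mem (c := 20) rfl) (len_ok (by simp)) (len_ok (by simp)) h31 h32
  rcases le_total e (((40 : ℕ) : ℝ) / 20) with h33 | h33
  · exact useP h hv hδ hδ1 hΦ kp36 kp40 kcp36 (TL_mem (c := 20) rfl) (len_ok (by simp)) (len_ok (by simp)) h32 h33
  rcases le_total e (((44 : ℕ) : ℝ) / 20) with h34 | h34
  · exact useP h hv hδ hδ1 hΦ kp40 kp44 kcp40 (TL_mem (c := 20) rfl) (len_ok (by simp)) (len_ok (by simp)) h33 h34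
  rcases le_total e (((48 : ℕ) : ℝ) / 20) with h35 | h35
  · exact useP h hv hδ hδ1 hΦ kp44 kp48 kcp44 (TL_mem (c := 20) rfl) (len_ok (by simp)) (len_ok (by simp)) h34 h35
  rcases le_total e (((52 : ℕ) : ℝ) / 20) with h36 | h36
  · exact useP h hv hδ hδ1 hΦ kp48 kp52 kcp48 (TL_mem (c := 20) rfl) (len_ok (by simp)) (len_ok (by simp)) h35 h36
  rcases le_total e (((56 : ℕ) : ℝ) / 20) with h37 | h37
  · exact useP h hv hδ hδ1 hΦ kp52 kp56 kcp52 (TL_mem (c := 20) rfl) (len_ok (by simp)) (len_ok (by simp)) h36 h37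
  rcases le_total e (((60 : ℕ) : ℝ) / 20) with h38 | h38
  · exact useP h hv hδ hδ1 hΦ kp56 kp60 kcp56 (TL_mem (c := 20) rfl) (len_ok (by simp)) (len_ok (by simp)) h37 h38
  rcases le_total e (((61 : ℕ) : ℝ) / 20) with h39 | h39
  · exact useP h hv hδ hδ1 hΦ kp60 kp61 kcp60 (TL_mem (c := 20) rfl) (len_ok (by simp)) (len_ok (by simp)) h38 h39
  have hf : (((61 : ℕ) : ℝ) / 20) = 3.05 := by norm_num
  obtain ⟨t, ht, t1, t2⟩ := useP h hv hδ hδ1 hΦ kp60 kp61 kcp60 (TL_mem (c := 20) rfl) (len_ok (by simp)) (len_ok (by simp))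
    (e := 3.05) (by norm_num) (by norm_num)
  rw [hf] at h39
  refine ⟨t, ht, ?_, fun r hr hr1 => ?_⟩
  · have := (far_e h hv (e := e) (r := 0) h39 le_rfl (by norm_num)).1
    linarith
  · have h5 := (far_e h hv h39 hr hr1).2
    have h6 := t2 r hr hr1
    exact ⟨by linarith, by linarith⟩

theorem SL_ok {k : ℕ} (hk : k ≤ 5) : (0 < (SL.getD k (0, [], 0)).1 ∧ chkS (SL.getD k (0, [], 0)).1 (SL.getD k (0, [], 0)).2.1 (SL.getD k (0, [], 0)).2.2 = true ∧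
    slope 1 (SL.getD k (0, [], 0)).2.1.tail = true) ∧ ((SL.getD k (0, [], 0)).1, (SL.getD k (0, [], 0)).2.1) ∈ TL ∧
    (k ≤ 4 → 10002 * qt.getD 7 0 ≤ 10000 * (SL.getD k (0, [], 0)).2.1.getD 43 0) := by
  have h1 : SL.getD k (0, [], 0) ∈ SL := by
    have : k < SL.length := by
      have : SL.length = 6 := rfl
      omega
    rw [List.getD_eq_getElem _ _ this]
    exact List.getElem_mem _
  have h2 := List.all_eq_true.mp ks _ h1
  simp only [Bool.and_eq_true, Nat.blt_eq] at h2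
  refine ⟨⟨h2.2, h2.1.1, h2.1.2⟩, ?_, ?_⟩
  · interval_cases k
    · exact TL_mem (c := 21) rfl
    · exact TL_mem (c := 22) rfl
    · exact TL_mem (c := 23) rfl
    · exact TL_mem (c := 24) rfl
    · exact TL_mem (c := 25) rfl
    · exact TL_mem (c := 26) rfl
  · intro hk4
    have h3 : SL.getD k (0, [], 0) ∈ SL.take 5 := by
      have h4 : k < (SL.take 5).length := by
        have : (SL.take 5).length = 5 := rfl
        omega
      have h5 : (SL.take 5)[k] = SL.getD k (0, [], 0) := by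
        interval_cases k <;> rfl
      rw [← h5]
      exact List.getElem_mem _
    have h4 := List.all_eq_true.mp ksh7 _ h3
    simpa only [Nat.ble_eq] using h4

theorem good_of {V dl : ℕ} {l : List ℕ} (h : P.Star) (hl : MonoL l) (hV : 0 < V) (hc : chkS V l dl = true) :
    Good P (tp (V, l)) := by
  obtain ⟨h1, h2⟩ := chkS_sound h hl hV hc
  have hdl : dl ≤ 300 := by
    unfold chkS at hc
    simp only [Bool.and_eq_true, Nat.ble_eq] at hc
    exact hc.1.2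
  have hdl' : (dl : ℝ) ≤ 300 := by exact_mod_cast hdl
  exact ⟨(dl : ℝ) / 10^4, by positivity, by rw [div_le_iff₀ (by norm_num)]; linarith, h1, h2⟩

theorem kb_all {p : ℕ × List ℕ} (hp : p ∈ TL) : chkT p = true := by
  have h1 : TL = TL.take 10 ++ ((TL.drop 10).take 10 ++ TL.drop 20) := rfl
  rw [h1, List.mem_append, List.mem_append] at hp
  rcases hp with hp | hp | hp
  · exact List.all_eq_true.mp kb1 p hp
  · exact List.all_eq_true.mp kb2 p hp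
  · exact List.all_eq_true.mp kb3 p hp

theorem famB (h : P.Star) {t : ℝ × (ℝ → ℝ)} (ht : t ∈ TT) {a : ℝ} (ha : 0.45 ≤ a) (ha1 : a ≤ 1.55) : ∃ s ∈ TT, Good P s ∧
    1.0002 * gV P (t.1 + I2 t.2 P.Y) t.2 (-a) ≤ s.1 ∧
    (∀ r, 0 ≤ r → r ≤ P.Y - a → 1.0002 * fF P (t.1 + I2 t.2 P.Y) t.2 (-a) r ≤ s.2 r ∧
      1.0002 * fF P (t.1 + I2 t.2 P.Y) t.2 (-a) r ≤ pl qt r) ∧
    (∀ r, 0 ≤ r → r ≤ 0.6 → 1.0002 * (0.3 * 0.73792 * r) ≤ s.2 r) ∧
    1.0002 * (P.sg * (0.3 * 0.73792) + (∫ τ in (0:ℝ)..P.s, Real.sinh (P.s - τ) * t.2 (a - τ))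
      + 0.128 * (0.045 * 0.73792)) ≤ s.1 ∧
    (∀ r, r ≤ P.Y → 1.0002 * pl qt (r - (3.0443 - a)) ≤ s.2 r) := by
  obtain ⟨p, hp, rfl⟩ := ht
  have hY := Par.Y_pos h
  obtain ⟨k, hk, u, u0, u1, hau⟩ := cell_exists (r := a) (by linarith) (n := 31) (by norm_num) (by norm_num; linarith)
  have hk9 : 9 ≤ k ∨ (k = 8 ∧ u = 1) := by
    rcases Nat.lt_or_ge k 9 with h1 | h1
    · right
      have h2 : (k : ℝ) ≤ 8 := by exact_mod_cast (by omega : k ≤ 8)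
      have h3 : (k : ℝ) = 8 := by linarith
      exact ⟨by exact_mod_cast h3, by linarith⟩
    · exact Or.inl h1
  obtain ⟨i, hi, i0, i1⟩ : ∃ i : ℕ, i < 22 ∧ ((9 + i : ℕ) : ℝ) / 20 ≤ a ∧ a ≤ (((9 + i : ℕ) : ℝ) + 1) / 20 := by
    rcases hk9 with h1 | ⟨h1, h2⟩
    · refine ⟨k - 9, by omega, ?_, ?_⟩
      · rw [show 9 + (k - 9) = k by omega, hau]; linarith
      · rw [show 9 + (k - 9) = k by omega, hau]; linarith
    · refine ⟨0, by norm_num, ?_, ?_⟩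
      · rw [hau, h1, h2]; norm_num
      · rw [hau, h1, h2]; norm_num
  obtain ⟨hp1, hp2⟩ := TL_ok hp
  have hc : chkB p.1 p.2 (9 + i) (tg i).1 (tg i).2.1 = true :=
    List.all_eq_true.mp (kb_all hp) i (List.mem_range.mpr hi)
  have hcl : cls i ≤ 5 := by unfold cls; split_ifs <;> omega
  obtain ⟨⟨s1, s2, s3⟩, s4, s5⟩ := SL_ok hcl
  have htg : SL.getD (cls i) (0, [], 0) = tg i := rfl
  rw [htg] at s1 s2 s3 s4 s5
  obtain ⟨-, sm⟩ := TL_ok s4
  obtain ⟨c1, c2, c3⟩ := chkB_sound h (by omega) (by omega) hp2 sm qt_ok hc i0 i1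
  refine ⟨tp ((tg i).1, (tg i).2.1), ⟨_, s4, rfl⟩, good_of h sm s1 s2, c1, c2, fun r hr hr1 => slope_sound sm s3 hr hr1,
    c3, fun r hr => ?_⟩
  show 1.0002 * pl qt (r - (3.0443 - a)) ≤ pl (tg i).2.1 r
  rcases Nat.lt_or_ge i 8 with hi8 | hi8
  · -- classes 0..4
    have hc4 : cls i ≤ 4 := by unfold cls; split_ifs <;> omega
    have hi7 : (i : ℝ) ≤ 7 := by exact_mod_cast (by omega : i ≤ 7)
    have ha85 : a ≤ 0.85 := by
      push_cast at i1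
      linarith
    rcases le_total r 2.15 with h1 | h1
    · rw [(pl_pf qt_ok).zero _ (by linarith), mul_zero]
      exact pl_nonneg sm r
    · have e1 := pl_le_node qt_ok (r := r - (3.0443 - a)) (k := 7) (by norm_num) (by norm_num; linarith)
      have e2 := node_le_pl sm (r := r) (k := 43) (by norm_num) (by norm_num; linarith)
      have e3 : 10002 * ((qt.getD 7 0 : ℕ) : ℝ) ≤ 10000 * (((tg i).2.1.getD 43 0 : ℕ) : ℝ) := by
        exact_mod_cast s5 hc4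
      have e4 : 1.0002 * (((qt.getD 7 0 : ℕ) : ℝ) / 10^6) ≤ (((tg i).2.1.getD 43 0 : ℕ) : ℝ) / 10^6 := by
        rw [le_div_iff₀ (by norm_num)]
        linarith
      linarith
  · have hc5 : cls i = 5 := by unfold cls; split_ifs <;> omega
    have e0 : (tg i).2.1 = Tab.s5 := by
      unfold tg
      rw [hc5]
      rfl
    rw [e0]
    have e1 : pl qt (r - (3.0443 - a)) ≤ pl qt (r - 1.49) := (pl_pf qt_ok).mono (by linarith)
    have e2 := chkSh_sound qt_ok (monoL_of km5) (by norm_num) (by norm_num) kshs (r := r) (by norm_num; linarith)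
    linarith

/-- the family -/
noncomputable def fam (h : P.Star) : Fam P where
  Q := pl qt
  M := 0.73792
  vc := ((477048 : ℕ) : ℝ) / 10^6
  cc := ((206028 : ℕ) : ℝ) / 10^6
  T := TT
  Sl := tp (sv5, Tab.s5)
  Sc := tp (sv6, s6)
  hT := by
    rintro t ⟨p, hp, rfl⟩
    obtain ⟨h1, h2⟩ := TL_ok hp
    have h1' : (0:ℝ) < p.1 := by exact_mod_cast h1
    exact ⟨by show (0:ℝ) < (p.1 : ℝ) / 10^6; positivity, pl_pf h2⟩
  hSl := ⟨_, TL_mem (c := 26) rfl, rfl⟩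
  hSc := ⟨_, TL_mem (c := 27) rfl, rfl⟩
  gl := by
    obtain ⟨⟨s1, s2, -⟩, s4, -⟩ := SL_ok (k := 5) le_rfl
    exact good_of h (TL_ok s4).2 s1 s2
  gc := good_of h (TL_ok (TL_mem (c := 27) rfl)).2 (TL_ok (TL_mem (c := 27) (p := (sv6, s6)) rfl)).1 ks6
  hQ := pl_pf qt_ok
  hM := by norm_num
  hQM := by
    intro r
    have h1 := pl_le_last qt_ok r
    have h2 : qt.getD 62 0 = 737920 := by
      have := kq
      simp only [Bool.and_eq_true] at this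
      exact Nat.eq_of_beq_eq_true this.2
    rw [h2] at h1
    refine h1.trans ?_
    norm_num
  hQlin := fun r h0 h1 => chkLin_sound qt_ok klin h0 h1
  hQsh := fun r h1 => chkSh_sound qt_ok qt_ok (by norm_num) (by norm_num) kshq (by norm_num; linarith)
  hQ45 := by
    have h1 := pl_le_node qt_ok (r := 0.45) (k := 9) (by norm_num) (by norm_num)
    have h2 : ((qt.getD 9 0 : ℕ) : ℝ) ≤ 240000 := by
      have := kq
      simp only [Bool.and_eq_true, Nat.ble_eq] at this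
      exact_mod_cast this.1
    have h3 : ((qt.getD 9 0 : ℕ) : ℝ) / 10^6 ≤ 0.24 := by
      rw [div_le_iff₀ (by norm_num)]; linarith
    linarith
  hvc := by norm_num
  hcc := by norm_num
  hQc := fun r h0 _ => chkLine_sound qt_ok (by norm_num) klq h0
  hSlc := fun r h0 _ => chkLine_sound (monoL_of km5) (by norm_num) kl5 h0
  hSlQ := fun r h1 => chkSh_sound qt_ok (monoL_of km5) (by norm_num) (by norm_num) kshs
    (by have := Par.Y_pos h; norm_num; linarith)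
  hSlV := fun L h0 h1 => chkO_sound h qt_ok (by norm_num) (by norm_num) (by norm_num) ko5 (by norm_num; exact h0) h0 h1
    (by norm_num)
  hScc := fun r h0 _ => chkLine_sound (monoL_of km6) (by norm_num) kl6 h0
  hScQ := fun r h1 => chkS12_sound qt_ok (monoL_of km6) ks12 (by have := Par.Y_pos h; linarith)
  hScV := fun L h0 h1 => chkO_sound h qt_ok (by norm_num) (by norm_num) (by norm_num) ko6 (by norm_num; linarith) (by linarith) h1
    (by norm_num; linarith)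
  hA := fun hv hδ hδ1 hΦ e he => famA h hv hδ hδ1 hΦ he
  hB := fun t ht a ha ha1 => famB h ht ha ha1

end Pool.Agent.CDk
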